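import Mathlib

/-! # Artin groups of Coxeter matrices -/

namespace SPH

universe u

/-- Alternating product `a b a ⋯` with `n` factors. -/
def altProd {A : Type*} [Monoid A] (a b : A) : ℕ → A
  | 0 => 1
  | n + 1 => a * altProd b a n

/-- Relators of the Artin group of a Coxeter matrix: `s t s ⋯ = t s t ⋯` with `M s t` factors on
both sides, for all `s`, `t` with `M s t ≠ 0` (in Mathlib's Coxeter matrices `M s t = 0` encodes
`m_{st} = ∞`, that is, no relation). -/
def artinRelM {S : Type u} (M : CoxeterMatrix S) : Set (FreeGroup S) :=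
  {r | ∃ s t, M s t ≠ 0 ∧ r = altProd (FreeGroup.of s) (FreeGroup.of t) (M s t) *
      (altProd (FreeGroup.of t) (FreeGroup.of s) (M s t))⁻¹}

/-- The Artin group of a Coxeter matrix. -/
abbrev ArtinGroup {S : Type u} (M : CoxeterMatrix S) : Type u := PresentedGroup (artinRelM M)

end SPH
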