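import Mathlib

section

/-! # An arithmetic lemma in `ℤ⟦X⟧` (job B3) -/

namespace SPH

private theorem primeLem_Q (p : ℕ) [Fact p.Prime] :
    ∑ i ∈ Finset.range p, (1 + PowerSeries.X : PowerSeries (ZMod p)) ^ i =
      PowerSeries.X ^ (p - 1) := by
  have hp : p.Prime := Fact.out
  have : CharP (PowerSeries (ZMod p)) p := charP_of_injective_ringHom
    (f := (PowerSeries.C : ZMod p →+* PowerSeries (ZMod p))) PowerSeries.C_injective p
  have h1 := geom_sum_mul (1 + PowerSeries.X : PowerSeries (ZMod p)) p
  rw [add_sub_cancel_left, add_pow_char, one_pow, add_sub_cancel_left] at h1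
  have h2 : (PowerSeries.X : PowerSeries (ZMod p)) ^ p =
      PowerSeries.X ^ (p - 1) * PowerSeries.X := by
    rw [← pow_succ]
    congr 1
    have := hp.pos
    omega
  rw [h2] at h1
  exact mul_right_cancel₀ PowerSeries.X_ne_zero h1

theorem prime_not_mem (p k : ℕ) (hp : p.Prime) (hk : p ≤ k) :
    ¬ ∃ a b : PowerSeries ℤ, (p : PowerSeries ℤ) =
      a * ∑ i ∈ Finset.range p, (1 + PowerSeries.X) ^ i + PowerSeries.X ^ k * b := by
  rintro ⟨a, b, h⟩
  have : Fact p.Prime := ⟨hp⟩
  have hp0 := hp.pos
  -- constant terms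
  have ha : PowerSeries.constantCoeff a = 1 := by
    have h1 := congrArg (PowerSeries.constantCoeff (R := ℤ)) h
    have hk0 : k ≠ 0 := by omega
    simp only [map_natCast, map_add, map_mul, map_sum, map_pow, map_one,
      PowerSeries.constantCoeff_X, add_zero, one_pow, Finset.sum_const, Finset.card_range,
      nsmul_eq_mul, mul_one, zero_pow hk0, zero_mul] at h1
    have hpz : (p : ℤ) ≠ 0 := by exact_mod_cast hp0.ne'
    have h2 : (1 : ℤ) * p = PowerSeries.constantCoeff a * p := by rw [one_mul]; exact h1
    exact (mul_right_cancel₀ hpz h2).symm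
  -- reduction mod `p`
  have h1 := congrArg (PowerSeries.map (Int.castRingHom (ZMod p))) h
  have hp' : ((p : ℕ) : PowerSeries (ZMod p)) = 0 := by
    have : CharP (PowerSeries (ZMod p)) p := charP_of_injective_ringHom
      (f := (PowerSeries.C : ZMod p →+* PowerSeries (ZMod p))) PowerSeries.C_injective p
    exact CharP.cast_eq_zero _ p
  simp only [map_natCast, map_add, map_mul, map_sum, map_pow, map_one, PowerSeries.map_X] at h1
  rw [hp', primeLem_Q] at h1
  have h2 : (PowerSeries.X : PowerSeries (ZMod p)) ^ k =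
      PowerSeries.X ^ (p - 1) * PowerSeries.X ^ (k - p + 1) := by
    rw [← pow_add]
    congr 1
    omega
  rw [h2] at h1
  have h3 : PowerSeries.map (Int.castRingHom (ZMod p)) a +
      PowerSeries.X ^ (k - p + 1) * PowerSeries.map (Int.castRingHom (ZMod p)) b = 0 := by
    have h4 : (PowerSeries.X : PowerSeries (ZMod p)) ^ (p - 1) *
        (PowerSeries.map (Int.castRingHom (ZMod p)) a +
          PowerSeries.X ^ (k - p + 1) * PowerSeries.map (Int.castRingHom (ZMod p)) b) = 0 := by
      rw [h1]
      ring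
    rcases mul_eq_zero.1 h4 with h5 | h5
    · exact absurd h5 (pow_ne_zero _ PowerSeries.X_ne_zero)
    · exact h5
  have h5 := congrArg (PowerSeries.constantCoeff (R := ZMod p)) h3
  have hk1 : k - p + 1 ≠ 0 := by omega
  simp only [map_add, map_mul, map_pow, PowerSeries.constantCoeff_X, zero_pow hk1, zero_mul,
    add_zero, map_zero] at h5
  rw [← PowerSeries.coeff_zero_eq_constantCoeff_apply, PowerSeries.coeff_map,
    PowerSeries.coeff_zero_eq_constantCoeff_apply, ha] at h5
  simp at h5

/-- The unit `1 + X` of `ℤ⟦X⟧`. -/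
noncomputable def tU : (PowerSeries ℤ)ˣ :=
  (PowerSeries.isUnit_iff_constantCoeff.2 (by simp) :
    IsUnit (1 + PowerSeries.X : PowerSeries ℤ)).unit

theorem tU_val : (tU : PowerSeries ℤ) = 1 + PowerSeries.X := IsUnit.unit_spec _

/-- The unit `1 + 2 X`. -/
noncomputable def xU : (PowerSeries ℤ)ˣ :=
  (PowerSeries.isUnit_iff_constantCoeff.2 (by simp) :
    IsUnit (1 + 2 * PowerSeries.X : PowerSeries ℤ)).unit

theorem xU_val : (xU : PowerSeries ℤ) = 1 + 2 * PowerSeries.X := IsUnit.unit_spec _

end SPH
end

section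

/-!
# Definitions for the ring-theoretic part (Farkas-Snider for virtually central-poly-Z groups)
-/

namespace SPH

universe u

/-- The augmentation `K[G] → K`, sum of coefficients. -/
noncomputable def aug (K : Type u) [CommRing K] (G : Type u) [Group G] : MonoidAlgebra K G →+* K :=
  (MonoidAlgebra.lift K K G (1 : G →* K) : MonoidAlgebra K G →ₐ[K] K)

/-- Groups having a central series with infinite cyclic factors (equivalently: finitely generated
torsion free nilpotent groups). -/
inductive CPZ : (N : Type u) → [Group N] → Prop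
  | triv (N : Type u) [Group N] [Subsingleton N] : CPZ N
  | ext (N N' : Type u) [Group N] [Group N'] (f : N →* N') (hf : Function.Surjective f) (z : N)
      (hz : z ∈ Subgroup.center N) (hker : f.ker = Subgroup.zpowers z)
      (hinf : ∀ n : ℤ, z ^ n = 1 → n = 0) (h : CPZ N') : CPZ N

/-- Poly-Z groups. -/
inductive PolyZ : (N : Type u) → [Group N] → Prop
  | triv (N : Type u) [Group N] [Subsingleton N] : PolyZ N
  | ext (N : Type u) [Group N] (f : N →* Multiplicative ℤ) (hf : Function.Surjective f)
      (h : PolyZ f.ker) : PolyZ N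

/-- `PDLE R n M`: the `R`-module `M` has projective dimension at most `n`. -/
def PDLE (R : Type u) [Ring R] : ∀ (_ : ℕ) (M : Type u) [AddCommGroup M] [Module R M], Prop
  | 0, M, _, _ => Module.Projective R M
  | n + 1, M, _, _ => ∃ (F : Type u) (_ : AddCommGroup F) (_ : Module R F) (f : F →ₗ[R] M),
      Module.Projective R F ∧ Function.Surjective f ∧ PDLE R n (LinearMap.ker f)

/-- The inclusion `K[N] → K[Γ]` for a subgroup `N` of `Γ`. -/
noncomputable def resHom (K : Type u) [CommRing K] {Γ : Type u} [Group Γ] (N : Subgroup Γ) :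
    MonoidAlgebra K N →+* MonoidAlgebra K Γ :=
  MonoidAlgebra.mapDomainRingHom K N.subtype

/-- `K[Γ]` as a left `K[N]`-module. -/
noncomputable instance subModule (K : Type u) [CommRing K] {Γ : Type u} [Group Γ] (N : Subgroup Γ) :
    Module (MonoidAlgebra K N) (MonoidAlgebra K Γ) :=
  Module.compHom (MonoidAlgebra K Γ) (resHom K N)

theorem sub_smul_def (K : Type u) [CommRing K] {Γ : Type u} [Group Γ] (N : Subgroup Γ)
    (r : MonoidAlgebra K N) (x : MonoidAlgebra K Γ) : r • x = resHom K N r * x := rfl

instance subTower (K : Type u) [CommRing K] {Γ : Type u} [Group Γ] (N : Subgroup Γ) :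
    IsScalarTower (MonoidAlgebra K N) (MonoidAlgebra K Γ) (MonoidAlgebra K Γ) :=
  ⟨fun r x y => by simp only [sub_smul_def, smul_eq_mul, mul_assoc]⟩

end SPH
end

section

section

/-!
# Simply laced diagrams: root lattice, roots, Artin groups, the two families of operators

A simply laced Coxeter diagram is a `SimpleGraph` on a finite type `S`.
-/

namespace SPH

open scoped Classical
open Polynomial

universe u

section Lattice

variable {S : Type u} [Fintype S] [DecidableEq S] (G : SimpleGraph S)

/-- Cartan matrix. -/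
noncomputable def cart (s t : S) : ℤ := if s = t then 2 else if G.Adj s t then -1 else 0

/-- The bilinear form of the root lattice `S → ℤ`. -/
noncomputable def bil (v w : S → ℤ) : ℤ := ∑ s, ∑ t, v s * cart G s t * w t

/-- The form is positive definite. -/
def PosDef : Prop := ∀ v : S → ℤ, v ≠ 0 → 0 < bil G v v

/-- Simple root. -/
def sr (s : S) : S → ℤ := Pi.single s 1

/-- Pairing with the simple root `sr s`. -/
noncomputable def pr (s : S) (v : S → ℤ) : ℤ := ∑ t, cart G s t * v t

/-- Reflection in the simple root `sr s`. -/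
noncomputable def rf (s : S) (v : S → ℤ) : S → ℤ := v - pr G s v • sr s

/-- Roots of the simply laced (positive definite) lattice: vectors of norm two. -/
def IsRoot (v : S → ℤ) : Prop := bil G v v = 2

/-- Positive roots. -/
def IsPos (v : S → ℤ) : Prop := IsRoot G v ∧ ∀ s, 0 ≤ v s

/-- The type of positive roots. -/
abbrev PRoot : Type u := {v : S → ℤ // IsPos G v}

/-- Height. -/
def ht (v : S → ℤ) : ℤ := ∑ s, v s

/-- Reflection as a linear equivalence of the root lattice. -/
noncomputable def rfL (s : S) : (S → ℤ) →ₗ[ℤ] (S → ℤ) where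
  toFun := rf G s
  map_add' v w := by
    simp only [rf, pr, Pi.add_apply, mul_add, Finset.sum_add_distrib, add_smul]
    abel
  map_smul' c v := by
    simp only [rf, pr, Pi.smul_apply, smul_eq_mul, RingHom.id_apply, smul_sub]
    rw [← mul_smul]
    congr 2
    rw [Finset.mul_sum]
    exact Finset.sum_congr rfl fun t _ => by ring

end Lattice

section Group

variable {S : Type u}

/-- Relators of the Artin group of a simply laced diagram. -/
def artinRel (G : SimpleGraph S) : Set (FreeGroup S) :=
  {r | ∃ s t, ¬ G.Adj s t ∧ r = FreeGroup.of s * FreeGroup.of t *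
      (FreeGroup.of t * FreeGroup.of s)⁻¹} ∪
  {r | ∃ s t, G.Adj s t ∧ r = FreeGroup.of s * FreeGroup.of t * FreeGroup.of s *
      (FreeGroup.of t * FreeGroup.of s * FreeGroup.of t)⁻¹}

/-- The Artin group of a simply laced diagram. -/
abbrev AGrp (G : SimpleGraph S) : Type u := PresentedGroup (artinRel G)

/-- The standard generators. -/
def gen (G : SimpleGraph S) (s : S) : AGrp G := PresentedGroup.of s

/-- A family satisfying the braid relations of the diagram. -/
def IsBraid (G : SimpleGraph S) {A : Type*} [Mul A] (σ : S → A) : Prop :=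
  (∀ s t, ¬ G.Adj s t → σ s * σ t = σ t * σ s) ∧
  (∀ s t, G.Adj s t → σ s * σ t * σ s = σ t * σ s * σ t)

theorem gen_braid (G : SimpleGraph S) : IsBraid G (gen G) := by
  constructor
  · intro s t h
    have : (PresentedGroup.mk (artinRel G)) (FreeGroup.of s * FreeGroup.of t *
      (FreeGroup.of t * FreeGroup.of s)⁻¹) = 1 := by
      apply PresentedGroup.one_of_mem
      exact Or.inl ⟨s, t, h, rfl⟩
    rw [map_mul, map_inv, mul_inv_eq_one] at this
    simp only [map_mul] at this
    exact this
  · intro s t h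
    have : (PresentedGroup.mk (artinRel G)) (FreeGroup.of s * FreeGroup.of t * FreeGroup.of s *
      (FreeGroup.of t * FreeGroup.of s * FreeGroup.of t)⁻¹) = 1 := by
      apply PresentedGroup.one_of_mem
      exact Or.inr ⟨s, t, h, rfl⟩
    rw [map_mul, map_inv, mul_inv_eq_one] at this
    simp only [map_mul] at this
    exact this

/-- Universal property. -/
def AGrp.lift (G : SimpleGraph S) {A : Type*} [Group A] (σ : S → A) (h : IsBraid G σ) :
    AGrp G →* A :=
  PresentedGroup.toGroup (f := σ) (by
    rintro r (⟨s, t, hst, rfl⟩ | ⟨s, t, hst, rfl⟩)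
    · simp only [map_mul, map_inv, FreeGroup.lift_apply_of, h.1 s t hst, mul_inv_cancel]
    · simp only [map_mul, map_inv, FreeGroup.lift_apply_of, h.2 s t hst, mul_inv_cancel])

theorem AGrp.lift_gen (G : SimpleGraph S) {A : Type*} [Group A] (σ : S → A) (h : IsBraid G σ)
    (s : S) : AGrp.lift G σ h (gen G s) = σ s := by
  simp [AGrp.lift, gen]

end Group

section Ops

variable {S : Type u} [Fintype S] [DecidableEq S] (G : SimpleGraph S)

/-- Extension by zero of a function on positive roots. -/
noncomputable def ext0 {R : Type*} [CommRing R] (f : PRoot G → R) (v : S → ℤ) : R :=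
  if h : IsPos G v then f ⟨v, h⟩ else 0

/-- The polynomials of the Lawrence-Krammer type representation. -/
structure TData where
  T : S → (S → ℤ) → ℤ[X]
  self : ∀ s, T s (sr s) = X ^ 2
  other : ∀ s t, s ≠ t → T s (sr t) = 0
  one : ∀ s v, IsPos G v → pr G s v = 1 → T s v = X ^ (ht v).toNat * (X - 1)
  far : ∀ s t v, s ≠ t → ¬ G.Adj s t → IsPos G v → pr G t v = 1 → T s v = X * T s (v - sr t)
  mid : ∀ s t v, G.Adj s t → IsPos G v → pr G s v = 0 → pr G t v = 1 →
    T s v = X * T t (v - sr s - sr t) + X ^ ((ht v).toNat - 1) * (X - 1) ^ 2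
  low : ∀ s t v, G.Adj s t → IsPos G v → pr G s v = -1 → pr G t v = 1 →
    T s v = T t (v - sr t) + (X - 1) * T s (v - sr t)
  zero : ∀ s t v, G.Adj s t → IsPos G v → pr G s v = 0 → pr G t v = 0 → T s v = T t v
  spec : ∀ s v, IsPos G v → v ≠ sr s → (T s v).eval 1 = 0

variable {G}

/-- The Lawrence-Krammer type operators on functions on the positive roots. -/
noncomputable def lk (D : TData G) [Fintype (PRoot G)] {R : Type*} [CommRing R] (x y : R) (s : S) :
    (PRoot G → R) →ₗ[R] (PRoot G → R) where
  toFun f γ := if γ.1 = sr s then x * ∑ β : PRoot G, aeval y (D.T s β.1) * f β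
    else if pr G s γ.1 = 0 then f γ
    else if pr G s γ.1 = 1 then ext0 G f (γ.1 - sr s)
    else (1 - y) * f γ + y * ext0 G f (γ.1 + sr s)
  map_add' f g := by
    funext γ
    simp only [Pi.add_apply, ext0]
    split_ifs
    · simp only [mul_add, Finset.sum_add_distrib]
    all_goals ring
  map_smul' c f := by
    funext γ
    simp only [Pi.smul_apply, ext0, smul_eq_mul, RingHom.id_apply]
    split_ifs
    · rw [Finset.mul_sum, Finset.mul_sum, Finset.mul_sum]
      exact Finset.sum_congr rfl fun β _ => by ring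
    all_goals ring

variable (G)

/-- Labelled configurations: `κ i j` = `x_i - x_j`, all differences roots. -/
abbrev Conf (I : Type) : Type u :=
  {κ : I → I → (S → ℤ) // (∀ i j k, κ i j + κ j k = κ i k) ∧ ∀ i j, i ≠ j → IsRoot G (κ i j)}

variable {G}

end Ops

end SPH
end

section

/-!
# Basic algebra of the form and the reflections
-/

namespace SPH

open scoped Classical
open Polynomial

universe u

set_option linter.unusedSectionVars false

variable {S : Type u} [Fintype S] [DecidableEq S] (G : SimpleGraph S)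

theorem cart_comm (s t : S) : cart G s t = cart G t s := by
  unfold cart
  rcases eq_or_ne s t with rfl | h
  · rfl
  · simp [h, h.symm, G.adj_comm s t]

theorem cart_self (s : S) : cart G s s = 2 := by simp [cart]

theorem cart_adj {s t : S} (h : G.Adj s t) : cart G s t = -1 := by
  simp [cart, h, h.ne]

theorem cart_not_adj {s t : S} (hne : s ≠ t) (h : ¬ G.Adj s t) : cart G s t = 0 := by
  simp [cart, h, hne]

theorem bil_eq (v w : S → ℤ) : bil G v w = ∑ s, v s * pr G s w := by
  unfold bil pr
  refine Finset.sum_congr rfl fun s _ => ?_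
  rw [Finset.mul_sum]
  exact Finset.sum_congr rfl fun t _ => by ring

theorem bil_comm (v w : S → ℤ) : bil G v w = bil G w v := by
  unfold bil
  rw [Finset.sum_comm]
  refine Finset.sum_congr rfl fun s _ => Finset.sum_congr rfl fun t _ => ?_
  rw [cart_comm G t s]; ring

theorem pr_add (s : S) (v w : S → ℤ) : pr G s (v + w) = pr G s v + pr G s w := by
  simp [pr, mul_add, Finset.sum_add_distrib]

theorem pr_smul (s : S) (c : ℤ) (v : S → ℤ) : pr G s (c • v) = c * pr G s v := by
  simp only [pr, Pi.smul_apply, smul_eq_mul, Finset.mul_sum]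
  exact Finset.sum_congr rfl fun t _ => by ring

theorem pr_neg (s : S) (v : S → ℤ) : pr G s (-v) = - pr G s v := by
  simp [pr, Finset.sum_neg_distrib]

theorem pr_sub (s : S) (v w : S → ℤ) : pr G s (v - w) = pr G s v - pr G s w := by
  rw [sub_eq_add_neg, pr_add, pr_neg]; ring

theorem pr_zero (s : S) : pr G s 0 = 0 := by simp [pr]

theorem pr_sr (s t : S) : pr G s (sr t) = cart G s t := by
  simp [pr, sr, Pi.single_apply]

theorem bil_add_left (u v w : S → ℤ) : bil G (u + v) w = bil G u w + bil G v w := by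
  simp [bil_eq, add_mul, Finset.sum_add_distrib]

theorem bil_add_right (u v w : S → ℤ) : bil G u (v + w) = bil G u v + bil G u w := by
  rw [bil_comm, bil_add_left, bil_comm G v, bil_comm G w]

theorem bil_smul_left (c : ℤ) (v w : S → ℤ) : bil G (c • v) w = c * bil G v w := by
  simp only [bil_eq, Pi.smul_apply, smul_eq_mul, Finset.mul_sum]
  exact Finset.sum_congr rfl fun t _ => by ring

theorem bil_smul_right (c : ℤ) (v w : S → ℤ) : bil G v (c • w) = c * bil G v w := by
  rw [bil_comm, bil_smul_left, bil_comm]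

theorem bil_neg_left (v w : S → ℤ) : bil G (-v) w = - bil G v w := by
  rw [← neg_one_smul ℤ v, bil_smul_left]; ring

theorem bil_neg_right (v w : S → ℤ) : bil G v (-w) = - bil G v w := by
  rw [bil_comm, bil_neg_left, bil_comm]

theorem bil_sub_left (u v w : S → ℤ) : bil G (u - v) w = bil G u w - bil G v w := by
  rw [sub_eq_add_neg, bil_add_left, bil_neg_left]; ring

theorem bil_sub_right (u v w : S → ℤ) : bil G u (v - w) = bil G u v - bil G u w := by
  rw [bil_comm, bil_sub_left, bil_comm G v, bil_comm G w]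

theorem bil_zero_left (v : S → ℤ) : bil G 0 v = 0 := by simp [bil_eq]

theorem bil_zero_right (v : S → ℤ) : bil G v 0 = 0 := by rw [bil_comm, bil_zero_left]

theorem bil_sum_left {ι : Type*} (s : Finset ι) (f : ι → S → ℤ) (w : S → ℤ) :
    bil G (∑ i ∈ s, f i) w = ∑ i ∈ s, bil G (f i) w := by
  induction s using Finset.induction_on with
  | empty => simp [bil_zero_left]
  | insert a s ha ih => rw [Finset.sum_insert ha, Finset.sum_insert ha, bil_add_left, ih]

theorem bil_sr_left (s : S) (v : S → ℤ) : bil G (sr s) v = pr G s v := by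
  simp [bil_eq, sr, Pi.single_apply]

theorem bil_sr_right (s : S) (v : S → ℤ) : bil G v (sr s) = pr G s v := by
  rw [bil_comm, bil_sr_left]

theorem isRoot_sr (s : S) : IsRoot G (sr s) := by
  rw [IsRoot, bil_sr_left, pr_sr, cart_self]

theorem isPos_sr (s : S) : IsPos G (sr s) :=
  ⟨isRoot_sr G s, fun t => by by_cases h : t = s <;> simp [sr, h]⟩

theorem pr_rf (s : S) (v : S → ℤ) : pr G s (rf G s v) = - pr G s v := by
  rw [rf, pr_sub, pr_smul, pr_sr, cart_self]; ring

theorem rf_rf (s : S) (v : S → ℤ) : rf G s (rf G s v) = v := by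
  rw [rf, pr_rf, rf]; simp

theorem bil_rf_rf (s : S) (v w : S → ℤ) : bil G (rf G s v) (rf G s w) = bil G v w := by
  simp only [rf, bil_sub_left, bil_sub_right, bil_smul_left, bil_smul_right, bil_sr_left,
    bil_sr_right, pr_sr, cart_self, pr_sub, pr_smul]
  ring

theorem isRoot_rf {v : S → ℤ} (s : S) (h : IsRoot G v) : IsRoot G (rf G s v) := by
  rw [IsRoot, bil_rf_rf]; exact h

theorem isRoot_neg {v : S → ℤ} (h : IsRoot G v) : IsRoot G (-v) := by
  rw [IsRoot, bil_neg_left, bil_neg_right, neg_neg]; exact h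

theorem rf_add (s : S) (v w : S → ℤ) : rf G s (v + w) = rf G s v + rf G s w :=
  (rfL G s).map_add v w

theorem rf_neg (s : S) (v : S → ℤ) : rf G s (-v) = - rf G s v := (rfL G s).map_neg v

theorem rf_sub (s : S) (v w : S → ℤ) : rf G s (v - w) = rf G s v - rf G s w :=
  (rfL G s).map_sub v w

theorem rf_sr (s : S) : rf G s (sr s) = - sr s := by
  rw [rf, pr_sr, cart_self]; ext t; simp; ring

/-- The reflections satisfy the braid relations (pointwise form). -/
theorem rf_comm {s t : S} (h : ¬ G.Adj s t) (v : S → ℤ) :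
    rf G s (rf G t v) = rf G t (rf G s v) := by
  rcases eq_or_ne s t with rfl | hne
  · rfl
  have h' : ¬ G.Adj t s := fun h1 => h h1.symm
  ext x
  simp only [rf, pr_sub, pr_smul, pr_sr, cart_not_adj G hne h, cart_not_adj G hne.symm h',
    Pi.sub_apply, Pi.smul_apply, smul_eq_mul]
  ring

theorem rf_braid {s t : S} (h : G.Adj s t) (v : S → ℤ) :
    rf G s (rf G t (rf G s v)) = rf G t (rf G s (rf G t v)) := by
  ext x
  simp only [rf, pr_sub, pr_smul, pr_sr, cart_adj G h, cart_adj G h.symm, cart_self,
    Pi.sub_apply, Pi.smul_apply, smul_eq_mul]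
  ring

/-- The reflection as a linear equivalence. -/
noncomputable def rfE (s : S) : (S → ℤ) ≃ₗ[ℤ] (S → ℤ) :=
  LinearEquiv.ofInvolutive (rfL G s) (rf_rf G s)

theorem rfE_apply (s : S) (v : S → ℤ) : rfE G s v = rf G s v := rfl

theorem rfE_braid : IsBraid G (rfE G) :=
  ⟨fun _ _ h => LinearEquiv.ext fun v => rf_comm G h v,
   fun _ _ h => LinearEquiv.ext fun v => rf_braid G h v⟩

/-- The projection from the Artin group to the Weyl group (acting on the root lattice). -/
noncomputable def toW : AGrp G →* ((S → ℤ) ≃ₗ[ℤ] (S → ℤ)) := AGrp.lift G (rfE G) (rfE_braid G)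

theorem toW_gen (s : S) : toW G (gen G s) = rfE G s := AGrp.lift_gen G _ _ s

theorem bil_toW (g : AGrp G) (v w : S → ℤ) : bil G (toW G g v) (toW G g w) = bil G v w := by
  have key : ∀ g : AGrp G, g ∈ (⊤ : Subgroup (AGrp G)) →
      ∀ v w, bil G (toW G g v) (toW G g w) = bil G v w := by
    rw [← PresentedGroup.closure_range_of (artinRel G)]
    intro g hg
    induction hg using Subgroup.closure_induction with
    | mem x hx =>
      obtain ⟨s, rfl⟩ := hx
      intro v w
      have : toW G (PresentedGroup.of s) = rfE G s := toW_gen G s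
      rw [this]
      exact bil_rf_rf G s v w
    | one => intro v w; simp
    | mul x y _ _ hx hy => intro v w; rw [map_mul]; exact (hx _ _).trans (hy v w)
    | inv x _ hx =>
      intro v w
      rw [map_inv]
      have := hx ((toW G x)⁻¹ v) ((toW G x)⁻¹ w)
      rw [← this]
      congr 1
      · exact (toW G x).apply_symm_apply v
      · exact (toW G x).apply_symm_apply w
  exact key g trivial v w

theorem isRoot_toW (g : AGrp G) {v : S → ℤ} (h : IsRoot G v) : IsRoot G (toW G g v) := by
  rw [IsRoot, bil_toW]; exact h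

variable {I : Type}

/-- The reflection acting on configurations. -/
noncomputable def crf (s : S) (κ : Conf G I) : Conf G I :=
  ⟨fun i j => rf G s (κ.1 i j), fun i j k => by rw [← rf_add, κ.2.1],
    fun i j h => isRoot_rf G s (κ.2.2 i j h)⟩

theorem crf_crf (s : S) (κ : Conf G I) : crf G s (crf G s κ) = κ :=
  Subtype.ext (funext fun i => funext fun j => rf_rf G s (κ.1 i j))

/-- The Weyl group acting on configurations. -/
noncomputable def cw (g : AGrp G) (κ : Conf G I) : Conf G I :=
  ⟨fun i j => toW G g (κ.1 i j), fun i j k => by rw [← map_add, κ.2.1],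
    fun i j h => isRoot_toW G g (κ.2.2 i j h)⟩

/-- The unreduced Burau type operators on functions on labelled configurations. -/
noncomputable def bu {R : Type*} [CommRing R] [Fintype I] (t : R) (s : S) :
    (Conf G I → I → R) →ₗ[R] (Conf G I → I → R) where
  toFun F κ i := F (crf G s κ) i +
    ∑ j, if κ.1 i j = sr s then (1 - t) * (F (crf G s κ) j - F (crf G s κ) i) else 0
  map_add' F F' := by
    funext κ i
    simp only [Pi.add_apply]
    rw [add_add_add_comm, ← Finset.sum_add_distrib]
    congr 1
    refine Finset.sum_congr rfl fun j _ => ?_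
    split_ifs <;> ring
  map_smul' c F := by
    funext κ i
    simp only [Pi.smul_apply, smul_eq_mul, RingHom.id_apply]
    rw [mul_add, Finset.mul_sum]
    congr 1
    refine Finset.sum_congr rfl fun j _ => ?_
    split_ifs <;> ring

end SPH
end

section

/-! # Roots of a positive definite simply laced lattice (job L1) -/

namespace SPH

open scoped Classical
open Polynomial

universe u

set_option linter.unusedSectionVars false

variable {S : Type u} [Fintype S] [DecidableEq S] {G : SimpleGraph S}

theorem bil_self_even (v : S → ℤ) : Even (bil G v v) := by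
  have h : ((bil G v v : ℤ) : ZMod 2) = 0 := by
    have h2 : ((bil G v v : ℤ) : ZMod 2) = ∑ p ∈ (Finset.univ : Finset S) ×ˢ Finset.univ,
        ((v p.1 * cart G p.1 p.2 * v p.2 : ℤ) : ZMod 2) := by
      rw [Finset.sum_product]
      unfold bil
      push_cast
      rfl
    rw [h2]
    refine Finset.sum_involution (fun p _ => (p.2, p.1)) (fun p _ => ?_) (fun p _ hp => ?_)
      (fun p _ => by simp) (fun p _ => rfl)
    · have e : (v p.2 * cart G p.2 p.1 * v p.1 : ℤ) = v p.1 * cart G p.1 p.2 * v p.2 := by
        rw [cart_comm G p.2 p.1]; ring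
      simp only
      rw [e, ← Int.cast_add, ← two_mul]
      push_cast
      have : (2 : ZMod 2) = 0 := rfl
      rw [this, zero_mul]
    · intro heq
      apply hp
      have h12 : p.1 = p.2 := (congrArg Prod.fst heq).symm
      rw [← h12, cart_self]
      push_cast
      have : (2 : ZMod 2) = 0 := rfl
      rw [this]
      ring
  rw [even_iff_two_dvd]
  exact (ZMod.intCast_zmod_eq_zero_iff_dvd _ 2).1 h

theorem IsRoot.ne_zero {v : S → ℤ} (h : IsRoot G v) : v ≠ 0 := by
  rintro rfl
  rw [IsRoot, bil_zero_left] at h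
  norm_num at h

theorem bil_le_one (hG : PosDef G) {v w : S → ℤ} (hv : IsRoot G v) (hw : IsRoot G w)
    (hne : v ≠ w) : bil G v w ≤ 1 := by
  have h := hG (v - w) (sub_ne_zero.2 hne)
  rw [bil_sub_left, bil_sub_right, bil_sub_right, bil_comm G w v] at h
  rw [IsRoot] at hv hw
  omega

theorem neg_one_le_bil (hG : PosDef G) {v w : S → ℤ} (hv : IsRoot G v) (hw : IsRoot G w)
    (hne : v ≠ -w) : -1 ≤ bil G v w := by
  have h := hG (v + w) (fun h0 => hne (eq_neg_of_add_eq_zero_left h0))
  rw [bil_add_left, bil_add_right, bil_add_right, bil_comm G w v] at h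
  rw [IsRoot] at hv hw
  omega

private theorem two_le_bil (hG : PosDef G) {a : S → ℤ} (ha : a ≠ 0) : 2 ≤ bil G a a := by
  have h1 := hG a ha
  obtain ⟨k, hk⟩ := bil_self_even (G := G) a
  omega

theorem IsRoot.pos_or_neg (hG : PosDef G) {v : S → ℤ} (hv : IsRoot G v) :
    IsPos G v ∨ IsPos G (-v) := by
  obtain ⟨a, ha⟩ : ∃ a : S → ℤ, a = fun s => max (v s) 0 := ⟨_, rfl⟩
  obtain ⟨b, hb⟩ : ∃ b : S → ℤ, b = fun s => max (-v s) 0 := ⟨_, rfl⟩
  have ha' : ∀ s, a s = max (v s) 0 := fun s => by rw [ha]
  have hb' : ∀ s, b s = max (-v s) 0 := fun s => by rw [hb]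
  have hvab : v = a - b := by
    funext s
    rw [Pi.sub_apply, ha' s, hb' s]
    omega
  have hab : bil G a b ≤ 0 := by
    unfold bil
    refine Finset.sum_nonpos fun s _ => Finset.sum_nonpos fun t _ => ?_
    have h1 : 0 ≤ a s := by rw [ha' s]; exact le_max_right _ _
    have h2 : 0 ≤ b t := by rw [hb' t]; exact le_max_right _ _
    by_cases hst : s = t
    · subst hst
      have h3 : a s * b s = 0 := by
        rw [ha' s, hb' s]
        rcases le_total (v s) 0 with h | h
        · rw [max_eq_right h, zero_mul]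
        · rw [max_eq_right (by omega : -v s ≤ 0), mul_zero]
      have h4 : a s * cart G s s * b s = cart G s s * (a s * b s) := by ring
      rw [h4, h3, mul_zero]
    · have h3 : cart G s t ≤ 0 := by
        unfold cart
        rw [if_neg hst]
        split_ifs <;> norm_num
      have h4 : a s * cart G s t * b t = (a s * b t) * cart G s t := by ring
      rw [h4]
      exact mul_nonpos_of_nonneg_of_nonpos (mul_nonneg h1 h2) h3
  have hvv : bil G v v = bil G a a + bil G b b - 2 * bil G a b := by
    rw [hvab, bil_sub_left, bil_sub_right, bil_sub_right, bil_comm G b a]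
    ring
  by_cases hb0 : b = 0
  · left
    refine ⟨hv, fun s => ?_⟩
    have h1 := hb' s
    rw [hb0] at h1
    have h2 : (0 : S → ℤ) s = 0 := rfl
    omega
  · by_cases ha0 : a = 0
    · right
      refine ⟨isRoot_neg G hv, fun s => ?_⟩
      have h1 := ha' s
      rw [ha0] at h1
      have h2 : (0 : S → ℤ) s = 0 := rfl
      rw [Pi.neg_apply]
      omega
    · exfalso
      have h1 := two_le_bil hG ha0
      have h2 := two_le_bil hG hb0
      rw [IsRoot] at hv
      omega

theorem IsPos.not_neg {v : S → ℤ} (hv : IsPos G v) : ¬ IsPos G (-v) := by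
  intro h
  apply hv.1.ne_zero
  funext s
  have h1 := hv.2 s
  have h2 := h.2 s
  rw [Pi.neg_apply] at h2
  rw [Pi.zero_apply]
  omega

private theorem abs_pr_le (hG : PosDef G) {v : S → ℤ} (hv : IsRoot G v) (t : S) :
    -2 ≤ pr G t v ∧ pr G t v ≤ 2 := by
  by_cases h1 : v = sr t
  · rw [h1, pr_sr, cart_self]
    norm_num
  by_cases h2 : v = -sr t
  · rw [h2, pr_neg, pr_sr, cart_self]
    norm_num
  have h3 := bil_le_one hG hv (isRoot_sr G t) h1
  have h4 := neg_one_le_bil hG hv (isRoot_sr G t) h2
  rw [bil_sr_right] at h3 h4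
  omega

theorem finite_root (hG : PosDef G) : {v : S → ℤ | IsRoot G v}.Finite := by
  refine Set.Finite.of_finite_image (f := fun v : S → ℤ => fun t => pr G t v) ?_ ?_
  · refine (Set.finite_Icc (fun _ : S => (-2 : ℤ)) (fun _ => 2)).subset ?_
    rintro _ ⟨v, hv, rfl⟩
    exact ⟨fun t => (abs_pr_le hG hv t).1, fun t => (abs_pr_le hG hv t).2⟩
  · intro v _ w _ h
    by_contra hne
    have h1 := hG (v - w) (sub_ne_zero.2 hne)
    rw [bil_eq] at h1
    have h2 : ∀ t, pr G t (v - w) = 0 := by
      intro t
      rw [pr_sub]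
      have := congrFun h t
      simp only at this
      omega
    simp [h2] at h1

private theorem rf_apply_ne {v : S → ℤ} {s t : S} (h : t ≠ s) : rf G s v t = v t := by
  simp [rf, sr, Pi.single_apply, h]

private theorem exists_ne_pos {v : S → ℤ} (hv : IsPos G v) {s : S} (hne : v ≠ sr s) :
    ∃ t, t ≠ s ∧ 0 < v t := by
  by_contra hcon
  push Not at hcon
  have h1 : v = v s • sr s := by
    funext t
    by_cases hts : t = s
    · subst hts
      simp [sr]
    · have h2 := hcon t hts
      have h3 := hv.2 t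
      rw [Pi.smul_apply]
      simp [sr, Pi.single_apply, hts]
      omega
  have h2 := hv.1
  rw [IsRoot, h1, bil_smul_left, bil_smul_right, bil_sr_left, pr_sr, cart_self] at h2
  have h3 := hv.2 s
  have h4 : v s * v s = 1 := by linarith
  have h5 : v s = 1 := by nlinarith
  rw [h5, one_smul] at h1
  exact hne h1

theorem IsPos.rf (hG : PosDef G) {v : S → ℤ} (hv : IsPos G v) {s : S} (hne : v ≠ sr s) :
    IsPos G (rf G s v) := by
  obtain ⟨t, hts, ht⟩ := exists_ne_pos hv hne
  rcases (isRoot_rf G s hv.1).pos_or_neg hG with h | h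
  · exact h
  · exfalso
    have h1 := h.2 t
    rw [Pi.neg_apply, rf_apply_ne hts] at h1
    omega

theorem IsPos.pr_cases (hG : PosDef G) {v : S → ℤ} (hv : IsPos G v) {s : S} (hne : v ≠ sr s) :
    pr G s v = -1 ∨ pr G s v = 0 ∨ pr G s v = 1 := by
  have h2 : v ≠ -sr s := by
    intro h
    have h3 := hv.2 s
    rw [h] at h3
    simp [sr] at h3
  have h3 := bil_le_one hG hv.1 (isRoot_sr G s) hne
  have h4 := neg_one_le_bil hG hv.1 (isRoot_sr G s) h2
  rw [bil_sr_right] at h3 h4
  omega

theorem IsPos.sub_sr (hG : PosDef G) {v : S → ℤ} (hv : IsPos G v) {s : S} (h : pr G s v = 1) :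
    IsPos G (v - sr s) := by
  have hne : v ≠ sr s := by
    rintro rfl
    rw [pr_sr, cart_self] at h
    norm_num at h
  have h1 := hv.rf hG hne
  have h2 : SPH.rf G s v = v - sr s := by
    unfold SPH.rf
    rw [h, one_smul]
  rwa [h2] at h1

theorem IsPos.add_sr {v : S → ℤ} (hv : IsPos G v) {s : S} (h : pr G s v = -1) :
    IsPos G (v + sr s) := by
  have h0 := hv.1
  rw [IsRoot] at h0
  refine ⟨?_, fun t => ?_⟩
  · rw [IsRoot, bil_add_left, bil_add_right, bil_add_right, bil_sr_left, bil_sr_left,
      bil_sr_right, pr_sr, cart_self, h, h0]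
    norm_num
  · rw [Pi.add_apply]
    have h1 := hv.2 t
    have h2 := (isPos_sr G s).2 t
    omega

theorem IsPos.exists_pr_one (hG : PosDef G) {v : S → ℤ} (hv : IsPos G v)
    (hns : ∀ s, v ≠ sr s) : ∃ t, pr G t v = 1 := by
  by_contra hcon
  push Not at hcon
  have h1 := hv.1
  rw [IsRoot, bil_eq] at h1
  have h2 : ∑ s, v s * pr G s v ≤ 0 := by
    refine Finset.sum_nonpos fun s _ => ?_
    have h3 := hv.2 s
    have h4 := hcon s
    rcases hv.pr_cases hG (hns s) with h5 | h5 | h5
    · rw [h5]; omega
    · rw [h5]; omega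
    · exact absurd h5 h4
  omega

theorem no_triangle (hG : PosDef G) {s t u : S} (h1 : G.Adj s t) (h2 : G.Adj s u) :
    ¬ G.Adj t u := by
  intro h3
  have hne : (sr s + sr t + sr u : S → ℤ) ≠ 0 := by
    intro h
    have h4 := congrFun h s
    simp [sr, Pi.single_apply, h1.ne, h2.ne] at h4
  have h4 := hG _ hne
  simp only [bil_add_left, bil_add_right, bil_sr_left, pr_sr, cart_self, cart_adj G h1,
    cart_adj G h2, cart_adj G h3, cart_adj G h1.symm, cart_adj G h2.symm,
    cart_adj G h3.symm] at h4
  norm_num at h4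

theorem IsPos.ht_pos {v : S → ℤ} (hv : IsPos G v) : 0 < ht v := by
  unfold ht
  have h0 := hv.1.ne_zero
  have h1 : ∃ s, v s ≠ 0 := by
    by_contra hcon
    push Not at hcon
    exact h0 (funext hcon)
  obtain ⟨s, hs⟩ := h1
  refine Finset.sum_pos' (fun t _ => hv.2 t) ⟨s, Finset.mem_univ s, ?_⟩
  have := hv.2 s
  omega

theorem IsPos.ht_eq_one {v : S → ℤ} (hv : IsPos G v) (h : ht v = 1) : ∃ s, v = sr s := by
  have h0 := hv.1.ne_zero
  have h1 : ∃ s, v s ≠ 0 := by
    by_contra hcon
    push Not at hcon
    exact h0 (funext hcon)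
  obtain ⟨s, hs⟩ := h1
  refine ⟨s, ?_⟩
  have h2 := hv.2 s
  unfold ht at h
  have h3 := Finset.add_sum_erase Finset.univ v (Finset.mem_univ s)
  rw [h] at h3
  have h4 : 0 ≤ ∑ t ∈ Finset.univ.erase s, v t := Finset.sum_nonneg fun t _ => hv.2 t
  have h5 : ∑ t ∈ Finset.univ.erase s, v t = 0 := by omega
  have h6 := (Finset.sum_eq_zero_iff_of_nonneg fun t _ => hv.2 t).1 h5
  funext t
  by_cases hts : t = s
  · subst hts
    simp [sr]
    omega
  · rw [h6 t (Finset.mem_erase.2 ⟨hts, Finset.mem_univ t⟩)]
    simp [sr, Pi.single_apply, hts]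

theorem ht_add (v w : S → ℤ) : ht (v + w) = ht v + ht w := by
  simp [ht, Finset.sum_add_distrib]

theorem ht_sub (v w : S → ℤ) : ht (v - w) = ht v - ht w := by
  simp [ht, Finset.sum_sub_distrib]

theorem ht_sr (s : S) : ht (sr s) = 1 := by simp [ht, sr]

end SPH
end
end
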