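import Pool.Agent.Lib.MP_7b9603_al.Roots

section

/-! # Basic properties of the class CPZ (job R9) -/

namespace SPH

universe u v

theorem CPZ.torsionFree {N : Type u} [Group N] (h : CPZ N) (g : N) (n : ℤ) (hn : n ≠ 0)
    (hg : g ^ n = 1) : g = 1 := by
  revert g
  induction h with
  | triv N =>
    intro g _
    exact Subsingleton.elim _ _
  | ext N N' f hf z hz hker hinf h ih =>
    intro g hg
    have h1 : f g = 1 := ih (f g) (by rw [← map_zpow, hg, map_one])
    have h2 : g ∈ f.ker := h1
    rw [hker] at h2
    obtain ⟨k, rfl⟩ := Subgroup.mem_zpowers_iff.1 h2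
    rw [← zpow_mul] at hg
    have h3 : k = 0 := by
      rcases mul_eq_zero.1 (hinf _ hg) with h | h
      · exact h
      · exact absurd h hn
    rw [h3, zpow_zero]

theorem CPZ.eq_one_of_conj {N : Type u} [Group N] (h : CPZ N) (x g : N) (s : ℕ) (hs : 2 ≤ s)
    (hg : x * g * x⁻¹ = g ^ s) : g = 1 := by
  revert x g
  induction h with
  | triv N =>
    intro x g _
    exact Subsingleton.elim _ _
  | ext N N' f hf z hz hker hinf h ih =>
    intro x g hg
    have h1 : f g = 1 := ih (f x) (f g) (by
      rw [← map_mul, ← map_inv, ← map_mul, ← map_pow, hg])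
    have h2 : g ∈ f.ker := h1
    rw [hker] at h2
    obtain ⟨k, rfl⟩ := Subgroup.mem_zpowers_iff.1 h2
    have hc : z ^ k ∈ Subgroup.center N := Subgroup.zpow_mem _ hz k
    rw [Subgroup.mem_center_iff.1 hc x, mul_inv_cancel_right, ← zpow_natCast, ← zpow_mul] at hg
    have h3 : z ^ (k * (s : ℤ) - k) = 1 := by
      rw [zpow_sub, ← hg, mul_inv_cancel]
    have h4 := hinf _ h3
    have h5 : k * ((s : ℤ) - 1) = 0 := by linarith
    rcases mul_eq_zero.1 h5 with h6 | h6
    · rw [h6, zpow_zero]
    · omega

theorem CPZ.of_equiv {N N' : Type u} [Group N] [Group N'] (h : CPZ N) (e : N ≃* N') : CPZ N' := by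
  cases h with
  | triv =>
    have : Subsingleton N' := e.symm.toEquiv.subsingleton
    exact CPZ.triv N'
  | ext _ N'' f hf z hz hker hinf h' =>
    refine CPZ.ext N' N'' (f.comp e.symm.toMonoidHom) (hf.comp e.symm.surjective) (e z) ?_ ?_ ?_ h'
    · rw [Subgroup.mem_center_iff]
      intro g
      have h1 := Subgroup.mem_center_iff.1 hz (e.symm g)
      have h2 := congrArg e h1
      simpa using h2
    · ext x
      have h1 : x ∈ (f.comp e.symm.toMonoidHom).ker ↔ e.symm x ∈ f.ker := Iff.rfl
      rw [h1, hker, Subgroup.mem_zpowers_iff, Subgroup.mem_zpowers_iff]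
      refine exists_congr fun k => ?_
      rw [← map_zpow]
      constructor
      · intro h2
        rw [h2, e.apply_symm_apply]
      · intro h2
        rw [← h2, e.symm_apply_apply]
    · intro n hn
      apply hinf
      rw [← map_zpow] at hn
      exact e.injective (by rw [hn, map_one])

private theorem polyZ_of_equiv_aux {N : Type u} [Group N] (h : PolyZ N) :
    ∀ (N' : Type u) [Group N'], (N ≃* N') → PolyZ N' := by
  induction h with
  | triv N =>
    intro N' _ e
    have : Subsingleton N' := e.symm.toEquiv.subsingleton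
    exact PolyZ.triv N'
  | ext N f hf h ih =>
    intro N' _ e
    refine PolyZ.ext N' (f.comp e.symm.toMonoidHom) (hf.comp e.symm.surjective) (ih _ ?_)
    have h1 : f.ker.map e.toMonoidHom = (f.comp e.symm.toMonoidHom).ker := by
      ext x
      constructor
      · rintro ⟨y, hy, rfl⟩
        show f (e.symm (e y)) = 1
        rw [e.symm_apply_apply]
        exact hy
      · intro hx
        exact ⟨e.symm x, hx, e.apply_symm_apply x⟩
    exact (e.subgroupMap f.ker).trans (MulEquiv.subgroupCongr h1)

theorem PolyZ.of_equiv {N N' : Type u} [Group N] [Group N'] (h : PolyZ N) (e : N ≃* N') :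
    PolyZ N' := polyZ_of_equiv_aux h N' e

private theorem polyZ_ext_central {N' : Type u} [Group N'] (h : PolyZ N') :
    ∀ (N : Type u) [Group N] (f : N →* N'), Function.Surjective f → ∀ z : N,
      f.ker = Subgroup.zpowers z → (∀ n : ℤ, z ^ n = 1 → n = 0) → PolyZ N := by
  induction h with
  | triv N' =>
    intro N _ f hf z hker hinf
    have hinj : Function.Injective (zpowersHom N z) := by
      rw [injective_iff_map_eq_one]
      intro a ha
      rw [zpowersHom_apply] at ha
      exact Multiplicative.toAdd.injective (hinf _ ha)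
    have hsurj : Function.Surjective (zpowersHom N z) := by
      intro x
      have h1 : x ∈ f.ker := Subsingleton.elim _ _
      rw [hker] at h1
      obtain ⟨k, rfl⟩ := Subgroup.mem_zpowers_iff.1 h1
      exact ⟨Multiplicative.ofAdd k, by rw [zpowersHom_apply]; rfl⟩
    have e : Multiplicative ℤ ≃* N := MulEquiv.ofBijective (zpowersHom N z) ⟨hinj, hsurj⟩
    have hk : e.symm.toMonoidHom.ker = ⊥ := (MonoidHom.ker_eq_bot_iff _).2 e.symm.injective
    have hs : Subsingleton e.symm.toMonoidHom.ker := by
      rw [hk]
      infer_instance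
    exact PolyZ.ext N e.symm.toMonoidHom e.symm.surjective (PolyZ.triv _)
  | ext N' h0 hh0 h ih =>
    intro N _ f hf z hker hinf
    have hzk : f z = 1 := by
      have : z ∈ f.ker := by rw [hker]; exact Subgroup.mem_zpowers z
      exact this
    have hz : z ∈ (h0.comp f).ker := by
      show h0 (f z) = 1
      rw [hzk, map_one]
    refine PolyZ.ext N (h0.comp f) (hh0.comp hf) ?_
    refine ih _ ((f.comp (h0.comp f).ker.subtype).codRestrict h0.ker fun x => x.2) ?_ ⟨z, hz⟩ ?_ ?_
    · rintro ⟨y, hy⟩
      obtain ⟨x, rfl⟩ := hf y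
      exact ⟨⟨x, hy⟩, rfl⟩
    · ext ⟨x, hx⟩
      have h1 : (⟨x, hx⟩ : (h0.comp f).ker) ∈
          ((f.comp (h0.comp f).ker.subtype).codRestrict h0.ker fun x => x.2).ker ↔ x ∈ f.ker := by
        rw [MonoidHom.mem_ker, MonoidHom.mem_ker]
        constructor
        · intro h2
          exact congrArg Subtype.val h2
        · intro h2
          exact Subtype.ext h2
      rw [h1, hker, Subgroup.mem_zpowers_iff, Subgroup.mem_zpowers_iff]
      refine exists_congr fun k => ?_
      constructor
      · intro h2
        apply Subtype.ext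
        simpa using h2
      · intro h2
        have h3 := congrArg Subtype.val h2
        simpa using h3
    · intro n hn
      apply hinf
      have h3 := congrArg Subtype.val hn
      simpa using h3

theorem CPZ.polyZ {N : Type u} [Group N] (h : CPZ N) : PolyZ N := by
  induction h with
  | triv N => exact PolyZ.triv N
  | ext N N' f hf z hz hker hinf h ih => exact polyZ_ext_central ih N f hf z hker hinf

end SPH
end

section

/-! # Partial sums of coefficients -/

namespace SPH

universe u v

open scoped Classical in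
/-- Sum of the coefficients at elements of the subgroup `N`. -/
noncomputable def subSum {K : Type u} [CommRing K] {Γ : Type u} [Group Γ] (N : Subgroup Γ)
    (x : MonoidAlgebra K Γ) : K := x.coeff.sum fun h a => if h ∈ N then a else 0

open scoped Classical in
/-- Sum of the coefficients over the conjugacy class of `g`. -/
noncomputable def classSum {K : Type u} [CommRing K] {Γ : Type u} [Group Γ]
    (x : MonoidAlgebra K Γ) (g : Γ) : K := x.coeff.sum fun h a => if IsConj g h then a else 0

end SPH
end

section

/-! # Projective dimension: Schanuel type lemmas (job R1) -/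

namespace SPH

universe u v

/-- splitting of a surjection onto a projective module -/
private theorem pdl_split {R : Type u} [Ring R] {F M : Type u} [AddCommGroup M] [Module R M]
    [AddCommGroup F] [Module R F] (hM : Module.Projective R M) (f : F →ₗ[R] M)
    (hf : Function.Surjective f) : Nonempty ((LinearMap.ker f × M) ≃ₗ[R] F) := by
  obtain ⟨s, hs⟩ := Module.projective_lifting_property f LinearMap.id hf
  have hs' : ∀ m, f (s m) = m := fun m => by
    have := LinearMap.congr_fun hs m
    simpa using this
  refine ⟨LinearEquiv.ofBijective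
    (LinearMap.coprod (LinearMap.ker f).subtype s) ⟨?_, ?_⟩⟩
  · rw [← LinearMap.ker_eq_bot, LinearMap.ker_eq_bot']
    rintro ⟨k, m⟩ h
    rw [LinearMap.coprod_apply, Submodule.subtype_apply] at h
    have h1 := congrArg f h
    rw [map_add, hs', map_zero, LinearMap.mem_ker.1 k.2, zero_add] at h1
    subst h1
    rw [map_zero, add_zero] at h
    exact Prod.ext (Subtype.ext h) rfl
  · intro x
    refine ⟨(⟨x - s (f x), ?_⟩, f x), ?_⟩
    · rw [LinearMap.mem_ker, map_sub, hs', sub_self]
    · rw [LinearMap.coprod_apply, Submodule.subtype_apply, sub_add_cancel]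

theorem PDLE.equiv {R : Type u} [Ring R] {n : ℕ} {M M' : Type u} [AddCommGroup M] [Module R M]
    [AddCommGroup M'] [Module R M'] (e : M ≃ₗ[R] M') (h : PDLE R n M) : PDLE R n M' := by
  cases n with
  | zero =>
    have h' : Module.Projective R M := h
    exact Module.Projective.of_equiv e
  | succ n =>
    obtain ⟨F, i1, i2, f, hF, hf, hk⟩ := h
    refine ⟨F, i1, i2, (e : M →ₗ[R] M') ∘ₗ f, hF, ?_, ?_⟩
    · rw [LinearMap.coe_comp]
      exact e.surjective.comp hf
    · rw [LinearEquiv.ker_comp]
      exact hk

private theorem pdl_prod {R : Type u} [Ring R] {n : ℕ} {M P : Type u} [AddCommGroup M]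
    [Module R M] [AddCommGroup P] [Module R P] (hP : Module.Projective R P) (h : PDLE R n M) :
    PDLE R n (M × P) := by
  cases n with
  | zero =>
    have h' : Module.Projective R M := h
    change Module.Projective R (M × P)
    infer_instance
  | succ n =>
    obtain ⟨F, i1, i2, f, hF, hf, hk⟩ := h
    refine ⟨F × P, inferInstance, inferInstance, f.prodMap LinearMap.id, inferInstance, ?_, ?_⟩
    · rintro ⟨m, p⟩
      obtain ⟨x, rfl⟩ := hf m
      exact ⟨(x, p), rfl⟩
    · refine PDLE.equiv ?_ hk
      exact
        { toFun := fun k => ⟨((k : F), (0 : P)), by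
            rw [LinearMap.mem_ker, LinearMap.prodMap_apply, LinearMap.mem_ker.1 k.2]
            rfl⟩
          map_add' := fun a b => by
            apply Subtype.ext
            refine Prod.ext rfl ?_
            exact (add_zero (0 : P)).symm
          map_smul' := fun c a => by
            apply Subtype.ext
            refine Prod.ext rfl ?_
            exact (smul_zero c).symm
          invFun := fun k => ⟨k.1.1, by
            have h1 := LinearMap.mem_ker.1 k.2
            rw [LinearMap.prodMap_apply] at h1
            exact LinearMap.mem_ker.2 (congrArg Prod.fst h1)⟩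
          left_inv := fun k => rfl
          right_inv := fun k => by
            have h1 := LinearMap.mem_ker.1 k.2
            rw [LinearMap.prodMap_apply] at h1
            have h2 : k.1.2 = 0 := congrArg Prod.snd h1
            apply Subtype.ext
            exact Prod.ext rfl h2.symm }

private theorem pdl_fst {R : Type u} [Ring R] {n : ℕ} {M P : Type u} [AddCommGroup M]
    [Module R M] [AddCommGroup P] [Module R P] (hP : Module.Projective R P)
    (h : PDLE R n (M × P)) : PDLE R n M := by
  cases n with
  | zero =>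
    have h' : Module.Projective R (M × P) := h
    exact Module.Projective.of_split (LinearMap.inl R M P) (LinearMap.fst R M P)
      (LinearMap.fst_comp_inl R M P)
  | succ n =>
    obtain ⟨F, i1, i2, g, hF, hg, hk⟩ := h
    refine ⟨F, i1, i2, LinearMap.fst R M P ∘ₗ g, hF, ?_, ?_⟩
    · intro m
      obtain ⟨x, hx⟩ := hg (m, 0)
      exact ⟨x, by rw [LinearMap.comp_apply, hx]; rfl⟩
    · -- the kernel maps onto `P`
      set K := LinearMap.ker (LinearMap.fst R M P ∘ₗ g) with hK
      let q : K →ₗ[R] P := (LinearMap.snd R M P ∘ₗ g) ∘ₗ K.subtype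
      have hmem : ∀ x : F, x ∈ K ↔ (g x).1 = 0 := fun x => LinearMap.mem_ker
      have hq : Function.Surjective q := by
        intro p
        obtain ⟨x, hx⟩ := hg (0, p)
        refine ⟨⟨x, (hmem x).2 (by rw [hx])⟩, ?_⟩
        change (g x).2 = p
        rw [hx]
      obtain ⟨e⟩ := pdl_split hP q hq
      refine PDLE.equiv e (pdl_prod hP ?_)
      refine PDLE.equiv ?_ hk
      exact
        { toFun := fun k => ⟨⟨(k : F), (hmem _).2 (by rw [LinearMap.mem_ker.1 k.2]; rfl)⟩, by
            rw [LinearMap.mem_ker]
            change (g (k : F)).2 = 0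
            rw [LinearMap.mem_ker.1 k.2]
            rfl⟩
          map_add' := fun a b => rfl
          map_smul' := fun c a => rfl
          invFun := fun k => ⟨((k : K) : F), by
            rw [LinearMap.mem_ker]
            have h1 : (g ((k : K) : F)).1 = 0 := (hmem _).1 (k : K).2
            have h2 : (g ((k : K) : F)).2 = 0 := LinearMap.mem_ker.1 k.2
            exact Prod.ext h1 h2⟩
          left_inv := fun k => rfl
          right_inv := fun k => rfl }

/-- Schanuel's lemma. -/
private theorem pdl_schanuel {R : Type u} [Ring R] {M F F' : Type u} [AddCommGroup M] [Module R M]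
    [AddCommGroup F] [Module R F] [AddCommGroup F'] [Module R F'] (hF : Module.Projective R F)
    (hF' : Module.Projective R F') (f : F →ₗ[R] M) (hf : Function.Surjective f)
    (f' : F' →ₗ[R] M) (hf' : Function.Surjective f') :
    Nonempty ((LinearMap.ker f' × F) ≃ₗ[R] (LinearMap.ker f × F')) := by
  let Q : Submodule R (F' × F) :=
    LinearMap.ker (f' ∘ₗ LinearMap.fst R F' F - f ∘ₗ LinearMap.snd R F' F)
  have hQ : ∀ x : F' × F, x ∈ Q ↔ f' x.1 = f x.2 := fun x => by
    change x ∈ LinearMap.ker _ ↔ _
    rw [LinearMap.mem_ker, LinearMap.sub_apply, sub_eq_zero]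
    rfl
  let p1 : Q →ₗ[R] F' := LinearMap.fst R F' F ∘ₗ Q.subtype
  let p2 : Q →ₗ[R] F := LinearMap.snd R F' F ∘ₗ Q.subtype
  have hp1 : Function.Surjective p1 := by
    intro a
    obtain ⟨b, hb⟩ := hf (f' a)
    exact ⟨⟨(a, b), (hQ _).2 hb.symm⟩, rfl⟩
  have hp2 : Function.Surjective p2 := by
    intro b
    obtain ⟨a, ha⟩ := hf' (f b)
    exact ⟨⟨(a, b), (hQ _).2 ha⟩, rfl⟩
  obtain ⟨e1⟩ := pdl_split hF' p1 hp1
  obtain ⟨e2⟩ := pdl_split hF p2 hp2
  -- the kernels
  let k1 : LinearMap.ker p1 ≃ₗ[R] LinearMap.ker f :=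
    { toFun := fun k => ⟨((k : Q) : F' × F).2, by
        have h1 : ((k : Q) : F' × F).1 = 0 := LinearMap.mem_ker.1 k.2
        have h2 := (hQ _).1 (k : Q).2
        rw [h1, map_zero] at h2
        exact LinearMap.mem_ker.2 h2.symm⟩
      map_add' := fun a b => rfl
      map_smul' := fun c a => rfl
      invFun := fun b => ⟨⟨(0, (b : F)), (hQ _).2 (by
          rw [map_zero, LinearMap.mem_ker.1 b.2])⟩, LinearMap.mem_ker.2 rfl⟩
      left_inv := fun k => by
        have h1 : ((k : Q) : F' × F).1 = 0 := LinearMap.mem_ker.1 k.2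
        apply Subtype.ext
        apply Subtype.ext
        exact Prod.ext h1.symm rfl
      right_inv := fun k => rfl }
  let k2 : LinearMap.ker p2 ≃ₗ[R] LinearMap.ker f' :=
    { toFun := fun k => ⟨((k : Q) : F' × F).1, by
        have h1 : ((k : Q) : F' × F).2 = 0 := LinearMap.mem_ker.1 k.2
        have h2 := (hQ _).1 (k : Q).2
        rw [h1, map_zero] at h2
        exact LinearMap.mem_ker.2 h2⟩
      map_add' := fun a b => rfl
      map_smul' := fun c a => rfl
      invFun := fun a => ⟨⟨((a : F'), 0), (hQ _).2 (by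
          rw [map_zero, LinearMap.mem_ker.1 a.2])⟩, LinearMap.mem_ker.2 rfl⟩
      left_inv := fun k => by
        have h1 : ((k : Q) : F' × F).2 = 0 := LinearMap.mem_ker.1 k.2
        apply Subtype.ext
        apply Subtype.ext
        exact Prod.ext rfl h1.symm
      right_inv := fun k => rfl }
  exact ⟨(((k2.symm.prodCongr (LinearEquiv.refl R F)).trans e2).trans e1.symm).trans
    (k1.prodCongr (LinearEquiv.refl R F'))⟩

theorem PDLE.ker {R : Type u} [Ring R] {n : ℕ} {M F : Type u} [AddCommGroup M] [Module R M]
    [AddCommGroup F] [Module R F] (h : PDLE R (n + 1) M) (hF : Module.Projective R F)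
    (f : F →ₗ[R] M) (hf : Function.Surjective f) : PDLE R n (LinearMap.ker f) := by
  obtain ⟨F', i1, i2, f', hF', hf', hk⟩ := h
  obtain ⟨e⟩ := pdl_schanuel hF hF' f hf f' hf'
  exact pdl_fst hF' (PDLE.equiv e (pdl_prod hF hk))

theorem PDLE.ker_zero {R : Type u} [Ring R] {M F : Type u} [AddCommGroup M] [Module R M]
    [AddCommGroup F] [Module R F] (h : PDLE R 0 M) (hF : Module.Projective R F)
    (f : F →ₗ[R] M) (hf : Function.Surjective f) : PDLE R 0 (LinearMap.ker f) := by
  obtain ⟨e⟩ := pdl_split (h : Module.Projective R M) f hf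
  have h1 : PDLE R 0 F := hF
  exact pdl_fst (h : Module.Projective R M) (PDLE.equiv e.symm h1)

private theorem pdl_succ {R : Type u} [Ring R] {n : ℕ} : ∀ {M : Type u} [AddCommGroup M]
    [Module R M], PDLE R n M → PDLE R (n + 1) M := by
  induction n with
  | zero =>
    intro M _ _ h
    refine ⟨M, inferInstance, inferInstance, LinearMap.id, h, Function.surjective_id, ?_⟩
    rw [LinearMap.ker_id]
    change Module.Projective R (⊥ : Submodule R M)
    infer_instance
  | succ n ih =>
    intro M _ _ h
    obtain ⟨F, i1, i2, f, hF, hf, hk⟩ := h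
    exact ⟨F, i1, i2, f, hF, hf, ih hk⟩

theorem PDLE.mono {R : Type u} [Ring R] {n m : ℕ} {M : Type u} [AddCommGroup M] [Module R M]
    (h : PDLE R n M) (hnm : n ≤ m) : PDLE R m M := by
  induction m, hnm using Nat.le_induction with
  | base => exact h
  | succ m _ ih => exact pdl_succ ih

end SPH
end

section

/-! # Signed permutation modules with coefficients -/

namespace SPH

universe u

/-- A set with an action of `Γ` and a sign cocycle. -/
structure SData (Γ : Type u) [Group Γ] where
  X : Type u
  act : MulAction Γ X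
  ε : Γ → X → ℤˣ
  mul : ∀ γ γ' x, ε (γ * γ') x = ε γ (γ' • x) * ε γ' x

attribute [instance] SData.act

variable {Γ : Type u} [Group Γ] (D : SData Γ) (K : Type u) [Field K]
  (M : Type u) [AddCommGroup M] [Module (MonoidAlgebra K Γ) M]

theorem SData.ε_one (x : D.X) : D.ε 1 x = 1 := by
  have := D.mul 1 1 x
  rw [mul_one, one_smul] at this
  exact (left_eq_mul.1 this)

/-- Finitely supported functions `D.X → M` with the twisted action of `K[Γ]`. -/
def SData.Ind : Type u := D.X →₀ M

noncomputable instance : AddCommGroup (SData.Ind D M) := inferInstanceAs (AddCommGroup (D.X →₀ M))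

/-- The basic elements of `D.Ind M`. -/
noncomputable def SData.sg (x : D.X) : M →+ SData.Ind D M := Finsupp.singleAddHom x

variable {D M} in
theorem SData.hom_ext {Y : Type*} [AddCommMonoid Y] {f g : SData.Ind D M →+ Y}
    (h : ∀ x m, f (SData.sg D M x m) = g (SData.sg D M x m)) : f = g :=
  Finsupp.addHom_ext h

variable {D M} in
theorem SData.induction {p : SData.Ind D M → Prop} (t : SData.Ind D M) (h0 : p 0)
    (ha : ∀ a b, p a → p b → p (a + b)) (h : ∀ x m, p (SData.sg D M x m)) : p t :=
  Finsupp.induction_linear t h0 ha h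

/-- Extension of a family of additive maps. -/
noncomputable def SData.liftAdd {Y : Type*} [AddCommMonoid Y] (φ : D.X → M →+ Y) :
    SData.Ind D M →+ Y := Finsupp.liftAddHom φ

theorem SData.liftAdd_sg {Y : Type*} [AddCommMonoid Y] (φ : D.X → M →+ Y) (x : D.X) (m : M) :
    SData.liftAdd D M φ (SData.sg D M x m) = φ x m :=
  Finsupp.liftAddHom_apply_single φ x m

/-- The action of a group element. -/
noncomputable def SData.gact (γ : Γ) : SData.Ind D M →+ SData.Ind D M :=
  SData.liftAdd D M fun x => (SData.sg D M (γ • x)).comp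
    ((DistribSMul.toAddMonoidHom M (D.ε γ x)).comp
      (DistribSMul.toAddMonoidHom M (MonoidAlgebra.single γ (1 : K))))

theorem SData.gact_sg (γ : Γ) (x : D.X) (m : M) :
    SData.gact D K M γ (SData.sg D M x m) =
      SData.sg D M (γ • x) (D.ε γ x • (MonoidAlgebra.single γ (1 : K) • m)) := by
  rw [SData.gact, SData.liftAdd_sg]; rfl

/-- Scalar action of `K`. -/
noncomputable def SData.kact (a : K) : SData.Ind D M →+ SData.Ind D M :=
  SData.liftAdd D M fun x => (SData.sg D M x).comp
      (DistribSMul.toAddMonoidHom M (MonoidAlgebra.single (1 : Γ) a))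

theorem SData.kact_sg (a : K) (x : D.X) (m : M) :
    SData.kact D K M a (SData.sg D M x m) =
      SData.sg D M x (MonoidAlgebra.single (1 : Γ) a • m) := by
  rw [SData.kact, SData.liftAdd_sg]; rfl

/-- Scalars as a ring homomorphism. -/
noncomputable def SData.kHom : K →+* AddMonoid.End (SData.Ind D M) where
  toFun := fun a => (SData.kact D K M a : AddMonoid.End (SData.Ind D M))
  map_one' := by
    apply SData.hom_ext
    intro x m
    rw [SData.kact_sg, ← MonoidAlgebra.one_def, one_smul]; rfl
  map_mul' := fun a b => by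
    apply SData.hom_ext
    intro x m
    change _ = SData.kact D K M a (SData.kact D K M b (SData.sg D M x m))
    rw [SData.kact_sg, SData.kact_sg, SData.kact_sg, smul_smul,
      MonoidAlgebra.single_mul_single, mul_one]
  map_zero' := by
    apply SData.hom_ext
    intro x m
    rw [SData.kact_sg, MonoidAlgebra.single_zero, zero_smul, map_zero]; rfl
  map_add' := fun a b => by
    apply SData.hom_ext
    intro x m
    change _ = SData.kact D K M a (SData.sg D M x m) + SData.kact D K M b (SData.sg D M x m)
    rw [SData.kact_sg, SData.kact_sg, SData.kact_sg, MonoidAlgebra.single_add, add_smul,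
      map_add]

/-- Group elements as a monoid homomorphism. -/
noncomputable def SData.gHom : Γ →* AddMonoid.End (SData.Ind D M) where
  toFun := fun γ => (SData.gact D K M γ : AddMonoid.End (SData.Ind D M))
  map_one' := by
    apply SData.hom_ext
    intro x m
    rw [SData.gact_sg, one_smul, SData.ε_one, one_smul, ← MonoidAlgebra.one_def, one_smul]
    rfl
  map_mul' := fun γ γ' => by
    apply SData.hom_ext
    intro x m
    change _ = SData.gact D K M γ (SData.gact D K M γ' (SData.sg D M x m))
    rw [SData.gact_sg, SData.gact_sg, SData.gact_sg, mul_smul, D.mul, mul_smul,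
      smul_comm (MonoidAlgebra.single γ (1 : K)), smul_smul (MonoidAlgebra.single γ (1 : K)),
      MonoidAlgebra.single_mul_single, mul_one]

theorem SData.kHom_commute (a : K) (γ : Γ) :
    Commute (SData.kHom D K M a) (SData.gHom D K M γ) := by
  apply SData.hom_ext
  intro x m
  change SData.kact D K M a (SData.gact D K M γ (SData.sg D M x m)) =
    SData.gact D K M γ (SData.kact D K M a (SData.sg D M x m))
  rw [SData.gact_sg, SData.kact_sg, SData.kact_sg, SData.gact_sg, smul_smul,
    smul_comm (MonoidAlgebra.single (1 : Γ) a), smul_smul, MonoidAlgebra.single_mul_single,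
    MonoidAlgebra.single_mul_single, one_mul, mul_one, mul_one, one_mul]

/-- The ring homomorphism defining the module structure. -/
noncomputable def SData.toEnd : MonoidAlgebra K Γ →+* AddMonoid.End (SData.Ind D M) :=
  MonoidAlgebra.liftNCRingHom (SData.kHom D K M) (SData.gHom D K M)
    (SData.kHom_commute D K M)

theorem SData.toEnd_single (γ : Γ) (a : K) :
    SData.toEnd D K M (MonoidAlgebra.single γ a) = SData.kHom D K M a * SData.gHom D K M γ :=
  MonoidAlgebra.liftNCRingHom_single _ _ _ _ _

noncomputable instance : Module (MonoidAlgebra K Γ) (SData.Ind D M) :=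
  Module.compHom _ (SData.toEnd D K M)

theorem SData.single_smul_sg (γ : Γ) (a : K) (x : D.X) (m : M) :
    (MonoidAlgebra.single γ a : MonoidAlgebra K Γ) • (SData.sg D M x m) =
      SData.sg D M (γ • x) (D.ε γ x • ((MonoidAlgebra.single γ a : MonoidAlgebra K Γ) • m)) := by
  change SData.toEnd D K M (MonoidAlgebra.single γ a) (SData.sg D M x m) = _
  rw [SData.toEnd_single]
  change SData.kact D K M a (SData.gact D K M γ (SData.sg D M x m)) = _
  rw [SData.gact_sg, SData.kact_sg, smul_comm (MonoidAlgebra.single (1 : Γ) a), smul_smul,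
    MonoidAlgebra.single_mul_single, one_mul, mul_one]

/-- Stabiliser of a point of the underlying set. -/
def SData.stab (x : D.X) : Subgroup Γ := MulAction.stabilizer Γ x

end SPH
end

section

/-! # K[Γ] as a K[N]-module (job R5) -/

namespace SPH

universe u v

section SubBasis

variable {K : Type u} [CommRing K] {Γ : Type u} [Group Γ] (N : Subgroup Γ)

/-- Right cosets. -/
abbrev RCos := Quotient (QuotientGroup.rightRel N)

/-- The linear map sending the basis vector of a right coset to its representative. -/
noncomputable def subPhi (K : Type u) [CommRing K] {Γ : Type u} [Group Γ] (N : Subgroup Γ) :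
    (RCos N →₀ MonoidAlgebra K N) →ₗ[MonoidAlgebra K N] MonoidAlgebra K Γ :=
  Finsupp.linearCombination (MonoidAlgebra K N)
    (fun c : RCos N => MonoidAlgebra.single (Quotient.out c) (1 : K))

theorem resHom_single (n : N) (a : K) :
    resHom K N (MonoidAlgebra.single n a) = MonoidAlgebra.single (n : Γ) a := by
  simp [resHom]

theorem subPhi_single_single (c : RCos N) (n : N) (a : K) :
    subPhi K N (Finsupp.single c (MonoidAlgebra.single n a)) =
      MonoidAlgebra.single ((n : Γ) * Quotient.out c) a := by
  unfold subPhi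
  rw [Finsupp.linearCombination_single, sub_smul_def, resHom_single,
    MonoidAlgebra.single_mul_single, mul_one]

theorem rcos_eq_iff (c c' : RCos N) (n n' : N) :
    ((n : Γ) * Quotient.out c = (n' : Γ) * Quotient.out c') ↔ (c = c' ∧ n = n') := by
  constructor
  · intro h
    have h1 : c = c' := by
      rw [← Quotient.out_eq c, ← Quotient.out_eq c']
      refine Quotient.sound ?_
      change QuotientGroup.rightRel N _ _
      rw [QuotientGroup.rightRel_apply]
      have : Quotient.out c' * (Quotient.out c)⁻¹ = (n' : Γ)⁻¹ * n := by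
        rw [mul_inv_eq_iff_eq_mul, mul_assoc, h, inv_mul_cancel_left]
      rw [this]
      exact N.mul_mem (N.inv_mem n'.2) n.2
    subst h1
    exact ⟨rfl, Subtype.ext (mul_right_cancel h)⟩
  · rintro ⟨rfl, rfl⟩; rfl

theorem subPhi_coeff (v : RCos N →₀ MonoidAlgebra K N) (c : RCos N) (n : N) :
    (subPhi K N v).coeff ((n : Γ) * Quotient.out c) = (v c).coeff n := by
  classical
  induction v using Finsupp.induction_linear with
  | zero => simp
  | add f g hf hg => simp [hf, hg]
  | single c' r =>
    induction r using MonoidAlgebra.induction_linear with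
    | zero => simp
    | add x y hx hy =>
      rw [Finsupp.single_add, map_add, MonoidAlgebra.coeff_add, Finsupp.add_apply, hx, hy,
        Finsupp.add_apply, MonoidAlgebra.coeff_add, Finsupp.add_apply]
    | single m a =>
      rw [subPhi_single_single, MonoidAlgebra.coeff_single, Finsupp.single_apply]
      by_cases h : c' = c
      · subst h
        rw [Finsupp.single_eq_same, MonoidAlgebra.coeff_single, Finsupp.single_apply]
        by_cases h2 : m = n
        · subst h2; simp
        · have : ¬ ((m : Γ) * Quotient.out c' = (n : Γ) * Quotient.out c') := by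
            rw [rcos_eq_iff]; exact fun h => h2 h.2
          rw [if_neg this, if_neg h2]
      · have : ¬ ((m : Γ) * Quotient.out c' = (n : Γ) * Quotient.out c) := by
          rw [rcos_eq_iff]; exact fun h' => h h'.1
        rw [if_neg this, Finsupp.single_eq_of_ne (Ne.symm h)]
        simp

theorem subPhi_injective : Function.Injective (subPhi K N) := by
  rw [← LinearMap.ker_eq_bot, LinearMap.ker_eq_bot']
  intro v hv
  ext c n
  have := subPhi_coeff N v c n
  rw [hv] at this
  simp only [MonoidAlgebra.coeff_zero, Finsupp.coe_zero, Pi.zero_apply] at this ⊢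
  exact this.symm

theorem subPhi_surjective : Function.Surjective (subPhi K N) := by
  intro x
  induction x using MonoidAlgebra.induction_linear with
  | zero => exact ⟨0, map_zero _⟩
  | add x y hx hy =>
    obtain ⟨u, hu⟩ := hx
    obtain ⟨w, hw⟩ := hy
    exact ⟨u + w, by rw [map_add, hu, hw]⟩
  | single g a =>
    set c : RCos N := Quotient.mk _ g with hc
    have h1 : g * (Quotient.out c)⁻¹ ∈ N := by
      have := Quotient.mk_out (s := QuotientGroup.rightRel N) g
      change QuotientGroup.rightRel N _ _ at this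
      rw [QuotientGroup.rightRel_apply] at this
      exact this
    refine ⟨Finsupp.single c (MonoidAlgebra.single ⟨_, h1⟩ a), ?_⟩
    rw [subPhi_single_single]
    simp

/-- The basis of `K[Γ]` over `K[N]` given by representatives of the right cosets. -/
noncomputable def subBasis (K : Type u) [CommRing K] {Γ : Type u} [Group Γ] (N : Subgroup Γ) :
    Module.Basis (RCos N) (MonoidAlgebra K N) (MonoidAlgebra K Γ) :=
  .ofRepr (LinearEquiv.ofBijective (subPhi K N) ⟨subPhi_injective N, subPhi_surjective N⟩).symm

theorem subBasis_apply (c : RCos N) :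
    subBasis K N c = MonoidAlgebra.single (Quotient.out c) (1 : K) := by
  show subPhi K N (Finsupp.single c 1) = _
  unfold subPhi
  rw [Finsupp.linearCombination_single, one_smul]

/-- For a subgroup of finite index, `K[Γ]` is a finite power of `K[N]`. -/
noncomputable def subEquivFun (K : Type u) [CommRing K] {Γ : Type u} [Group Γ] (N : Subgroup Γ)
    [Finite (RCos N)] :
    MonoidAlgebra K Γ ≃ₗ[MonoidAlgebra K N] (RCos N → MonoidAlgebra K N) :=
  (subBasis K N).equivFun

instance rcos_finite [N.FiniteIndex] : Finite (RCos N) :=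
  Finite.of_equiv _ (QuotientGroup.quotientRightRelEquivQuotientLeftRel N).symm

theorem rcos_card : Nat.card (RCos N) = N.index :=
  Nat.card_congr (QuotientGroup.quotientRightRelEquivQuotientLeftRel N)

end SubBasis

theorem free_sub {K : Type u} [CommRing K] {Γ : Type u} [Group Γ] (N : Subgroup Γ) :
    Module.Free (MonoidAlgebra K N) (MonoidAlgebra K Γ) :=
  Module.Free.of_basis (subBasis K N)

theorem finite_sub {K : Type u} [CommRing K] {Γ : Type u} [Group Γ] (N : Subgroup Γ)
    [N.FiniteIndex] : Module.Finite (MonoidAlgebra K N) (MonoidAlgebra K Γ) :=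
  Module.Finite.of_basis (subBasis K N)

theorem finrank_sub {K : Type u} [Field K] {Γ : Type u} [Group Γ] (N : Subgroup Γ)
    [N.FiniteIndex] [IsNoetherianRing (MonoidAlgebra K N)] :
    Module.finrank (MonoidAlgebra K N) (MonoidAlgebra K Γ) = N.index := by
  rw [Module.finrank_eq_nat_card_basis (subBasis K N), rcos_card]

end SPH
end

section

/-! # The Weyl group acting on the root lattice (job L2) -/

namespace SPH

open scoped Classical
open Polynomial

universe u

set_option linter.unusedSectionVars false

variable {S : Type u} [Fintype S] [DecidableEq S] {G : SimpleGraph S}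

/-- The element of the Artin group given by a positive word. -/
def wd (G : SimpleGraph S) (l : List S) : AGrp G := (l.map (gen G)).prod

/-- Number of positive roots made negative by `(toW g)⁻¹`. -/
noncomputable def lenN (G : SimpleGraph S) (g : AGrp G) : ℕ :=
  Nat.card {γ : PRoot G // IsPos G (-(toW G g⁻¹ γ.1))}

section Aux

theorem weyl_toW_mul_apply (g h : AGrp G) (v : S → ℤ) :
    toW G (g * h) v = toW G g (toW G h v) := by
  rw [map_mul]; rfl

theorem weyl_toW_one_apply (v : S → ℤ) : toW G 1 v = v := by
  rw [map_one]; rfl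

theorem weyl_toW_gen_apply (s : S) (v : S → ℤ) : toW G (gen G s) v = rf G s v := by
  rw [toW_gen]; rfl

theorem weyl_toW_inv_apply (g : AGrp G) (v : S → ℤ) : toW G g⁻¹ (toW G g v) = v := by
  rw [← weyl_toW_mul_apply, inv_mul_cancel, weyl_toW_one_apply]

theorem weyl_toW_apply_inv (g : AGrp G) (v : S → ℤ) : toW G g (toW G g⁻¹ v) = v := by
  rw [← weyl_toW_mul_apply, mul_inv_cancel, weyl_toW_one_apply]

theorem weyl_toW_gen_inv_apply (s : S) (v : S → ℤ) : toW G (gen G s)⁻¹ v = rf G s v := by
  have h := weyl_toW_inv_apply (gen G s) (rf G s v)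
  rw [weyl_toW_gen_apply, rf_rf] at h
  exact h

theorem weyl_toW_gen_sq (s : S) : toW G (gen G s) * toW G (gen G s) = 1 := by
  refine LinearEquiv.ext fun v => ?_
  change toW G (gen G s) (toW G (gen G s) v) = v
  rw [weyl_toW_gen_apply, weyl_toW_gen_apply, rf_rf]

theorem weyl_lenN_congr {g g' : AGrp G} (h : toW G g = toW G g') : lenN G g = lenN G g' := by
  unfold lenN
  rw [map_inv, map_inv, h]

/-- The inversion set. -/
def weylN (G : SimpleGraph S) (g : AGrp G) : Set (S → ℤ) :=
  {γ | IsPos G γ ∧ IsPos G (-(toW G g⁻¹ γ))}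

theorem weylN_finite (hG : PosDef G) (g : AGrp G) : (weylN G g).Finite :=
  (finite_root hG).subset fun _ h => h.1.1

theorem weyl_lenN_eq (g : AGrp G) : lenN G g = (weylN G g).ncard := by
  unfold lenN
  rw [← Nat.card_coe_set_eq]
  refine Nat.card_congr ?_
  exact
    { toFun := fun x => ⟨x.1.1, x.1.2, x.2⟩
      invFun := fun x => ⟨⟨x.1, x.2.1⟩, x.2.2⟩
      left_inv := fun x => rfl
      right_inv := fun x => rfl }

theorem weyl_inv_gen_mul (s : S) (g : AGrp G) (v : S → ℤ) :
    toW G (gen G s * g)⁻¹ v = toW G g⁻¹ (rf G s v) := by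
  rw [mul_inv_rev, weyl_toW_mul_apply, weyl_toW_gen_inv_apply]

theorem weyl_rf_inj (s : S) : Function.Injective (rf G s) := fun a b h => by
  rw [← rf_rf G s a, h, rf_rf]

end Aux

theorem lenN_gen_mul_of_pos (hG : PosDef G) (s : S) (g : AGrp G)
    (h : IsPos G (toW G g⁻¹ (sr s))) : lenN G (gen G s * g) = lenN G g + 1 := by
  have key : weylN G (gen G s * g) = insert (sr s) (rf G s '' weylN G g) := by
    ext γ
    simp only [weylN, Set.mem_ofPred_eq, Set.mem_insert_iff, Set.mem_image, weyl_inv_gen_mul]
    constructor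
    · rintro ⟨h1, h2⟩
      by_cases hγ : γ = sr s
      · exact Or.inl hγ
      · exact Or.inr ⟨rf G s γ, ⟨h1.rf hG hγ, h2⟩, rf_rf G s γ⟩
    · rintro (rfl | ⟨δ, ⟨h1, h2⟩, rfl⟩)
      · refine ⟨isPos_sr G s, ?_⟩
        rw [rf_sr, map_neg, neg_neg]
        exact h
      · rw [rf_rf]
        refine ⟨h1.rf hG ?_, h2⟩
        rintro rfl
        exact h.not_neg h2
  have hnot : sr s ∉ rf G s '' weylN G g := by
    rintro ⟨δ, ⟨h1, _⟩, h3⟩
    have : δ = - sr s := by rw [← rf_rf G s δ, h3, rf_sr]
    rw [this] at h1
    exact (isPos_sr G s).not_neg h1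
  rw [weyl_lenN_eq, weyl_lenN_eq, key,
    Set.ncard_insert_of_notMem hnot ((weylN_finite hG g).image _),
    Set.ncard_image_of_injective _ (weyl_rf_inj s)]

theorem lenN_gen_mul_of_neg (hG : PosDef G) (s : S) (g : AGrp G)
    (h : IsPos G (-(toW G g⁻¹ (sr s)))) : lenN G (gen G s * g) + 1 = lenN G g := by
  have h1 : IsPos G (toW G (gen G s * g)⁻¹ (sr s)) := by
    rw [weyl_inv_gen_mul, rf_sr, map_neg]
    exact h
  rw [← lenN_gen_mul_of_pos hG s _ h1]
  refine weyl_lenN_congr ?_
  rw [map_mul, map_mul, ← mul_assoc, weyl_toW_gen_sq, one_mul]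

theorem weyl_lenN_one : lenN G (1 : AGrp G) = 0 := by
  rw [weyl_lenN_eq]
  have : weylN G (1 : AGrp G) = ∅ := by
    ext γ
    simp only [weylN, Set.mem_ofPred_eq, Set.mem_empty_iff_false, iff_false]
    rintro ⟨h1, h2⟩
    rw [inv_one, weyl_toW_one_apply] at h2
    exact h1.not_neg h2
  rw [this, Set.ncard_empty]

theorem weyl_wd_nil : wd G ([] : List S) = 1 := rfl

theorem weyl_wd_cons (s : S) (l : List S) : wd G (s :: l) = gen G s * wd G l := by
  simp [wd]

theorem weyl_wd_append (l l' : List S) : wd G (l ++ l') = wd G l * wd G l' := by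
  simp [wd]

theorem lenN_wd_le (hG : PosDef G) (l : List S) : lenN G (wd G l) ≤ l.length := by
  induction l with
  | nil => rw [weyl_wd_nil, weyl_lenN_one]; exact Nat.zero_le _
  | cons s l ih =>
    rw [weyl_wd_cons, List.length_cons]
    rcases IsRoot.pos_or_neg hG (isRoot_toW G (wd G l)⁻¹ (isRoot_sr G s)) with h | h
    · rw [lenN_gen_mul_of_pos hG s _ h]; omega
    · have := lenN_gen_mul_of_neg hG s _ h; omega

theorem lenN_le_card (hG : PosDef G) [Fintype (PRoot G)] (g : AGrp G) :
    lenN G g ≤ Fintype.card (PRoot G) := by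
  unfold lenN
  rw [Nat.card_eq_fintype_card]
  exact Fintype.card_subtype_le _

theorem weyl_exists_word (g : AGrp G) : ∃ l : List S, toW G g = toW G (wd G l) := by
  have hrev : ∀ l : List S, toW G (wd G l)⁻¹ = toW G (wd G l.reverse) := by
    intro l
    induction l with
    | nil => simp [weyl_wd_nil]
    | cons s l ih =>
      rw [weyl_wd_cons, mul_inv_rev, map_mul, ih, List.reverse_cons, weyl_wd_append, map_mul]
      have h1 : wd G [s] = gen G s := by rw [weyl_wd_cons, weyl_wd_nil, mul_one]
      have h2 : toW G (gen G s)⁻¹ = toW G (gen G s) := LinearEquiv.ext fun v =>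
        (weyl_toW_gen_inv_apply s v).trans (weyl_toW_gen_apply s v).symm
      rw [h1, h2]
  have key : ∀ g : AGrp G, g ∈ (⊤ : Subgroup (AGrp G)) →
      ∃ l : List S, toW G g = toW G (wd G l) := by
    rw [← PresentedGroup.closure_range_of (artinRel G)]
    intro g hg
    induction hg using Subgroup.closure_induction with
    | mem x hx =>
      obtain ⟨s, rfl⟩ := hx
      exact ⟨[s], by rw [weyl_wd_cons, weyl_wd_nil, mul_one]; rfl⟩
    | one => exact ⟨[], rfl⟩
    | mul x y _ _ hx hy =>
      obtain ⟨l, hl⟩ := hx
      obtain ⟨l', hl'⟩ := hy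
      exact ⟨l ++ l', by rw [map_mul, weyl_wd_append, map_mul, hl, hl']⟩
    | inv x _ hx =>
      obtain ⟨l, hl⟩ := hx
      refine ⟨l.reverse, ?_⟩
      rw [← hrev, map_inv, map_inv, hl]
  exact key g trivial

/-- Exchange: if a word makes the positive root `β` negative then some suffix sends `β` to the
simple root of the preceding letter. -/
theorem weyl_exchange (hG : PosDef G) {β : S → ℤ} (hβ : IsPos G β) (l : List S)
    (h : IsPos G (-(toW G (wd G l) β))) :
    ∃ l₁ t l₂, l = l₁ ++ t :: l₂ ∧ toW G (wd G l₂) β = sr t := by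
  induction l with
  | nil =>
    rw [weyl_wd_nil, weyl_toW_one_apply] at h
    exact absurd h hβ.not_neg
  | cons t l ih =>
    rw [weyl_wd_cons, weyl_toW_mul_apply, weyl_toW_gen_apply] at h
    rcases IsRoot.pos_or_neg hG (isRoot_toW G (wd G l) hβ.1) with h1 | h1
    · by_cases h2 : toW G (wd G l) β = sr t
      · exact ⟨[], t, l, rfl, h2⟩
      · exact absurd h (h1.rf hG h2).not_neg
    · obtain ⟨l₁, t', l₂, h2, h3⟩ := ih h1
      exact ⟨t :: l₁, t', l₂, by rw [h2]; rfl, h3⟩

theorem weyl_conj (u : AGrp G) {s t : S} (h : toW G u (sr s) = sr t) (v : S → ℤ) :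
    toW G u (rf G s v) = rf G t (toW G u v) := by
  have h1 : pr G t (toW G u v) = pr G s v := by
    rw [← bil_sr_left, ← h, bil_toW, bil_sr_left]
  rw [rf, rf, h1, map_sub, map_zsmul, h]

theorem weyl_word_eq_one (hG : PosDef G) : ∀ (n : ℕ) (l : List S), l.length = n →
    (∀ γ : S → ℤ, IsPos G γ → IsPos G (toW G (wd G l) γ)) → toW G (wd G l) = 1 := by
  intro n
  induction n using Nat.strong_induction_on with
  | _ n ih =>
    intro l hl h
    rcases List.eq_nil_or_concat l with rfl | ⟨l₀, s, hls⟩
    · rw [weyl_wd_nil, map_one]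
    · rw [List.concat_eq_append] at hls
      subst hls
      have h0 : ∀ v, toW G (wd G (l₀ ++ [s])) v = toW G (wd G l₀) (rf G s v) := by
        intro v
        rw [weyl_wd_append, weyl_toW_mul_apply, weyl_wd_cons, weyl_wd_nil, mul_one,
          weyl_toW_gen_apply]
      have h1 : IsPos G (-(toW G (wd G l₀) (sr s))) := by
        have := h (sr s) (isPos_sr G s)
        rw [h0, rf_sr, map_neg] at this
        exact this
      obtain ⟨l₁, t, l₂, h2, h3⟩ := weyl_exchange hG (isPos_sr G s) l₀ h1
      have h4 : toW G (wd G (l₀ ++ [s])) = toW G (wd G (l₁ ++ l₂)) := by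
        refine LinearEquiv.ext fun v => ?_
        rw [h0, h2, weyl_wd_append, weyl_toW_mul_apply, weyl_wd_cons, weyl_toW_mul_apply,
          weyl_conj _ h3, weyl_toW_gen_apply, rf_rf, weyl_wd_append, weyl_toW_mul_apply]
      rw [h4]
      refine ih (l₁ ++ l₂).length ?_ _ rfl ?_
      · rw [← hl, h2]
        simp only [List.length_append, List.length_cons, List.length_nil]
        omega
      · rw [← h4]; exact h

theorem toW_eq_one_of_pos (hG : PosDef G) (g : AGrp G)
    (h : ∀ γ : S → ℤ, IsPos G γ → IsPos G (toW G g γ)) : toW G g = 1 := by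
  obtain ⟨l, hl⟩ := weyl_exists_word g
  rw [hl]
  rw [hl] at h
  exact weyl_word_eq_one hG _ l rfl h

theorem toW_eq_one_of_regular (hG : PosDef G) (g : AGrp G) (v : S → ℤ)
    (hv : toW G g v = v) (hreg : ∀ γ, IsRoot G γ → bil G v γ ≠ 0) : toW G g = 1 := by
  -- choose `u` minimising the number of positive roots negative on `u v`
  let A : AGrp G → Set (S → ℤ) := fun u => {γ | IsPos G γ ∧ bil G (toW G u v) γ < 0}
  have hAfin : ∀ u, (A u).Finite := fun u => (finite_root hG).subset fun _ h => h.1.1
  obtain ⟨u, hu⟩ : ∃ u, ∀ u', (A u).ncard ≤ (A u').ncard := by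
    let f : AGrp G → ℕ := fun u => (A u).ncard
    exact ⟨Function.argmin f, fun u' => Function.argmin_le f u'⟩
  have hbil : ∀ γ, bil G (toW G u v) γ = bil G v (toW G u⁻¹ γ) := by
    intro γ
    conv_lhs => rw [← weyl_toW_apply_inv u γ]
    rw [bil_toW]
  have hne : ∀ γ, IsRoot G γ → bil G (toW G u v) γ ≠ 0 := by
    intro γ hγ
    rw [hbil]
    exact hreg _ (isRoot_toW G _ hγ)
  have hs : ∀ s, 0 < bil G (toW G u v) (sr s) := by
    intro s
    by_contra hcon
    have hlt : bil G (toW G u v) (sr s) < 0 :=
      lt_of_le_of_ne (not_lt.mp hcon) (hne _ (isRoot_sr G s))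
    have hmove : ∀ γ, bil G (toW G (gen G s * u) v) γ = bil G (toW G u v) (rf G s γ) := by
      intro γ
      rw [weyl_toW_mul_apply, weyl_toW_gen_apply]
      conv_lhs => rw [← rf_rf G s γ]
      rw [bil_rf_rf]
    have hmem : sr s ∈ A u := ⟨isPos_sr G s, hlt⟩
    have hsub : rf G s '' A (gen G s * u) ⊆ A u \ {sr s} := by
      rintro _ ⟨γ, ⟨h1, h2⟩, rfl⟩
      rw [hmove] at h2
      have h3 : γ ≠ sr s := by
        rintro rfl
        rw [rf_sr, bil_neg_right] at h2
        omega
      refine ⟨⟨h1.rf hG h3, h2⟩, ?_⟩
      intro h4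
      have h4 : rf G s γ = sr s := h4
      have h5 : γ = - sr s := by rw [← rf_rf G s γ, h4, rf_sr]
      rw [h5] at h1
      exact (isPos_sr G s).not_neg h1
    have h1 : (A (gen G s * u)).ncard ≤ (A u \ {sr s}).ncard := by
      rw [← Set.ncard_image_of_injective _ (weyl_rf_inj (G := G) s)]
      exact Set.ncard_le_ncard hsub ((hAfin u).sdiff)
    have h2 : (A u \ {sr s}).ncard < (A u).ncard :=
      Set.ncard_sdiff_singleton_lt_of_mem hmem (hAfin u)
    have h3 := hu (gen G s * u)
    omega
  have hpos : ∀ γ, IsPos G γ → 0 < bil G (toW G u v) γ := by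
    intro γ hγ
    refine lt_of_le_of_ne ?_ (hne γ hγ.1).symm
    rw [bil_comm, bil_eq]
    refine Finset.sum_nonneg fun s _ => mul_nonneg (hγ.2 s) ?_
    rw [← bil_sr_left, bil_comm]
    exact (hs s).le
  have hfix : toW G (u * g * u⁻¹) (toW G u v) = toW G u v := by
    rw [weyl_toW_mul_apply, weyl_toW_inv_apply, weyl_toW_mul_apply, hv]
  have hone : toW G (u * g * u⁻¹) = 1 := by
    refine toW_eq_one_of_pos hG _ fun γ hγ => ?_
    rcases IsRoot.pos_or_neg hG (isRoot_toW G (u * g * u⁻¹) hγ.1) with h1 | h1
    · exact h1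
    · exfalso
      have h2 := hpos _ h1
      rw [bil_neg_right] at h2
      have h3 : bil G (toW G u v) (toW G (u * g * u⁻¹) γ) = bil G (toW G u v) γ := by
        conv_lhs => rw [← hfix]
        rw [bil_toW]
      have h4 := hpos γ hγ
      omega
  rw [map_mul, map_mul, map_inv, mul_inv_eq_one] at hone
  exact mul_eq_left.mp hone

theorem finite_range_toW (hG : PosDef G) : Finite (toW G).range := by
  have hfin : Finite {v : S → ℤ // IsRoot G v} := (finite_root hG).to_subtype
  let f : (toW G).range → (S → {v : S → ℤ // IsRoot G v}) := fun w s =>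
    ⟨w.1 (sr s), by
      obtain ⟨g, hg⟩ := w.2
      rw [← hg]
      exact isRoot_toW G g (isRoot_sr G s)⟩
  refine Finite.of_injective f fun w w' h => ?_
  refine Subtype.ext (LinearEquiv.toLinearMap_injective ?_)
  refine LinearMap.pi_ext' fun s => LinearMap.ext_ring ?_
  have := congrArg Subtype.val (congrFun h s)
  exact this

theorem finiteIndex_ker_toW (hG : PosDef G) : (toW G).ker.FiniteIndex := by
  have := finite_range_toW hG
  exact Subgroup.finiteIndex_ker _

end SPH
end
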