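import Mathlib
import Pool.Agent.Lib.MP_7b9603_al.Weyl
import Pool.Agent.Lib.MP_7b9603_al.Roots

section

/-! # Rings with an h-adic structure (job H1: the sorries of `HRing.ofBasis`) -/

namespace SPH

universe u v

/-- A ring with an `h`-adic structure: `h` central and regular, `𝓜 / h 𝓜` a finitely generated
free abelian group, and `⋂ h ^ k 𝓜 = 0`. -/
structure HRing (𝓜 : Type v) [Ring 𝓜] where
  h : 𝓜
  comm : ∀ x, h * x = x * h
  reg : ∀ x, h * x = 0 → x = 0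
  ι : Type v
  fin : Finite ι
  c : 𝓜 →+ (ι → ℤ)
  ker : ∀ x, c x = 0 ↔ ∃ y, x = h * y
  sep : ∀ x, (∀ k : ℕ, ∃ y, x = h ^ k * y) → x = 0


noncomputable def HRing.prod {𝓜 𝓝 : Type v} [Ring 𝓜] [Ring 𝓝] (H : HRing 𝓜) (H' : HRing 𝓝) :
    HRing (𝓜 × 𝓝) where
  h := (H.h, H'.h)
  comm x := Prod.ext (H.comm x.1) (H'.comm x.2)
  reg x hx := Prod.ext (H.reg x.1 (congrArg Prod.fst hx)) (H'.reg x.2 (congrArg Prod.snd hx))
  ι := H.ι ⊕ H'.ι
  fin := by have := H.fin; have := H'.fin; infer_instance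
  c :=
    { toFun := fun x => Sum.elim (H.c x.1) (H'.c x.2)
      map_zero' := by ext (i | i) <;> simp
      map_add' := fun x y => by ext (i | i) <;> simp }
  ker x := by
    constructor
    · intro hx
      have h1 : H.c x.1 = 0 := by
        funext i; exact congrFun hx (Sum.inl i)
      have h2 : H'.c x.2 = 0 := by
        funext i; exact congrFun hx (Sum.inr i)
      obtain ⟨y, hy⟩ := (H.ker _).1 h1
      obtain ⟨z, hz⟩ := (H'.ker _).1 h2
      exact ⟨(y, z), Prod.ext hy hz⟩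
    · rintro ⟨y, rfl⟩
      have h1 : H.c (H.h * y.1) = 0 := (H.ker _).2 ⟨_, rfl⟩
      have h2 : H'.c (H'.h * y.2) = 0 := (H'.ker _).2 ⟨_, rfl⟩
      ext (i | i)
      · exact congrFun h1 i
      · exact congrFun h2 i
  sep x hx := by
    refine Prod.ext (H.sep _ fun k => ?_) (H'.sep _ fun k => ?_)
    · obtain ⟨y, hy⟩ := hx k
      exact ⟨y.1, by rw [hy]; rfl⟩
    · obtain ⟨y, hy⟩ := hx k
      exact ⟨y.2, by rw [hy]; rfl⟩

noncomputable def HRing.pi {J : Type} [Finite J] [Nonempty J] (𝓜 : J → Type v) [∀ j, Ring (𝓜 j)]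
    (H : ∀ j, HRing (𝓜 j)) : HRing (∀ j, 𝓜 j) where
  h := fun j => (H j).h
  comm x := funext fun j => (H j).comm (x j)
  reg x hx := funext fun j => (H j).reg (x j) (congrFun hx j)
  ι := Σ j, (H j).ι
  fin := by have := fun j => (H j).fin; infer_instance
  c :=
    { toFun := fun x i => (H i.1).c (x i.1) i.2
      map_zero' := by ext i; simp
      map_add' := fun x y => by ext i; simp }
  ker x := by
    constructor
    · intro hx
      have h1 : ∀ j, (H j).c (x j) = 0 := by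
        intro j; funext i; exact congrFun hx ⟨j, i⟩
      choose y hy using fun j => ((H j).ker _).1 (h1 j)
      exact ⟨y, funext hy⟩
    · rintro ⟨y, rfl⟩
      funext i
      have h1 : (H i.1).c ((H i.1).h * y i.1) = 0 := ((H i.1).ker _).2 ⟨_, rfl⟩
      exact congrFun h1 i.2
  sep x hx := by
    refine funext fun j => (H j).sep _ fun k => ?_
    obtain ⟨y, hy⟩ := hx k
    exact ⟨y j, by rw [hy]; simp⟩


theorem endo_reg {V : Type v} [AddCommGroup V] [Module (PowerSeries ℤ) V] {X : Type v} [Finite X]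
    (b : Module.Basis X (PowerSeries ℤ) V) (x : Module.End (PowerSeries ℤ) V)
    (hx : ((PowerSeries.X : PowerSeries ℤ) • (1 : Module.End (PowerSeries ℤ) V)) * x = 0) :
    x = 0 := by
  rw [smul_mul_assoc, one_mul] at hx
  refine b.ext fun i => ?_
  rw [LinearMap.zero_apply, ← b.repr.map_eq_zero_iff]
  ext1 j
  have h1 := congrArg (fun f : Module.End (PowerSeries ℤ) V => b.repr (f (b i)) j) hx
  simp only [LinearMap.smul_apply, map_smul, Finsupp.smul_apply, smul_eq_mul,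
    LinearMap.zero_apply, map_zero, Finsupp.zero_apply] at h1
  rw [Finsupp.zero_apply]
  exact (mul_eq_zero.1 h1).resolve_left PowerSeries.X_ne_zero

theorem endo_ker {V : Type v} [AddCommGroup V] [Module (PowerSeries ℤ) V] {X : Type v} [Finite X]
    (b : Module.Basis X (PowerSeries ℤ) V) (x : Module.End (PowerSeries ℤ) V) :
    (∀ i j, PowerSeries.constantCoeff (R := ℤ) (b.repr (x (b i)) j) = 0) ↔
      ∃ y, x = ((PowerSeries.X : PowerSeries ℤ) • (1 : Module.End (PowerSeries ℤ) V)) * y := by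
  classical
  have := Fintype.ofFinite X
  constructor
  · intro h
    have h1 : ∀ i j, ∃ q : PowerSeries ℤ, b.repr (x (b i)) j = PowerSeries.X * q := fun i j =>
      PowerSeries.X_dvd_iff.2 (h i j)
    choose q hq using h1
    refine ⟨b.constr ℤ fun i => ∑ j, q i j • b j, ?_⟩
    rw [smul_mul_assoc, one_mul]
    refine b.ext fun i => ?_
    rw [LinearMap.smul_apply, Module.Basis.constr_basis, Finset.smul_sum]
    conv_lhs => rw [← b.sum_repr (x (b i))]
    refine Finset.sum_congr rfl fun j _ => ?_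
    rw [hq, mul_smul]
  · rintro ⟨y, rfl⟩ i j
    rw [smul_mul_assoc, one_mul, LinearMap.smul_apply, map_smul, Finsupp.smul_apply, smul_eq_mul,
      map_mul, PowerSeries.constantCoeff_X, zero_mul]

theorem endo_sep {V : Type v} [AddCommGroup V] [Module (PowerSeries ℤ) V] {X : Type v} [Finite X]
    (b : Module.Basis X (PowerSeries ℤ) V) (x : Module.End (PowerSeries ℤ) V)
    (hx : ∀ k : ℕ, ∃ y, x =
      ((PowerSeries.X : PowerSeries ℤ) • (1 : Module.End (PowerSeries ℤ) V)) ^ k * y) :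
    x = 0 := by
  refine b.ext fun i => ?_
  rw [LinearMap.zero_apply, ← b.repr.map_eq_zero_iff]
  ext1 j
  rw [Finsupp.zero_apply]
  ext m
  obtain ⟨y, hy⟩ := hx (m + 1)
  rw [smul_pow, one_pow, smul_mul_assoc, one_mul] at hy
  rw [hy, LinearMap.smul_apply, map_smul, Finsupp.smul_apply, smul_eq_mul, map_zero]
  have h1 : (PowerSeries.X : PowerSeries ℤ) ^ (m + 1) ∣
      PowerSeries.X ^ (m + 1) * b.repr (y (b i)) j := Dvd.intro _ rfl
  exact PowerSeries.X_pow_dvd_iff.1 h1 m (Nat.lt_succ_self m)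

/-- The basic example: endomorphisms of a free module of finite rank over `ℤ⟦h⟧`. -/
noncomputable def HRing.ofBasis {V : Type v} [AddCommGroup V] [Module (PowerSeries ℤ) V]
    {X : Type v} [Finite X] (b : Module.Basis X (PowerSeries ℤ) V) :
    HRing (Module.End (PowerSeries ℤ) V) where
  h := (PowerSeries.X : PowerSeries ℤ) • (1 : Module.End (PowerSeries ℤ) V)
  comm x := by simp
  reg x hx := endo_reg b x hx
  ι := X × X
  fin := inferInstance
  c :=
    { toFun := fun f ij => PowerSeries.constantCoeff (R := ℤ) (b.repr (f (b ij.1)) ij.2)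
      map_zero' := by ext ij; simp
      map_add' := fun x y => by ext ij; simp }
  ker x := by
    rw [← endo_ker b x]
    constructor
    · intro hx i j
      exact congrFun hx (i, j)
    · intro hx
      funext ij
      exact hx ij.1 ij.2
  sep x hx := endo_sep b x hx

theorem HRing.ofBasis_h_pow {V : Type v} [AddCommGroup V] [Module (PowerSeries ℤ) V]
    {X : Type v} [Finite X] (b : Module.Basis X (PowerSeries ℤ) V) (k : ℕ)
    (y : Module.End (PowerSeries ℤ) V) :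
    (HRing.ofBasis b).h ^ k * y = (PowerSeries.X : PowerSeries ℤ) ^ k • y := by
  change ((PowerSeries.X : PowerSeries ℤ) • (1 : Module.End (PowerSeries ℤ) V)) ^ k * y = _
  rw [smul_pow, one_pow, smul_mul_assoc, one_mul]

end SPH
end

section

/-! # Torsion freeness of the quotients (job H3) -/

namespace SPH

universe u v

private theorem ht_comm {𝓜 : Type v} [Ring 𝓜] (H : HRing 𝓜) (k : ℕ) (x : 𝓜) :
    x * H.h ^ k = H.h ^ k * x :=
  ((show Commute x H.h from (H.comm x).symm).pow_right k).eq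

private theorem ht_reg {𝓜 : Type v} [Ring 𝓜] (H : HRing 𝓜) (k : ℕ) (x : 𝓜)
    (hx : H.h ^ k * x = 0) : x = 0 := by
  induction k with
  | zero => simpa using hx
  | succ k ih =>
    apply ih
    apply H.reg
    rw [← mul_assoc, ← pow_succ', hx]

private theorem ht_binom {𝓜 : Type v} [Ring 𝓜] (H : HRing 𝓜) (j : ℕ) (hj : 1 ≤ j) (a : 𝓜)
    (n : ℕ) : ∃ z, (1 + H.h ^ j * a) ^ n = 1 + (n : 𝓜) * (H.h ^ j * a) + H.h ^ (j + 1) * z := by
  induction n with
  | zero => exact ⟨0, by simp⟩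
  | succ n ih =>
    obtain ⟨z, hz⟩ := ih
    obtain ⟨i, rfl⟩ : ∃ i, j = i + 1 := ⟨j - 1, by omega⟩
    set h := H.h with hh
    have e1 : (n : 𝓜) * (h ^ (i + 1) * a) * (h ^ (i + 1) * a) =
        h ^ (i + 1 + 1) * ((n : 𝓜) * (h ^ i * (a * a))) := by
      have c1 := ht_comm H (i + 1) a
      have c2 := ht_comm H (i + 1) (n : 𝓜)
      rw [← hh] at c1 c2
      calc (n : 𝓜) * (h ^ (i + 1) * a) * (h ^ (i + 1) * a)
          = ((n : 𝓜) * h ^ (i + 1)) * (a * h ^ (i + 1)) * a := by simp only [mul_assoc]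
        _ = (h ^ (i + 1) * (n : 𝓜)) * (h ^ (i + 1) * a) * a := by rw [c1, c2]
        _ = h ^ (i + 1) * ((n : 𝓜) * h ^ (i + 1)) * (a * a) := by simp only [mul_assoc]
        _ = h ^ (i + 1) * (h ^ (i + 1) * (n : 𝓜)) * (a * a) := by rw [c2]
        _ = (h ^ (i + 1) * h ^ (i + 1)) * ((n : 𝓜) * (a * a)) := by simp only [mul_assoc]
        _ = (h ^ (i + 1 + 1) * h ^ i) * ((n : 𝓜) * (a * a)) := by
          rw [← pow_add, ← pow_add]; congr 2; ring
        _ = h ^ (i + 1 + 1) * (h ^ i * ((n : 𝓜) * (a * a))) := by simp only [mul_assoc]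
        _ = h ^ (i + 1 + 1) * ((n : 𝓜) * (h ^ i * (a * a))) := by
          have c3 := ht_comm H i (n : 𝓜)
          rw [← hh] at c3
          rw [← mul_assoc (h ^ i), ← c3, mul_assoc]
    refine ⟨z + z * (h ^ (i + 1) * a) + (n : 𝓜) * (h ^ i * (a * a)), ?_⟩
    rw [pow_succ, hz]
    push_cast
    calc (1 + (n : 𝓜) * (h ^ (i + 1) * a) + h ^ (i + 1 + 1) * z) * (1 + h ^ (i + 1) * a)
        = 1 + ((n : 𝓜) + 1) * (h ^ (i + 1) * a) + (h ^ (i + 1 + 1) * z +
            h ^ (i + 1 + 1) * (z * (h ^ (i + 1) * a)) +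
            (n : 𝓜) * (h ^ (i + 1) * a) * (h ^ (i + 1) * a)) := by noncomm_ring
      _ = _ := by rw [e1]; noncomm_ring

private theorem ht_prime {𝓜 : Type v} [Ring 𝓜] (H : HRing 𝓜) {A : Type u} [Group A]
    (P : Subgroup A) (ρ : A →* 𝓜ˣ)
    (hP : ∀ g ∈ P, ∃ y, ((ρ g : 𝓜ˣ) : 𝓜) = 1 + H.h * y)
    (hdet : ∀ g, (∃ y, ((ρ g : 𝓜ˣ) : 𝓜) = 1 + H.h * y) → g ∈ P) (k0 : ℕ) (hk0 : 1 ≤ k0)
    (htf : ∀ g, g ∉ P → ∀ p : ℕ, p.Prime → g ^ p ∈ P →
      ¬ ∃ y, ((ρ (g ^ p) : 𝓜ˣ) : 𝓜) = 1 + H.h ^ k0 * y) (k : ℕ) (hk : k0 ≤ k) (g : A) (p : ℕ)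
    (hp : p.Prime) (hg : ∃ y, ((ρ (g ^ p) : 𝓜ˣ) : 𝓜) = 1 + H.h ^ k * y) :
    ∃ y, ((ρ g : 𝓜ˣ) : 𝓜) = 1 + H.h ^ k * y := by
  obtain ⟨y, hy⟩ := hg
  have h1 : g ^ p ∈ P := by
    apply hdet
    refine ⟨H.h ^ (k - 1) * y, ?_⟩
    rw [hy, ← mul_assoc, ← pow_succ']
    congr 3; omega
  have h2 : g ∈ P := by
    by_contra hc
    apply htf g hc p hp h1
    refine ⟨H.h ^ (k - k0) * y, ?_⟩
    rw [hy, ← mul_assoc, ← pow_add]
    congr 3; omega
  have key : ∀ j, 1 ≤ j → j ≤ k → ∃ y, ((ρ g : 𝓜ˣ) : 𝓜) = 1 + H.h ^ j * y := by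
    intro j hj
    induction j, hj using Nat.le_induction with
    | base =>
      intro _
      obtain ⟨a, ha⟩ := hP g h2
      exact ⟨a, by rw [ha, pow_one]⟩
    | succ j hj ih =>
      intro hjk
      obtain ⟨a, ha⟩ := ih (by omega)
      obtain ⟨z, hz⟩ := ht_binom H j hj a p
      have e1 : ((ρ (g ^ p) : 𝓜ˣ) : 𝓜) = (1 + H.h ^ j * a) ^ p := by
        rw [map_pow, Units.val_pow_eq_pow_val, ha]
      rw [hy, hz] at e1
      have e2 : H.h ^ j * ((p : 𝓜) * a - H.h * (H.h ^ (k - (j + 1)) * y - z)) = 0 := by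
        have c1 := ht_comm H j (p : 𝓜)
        have c2 : H.h ^ j * ((p : 𝓜) * a) = (p : 𝓜) * (H.h ^ j * a) := by
          rw [← mul_assoc, ← c1, mul_assoc]
        have c3 : H.h ^ k = H.h ^ j * H.h * H.h ^ (k - (j + 1)) := by
          rw [← pow_succ, ← pow_add]; congr 1; omega
        have c4 : H.h ^ j * (H.h * (H.h ^ (k - (j + 1)) * y - z)) =
            H.h ^ k * y - H.h ^ (j + 1) * z := by
          rw [c3, pow_succ H.h j]; simp only [mul_sub, mul_assoc]
        rw [mul_sub, c2, c4]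
        rw [add_assoc] at e1
        have e3 := add_left_cancel e1
        rw [e3]; abel
      have e4 := ht_reg H j _ e2
      have e5 : (p : 𝓜) * a = H.h * (H.h ^ (k - (j + 1)) * y - z) := sub_eq_zero.1 e4
      have e6 : H.c ((p : 𝓜) * a) = 0 := (H.ker _).2 ⟨_, e5⟩
      have e7 : H.c a = 0 := by
        rw [← nsmul_eq_mul, map_nsmul] at e6
        have hp0 : (p : ℤ) ≠ 0 := by exact_mod_cast hp.ne_zero
        funext i
        have := congrFun e6 i
        simp only [Pi.smul_apply, Pi.zero_apply, nsmul_eq_mul, mul_eq_zero] at this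
        rcases this with h | h
        · exact absurd h hp0
        · exact h
      obtain ⟨a', ha'⟩ := (H.ker _).1 e7
      exact ⟨a', by rw [ha, ha', ← mul_assoc, ← pow_succ]⟩
  exact key k (by omega) le_rfl

theorem HRing.torsion {𝓜 : Type v} [Ring 𝓜] (H : HRing 𝓜) {A : Type u} [Group A]
    (P : Subgroup A) (ρ : A →* 𝓜ˣ)
    (hP : ∀ g ∈ P, ∃ y, ((ρ g : 𝓜ˣ) : 𝓜) = 1 + H.h * y)
    (hdet : ∀ g, (∃ y, ((ρ g : 𝓜ˣ) : 𝓜) = 1 + H.h * y) → g ∈ P) (k0 : ℕ) (hk0 : 1 ≤ k0)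
    (htf : ∀ g, g ∉ P → ∀ p : ℕ, p.Prime → g ^ p ∈ P →
      ¬ ∃ y, ((ρ (g ^ p) : 𝓜ˣ) : 𝓜) = 1 + H.h ^ k0 * y) (k : ℕ) (hk : k0 ≤ k) (g : A) (n : ℕ)
    (hn : n ≠ 0) (hg : ∃ y, ((ρ (g ^ n) : 𝓜ˣ) : 𝓜) = 1 + H.h ^ k * y) :
    ∃ y, ((ρ g : 𝓜ˣ) : 𝓜) = 1 + H.h ^ k * y := by
  induction n using Nat.recOnMul generalizing g with
  | zero => exact absurd rfl hn
  | one => simpa using hg
  | prime p hp => exact ht_prime H P ρ hP hdet k0 hk0 htf k hk g p hp hg
  | mul a b iha ihb =>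
    have ha : a ≠ 0 := fun h => hn (by rw [h, zero_mul])
    have hb : b ≠ 0 := fun h => hn (by rw [h, mul_zero])
    rw [pow_mul] at hg
    exact iha g ha (ihb (g ^ a) hb hg)

end SPH
end

section

/-! # Central extensions by lattices (job R10) -/

namespace SPH

universe u v

/-- the elements of the kernel whose first coordinate vanishes -/
private def ce_K0 {N N' : Type u} [Group N] [Group N'] (f : N →* N') {r : ℕ}
    (j : N → (Fin (r + 1) → ℤ))
    (hj : ∀ a ∈ f.ker, ∀ b ∈ f.ker, j (a * b) = j a + j b) : Subgroup N where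
  carrier := {a | a ∈ f.ker ∧ j a 0 = 0}
  one_mem' := by
    refine ⟨f.ker.one_mem, ?_⟩
    have h1 := hj 1 f.ker.one_mem 1 f.ker.one_mem
    rw [mul_one] at h1
    have h2 : j 1 0 = j 1 0 + j 1 0 := congrFun h1 0
    omega
  mul_mem' := by
    rintro a b ⟨ha, ha0⟩ ⟨hb, hb0⟩
    refine ⟨f.ker.mul_mem ha hb, ?_⟩
    rw [hj a ha b hb, Pi.add_apply, ha0, hb0, add_zero]
  inv_mem' := by
    rintro a ⟨ha, ha0⟩
    refine ⟨f.ker.inv_mem ha, ?_⟩
    have h1 := hj 1 f.ker.one_mem 1 f.ker.one_mem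
    rw [mul_one] at h1
    have h2 : j 1 0 = j 1 0 + j 1 0 := congrFun h1 0
    have h3 := hj a ha a⁻¹ (f.ker.inv_mem ha)
    rw [mul_inv_cancel] at h3
    have h4 : j 1 0 = j a 0 + j a⁻¹ 0 := congrFun h3 0
    omega

private theorem ce_aux (r : ℕ) : ∀ (N N' : Type u) [Group N] [Group N'] (f : N →* N'),
    Function.Surjective f → f.ker ≤ Subgroup.center N → ∀ (j : N → (Fin r → ℤ)),
    (∀ a ∈ f.ker, ∀ b ∈ f.ker, j (a * b) = j a + j b) → (∀ a ∈ f.ker, j a = 0 → a = 1) →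
    CPZ N' → CPZ N := by
  induction r with
  | zero =>
    intro N N' _ _ f hf hc j hj hj0 h
    have hinj : Function.Injective f := by
      rw [injective_iff_map_eq_one]
      intro a ha
      exact hj0 a ha (Subsingleton.elim _ _)
    exact h.of_equiv (MulEquiv.ofBijective f ⟨hinj, hf⟩).symm
  | succ r ih =>
    intro N N' _ _ f hf hc j hj hj0 h
    have hj1 : j 1 = 0 := by
      have h1 := hj 1 f.ker.one_mem 1 f.ker.one_mem
      rw [mul_one] at h1
      exact left_eq_add.1 h1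
    have hjinv : ∀ a ∈ f.ker, j a⁻¹ = - j a := by
      intro a ha
      have h3 := hj a ha a⁻¹ (f.ker.inv_mem ha)
      rw [mul_inv_cancel, hj1] at h3
      exact (neg_eq_of_add_eq_zero_right h3.symm).symm
    have hjpow : ∀ a ∈ f.ker, ∀ m : ℕ, j (a ^ m) = (m : ℤ) • j a := by
      intro a ha m
      induction m with
      | zero => rw [pow_zero, hj1]; simp
      | succ m ihm =>
        rw [pow_succ, hj _ (f.ker.pow_mem ha m) a ha, ihm]
        push_cast
        rw [add_smul, one_smul]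
    have hjzpow : ∀ a ∈ f.ker, ∀ m : ℤ, j (a ^ m) = m • j a := by
      intro a ha m
      obtain ⟨k, rfl | rfl⟩ := m.eq_nat_or_neg
      · rw [zpow_natCast, hjpow a ha]
      · rw [zpow_neg, zpow_natCast, hjinv _ (f.ker.pow_mem ha k), hjpow a ha, neg_smul]
    set K0 : Subgroup N := ce_K0 f j hj with hK0
    have hmem : ∀ a, a ∈ K0 ↔ a ∈ f.ker ∧ j a 0 = 0 := fun a => Iff.rfl
    have hK0c : K0 ≤ Subgroup.center N := fun a ha => hc ((hmem a).1 ha).1
    haveI : K0.Normal := ⟨by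
      intro a ha g
      have := Subgroup.mem_center_iff.1 (hK0c ha) g
      rw [this, mul_inv_cancel_right]
      exact ha⟩
    have hle : K0 ≤ f.ker := fun a ha => ((hmem a).1 ha).1
    let fb : N ⧸ K0 →* N' := QuotientGroup.lift K0 f (fun a ha => hle ha)
    have hfb : ∀ a : N, fb (QuotientGroup.mk a) = f a := fun a => rfl
    have hfbs : Function.Surjective fb := by
      intro y
      obtain ⟨a, rfl⟩ := hf y
      exact ⟨QuotientGroup.mk a, rfl⟩
    -- the image of the first coordinate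
    let A : AddSubgroup ℤ :=
      { carrier := {m | ∃ a ∈ f.ker, j a 0 = m}
        zero_mem' := ⟨1, f.ker.one_mem, by rw [hj1]; rfl⟩
        add_mem' := by
          rintro _ _ ⟨a, ha, rfl⟩ ⟨b, hb, rfl⟩
          exact ⟨a * b, f.ker.mul_mem ha hb, by rw [hj a ha b hb]; rfl⟩
        neg_mem' := by
          rintro _ ⟨a, ha, rfl⟩
          exact ⟨a⁻¹, f.ker.inv_mem ha, by rw [hjinv a ha]; rfl⟩ }
    obtain ⟨k, hk⟩ := Int.subgroup_cyclic A
    have hkA : k ∈ A := by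
      rw [hk]
      exact AddSubgroup.subset_closure rfl
    obtain ⟨z, hz, hzk⟩ := hkA
    have hA : ∀ a ∈ f.ker, ∃ m : ℤ, m * k = j a 0 := by
      intro a ha
      have : j a 0 ∈ A := ⟨a, ha, rfl⟩
      rw [hk, AddSubgroup.mem_closure_singleton] at this
      obtain ⟨m, hm⟩ := this
      exact ⟨m, by rw [← hm, smul_eq_mul]⟩
    have hq : CPZ (N ⧸ K0) := by
      by_cases hk0 : k = 0
      · have hinj : Function.Injective fb := by
          rw [injective_iff_map_eq_one]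
          intro x
          obtain ⟨a, rfl⟩ := QuotientGroup.mk_surjective x
          intro ha
          rw [hfb] at ha
          rw [QuotientGroup.eq_one_iff]
          obtain ⟨m, hm⟩ := hA a ha
          exact (hmem a).2 ⟨ha, by rw [← hm, hk0, mul_zero]⟩
        exact h.of_equiv (MulEquiv.ofBijective fb ⟨hinj, hfbs⟩).symm
      · refine CPZ.ext (N ⧸ K0) N' fb hfbs (QuotientGroup.mk z) ?_ ?_ ?_ h
        · rw [Subgroup.mem_center_iff]
          intro x
          obtain ⟨a, rfl⟩ := QuotientGroup.mk_surjective x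
          rw [← QuotientGroup.mk_mul, ← QuotientGroup.mk_mul,
            Subgroup.mem_center_iff.1 (hc hz) a]
        · ext x
          obtain ⟨a, rfl⟩ := QuotientGroup.mk_surjective x
          rw [MonoidHom.mem_ker, hfb, Subgroup.mem_zpowers_iff]
          constructor
          · intro ha
            obtain ⟨m, hm⟩ := hA a ha
            refine ⟨m, ?_⟩
            rw [← QuotientGroup.mk_zpow, QuotientGroup.eq, hmem]
            have hzm := f.ker.zpow_mem hz m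
            refine ⟨f.ker.mul_mem (f.ker.inv_mem hzm) ha, ?_⟩
            rw [hj _ (f.ker.inv_mem hzm) a ha, hjinv _ hzm, hjzpow z hz]
            simp only [Pi.add_apply, Pi.neg_apply, Pi.smul_apply, smul_eq_mul, hzk, ← hm]
            ring
          · rintro ⟨m, hm⟩
            rw [← QuotientGroup.mk_zpow, QuotientGroup.eq, hmem] at hm
            have hzm := f.ker.zpow_mem hz m
            have h5 := f.ker.mul_mem hzm hm.1
            rw [mul_inv_cancel_left] at h5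
            exact h5
        · intro m hm
          rw [← QuotientGroup.mk_zpow, QuotientGroup.eq_one_iff, hmem, hjzpow z hz] at hm
          have h6 := hm.2
          simp only [Pi.smul_apply, smul_eq_mul, hzk] at h6
          rcases mul_eq_zero.1 h6 with h7 | h7
          · exact h7
          · exact absurd h7 hk0
    refine ih N (N ⧸ K0) (QuotientGroup.mk' K0) (QuotientGroup.mk'_surjective K0) ?_
      (fun a i => j a i.succ) ?_ ?_ hq
    · rw [QuotientGroup.ker_mk']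
      exact hK0c
    · intro a ha b hb
      rw [QuotientGroup.ker_mk'] at ha hb
      funext i
      rw [hj a (hle ha) b (hle hb)]
      rfl
    · intro a ha h0
      rw [QuotientGroup.ker_mk'] at ha
      refine hj0 a (hle ha) ?_
      funext i
      refine Fin.cases ?_ (fun i => ?_) i
      · exact ((hmem a).1 ha).2
      · exact congrFun h0 i

theorem CPZ.central_ext {N N' : Type u} [Group N] [Group N'] (f : N →* N')
    (hf : Function.Surjective f) (hc : f.ker ≤ Subgroup.center N) {ι : Type v} [Finite ι]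
    (j : f.ker →* Multiplicative (ι → ℤ)) (hj : Function.Injective j) (h : CPZ N') : CPZ N := by
  classical
  obtain ⟨r, ⟨e⟩⟩ := Finite.exists_equiv_fin ι
  refine ce_aux r N N' f hf hc
    (fun a i => if ha : a ∈ f.ker then Multiplicative.toAdd (j ⟨a, ha⟩) (e.symm i) else 0) ?_ ?_ h
  · intro a ha b hb
    have hab := f.ker.mul_mem ha hb
    funext i
    simp only [ha, hb, hab, dif_pos, Pi.add_apply]
    have : (⟨a * b, hab⟩ : f.ker) = ⟨a, ha⟩ * ⟨b, hb⟩ := rfl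
    rw [this, map_mul, toAdd_mul, Pi.add_apply]
  · intro a ha h0
    have h1 : j ⟨a, ha⟩ = 1 := by
      apply Multiplicative.toAdd.injective
      funext i
      have h2 := congrFun h0 (e i)
      simp only [ha, dif_pos, Equiv.symm_apply_apply] at h2
      exact h2
    have h3 : (⟨a, ha⟩ : f.ker) = 1 := hj (by rw [h1, map_one])
    exact congrArg Subtype.val h3

end SPH
end

section

/-! # Quotients of a filtered group are in CPZ (job H2) -/

namespace SPH

universe u v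

section FiltAux

variable {𝓜 : Type v} [Ring 𝓜] (H : HRing 𝓜)

private theorem filt_pow_comm (k : ℕ) (x : 𝓜) : H.h ^ k * x = x * H.h ^ k :=
  ((show Commute H.h x from H.comm x).pow_left k).eq

private theorem filt_pow_reg (k : ℕ) (x : 𝓜) (hx : H.h ^ k * x = 0) : x = 0 := by
  induction k with
  | zero => simpa using hx
  | succ k ih =>
    apply ih
    apply H.reg
    rw [← mul_assoc, ← pow_succ']
    exact hx

variable {P : Type u} [Group P] (ρ : P →* 𝓜ˣ)

private def filtSub (k : ℕ) : Subgroup P where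
  carrier := {g | ∃ y, ((ρ g : 𝓜ˣ) : 𝓜) = 1 + H.h ^ k * y}
  one_mem' := ⟨0, by simp⟩
  mul_mem' := by
    rintro a b ⟨y, hy⟩ ⟨z, hz⟩
    refine ⟨y + z + y * (H.h ^ k * z), ?_⟩
    rw [map_mul, Units.val_mul, hy, hz]
    noncomm_ring
  inv_mem' := by
    rintro a ⟨y, hy⟩
    refine ⟨-(y * ((ρ a⁻¹ : 𝓜ˣ) : 𝓜)), ?_⟩
    have h1 : ((ρ a : 𝓜ˣ) : 𝓜) * ((ρ a⁻¹ : 𝓜ˣ) : 𝓜) = 1 := by
      rw [← Units.val_mul, ← map_mul, mul_inv_cancel, map_one, Units.val_one]
    rw [hy, add_mul, one_mul] at h1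
    rw [mul_neg, ← mul_assoc, ← h1]
    abel

private theorem filtSub_mem (k : ℕ) (g : P) :
    g ∈ filtSub H ρ k ↔ ∃ y, ((ρ g : 𝓜ˣ) : 𝓜) = 1 + H.h ^ k * y := Iff.rfl

private theorem filtSub_normal (k : ℕ) : (filtSub H ρ k).Normal := by
  constructor
  rintro a ⟨y, hy⟩ g
  refine ⟨((ρ g : 𝓜ˣ) : 𝓜) * y * ((ρ g⁻¹ : 𝓜ˣ) : 𝓜), ?_⟩
  have h1 : ((ρ g : 𝓜ˣ) : 𝓜) * ((ρ g⁻¹ : 𝓜ˣ) : 𝓜) = 1 := by
    rw [← Units.val_mul, ← map_mul, mul_inv_cancel, map_one, Units.val_one]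
  rw [map_mul, map_mul, Units.val_mul, Units.val_mul, hy, mul_add, mul_one, add_mul, h1,
    ← mul_assoc, ← filt_pow_comm, ← mul_assoc, ← mul_assoc]

private theorem filt_eq_iff {Q : Type u} [Group Q] (f : P →* Q) (k : ℕ)
    (hker : ∀ g, f g = 1 ↔ ∃ y, ((ρ g : 𝓜ˣ) : 𝓜) = 1 + H.h ^ k * y) (x y : P) :
    f x = f y ↔ ∃ z, ((ρ x : 𝓜ˣ) : 𝓜) = ((ρ y : 𝓜ˣ) : 𝓜) + H.h ^ k * z := by
  have h1 : ((ρ y : 𝓜ˣ) : 𝓜) * ((ρ y⁻¹ : 𝓜ˣ) : 𝓜) = 1 := by
    rw [← Units.val_mul, ← map_mul, mul_inv_cancel, map_one, Units.val_one]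
  have h2 : ((ρ y⁻¹ : 𝓜ˣ) : 𝓜) * ((ρ y : 𝓜ˣ) : 𝓜) = 1 := by
    rw [← Units.val_mul, ← map_mul, inv_mul_cancel, map_one, Units.val_one]
  have h0 : f x = f y ↔ f (x * y⁻¹) = 1 := by
    rw [map_mul, map_inv, mul_inv_eq_one]
  rw [h0, hker]
  constructor
  · rintro ⟨z, hz⟩
    refine ⟨z * ((ρ y : 𝓜ˣ) : 𝓜), ?_⟩
    have h3 : ((ρ x : 𝓜ˣ) : 𝓜) = ((ρ (x * y⁻¹) : 𝓜ˣ) : 𝓜) * ((ρ y : 𝓜ˣ) : 𝓜) := by
      rw [map_mul, Units.val_mul, mul_assoc, h2, mul_one]
    rw [h3, hz, add_mul, one_mul, mul_assoc]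
  · rintro ⟨z, hz⟩
    refine ⟨z * ((ρ y⁻¹ : 𝓜ˣ) : 𝓜), ?_⟩
    rw [map_mul, Units.val_mul, hz, add_mul, h1, mul_assoc]

end FiltAux

private theorem filt_aux {𝓜 : Type v} [Ring 𝓜] (H : HRing 𝓜) {P : Type u} [Group P]
    (ρ : P →* 𝓜ˣ) (hP : ∀ g, ∃ y, ((ρ g : 𝓜ˣ) : 𝓜) = 1 + H.h * y) (k : ℕ) :
    ∀ {Q : Type u} [Group Q] (f : P →* Q) (_ : Function.Surjective f)
    (_ : ∀ g, f g = 1 ↔ ∃ y, ((ρ g : 𝓜ˣ) : 𝓜) = 1 + H.h ^ (k + 1) * y), CPZ Q := by
  induction k with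
  | zero =>
    intro Q _ f hf hker
    have : Subsingleton Q := by
      refine subsingleton_of_forall_eq 1 fun q => ?_
      obtain ⟨g, rfl⟩ := hf q
      rw [hker]
      simpa using hP g
    exact CPZ.triv Q
  | succ k ih =>
    intro Q _ f hf hker
    have hn := filtSub_normal H ρ (k + 1)
    -- the quotient `P / N_{k+1}`
    have ih' : CPZ (P ⧸ filtSub H ρ (k + 1)) := by
      apply ih (QuotientGroup.mk' (filtSub H ρ (k + 1))) (QuotientGroup.mk'_surjective _)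
      intro g
      rw [← filtSub_mem]
      exact QuotientGroup.eq_one_iff g
    have hle : f.ker ≤ (QuotientGroup.mk' (filtSub H ρ (k + 1))).ker := by
      intro g hg
      rw [MonoidHom.mem_ker, hker] at hg
      obtain ⟨y, hy⟩ := hg
      rw [QuotientGroup.ker_mk', filtSub_mem]
      exact ⟨H.h * y, by rw [hy, ← mul_assoc, ← pow_succ]⟩
    let g : Q →* P ⧸ filtSub H ρ (k + 1) :=
      f.liftOfSurjective hf ⟨QuotientGroup.mk' (filtSub H ρ (k + 1)), hle⟩
    have hgf : ∀ x, g (f x) = QuotientGroup.mk' (filtSub H ρ (k + 1)) x := by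
      intro x
      exact MonoidHom.liftOfRightInverse_comp_apply f _ _
        ⟨QuotientGroup.mk' (filtSub H ρ (k + 1)), hle⟩ x
    have hg : Function.Surjective g := by
      intro q
      obtain ⟨x, rfl⟩ := QuotientGroup.mk'_surjective (filtSub H ρ (k + 1)) q
      exact ⟨f x, hgf x⟩
    have hgker : ∀ x, g (f x) = 1 ↔ ∃ y, ((ρ x : 𝓜ˣ) : 𝓜) = 1 + H.h ^ (k + 1) * y := by
      intro x
      rw [hgf, ← filtSub_mem]
      exact QuotientGroup.eq_one_iff x
    have heq := filt_eq_iff H ρ f (k + 1 + 1) hker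
    -- centrality
    have hc : g.ker ≤ Subgroup.center Q := by
      intro q hq
      obtain ⟨a, rfl⟩ := hf q
      rw [MonoidHom.mem_ker, hgker] at hq
      obtain ⟨y, hy⟩ := hq
      rw [Subgroup.mem_center_iff]
      intro q'
      obtain ⟨b, rfl⟩ := hf q'
      obtain ⟨x, hx⟩ := hP b
      rw [← map_mul, ← map_mul, heq]
      refine ⟨x * y - y * x, ?_⟩
      rw [map_mul, map_mul, Units.val_mul, Units.val_mul, hx, hy]
      have e1 : H.h * x * (H.h ^ (k + 1) * y) = H.h ^ (k + 1 + 1) * (x * y) := by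
        rw [mul_assoc, ← mul_assoc x, ← filt_pow_comm, mul_assoc, ← mul_assoc H.h, ← pow_succ']
      have e2 : H.h ^ (k + 1) * y * (H.h * x) = H.h ^ (k + 1 + 1) * (y * x) := by
        rw [mul_assoc, ← mul_assoc y, ← H.comm, mul_assoc, ← mul_assoc _ H.h, ← pow_succ]
      have e3 : (1 + H.h * x) * (1 + H.h ^ (k + 1) * y)
          = 1 + H.h * x + H.h ^ (k + 1) * y + H.h * x * (H.h ^ (k + 1) * y) := by noncomm_ring
      have e4 : (1 + H.h ^ (k + 1) * y) * (1 + H.h * x)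
          = 1 + H.h * x + H.h ^ (k + 1) * y + H.h ^ (k + 1) * y * (H.h * x) := by noncomm_ring
      rw [e3, e4, e1, e2, mul_sub]
      abel
    -- the coordinate map
    have hex : ∀ q : g.ker, ∃ y : 𝓜, ∃ a : P, f a = q ∧
        ((ρ a : 𝓜ˣ) : 𝓜) = 1 + H.h ^ (k + 1) * y := by
      rintro ⟨q, hq⟩
      obtain ⟨a, rfl⟩ := hf q
      rw [MonoidHom.mem_ker, hgker] at hq
      obtain ⟨y, hy⟩ := hq
      exact ⟨y, a, rfl, hy⟩
    have huniq : ∀ (a a' : P) (y y' : 𝓜), f a = f a' →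
        ((ρ a : 𝓜ˣ) : 𝓜) = 1 + H.h ^ (k + 1) * y → ((ρ a' : 𝓜ˣ) : 𝓜) = 1 + H.h ^ (k + 1) * y' →
        H.c y = H.c y' := by
      intro a a' y y' haa hy hy'
      obtain ⟨z, hz⟩ := (heq a a').1 haa
      have h1 : H.h ^ (k + 1) * (y - (y' + H.h * z)) = 0 := by
        rw [hy, hy', add_assoc] at hz
        have h2 := add_left_cancel hz
        rw [mul_sub, h2, mul_add, ← mul_assoc, ← pow_succ, sub_self]
      have h3 := filt_pow_reg H _ _ h1
      have h4 : y = y' + H.h * z := sub_eq_zero.1 h3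
      have h5 : H.c (H.h * z) = 0 := (H.ker _).2 ⟨z, rfl⟩
      rw [h4, map_add, h5, add_zero]
    choose Y A hA hY using hex
    let j : g.ker →* Multiplicative (H.ι → ℤ) :=
      { toFun := fun q => Multiplicative.ofAdd (H.c (Y q))
        map_one' := by
          have : H.c (Y 1) = H.c 0 := by
            apply huniq (A 1) 1 (Y 1) 0 _ (hY 1)
            · simp
            · rw [hA 1]; simp
          rw [this, map_zero]; rfl
        map_mul' := by
          intro q q'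
          have e : ((ρ (A q * A q') : 𝓜ˣ) : 𝓜)
              = 1 + H.h ^ (k + 1) * (Y q + Y q' + H.h * (H.h ^ k * (Y q * Y q'))) := by
            rw [map_mul, Units.val_mul, hY q, hY q']
            have e1 : H.h ^ (k + 1) * Y q * (H.h ^ (k + 1) * Y q')
                = H.h ^ (k + 1) * (H.h * (H.h ^ k * (Y q * Y q'))) := by
              rw [mul_assoc, ← mul_assoc (Y q), ← filt_pow_comm, mul_assoc (H.h ^ (k + 1)) (Y q),
                ← mul_assoc H.h, ← pow_succ']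
            rw [mul_add, mul_add, ← e1]
            noncomm_ring
          have : H.c (Y (q * q')) = H.c (Y q + Y q' + H.h * (H.h ^ k * (Y q * Y q'))) := by
            apply huniq (A (q * q')) (A q * A q') _ _ _ (hY _) e
            rw [map_mul, hA, hA, hA]; rfl
          have h5 : H.c (H.h * (H.h ^ k * (Y q * Y q'))) = 0 := (H.ker _).2 ⟨_, rfl⟩
          have h6 : H.c (Y (q * q')) = H.c (Y q) + H.c (Y q') := by
            rw [this, map_add H.c, map_add H.c, h5, add_zero]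
          rw [h6]
          rfl }
    have hj : Function.Injective j := by
      rw [injective_iff_map_eq_one]
      intro q hq
      have h1 : H.c (Y q) = 0 := hq
      obtain ⟨z, hz⟩ := (H.ker _).1 h1
      have h2 : f (A q) = 1 := by
        rw [hker]
        exact ⟨z, by rw [hY q, hz, ← mul_assoc, ← pow_succ]⟩
      apply Subtype.ext
      rw [← hA q, h2]; rfl
    have := H.fin
    exact CPZ.central_ext g hg hc j hj ih'

theorem CPZ.of_filtration {𝓜 : Type v} [Ring 𝓜] (H : HRing 𝓜) {P : Type u} [Group P]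
    (ρ : P →* 𝓜ˣ) (hP : ∀ g, ∃ y, ((ρ g : 𝓜ˣ) : 𝓜) = 1 + H.h * y) (k : ℕ) (hk : 1 ≤ k)
    {Q : Type u} [Group Q] (f : P →* Q) (hf : Function.Surjective f)
    (hker : ∀ g, f g = 1 ↔ ∃ y, ((ρ g : 𝓜ˣ) : 𝓜) = 1 + H.h ^ k * y) : CPZ Q := by
  obtain ⟨m, rfl⟩ : ∃ m, k = m + 1 := ⟨k - 1, by omega⟩
  exact filt_aux H ρ hP m f hf hker

end SPH
end

section

/-! # Residual assembly (job H4) -/

namespace SPH

universe u v

private theorem asm_comm {𝓜 : Type v} [Ring 𝓜] (H : HRing 𝓜) (k : ℕ) (x : 𝓜) :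
    H.h ^ k * x = x * H.h ^ k := (show Commute H.h x from H.comm x).pow_left k

/-- the filtration of the group -/
private def asmN {𝓜 : Type v} [Ring 𝓜] (H : HRing 𝓜) {A : Type u} [Group A] (ρ : A →* 𝓜ˣ)
    (k : ℕ) : Subgroup A where
  carrier := {g | ∃ y, ((ρ g : 𝓜ˣ) : 𝓜) = 1 + H.h ^ k * y}
  one_mem' := ⟨0, by simp⟩
  mul_mem' := by
    rintro a b ⟨y, hy⟩ ⟨z, hz⟩
    refine ⟨z + y + y * (H.h ^ k * z), ?_⟩
    rw [map_mul, Units.val_mul, hy, hz]
    noncomm_ring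
  inv_mem' := by
    rintro a ⟨y, hy⟩
    refine ⟨-(((ρ a⁻¹ : 𝓜ˣ) : 𝓜) * y), ?_⟩
    have h1 : ((ρ a⁻¹ : 𝓜ˣ) : 𝓜) * ((ρ a : 𝓜ˣ) : 𝓜) = 1 := by
      rw [← Units.val_mul, ← map_mul, inv_mul_cancel, map_one, Units.val_one]
    rw [hy, mul_add, mul_one] at h1
    rw [mul_neg, ← mul_assoc, asm_comm, mul_assoc, ← h1]
    abel

private theorem asm_mem {𝓜 : Type v} [Ring 𝓜] {H : HRing 𝓜} {A : Type u} [Group A]
    {ρ : A →* 𝓜ˣ} {k : ℕ} {g : A} :
    g ∈ asmN H ρ k ↔ ∃ y, ((ρ g : 𝓜ˣ) : 𝓜) = 1 + H.h ^ k * y := Iff.rfl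

private theorem asm_normal {𝓜 : Type v} [Ring 𝓜] (H : HRing 𝓜) {A : Type u} [Group A]
    (ρ : A →* 𝓜ˣ) (k : ℕ) : (asmN H ρ k).Normal := by
  refine ⟨?_⟩
  rintro g ⟨y, hy⟩ u
  refine ⟨((ρ u : 𝓜ˣ) : 𝓜) * y * ((ρ u⁻¹ : 𝓜ˣ) : 𝓜), ?_⟩
  have h1 : ((ρ u : 𝓜ˣ) : 𝓜) * ((ρ u⁻¹ : 𝓜ˣ) : 𝓜) = 1 := by
    rw [← Units.val_mul, ← map_mul, mul_inv_cancel, map_one, Units.val_one]
  rw [map_mul, map_mul, Units.val_mul, Units.val_mul, hy, mul_add, mul_one, add_mul, h1]
  congr 1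
  rw [← mul_assoc, ← asm_comm, mul_assoc, mul_assoc, mul_assoc]

private theorem asm_anti {𝓜 : Type v} [Ring 𝓜] (H : HRing 𝓜) {A : Type u} [Group A]
    (ρ : A →* 𝓜ˣ) {k l : ℕ} (h : k ≤ l) : asmN H ρ l ≤ asmN H ρ k := by
  rintro g ⟨y, hy⟩
  refine ⟨H.h ^ (l - k) * y, ?_⟩
  rw [hy, ← mul_assoc, ← pow_add]
  congr 3
  omega

private theorem asm_sep {𝓜 : Type v} [Ring 𝓜] (H : HRing 𝓜) {A : Type u} [Group A]
    (ρ : A →* 𝓜ˣ) (hinj : Function.Injective ρ) {g : A} (hg : g ≠ 1) :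
    ∃ k, g ∉ asmN H ρ k := by
  by_contra hcon
  push Not at hcon
  apply hg
  apply hinj
  rw [map_one]
  apply Units.ext
  rw [Units.val_one]
  have h1 := H.sep (((ρ g : 𝓜ˣ) : 𝓜) - 1) (fun k => by
    obtain ⟨y, hy⟩ := hcon k
    exact ⟨y, by rw [hy]; abel⟩)
  exact sub_eq_zero.mp h1

private theorem asm_fin {𝓜 : Type v} [Ring 𝓜] (H : HRing 𝓜) {A : Type u} [Group A]
    (ρ : A →* 𝓜ˣ) (hinj : Function.Injective ρ) (S : Finset A) :
    ∃ k, ∀ g ∈ S, ∀ g' ∈ S, g ≠ g' → g⁻¹ * g' ∉ asmN H ρ k := by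
  classical
  choose κ hκ using fun g : {g : A // g ≠ 1} => asm_sep H ρ hinj g.2
  let F : A × A → ℕ := fun p => if h : p.1⁻¹ * p.2 ≠ 1 then κ ⟨p.1⁻¹ * p.2, h⟩ else 0
  refine ⟨(S ×ˢ S).sup F, ?_⟩
  intro g hg g' hg' hne hmem
  have h1 : g⁻¹ * g' ≠ 1 := fun h => hne (inv_mul_eq_one.mp h)
  have h2 : F (g, g') ≤ (S ×ˢ S).sup F :=
    Finset.le_sup (f := F) (Finset.mk_mem_product hg hg')
  have h3 : F (g, g') = κ ⟨g⁻¹ * g', h1⟩ := dif_pos h1
  rw [h3] at h2
  exact hκ ⟨g⁻¹ * g', h1⟩ (asm_anti H ρ h2 hmem)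

private theorem asm_ne_zero {K : Type u} [Field K] {A B : Type u} [Group A] [Group B] (q : A →* B)
    (a : MonoidAlgebra K A) (ha : a ≠ 0)
    (hq : ∀ g ∈ a.coeff.support, ∀ g' ∈ a.coeff.support, g ≠ g' → q g ≠ q g') :
    MonoidAlgebra.mapDomainRingHom K q a ≠ 0 := by
  intro h0
  have h1 : a.coeff.support.Nonempty := by
    rw [Finset.nonempty_iff_ne_empty]
    intro h
    apply ha
    rw [Finsupp.support_eq_empty] at h
    exact MonoidAlgebra.ext h
  obtain ⟨g, hg⟩ := h1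
  have h2 : (MonoidAlgebra.mapDomainRingHom K q a).coeff (q g) = a.coeff g := by
    change (Finsupp.mapDomain q a.coeff) (q g) = a.coeff g
    refine Finsupp.mapDomain_apply' (S := (a.coeff.support : Set A)) a.coeff
      (subset_refl _) ?_ hg
    intro x hx y hy hxy
    by_contra hne
    exact hq x hx y hy hne hxy
  rw [h0] at h2
  exact (Finsupp.mem_support_iff.mp hg) h2.symm

theorem assembly_of {𝓜 : Type v} [Ring 𝓜] (H : HRing 𝓜) {A : Type u} [Group A]
    (P : Subgroup A) [P.Normal] [P.FiniteIndex] (ρ : A →* 𝓜ˣ) (hinj : Function.Injective ρ)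
    (hP : ∀ g ∈ P, ∃ y, ((ρ g : 𝓜ˣ) : 𝓜) = 1 + H.h * y)
    (hdet : ∀ g, (∃ y, ((ρ g : 𝓜ˣ) : 𝓜) = 1 + H.h * y) → g ∈ P) (k0 : ℕ) (hk0 : 1 ≤ k0)
    (htf : ∀ g, g ∉ P → ∀ p : ℕ, p.Prime → g ^ p ∈ P →
      ¬ ∃ y, ((ρ (g ^ p) : 𝓜ˣ) : 𝓜) = 1 + H.h ^ k0 * y)
    (K : Type u) [Field K]
    (hFS : ∀ (Γ : Type u) [Group Γ] (N : Subgroup Γ) [N.Normal] [N.FiniteIndex], CPZ N →
      (∀ (g : Γ) (n : ℕ), n ≠ 0 → g ^ n = 1 → g = 1) → NoZeroDivisors (MonoidAlgebra K Γ)) :
    NoZeroDivisors (MonoidAlgebra K A) := by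
  classical
  refine ⟨?_⟩
  intro a b hab
  by_contra hcon
  push Not at hcon
  obtain ⟨ha, hb⟩ := hcon
  obtain ⟨k1, hk1⟩ := asm_fin H ρ hinj a.coeff.support
  obtain ⟨k2, hk2⟩ := asm_fin H ρ hinj b.coeff.support
  obtain ⟨k, hkk0, hkk1, hkk2⟩ : ∃ k, k0 ≤ k ∧ k1 ≤ k ∧ k2 ≤ k :=
    ⟨max k0 (max k1 k2), le_max_left _ _, (le_max_left _ _).trans (le_max_right _ _),
      (le_max_right _ _).trans (le_max_right _ _)⟩
  have _ : (asmN H ρ k).Normal := asm_normal H ρ k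
  let q : A →* A ⧸ asmN H ρ k := QuotientGroup.mk' (asmN H ρ k)
  have hqs : Function.Surjective q := QuotientGroup.mk'_surjective _
  have hq1 : ∀ g, q g = 1 ↔ g ∈ asmN H ρ k := fun g => QuotientGroup.eq_one_iff g
  have hqne : ∀ g g', g⁻¹ * g' ∉ asmN H ρ k → q g ≠ q g' := by
    intro g g' h1 h2
    exact h1 (QuotientGroup.eq.mp h2)
  have ha' := asm_ne_zero (K := K) q a ha (fun g hg g' hg' hne =>
    hqne g g' fun h => hk1 g hg g' hg' hne (asm_anti H ρ hkk1 h))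
  have hb' := asm_ne_zero (K := K) q b hb (fun g hg g' hg' hne =>
    hqne g g' fun h => hk2 g hg g' hg' hne (asm_anti H ρ hkk2 h))
  have hprod : MonoidAlgebra.mapDomainRingHom K q a * MonoidAlgebra.mapDomainRingHom K q b = 0 := by
    rw [← map_mul, hab, map_zero]
  have _ : (P.map q).Normal := Subgroup.Normal.map inferInstance q hqs
  have _ : (P.map q).FiniteIndex := by
    refine ⟨fun h0 => ?_⟩
    have h1 := Subgroup.index_map_dvd P hqs
    rw [h0] at h1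
    exact Subgroup.FiniteIndex.index_ne_zero (H := P) (Nat.eq_zero_of_zero_dvd h1)
  have hcpz : CPZ (P.map q) := by
    refine CPZ.of_filtration H (ρ.comp P.subtype) (fun g => hP g g.2) k (hk0.trans hkk0)
      (q.subgroupMap P) (q.subgroupMap_surjective P) ?_
    intro g
    have h1 : q.subgroupMap P g = 1 ↔ q (g : A) = 1 := by
      rw [← Subtype.coe_inj]
      rfl
    rw [h1, hq1]
    exact asm_mem
  have hnzd : NoZeroDivisors (MonoidAlgebra K (A ⧸ asmN H ρ k)) := by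
    refine hFS _ (P.map q) hcpz ?_
    intro g n hn hgn
    obtain ⟨g0, rfl⟩ := hqs g
    rw [← map_pow, hq1] at hgn
    rw [hq1]
    exact H.torsion P ρ hP hdet k0 hk0 htf k hkk0 g0 n hn hgn
  rcases hnzd.eq_zero_or_eq_zero_of_mul_eq_zero hprod with h | h
  · exact ha' h
  · exact hb' h

end SPH
end
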