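import Pool.Agent.Lib.MP_7b9603_al.Roots

/-! # The Burau type representation (job B1) -/

namespace SPH

open scoped Classical
open Polynomial

universe u v

set_option linter.unusedSectionVars false

variable {S : Type u} [Fintype S] [DecidableEq S] (G : SimpleGraph S)
variable {I : Type} [Fintype I] {R : Type v} [CommRing R]

/-- The strand at position `x_i - v` (or `i` if there is none). -/
noncomputable def buN (κ : Conf G I) (i : I) (v : S → ℤ) : I :=
  if h : ∃ j, κ.1 i j = v then h.choose else i

theorem conf_self (κ : Conf G I) (i : I) : κ.1 i i = 0 := by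
  have := κ.2.1 i i i
  simpa using this

theorem conf_symm (κ : Conf G I) (i j : I) : κ.1 j i = - κ.1 i j := by
  have := κ.2.1 j i j
  rw [conf_self] at this
  exact eq_neg_of_add_eq_zero_left this

theorem conf_norm (κ : Conf G I) (i j : I) :
    bil G (κ.1 i j) (κ.1 i j) = 0 ∨ bil G (κ.1 i j) (κ.1 i j) = 2 := by
  by_cases h : i = j
  · subst h; rw [conf_self, bil_zero_left]; exact Or.inl rfl
  · exact Or.inr (κ.2.2 i j h)

theorem conf_inj (κ : Conf G I) {i j k : I} (h : κ.1 i j = κ.1 i k) : j = k := by
  by_contra hne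
  have h1 : κ.1 j k = 0 := by
    have := κ.2.1 j i k
    rw [conf_symm G κ i j, h] at this
    simpa using this.symm
  have h2 : bil G (κ.1 j k) (κ.1 j k) = 2 := κ.2.2 j k hne
  rw [h1, bil_zero_left] at h2
  norm_num at h2

theorem buN_eq {κ : Conf G I} {i j : I} {v : S → ℤ} (h : κ.1 i j = v) : buN G κ i v = j := by
  have hex : ∃ j, κ.1 i j = v := ⟨j, h⟩
  unfold buN
  rw [dif_pos hex]
  exact conf_inj G κ (hex.choose_spec.trans h.symm)

theorem buN_none {κ : Conf G I} {i : I} {v : S → ℤ} (h : ∀ j, κ.1 i j ≠ v) :
    buN G κ i v = i := by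
  unfold buN
  rw [dif_neg (by push Not; exact h)]

/-- Bad norm: no strand. -/
theorem buN_bad {κ : Conf G I} {i j : I} {v w : S → ℤ} (h : κ.1 i j = w)
    (h0 : bil G (w + v) (w + v) ≠ 0) (h2 : bil G (w + v) (w + v) ≠ 2) :
    buN G κ j v = j := by
  refine buN_none G fun k hk => ?_
  have := κ.2.1 i j k
  rw [h, hk] at this
  rcases conf_norm G κ i k with h3 | h3 <;> rw [← this] at h3
  · exact h0 h3
  · exact h2 h3

theorem buN_crf (s : S) (κ : Conf G I) (i : I) (v : S → ℤ) :
    buN G (crf G s κ) i v = buN G κ i (rf G s v) := by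
  by_cases h : ∃ j, κ.1 i j = rf G s v
  · obtain ⟨j, hj⟩ := h
    rw [buN_eq G hj]
    refine buN_eq G ?_
    show rf G s (κ.1 i j) = v
    rw [hj, rf_rf]
  · push Not at h
    rw [buN_none G h]
    refine buN_none G fun j hj => h j ?_
    change rf G s (κ.1 i j) = v at hj
    rw [← hj, rf_rf]

theorem bu_apply (t : R) (s : S) (F : Conf G I → I → R) (κ : Conf G I) (i : I) :
    (bu G t s F) κ i = t * F (crf G s κ) i + (1 - t) * F (crf G s κ) (buN G κ i (sr s)) := by
  have e : (bu G t s F) κ i = F (crf G s κ) i +
    ∑ j, if κ.1 i j = sr s then (1 - t) * (F (crf G s κ) j - F (crf G s κ) i) else 0 := rfl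
  rw [e]
  by_cases h : ∃ j, κ.1 i j = sr s
  · obtain ⟨j, hj⟩ := h
    rw [buN_eq G hj, Finset.sum_eq_single j]
    · rw [if_pos hj]; ring
    · intro k _ hk
      rw [if_neg]
      intro h2
      exact hk (conf_inj G κ (h2.trans hj.symm))
    · intro h; exact absurd (Finset.mem_univ _) h
  · push Not at h
    rw [buN_none G h, Finset.sum_eq_zero]
    · ring
    · intro k _
      rw [if_neg (h k)]

theorem crf_comm {s s' : S} (h : ¬ G.Adj s s') (κ : Conf G I) :
    crf G s (crf G s' κ) = crf G s' (crf G s κ) :=
  Subtype.ext (funext fun i => funext fun j => rf_comm G h (κ.1 i j))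

theorem crf_braid {s s' : S} (h : G.Adj s s') (κ : Conf G I) :
    crf G s (crf G s' (crf G s κ)) = crf G s' (crf G s (crf G s' κ)) :=
  Subtype.ext (funext fun i => funext fun j => rf_braid G h (κ.1 i j))

theorem rf_sr_adj {s s' : S} (h : G.Adj s s') : rf G s (sr s') = sr s + sr s' := by
  rw [rf, pr_sr, cart_adj G h]
  ext x
  simp
  ring

theorem rf_add_adj {s s' : S} (h : G.Adj s s') : rf G s (sr s + sr s') = sr s' := by
  rw [rf_add, rf_sr, rf_sr_adj G h]
  ext x
  simp

/-- The combinatorial braid relation. -/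
theorem buN_braid_aux {s s' : S} (h : G.Adj s s') (κ : Conf G I) (i : I) :
    let a := fun i => buN G κ i (sr s)
    let b := fun i => buN G κ i (sr s')
    let c := fun i => buN G κ i (sr s + sr s')
    ∀ Φ : I → R,
      Φ (c (a i)) + Φ (b (a i)) + Φ (b (c i)) = Φ (c (b i)) + Φ (a (b i)) + Φ (a (c i)) ∧
      b (c (a i)) = a (c (b i)) := by
  intro a b c Φ
  have haa : bil G (sr s) (sr s) = 2 := isRoot_sr G s
  have hbb : bil G (sr s') (sr s') = 2 := isRoot_sr G s'
  have hab : bil G (sr s) (sr s') = -1 := by rw [bil_sr_left, pr_sr, cart_adj G h]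
  have hba : bil G (sr s') (sr s) = -1 := by rw [bil_comm, hab]
  -- bad steps
  have bad : ∀ {i j : I} {v w : S → ℤ}, κ.1 i j = w → bil G (w + v) (w + v) = 6 ∨
      bil G (w + v) (w + v) = 8 → buN G κ j v = j := by
    intro i j v w h1 h2
    refine buN_bad G h1 ?_ ?_ <;> rcases h2 with h2 | h2 <;> rw [h2] <;> norm_num
  have hexp : ∀ v w : S → ℤ, bil G (v + w) (v + w) =
      bil G v v + bil G v w + bil G w v + bil G w w := by
    intro v w; rw [bil_add_left, bil_add_right, bil_add_right]; ring
  by_cases hA : ∃ j, κ.1 i j = sr s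
  · obtain ⟨j, hj⟩ := hA
    have aj : a j = j := bad hj (by right; rw [hexp, haa]; norm_num)
    have cj : c j = j := bad hj (by
      left
      simp only [bil_add_left, bil_add_right, haa, hbb, hab, hba]; norm_num)
    have ai : a i = j := buN_eq G hj
    have bi : b i = i := by
      refine buN_none G fun k hk => ?_
      have h1 := κ.2.1 j i k
      rw [conf_symm G κ i j, hj, hk] at h1
      rcases conf_norm G κ j k with h2 | h2 <;> rw [← h1] at h2 <;>
        simp only [bil_add_left, bil_add_right, bil_neg_left, bil_neg_right, haa, hbb, hab, hba]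
          at h2 <;> norm_num at h2
    by_cases hC : ∃ k, κ.1 i k = sr s + sr s'
    · obtain ⟨k, hk⟩ := hC
      have ci : c i = k := buN_eq G hk
      have bj : b j = k := by
        refine buN_eq G ?_
        have h1 := κ.2.1 j i k
        rw [conf_symm G κ i j, hj, hk] at h1
        rw [← h1]; abel
      have ak : a k = k := bad hk (by
        left
        simp only [bil_add_left, bil_add_right, haa, hbb, hab, hba]; norm_num)
      have bk : b k = k := bad hk (by
        left
        simp only [bil_add_left, bil_add_right, haa, hbb, hab, hba]; norm_num)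
      refine ⟨?_, ?_⟩
      · rw [ai, ci, bi, ci, ai, cj, bj, bk, ak]; ring
      · rw [ai, bi, ci, cj, bj, ak]
    · push Not at hC
      have ci : c i = i := buN_none G hC
      have bj : b j = j := by
        refine buN_none G fun k hk => hC k ?_
        rw [← κ.2.1 i j k, hj, hk]
      refine ⟨?_, ?_⟩
      · rw [ai, ci, bi, ci, ai, cj, bj]; ring
      · rw [ai, bi, ci, cj, bj, ai]
  · push Not at hA
    have ai : a i = i := buN_none G hA
    by_cases hB : ∃ j, κ.1 i j = sr s'
    · obtain ⟨j, hj⟩ := hB
      have bj : b j = j := bad hj (by right; rw [hexp, hbb]; norm_num)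
      have cj : c j = j := bad hj (by
        left
        simp only [bil_add_left, bil_add_right, haa, hbb, hab, hba]; norm_num)
      have bi : b i = j := buN_eq G hj
      by_cases hC : ∃ k, κ.1 i k = sr s + sr s'
      · obtain ⟨k, hk⟩ := hC
        have ci : c i = k := buN_eq G hk
        have aj : a j = k := by
          refine buN_eq G ?_
          have h1 := κ.2.1 j i k
          rw [conf_symm G κ i j, hj, hk] at h1
          rw [← h1]; abel
        have ak : a k = k := bad hk (by
          left
          simp only [bil_add_left, bil_add_right, haa, hbb, hab, hba]; norm_num)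
        have bk : b k = k := bad hk (by
          left
          simp only [bil_add_left, bil_add_right, haa, hbb, hab, hba]; norm_num)
        refine ⟨?_, ?_⟩
        · rw [ai, ci, bi, bk, cj, aj, ak]; ring
        · rw [ai, bi, ci, cj, bk, aj]
      · push Not at hC
        have ci : c i = i := buN_none G hC
        have aj : a j = j := by
          refine buN_none G fun k hk => hC k ?_
          rw [← κ.2.1 i j k, hj, hk]; abel
        refine ⟨?_, ?_⟩
        · rw [ai, ci, bi, cj, aj, ai]; ring
        · rw [ai, bi, ci, cj, bi, aj]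
    · push Not at hB
      have bi : b i = i := buN_none G hB
      by_cases hC : ∃ k, κ.1 i k = sr s + sr s'
      · obtain ⟨k, hk⟩ := hC
        have ci : c i = k := buN_eq G hk
        have ak : a k = k := bad hk (by
          left
          simp only [bil_add_left, bil_add_right, haa, hbb, hab, hba]; norm_num)
        have bk : b k = k := bad hk (by
          left
          simp only [bil_add_left, bil_add_right, haa, hbb, hab, hba]; norm_num)
        refine ⟨?_, ?_⟩
        · rw [ai, ci, bi, ci, ai, bk, ak]
        · rw [ai, bi, ci, bk, ak]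
      · push Not at hC
        have ci : c i = i := buN_none G hC
        refine ⟨?_, ?_⟩
        · rw [ai, ci, bi, ci, ai]
        · rw [ai, bi, ci, ai, bi]

theorem buN_comm_aux {s s' : S} (hne : s ≠ s') (h : ¬ G.Adj s s') (κ : Conf G I) (i : I) :
    buN G κ (buN G κ i (sr s)) (sr s') = buN G κ (buN G κ i (sr s')) (sr s) := by
  have haa : bil G (sr s) (sr s) = 2 := isRoot_sr G s
  have hbb : bil G (sr s') (sr s') = 2 := isRoot_sr G s'
  have hab : bil G (sr s) (sr s') = 0 := by rw [bil_sr_left, pr_sr, cart_not_adj G hne h]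
  have hba : bil G (sr s') (sr s) = 0 := by rw [bil_comm, hab]
  have bad : ∀ {i j : I} {v w : S → ℤ}, κ.1 i j = w → bil G (w + v) (w + v) = 4 →
      buN G κ j v = j := by
    intro i j v w h1 h2
    refine buN_bad G h1 ?_ ?_ <;> rw [h2] <;> norm_num
  by_cases hA : ∃ j, κ.1 i j = sr s
  · obtain ⟨j, hj⟩ := hA
    have bi : buN G κ i (sr s') = i := by
      refine buN_none G fun k hk => ?_
      have h1 := κ.2.1 j i k
      rw [conf_symm G κ i j, hj, hk] at h1
      rcases conf_norm G κ j k with h2 | h2 <;> rw [← h1] at h2 <;>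
        simp only [bil_add_left, bil_add_right, bil_neg_left, bil_neg_right, haa, hbb, hab, hba]
          at h2 <;> norm_num at h2
    rw [bi, buN_eq G hj]
    exact bad hj (by simp only [bil_add_left, bil_add_right, haa, hbb, hab, hba]; norm_num)
  · push Not at hA
    rw [buN_none G hA]
    by_cases hB : ∃ j, κ.1 i j = sr s'
    · obtain ⟨j, hj⟩ := hB
      rw [buN_eq G hj]
      exact (bad hj (by simp only [bil_add_left, bil_add_right, haa, hbb, hab, hba]; norm_num)).symm
    · push Not at hB
      rw [buN_none G hB, buN_none G hA]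

theorem bu_comm {s s' : S} (h : ¬ G.Adj s s') (t : R) :
    (bu G t s : Module.End R (Conf G I → I → R)) * bu G t s' = bu G t s' * bu G t s := by
  rcases eq_or_ne s s' with rfl | hne
  · rfl
  have h' : ¬ G.Adj s' s := fun h1 => h h1.symm
  have e1 : rf G s (sr s') = sr s' := by rw [rf, pr_sr, cart_not_adj G hne h]; simp
  have e2 : rf G s' (sr s) = sr s := by rw [rf, pr_sr, cart_not_adj G hne.symm h']; simp
  refine LinearMap.ext fun F => ?_
  funext κ i
  rw [Module.End.mul_apply, Module.End.mul_apply]
  simp only [bu_apply, buN_crf, e1, e2, crf_comm G h']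
  rw [buN_comm_aux G hne h κ i]
  ring

theorem bu_braid3 (hG : PosDef G) {s s' : S} (h : G.Adj s s') (t : R) :
    (bu G t s : Module.End R (Conf G I → I → R)) * bu G t s' * bu G t s =
      bu G t s' * bu G t s * bu G t s' := by
  have e1 : rf G s (sr s') = sr s + sr s' := rf_sr_adj G h
  have e2 : rf G s' (sr s) = sr s + sr s' := by rw [rf_sr_adj G h.symm, add_comm]
  have e3 : rf G s (sr s + sr s') = sr s' := rf_add_adj G h
  have e4 : rf G s' (sr s + sr s') = sr s := by rw [add_comm, rf_add_adj G h.symm]
  refine LinearMap.ext fun F => ?_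
  funext κ i
  simp only [Module.End.mul_apply]
  simp only [bu_apply, buN_crf, e1, e2, e3, e4, crf_braid G h.symm]
  obtain ⟨h1, h2⟩ := buN_braid_aux (R := R) G h κ i
    (fun j => F (crf G s (crf G s' (crf G s κ))) j)
  simp only at h1 h2
  rw [h2]
  linear_combination (t * (1 - t) ^ 2) * h1

theorem bu_braid (hG : PosDef G) (t : R) :
    IsBraid G (fun s => (bu G t s : Module.End R (Conf G I → I → R))) :=
  ⟨fun _ _ h => bu_comm G h t, fun _ _ h => bu_braid3 G hG h t⟩

/-- The inverse operators. -/
noncomputable def buInv (t : R) (s : S) : (Conf G I → I → R) →ₗ[R] (Conf G I → I → R) where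
  toFun F κ i := F (crf G s κ) i +
    ∑ j, if κ.1 i j = - sr s then (1 - t) * (F (crf G s κ) j - F (crf G s κ) i) else 0
  map_add' F F' := by
    funext κ i
    simp only [Pi.add_apply]
    rw [add_add_add_comm, ← Finset.sum_add_distrib]
    congr 1
    refine Finset.sum_congr rfl fun j _ => ?_
    split_ifs <;> ring
  map_smul' c F := by
    funext κ i
    simp only [Pi.smul_apply, smul_eq_mul, RingHom.id_apply]
    rw [mul_add, Finset.mul_sum]
    congr 1
    refine Finset.sum_congr rfl fun j _ => ?_
    split_ifs <;> ring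

theorem buInv_apply (t : R) (s : S) (F : Conf G I → I → R) (κ : Conf G I) (i : I) :
    (buInv G t s F) κ i = t * F (crf G s κ) i +
      (1 - t) * F (crf G s κ) (buN G κ i (- sr s)) := by
  have e : (buInv G t s F) κ i = F (crf G s κ) i +
    ∑ j, if κ.1 i j = - sr s then (1 - t) * (F (crf G s κ) j - F (crf G s κ) i) else 0 := rfl
  rw [e]
  by_cases h : ∃ j, κ.1 i j = - sr s
  · obtain ⟨j, hj⟩ := h
    rw [buN_eq G hj, Finset.sum_eq_single j]
    · rw [if_pos hj]; ring
    · intro k _ hk
      rw [if_neg]
      intro h2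
      exact hk (conf_inj G κ (h2.trans hj.symm))
    · intro h; exact absurd (Finset.mem_univ _) h
  · push Not at h
    rw [buN_none G h, Finset.sum_eq_zero]
    · ring
    · intro k _
      rw [if_neg (h k)]

theorem buN_twice (κ : Conf G I) (i : I) {v : S → ℤ} (hv : IsRoot G v) :
    buN G κ (buN G κ i v) v = buN G κ i v := by
  by_cases hA : ∃ j, κ.1 i j = v
  · obtain ⟨j, hj⟩ := hA
    rw [buN_eq G hj]
    have h8 : bil G (v + v) (v + v) = 8 := by
      rw [IsRoot] at hv
      simp only [bil_add_left, bil_add_right, hv]; norm_num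
    exact buN_bad G hj (by rw [h8]; norm_num) (by rw [h8]; norm_num)
  · push Not at hA
    rw [buN_none G hA, buN_none G hA]

theorem bu_mul_buInv (t t' : R) (ht : t * t' = 1) (s : S) :
    (bu G t s : Module.End R (Conf G I → I → R)) * buInv G t' s = 1 := by
  refine LinearMap.ext fun F => ?_
  funext κ i
  rw [Module.End.mul_apply, Module.End.one_apply]
  simp only [bu_apply, buInv_apply, buN_crf, rf_neg, rf_sr, neg_neg, crf_crf]
  rw [buN_twice G κ i (isRoot_sr G s)]
  linear_combination (F κ i - F κ (buN G κ i (sr s))) * ht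

theorem buInv_mul_bu (t t' : R) (ht : t * t' = 1) (s : S) :
    (buInv G t' s : Module.End R (Conf G I → I → R)) * bu G t s = 1 := by
  refine LinearMap.ext fun F => ?_
  funext κ i
  rw [Module.End.mul_apply, Module.End.one_apply]
  simp only [bu_apply, buInv_apply, buN_crf, rf_neg, rf_sr, neg_neg, crf_crf]
  rw [buN_twice G κ i (isRoot_neg G (isRoot_sr G s))]
  linear_combination (F κ i - F κ (buN G κ i (- sr s))) * ht

/-- The Burau type operators as units. -/
noncomputable def buU (t : Rˣ) (s : S) : (Module.End R (Conf G I → I → R))ˣ where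
  val := bu G (t : R) s
  inv := buInv G ((t⁻¹ : Rˣ) : R) s
  val_inv := bu_mul_buInv G _ _ (by simp) s
  inv_val := buInv_mul_bu G _ _ (by simp) s

theorem buU_braid (hG : PosDef G) (t : Rˣ) :
    IsBraid G (fun s => (buU G t s : (Module.End R (Conf G I → I → R))ˣ)) :=
  ⟨fun s s' h => Units.ext ((bu_braid G hG (t : R)).1 s s' h),
     fun s s' h => Units.ext ((bu_braid G hG (t : R)).2 s s' h)⟩

/-- The Burau type representation. -/
noncomputable def buRep (hG : PosDef G) (t : Rˣ) (I : Type) [Fintype I] :
    AGrp G →* (Module.End R (Conf G I → I → R))ˣ :=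
  AGrp.lift G (buU G t) (buU_braid G hG t)

theorem buRep_gen (hG : PosDef G) (t : Rˣ) (s : S) :
    ((buRep G hG t I (gen G s)).val : Module.End R (Conf G I → I → R)) = bu G (t : R) s := by
  rw [buRep, AGrp.lift_gen]; rfl

/-- Relabelling of configurations. -/
def relab (σ : Equiv.Perm I) (κ : Conf G I) : Conf G I :=
  ⟨fun i j => κ.1 (σ i) (σ j), fun i j k => κ.2.1 (σ i) (σ j) (σ k),
    fun i j h => κ.2.2 (σ i) (σ j) fun h' => h (σ.injective h')⟩

/-- Functions compatible with relabelling. -/
def RelInv (F : Conf G I → I → R) : Prop :=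
  ∀ (σ : Equiv.Perm I) κ i, F (relab G σ κ) i = F κ (σ i)

/-- The invariant functional. -/
noncomputable def ell (t : R) (κ : Conf G I) (F : Conf G I → I → R) : R :=
  ∑ i, t ^ (Finset.univ.filter fun j => j ≠ i ∧ IsPos G (κ.1 j i)).card * F κ i

end SPH
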