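import Pool.Agent.Lib.MP_7b9603_al.Bu

/-! # Structure of the Burau type representation (job B2) -/

namespace SPH

open scoped Classical
open Polynomial

universe u v

set_option linter.unusedSectionVars false

variable {S : Type u} [Fintype S] [DecidableEq S] (G : SimpleGraph S)
variable {I : Type} [Fintype I] {R : Type v} [CommRing R]

namespace BuStruct

/-- Induction principle for the Artin group. -/
theorem agrp_ind {p : AGrp G → Prop} (h1 : ∀ s, p (gen G s)) (h2 : ∀ s, p (gen G s)⁻¹)
    (h3 : p 1) (h4 : ∀ g h, p g → p h → p (g * h)) (g : AGrp G) : p g := by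
  have key : ∀ g : AGrp G, g ∈ (⊤ : Subgroup (AGrp G)) → p g := by
    rw [← PresentedGroup.closure_range_of (artinRel G)]
    intro g hg
    induction hg using Subgroup.closure_induction'' with
    | mem x hx =>
      obtain ⟨s, rfl⟩ := hx
      exact h1 s
    | inv_mem x hx =>
      obtain ⟨s, rfl⟩ := hx
      exact h2 s
    | one => exact h3
    | mul x y _ _ hx hy => exact h4 x y hx hy
  exact key g trivial

theorem cw_one (κ : Conf G I) : cw G 1 κ = κ := by
  apply Subtype.ext
  funext i j
  simp [cw]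

theorem cw_mul (g h : AGrp G) (κ : Conf G I) : cw G (g * h) κ = cw G g (cw G h κ) := by
  apply Subtype.ext
  funext i j
  simp [cw]

theorem cw_gen (s : S) (κ : Conf G I) : cw G (gen G s) κ = crf G s κ := by
  apply Subtype.ext
  funext i j
  show toW G (gen G s) (κ.1 i j) = rf G s (κ.1 i j)
  rw [toW_gen]; rfl

theorem cw_gen_inv (s : S) (κ : Conf G I) : cw G (gen G s)⁻¹ κ = crf G s κ := by
  have h : cw G (gen G s)⁻¹ (cw G (gen G s) (crf G s κ)) = crf G s κ := by
    rw [← cw_mul, inv_mul_cancel, cw_one]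
  rw [cw_gen, crf_crf] at h
  exact h

theorem buRep_gen_inv (hG : PosDef G) (t : Rˣ) (s : S) :
    ((buRep G hG t I (gen G s)⁻¹).val : Module.End R (Conf G I → I → R)) =
      buInv G ((t⁻¹ : Rˣ) : R) s := by
  rw [map_inv, buRep, AGrp.lift_gen]; rfl

theorem buRep_one (hG : PosDef G) (t : Rˣ) (F : Conf G I → I → R) :
    (buRep G hG t I 1).val F = F := by
  rw [map_one]; rfl

theorem buRep_mul (hG : PosDef G) (t : Rˣ) (g h : AGrp G) (F : Conf G I → I → R) :
    (buRep G hG t I (g * h)).val F =
      (buRep G hG t I g).val ((buRep G hG t I h).val F) := by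
  rw [map_mul]; rfl

/-- The nilpotent part. -/
noncomputable def nop (v : S → ℤ) (s : S) :
    (Conf G I → I → R) →ₗ[R] (Conf G I → I → R) where
  toFun F κ i := ∑ j, if κ.1 i j = v then (F (crf G s κ) j - F (crf G s κ) i) else 0
  map_add' F F' := by
    funext κ i
    simp only [Pi.add_apply]
    rw [← Finset.sum_add_distrib]
    refine Finset.sum_congr rfl fun j _ => ?_
    split_ifs <;> ring
  map_smul' c F := by
    funext κ i
    simp only [Pi.smul_apply, smul_eq_mul, RingHom.id_apply]
    rw [Finset.mul_sum]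
    refine Finset.sum_congr rfl fun j _ => ?_
    split_ifs <;> ring

theorem nop_apply (v : S → ℤ) (s : S) (F : Conf G I → I → R) (κ : Conf G I) (i : I) :
    nop G v s F κ i =
      ∑ j, if κ.1 i j = v then (F (crf G s κ) j - F (crf G s κ) i) else 0 := rfl

theorem bs_bu_apply (t : R) (s : S) (F : Conf G I → I → R) (κ : Conf G I) (i : I) :
    bu G t s F κ i = F (crf G s κ) i + (1 - t) * nop G (sr s) s F κ i := by
  rw [nop_apply, Finset.mul_sum]
  show F (crf G s κ) i + ∑ j, (if κ.1 i j = sr s then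
    (1 - t) * (F (crf G s κ) j - F (crf G s κ) i) else 0) = _
  congr 1
  refine Finset.sum_congr rfl fun j _ => ?_
  split_ifs <;> ring

theorem bs_buInv_apply (t : R) (s : S) (F : Conf G I → I → R) (κ : Conf G I) (i : I) :
    buInv G t s F κ i = F (crf G s κ) i + (1 - t) * nop G (-sr s) s F κ i := by
  rw [nop_apply, Finset.mul_sum]
  show F (crf G s κ) i + ∑ j, (if κ.1 i j = -sr s then
    (1 - t) * (F (crf G s κ) j - F (crf G s κ) i) else 0) = _
  congr 1
  refine Finset.sum_congr rfl fun j _ => ?_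
  split_ifs <;> ring

theorem crf_relab (s : S) (σ : Equiv.Perm I) (κ : Conf G I) :
    crf G s (relab G σ κ) = relab G σ (crf G s κ) := rfl

theorem nop_relInv (v : S → ℤ) (s : S) (F : Conf G I → I → R) (hF : RelInv G F) :
    RelInv G (nop G v s F) := by
  intro σ κ i
  rw [nop_apply, nop_apply, crf_relab]
  refine Eq.trans ?_ (Equiv.sum_comp σ (fun j => if κ.1 (σ i) j = v then
    (F (crf G s κ) j - F (crf G s κ) (σ i)) else 0))
  refine Finset.sum_congr rfl fun j _ => ?_
  rw [hF σ, hF σ]
  rfl

end BuStruct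

open BuStruct

theorem buRep_relInv (hG : PosDef G) (t : Rˣ) (g : AGrp G) (F : Conf G I → I → R)
    (hF : RelInv G F) : RelInv G ((buRep G hG t I g).val F) := by
  revert F
  refine agrp_ind G (p := fun g => ∀ F : Conf G I → I → R, RelInv G F →
    RelInv G ((buRep G hG t I g).val F)) ?_ ?_ ?_ ?_ g
  · intro s F hF σ κ i
    rw [buRep_gen, bs_bu_apply, bs_bu_apply, nop_relInv G _ _ F hF, crf_relab, hF]
  · intro s F hF σ κ i
    rw [buRep_gen_inv, bs_buInv_apply, bs_buInv_apply, nop_relInv G _ _ F hF, crf_relab, hF]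
  · intro F hF
    rw [buRep_one]; exact hF
  · intro g h hg hh F hF
    rw [buRep_mul]
    exact hg _ (hh _ hF)

namespace BuStruct

variable {G}

theorem conf_self (κ : Conf G I) (i : I) : κ.1 i i = 0 := by
  have := κ.2.1 i i i
  simpa using this

theorem conf_neg (κ : Conf G I) (i j : I) : κ.1 i j = - κ.1 j i := by
  have := κ.2.1 i j i
  rw [conf_self] at this
  exact eq_neg_of_add_eq_zero_left this

theorem conf_eq (κ : Conf G I) {i j : I} (h : κ.1 i j = 0) : i = j := by
  by_contra hne
  exact (κ.2.2 i j hne).ne_zero h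

theorem conf_left (κ : Conf G I) {i j k : I} (h : κ.1 i k = κ.1 j k) : i = j := by
  apply conf_eq κ
  rw [← κ.2.1 i k j, h, conf_neg κ k j]
  simp

theorem conf_right (κ : Conf G I) {i j k : I} (h : κ.1 k i = κ.1 k j) : i = j := by
  apply conf_eq κ
  rw [← κ.2.1 i k j, ← h, conf_neg κ i k]
  simp

theorem sr_ne_zero (s : S) : (sr s : S → ℤ) ≠ 0 := by
  intro h
  have := congrFun h s
  simp [sr] at this

theorem not_two (κ : Conf G I) {i j k : I} {s : S} (h1 : κ.1 i j = sr s)
    (h2 : κ.1 j k = sr s) : False := by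
  have h3 : κ.1 i k = (2 : ℤ) • sr s := by
    rw [← κ.2.1 i j k, h1, h2, two_smul]
  rcases eq_or_ne i k with rfl | hne
  · rw [conf_self] at h3
    have := congrFun h3 s
    simp [sr] at this
  · have h4 := κ.2.2 i k hne
    rw [h3, IsRoot, bil_smul_left, bil_smul_right, (isRoot_sr G s : bil G (sr s) (sr s) = 2)] at h4
    norm_num at h4

theorem pos_rf_iff (hG : PosDef G) {v : S → ℤ} {s : S} (h1 : v ≠ sr s) (h2 : v ≠ - sr s) :
    IsPos G (rf G s v) ↔ IsPos G v := by
  constructor
  · intro h
    have h3 : rf G s v ≠ sr s := by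
      intro h4
      apply h2
      have := congrArg (rf G s) h4
      rw [rf_rf, rf_sr] at this
      exact this
    have := IsPos.rf hG h h3
    rwa [rf_rf] at this
  · intro h
    exact IsPos.rf hG h h1

/-- The set counted by the exponent. -/
noncomputable def ps (κ : Conf G I) (i : I) : Finset I :=
  Finset.univ.filter fun j => j ≠ i ∧ IsPos G (κ.1 j i)

theorem mem_ps (κ : Conf G I) (i j : I) : j ∈ ps κ i ↔ j ≠ i ∧ IsPos G (κ.1 j i) := by
  simp [ps]

theorem ps_crf_none (hG : PosDef G) (κ : Conf G I) (s : S) (i : I)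
    (h1 : ∀ j, κ.1 i j ≠ sr s) (h2 : ∀ j, κ.1 j i ≠ sr s) :
    ps (crf G s κ) i = ps κ i := by
  ext j
  rw [mem_ps, mem_ps]
  have h3 : κ.1 j i ≠ - sr s := by
    intro h
    apply h1 j
    rw [conf_neg, h, neg_neg]
  have := pos_rf_iff hG (h2 j) h3
  show j ≠ i ∧ IsPos G (rf G s (κ.1 j i)) ↔ _
  rw [this]

theorem ps_crf_a (hG : PosDef G) (κ : Conf G I) (s : S) (i j : I) (h : κ.1 i j = sr s) :
    (ps (crf G s κ) i).card = (ps κ i).card + 1 := by
  have hji : κ.1 j i = - sr s := by rw [conf_neg, h]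
  have hne : j ≠ i := by
    rintro rfl
    rw [conf_self] at h
    exact sr_ne_zero s h.symm
  have hnot : j ∉ ps κ i := by
    rw [mem_ps, hji]
    rintro ⟨_, h2⟩
    exact (isPos_sr G s).not_neg h2
  have : ps (crf G s κ) i = insert j (ps κ i) := by
    ext k
    rw [Finset.mem_insert, mem_ps, mem_ps]
    show k ≠ i ∧ IsPos G (rf G s (κ.1 k i)) ↔ _
    rcases eq_or_ne k j with rfl | hkj
    · simp only [true_or, iff_true]
      refine ⟨hne, ?_⟩
      rw [hji, rf_neg, rf_sr, neg_neg]
      exact isPos_sr G s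
    · have h3 : κ.1 k i ≠ - sr s := by
        intro h4
        apply hkj
        apply conf_left κ (k := i)
        rw [h4, hji]
      have h4 : κ.1 k i ≠ sr s := by
        intro h4
        exact not_two κ h4 h
      rw [pos_rf_iff hG h4 h3]
      simp [hkj]
  rw [this, Finset.card_insert_of_notMem hnot]

theorem ps_crf_b (hG : PosDef G) (κ : Conf G I) (s : S) (i j : I) (h : κ.1 j i = sr s) :
    (ps κ i).card = (ps (crf G s κ) i).card + 1 := by
  have h1 : (crf G s κ).1 i j = sr s := by
    show rf G s (κ.1 i j) = sr s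
    rw [conf_neg, h, rf_neg, rf_sr, neg_neg]
  have := ps_crf_a hG (crf G s κ) s i j h1
  rwa [crf_crf] at this

theorem ps_pair (hG : PosDef G) (κ : Conf G I) (s : S) (i j : I) (h : κ.1 j i = sr s) :
    (ps κ i).card = (ps κ j).card + 1 := by
  have hne : j ≠ i := by
    rintro rfl
    rw [conf_self] at h
    exact sr_ne_zero s h.symm
  have hnot : j ∉ ps κ j := by
    rw [mem_ps]
    simp
  have : ps κ i = insert j (ps κ j) := by
    ext k
    rw [Finset.mem_insert, mem_ps, mem_ps]
    rcases eq_or_ne k j with rfl | hkj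
    · simp only [true_or, iff_true]
      refine ⟨hne, ?_⟩
      rw [h]
      exact isPos_sr G s
    · have h3 : κ.1 k i = κ.1 k j + sr s := by rw [← κ.2.1 k j i, h]
      simp only [hkj, false_or, ne_eq, not_false_eq_true, true_and]
      constructor
      · rintro ⟨h4, h5⟩
        rcases IsRoot.pos_or_neg hG (κ.2.2 k j hkj) with h6 | h6
        · exact h6
        · exfalso
          apply hkj
          apply conf_left κ (k := i)
          rw [h]
          -- κ k i = sr s
          have h7 : ∀ x, x ≠ s → κ.1 k i x = 0 := by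
            intro x hx
            have a1 := h5.2 x
            have a2 := h6.2 x
            have a3 := congrFun h3 x
            simp only [Pi.neg_apply, Pi.add_apply, sr, Pi.single_apply, if_neg hx] at a1 a2 a3
            omega
          have h8 : κ.1 k i = (κ.1 k i s) • sr s := by
            funext x
            rcases eq_or_ne x s with rfl | hx
            · simp [sr]
            · rw [h7 x hx]; simp [sr, hx]
          have h9 := h5.1
          rw [IsRoot, h8, bil_smul_left, bil_smul_right,
            (isRoot_sr G s : bil G (sr s) (sr s) = 2)] at h9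
          have h10 := h5.2 s
          have h11 : κ.1 k i s = 1 := by nlinarith
          rw [h8, h11, one_smul]
      · intro h4
        have hki : k ≠ i := by
          rintro rfl
          rw [conf_self] at h3
          have h5 : κ.1 k j = - sr s := eq_neg_of_add_eq_zero_left h3.symm
          rw [h5] at h4
          exact (isPos_sr G s).not_neg h4
        refine ⟨hki, κ.2.2 k i hki, ?_⟩
        intro x
        rw [h3]
        have a1 := h4.2 x
        have a2 := (isPos_sr G s).2 x
        simp only [Pi.add_apply]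
        omega
  rw [this, Finset.card_insert_of_notMem hnot]

theorem ell_bu (hG : PosDef G) (t : R) (s : S) (F : Conf G I → I → R) (κ : Conf G I) :
    ell G t κ (bu G t s F) = ell G t (crf G s κ) F := by
  show ∑ i, t ^ (ps κ i).card * bu G t s F κ i =
    ∑ i, t ^ (ps (crf G s κ) i).card * F (crf G s κ) i
  set F' := F (crf G s κ) with hF'
  have e1 : ∀ i, t ^ (ps κ i).card * bu G t s F κ i = t ^ (ps κ i).card * F' i +
      (∑ j, if κ.1 i j = sr s then t ^ (ps κ i).card * (1 - t) * F' j else 0) -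
      (∑ j, if κ.1 i j = sr s then t ^ (ps κ i).card * (1 - t) * F' i else 0) := by
    intro i
    rw [bs_bu_apply, nop_apply, ← hF', mul_add, Finset.mul_sum, Finset.mul_sum, add_sub_assoc,
      ← Finset.sum_sub_distrib]
    congr 1
    refine Finset.sum_congr rfl fun j _ => ?_
    split_ifs <;> ring
  rw [Finset.sum_congr rfl fun i _ => e1 i, Finset.sum_sub_distrib, Finset.sum_add_distrib,
    Finset.sum_comm (f := fun i j =>
      if κ.1 i j = sr s then t ^ (ps κ i).card * (1 - t) * F' j else 0),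
    ← Finset.sum_add_distrib, ← Finset.sum_sub_distrib]
  refine Finset.sum_congr rfl fun i _ => ?_
  by_cases ha : ∃ j, κ.1 i j = sr s
  · obtain ⟨j, hj⟩ := ha
    have hb : ∀ k, κ.1 k i ≠ sr s := fun k hk => not_two κ hk hj
    rw [Finset.sum_eq_zero (fun k _ => if_neg (hb k)), Finset.sum_eq_single j, if_pos hj,
      ps_crf_a hG κ s i j hj]
    · ring
    · intro k _ hk
      rw [if_neg]
      intro h
      exact hk (conf_right κ (h.trans hj.symm))
    · intro h; exact absurd (Finset.mem_univ j) h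
  · have ha' : ∀ j, κ.1 i j ≠ sr s := fun j hj => ha ⟨j, hj⟩
    by_cases hb : ∃ j, κ.1 j i = sr s
    · obtain ⟨j, hj⟩ := hb
      rw [Finset.sum_eq_zero (fun k _ => if_neg (ha' k)), Finset.sum_eq_single j, if_pos hj]
      · have q1 := ps_crf_b hG κ s i j hj
        have q2 := ps_pair hG κ s i j hj
        have q3 : (ps (crf G s κ) i).card = (ps κ j).card := by omega
        rw [q2, q3]
        ring
      · intro k _ hk
        rw [if_neg]
        intro h
        exact hk (conf_left κ (h.trans hj.symm))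
      · intro h; exact absurd (Finset.mem_univ j) h
    · have hb' : ∀ j, κ.1 j i ≠ sr s := fun j hj => hb ⟨j, hj⟩
      rw [Finset.sum_eq_zero (fun k _ => if_neg (ha' k)),
        Finset.sum_eq_zero (fun k _ => if_neg (hb' k)), ps_crf_none hG κ s i ha' hb']
      ring

end BuStruct

theorem ell_buRep (hG : PosDef G) (t : Rˣ) (g : AGrp G) (F : Conf G I → I → R)
    (κ : Conf G I) :
    ell G (t : R) κ ((buRep G hG t I g).val F) = ell G (t : R) (cw G g⁻¹ κ) F := by
  revert F κ
  refine agrp_ind G (p := fun g => ∀ (F : Conf G I → I → R) (κ : Conf G I),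
    ell G (t : R) κ ((buRep G hG t I g).val F) = ell G (t : R) (cw G g⁻¹ κ) F) ?_ ?_ ?_ ?_ g
  · intro s F κ
    rw [buRep_gen, cw_gen_inv, ell_bu hG]
  · intro s F κ
    rw [inv_inv, cw_gen]
    have h := ell_bu hG (t : R) s ((buRep G hG t I (gen G s)⁻¹).val F) (crf G s κ)
    rw [crf_crf, ← buRep_gen G hG t s, ← buRep_mul, mul_inv_cancel, buRep_one] at h
    exact h.symm
  · intro F κ
    rw [buRep_one, inv_one, cw_one]
  · intro g h hg hh F κ
    rw [buRep_mul, hg, hh, mul_inv_rev, cw_mul]

theorem buRep_const (hG : PosDef G) (t : Rˣ) (g : AGrp G) (f : Conf G I → R) :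
    ((buRep G hG t I g).val (fun κ _ => f κ)) = fun κ _ => f (cw G g⁻¹ κ) := by
  have hn : ∀ (v : S → ℤ) (s : S) (f : Conf G I → R) (κ : Conf G I) (i : I),
      nop G v s (fun κ _ => f κ) κ i = 0 := by
    intro v s f κ i
    rw [nop_apply]
    apply Finset.sum_eq_zero
    intro j _
    split_ifs <;> simp
  revert f
  refine agrp_ind G (p := fun g => ∀ (f : Conf G I → R),
    ((buRep G hG t I g).val (fun κ _ => f κ)) = fun κ _ => f (cw G g⁻¹ κ)) ?_ ?_ ?_ ?_ g
  · intro s f
    funext κ i
    rw [buRep_gen, cw_gen_inv, bs_bu_apply, hn]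
    simp
  · intro s f
    funext κ i
    rw [buRep_gen_inv, inv_inv, cw_gen, bs_buInv_apply, hn]
    simp
  · intro f
    rw [buRep_one, inv_one]
    funext κ i
    rw [cw_one]
  · intro g h hg hh f
    rw [buRep_mul, hh, hg (fun κ => f (cw G h⁻¹ κ))]
    funext κ i
    rw [mul_inv_rev, cw_mul]

theorem buRep_local (hG : PosDef G) (t : Rˣ) (g : AGrp G) (κ : Conf G I) :
    ∃ c : (I → R) →ₗ[R] (I → R), ∀ F : Conf G I → I → R,
      (buRep G hG t I g).val F κ = c (F (cw G g⁻¹ κ)) := by
  have hn : ∀ (a : R) (v : S → ℤ) (s : S) (κ : Conf G I),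
      ∃ c : (I → R) →ₗ[R] (I → R), ∀ F : Conf G I → I → R, ∀ i,
        F (crf G s κ) i + a * nop G v s F κ i = c (F (crf G s κ)) i := by
    intro a v s κ
    refine ⟨{ toFun := fun f i => f i + a * ∑ j, (if κ.1 i j = v then f j - f i else 0)
              map_add' := ?_
              map_smul' := ?_ }, ?_⟩
    · intro f g
      funext i
      simp only [Pi.add_apply]
      rw [add_add_add_comm, ← mul_add, ← Finset.sum_add_distrib]
      congr 2
      refine Finset.sum_congr rfl fun j _ => ?_
      split_ifs <;> ring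
    · intro c f
      funext i
      simp only [Pi.smul_apply, smul_eq_mul, RingHom.id_apply]
      rw [mul_add, mul_left_comm, Finset.mul_sum (a := c)]
      congr 2
      refine Finset.sum_congr rfl fun j _ => ?_
      split_ifs <;> ring
    · intro F i
      rfl
  revert κ
  refine agrp_ind G (p := fun g => ∀ κ : Conf G I,
    ∃ c : (I → R) →ₗ[R] (I → R), ∀ F : Conf G I → I → R,
      (buRep G hG t I g).val F κ = c (F (cw G g⁻¹ κ))) ?_ ?_ ?_ ?_ g
  · intro s κ
    obtain ⟨c, hc⟩ := hn (1 - (t : R)) (sr s) s κ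
    refine ⟨c, fun F => ?_⟩
    funext i
    rw [buRep_gen, cw_gen_inv, bs_bu_apply, hc]
  · intro s κ
    obtain ⟨c, hc⟩ := hn (1 - ((t⁻¹ : Rˣ) : R)) (-sr s) s κ
    refine ⟨c, fun F => ?_⟩
    funext i
    rw [buRep_gen_inv, inv_inv, cw_gen, bs_buInv_apply, hc]
  · intro κ
    refine ⟨LinearMap.id, fun F => ?_⟩
    rw [buRep_one, inv_one, cw_one]
    rfl
  · intro g h hg hh κ
    obtain ⟨c, hc⟩ := hg κ
    obtain ⟨d, hd⟩ := hh (cw G g⁻¹ κ)
    refine ⟨c ∘ₗ d, fun F => ?_⟩
    rw [buRep_mul, hc, hd, mul_inv_rev, cw_mul]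
    rfl

theorem buRep_mod (hG : PosDef G) (t : Rˣ) (g : AGrp G) :
    ∃ Y : Module.End R (Conf G I → I → R), ∀ F : Conf G I → I → R,
      (buRep G hG t I g).val F =
        (fun κ i => F (cw G g⁻¹ κ) i) + ((t : R) - 1) • Y F := by
  refine agrp_ind G (p := fun g => ∃ Y : Module.End R (Conf G I → I → R),
    ∀ F : Conf G I → I → R, (buRep G hG t I g).val F =
        (fun κ i => F (cw G g⁻¹ κ) i) + ((t : R) - 1) • Y F) ?_ ?_ ?_ ?_ g
  · intro s
    refine ⟨-(nop G (sr s) s), fun F => ?_⟩
    funext κ i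
    rw [buRep_gen, bs_bu_apply]
    simp only [Pi.add_apply, Pi.smul_apply, LinearMap.neg_apply, Pi.neg_apply, smul_eq_mul,
      cw_gen_inv]
    ring
  · intro s
    refine ⟨((t⁻¹ : Rˣ) : R) • (nop G (-sr s) s), fun F => ?_⟩
    funext κ i
    rw [buRep_gen_inv, bs_buInv_apply]
    simp only [Pi.add_apply, Pi.smul_apply, LinearMap.smul_apply, smul_eq_mul,
      inv_inv, cw_gen]
    have h : (t : R) * ((t⁻¹ : Rˣ) : R) = 1 := by simp
    linear_combination (-(nop G (-sr s) s F κ i)) * h
  · refine ⟨0, fun F => ?_⟩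
    funext κ i
    rw [buRep_one]
    simp [cw_one]
  · intro g h hg hh
    obtain ⟨Y, hY⟩ := hg
    obtain ⟨Z, hZ⟩ := hh
    let P : Module.End R (Conf G I → I → R) :=
      { toFun := fun F κ i => F (cw G g⁻¹ κ) i
        map_add' := fun _ _ => rfl
        map_smul' := fun _ _ => rfl }
    refine ⟨P ∘ₗ Z + Y ∘ₗ (buRep G hG t I h).val, fun F => ?_⟩
    rw [buRep_mul, hY]
    funext κ i
    simp only [Pi.add_apply, Pi.smul_apply, smul_eq_mul, LinearMap.add_apply,
      LinearMap.comp_apply]
    rw [mul_add, ← add_assoc]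
    congr 1
    rw [mul_inv_rev, cw_mul, hZ]
    rfl

end SPH
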