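import Pool.Agent.Lib.MP_7b9603_al.Orbit

/-! # Existence of a rotating configuration (job L5) -/

namespace SPH

open scoped Classical
open Polynomial

universe u

set_option linter.unusedSectionVars false

variable {S : Type u} [Fintype S] [DecidableEq S] {G : SimpleGraph S}

section ConfAux

/-- partial sums of the orbit -/
private noncomputable def confY (w : (S → ℤ) ≃ₗ[ℤ] (S → ℤ)) (α : S → ℤ) (j : ℕ) : S → ℤ :=
  ∑ l ∈ Finset.range j, (w ^ l) α

private theorem confY_zero (w : (S → ℤ) ≃ₗ[ℤ] (S → ℤ)) (α : S → ℤ) : confY w α 0 = 0 := by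
  simp [confY]

private theorem confY_succ (w : (S → ℤ) ≃ₗ[ℤ] (S → ℤ)) (α : S → ℤ) (j : ℕ) :
    confY w α (j + 1) = confY w α j + (w ^ j) α := by
  rw [confY, Finset.sum_range_succ]; rfl

private theorem conf_pow_add (w : (S → ℤ) ≃ₗ[ℤ] (S → ℤ)) (α : S → ℤ) (i l : ℕ) :
    (w ^ (i + l)) α = (w ^ i) ((w ^ l) α) := by
  rw [pow_add]; rfl

private theorem confY_add (w : (S → ℤ) ≃ₗ[ℤ] (S → ℤ)) (α : S → ℤ) (i k : ℕ) :
    confY w α (i + k) = confY w α i + (w ^ i) (confY w α k) := by
  unfold confY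
  rw [Finset.sum_range_add, map_sum]
  congr 1
  exact Finset.sum_congr rfl fun l _ => conf_pow_add w α i l

private theorem confY_map (w : (S → ℤ) ≃ₗ[ℤ] (S → ℤ)) (α : S → ℤ) (j : ℕ) :
    w (confY w α j) = confY w α (j + 1) - α := by
  have h := confY_add w α 1 j
  rw [pow_one, add_comm 1 j] at h
  have h1 : confY w α 1 = α := by
    have := confY_succ w α 0
    rw [confY_zero, pow_zero, zero_add, zero_add] at this
    rw [this]; rfl
  rw [h1] at h
  rw [h]
  abel

private theorem conf_bil_pow {w : (S → ℤ) ≃ₗ[ℤ] (S → ℤ)}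
    (hw : ∀ u v, bil G (w u) (w v) = bil G u v) (n : ℕ) (u v : S → ℤ) :
    bil G ((w ^ n) u) ((w ^ n) v) = bil G u v := by
  induction n with
  | zero => rw [pow_zero]; rfl
  | succ n ih =>
    have h : ∀ x : S → ℤ, (w ^ (n + 1)) x = w ((w ^ n) x) := by
      intro x; rw [pow_succ']; rfl
    rw [h, h, hw, ih]

private theorem conf_norm {w : (S → ℤ) ≃ₗ[ℤ] (S → ℤ)}
    (hw : ∀ u v, bil G (w u) (w v) = bil G u v) {α : S → ℤ} (hα : IsRoot G α) {p : ℕ}
    (H : ∀ d, 1 ≤ d → d + 2 ≤ p → bil G α ((w ^ d) α) = if d = 1 then -1 else 0) (k : ℕ)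
    (hk1 : 1 ≤ k) (hk : k < p) : bil G (confY w α k) (confY w α k) = 2 := by
  induction k, hk1 using Nat.le_induction with
  | base =>
    have : confY w α 1 = α := by
      rw [confY_succ w α 0, confY_zero, pow_zero, zero_add]; rfl
    rw [this]; exact hα
  | succ k hk1 ih =>
    have ih' := ih (by omega)
    rw [confY_succ, bil_add_left, bil_add_right, bil_add_right, ih',
      bil_comm G ((w ^ k) α) (confY w α k), conf_bil_pow hw]
    have hαα : bil G α α = 2 := hα
    rw [hαα]
    have hcross : bil G (confY w α k) ((w ^ k) α) = -1 := by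
      rw [confY, bil_sum_left]
      have hterm : ∀ l ∈ Finset.range k,
          bil G ((w ^ l) α) ((w ^ k) α) = if l = k - 1 then -1 else 0 := by
        intro l hl
        have hl' := Finset.mem_range.1 hl
        have e : (w ^ k) α = (w ^ l) ((w ^ (k - l)) α) := by
          rw [← conf_pow_add]; congr 2; omega
        rw [e, conf_bil_pow hw, H (k - l) (by omega) (by omega)]
        by_cases h : l = k - 1
        · rw [if_pos h, if_pos (by omega)]
        · rw [if_neg h, if_neg (by omega)]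
      rw [Finset.sum_congr rfl hterm, Finset.sum_ite_eq' (Finset.range k) (k - 1) (fun _ => (-1 : ℤ)),
        if_pos (Finset.mem_range.2 (by omega))]
    rw [hcross]
    norm_num

private theorem conf_range_zmod {M : Type*} [AddCommMonoid M] (p : ℕ) [Fact p.Prime]
    (φ : ZMod p → M) : ∑ i ∈ Finset.range p, φ (i : ZMod p) = ∑ x : ZMod p, φ x := by
  refine Finset.sum_nbij' (fun i => (i : ZMod p)) (fun x => x.val) ?_ ?_ ?_ ?_ ?_
  · intro i _; exact Finset.mem_univ _
  · intro x _; exact Finset.mem_range.2 (ZMod.val_lt x)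
  · intro i hi; exact ZMod.val_cast_of_lt (Finset.mem_range.1 hi)
  · intro x _; exact ZMod.natCast_zmod_val x
  · intro i _; rfl

private theorem conf_pow_mod {w : (S → ℤ) ≃ₗ[ℤ] (S → ℤ)} {p : ℕ} (hp1 : w ^ p = 1) (n : ℕ) :
    w ^ n = w ^ (n % p) := by
  conv_lhs => rw [← Nat.div_add_mod n p, pow_add, pow_mul, hp1, one_pow, one_mul]

private theorem conf_sum {w : (S → ℤ) ≃ₗ[ℤ] (S → ℤ)} {p : ℕ} [Fact p.Prime]
    (hp1 : w ^ p = 1) {α : S → ℤ} (hsum : ∑ i ∈ Finset.range p, (w ^ i) α = 0) {a : ℕ}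
    (ha : (a : ZMod p) ≠ 0) : ∑ l ∈ Finset.range p, ((w ^ a) ^ l) α = 0 := by
  have h1 : ∀ n : ℕ, (w ^ n) α = (w ^ (n : ZMod p).val) α := by
    intro n
    rw [ZMod.val_natCast, ← conf_pow_mod hp1]
  have h2 : ∀ l : ℕ, ((w ^ a) ^ l) α = (w ^ ((a : ZMod p) * (l : ZMod p)).val) α := by
    intro l
    rw [← pow_mul, h1, Nat.cast_mul]
  simp_rw [h2]
  rw [conf_range_zmod p (fun x => (w ^ ((a : ZMod p) * x).val) α)]
  rw [Fintype.sum_equiv (Equiv.mulLeft₀ (a : ZMod p) ha)
    (fun x => (w ^ ((a : ZMod p) * x).val) α) (fun x => (w ^ x.val) α) (fun x => rfl)]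
  rw [← conf_range_zmod p (fun x => (w ^ x.val) α)]
  rw [← hsum]
  exact Finset.sum_congr rfl fun i _ => (h1 i).symm

private theorem conf_core {w : (S → ℤ) ≃ₗ[ℤ] (S → ℤ)}
    (hw : ∀ u v, bil G (w u) (w v) = bil G u v) {p : ℕ} [hp : Fact p.Prime]
    {α : S → ℤ} (hα : IsRoot G α) (hsum : ∑ l ∈ Finset.range p, (w ^ l) α = 0)
    (H : ∀ d, 1 ≤ d → d + 2 ≤ p → bil G α ((w ^ d) α) = if d = 1 then -1 else 0) :
    ∃ κ : Conf G (ZMod p), ∀ i j, w (κ.1 i j) = κ.1 (i + 1) (j + 1) := by
  have : Fact (1 < p) := ⟨hp.out.one_lt⟩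
  have hYp : confY w α p = 0 := hsum
  have hroot : ∀ i j : ℕ, i < j → j < p → IsRoot G (confY w α j - confY w α i) := by
    intro i j hij hj
    have e : confY w α j - confY w α i = (w ^ i) (confY w α (j - i)) := by
      have := confY_add w α i (j - i)
      rw [show i + (j - i) = j by omega] at this
      rw [this]; abel
    rw [e, IsRoot, conf_bil_pow hw]
    exact conf_norm hw hα H (j - i) (by omega) (by omega)
  have hstep : ∀ j : ZMod p, confY w α (j + 1).val = confY w α (j.val + 1) := by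
    intro j
    rw [ZMod.val_add, ZMod.val_one]
    have hj := ZMod.val_lt j
    by_cases h : j.val + 1 < p
    · rw [Nat.mod_eq_of_lt h]
    · have : j.val + 1 = p := by omega
      rw [this, Nat.mod_self, hYp, confY_zero]
  refine ⟨⟨fun i j => confY w α i.val - confY w α j.val, ?_, ?_⟩, ?_⟩
  · intro i j k
    exact sub_add_sub_cancel _ _ _
  · intro i j hij
    rcases lt_trichotomy i.val j.val with h | h | h
    · have := isRoot_neg G (hroot i.val j.val h (ZMod.val_lt j))
      rwa [neg_sub] at this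
    · exact absurd (ZMod.val_injective p h) hij
    · exact hroot j.val i.val h (ZMod.val_lt i)
  · intro i j
    show w (confY w α i.val - confY w α j.val) = confY w α (i + 1).val - confY w α (j + 1).val
    rw [map_sub, confY_map, confY_map, hstep, hstep]
    abel

end ConfAux

theorem exists_conf (hG : PosDef G) (w : (S → ℤ) ≃ₗ[ℤ] (S → ℤ))
    (hw : ∀ u v, bil G (w u) (w v) = bil G u v) (p : ℕ) [Fact p.Prime]
    (hp1 : w ^ p = 1) (α : S → ℤ) (hα : IsRoot G α)
    (hsum : ∑ i ∈ Finset.range p, (w ^ i) α = 0) :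
    ∃ (a : ℕ) (κ : Conf G (ZMod p)), ∀ i j, (w ^ a) (κ.1 i j) = κ.1 (i + 1) (j + 1) := by
  have hp : p.Prime := Fact.out
  rcases hp.eq_two_or_odd' with h2 | hodd
  · refine ⟨1, ?_⟩
    rw [pow_one]
    refine conf_core hw hα hsum fun d hd1 hd2 => ?_
    omega
  · obtain ⟨a, ha0, hap, hg1, -, hg2⟩ := orbit_gram hG w hw p hp hodd hp1 α hα hsum
    have hnd : ¬ p ∣ a := Nat.not_dvd_of_pos_of_lt ha0 hap
    refine ⟨a, conf_core (conf_bil_pow hw a) hα (conf_sum hp1 hsum ?_) fun d hd1 hd2 => ?_⟩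
    · rwa [Ne, ZMod.natCast_eq_zero_iff]
    · by_cases hd : d = 1
      · rw [if_pos hd, hd, pow_one, hg1]
      · rw [if_neg hd, ← pow_mul, conf_pow_mod hp1]
        have hdp : ¬ p ∣ d := Nat.not_dvd_of_pos_of_lt (by omega) (by omega)
        apply hg2
        · rcases Nat.eq_zero_or_pos (a * d % p) with h | h
          · rcases (Nat.Prime.dvd_mul hp).1 (Nat.dvd_of_mod_eq_zero h) with h' | h'
            · exact absurd h' hnd
            · exact absurd h' hdp
          · exact h
        · exact Nat.mod_lt _ hp.pos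
        · intro h
          have h3 : a * (d - 1) % p = 0 := by
            have e : a * d = a * (d - 1) + a := by
              obtain ⟨c, rfl⟩ : ∃ c, d = c + 1 := ⟨d - 1, by omega⟩
              simp [mul_add]
            have h4 : (a * (d - 1) + a) % p = a % p := by
              rw [← e, h, Nat.mod_eq_of_lt hap]
            have h5 : a * (d - 1) + a ≡ 0 + a [MOD p] := by
              rw [zero_add]; exact h4
            exact Nat.ModEq.add_right_cancel' a h5
          rcases (Nat.Prime.dvd_mul hp).1 (Nat.dvd_of_mod_eq_zero h3) with h' | h'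
          · exact hnd h'
          · exact Nat.not_dvd_of_pos_of_lt (by omega) (by omega) h'
        · intro h
          have h3 : p ∣ a * (d + 1) := by
            rw [mul_add, mul_one]
            apply Nat.dvd_of_mod_eq_zero
            rw [Nat.add_mod, h, Nat.mod_eq_of_lt hap, Nat.sub_add_cancel hap.le, Nat.mod_self]
          rcases (Nat.Prime.dvd_mul hp).1 h3 with h' | h'
          · exact hnd h'
          · exact Nat.not_dvd_of_pos_of_lt (by omega) (by omega) h'

end SPH
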