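import Pool.Agent.Lib.MP_7b9603_al.Roots
import Pool.Agent.Lib.MP_7b9603_al.Weyl

section

/-! # Rank-nullity over a left Noetherian domain (job R2) -/

namespace SPH

universe u v

/-- a maximal independent family: some nonzero multiple of every element lies in the span -/
private theorem rk_exists_smul_mem {R : Type u} [Ring R] [IsDomain R] [IsNoetherianRing R]
    {N : Type u} [AddCommGroup N] [Module R N] [Module.Finite R N]
    (w : Fin (Module.finrank R N) → N) (hw : LinearIndependent R w) (x : N) :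
    ∃ r : R, r ≠ 0 ∧ r • x ∈ Submodule.span R (Set.range w) := by
  by_contra hcon
  push Not at hcon
  have h1 : LinearIndependent R (Fin.cons x w : Fin (Module.finrank R N + 1) → N) := by
    apply LinearIndependent.finCons' x w hw
    intro c y hy hc
    by_contra hc0
    apply hcon c hc0
    have : c • x = -y := eq_neg_of_add_eq_zero_left hc
    rw [this]
    exact Submodule.neg_mem _ hy
  have h2 := h1.fintype_card_le_finrank
  rw [Fintype.card_fin] at h2
  omega

theorem finrank_ker_add_finrank_range {R : Type u} [Ring R] [IsDomain R] [IsNoetherianRing R]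
    {M M' : Type u} [AddCommGroup M] [Module R M] [AddCommGroup M'] [Module R M']
    [Module.Finite R M] (f : M →ₗ[R] M') :
    Module.finrank R (LinearMap.ker f) + Module.finrank R (LinearMap.range f) =
      Module.finrank R M := by
  classical
  apply le_antisymm
  · have h1 := rank_quotient_add_rank_le (LinearMap.ker f)
    have h2 : Module.finrank R (M ⧸ LinearMap.ker f) = Module.finrank R (LinearMap.range f) :=
      (f.quotKerEquivRange).finrank_eq
    rw [← Module.finrank_eq_rank, ← Module.finrank_eq_rank, ← Module.finrank_eq_rank] at h1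
    have h3 : Module.finrank R (M ⧸ LinearMap.ker f) + Module.finrank R (LinearMap.ker f) ≤
        Module.finrank R M := by exact_mod_cast h1
    omega
  · obtain ⟨u, hu⟩ := exists_linearIndependent_of_le_finrank
      (R := R) (M := LinearMap.ker f) le_rfl
    obtain ⟨w, hw⟩ := exists_linearIndependent_of_le_finrank
      (R := R) (M := LinearMap.range f) le_rfl
    obtain ⟨v, hv⟩ := exists_linearIndependent_of_le_finrank (R := R) (M := M) le_rfl
    have hlift : ∀ j, ∃ y : M, f y = w j := fun j => (w j).2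
    choose w' hw' using hlift
    let g : Fin (Module.finrank R (LinearMap.ker f)) ⊕ Fin (Module.finrank R (LinearMap.range f)) →
      M := Sum.elim (fun i => (u i : M)) w'
    have hspan_u : ∀ y : LinearMap.ker f, y ∈ Submodule.span R (Set.range u) →
        (y : M) ∈ Submodule.span R (Set.range g) := by
      intro y hy
      have h1 : (LinearMap.ker f).subtype y ∈ (Submodule.span R (Set.range u)).map
          (LinearMap.ker f).subtype := Submodule.mem_map_of_mem hy
      rw [Submodule.map_span] at h1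
      refine Submodule.span_mono ?_ h1
      rintro _ ⟨_, ⟨i, rfl⟩, rfl⟩
      exact ⟨Sum.inl i, rfl⟩
    have hspan_w : ∀ z : LinearMap.range f, z ∈ Submodule.span R (Set.range w) →
        ∃ y ∈ Submodule.span R (Set.range g), f y = z := by
      intro z hz
      have h1 : (LinearMap.range f).subtype z ∈ (Submodule.span R (Set.range w)).map
          (LinearMap.range f).subtype := Submodule.mem_map_of_mem hz
      rw [Submodule.map_span] at h1
      have h2 : (Submodule.span R ((LinearMap.range f).subtype '' Set.range w)) ≤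
          (Submodule.span R (Set.range g)).map f := by
        rw [Submodule.span_le]
        rintro _ ⟨_, ⟨i, rfl⟩, rfl⟩
        exact ⟨w' i, Submodule.subset_span ⟨Sum.inr i, rfl⟩, hw' i⟩
      obtain ⟨y, hy, hyz⟩ := h2 h1
      exact ⟨y, hy, hyz⟩
    have key : ∀ x : M, ∃ r : R, r ≠ 0 ∧ r • x ∈ Submodule.span R (Set.range g) := by
      intro x
      obtain ⟨r1, hr1, h1⟩ := rk_exists_smul_mem w hw ⟨f x, x, rfl⟩
      obtain ⟨y, hy, hyz⟩ := hspan_w _ h1
      have hker : r1 • x - y ∈ LinearMap.ker f := by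
        rw [LinearMap.mem_ker, map_sub, map_smul, hyz]
        simp
      obtain ⟨r2, hr2, h2⟩ := rk_exists_smul_mem u hu ⟨r1 • x - y, hker⟩
      refine ⟨r2 * r1, mul_ne_zero hr2 hr1, ?_⟩
      have h3 := hspan_u _ h2
      have h4 : (r2 * r1) • x = r2 • (r1 • x - y) + r2 • y := by
        rw [← smul_add, sub_add_cancel, mul_smul]
      rw [h4]
      exact Submodule.add_mem _ h3 (Submodule.smul_mem _ _ hy)
    choose r hr hrg using fun i => key (v i)
    have hrv : LinearIndependent R (fun i => r i • v i) := by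
      rw [Fintype.linearIndependent_iff]
      intro a ha i
      rw [Fintype.linearIndependent_iff] at hv
      have h1 := hv (fun i => a i * r i) (by
        rw [← ha]
        exact Finset.sum_congr rfl fun i _ => by rw [mul_smul]) i
      exact (mul_eq_zero.mp h1).resolve_right (hr i)
    have h5 := linearIndependent_le_span_aux' _ hrv (Set.range g) (by
      rintro _ ⟨i, rfl⟩
      exact hrg i)
    rw [Fintype.card_fin] at h5
    refine h5.trans ((Fintype.card_range_le g).trans ?_)
    rw [Fintype.card_sum, Fintype.card_fin, Fintype.card_fin]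

theorem finrank_pos_of_torsionFree {R : Type u} [Ring R] [IsDomain R] [IsNoetherianRing R]
    {M : Type u} [AddCommGroup M] [Module R M] [Module.Finite R M] [Nontrivial M]
    (htf : ∀ (r : R) (x : M), r • x = 0 → r = 0 ∨ x = 0) : 0 < Module.finrank R M := by
  obtain ⟨x, hx⟩ := exists_ne (0 : M)
  have h1 : LinearIndependent R (fun _ : Fin 1 => x) := by
    rw [Fintype.linearIndependent_iff]
    intro a ha i
    rw [Fin.sum_univ_one] at ha
    rw [Subsingleton.elim i 0]
    exact (htf _ _ ha).resolve_right hx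
  have h2 := h1.fintype_card_le_finrank
  rw [Fintype.card_fin] at h2
  omega

theorem finrank_eq_of_equiv {R : Type u} [Ring R] {M M' : Type u} [AddCommGroup M] [Module R M]
    [AddCommGroup M'] [Module R M'] (e : M ≃ₗ[R] M') :
    Module.finrank R M = Module.finrank R M' := e.finrank_eq

end SPH
end

section

section

/-! # Braid relations for the Lawrence-Krammer type operators (job K2) -/

namespace SPH

open scoped Classical
open Polynomial

universe u v

set_option linter.unusedSectionVars false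

variable {S : Type u} [Fintype S] [DecidableEq S] {G : SimpleGraph S}
variable [Fintype (PRoot G)] {R : Type v} [CommRing R]

/-! ### The values of the polynomials -/

private noncomputable def kT (D : TData G) (y : R) (s : S) (w : S → ℤ) : R := aeval y (D.T s w)

private lemma kT_self (D : TData G) (y : R) (s : S) : kT D y s (sr s) = y ^ 2 := by
  rw [kT, D.self]; simp

private lemma kT_other (D : TData G) (y : R) {s t : S} (h : s ≠ t) : kT D y s (sr t) = 0 := by
  rw [kT, D.other s t h]; simp

private lemma kT_one (D : TData G) (y : R) {s : S} {w : S → ℤ} (hw : IsPos G w)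
    (h : pr G s w = 1) : kT D y s w = y ^ (ht w).toNat * (y - 1) := by
  rw [kT, D.one s w hw h]; simp

private lemma kT_far (D : TData G) (y : R) {s t : S} {w : S → ℤ} (hne : s ≠ t)
    (hst : ¬ G.Adj s t) (hw : IsPos G w) (h : pr G t w = 1) :
    kT D y s w = y * kT D y s (w - sr t) := by
  rw [kT, D.far s t w hne hst hw h]; simp [kT]

private lemma kT_mid (D : TData G) (y : R) {s t : S} {w : S → ℤ} (hst : G.Adj s t)
    (hw : IsPos G w) (h0 : pr G s w = 0) (h : pr G t w = 1) :
    kT D y s w = y * kT D y t (w - sr s - sr t) + y ^ ((ht w).toNat - 1) * (y - 1) ^ 2 := by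
  rw [kT, D.mid s t w hst hw h0 h]; simp [kT]

private lemma kT_low (D : TData G) (y : R) {s t : S} {w : S → ℤ} (hst : G.Adj s t)
    (hw : IsPos G w) (h0 : pr G s w = -1) (h : pr G t w = 1) :
    kT D y s w = kT D y t (w - sr t) + (y - 1) * kT D y s (w - sr t) := by
  rw [kT, D.low s t w hst hw h0 h]; simp [kT]

private lemma kT_zero (D : TData G) (y : R) {s t : S} {w : S → ℤ} (hst : G.Adj s t)
    (hw : IsPos G w) (h0 : pr G s w = 0) (h : pr G t w = 0) : kT D y s w = kT D y t w := by
  rw [kT, D.zero s t w hst hw h0 h]; rfl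

/-! ### Roots -/

private lemma k_ne_of_pr {s : S} {w : S → ℤ} (h : pr G s w ≠ 2) : w ≠ sr s := by
  rintro rfl
  exact h (by rw [pr_sr, cart_self])

private lemma k_pr_rf (s t : S) (w : S → ℤ) :
    pr G s (rf G t w) = pr G s w - pr G t w * cart G s t := by
  rw [rf, pr_sub, pr_smul, pr_sr]

/-- the permutation of the positive roots -/
private noncomputable def krho (hG : PosDef G) (t : S) (γ : PRoot G) : PRoot G :=
  if h : γ.1 = sr t then γ else ⟨rf G t γ.1, γ.2.rf hG h⟩

private lemma krho_ne (hG : PosDef G) {t : S} {γ : PRoot G} (h : γ.1 ≠ sr t) :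
    (krho hG t γ).1 = rf G t γ.1 := by rw [krho, dif_neg h]

private lemma k_rf_ne {t : S} {w : S → ℤ} (hw : IsPos G w) : rf G t w ≠ sr t := by
  intro h1
  have h2 := congrArg (rf G t) h1
  rw [rf_rf, rf_sr] at h2
  have h3 : IsPos G (-w) := by rw [h2, neg_neg]; exact isPos_sr G t
  exact hw.not_neg h3

private lemma krho_krho (hG : PosDef G) (t : S) (γ : PRoot G) :
    krho hG t (krho hG t γ) = γ := by
  by_cases h : γ.1 = sr t
  · rw [krho, krho]
    simp [h]
  · apply Subtype.ext
    have h1 : (krho hG t γ).1 ≠ sr t := by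
      rw [krho_ne hG h]; exact k_rf_ne γ.2
    rw [krho_ne hG h1, krho_ne hG h, rf_rf]

private noncomputable def krhoE (hG : PosDef G) (t : S) : PRoot G ≃ PRoot G :=
  ⟨krho hG t, krho hG t, krho_krho hG t, krho_krho hG t⟩

/-! ### The operators -/

/-- the functional -/
private noncomputable def ktau (D : TData G) (y : R) (s : S) (f : PRoot G → R) : R :=
  ∑ β : PRoot G, kT D y s β.1 * f β

/-- the operator on functions on the lattice -/
private noncomputable def kps (G : SimpleGraph S) (y : R) (s : S) (F : (S → ℤ) → R)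
    (w : S → ℤ) : R :=
  if pr G s w = -1 then (1 - y) * F w + y * F (rf G s w) else F (rf G s w)

private lemma ext0_pos (f : PRoot G → R) {w : S → ℤ} (hw : IsPos G w) :
    ext0 G f w = f ⟨w, hw⟩ := by rw [ext0, dif_pos hw]

private lemma lk_sr (D : TData G) (x y : R) (s : S) (f : PRoot G → R) :
    ext0 G (lk D x y s f) (sr s) = x * ktau D y s f := by
  rw [ext0_pos _ (isPos_sr G s)]
  simp [lk, ktau, kT]

private lemma lk_ne (hG : PosDef G) (D : TData G) (x y : R) {s : S} (f : PRoot G → R)
    {w : S → ℤ} (hw : IsPos G w) (h : w ≠ sr s) :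
    ext0 G (lk D x y s f) w = kps G y s (ext0 G f) w := by
  rw [ext0_pos _ hw]
  simp only [lk, LinearMap.coe_mk, AddHom.coe_mk, kps]
  rw [if_neg h]
  rcases hw.pr_cases hG h with h1 | h1 | h1
  · rw [if_neg (by rw [h1]; norm_num), if_neg (by rw [h1]; norm_num), if_pos h1, ext0_pos f hw,
      rf, h1]
    simp
  · rw [if_pos h1, if_neg (by rw [h1]; norm_num), rf, h1, zero_smul, sub_zero, ext0_pos f hw]
  · rw [if_neg (by rw [h1]; norm_num), if_pos h1, if_neg (by rw [h1]; norm_num), rf, h1, one_smul]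

/-- The dual coefficients. -/
private noncomputable def kc (D : TData G) (y : R) (s t : S) (w : S → ℤ) : R :=
  if w = sr t then 0
  else if pr G t w = 0 then kT D y s w
  else if pr G t w = 1 then y * kT D y s (w - sr t)
  else (1 - y) * kT D y s w + kT D y s (w + sr t)

private lemma ktau_lk (hG : PosDef G) (D : TData G) (x y : R) {s t : S} (hne : s ≠ t)
    (f : PRoot G → R) :
    ktau D y s (lk D x y t f) = ∑ γ : PRoot G, kc D y s t γ.1 * f γ := by
  set A : PRoot G → R := fun γ => kT D y s γ.1 * (if pr G t γ.1 = -1 then 1 - y else 0) with hA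
  set B : PRoot G → R := fun γ => kT D y s γ.1 * (if γ.1 = sr t then 0
    else if pr G t γ.1 = -1 then y else 1) with hB
  have h1 : ∀ γ : PRoot G, kT D y s γ.1 * lk D x y t f γ =
      A γ * f γ + B γ * f (krho hG t γ) := by
    intro γ
    have e0 : lk D x y t f γ = ext0 G (lk D x y t f) γ.1 := by rw [ext0_pos _ γ.2]
    rw [e0]
    by_cases h : γ.1 = sr t
    · rw [h, kT_other D y hne, zero_mul]
      simp only [hA, hB, h, kT_other D y hne]
      simp
    · rw [lk_ne hG D x y f γ.2 h, kps]
      have e1 : ext0 G f γ.1 = f γ := by rw [ext0_pos _ γ.2]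
      have e2 : ext0 G f (rf G t γ.1) = f (krho hG t γ) := by
        rw [ext0_pos _ (γ.2.rf hG h)]
        congr 1
        exact Subtype.ext (krho_ne hG h).symm
      rw [e1, e2]
      simp only [hA, hB, if_neg h]
      split_ifs <;> ring
  unfold ktau
  rw [Finset.sum_congr rfl fun γ _ => h1 γ, Finset.sum_add_distrib]
  have h2 : ∑ γ : PRoot G, B γ * f (krho hG t γ) = ∑ γ : PRoot G, B (krho hG t γ) * f γ := by
    rw [← Equiv.sum_comp (krhoE hG t) fun γ => B γ * f (krho hG t γ)]
    refine Finset.sum_congr rfl fun γ _ => ?_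
    show B (krho hG t γ) * f (krho hG t (krho hG t γ)) = _
    rw [krho_krho]
  rw [h2, ← Finset.sum_add_distrib]
  refine Finset.sum_congr rfl fun γ _ => ?_
  rw [← add_mul]
  congr 1
  simp only [hA, hB, kc]
  by_cases h : γ.1 = sr t
  · have h3 : krho hG t γ = γ := by rw [krho, dif_pos h]
    rw [h3, if_pos h, if_pos h, mul_zero, add_zero, if_neg, mul_zero]
    rw [h, pr_sr, cart_self]; norm_num
  · have h3 := krho_ne hG h
    rw [if_neg h, h3, if_neg (k_rf_ne γ.2), pr_rf]
    rcases γ.2.pr_cases hG h with h4 | h4 | h4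
    · rw [if_pos h4, if_neg (by rw [h4]; norm_num), if_neg (by rw [h4]; norm_num),
        if_neg (by rw [h4]; norm_num), rf, h4]
      simp only [neg_smul, one_smul, sub_neg_eq_add, mul_one]
      ring
    · rw [if_neg (by rw [h4]; norm_num), if_neg (by rw [h4]; norm_num), if_pos h4, rf, h4]
      simp
    · rw [if_neg (by rw [h4]; norm_num), if_pos (by rw [h4]), if_neg (by rw [h4]; norm_num),
        if_pos h4, rf, h4]
      simp only [one_smul, mul_zero, zero_add]
      ring

private lemma ktau_eq (D : TData G) (y : R) (s : S) (f : PRoot G → R) :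
    ktau D y s f = ∑ γ : PRoot G, kT D y s γ.1 * f γ := rfl

/-- (E2) -/
private lemma ktau_far (hG : PosDef G) (D : TData G) (x y : R) {s t : S} (hne : s ≠ t)
    (h : ¬ G.Adj s t) (f : PRoot G → R) : ktau D y s (lk D x y t f) = ktau D y s f := by
  rw [ktau_lk hG D x y hne, ktau_eq]
  refine Finset.sum_congr rfl fun γ _ => ?_
  congr 1
  unfold kc
  by_cases h0 : γ.1 = sr t
  · rw [if_pos h0, h0, kT_other D y hne]
  · rw [if_neg h0]
    rcases γ.2.pr_cases hG h0 with h4 | h4 | h4
    · rw [if_neg (by rw [h4]; norm_num), if_neg (by rw [h4]; norm_num)]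
      have hp : IsPos G (γ.1 + sr t) := γ.2.add_sr h4
      have h5 : pr G t (γ.1 + sr t) = 1 := by rw [pr_add, h4, pr_sr, cart_self]; norm_num
      rw [kT_far D y hne h hp h5, add_sub_cancel_right]
      ring
    · rw [if_pos h4]
    · rw [if_neg (by rw [h4]; norm_num), if_pos h4, kT_far D y hne h γ.2 h4]

/-- positive roots in the rank two situation -/
private lemma k_st_pos {s t : S} (h : G.Adj s t) : IsPos G (sr s + sr t) :=
  (isPos_sr G s).add_sr (by rw [pr_sr, cart_adj G h.symm])

private lemma k_eq_st (hG : PosDef G) {s t : S} (h : G.Adj s t) {w : S → ℤ} (hw : IsPos G w)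
    (h1 : pr G s w = 1) (h2 : pr G t w = 1) : w = sr s + sr t := by
  by_contra hne
  have h3 := bil_le_one hG hw.1 (k_st_pos h).1 hne
  rw [bil_add_right, bil_sr_right, bil_sr_right, h1, h2] at h3
  norm_num at h3

private lemma k_not_neg (hG : PosDef G) {s t : S} (h : G.Adj s t) {w : S → ℤ} (hw : IsPos G w)
    (h1 : pr G s w = -1) (h2 : pr G t w = -1) : False := by
  by_cases hne : w = -(sr s + sr t)
  · rw [hne] at hw
    exact (k_st_pos h).not_neg hw
  · have h3 := neg_one_le_bil hG hw.1 (k_st_pos h).1 hne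
    rw [bil_add_right, bil_sr_right, bil_sr_right, h1, h2] at h3
    norm_num at h3

private lemma k_ht_succ {w : S → ℤ} (hw : IsPos G w) (t : S) :
    (ht (w + sr t)).toNat = (ht w).toNat + 1 := by
  have := hw.ht_pos
  rw [ht_add, ht_sr]
  omega

/-- values of the dual coefficients -/
private lemma kc_self (D : TData G) (y : R) (s t : S) : kc D y s t (sr t) = 0 := by
  rw [kc, if_pos rfl]

private lemma kc_zero (D : TData G) (y : R) {s t : S} {w : S → ℤ} (h : pr G t w = 0) :
    kc D y s t w = kT D y s w := by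
  rw [kc, if_neg (k_ne_of_pr (by rw [h]; norm_num)), if_pos h]

private lemma kc_one (D : TData G) (y : R) {s t : S} {w : S → ℤ} (h : pr G t w = 1) :
    kc D y s t w = y * kT D y s (w - sr t) := by
  rw [kc, if_neg (k_ne_of_pr (by rw [h]; norm_num)), if_neg (by rw [h]; norm_num), if_pos h]

private lemma kc_neg (D : TData G) (y : R) {s t : S} {w : S → ℤ} (h : pr G t w = -1) :
    kc D y s t w = (1 - y) * kT D y s w + kT D y s (w + sr t) := by
  rw [kc, if_neg (k_ne_of_pr (by rw [h]; norm_num)), if_neg (by rw [h]; norm_num),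
    if_neg (by rw [h]; norm_num)]

/-- half of the cases of (E3) -/
private lemma kc_half (hG : PosDef G) (D : TData G) (y : R) {s t : S} (h : G.Adj s t)
    {w : S → ℤ} (hw : IsPos G w) (hcase : (pr G s w = 0 ∧ pr G t w = 0) ∨
      (pr G s w = 0 ∧ pr G t w = -1) ∨ (pr G s w = 1 ∧ pr G t w = -1) ∨
      (pr G s w = 0 ∧ pr G t w = 1) ∨ w = sr s) :
    kc D y s t w = kc D y t s w := by
  rcases hcase with ⟨h1, h2⟩ | ⟨h1, h2⟩ | ⟨h1, h2⟩ | ⟨h1, h2⟩ | rfl
  · rw [kc_zero D y h2, kc_zero D y h1, kT_zero D y h hw h1 h2]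
  · rw [kc_neg D y h2, kc_zero D y h1]
    have hp : IsPos G (w + sr t) := hw.add_sr h2
    have h3 : pr G s (w + sr t) = -1 := by rw [pr_add, h1, pr_sr, cart_adj G h]; norm_num
    have h4 : pr G t (w + sr t) = 1 := by rw [pr_add, h2, pr_sr, cart_self]; norm_num
    rw [kT_low D y h hp h3 h4, add_sub_cancel_right]
    ring
  · rw [kc_neg D y h2, kc_one D y h1]
    have hp : IsPos G (w + sr t) := hw.add_sr h2
    have h3 : pr G s (w + sr t) = 0 := by rw [pr_add, h1, pr_sr, cart_adj G h]; norm_num
    have h4 : pr G t (w + sr t) = 1 := by rw [pr_add, h2, pr_sr, cart_self]; norm_num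
    have h5 : w + sr t - sr s - sr t = w - sr s := by abel
    rw [kT_mid D y h hp h3 h4, k_ht_succ hw, Nat.add_sub_cancel, h5, kT_one D y hw h1]
    ring
  · rw [kc_one D y h2, kc_zero D y h1]
    have hp : IsPos G (w - sr t) := hw.sub_sr hG h2
    have h3 : pr G s (w - sr t) = 1 := by rw [pr_sub, h1, pr_sr, cart_adj G h]; norm_num
    have h4 : (ht w).toNat = (ht (w - sr t)).toNat + 1 := by
      have := k_ht_succ hp t
      rwa [sub_add_cancel] at this
    rw [kT_one D y hp h3, kT_one D y hw h2, h4]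
    ring
  · have h2 : pr G t (sr s) = -1 := by rw [pr_sr, cart_adj G h.symm]
    have h3 : pr G s (sr s + sr t) = 1 := by
      rw [pr_add, pr_sr, pr_sr, cart_self, cart_adj G h]; norm_num
    rw [kc_self, kc_neg D y h2, kT_self, kT_one D y (k_st_pos h) h3, k_ht_succ hw, ht_sr]
    simp
    ring

private lemma kc_symm (hG : PosDef G) (D : TData G) (y : R) {s t : S} (h : G.Adj s t)
    {w : S → ℤ} (hw : IsPos G w) : kc D y s t w = kc D y t s w := by
  by_cases hs : w = sr s
  · exact kc_half hG D y h hw (by tauto)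
  by_cases ht' : w = sr t
  · exact (kc_half hG D y h.symm hw (by tauto)).symm
  rcases hw.pr_cases hG hs with h1 | h1 | h1 <;> rcases hw.pr_cases hG ht' with h2 | h2 | h2
  · exact (k_not_neg hG h hw h1 h2).elim
  · exact (kc_half hG D y h.symm hw (by tauto)).symm
  · exact (kc_half hG D y h.symm hw (by tauto)).symm
  · exact kc_half hG D y h hw (by tauto)
  · exact kc_half hG D y h hw (by tauto)
  · exact kc_half hG D y h hw (by tauto)
  · exact kc_half hG D y h hw (by tauto)
  · exact (kc_half hG D y h.symm hw (by tauto)).symm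
  · have h3 := k_eq_st hG h hw h1 h2
    rw [kc_one D y h2, kc_one D y h1, h3, add_sub_cancel_right, add_sub_cancel_left, kT_self,
      kT_self]

/-- (E3) -/
private lemma ktau_adj (hG : PosDef G) (D : TData G) (x y : R) {s t : S} (h : G.Adj s t)
    (f : PRoot G → R) : ktau D y s (lk D x y t f) = ktau D y t (lk D x y s f) := by
  rw [ktau_lk hG D x y h.ne, ktau_lk hG D x y h.ne.symm]
  exact Finset.sum_congr rfl fun γ _ => by rw [kc_symm hG D y h γ.2]

/-- (E4) -/
private lemma lk_sq (hG : PosDef G) (D : TData G) (x y : R) {s : S} (f : PRoot G → R)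
    {γ : PRoot G} (h : γ.1 ≠ sr s) :
    lk D x y s (lk D x y s f) γ = (1 - y) * lk D x y s f γ + y * f γ := by
  have e0 : ∀ g : PRoot G → R, g γ = ext0 G g γ.1 := fun g => by rw [ext0_pos _ γ.2]
  rw [e0 (lk D x y s (lk D x y s f)), e0 (lk D x y s f), e0 f, lk_ne hG D x y _ γ.2 h, kps]
  have h2 : ext0 G (lk D x y s f) (rf G s γ.1) = kps G y s (ext0 G f) (rf G s γ.1) :=
    lk_ne hG D x y f (γ.2.rf hG h) (k_rf_ne γ.2)
  rw [h2, lk_ne hG D x y f γ.2 h, kps, kps, pr_rf, rf_rf]
  rcases γ.2.pr_cases hG h with h4 | h4 | h4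
  · rw [if_pos h4, if_pos h4, if_neg (by rw [h4]; norm_num)]
  · rw [if_neg (by rw [h4]; norm_num), if_neg (by rw [h4]; norm_num),
      if_neg (by rw [h4]; norm_num), rf, h4]
    simp only [zero_smul, sub_zero]
    ring
  · rw [if_neg (by rw [h4]; norm_num), if_pos (by rw [h4]), if_neg (by rw [h4]; norm_num)]

private lemma ktau_sq (hG : PosDef G) (D : TData G) (x y : R) {s t : S} (hne : t ≠ s)
    (f : PRoot G → R) : ktau D y t (lk D x y s (lk D x y s f)) =
      (1 - y) * ktau D y t (lk D x y s f) + y * ktau D y t f := by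
  unfold ktau
  rw [Finset.mul_sum, Finset.mul_sum, ← Finset.sum_add_distrib]
  refine Finset.sum_congr rfl fun γ _ => ?_
  by_cases h : γ.1 = sr s
  · rw [h, kT_other D y hne]; ring
  · rw [lk_sq hG D x y f h]; ring

theorem lk_comm (hG : PosDef G) (D : TData G) {s t : S} (h : ¬ G.Adj s t) (x y : R) :
    (lk D x y s : Module.End R (PRoot G → R)) * lk D x y t = lk D x y t * lk D x y s := by
  rcases eq_or_ne s t with rfl | hne
  · rfl
  have h' : ¬ G.Adj t s := fun h1 => h h1.symm
  -- one half
  have hhalf : ∀ {s t : S}, s ≠ t → ¬ G.Adj s t → ∀ f : PRoot G → R,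
      ext0 G (lk D x y s (lk D x y t f)) (sr s) = ext0 G (lk D x y t (lk D x y s f)) (sr s) := by
    intro s t hne h f
    have h' : ¬ G.Adj t s := fun h1 => h h1.symm
    have hp : pr G t (sr s) = 0 := by rw [pr_sr, cart_not_adj G hne.symm h']
    rw [lk_sr, ktau_far hG D x y hne h,
      lk_ne hG D x y _ (isPos_sr G s) (k_ne_of_pr (by rw [hp]; norm_num)), kps,
      if_neg (by rw [hp]; norm_num), rf, hp, zero_smul, sub_zero, lk_sr]
  refine LinearMap.ext fun f => funext fun γ => ?_
  rw [Module.End.mul_apply, Module.End.mul_apply]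
  have e0 : ∀ g : PRoot G → R, g γ = ext0 G g γ.1 := fun g => by rw [ext0_pos _ γ.2]
  rw [e0 (lk D x y s (lk D x y t f)), e0 (lk D x y t (lk D x y s f))]
  by_cases hs : γ.1 = sr s
  · rw [hs]; exact hhalf hne h f
  by_cases ht' : γ.1 = sr t
  · rw [ht']; exact (hhalf hne.symm h' f).symm
  have hcst : cart G s t = 0 := cart_not_adj G hne h
  have hcts : cart G t s = 0 := cart_not_adj G hne.symm h'
  have hfix : ∀ {s t : S}, cart G s t = 0 → cart G t s = 0 → rf G s (sr t) = sr t := by
    intro s t h1 _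
    rw [rf, pr_sr, h1, zero_smul, sub_zero]
  have hst1 : rf G s γ.1 ≠ sr t := by
    intro h1
    have h2 := congrArg (rf G s) h1
    rw [rf_rf, hfix hcst hcts] at h2
    exact ht' h2
  have hts1 : rf G t γ.1 ≠ sr s := by
    intro h1
    have h2 := congrArg (rf G t) h1
    rw [rf_rf, hfix hcts hcst] at h2
    exact hs h2
  rw [lk_ne hG D x y _ γ.2 hs, lk_ne hG D x y _ γ.2 ht', kps, kps,
    lk_ne hG D x y _ γ.2 ht', lk_ne hG D x y _ (γ.2.rf hG hs) hst1,
    lk_ne hG D x y _ γ.2 hs, lk_ne hG D x y _ (γ.2.rf hG ht') hts1]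
  simp only [kps, k_pr_rf, hcst, hcts, mul_zero, sub_zero]
  rw [rf_comm G h]
  split_ifs <;> ring

/-- the value at `sr s` -/
private lemma braid_at_s (hG : PosDef G) (D : TData G) {s t : S} (h : G.Adj s t) (x y : R)
    (f : PRoot G → R) :
    ext0 G (lk D x y s (lk D x y t (lk D x y s f))) (sr s) =
      ext0 G (lk D x y t (lk D x y s (lk D x y t f))) (sr s) := by
  have hp : pr G t (sr s) = -1 := by rw [pr_sr, cart_adj G h.symm]
  have hst : IsPos G (sr s + sr t) := k_st_pos h
  have h3 : pr G s (sr s + sr t) = 1 := by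
    rw [pr_add, pr_sr, pr_sr, cart_self, cart_adj G h]; norm_num
  rw [lk_sr, ktau_adj hG D x y h, ktau_sq hG D x y h.ne.symm, ← ktau_adj hG D x y h,
    lk_ne hG D x y _ (isPos_sr G s) (k_ne_of_pr (by rw [hp]; norm_num)), kps, if_pos hp, lk_sr,
    rf, hp, neg_one_smul, sub_neg_eq_add,
    lk_ne hG D x y _ hst (k_ne_of_pr (by rw [h3]; norm_num)), kps, if_neg (by rw [h3]; norm_num),
    rf, h3, one_smul, add_sub_cancel_left, lk_sr]
  ring

/-- the value at `sr s + sr t` -/
private lemma braid_at_st (hG : PosDef G) (D : TData G) {s t : S} (h : G.Adj s t) (x y : R)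
    (f : PRoot G → R) :
    ext0 G (lk D x y s (lk D x y t (lk D x y s f))) (sr s + sr t) =
      x * ktau D y t (lk D x y s f) := by
  have hst : IsPos G (sr s + sr t) := k_st_pos h
  have h3 : pr G s (sr s + sr t) = 1 := by
    rw [pr_add, pr_sr, pr_sr, cart_self, cart_adj G h]; norm_num
  rw [lk_ne hG D x y _ hst (k_ne_of_pr (by rw [h3]; norm_num)), kps,
    if_neg (by rw [h3]; norm_num), rf, h3, one_smul, add_sub_cancel_left, lk_sr]

/-- the rank two computation -/
private lemma kps_braid {y : R} {s t : S} (h : G.Adj s t) (F : (S → ℤ) → R) (w : S → ℤ)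
    (hc : (pr G s w = -1 ∧ pr G t w = 0) ∨ (pr G s w = -1 ∧ pr G t w = 1) ∨
      (pr G s w = 0 ∧ pr G t w = -1) ∨ (pr G s w = 0 ∧ pr G t w = 0) ∨
      (pr G s w = 0 ∧ pr G t w = 1) ∨ (pr G s w = 1 ∧ pr G t w = -1) ∨
      (pr G s w = 1 ∧ pr G t w = 0)) :
    kps G y s (kps G y t (kps G y s F)) w = kps G y t (kps G y s (kps G y t F)) w := by
  have hcst : cart G s t = -1 := cart_adj G h
  have hcts : cart G t s = -1 := cart_adj G h.symm
  have hbr : rf G s (rf G t (rf G s w)) = rf G t (rf G s (rf G t w)) := rf_braid G h w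
  have h0 : ∀ {u : S}, pr G u w = 0 → rf G u w = w := by
    intro u hu
    rw [rf, hu, zero_smul, sub_zero]
  simp only [kps, k_pr_rf, hcst, hcts, cart_self]
  rcases hc with ⟨h1, h2⟩ | ⟨h1, h2⟩ | ⟨h1, h2⟩ | ⟨h1, h2⟩ | ⟨h1, h2⟩ | ⟨h1, h2⟩ | ⟨h1, h2⟩
  · have hw : rf G t w = w := h0 h2
    simp only [h1, h2, hw, rf_rf] at hbr ⊢
    norm_num
    rw [hbr]
    ring
  · simp only [h1, h2, rf_rf]
    norm_num
    rw [hbr]
  · have hw : rf G s w = w := h0 h1
    simp only [h1, h2, hw, rf_rf] at hbr ⊢
    norm_num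
    rw [← hbr]
    ring
  · have hw : rf G s w = w := h0 h1
    have hw' : rf G t w = w := h0 h2
    simp only [h1, h2, hw, hw']
  · have hw : rf G s w = w := h0 h1
    simp only [h1, h2, hw, rf_rf] at hbr ⊢
    norm_num
    rw [← hbr]
  · simp only [h1, h2, rf_rf]
    norm_num
    rw [hbr]
  · have hw : rf G t w = w := h0 h2
    simp only [h1, h2, hw, rf_rf] at hbr ⊢
    norm_num
    rw [hbr]

theorem lk_braid3 (hG : PosDef G) (D : TData G) {s t : S} (h : G.Adj s t) (x y : R) :
    (lk D x y s : Module.End R (PRoot G → R)) * lk D x y t * lk D x y s =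
      lk D x y t * lk D x y s * lk D x y t := by
  refine LinearMap.ext fun f => funext fun γ => ?_
  simp only [Module.End.mul_apply]
  have e0 : ∀ g : PRoot G → R, g γ = ext0 G g γ.1 := fun g => by rw [ext0_pos _ γ.2]
  rw [e0 (lk D x y s (lk D x y t (lk D x y s f))), e0 (lk D x y t (lk D x y s (lk D x y t f)))]
  by_cases hs : γ.1 = sr s
  · rw [hs]; exact braid_at_s hG D h x y f
  by_cases ht' : γ.1 = sr t
  · rw [ht']; exact (braid_at_s hG D h.symm x y f).symm
  by_cases hst' : γ.1 = sr s + sr t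
  · rw [hst', braid_at_st hG D h x y f]
    have := braid_at_st hG D h.symm x y f
    rw [add_comm (sr t)] at this
    rw [this, ktau_adj hG D x y h]
  have hcst : cart G s t = -1 := cart_adj G h
  have hcts : cart G t s = -1 := cart_adj G h.symm
  -- the set of the other positive roots is stable under the reflections
  set N : (S → ℤ) → Prop := fun w => IsPos G w ∧ w ≠ sr s ∧ w ≠ sr t ∧ w ≠ sr s + sr t with hN
  have r1 : rf G s (sr t) = sr s + sr t := by
    rw [rf, pr_sr, hcst, neg_one_smul, sub_neg_eq_add, add_comm]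
  have r2 : rf G t (sr s) = sr s + sr t := by
    rw [rf, pr_sr, hcts, neg_one_smul, sub_neg_eq_add]
  have r3 : rf G s (sr s + sr t) = sr t := by rw [← r1, rf_rf]
  have r4 : rf G t (sr s + sr t) = sr s := by rw [← r2, rf_rf]
  have Ns : ∀ w, N w → N (rf G s w) := by
    rintro w ⟨n1, n2, n3, n4⟩
    refine ⟨n1.rf hG n2, k_rf_ne n1, ?_, ?_⟩
    · intro h1
      have h2 := congrArg (rf G s) h1
      rw [rf_rf, r1] at h2
      exact n4 h2
    · intro h1
      have h2 := congrArg (rf G s) h1
      rw [rf_rf, r3] at h2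
      exact n3 h2
  have Nt : ∀ w, N w → N (rf G t w) := by
    rintro w ⟨n1, n2, n3, n4⟩
    refine ⟨n1.rf hG n3, ?_, k_rf_ne n1, ?_⟩
    · intro h1
      have h2 := congrArg (rf G t) h1
      rw [rf_rf, r2] at h2
      exact n4 h2
    · intro h1
      have h2 := congrArg (rf G t) h1
      rw [rf_rf, r4] at h2
      exact n2 h2
  have es : ∀ (g : PRoot G → R) (w : S → ℤ), N w →
      ext0 G (lk D x y s g) w = kps G y s (ext0 G g) w := fun g w hw =>
    lk_ne hG D x y g hw.1 hw.2.1
  have et : ∀ (g : PRoot G → R) (w : S → ℤ), N w →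
      ext0 G (lk D x y t g) w = kps G y t (ext0 G g) w := fun g w hw =>
    lk_ne hG D x y g hw.1 hw.2.2.1
  have kcong : ∀ (u : S) (F F' : (S → ℤ) → R) (w : S → ℤ), F w = F' w →
      F (rf G u w) = F' (rf G u w) → kps G y u F w = kps G y u F' w := by
    intro u F F' w e1 e2
    unfold kps
    rw [e1, e2]
  have hγ : N γ.1 := ⟨γ.2, hs, ht', hst'⟩
  have L1 : ∀ w, N w → ext0 G (lk D x y t (lk D x y s f)) w =
      kps G y t (kps G y s (ext0 G f)) w := by
    intro w hw
    rw [et _ w hw]
    exact kcong t _ _ w (es f w hw) (es f _ (Nt w hw))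
  have L2 : ∀ w, N w → ext0 G (lk D x y s (lk D x y t f)) w =
      kps G y s (kps G y t (ext0 G f)) w := by
    intro w hw
    rw [es _ w hw]
    exact kcong s _ _ w (et f w hw) (et f _ (Ns w hw))
  have L3 : ext0 G (lk D x y s (lk D x y t (lk D x y s f))) γ.1 =
      kps G y s (kps G y t (kps G y s (ext0 G f))) γ.1 := by
    rw [es _ _ hγ]
    exact kcong s _ _ _ (L1 _ hγ) (L1 _ (Ns _ hγ))
  have L4 : ext0 G (lk D x y t (lk D x y s (lk D x y t f))) γ.1 =
      kps G y t (kps G y s (kps G y t (ext0 G f))) γ.1 := by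
    rw [et _ _ hγ]
    exact kcong t _ _ _ (L2 _ hγ) (L2 _ (Nt _ hγ))
  rw [L3, L4]
  -- the rank two computation
  refine kps_braid h _ _ ?_
  rcases γ.2.pr_cases hG hs with h1 | h1 | h1 <;> rcases γ.2.pr_cases hG ht' with h2 | h2 | h2
  · exact (k_not_neg hG h γ.2 h1 h2).elim
  · tauto
  · tauto
  · tauto
  · tauto
  · tauto
  · tauto
  · tauto
  · exact (hst' (k_eq_st hG h γ.2 h1 h2)).elim

theorem lk_braid (hG : PosDef G) (D : TData G) (x y : R) :
    IsBraid G (fun s => (lk D x y s : Module.End R (PRoot G → R))) :=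
  ⟨fun _ _ h => lk_comm hG D h x y, fun _ _ h => lk_braid3 hG D h x y⟩

end SPH
end

section

/-! # The Lawrence-Krammer type representation (job K3) -/

namespace SPH

open scoped Classical
open Polynomial

universe u v

set_option linter.unusedSectionVars false

variable {S : Type u} [Fintype S] [DecidableEq S] {G : SimpleGraph S}
variable [Fintype (PRoot G)] {R : Type v} [CommRing R]

private theorem lkRep_apply (D : TData G) (x y : R) (s : S) (f : PRoot G → R) (γ : PRoot G) :
    lk D x y s f γ = if γ.1 = sr s then x * ∑ β : PRoot G, aeval y (D.T s β.1) * f β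
    else if pr G s γ.1 = 0 then f γ
    else if pr G s γ.1 = 1 then ext0 G f (γ.1 - sr s)
    else (1 - y) * f γ + y * ext0 G f (γ.1 + sr s) := rfl

private theorem lkRep_ext0_of (f : PRoot G → R) {v : S → ℤ} (h : IsPos G v) :
    ext0 G f v = f ⟨v, h⟩ := by
  rw [ext0, dif_pos h]

private theorem lkRep_surj (hG : PosDef G) (D : TData G) (x y : Rˣ) (s : S) :
    Function.Surjective (lk D (x : R) (y : R) s : (PRoot G → R) →ₗ[R] (PRoot G → R)) := by
  intro g
  let f0 : PRoot G → R := fun γ =>
    if γ.1 = sr s then 0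
    else if pr G s γ.1 = 0 then g γ
    else if pr G s γ.1 = 1 then
      ((y⁻¹ : Rˣ) : R) * (ext0 G g (γ.1 - sr s) - (1 - (y : R)) * g γ)
    else ext0 G g (γ.1 + sr s)
  let σ : PRoot G := ⟨sr s, isPos_sr G s⟩
  let c : R := ((x⁻¹ : Rˣ) : R) * (((y⁻¹ : Rˣ) : R) * ((y⁻¹ : Rˣ) : R)) *
    (g σ - x * ∑ β : PRoot G, aeval (y : R) (D.T s β.1) * f0 β)
  let F : PRoot G → R := fun γ => f0 γ + if γ = σ then c else 0
  refine ⟨F, ?_⟩
  have hx : (x : R) * ((x⁻¹ : Rˣ) : R) = 1 := x.mul_inv
  have hy : (y : R) * ((y⁻¹ : Rˣ) : R) = 1 := y.mul_inv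
  have hf : ∀ γ : PRoot G, γ.1 ≠ sr s → F γ = f0 γ := by
    intro γ hγ
    have : γ ≠ σ := fun h => hγ (by rw [h])
    simp only [F]
    rw [if_neg this, add_zero]
  funext γ
  rw [lkRep_apply]
  by_cases h1 : γ.1 = sr s
  · rw [if_pos h1]
    have hγ : γ = σ := Subtype.ext h1
    have e1 : ∀ β : PRoot G, aeval (y : R) (D.T s β.1) * F β =
        aeval (y : R) (D.T s β.1) * f0 β +
          (if β = σ then aeval (y : R) (D.T s β.1) * c else 0) := by
      intro β
      simp only [F]
      by_cases hb : β = σ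
      · rw [if_pos hb, if_pos hb, mul_add]
      · rw [if_neg hb, if_neg hb, add_zero, add_zero]
    rw [Finset.sum_congr rfl fun β _ => e1 β, Finset.sum_add_distrib, Finset.sum_ite_eq' ]
    simp only [Finset.mem_univ, if_true]
    have e2 : aeval (y : R) (D.T s σ.1) = (y : R) * y := by
      show aeval (y : R) (D.T s (sr s)) = _
      rw [D.self]; simp [sq]
    rw [e2, hγ]
    set A := ∑ β : PRoot G, aeval (y : R) (D.T s β.1) * f0 β with hA
    have : c = ((x⁻¹ : Rˣ) : R) * (((y⁻¹ : Rˣ) : R) * ((y⁻¹ : Rˣ) : R)) * (g σ - x * A) := rfl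
    rw [this]
    calc (x : R) * (A + (y : R) * y * (((x⁻¹ : Rˣ) : R) * (((y⁻¹ : Rˣ) : R) * ((y⁻¹ : Rˣ) : R)) *
          (g σ - x * A)))
        = x * A + ((x : R) * ((x⁻¹ : Rˣ) : R)) * ((y : R) * ((y⁻¹ : Rˣ) : R)) *
          ((y : R) * ((y⁻¹ : Rˣ) : R)) * (g σ - x * A) := by ring
      _ = g σ := by rw [hx, hy]; ring
  rw [if_neg h1]
  by_cases h2 : pr G s γ.1 = 0
  · rw [if_pos h2, hf γ h1]
    simp only [f0]
    rw [if_neg h1, if_pos h2]
  rw [if_neg h2]
  have key : ∀ δ : S → ℤ, (hδ : IsPos G δ) → pr G s δ = -1 →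
      F ⟨δ, hδ⟩ = ext0 G g (δ + sr s) := by
    intro δ hδ hp
    have hne : δ ≠ sr s := by
      rintro rfl
      rw [pr_sr, cart_self] at hp
      norm_num at hp
    rw [hf ⟨δ, hδ⟩ hne]
    simp only [f0]
    rw [if_neg hne, if_neg (by rw [hp]; norm_num), if_neg (by rw [hp]; norm_num)]
  have key' : ∀ δ : S → ℤ, (hδ : IsPos G δ) → pr G s δ = 1 →
      F ⟨δ, hδ⟩ =
        ((y⁻¹ : Rˣ) : R) * (ext0 G g (δ - sr s) - (1 - (y : R)) * g ⟨δ, hδ⟩) := by
    intro δ hδ hp
    have hne : δ ≠ sr s := by
      rintro rfl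
      rw [pr_sr, cart_self] at hp
      norm_num at hp
    rw [hf ⟨δ, hδ⟩ hne]
    simp only [f0]
    rw [if_neg hne, if_neg (by rw [hp]; norm_num), if_pos hp]
  by_cases h3 : pr G s γ.1 = 1
  · rw [if_pos h3]
    have hp := IsPos.sub_sr hG γ.2 h3
    have hq : pr G s (γ.1 - sr s) = -1 := by
      rw [pr_sub, pr_sr, cart_self, h3]; norm_num
    rw [lkRep_ext0_of _ hp, key _ hp hq, sub_add_cancel, lkRep_ext0_of _ γ.2]
  · rw [if_neg h3]
    have h4 : pr G s γ.1 = -1 := by
      rcases IsPos.pr_cases hG γ.2 h1 with h | h | h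
      · exact h
      · exact absurd h h2
      · exact absurd h h3
    have hp : IsPos G (γ.1 + sr s) := IsPos.add_sr γ.2 h4
    have hq : pr G s (γ.1 + sr s) = 1 := by
      rw [pr_add, pr_sr, cart_self, h4]; norm_num
    have e3 := key γ.1 γ.2 h4
    have e4 : (⟨γ.1, γ.2⟩ : PRoot G) = γ := rfl
    rw [e4] at e3
    rw [lkRep_ext0_of F hp, e3, key' _ hp hq, add_sub_cancel_right,
      lkRep_ext0_of g hp, lkRep_ext0_of g γ.2, e4]
    calc (1 - (y : R)) * g ⟨γ.1 + sr s, hp⟩ +
          (y : R) * (((y⁻¹ : Rˣ) : R) * (g γ - (1 - (y : R)) * g ⟨γ.1 + sr s, hp⟩))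
        = (1 - (y : R)) * g ⟨γ.1 + sr s, hp⟩ +
          ((y : R) * ((y⁻¹ : Rˣ) : R)) * (g γ - (1 - (y : R)) * g ⟨γ.1 + sr s, hp⟩) := by ring
      _ = g γ := by rw [hy]; ring

theorem lk_isUnit (hG : PosDef G) (D : TData G) (x y : Rˣ) (s : S) :
    IsUnit (lk D (x : R) (y : R) s : Module.End R (PRoot G → R)) := by
  rw [Module.End.isUnit_iff]
  have h := lkRep_surj hG D x y s
  exact ⟨OrzechProperty.injective_of_surjective_endomorphism _ h, h⟩

theorem lkU_braid (hG : PosDef G) (D : TData G) (x y : Rˣ) :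
    IsBraid G (fun s => (lk_isUnit hG D x y s).unit) :=
  ⟨fun s s' h => Units.ext (by simpa using (lk_braid hG D (x : R) (y : R)).1 s s' h),
     fun s s' h => Units.ext (by simpa using (lk_braid hG D (x : R) (y : R)).2 s s' h)⟩

/-- The Lawrence-Krammer type representation. -/
noncomputable def lkRep (hG : PosDef G) (D : TData G) (x y : Rˣ) :
    AGrp G →* (Module.End R (PRoot G → R))ˣ :=
  AGrp.lift G (fun s => (lk_isUnit hG D x y s).unit) (lkU_braid hG D x y)

theorem lkRep_gen (hG : PosDef G) (D : TData G) (x y : Rˣ) (s : S) :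
    (lkRep hG D x y (gen G s)).val = lk D (x : R) (y : R) s := by
  rw [lkRep, AGrp.lift_gen]; exact IsUnit.unit_spec _

/-- naturality -/
theorem lk_map (D : TData G) {R' : Type*} [CommRing R'] (φ : R →+* R') (x y : R) (s : S)
    (f : PRoot G → R) (γ : PRoot G) :
    φ (lk D x y s f γ) = lk D (φ x) (φ y) s (fun β => φ (f β)) γ := by
  have ha : ∀ P : ℤ[X], φ (aeval y P) = aeval (φ y) P := by
    intro P
    rw [aeval_def, aeval_def, hom_eval₂]
    congr 1
    exact RingHom.ext_int _ _
  have he : ∀ v : S → ℤ, φ (ext0 G f v) = ext0 G (fun β => φ (f β)) v := by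
    intro v
    unfold ext0
    split_ifs
    · rfl
    · exact map_zero φ
  rw [lkRep_apply, lkRep_apply]
  split_ifs
  · rw [map_mul, map_sum]
    congr 1
    refine Finset.sum_congr rfl fun β _ => ?_
    rw [map_mul, ha]
  · rfl
  · exact he _
  · rw [map_add, map_mul, map_mul, map_sub, map_one, he]

/-- The test vectors. -/
noncomputable def vv (D : TData G) : List S → PRoot G → ℚ
  | [] => fun _ => 1
  | s :: l => lk D (0 : ℚ) (1 / 2) s (vv D l)

theorem vv_nonneg (D : TData G) (l : List S) (γ : PRoot G) : 0 ≤ vv D l γ := by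
  induction l generalizing γ with
  | nil => exact zero_le_one
  | cons s l ih =>
    have he : ∀ v : S → ℤ, 0 ≤ ext0 G (vv D l) v := by
      intro v
      unfold ext0
      split_ifs
      · exact ih _
      · exact le_refl _
    show 0 ≤ lk D (0 : ℚ) (1 / 2) s (vv D l) γ
    rw [lkRep_apply]
    split_ifs
    · rw [zero_mul]
    · exact ih _
    · exact he _
    · have h1 := ih γ
      have h2 := he (γ.1 + sr s)
      linarith

/-- The same vectors over `ℤ[X]`. -/
private noncomputable def lkRep_uu (D : TData G) : List S → PRoot G → ℤ[X]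
  | [] => fun _ => 1
  | s :: l => lk D (1 + 2 * X : ℤ[X]) (1 + X) s (lkRep_uu D l)

private theorem lkRep_uu_vv (D : TData G) (l : List S) (γ : PRoot G) :
    (eval₂RingHom (Int.castRingHom ℚ) (-1 / 2)) (lkRep_uu D l γ) = vv D l γ := by
  induction l generalizing γ with
  | nil => exact map_one _
  | cons s l ih =>
    show (eval₂RingHom (Int.castRingHom ℚ) (-1 / 2))
      (lk D (1 + 2 * X : ℤ[X]) (1 + X) s (lkRep_uu D l) γ) =
      lk D (0 : ℚ) (1 / 2) s (vv D l) γ
    rw [lk_map]
    have h1 : (eval₂RingHom (Int.castRingHom ℚ) (-1 / 2)) (1 + 2 * X : ℤ[X]) = 0 := by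
      simp [eval₂_ofNat]; norm_num
    have h2 : (eval₂RingHom (Int.castRingHom ℚ) (-1 / 2)) (1 + X : ℤ[X]) = 1 / 2 := by
      simp; norm_num
    rw [h1, h2]
    rw [show (fun β => (eval₂RingHom (Int.castRingHom ℚ) (-1 / 2)) (lkRep_uu D l β)) = vv D l from
      funext ih]

private theorem lkRep_uu_ps (hG : PosDef G) (D : TData G) (l : List S) :
    (fun γ => (Polynomial.coeToPowerSeries.ringHom (R := ℤ)) (lkRep_uu D l γ)) =
      (lkRep hG D xU tU (wd G l)).val (fun _ => 1) := by
  induction l with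
  | nil =>
    funext γ
    have : wd G ([] : List S) = 1 := rfl
    rw [this, map_one]
    show (Polynomial.coeToPowerSeries.ringHom (R := ℤ)) 1 = _
    rw [map_one]
    rfl
  | cons s l ih =>
    have : wd G (s :: l) = gen G s * wd G l := by
      rw [wd, List.map_cons, List.prod_cons]; rfl
    rw [this, map_mul, Units.val_mul, Module.End.mul_apply, lkRep_gen, ← ih]
    funext γ
    show (Polynomial.coeToPowerSeries.ringHom (R := ℤ))
      (lk D (1 + 2 * X : ℤ[X]) (1 + X) s (lkRep_uu D l) γ) = _
    rw [lk_map]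
    have h1 : (Polynomial.coeToPowerSeries.ringHom (R := ℤ)) (1 + 2 * X : ℤ[X]) =
        (xU : PowerSeries ℤ) := by
      rw [xU_val, map_add, map_one, map_mul, map_ofNat]; simp
    have h2 : (Polynomial.coeToPowerSeries.ringHom (R := ℤ)) (1 + X : ℤ[X]) =
        (tU : PowerSeries ℤ) := by
      rw [tU_val]; simp
    rw [h1, h2]

theorem vv_eq_of_lkRep_eq (hG : PosDef G) (D : TData G) (l l' : List S)
    (h : lkRep hG D xU tU (wd G l) = lkRep hG D xU tU (wd G l')) : vv D l = vv D l' := by
  have h1 := lkRep_uu_ps hG D l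
  have h2 := lkRep_uu_ps hG D l'
  rw [h, ← h2] at h1
  funext γ
  have h3 : (Polynomial.coeToPowerSeries.ringHom (R := ℤ)) (lkRep_uu D l γ) =
      (Polynomial.coeToPowerSeries.ringHom (R := ℤ)) (lkRep_uu D l' γ) := congrFun h1 γ
  have h4 : lkRep_uu D l γ = lkRep_uu D l' γ := Polynomial.coe_injective ℤ h3
  rw [← lkRep_uu_vv, ← lkRep_uu_vv, h4]

end SPH
end
end

section

section

/-! # Skew Hilbert basis theorem for group algebras (job R4) -/

namespace SPH

universe u v

section Abs

variable {S : Type u} {R : Type v} [Ring S] [Ring R] (ι : S →+* R) (w : R)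

/-- `x` is a combination of `1, w, ..., w ^ (n-1)` with coefficients in `S` on the right. -/
def HBP : ℕ → R → Prop
  | 0, x => x = 0
  | n + 1, x => ∃ s : S, HBP n (x - w ^ n * ι s)

variable {ι w}

theorem HBP.zero (n : ℕ) : HBP ι w n 0 := by
  induction n with
  | zero => rfl
  | succ n ih => exact ⟨0, by simpa using ih⟩

theorem HBP.add {n : ℕ} : ∀ {x y : R}, HBP ι w n x → HBP ι w n y → HBP ι w n (x + y) := by
  induction n with
  | zero =>
    intro x y hx hy
    have hx' : x = 0 := hx
    have hy' : y = 0 := hy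
    change x + y = 0
    rw [hx', hy', add_zero]
  | succ n ih =>
    rintro x y ⟨s, hs⟩ ⟨t, ht⟩
    refine ⟨s + t, ?_⟩
    have := ih hs ht
    have e : x + y - w ^ n * ι (s + t) = (x - w ^ n * ι s) + (y - w ^ n * ι t) := by
      rw [map_add, mul_add]; abel
    rwa [e]

theorem HBP.neg {n : ℕ} : ∀ {x : R}, HBP ι w n x → HBP ι w n (-x) := by
  induction n with
  | zero =>
    intro x hx
    have hx' : x = 0 := hx
    change -x = 0
    rw [hx', neg_zero]
  | succ n ih =>
    rintro x ⟨s, hs⟩
    refine ⟨-s, ?_⟩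
    have e : -x - w ^ n * ι (-s) = -(x - w ^ n * ι s) := by
      rw [map_neg, mul_neg]; abel
    rw [e]
    exact ih hs

theorem HBP.sub {n : ℕ} {x y : R} (hx : HBP ι w n x) (hy : HBP ι w n y) :
    HBP ι w n (x - y) := by
  rw [sub_eq_add_neg]
  exact hx.add hy.neg

theorem HBP.step {n : ℕ} {x : R} (hx : HBP ι w n x) : HBP ι w (n + 1) x :=
  ⟨0, by simpa using hx⟩

theorem HBP.mono {n m : ℕ} (h : n ≤ m) {x : R} (hx : HBP ι w n x) : HBP ι w m x := by
  induction m, h using Nat.le_induction with
  | base => exact hx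
  | succ m _ ih => exact ih.step

theorem HBP.mulw {n : ℕ} : ∀ {x : R}, HBP ι w n x → HBP ι w (n + 1) (w * x) := by
  induction n with
  | zero =>
    intro x hx
    have hx' : x = 0 := hx
    rw [hx', mul_zero]
    exact HBP.zero 1
  | succ n ih =>
    rintro x ⟨s, hs⟩
    refine ⟨s, ?_⟩
    have e : w * x - w ^ (n + 1) * ι s = w * (x - w ^ n * ι s) := by
      rw [mul_sub, pow_succ', mul_assoc]
    rw [e]
    exact ih hs

theorem HBP.mulwpow {n : ℕ} (k : ℕ) {x : R} (hx : HBP ι w n x) :
    HBP ι w (n + k) (w ^ k * x) := by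
  induction k with
  | zero => simpa using hx
  | succ k ih =>
    have := ih.mulw
    rw [pow_succ', mul_assoc]
    exact this

theorem hb_pow_left (h1 : ∀ s, ∃ s', ι s * w = w * ι s') (n : ℕ) :
    ∀ s, ∃ s', ι s * w ^ n = w ^ n * ι s' := by
  induction n with
  | zero => intro s; exact ⟨s, by simp⟩
  | succ n ih =>
    intro s
    obtain ⟨s1, e1⟩ := h1 s
    obtain ⟨s2, e2⟩ := ih s1
    exact ⟨s2, by rw [pow_succ', ← mul_assoc, e1, mul_assoc, e2, ← mul_assoc]⟩

theorem hb_pow_right (h2 : ∀ s, ∃ s', ι s' * w = w * ι s) (n : ℕ) :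
    ∀ s, ∃ s', ι s' * w ^ n = w ^ n * ι s := by
  induction n with
  | zero => intro s; exact ⟨s, by simp⟩
  | succ n ih =>
    intro s
    obtain ⟨s1, e1⟩ := ih s
    obtain ⟨s2, e2⟩ := h2 s1
    exact ⟨s2, by rw [pow_succ', ← mul_assoc, e2, mul_assoc, e1, ← mul_assoc]⟩

theorem HBP.smul (h1 : ∀ s, ∃ s', ι s * w = w * ι s') (r : S) {n : ℕ} :
    ∀ {x : R}, HBP ι w n x → HBP ι w n (ι r * x) := by
  induction n with
  | zero =>
    intro x hx
    have hx' : x = 0 := hx
    change ι r * x = 0
    rw [hx', mul_zero]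
  | succ n ih =>
    rintro x ⟨s, hs⟩
    obtain ⟨r', hr'⟩ := hb_pow_left h1 n r
    refine ⟨r' * s, ?_⟩
    have e : ι r * x - w ^ n * ι (r' * s) = ι r * (x - w ^ n * ι s) := by
      rw [mul_sub, ← mul_assoc (ι r), hr', map_mul, mul_assoc]
    rw [e]
    exact ih hs

/-- the ideal of leading coefficients -/
def hbL (h1 : ∀ s, ∃ s', ι s * w = w * ι s') (h2 : ∀ s, ∃ s', ι s' * w = w * ι s)
    (I : Ideal R) (n : ℕ) : Ideal S where
  carrier := {r | ∃ x ∈ I, HBP ι w n (x - w ^ n * ι r)}
  zero_mem' := ⟨0, I.zero_mem, by simpa using HBP.zero n⟩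
  add_mem' := by
    rintro r s ⟨x, hx, hx'⟩ ⟨y, hy, hy'⟩
    refine ⟨x + y, I.add_mem hx hy, ?_⟩
    have e : x + y - w ^ n * ι (r + s) = (x - w ^ n * ι r) + (y - w ^ n * ι s) := by
      rw [map_add, mul_add]; abel
    rw [e]
    exact hx'.add hy'
  smul_mem' := by
    rintro r s ⟨x, hx, hx'⟩
    obtain ⟨r', hr'⟩ := hb_pow_right h2 n r
    refine ⟨ι r' * x, I.mul_mem_left _ hx, ?_⟩
    have e : ι r' * x - w ^ n * ι (r • s) = ι r' * (x - w ^ n * ι s) := by
      rw [mul_sub, ← mul_assoc (ι r'), hr', smul_eq_mul, map_mul, mul_assoc]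
    rw [e]
    exact hx'.smul h1 r'

theorem mem_hbL {h1 : ∀ s, ∃ s', ι s * w = w * ι s'} {h2 : ∀ s, ∃ s', ι s' * w = w * ι s}
    {I : Ideal R} {n : ℕ} {r : S} :
    r ∈ hbL h1 h2 I n ↔ ∃ x ∈ I, HBP ι w n (x - w ^ n * ι r) := Iff.rfl

theorem hbL_mono (h1 : ∀ s, ∃ s', ι s * w = w * ι s') (h2 : ∀ s, ∃ s', ι s' * w = w * ι s)
    (I : Ideal R) (n : ℕ) : hbL h1 h2 I n ≤ hbL h1 h2 I (n + 1) := by
  rintro r ⟨x, hx, hx'⟩
  refine ⟨w * x, I.mul_mem_left _ hx, ?_⟩
  have e : w * x - w ^ (n + 1) * ι r = w * (x - w ^ n * ι r) := by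
    rw [mul_sub, pow_succ', mul_assoc]
  rw [e]
  exact hx'.mulw

theorem hbL_ideal_mono (h1 : ∀ s, ∃ s', ι s * w = w * ι s')
    (h2 : ∀ s, ∃ s', ι s' * w = w * ι s) {I J : Ideal R} (h : J ≤ I) (n : ℕ) :
    hbL h1 h2 J n ≤ hbL h1 h2 I n := by
  rintro r ⟨x, hx, hx'⟩
  exact ⟨x, h hx, hx'⟩

theorem hb_le (h1 : ∀ s, ∃ s', ι s * w = w * ι s') (h2 : ∀ s, ∃ s', ι s' * w = w * ι s)
    (hw : IsUnit w) (hex : ∀ x : R, ∃ k n : ℕ, HBP ι w n (w ^ k * x)) {I J : Ideal R}
    (hJI : J ≤ I) (h : ∀ n, hbL h1 h2 I n ≤ hbL h1 h2 J n) : I ≤ J := by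
  have key : ∀ n : ℕ, ∀ y ∈ I, HBP ι w n y → y ∈ J := by
    intro n
    induction n with
    | zero =>
      intro y _ hy
      have hy' : y = 0 := hy
      rw [hy']
      exact J.zero_mem
    | succ n ih =>
      rintro y hy ⟨s, hs⟩
      obtain ⟨x, hx, hx'⟩ := h n (⟨y, hy, hs⟩ : s ∈ hbL h1 h2 I n)
      have e : y - x = (y - w ^ n * ι s) - (x - w ^ n * ι s) := by abel
      have h3 : y - x ∈ J := ih (y - x) (I.sub_mem hy (hJI hx)) (by rw [e]; exact hs.sub hx')
      have := J.add_mem h3 hx
      rwa [sub_add_cancel] at this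
  intro y hy
  obtain ⟨k, n, hk⟩ := hex y
  have h3 := key n (w ^ k * y) (I.mul_mem_left _ hy) hk
  obtain ⟨v, hv⟩ := hw
  have h4 := J.mul_mem_left (((v ^ k)⁻¹ : Rˣ) : R) h3
  rw [← hv, ← mul_assoc, ← Units.val_pow_eq_pow_val, ← Units.val_mul,
    inv_mul_cancel, Units.val_one, one_mul] at h4
  exact h4

theorem isNoetherianRing_of_skew (h1 : ∀ s, ∃ s', ι s * w = w * ι s')
    (h2 : ∀ s, ∃ s', ι s' * w = w * ι s)
    (hw : IsUnit w) (hex : ∀ x : R, ∃ k n : ℕ, HBP ι w n (w ^ k * x))
    (hS : IsNoetherianRing S) : IsNoetherianRing R := by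
  classical
  refine ⟨fun I => ?_⟩
  obtain ⟨n₀, hn₀⟩ := (monotone_stabilizes_iff_noetherian (R := S) (M := S)).mpr hS
    ⟨hbL h1 h2 I, monotone_nat_of_le_succ (hbL_mono h1 h2 I)⟩
  have hfg : ∀ n, ∃ T : Finset S, Ideal.span (T : Set S) = hbL h1 h2 I n := fun n =>
    hS.noetherian (hbL h1 h2 I n)
  choose T hT using hfg
  have hwit : ∀ n, ∀ r : S, ∃ x : R, r ∈ hbL h1 h2 I n → x ∈ I ∧ HBP ι w n (x - w ^ n * ι r) := by
    intro n r
    by_cases hr : r ∈ hbL h1 h2 I n
    · obtain ⟨x, hx, hx'⟩ := hr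
      exact ⟨x, fun _ => ⟨hx, hx'⟩⟩
    · exact ⟨0, fun h => absurd h hr⟩
  choose X hX using hwit
  let Gs : Finset R := (Finset.range (n₀ + 1)).biUnion fun n => (T n).image (X n)
  have hGI : Ideal.span (Gs : Set R) ≤ I := by
    rw [Ideal.span_le]
    intro x hx
    obtain ⟨n, _, hn⟩ := Finset.mem_biUnion.mp (Finset.mem_coe.mp hx)
    obtain ⟨r, hr, rfl⟩ := Finset.mem_image.mp hn
    exact (hX n r (by rw [← hT n]; exact Ideal.subset_span hr)).1
  have hlow : ∀ n, n ≤ n₀ → hbL h1 h2 I n ≤ hbL h1 h2 (Ideal.span (Gs : Set R)) n := by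
    intro n hn
    rw [← hT n, Ideal.span_le]
    intro r hr
    have hrL : r ∈ hbL h1 h2 I n := by rw [← hT n]; exact Ideal.subset_span hr
    refine ⟨X n r, Ideal.subset_span ?_, (hX n r hrL).2⟩
    exact Finset.mem_coe.mpr (Finset.mem_biUnion.mpr ⟨n, Finset.mem_range.mpr (by omega),
      Finset.mem_image.mpr ⟨r, hr, rfl⟩⟩)
  have hall : ∀ n, hbL h1 h2 I n ≤ hbL h1 h2 (Ideal.span (Gs : Set R)) n := by
    intro n
    rcases le_total n n₀ with hn | hn
    · exact hlow n hn
    · have e1 : hbL h1 h2 I n₀ = hbL h1 h2 I n := hn₀ n hn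
      rw [← e1]
      exact (hlow n₀ le_rfl).trans
        (monotone_nat_of_le_succ (hbL_mono h1 h2 (Ideal.span (Gs : Set R))) hn)
  have := le_antisymm (hb_le h1 h2 hw hex hGI hall) hGI
  rw [this]
  exact ⟨Gs, rfl⟩

end Abs

theorem isNoetherianRing_of_ker_int {K : Type u} [Field K] {N : Type u} [Group N]
    (f : N →* Multiplicative ℤ) (hf : Function.Surjective f)
    (h : IsNoetherianRing (MonoidAlgebra K f.ker)) : IsNoetherianRing (MonoidAlgebra K N) := by
  obtain ⟨g, hg⟩ := hf (Multiplicative.ofAdd 1)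
  let ι : MonoidAlgebra K f.ker →+* MonoidAlgebra K N :=
    MonoidAlgebra.mapDomainRingHom K f.ker.subtype
  have hι : ∀ (a : f.ker) (c : K), ι (MonoidAlgebra.single a c) =
      MonoidAlgebra.single (a : N) c := by
    intro a c
    simp [ι]
  let w : MonoidAlgebra K N := MonoidAlgebra.single g 1
  have hwpow : ∀ k : ℕ, w ^ k = MonoidAlgebra.single (g ^ k) 1 := by
    intro k
    induction k with
    | zero => simp [MonoidAlgebra.one_def]
    | succ k ih => rw [pow_succ, ih, MonoidAlgebra.single_mul_single, pow_succ, one_mul]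
  have hw : IsUnit w := by
    refine ⟨⟨w, MonoidAlgebra.single g⁻¹ 1, ?_, ?_⟩, rfl⟩
    · simp [w, MonoidAlgebra.one_def]
    · simp [w, MonoidAlgebra.one_def]
  have h1 : ∀ s, ∃ s', ι s * w = w * ι s' := by
    intro s
    induction s using MonoidAlgebra.induction_linear with
    | zero => exact ⟨0, by simp⟩
    | add x y hx hy =>
      obtain ⟨x', hx'⟩ := hx
      obtain ⟨y', hy'⟩ := hy
      exact ⟨x' + y', by rw [map_add, add_mul, hx', hy', map_add, mul_add]⟩
    | single a c =>
      have ha : g⁻¹ * (a : N) * g ∈ f.ker := by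
        have : f (a : N) = 1 := a.2
        rw [MonoidHom.mem_ker, map_mul, map_mul, this, mul_one, map_inv, inv_mul_cancel]
      refine ⟨MonoidAlgebra.single ⟨g⁻¹ * a * g, ha⟩ c, ?_⟩
      rw [hι, hι, MonoidAlgebra.single_mul_single, MonoidAlgebra.single_mul_single, mul_one,
        one_mul]
      congr 1
      group
  have h2 : ∀ s, ∃ s', ι s' * w = w * ι s := by
    intro s
    induction s using MonoidAlgebra.induction_linear with
    | zero => exact ⟨0, by simp⟩
    | add x y hx hy =>
      obtain ⟨x', hx'⟩ := hx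
      obtain ⟨y', hy'⟩ := hy
      exact ⟨x' + y', by rw [map_add, add_mul, hx', hy', map_add, mul_add]⟩
    | single a c =>
      have ha : g * (a : N) * g⁻¹ ∈ f.ker := by
        have : f (a : N) = 1 := a.2
        rw [MonoidHom.mem_ker, map_mul, map_mul, this, mul_one, map_inv, mul_inv_cancel]
      refine ⟨MonoidAlgebra.single ⟨g * a * g⁻¹, ha⟩ c, ?_⟩
      rw [hι, hι, MonoidAlgebra.single_mul_single, MonoidAlgebra.single_mul_single, mul_one,
        one_mul]
      congr 1
      group
  refine isNoetherianRing_of_skew h1 h2 hw ?_ h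
  intro x
  induction x using MonoidAlgebra.induction_linear with
  | zero => exact ⟨0, 0, by simpa using HBP.zero 0⟩
  | add x y hx hy =>
    obtain ⟨k, n, hk⟩ := hx
    obtain ⟨l, m, hl⟩ := hy
    refine ⟨k + l, max (n + l) (m + k), ?_⟩
    have e : w ^ (k + l) * (x + y) = w ^ l * (w ^ k * x) + w ^ k * (w ^ l * y) := by
      rw [mul_add, ← mul_assoc, ← pow_add, ← mul_assoc, ← pow_add, add_comm l k]
    rw [e]
    exact ((hk.mulwpow l).mono (le_max_left _ _)).add ((hl.mulwpow k).mono (le_max_right _ _))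
  | single m c =>
    set d : ℤ := Multiplicative.toAdd (f m) with hd
    -- choose `k` and `e` with `k + d = e`
    obtain ⟨k, e, hke⟩ : ∃ k e : ℕ, (k : ℤ) + d = e :=
      ⟨d.natAbs, (d.natAbs + d).toNat, by omega⟩
    have hker : (g ^ e)⁻¹ * (g ^ k * m) ∈ f.ker := by
      rw [MonoidHom.mem_ker, map_mul, map_mul, map_inv, map_pow, map_pow, hg]
      have : f m = Multiplicative.ofAdd d := by rw [hd]; rfl
      rw [this]
      apply Multiplicative.toAdd.injective
      simp
      omega
    refine ⟨k, e + 1, MonoidAlgebra.single ⟨(g ^ e)⁻¹ * (g ^ k * m), hker⟩ c, ?_⟩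
    have e1 : w ^ k * MonoidAlgebra.single m c -
        w ^ e * ι (MonoidAlgebra.single ⟨(g ^ e)⁻¹ * (g ^ k * m), hker⟩ c) = 0 := by
      rw [hι, hwpow, hwpow, MonoidAlgebra.single_mul_single, MonoidAlgebra.single_mul_single]
      simp
    rw [e1]
    exact HBP.zero e

end SPH
end

section

/-! # Group algebras of poly-Z groups are Noetherian domains (job R6) -/

namespace SPH

universe u v

theorem uniqueProds_of_ker {G : Type u} {H : Type v} [Group G] [Group H] (f : G →* H)
    [UniqueProds H] [UniqueProds f.ker] : UniqueProds G := by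
  classical
  refine ⟨fun {A B} hA hB => ?_⟩
  obtain ⟨h1, hh1, h2, hh2, hH⟩ :=
    UniqueProds.uniqueMul_of_nonempty (hA.image f) (hB.image f)
  obtain ⟨a0, ha0, rfl⟩ := Finset.mem_image.1 hh1
  obtain ⟨b0, hb0, rfl⟩ := Finset.mem_image.1 hh2
  -- translates of the fibres
  let A1 : Finset f.ker := (A.image (fun a => a0⁻¹ * a)).subtype (fun g => g ∈ f.ker)
  let B1 : Finset f.ker := (B.image (fun b => b * b0⁻¹)).subtype (fun g => g ∈ f.ker)
  have hA1 : ∀ u : f.ker, u ∈ A1 ↔ a0 * (u : G) ∈ A := by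
    intro u
    simp only [A1, Finset.mem_subtype, Finset.mem_image]
    constructor
    · rintro ⟨a, ha, h⟩
      rw [← h, mul_inv_cancel_left]; exact ha
    · intro h
      exact ⟨_, h, inv_mul_cancel_left _ _⟩
  have hB1 : ∀ v : f.ker, v ∈ B1 ↔ (v : G) * b0 ∈ B := by
    intro v
    simp only [B1, Finset.mem_subtype, Finset.mem_image]
    constructor
    · rintro ⟨b, hb, h⟩
      rw [← h, inv_mul_cancel_right]; exact hb
    · intro h
      exact ⟨_, h, mul_inv_cancel_right _ _⟩
  have nA : A1.Nonempty := ⟨1, (hA1 1).2 (by simpa using ha0)⟩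
  have nB : B1.Nonempty := ⟨1, (hB1 1).2 (by simpa using hb0)⟩
  obtain ⟨u, hu, v, hv, huv⟩ := UniqueProds.uniqueMul_of_nonempty nA nB
  refine ⟨a0 * u, (hA1 u).1 hu, v * b0, (hB1 v).1 hv, ?_⟩
  intro a b ha hb hab
  have hfu : f (u : G) = 1 := u.2
  have hfv : f (v : G) = 1 := v.2
  have h3 : f a * f b = f a0 * f b0 := by
    rw [← map_mul, hab]
    simp [map_mul, hfu, hfv]
  obtain ⟨h4, h5⟩ := hH (Finset.mem_image_of_mem f ha) (Finset.mem_image_of_mem f hb) h3
  have ku : a0⁻¹ * a ∈ f.ker := by rw [MonoidHom.mem_ker, map_mul, map_inv, h4, inv_mul_cancel]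
  have kv : b * b0⁻¹ ∈ f.ker := by rw [MonoidHom.mem_ker, map_mul, map_inv, h5, mul_inv_cancel]
  have h6 := @huv ⟨a0⁻¹ * a, ku⟩ ⟨b * b0⁻¹, kv⟩
    ((hA1 _).2 (by simpa using ha)) ((hB1 _).2 (by simpa using hb)) (by
      apply Subtype.ext
      show a0⁻¹ * a * (b * b0⁻¹) = (u : G) * (v : G)
      have : a0⁻¹ * a * (b * b0⁻¹) = a0⁻¹ * (a * b) * b0⁻¹ := by group
      rw [this, hab]; group)
  obtain ⟨h7, h8⟩ := h6
  have h9 : a0⁻¹ * a = (u : G) := congrArg Subtype.val h7
  have h10 : b * b0⁻¹ = (v : G) := congrArg Subtype.val h8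
  constructor
  · rw [← h9, mul_inv_cancel_left]
  · rw [← h10, inv_mul_cancel_right]

theorem PolyZ.uniqueProds {N : Type u} [Group N] (h : PolyZ N) : UniqueProds N := by
  induction h with
  | triv N =>
    refine ⟨fun {A B} hA hB => ?_⟩
    obtain ⟨a, ha⟩ := hA
    obtain ⟨b, hb⟩ := hB
    exact ⟨a, ha, b, hb, UniqueMul.of_subsingleton⟩
  | ext N f hf h ih =>
    have := ih
    exact uniqueProds_of_ker f

theorem PolyZ.isDomain (K : Type u) [Field K] {N : Type u} [Group N] (h : PolyZ N) :
    IsDomain (MonoidAlgebra K N) := by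
  have := h.uniqueProds
  infer_instance

theorem PolyZ.isNoetherianRing (K : Type u) [Field K] {N : Type u} [Group N] (h : PolyZ N) :
    IsNoetherianRing (MonoidAlgebra K N) := by
  induction h with
  | triv N =>
    exact isNoetherianRing_of_ringEquiv K (MonoidAlgebra.uniqueRingEquiv (R := K) N).symm
  | ext N f hf h ih => exact isNoetherianRing_of_ker_int f hf ih

end SPH
end

section

/-! # Rank of idempotent matrices is preserved by the augmentation (job R11) -/

namespace SPH

universe u v

open Matrix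

private theorem idm_rank_add {R : Type u} [Ring R] [IsDomain R] [IsNoetherianRing R]
    {ι : Type u} [Fintype ι] [DecidableEq ι] (E : Matrix ι ι R) (hE : E * E = E) :
    Module.finrank R (LinearMap.range (Matrix.toLinearMapRight' E)) +
      Module.finrank R (LinearMap.range (Matrix.toLinearMapRight' (1 - E))) =
        Fintype.card ι := by
  have h1 := finrank_ker_add_finrank_range (Matrix.toLinearMapRight' E)
  have h2 : LinearMap.ker (Matrix.toLinearMapRight' E) =
      LinearMap.range (Matrix.toLinearMapRight' (1 - E)) := by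
    ext v
    rw [LinearMap.mem_ker, LinearMap.mem_range]
    simp only [Matrix.toLinearMapRight'_apply]
    constructor
    · intro h
      refine ⟨v, ?_⟩
      rw [Matrix.vecMul_sub, Matrix.vecMul_one, h, sub_zero]
    · rintro ⟨w, rfl⟩
      rw [Matrix.vecMul_vecMul, sub_mul, one_mul, hE, sub_self, Matrix.vecMul_zero]
  rw [h2, Module.finrank_fintype_fun_eq_card] at h1
  omega

private theorem idm_rank_le {R R' : Type u} [Ring R] [Nontrivial R] [IsNoetherianRing R]
    [Ring R'] (F : R →+* R') (hF : Function.Surjective F) {ι : Type u} [Fintype ι]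
    [DecidableEq ι] (E : Matrix ι ι R)
    (hl : ∀ (n : ℕ) (y : Fin n → ι → R),
      (∀ a : Fin n → R, ∑ j, a j • y j = 0 → ∀ j, F (a j) = 0) →
        ∀ a : Fin n → R, ∑ j, a j • y j = 0 → ∀ j, a j = 0) :
    Module.finrank R' (LinearMap.range (Matrix.toLinearMapRight' (E.map F))) ≤
      Module.finrank R (LinearMap.range (Matrix.toLinearMapRight' E)) := by
  obtain ⟨y', hy'⟩ := exists_linearIndependent_of_le_finrank (le_refl
    (Module.finrank R' (LinearMap.range (Matrix.toLinearMapRight' (E.map F)))))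
  have hx' : ∀ j, ∃ x : ι → R, (fun i => F (x i)) ᵥ* (E.map F) = (y' j : ι → R') := by
    intro j
    obtain ⟨x', hx'⟩ := (y' j).2
    choose x hx using fun i => hF (x' i)
    refine ⟨x, ?_⟩
    rw [← hx', Matrix.toLinearMapRight'_apply]
    congr 1
    funext i
    exact hx i
  choose x hx using hx'
  let y : Fin (Module.finrank R' (LinearMap.range (Matrix.toLinearMapRight' (E.map F)))) →
      LinearMap.range (Matrix.toLinearMapRight' E) :=
    fun j => ⟨Matrix.toLinearMapRight' E (x j), x j, rfl⟩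
  have hind : LinearIndependent R y := by
    rw [Fintype.linearIndependent_iff]
    intro a ha
    apply hl _ (fun j => (y j : ι → R)) _ a
    · simpa using congrArg Subtype.val ha
    · intro a ha j
      rw [Fintype.linearIndependent_iff] at hy'
      apply hy' (fun j => F (a j)) _ j
      apply Subtype.ext
      funext i
      have h1 := congrArg F (congrFun ha i)
      simp only [Finset.sum_apply, Pi.smul_apply, smul_eq_mul, map_sum, map_mul, Pi.zero_apply,
        map_zero] at h1
      simp only [Submodule.coe_sum, Submodule.coe_smul, Finset.sum_apply, Pi.smul_apply,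
        smul_eq_mul, ZeroMemClass.coe_zero, Pi.zero_apply]
      rw [← h1]
      refine Finset.sum_congr rfl fun k _ => ?_
      rw [← hx k]
      congr 1
      change _ = F ((x k ᵥ* E) i)
      rw [RingHom.map_vecMul]
      rfl
  have h3 := hind.fintype_card_le_finrank
  simpa using h3

private theorem idm_chain {R K : Type u} [Ring R] [IsDomain R] [IsNoetherianRing R] [Field K]
    (ζ : R) (ε : R →+* K) (hε : ε ζ = 0) (b : ℕ → R) (hb : ∀ n, b n = ζ * b (n + 1)) :
    b 0 = 0 := by
  have hmono : Monotone fun n => Submodule.span R {b n} := by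
    apply monotone_nat_of_le_succ
    intro n
    rw [Submodule.span_singleton_le_iff_mem, Submodule.mem_span_singleton]
    exact ⟨ζ, (hb n).symm⟩
  obtain ⟨n, hn⟩ := monotone_stabilizes_iff_noetherian.mpr (inferInstance : IsNoetherian R R)
    ⟨_, hmono⟩
  have h1 : b (n + 1) ∈ Submodule.span R {b n} := by
    have := hn (n + 1) (Nat.le_succ n)
    simp only [OrderHom.coe_mk] at this
    rw [this]
    exact Submodule.mem_span_singleton_self _
  obtain ⟨c, hc⟩ := Submodule.mem_span_singleton.mp h1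
  have h2 : (1 - c * ζ) * b (n + 1) = 0 := by
    rw [sub_mul, one_mul, mul_assoc, ← hb n, ← smul_eq_mul c, hc, sub_self]
  have h3 : b (n + 1) = 0 := by
    rcases mul_eq_zero.mp h2 with h | h
    · exfalso
      have h4 := congrArg ε h
      simp [hε] at h4
    · exact h
  have h5 : ∀ m, b 0 = ζ ^ m * b m := by
    intro m
    induction m with
    | zero => simp
    | succ m ih => rw [ih, pow_succ, mul_assoc, ← hb m]
  rw [h5 (n + 1), h3, mul_zero]

private noncomputable def idmZ (K : Type u) [Field K] {N : Type u} [Group N] (z : N) :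
    MonoidAlgebra K N := MonoidAlgebra.single z 1 - 1

private theorem idmZ_comm (K : Type u) [Field K] {N : Type u} [Group N] (z : N)
    (hz : z ∈ Subgroup.center N) (x : MonoidAlgebra K N) : idmZ K z * x = x * idmZ K z := by
  induction x using MonoidAlgebra.induction_linear with
  | zero => simp
  | add x y hx hy => rw [mul_add, add_mul, hx, hy]
  | single g c =>
    rw [idmZ, sub_mul, mul_sub, one_mul, mul_one, MonoidAlgebra.single_mul_single,
      MonoidAlgebra.single_mul_single, one_mul, mul_one, (Subgroup.mem_center_iff.mp hz g)]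

private theorem idmZ_pow (K : Type u) [Field K] {N : Type u} [Group N] (z : N)
    (hz : z ∈ Subgroup.center N) (k : ℤ) :
    ∃ b : MonoidAlgebra K N, MonoidAlgebra.single (z ^ k) 1 - 1 = idmZ K z * b := by
  have hnat : ∀ n : ℕ, ∃ b : MonoidAlgebra K N,
      MonoidAlgebra.single (z ^ n) 1 - 1 = idmZ K z * b := by
    intro n
    refine ⟨∑ i ∈ Finset.range n, (MonoidAlgebra.single z 1) ^ i, ?_⟩
    rw [idmZ, mul_geom_sum, MonoidAlgebra.single_pow, one_pow]
  rcases Int.eq_nat_or_neg k with ⟨n, rfl | rfl⟩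
  · obtain ⟨b, hb⟩ := hnat n
    exact ⟨b, by rw [zpow_natCast, hb]⟩
  · obtain ⟨b, hb⟩ := hnat n
    refine ⟨-(MonoidAlgebra.single (z ^ (-(n : ℤ))) 1 * b), ?_⟩
    rw [mul_neg, ← mul_assoc, idmZ_comm K z hz, mul_assoc, ← hb, mul_sub, mul_one,
      MonoidAlgebra.single_mul_single, _root_.zpow_neg, _root_.zpow_natCast, inv_mul_cancel, one_mul,
      ← MonoidAlgebra.one_def, neg_sub]

private theorem idm_ker (K : Type u) [Field K] {N N' : Type u} [Group N] [Group N'] (f : N →* N')
    (hf : Function.Surjective f) (z : N) (hz : z ∈ Subgroup.center N)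
    (hker : f.ker = Subgroup.zpowers z) (a : MonoidAlgebra K N)
    (ha : MonoidAlgebra.mapDomainRingHom K f a = 0) : ∃ b, a = idmZ K z * b := by
  choose s hs using hf
  have key : ∀ a : MonoidAlgebra K N, ∃ b,
      a - MonoidAlgebra.mapDomain s (MonoidAlgebra.mapDomain f a) = idmZ K z * b := by
    intro a
    induction a using MonoidAlgebra.induction_linear with
    | zero => exact ⟨0, by simp [MonoidAlgebra.mapDomain_zero]⟩
    | add x y hx hy =>
      obtain ⟨b, hb⟩ := hx
      obtain ⟨c, hc⟩ := hy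
      refine ⟨b + c, ?_⟩
      rw [mul_add, ← hb, ← hc, MonoidAlgebra.mapDomain_add, MonoidAlgebra.mapDomain_add]
      abel
    | single g c =>
      have hg : (s (f g))⁻¹ * g ∈ f.ker := by
        rw [MonoidHom.mem_ker, map_mul, map_inv, hs, inv_mul_cancel]
      rw [hker, Subgroup.mem_zpowers_iff] at hg
      obtain ⟨k, hk⟩ := hg
      obtain ⟨b, hb⟩ := idmZ_pow K z hz k
      refine ⟨MonoidAlgebra.single (s (f g)) c * b, ?_⟩
      rw [MonoidAlgebra.mapDomain_single, MonoidAlgebra.mapDomain_single, ← mul_assoc,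
        idmZ_comm K z hz, mul_assoc, ← hb, mul_sub, mul_one, MonoidAlgebra.single_mul_single,
        mul_one, hk, mul_inv_cancel_left]
  obtain ⟨b, hb⟩ := key a
  refine ⟨b, ?_⟩
  have h0 : MonoidAlgebra.mapDomain f a = 0 := ha
  rw [← hb, h0, MonoidAlgebra.mapDomain_zero, sub_zero]

private theorem idm_aug_single (K : Type u) [Field K] {N : Type u} [Group N] (g : N) (c : K) :
    aug K N (MonoidAlgebra.single g c) = c := by
  change (MonoidAlgebra.lift K K N (1 : N →* K)) (MonoidAlgebra.single g c) = c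
  rw [MonoidAlgebra.lift_single]
  simp

private theorem idm_aug_comp (K : Type u) [Field K] {N N' : Type u} [Group N] [Group N']
    (f : N →* N') (a : MonoidAlgebra K N) :
    aug K N' (MonoidAlgebra.mapDomainRingHom K f a) = aug K N a := by
  induction a using MonoidAlgebra.induction_linear with
  | zero => simp
  | add x y hx hy => rw [map_add, map_add, map_add, hx, hy]
  | single g c =>
    have : MonoidAlgebra.mapDomainRingHom K f (MonoidAlgebra.single g c) =
        MonoidAlgebra.single (f g) c := MonoidAlgebra.mapDomain_single ..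
    rw [this, idm_aug_single, idm_aug_single]

private theorem idm_surj (K : Type u) [Field K] {N N' : Type u} [Group N] [Group N']
    (f : N →* N') (hf : Function.Surjective f) :
    Function.Surjective (MonoidAlgebra.mapDomainRingHom K f) := by
  intro a
  induction a using MonoidAlgebra.induction_linear with
  | zero => exact ⟨0, map_zero _⟩
  | add x y hx hy =>
    obtain ⟨b, rfl⟩ := hx
    obtain ⟨c, rfl⟩ := hy
    exact ⟨b + c, map_add _ _ _⟩
  | single g c =>
    obtain ⟨g, rfl⟩ := hf g
    exact ⟨MonoidAlgebra.single g c, MonoidAlgebra.mapDomain_single ..⟩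

private theorem idm_field (K : Type u) [Field K] {ι : Type u} [Fintype ι] [DecidableEq ι]
    (E : Matrix ι ι K) (hE : E * E = E) :
    (Module.finrank K (LinearMap.range (Matrix.toLinearMapRight' E)) : K) = Matrix.trace E := by
  have h1 : Matrix.toLinearMapRight' E = Matrix.toLin' Eᵀ := by
    apply LinearMap.ext
    intro v
    rw [Matrix.toLinearMapRight'_apply, Matrix.toLin'_apply, Matrix.mulVec_transpose]
  have h2 : IsIdempotentElem (Matrix.toLin' Eᵀ) := by
    change Matrix.toLin' Eᵀ ∘ₗ Matrix.toLin' Eᵀ = _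
    rw [← Matrix.toLin'_mul, ← Matrix.transpose_mul, hE]
  rw [h1, ← (LinearMap.IsIdempotentElem.isProj_range _ h2).trace, Matrix.trace_toLin'_eq,
    Matrix.trace_transpose]

private theorem idm_eq {R R' : Type u} [Ring R] [IsDomain R] [IsNoetherianRing R]
    [Ring R'] [IsDomain R'] [IsNoetherianRing R'] (F : R →+* R') (hF : Function.Surjective F)
    {ι : Type u} [Fintype ι] [DecidableEq ι]
    (hl : ∀ (n : ℕ) (y : Fin n → ι → R),
      (∀ a : Fin n → R, ∑ j, a j • y j = 0 → ∀ j, F (a j) = 0) →
        ∀ a : Fin n → R, ∑ j, a j • y j = 0 → ∀ j, a j = 0) (E : Matrix ι ι R)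
    (hE : E * E = E) :
    Module.finrank R' (LinearMap.range (Matrix.toLinearMapRight' (E.map F))) =
      Module.finrank R (LinearMap.range (Matrix.toLinearMapRight' E)) := by
  have hE' : E.map F * E.map F = E.map F := by
    rw [← Matrix.map_mul, hE]
  have h1 := idm_rank_add E hE
  have h2 := idm_rank_add (E.map F) hE'
  have h3 := idm_rank_le F hF E hl
  have h4 := idm_rank_le F hF (1 - E) hl
  have h5 : (1 - E).map F = 1 - E.map F := by
    ext i j
    simp only [Matrix.map_apply, Matrix.sub_apply, map_sub, Matrix.one_apply]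
    split_ifs <;> simp
  rw [h5] at h4
  omega

/-- The rank of an idempotent matrix over `K[N]` is the rank of its augmentation (any field). -/
theorem finrank_range_idem_nat (K : Type u) [Field K] {N : Type u} [Group N] (h : CPZ N)
    {ι : Type u} [Fintype ι] [DecidableEq ι] (E : Matrix ι ι (MonoidAlgebra K N))
    (hE : E * E = E) :
    Module.finrank (MonoidAlgebra K N) (LinearMap.range (Matrix.toLinearMapRight' E)) =
      Module.finrank K (LinearMap.range (Matrix.toLinearMapRight' (E.map (aug K N)))) := by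
  induction h with
  | triv N =>
    have hP : PolyZ N := PolyZ.triv N
    have := hP.isDomain K
    have := hP.isNoetherianRing K
    have hinj : ∀ x : MonoidAlgebra K N, aug K N x = 0 → x = 0 := by
      intro x hx
      have hx1 : x = MonoidAlgebra.single 1 (x.coeff 1) := by
        ext g
        rw [Subsingleton.elim g 1]
        simp
      rw [hx1, idm_aug_single] at hx
      rw [hx1, hx]
      simp
    have hsurj : Function.Surjective (aug K N) := fun c =>
      ⟨MonoidAlgebra.single 1 c, idm_aug_single K 1 c⟩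
    rw [← idm_eq (aug K N) hsurj (fun n y hy a ha j => hinj _ (hy a ha j)) E hE]
  | ext N N' f hf z hz hker hinf h ih =>
    have hP : PolyZ N := (CPZ.ext N N' f hf z hz hker hinf h).polyZ
    have hP' : PolyZ N' := h.polyZ
    have := hP.isDomain K
    have := hP.isNoetherianRing K
    have := hP'.isDomain K
    have := hP'.isNoetherianRing K
    have hz0 : idmZ K z ≠ 0 := by
      intro h0
      have h1 := congrArg (fun x => x.coeff z) h0
      have hz1 : z ≠ 1 := by
        intro h2
        have := hinf 1 (by rw [h2, _root_.one_zpow])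
        norm_num at this
      simp [idmZ, MonoidAlgebra.one_def, hz1.symm] at h1
    have hl : ∀ (n : ℕ) (y : Fin n → ι → MonoidAlgebra K N),
        (∀ a : Fin n → MonoidAlgebra K N, ∑ j, a j • y j = 0 →
          ∀ j, MonoidAlgebra.mapDomainRingHom K f (a j) = 0) →
        ∀ a : Fin n → MonoidAlgebra K N, ∑ j, a j • y j = 0 → ∀ j, a j = 0 := by
      intro n y hy a ha
      have step : ∀ a : Fin n → MonoidAlgebra K N, ∑ j, a j • y j = 0 →
          ∃ a' : Fin n → MonoidAlgebra K N, (∀ j, a j = idmZ K z * a' j) ∧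
            ∑ j, a' j • y j = 0 := by
        intro a ha
        choose a' ha' using fun j => idm_ker K f hf z hz hker (a j) (hy a ha j)
        refine ⟨a', ha', ?_⟩
        have h1 : idmZ K z • ∑ j, a' j • y j = 0 := by
          rw [Finset.smul_sum, ← ha]
          refine Finset.sum_congr rfl fun j _ => ?_
          rw [smul_smul, ← ha' j]
        funext i
        have h2 := congrFun h1 i
        simp only [Pi.smul_apply, smul_eq_mul, Pi.zero_apply] at h2
        exact (mul_eq_zero.mp h2).resolve_left hz0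
      choose nxt h1 h2 using step
      let b : ℕ → {a : Fin n → MonoidAlgebra K N // ∑ j, a j • y j = 0} := fun k =>
        Nat.rec ⟨a, ha⟩ (fun _ p => ⟨nxt p.1 p.2, h2 p.1 p.2⟩) k
      intro j
      exact idm_chain (idmZ K z) (aug K N)
        (by rw [idmZ, map_sub, idm_aug_single, map_one, sub_self])
        (fun k => (b k).1 j) (fun k => h1 (b k).1 (b k).2 j)
    rw [← idm_eq (MonoidAlgebra.mapDomainRingHom K f) (idm_surj K f hf) hl E hE]
    rw [ih (E.map (MonoidAlgebra.mapDomainRingHom K f)) (by rw [← Matrix.map_mul, hE])]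
    have hm : (E.map (MonoidAlgebra.mapDomainRingHom K f)).map (aug K N') = E.map (aug K N) := by
      ext i j
      simp only [Matrix.map_apply]
      exact idm_aug_comp K f _
    rw [hm]

theorem finrank_range_idem (K : Type u) [Field K] {N : Type u} [Group N] (h : CPZ N)
    {ι : Type u} [Fintype ι] [DecidableEq ι] (E : Matrix ι ι (MonoidAlgebra K N))
    (hE : E * E = E) :
    (Module.finrank (MonoidAlgebra K N) (LinearMap.range (Matrix.toLinearMapRight' E)) : K) =
      Matrix.trace (E.map (aug K N)) := by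
  rw [finrank_range_idem_nat K h E hE]
  apply idm_field
  rw [← Matrix.map_mul, hE]

end SPH
end

section

/-! # Rank of idempotent matrices over K[Γ] as K[N]-modules (job R12) -/

namespace SPH

universe u v

section IdemSubAux

variable {K : Type u} [CommRing K] {Γ : Type u} [Group Γ] (N : Subgroup Γ)

theorem is_subSum_add (x y : MonoidAlgebra K Γ) :
    subSum N (x + y) = subSum N x + subSum N y := by
  classical
  unfold subSum
  rw [MonoidAlgebra.coeff_add]
  refine Finsupp.sum_add_index' ?_ ?_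
  · intro a; split_ifs <;> rfl
  · intro a b c; split_ifs
    · rfl
    · rw [add_zero]

theorem is_subSum_zero : subSum N (0 : MonoidAlgebra K Γ) = 0 := by
  classical
  unfold subSum
  rw [MonoidAlgebra.coeff_zero, Finsupp.sum_zero_index]

open scoped Classical in
theorem is_subSum_single (g : Γ) (a : K) :
    subSum N (MonoidAlgebra.single g a) = if g ∈ N then a else 0 := by
  unfold subSum
  rw [MonoidAlgebra.coeff_single, Finsupp.sum_single_index]
  split_ifs <;> rfl

theorem is_subSum_sum {ι : Type v} (s : Finset ι) (x : ι → MonoidAlgebra K Γ) :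
    subSum N (∑ i ∈ s, x i) = ∑ i ∈ s, subSum N (x i) := by
  classical
  induction s using Finset.induction_on with
  | empty => simp [is_subSum_zero]
  | insert a s ha ih => rw [Finset.sum_insert ha, Finset.sum_insert ha, is_subSum_add, ih]

theorem is_repr_coeff (y : MonoidAlgebra K Γ) (c : RCos N) (n : N) :
    (((subBasis K N).repr y) c).coeff n = y.coeff ((n : Γ) * Quotient.out c) := by
  have h := subPhi_coeff (K := K) N ((subBasis K N).repr y) c n
  have h2 : subPhi K N ((subBasis K N).repr y) = y :=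
    (LinearEquiv.ofBijective (subPhi K N) ⟨subPhi_injective N, subPhi_surjective N⟩).apply_symm_apply y
  rw [h2] at h
  exact h.symm

theorem is_aug_single (G : Type u) [Group G] (g : G) (a : K) :
    aug K G (MonoidAlgebra.single g a) = a := by
  unfold aug
  simp

/-- the diagonal entries -/
theorem is_diag [N.Normal] (c : RCos N) (x : MonoidAlgebra K Γ) :
    aug K N (((subBasis K N).repr (MonoidAlgebra.single (Quotient.out c) (1 : K) * x)) c) =
      subSum N x := by
  classical
  induction x using MonoidAlgebra.induction_linear with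
  | zero => simp [is_subSum_zero]
  | add x y hx hy =>
    rw [mul_add, map_add, Finsupp.add_apply, map_add, hx, hy, is_subSum_add]
  | single g a =>
    rw [MonoidAlgebra.single_mul_single, one_mul, is_subSum_single]
    by_cases hg : g ∈ N
    · have hm : Quotient.out c * g * (Quotient.out c)⁻¹ ∈ N :=
        (inferInstance : N.Normal).conj_mem g hg _
      have h1 : ((subBasis K N).repr (MonoidAlgebra.single (Quotient.out c * g) a)) c =
          MonoidAlgebra.single (⟨_, hm⟩ : N) a := by
        ext n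
        rw [is_repr_coeff, MonoidAlgebra.coeff_single, MonoidAlgebra.coeff_single,
          Finsupp.single_apply, Finsupp.single_apply]
        congr 1
        apply propext
        constructor
        · intro h
          apply Subtype.ext
          simp only
          rw [h, mul_inv_cancel_right]
        · intro h
          have h3 : Quotient.out c * g * (Quotient.out c)⁻¹ = (n : Γ) := congrArg Subtype.val h
          rw [← h3, inv_mul_cancel_right]
      rw [h1, is_aug_single, if_pos hg]
    · have h1 : ((subBasis K N).repr (MonoidAlgebra.single (Quotient.out c * g) a)) c = 0 := by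
        ext n
        rw [is_repr_coeff, MonoidAlgebra.coeff_single, Finsupp.single_apply, if_neg]
        · simp
        · intro h
          apply hg
          have h3 : g = (Quotient.out c)⁻¹ * (n : Γ) * (Quotient.out c)⁻¹⁻¹ := by
            rw [inv_inv, mul_assoc, ← h, inv_mul_cancel_left]
          rw [h3]
          exact (inferInstance : N.Normal).conj_mem n n.2 _
      rw [h1, map_zero, if_neg hg]

end IdemSubAux

theorem finrank_range_idem_sub (K : Type u) [Field K] [CharZero K] {Γ : Type u} [Group Γ]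
    (N : Subgroup Γ) [N.Normal] [N.FiniteIndex] (h : CPZ N) (n : ℕ)
    (e : Matrix (Fin n) (Fin n) (MonoidAlgebra K Γ)) (he : e * e = e) :
    (Module.finrank (MonoidAlgebra K N) (LinearMap.range (Matrix.toLinearMapRight' e)) : K) =
      N.index * subSum N (Matrix.trace e) := by
  classical
  haveI : Fintype (RCos N) := Fintype.ofFinite _
  -- the basis over `K[N]`
  set B : Module.Basis (Σ _ : Fin n, RCos N) (MonoidAlgebra K N) (Fin n → MonoidAlgebra K Γ) :=
    Pi.basis (fun _ : Fin n => subBasis K N) with hB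
  set L : (Fin n → MonoidAlgebra K Γ) →ₗ[MonoidAlgebra K N] (Fin n → MonoidAlgebra K Γ) :=
    (Matrix.toLinearMapRight' e).restrictScalars (MonoidAlgebra K N) with hL
  have hLL : ∀ x, L (L x) = L x := by
    intro x
    have h1 : (Matrix.toLinearMapRight' e) ∘ₗ (Matrix.toLinearMapRight' e) =
        Matrix.toLinearMapRight' e := by
      rw [← Matrix.toLinearMapRight'_mul, he]
    exact LinearMap.congr_fun h1 x
  set Φ := B.equivFun with hΦ
  set L' : ((Σ _ : Fin n, RCos N) → MonoidAlgebra K N) →ₗ[MonoidAlgebra K N]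
      ((Σ _ : Fin n, RCos N) → MonoidAlgebra K N) :=
    Φ.toLinearMap ∘ₗ L ∘ₗ Φ.symm.toLinearMap with hL'
  have hL'L : L' ∘ₗ L' = L' := by
    refine LinearMap.ext fun x => ?_
    simp only [hL', LinearMap.comp_apply, LinearEquiv.coe_coe, LinearEquiv.symm_apply_apply, hLL]
  set E : Matrix (Σ _ : Fin n, RCos N) (Σ _ : Fin n, RCos N) (MonoidAlgebra K N) :=
    LinearMap.toMatrixRight' L' with hE
  have hEL : Matrix.toLinearMapRight' E = L' := by
    rw [hE]
    exact LinearEquiv.symm_apply_apply _ _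
  have hEE : E * E = E := by
    rw [hE, ← LinearMap.toMatrixRight'_comp, hL'L]
  -- the ranks agree
  have hrank : Module.finrank (MonoidAlgebra K N) (LinearMap.range (Matrix.toLinearMapRight' e)) =
      Module.finrank (MonoidAlgebra K N) (LinearMap.range (Matrix.toLinearMapRight' E)) := by
    let e1 : (LinearMap.range (Matrix.toLinearMapRight' e)) ≃ₗ[MonoidAlgebra K N]
        (LinearMap.range L) :=
      { toFun := fun x => ⟨x.1, x.2⟩
        invFun := fun x => ⟨x.1, x.2⟩
        map_add' := fun _ _ => rfl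
        map_smul' := fun _ _ => rfl
        left_inv := fun _ => rfl
        right_inv := fun _ => rfl }
    have e2 := Φ.submoduleMap (LinearMap.range L)
    have h3 : (LinearMap.range L).map (Φ : (Fin n → MonoidAlgebra K Γ) →ₗ[MonoidAlgebra K N] _) =
        LinearMap.range (Matrix.toLinearMapRight' E) := by
      rw [hEL, hL', LinearMap.range_comp, LinearMap.range_comp_of_range_eq_top _
        (LinearEquiv.range _)]
    rw [e1.finrank_eq, e2.finrank_eq, h3]
  rw [hrank, finrank_range_idem K h E hEE]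
  -- the trace
  have hdiag : ∀ (i : Fin n) (c : RCos N), aug K N (E ⟨i, c⟩ ⟨i, c⟩) = subSum N (e i i) := by
    intro i c
    rw [← is_diag N c (e i i)]
    congr 1
    have h1 : E ⟨i, c⟩ ⟨i, c⟩ = L' (Pi.single ⟨i, c⟩ 1) ⟨i, c⟩ := rfl
    have h2 : Φ.symm (Pi.single ⟨i, c⟩ 1) = Pi.single i (subBasis K N c) := by
      have h4 : Pi.single i (subBasis K N c) = B ⟨i, c⟩ := by rw [hB, Pi.basis_apply]
      rw [h4, LinearEquiv.symm_apply_eq, hΦ]
      funext j
      rw [Module.Basis.equivFun_self, Pi.single_apply]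
      by_cases hj : j = ⟨i, c⟩
      · rw [if_pos hj, if_pos hj.symm]
      · rw [if_neg hj, if_neg (Ne.symm hj)]
    rw [h1, hL']
    simp only [LinearMap.comp_apply, LinearEquiv.coe_coe]
    rw [h2, hΦ, Module.Basis.equivFun_apply, hB, Pi.basis_repr]
    congr 2
    rw [hL]
    change (Matrix.vecMul (Pi.single i (subBasis K N c) : Fin n → MonoidAlgebra K Γ) e) i = _
    rw [Matrix.single_vecMul, subBasis_apply]
    rfl
  rw [Matrix.trace, Fintype.sum_sigma]
  simp only [Matrix.diag_apply, Matrix.map_apply, hdiag, Finset.sum_const, Finset.card_univ,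
    nsmul_eq_mul]
  rw [← Finset.mul_sum, Matrix.trace, is_subSum_sum, ← Nat.card_eq_fintype_card, rcos_card]
  rfl

end SPH
end
end
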