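import Pool.Agent.Lib.MP_7b9603_al.Weyl
import Pool.Agent.Lib.MP_7b9603_al.ArtinDef

section

/-!
# Artin groups of general Coxeter matrices and the unfolding to a simply laced diagram

For a Coxeter matrix `M` on `S` the unfolded diagram has vertex set `S × UI M`, where
`UI M` is the product over all unordered pairs `e = {s,t}` of a set with `m_e - 1` elements
(one element if `m_e ≤ 2`).  For `s ≠ t` the vertices over `s` and `t` form disjoint paths
with `m_{st} - 1` vertices.
-/

namespace SPH

open scoped Classical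

universe u

set_option linter.unusedSectionVars false

section

variable {S : Type u}

/-- The standard generators. -/
def agen (M : CoxeterMatrix S) (s : S) : ArtinGroup M := PresentedGroup.of s

/-- The element given by a positive word. -/
def aw (M : CoxeterMatrix S) (l : List S) : ArtinGroup M := (l.map (agen M)).prod

/-- Alternating word `s t s ⋯` with `n` letters. -/
def altL (s t : S) : ℕ → List S
  | 0 => []
  | n + 1 => s :: altL t s n

theorem altL_length (s t : S) (n : ℕ) : (altL s t n).length = n := by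
  induction n generalizing s t with
  | zero => rfl
  | succ n ih => simp [altL, ih]

theorem aw_nil (M : CoxeterMatrix S) : aw M [] = 1 := rfl

theorem aw_cons (M : CoxeterMatrix S) (s : S) (l : List S) :
    aw M (s :: l) = agen M s * aw M l := by simp [aw]

theorem aw_append (M : CoxeterMatrix S) (l l' : List S) :
    aw M (l ++ l') = aw M l * aw M l' := by simp [aw]

theorem aw_altL (M : CoxeterMatrix S) (s t : S) (n : ℕ) :
    aw M (altL s t n) = altProd (agen M s) (agen M t) n := by
  induction n generalizing s t with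
  | zero => rfl
  | succ n ih => rw [altL, aw_cons, ih, altProd]

theorem altProd_map {A B : Type*} [Monoid A] [Monoid B] (f : A →* B) (a b : A) (n : ℕ) :
    f (altProd a b n) = altProd (f a) (f b) n := by
  induction n generalizing a b with
  | zero => simp [altProd]
  | succ n ih => rw [altProd, altProd, map_mul, ih]

theorem agen_rel (M : CoxeterMatrix S) (s t : S) (h : M s t ≠ 0) :
    altProd (agen M s) (agen M t) (M s t) = altProd (agen M t) (agen M s) (M s t) := by
  have : (PresentedGroup.mk (artinRelM M)) (altProd (FreeGroup.of s) (FreeGroup.of t) (M s t) *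
      (altProd (FreeGroup.of t) (FreeGroup.of s) (M s t))⁻¹) = 1 :=
    PresentedGroup.one_of_mem ⟨s, t, h, rfl⟩
  rw [map_mul, map_inv, mul_inv_eq_one, altProd_map, altProd_map] at this
  exact this

/-- Universal property. -/
def ArtinGroup.lift (M : CoxeterMatrix S) {A : Type*} [Group A] (σ : S → A)
    (h : ∀ s t, M s t ≠ 0 → altProd (σ s) (σ t) (M s t) = altProd (σ t) (σ s) (M s t)) :
    ArtinGroup M →* A :=
  PresentedGroup.toGroup (f := σ) (by
    rintro r ⟨s, t, hst, rfl⟩
    rw [map_mul, map_inv, mul_inv_eq_one, altProd_map, altProd_map, FreeGroup.lift_apply_of,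
      FreeGroup.lift_apply_of]
    exact h s t hst)

theorem ArtinGroup.lift_agen (M : CoxeterMatrix S) {A : Type*} [Group A] (σ : S → A)
    (h : ∀ s t, M s t ≠ 0 → altProd (σ s) (σ t) (M s t) = altProd (σ t) (σ s) (M s t)) (s : S) :
    ArtinGroup.lift M σ h (agen M s) = σ s := by
  simp [ArtinGroup.lift, agen]

/-- The label of an unordered pair. -/
def lab (M : CoxeterMatrix S) (e : Sym2 S) : ℕ :=
  Sym2.lift ⟨fun s t => M s t, fun s t => M.symmetric s t⟩ e

theorem lab_mk (M : CoxeterMatrix S) (s t : S) : lab M s(s, t) = M s t := rfl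

/-- The index set of the unfolding. -/
abbrev UI (M : CoxeterMatrix S) : Type u := ∀ e : Sym2 S, Fin (max 1 (lab M e - 1))

/-- The unfolded simply laced diagram. -/
def unf (M : CoxeterMatrix S) : SimpleGraph (S × UI M) where
  Adj a b := a.1 ≠ b.1 ∧ (∀ e, e ≠ s(a.1, b.1) → a.2 e = b.2 e) ∧
    ((a.2 s(a.1, b.1)).val + 1 = (b.2 s(a.1, b.1)).val ∨
      (b.2 s(a.1, b.1)).val + 1 = (a.2 s(a.1, b.1)).val)
  symm := ⟨by
    intro a b ⟨h1, h2, h3⟩
    rw [Sym2.eq_swap] at h2 h3
    exact ⟨h1.symm, fun e he => (h2 e he).symm, h3.symm⟩⟩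
  loopless := ⟨fun a h => h.1 rfl⟩

/-- Set the coordinate `e` of `i` to `k` (truncated to the range). -/
noncomputable def upd (M : CoxeterMatrix S) (i : UI M) (e : Sym2 S) (k : ℕ) : UI M :=
  Function.update i e ⟨min k (max 1 (lab M e - 1) - 1), by omega⟩

/-- The `k`-th vertex of the path over `{s,t}` through index `i`, starting over `s`. -/
noncomputable def pnode (M : CoxeterMatrix S) (s t : S) (i : UI M) (k : ℕ) : S × UI M :=
  (if Even k then s else t, upd M i s(s, t) k)

end

section

variable {S : Type u} [Fintype S] [DecidableEq S] (M : CoxeterMatrix S)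

noncomputable instance : Fintype (UI M) := inferInstance

/-- The block of letters over `s`. -/
noncomputable def block (s : S) : List (S × UI M) :=
  (Finset.univ : Finset (UI M)).toList.map fun i => (s, i)

/-- The word in the unfolded diagram of a word in `S`. -/
noncomputable def bw (l : List S) : List (S × UI M) := l.flatMap (block M)

/-- The image of the generator `s` in the unfolded Artin group. -/
noncomputable def bgen (s : S) : AGrp (unf M) := wd (unf M) (block M s)

theorem bw_cons (s : S) (l : List S) : bw M (s :: l) = block M s ++ bw M l := rfl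

theorem bw_append (l l' : List S) : bw M (l ++ l') = bw M l ++ bw M l' := by
  simp [bw, List.flatMap_append]

theorem bw_length (l : List S) : (bw M l).length = l.length * Fintype.card (UI M) := by
  induction l with
  | nil => simp [bw]
  | cons s l ih =>
    rw [bw_cons, List.length_append, ih]
    simp [block, Finset.length_toList, Nat.succ_mul]
    ring

theorem wd_append {S' : Type u} (G : SimpleGraph S') (l l' : List S') :
    wd G (l ++ l') = wd G l * wd G l' := by simp [wd]

theorem wd_bw_cons (s : S) (l : List S) :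
    wd (unf M) (bw M (s :: l)) = bgen M s * wd (unf M) (bw M l) := by
  rw [bw_cons, wd_append]; rfl

theorem wd_bw_altL (s t : S) (n : ℕ) :
    wd (unf M) (bw M (altL s t n)) = altProd (bgen M s) (bgen M t) n := by
  induction n generalizing s t with
  | zero => rfl
  | succ n ih => rw [altL, wd_bw_cons, ih, altProd]

end

end SPH
end

section

section

/-! # Partial integer valued sections on a finite ordered `Γ`-set -/

namespace SPH

universe u

/-- A finite ordered `Γ`-set with an integer valued cocycle. The order is arbitrary. -/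
structure CData (Γ : Type u) [Group Γ] where
  W : Type u
  fin : Fintype W
  ord : LinearOrder W
  act : MulAction Γ W
  c : Γ → W → ℤ
  mul : ∀ γ γ' w, c (γ * γ') w = c γ (γ' • w) + c γ' w

attribute [instance] CData.fin CData.ord CData.act

variable {Γ : Type u} [Group Γ] (C : CData Γ)

theorem CData.c_one (w : C.W) : C.c 1 w = 0 := by
  have := C.mul 1 1 w
  rw [mul_one, one_smul] at this
  omega

/-- The support of a partial section. -/
def CData.supp (x : C.W → Option ℤ) : Finset C.W := Finset.univ.filter fun w => (x w).isSome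

theorem CData.mem_supp (x : C.W → Option ℤ) (w : C.W) : w ∈ C.supp x ↔ (x w).isSome := by
  simp [CData.supp]

theorem CData.notMem_supp (x : C.W → Option ℤ) (w : C.W) : w ∉ C.supp x ↔ x w = none := by
  rw [C.mem_supp]; simp

/-- The action on partial sections. -/
def CData.pact (γ : Γ) (x : C.W → Option ℤ) : C.W → Option ℤ :=
  fun w => (x (γ⁻¹ • w)).map (· + C.c γ (γ⁻¹ • w))

theorem CData.pact_one (x : C.W → Option ℤ) : C.pact 1 x = x := by
  funext w
  simp [CData.pact, C.c_one]

theorem CData.pact_mul (γ γ' : Γ) (x : C.W → Option ℤ) :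
    C.pact (γ * γ') x = C.pact γ (C.pact γ' x) := by
  funext w
  simp only [CData.pact, mul_inv_rev, mul_smul, Option.map_map]
  congr 1
  funext k
  simp only [Function.comp_apply]
  rw [C.mul, smul_inv_smul]
  ring

theorem CData.pact_apply_smul (γ : Γ) (x : C.W → Option ℤ) (w : C.W) :
    C.pact γ x (γ • w) = (x w).map (· + C.c γ w) := by
  simp [CData.pact]

/-- The permutation of `C.W` given by `γ`, as an embedding. -/
def CData.emb (γ : Γ) : C.W ↪ C.W := ⟨(γ • ·), MulAction.injective γ⟩

theorem CData.supp_pact (γ : Γ) (x : C.W → Option ℤ) :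
    C.supp (C.pact γ x) = (C.supp x).map (C.emb γ) := by
  ext w
  rw [C.mem_supp, Finset.mem_map]
  constructor
  · intro h
    refine ⟨γ⁻¹ • w, ?_, ?_⟩
    · rw [C.mem_supp]
      simpa [CData.pact] using h
    · simp [CData.emb]
  · rintro ⟨v, hv, rfl⟩
    rw [C.mem_supp] at hv
    change (C.pact γ x (γ • v)).isSome
    rw [C.pact_apply_smul]
    simpa using hv

theorem CData.card_supp_pact (γ : Γ) (x : C.W → Option ℤ) :
    (C.supp (C.pact γ x)).card = (C.supp x).card := by
  rw [C.supp_pact, Finset.card_map]

/-- Sign of a map on a finite set: the parity of the number of inversions. -/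
def CData.inv (g : C.W → C.W) (A : Finset C.W) : ℤˣ :=
  ∏ p ∈ (A ×ˢ A).filter (fun p => p.1 < p.2), if g p.1 < g p.2 then 1 else -1

/-- The sign of the position of `b` in `A`. -/
def CData.pos (A : Finset C.W) (b : C.W) : ℤˣ := (-1) ^ (A.filter (· < b)).card

/-- Partial sections with support of size `j`. -/
def CData.PS (j : ℕ) : Type u := {x : C.W → Option ℤ // (C.supp x).card = j}

instance (j : ℕ) : MulAction Γ (C.PS j) where
  smul γ x := ⟨C.pact γ x.1, by rw [C.card_supp_pact]; exact x.2⟩
  one_smul x := Subtype.ext (C.pact_one x.1)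
  mul_smul γ γ' x := Subtype.ext (C.pact_mul γ γ' x.1)

theorem CData.smul_val {j : ℕ} (γ : Γ) (x : C.PS j) : (γ • x).1 = C.pact γ x.1 := rfl

/-- Erasing the value at `b`. -/
def CData.er (x : C.W → Option ℤ) (b : C.W) : C.W → Option ℤ := Function.update x b none

/-- Setting the value at `b`. -/
def CData.st (x : C.W → Option ℤ) (b : C.W) (k : ℤ) : C.W → Option ℤ :=
  Function.update x b (some k)

/-- Adding an integer valued function. -/
def CData.sh (a : C.W → ℤ) (x : C.W → Option ℤ) : C.W → Option ℤ :=
  fun w => (x w).map (· + a w)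

theorem CData.supp_er (x : C.W → Option ℤ) (b : C.W) : C.supp (C.er x b) = (C.supp x).erase b := by
  ext w
  rw [C.mem_supp, Finset.mem_erase, C.mem_supp]
  by_cases h : w = b
  · subst h; simp [CData.er]
  · simp [CData.er, h]

theorem CData.supp_st (x : C.W → Option ℤ) (b : C.W) (k : ℤ) :
    C.supp (C.st x b k) = insert b (C.supp x) := by
  ext w
  rw [C.mem_supp, Finset.mem_insert, C.mem_supp]
  by_cases h : w = b
  · subst h; simp [CData.st]
  · simp [CData.st, h]

theorem CData.supp_sh (a : C.W → ℤ) (x : C.W → Option ℤ) : C.supp (C.sh a x) = C.supp x := by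
  ext w
  rw [C.mem_supp, C.mem_supp]
  simp [CData.sh]

theorem CData.sh_sh (a b : C.W → ℤ) (x : C.W → Option ℤ) :
    C.sh a (C.sh b x) = C.sh (a + b) x := by
  funext w
  simp only [CData.sh, Option.map_map]
  congr 1
  funext k
  simp only [Function.comp_apply, Pi.add_apply]
  ring

theorem CData.pact_er (γ : Γ) (x : C.W → Option ℤ) (b : C.W) :
    C.pact γ (C.er x b) = C.er (C.pact γ x) (γ • b) := by
  funext w
  by_cases h : w = γ • b
  · subst h
    simp [CData.pact, CData.er]
  · have h' : γ⁻¹ • w ≠ b := fun h2 => h (by rw [← h2, smul_inv_smul])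
    simp [CData.pact, CData.er, h, h']

theorem CData.pact_sh (γ : Γ) (a : C.W → ℤ) (x : C.W → Option ℤ) :
    C.pact γ (C.sh a x) = C.sh (fun w => a (γ⁻¹ • w)) (C.pact γ x) := by
  funext w
  simp only [CData.sh, CData.pact, Option.map_map]
  congr 1
  funext k
  simp only [Function.comp_apply]
  ring

theorem CData.sh_er (a : C.W → ℤ) (x : C.W → Option ℤ) (b : C.W) :
    C.sh a (C.er x b) = C.er (C.sh a x) b := by
  funext w
  by_cases h : w = b
  · subst h; simp [CData.sh, CData.er]
  · simp [CData.sh, CData.er, h]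

theorem CData.er_comm (x : C.W → Option ℤ) (a b : C.W) :
    C.er (C.er x a) b = C.er (C.er x b) a := by
  funext w
  by_cases h : w = a <;> by_cases h' : w = b <;> simp [CData.er, Function.update_apply, h, h']

end SPH
end

section

/-! # Signs of permutations of finite subsets (job P5) -/

namespace SPH

universe u

variable {Γ : Type u} [Group Γ] (C : CData Γ)

private def p5s {W : Type u} [LinearOrder W] (a b : W) : ℤˣ := if a < b then -1 else 1

private theorem p5s_self {W : Type u} [LinearOrder W] (a : W) : p5s a a = 1 := by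
  simp [p5s]

private theorem p5s_swap {W : Type u} [LinearOrder W] {a b : W} (h : a ≠ b) :
    p5s a b = - p5s b a := by
  rcases lt_or_gt_of_ne h with h1 | h1
  · simp [p5s, h1, h1.not_gt]
  · simp [p5s, h1, h1.not_gt]

private theorem p5_pos (A : Finset C.W) (b : C.W) : C.pos A b = ∏ a ∈ A, p5s a b := by
  unfold CData.pos p5s
  rw [Finset.prod_ite]
  simp

private theorem p5_pos_insert {A : Finset C.W} {a : C.W} (ha : a ∉ A) (b : C.W) :
    C.pos (insert a A) b = p5s a b * C.pos A b := by
  rw [p5_pos, p5_pos, Finset.prod_insert ha]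

private theorem p5_pos_erase {A : Finset C.W} {a : C.W} (ha : a ∈ A) (b : C.W) :
    C.pos (A.erase a) b = p5s a b * C.pos A b := by
  rw [p5_pos, p5_pos, ← Finset.mul_prod_erase A _ ha, ← mul_assoc, Int.units_mul_self, one_mul]

/-- one factor of the inversion sign -/
private def p5h (g : C.W → C.W) (a b : C.W) : ℤˣ :=
  if a < b then (if g a < g b then 1 else -1) else 1

private theorem p5_inv (g : C.W → C.W) (A : Finset C.W) :
    C.inv g A = ∏ a ∈ A, ∏ b ∈ A, p5h C g a b := by
  unfold CData.inv p5h
  rw [Finset.prod_filter, Finset.prod_product]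

private theorem p5h_mul {g : C.W → C.W} (hg : Function.Injective g) {b c : C.W} (h : c ≠ b) :
    p5h C g b c * p5h C g c b = p5s c b * p5s (g c) (g b) := by
  have h2 : g c ≠ g b := fun h3 => h (hg h3)
  unfold p5h p5s
  rcases lt_or_gt_of_ne h with h1 | h1 <;> rcases lt_or_gt_of_ne h2 with h3 | h3 <;>
    simp [h1, h1.not_gt, h3, h3.not_gt]

private theorem p5_inv_insert {g : C.W → C.W} (hg : Function.Injective g) {B : Finset C.W}
    {b : C.W} (hb : b ∉ B) :
    C.inv g (insert b B) = (∏ c ∈ B, p5s c b * p5s (g c) (g b)) * C.inv g B := by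
  rw [p5_inv, p5_inv, Finset.prod_insert hb, Finset.prod_insert hb]
  have h1 : p5h C g b b = 1 := by simp [p5h]
  rw [h1, one_mul]
  have h2 : ∏ a ∈ B, ∏ c ∈ insert b B, p5h C g a c =
      (∏ a ∈ B, p5h C g a b) * ∏ a ∈ B, ∏ c ∈ B, p5h C g a c := by
    rw [← Finset.prod_mul_distrib]
    exact Finset.prod_congr rfl fun a _ => Finset.prod_insert hb
  rw [h2, ← mul_assoc, ← Finset.prod_mul_distrib]
  congr 1
  refine Finset.prod_congr rfl fun c hc => ?_
  exact p5h_mul C hg (fun h => hb (h ▸ hc))

/-- Effect of removing an element on the inversion sign. -/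
theorem CData.inv_insert (γ : Γ) (A : Finset C.W) (b : C.W) (hb : b ∈ A) :
    C.inv (γ • ·) (A.erase b) * C.pos A b = C.pos (A.map (C.emb γ)) (γ • b) * C.inv (γ • ·) A := by
  have hg : Function.Injective (fun w : C.W => γ • w) := MulAction.injective γ
  have h1 : C.inv (γ • ·) A = (∏ c ∈ A.erase b, p5s c b * p5s (γ • c) (γ • b)) *
      C.inv (γ • ·) (A.erase b) := by
    have := p5_inv_insert C hg (Finset.notMem_erase b A)
    rw [Finset.insert_erase hb] at this
    exact this
  have h2 : C.pos A b = ∏ c ∈ A.erase b, p5s c b := by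
    rw [p5_pos, ← Finset.mul_prod_erase A _ hb, p5s_self, one_mul]
  have h3 : C.pos (A.map (C.emb γ)) (γ • b) = ∏ c ∈ A.erase b, p5s (γ • c) (γ • b) := by
    rw [p5_pos, Finset.prod_map]
    change ∏ c ∈ A, p5s (γ • c) (γ • b) = _
    rw [← Finset.mul_prod_erase A _ hb, p5s_self, one_mul]
  rw [h1, h2, h3, Finset.prod_mul_distrib]
  set P1 := ∏ c ∈ A.erase b, p5s c b
  set P2 := ∏ c ∈ A.erase b, p5s (γ • c) (γ • b)
  have h4 : P2 * P2 = 1 := Int.units_mul_self P2
  calc C.inv (γ • ·) (A.erase b) * P1 = (P2 * P2) * (P1 * C.inv (γ • ·) (A.erase b)) := by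
        rw [h4, one_mul, mul_comm]
    _ = P2 * (P1 * P2 * C.inv (γ • ·) (A.erase b)) := by
        rw [mul_assoc, mul_assoc, mul_left_comm P2 P1]

/-- Cocycle property of the inversion sign. -/
theorem CData.inv_mul (γ γ' : Γ) (A : Finset C.W) :
    C.inv (fun w => (γ * γ') • w) A =
      C.inv (γ • ·) (A.map (C.emb γ')) * C.inv (γ' • ·) A := by
  induction A using Finset.induction_on with
  | empty => simp [CData.inv]
  | insert b B hb ih =>
    have hg : Function.Injective (fun w : C.W => γ • w) := MulAction.injective γ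
    have hg' : Function.Injective (fun w : C.W => γ' • w) := MulAction.injective γ'
    have hgg : Function.Injective (fun w : C.W => (γ * γ') • w) := MulAction.injective (γ * γ')
    have hb' : C.emb γ' b ∉ B.map (C.emb γ') := by
      rw [Finset.mem_map']
      exact hb
    have h1 := p5_inv_insert C hg hb'
    rw [Finset.prod_map] at h1
    rw [p5_inv_insert C hgg hb, p5_inv_insert C hg' hb, Finset.map_insert, h1, ih]
    change (∏ c ∈ B, p5s c b * p5s ((γ * γ') • c) ((γ * γ') • b)) * _ =
      (∏ c ∈ B, p5s (γ' • c) (γ' • b) * p5s (γ • γ' • c) (γ • γ' • b)) * _ * _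
    have h2 : ∏ c ∈ B, p5s c b * p5s ((γ * γ') • c) ((γ * γ') • b) =
        (∏ c ∈ B, p5s (γ' • c) (γ' • b) * p5s (γ • γ' • c) (γ • γ' • b)) *
          ∏ c ∈ B, p5s c b * p5s (γ' • c) (γ' • b) := by
      rw [← Finset.prod_mul_distrib]
      refine Finset.prod_congr rfl fun c _ => ?_
      rw [mul_smul, mul_smul]
      have h3 : p5s (γ' • c) (γ' • b) * p5s (γ' • c) (γ' • b) = 1 := Int.units_mul_self _
      calc p5s c b * p5s (γ • γ' • c) (γ • γ' • b)
          = (p5s (γ' • c) (γ' • b) * p5s (γ' • c) (γ' • b)) *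
            (p5s c b * p5s (γ • γ' • c) (γ • γ' • b)) := by rw [h3, one_mul]
        _ = _ := by
          simp only [mul_assoc, mul_comm, mul_left_comm]
    rw [h2]
    simp only [mul_assoc, mul_comm, mul_left_comm]

/-- Signs of two successive removals. -/
theorem CData.pos_erase_mul (A : Finset C.W) (a b : C.W) (ha : a ∈ A) (hb : b ∈ A) (hab : a ≠ b) :
    C.pos A a * C.pos (A.erase a) b = -(C.pos A b * C.pos (A.erase b) a) := by
  rw [p5_pos_erase C ha, p5_pos_erase C hb, p5s_swap hab]
  simp only [neg_mul, mul_neg, mul_assoc, mul_comm, mul_left_comm]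

/-- Signs of an insertion and a removal. -/
theorem CData.pos_insert_mul (A : Finset C.W) (a b : C.W) (ha : a ∉ A) (hb : b ∈ A) :
    C.pos A a * C.pos (insert a A) b = -(C.pos A b * C.pos (A.erase b) a) := by
  have hab : a ≠ b := fun h => ha (h ▸ hb)
  rw [p5_pos_insert C ha, p5_pos_erase C hb, p5s_swap hab]
  simp only [neg_mul, mul_neg, mul_assoc, mul_comm, mul_left_comm]

theorem CData.pos_insert_self (A : Finset C.W) (a : C.W) (ha : a ∉ A) :
    C.pos (insert a A) a = C.pos A a := by
  rw [p5_pos_insert C ha, p5s_self, one_mul]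

theorem CData.pos_erase_self (A : Finset C.W) (a : C.W) (ha : a ∈ A) :
    C.pos (A.erase a) a = C.pos A a := by
  rw [p5_pos_erase C ha, p5s_self, one_mul]

end SPH
end

section

/-! # The modules of the complex -/

namespace SPH

universe u v

/-- Additive maps commuting with the elements `γ a` are linear. -/
def linOfAdd {K : Type u} [Field K] {Γ : Type u} [Group Γ] {A B : Type*} [AddCommGroup A]
    [Module (MonoidAlgebra K Γ) A] [AddCommGroup B] [Module (MonoidAlgebra K Γ) B] (f : A →+ B)
    (h : ∀ (γ : Γ) (a : K) (x : A), f ((MonoidAlgebra.single γ a : MonoidAlgebra K Γ) • x) =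
      (MonoidAlgebra.single γ a : MonoidAlgebra K Γ) • f x) : A →ₗ[MonoidAlgebra K Γ] B where
  toFun := f
  map_add' := map_add f
  map_smul' := fun r x => by
    change f (r • x) = r • f x
    induction r using MonoidAlgebra.induction_linear with
    | zero => rw [zero_smul, zero_smul, map_zero]
    | add r s hr hs => rw [add_smul, add_smul, map_add, hr, hs]
    | single γ a => exact h γ a x

theorem linOfAdd_apply {K : Type u} [Field K] {Γ : Type u} [Group Γ] {A B : Type*}
    [AddCommGroup A] [Module (MonoidAlgebra K Γ) A] [AddCommGroup B]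
    [Module (MonoidAlgebra K Γ) B] (f : A →+ B) (h) (x : A) :
    linOfAdd (K := K) (Γ := Γ) f h x = f x := rfl

variable {Γ : Type u} [Group Γ] (C : CData Γ)

/-- The signed `Γ`-set of partial sections with support of size `j`. -/
def CData.sdata (j : ℕ) : SData Γ where
  X := C.PS j
  act := inferInstance
  ε := fun γ x => C.inv (γ • ·) (C.supp x.1)
  mul := fun γ γ' x => by
    rw [C.smul_val, C.supp_pact]
    exact C.inv_mul γ γ' _

variable (M : Type u) [AddCommGroup M]

/-- Chains of degree `j` with coefficients in `M`. -/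
abbrev CData.T (j : ℕ) : Type u := SData.Ind (C.sdata j) M

open scoped Classical in
/-- The chain supported at `x` (zero if the support of `x` has not size `j`). -/
noncomputable def CData.bas (j : ℕ) (x : C.W → Option ℤ) : M →+ C.T M j :=
  if h : (C.supp x).card = j then SData.sg (C.sdata j) M ⟨x, h⟩ else 0

variable {M}

theorem CData.bas_val {j : ℕ} (x : C.PS j) (m : M) :
    C.bas M j x.1 m = SData.sg (C.sdata j) M x m := by
  rw [CData.bas, dif_pos x.2]
  rfl

theorem CData.bas_of_ne {j : ℕ} {x : C.W → Option ℤ} (h : (C.supp x).card ≠ j) (m : M) :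
    C.bas M j x m = 0 := by
  rw [CData.bas, dif_neg h]
  rfl

theorem CData.hom_ext {j : ℕ} {Y : Type*} [AddCommMonoid Y] {f g : C.T M j →+ Y}
    (h : ∀ x m, (C.supp x).card = j → f (C.bas M j x m) = g (C.bas M j x m)) : f = g := by
  apply SData.hom_ext
  intro x m
  have h2 : C.bas M j x.1 m = SData.sg (C.sdata j) M x m := C.bas_val x m
  rw [← h2]
  exact h x.1 m x.2

theorem CData.induction {j : ℕ} {p : C.T M j → Prop} (t : C.T M j) (h0 : p 0)
    (ha : ∀ a b, p a → p b → p (a + b))
    (h : ∀ x m, (C.supp x).card = j → p (C.bas M j x m)) : p t := by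
  apply SData.induction t h0 ha
  intro x m
  have h2 : C.bas M j x.1 m = SData.sg (C.sdata j) M x m := C.bas_val x m
  rw [← h2]
  exact h x.1 m x.2

/-- Extension of a family of additive maps. -/
noncomputable def CData.lift (j : ℕ) {Y : Type*} [AddCommMonoid Y]
    (φ : (C.W → Option ℤ) → M →+ Y) : C.T M j →+ Y :=
  SData.liftAdd (C.sdata j) M (fun x => φ x.1)

theorem CData.lift_bas {j : ℕ} {Y : Type*} [AddCommMonoid Y] (φ : (C.W → Option ℤ) → M →+ Y)
    {x : C.W → Option ℤ} (h : (C.supp x).card = j) (m : M) :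
    C.lift j φ (C.bas M j x m) = φ x m := by
  rw [CData.bas, dif_pos h]
  exact SData.liftAdd_sg _ _ _ _ _

theorem CData.single_smul_bas (K : Type u) [Field K] [Module (MonoidAlgebra K Γ) M] {j : ℕ}
    (γ : Γ) (a : K) (x : C.W → Option ℤ) (m : M) :
    (MonoidAlgebra.single γ a : MonoidAlgebra K Γ) • C.bas M j x m =
      C.bas M j (C.pact γ x)
        (C.inv (γ • ·) (C.supp x) • ((MonoidAlgebra.single γ a : MonoidAlgebra K Γ) • m)) := by
  by_cases h : (C.supp x).card = j
  · rw [CData.bas, dif_pos h]
    have h' : (C.supp (C.pact γ x)).card = j := by rw [C.card_supp_pact]; exact h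
    rw [CData.bas, dif_pos h']
    exact SData.single_smul_sg (C.sdata j) K M γ a ⟨x, h⟩ m
  · have h' : (C.supp (C.pact γ x)).card ≠ j := by rw [C.card_supp_pact]; exact h
    rw [C.bas_of_ne h, C.bas_of_ne h', smul_zero]

/-- The differential (as an additive map). -/
noncomputable def CData.dA (j : ℕ) : C.T M (j + 1) →+ C.T M j :=
  C.lift (j + 1) (fun x => ∑ b ∈ C.supp x, C.pos (C.supp x) b • C.bas M j (C.er x b))

theorem CData.dA_bas (j : ℕ) (x : C.W → Option ℤ) (m : M) :
    C.dA j (C.bas M (j + 1) x m) =
      ∑ b ∈ C.supp x, C.pos (C.supp x) b • C.bas M j (C.er x b) m := by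
  by_cases h : (C.supp x).card = j + 1
  · rw [CData.dA, C.lift_bas _ h, AddMonoidHom.finsetSum_apply]
    rfl
  · rw [C.bas_of_ne h, map_zero]
    symm
    refine Finset.sum_eq_zero fun b hb => ?_
    rw [C.bas_of_ne, smul_zero]
    rw [C.supp_er, Finset.card_erase_of_mem hb]
    have : 0 < (C.supp x).card := Finset.card_pos.2 ⟨b, hb⟩
    omega

end SPH
end

section

/-! # The differential (job P6) -/

namespace SPH

universe u

variable {Γ : Type u} [Group Γ] (C : CData Γ) {M : Type u} [AddCommGroup M]

theorem psecD_map_units {A B : Type*} [AddCommGroup A] [AddCommGroup B] (f : A →+ B) (v : ℤˣ)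
    (x : A) : f (v • x) = v • f x := by
  rw [Units.smul_def, Units.smul_def, map_zsmul]

theorem psecD_smul_units {R A : Type*} [Ring R] [AddCommGroup A] [Module R A] (r : R) (v : ℤˣ)
    (x : A) : r • (v • x) = v • (r • x) := by
  rw [Units.smul_def, Units.smul_def, smul_comm]

theorem psecD_neg_units {A : Type*} [AddCommGroup A] (v : ℤˣ) (x : A) :
    (-v) • x = -(v • x) := by
  rw [Units.smul_def, Units.smul_def, Units.val_neg, neg_smul]

theorem CData.dA_single_smul (K : Type u) [Field K] [Module (MonoidAlgebra K Γ) M] (j : ℕ)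
    (γ : Γ) (a : K) (t : C.T M (j + 1)) :
    C.dA j ((MonoidAlgebra.single γ a : MonoidAlgebra K Γ) • t) =
      (MonoidAlgebra.single γ a : MonoidAlgebra K Γ) • C.dA j t := by
  induction t using CData.induction with
  | h0 => rw [smul_zero, map_zero, smul_zero]
  | ha t s ht hs => rw [smul_add, map_add, map_add, smul_add, ht, hs]
  | h x m hx =>
    rw [C.single_smul_bas, C.dA_bas, C.dA_bas, C.supp_pact, Finset.sum_map, Finset.smul_sum]
    refine Finset.sum_congr rfl fun b hb => ?_
    rw [psecD_smul_units, C.single_smul_bas, C.supp_er, C.pact_er]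
    change C.pos ((C.supp x).map (C.emb γ)) (γ • b) •
      C.bas M j (C.er (C.pact γ x) (γ • b)) _ = _
    rw [psecD_map_units, psecD_map_units, smul_smul, smul_smul, ← C.inv_insert γ _ b hb,
      mul_comm]

theorem CData.dA_dA (j : ℕ) (t : C.T M (j + 2)) : C.dA j (C.dA (j + 1) t) = 0 := by
  induction t using CData.induction with
  | h0 => rw [map_zero, map_zero]
  | ha t s ht hs => rw [map_add, map_add, ht, hs, add_zero]
  | h x m hx =>
    rw [C.dA_bas, map_sum]
    have e : ∀ b ∈ C.supp x, C.dA j (C.pos (C.supp x) b • C.bas M (j + 1) (C.er x b) m) =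
        ∑ c ∈ (C.supp x).erase b, (C.pos (C.supp x) b * C.pos ((C.supp x).erase b) c) •
          C.bas M j (C.er (C.er x b) c) m := by
      intro b _
      rw [psecD_map_units, C.dA_bas, C.supp_er, Finset.smul_sum]
      refine Finset.sum_congr rfl fun c _ => ?_
      rw [smul_smul]
    rw [Finset.sum_congr rfl e, Finset.sum_sigma']
    refine Finset.sum_involution (fun p _ => ⟨p.2, p.1⟩) ?_ ?_ ?_ ?_
    · rintro ⟨b, c⟩ h
      rw [Finset.mem_sigma, Finset.mem_erase] at h
      obtain ⟨hb, hcb, hc⟩ := h
      simp only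
      rw [C.er_comm x c b, C.pos_erase_mul _ b c hb hc (Ne.symm hcb), psecD_neg_units,
        neg_add_cancel]
    · rintro ⟨b, c⟩ h _ heq
      rw [Finset.mem_sigma, Finset.mem_erase] at h
      obtain ⟨hb, hcb, hc⟩ := h
      have h1 : c = b := congrArg (fun p : (_ : C.W) × C.W => p.1) heq
      exact hcb h1
    · rintro ⟨b, c⟩ h
      rw [Finset.mem_sigma, Finset.mem_erase] at h ⊢
      obtain ⟨hb, hcb, hc⟩ := h
      exact ⟨hc, Ne.symm hcb, hb⟩
    · rintro ⟨b, c⟩ h
      rfl

variable (M) in
/-- The differential as a linear map. -/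
noncomputable def CData.d (K : Type u) [Field K] [Module (MonoidAlgebra K Γ) M] (j : ℕ) :
    C.T M (j + 1) →ₗ[MonoidAlgebra K Γ] C.T M j :=
  linOfAdd (C.dA j) (C.dA_single_smul K j)

theorem CData.d_apply (K : Type u) [Field K] [Module (MonoidAlgebra K Γ) M] (j : ℕ)
    (t : C.T M (j + 1)) : C.d M K j t = C.dA j t := rfl

end SPH
end

section

/-! # Homotopies and exactness below the top degree (job P7) -/

namespace SPH

universe u

variable {Γ : Type u} [Group Γ] (C : CData Γ) {M : Type u} [AddCommGroup M]

/-- Insertion of the value `0` at `w`. -/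
noncomputable def CData.hA (w : C.W) (j : ℕ) : C.T M j →+ C.T M (j + 1) :=
  C.lift j (fun x => if x w = none then C.pos (C.supp x) w • C.bas M (j + 1) (C.st x w 0) else 0)

/-- The part `x - x[w → 0]` (zero if `w` is not in the support). -/
noncomputable def CData.pA (w : C.W) (j : ℕ) : C.T M j →+ C.T M j :=
  C.lift j (fun x => if x w = none then 0 else C.bas M j x - C.bas M j (C.st x w 0))

theorem CData.hA_bas (w : C.W) (j : ℕ) (x : C.W → Option ℤ) (m : M) :
    C.hA w j (C.bas M j x m) =
      if x w = none then C.pos (C.supp x) w • C.bas M (j + 1) (C.st x w 0) m else 0 := by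
  by_cases h : (C.supp x).card = j
  · rw [CData.hA, C.lift_bas _ h]
    split_ifs <;> rfl
  · rw [C.bas_of_ne h, map_zero]
    split_ifs with hx
    · rw [C.bas_of_ne, smul_zero]
      rw [C.supp_st, Finset.card_insert_of_notMem ((C.notMem_supp x w).2 hx)]
      omega
    · rfl

theorem CData.pA_bas (w : C.W) (j : ℕ) (x : C.W → Option ℤ) (m : M) :
    C.pA w j (C.bas M j x m) =
      if x w = none then 0 else C.bas M j x m - C.bas M j (C.st x w 0) m := by
  by_cases h : (C.supp x).card = j
  · rw [CData.pA, C.lift_bas _ h]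
    split_ifs <;> rfl
  · rw [C.bas_of_ne h, map_zero]
    split_ifs with hx
    · rfl
    · rw [C.bas_of_ne, sub_zero]
      have hw : w ∈ C.supp x := by
        by_contra hw
        exact hx ((C.notMem_supp x w).1 hw)
      rw [C.supp_st, Finset.insert_eq_of_mem hw]
      exact h

theorem CData.er_st (x : C.W → Option ℤ) (w : C.W) (k : ℤ) (h : x w = none) :
    C.er (C.st x w k) w = x := by
  rw [CData.er, CData.st, Function.update_idem]
  funext v
  by_cases hv : v = w
  · subst hv; rw [Function.update_self, h]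
  · rw [Function.update_of_ne hv]

theorem CData.st_er (x : C.W → Option ℤ) (w b : C.W) (k : ℤ) (h : b ≠ w) :
    C.st (C.er x b) w k = C.er (C.st x w k) b := by
  rw [CData.er, CData.st, CData.er, CData.st, Function.update_comm h]

theorem CData.st_er_self (x : C.W → Option ℤ) (w : C.W) (k : ℤ) :
    C.st (C.er x w) w k = C.st x w k := by
  rw [CData.er, CData.st, CData.st, Function.update_idem]

theorem psecHom_sq {A : Type*} [AddCommGroup A] (v : ℤˣ) (x : A) : v • v • x = x := by
  rw [smul_smul, Int.units_mul_self, one_smul]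

theorem CData.homotopy (w : C.W) (j : ℕ) (t : C.T M (j + 1)) :
    C.dA (j + 1) (C.hA w (j + 1) t) + C.hA w j (C.dA j t) + C.pA w (j + 1) t = t := by
  induction t using CData.induction with
  | h0 => simp only [map_zero, add_zero]
  | ha t s ht hs =>
    simp only [map_add]
    rw [← ht, ← hs]
    simp only [map_add, ht, hs]
    conv_rhs => rw [← ht, ← hs]
    abel
  | h x m hx =>
    rw [C.hA_bas, C.pA_bas, C.dA_bas, map_sum]
    have e : ∀ b ∈ C.supp x, C.hA w j (C.pos (C.supp x) b • C.bas M j (C.er x b) m) =
        C.pos (C.supp x) b • (if C.er x b w = none then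
          C.pos ((C.supp x).erase b) w • C.bas M (j + 1) (C.st (C.er x b) w 0) m else 0) := by
      intro b _
      rw [psecD_map_units, C.hA_bas, C.supp_er]
    rw [Finset.sum_congr rfl e]
    by_cases hw : x w = none
    · have hwA : w ∉ C.supp x := (C.notMem_supp x w).2 hw
      rw [if_pos hw, if_pos hw, psecD_map_units, C.dA_bas, C.supp_st,
        Finset.sum_insert hwA, C.er_st x w 0 hw, C.pos_insert_self _ _ hwA, smul_add,
        psecHom_sq, add_zero, add_assoc]
      conv_rhs => rw [← add_zero (C.bas M (j + 1) x m)]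
      congr 1
      rw [Finset.smul_sum, ← Finset.sum_add_distrib]
      refine Finset.sum_eq_zero fun b hb => ?_
      have hbw : b ≠ w := by rintro rfl; exact hwA hb
      have h1 : C.er x b w = none := by
        rw [CData.er, Function.update_of_ne (Ne.symm hbw), hw]
      rw [if_pos h1, smul_smul, smul_smul, C.st_er x w b 0 hbw, C.pos_insert_mul _ w b hwA hb,
        psecD_neg_units, neg_add_cancel]
    · have hwA : w ∈ C.supp x := by
        by_contra hh
        exact hw ((C.notMem_supp x w).1 hh)
      rw [if_neg hw, if_neg hw, map_zero, zero_add, Finset.sum_eq_single w]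
      · have h1 : C.er x w w = none := by rw [CData.er, Function.update_self]
        rw [if_pos h1, C.pos_erase_self _ _ hwA, psecHom_sq, C.st_er_self]
        abel
      · intro b _ hb
        have h1 : C.er x b w = x w := by rw [CData.er, Function.update_of_ne (Ne.symm hb)]
        rw [h1, if_neg hw, smul_zero]
      · intro hh
        exact absurd hwA hh

/-- composition of the `pA w`, `w ∈ l` -/
noncomputable def CData.psecHomP (j : ℕ) : List C.W → (C.T M j →+ C.T M j)
  | [] => AddMonoidHom.id _
  | v :: l => (CData.psecHomP j l).comp (C.pA v j)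

theorem CData.psecHomP_boundary (j : ℕ) (l : List C.W) : ∀ t : C.T M (j + 1), C.dA j t = 0 →
    ∃ s, C.dA (j + 1) s = t - C.psecHomP (j + 1) l t := by
  induction l with
  | nil =>
    intro t _
    refine ⟨0, ?_⟩
    rw [map_zero]
    exact (sub_self t).symm
  | cons v l ih =>
    intro t ht
    have h1 := C.homotopy v j t
    rw [ht, map_zero, add_zero] at h1
    have h2 : C.dA j (C.pA v (j + 1) t) = 0 := by
      have h3 := congrArg (C.dA j) h1
      rw [map_add, C.dA_dA, zero_add, ht] at h3
      exact h3
    obtain ⟨s, hs⟩ := ih _ h2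
    refine ⟨C.hA v (j + 1) t + s, ?_⟩
    rw [map_add, hs]
    change _ = t - C.psecHomP (j + 1) l (C.pA v (j + 1) t)
    conv_rhs => rw [← h1]
    conv_rhs => rw [h1]
    have h4 : C.dA (j + 1) (C.hA v (j + 1) t) = t - C.pA v (j + 1) t := by
      rw [eq_sub_iff_add_eq]; exact h1
    rw [h4]
    abel

theorem CData.psecHomP_bas (j : ℕ) (w : C.W) (m : M) (l : List C.W) (hw : w ∈ l) :
    ∀ x : C.W → Option ℤ, x w = none → C.psecHomP j l (C.bas M j x m) = 0 := by
  induction l with
  | nil => exact absurd hw (List.not_mem_nil)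
  | cons v l ih =>
    intro x hx
    change C.psecHomP j l (C.pA v j (C.bas M j x m)) = 0
    rw [C.pA_bas]
    by_cases hv : x v = none
    · rw [if_pos hv, map_zero]
    · rw [if_neg hv]
      have hvw : w ≠ v := by rintro rfl; exact hv hx
      have hwl : w ∈ l := by
        rcases List.mem_cons.1 hw with h | h
        · exact absurd h hvw
        · exact h
      rw [map_sub, ih hwl x hx, ih hwl (C.st x v 0), sub_zero]
      rw [CData.st, Function.update_of_ne hvw, hx]

/-- Exactness in degrees `1 ≤ j + 1 < |W|`. -/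
theorem CData.exists_dA (j : ℕ) (hj : j + 1 < Fintype.card C.W) (t : C.T M (j + 1))
    (ht : C.dA j t = 0) : ∃ s, C.dA (j + 1) s = t := by
  obtain ⟨s, hs⟩ := C.psecHomP_boundary j (Finset.univ : Finset C.W).toList t ht
  refine ⟨s, ?_⟩
  rw [hs]
  have h0 : (C.psecHomP (j + 1) (Finset.univ : Finset C.W).toList : C.T M (j + 1) →+ _) = 0 := by
    apply C.hom_ext
    intro x m hx
    have : ∃ w, w ∉ C.supp x := by
      by_contra hh
      push Not at hh
      have h1 : C.supp x = Finset.univ := Finset.eq_univ_iff_forall.2 hh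
      rw [h1, Finset.card_univ] at hx
      omega
    obtain ⟨w, hw⟩ := this
    rw [C.psecHomP_bas (j + 1) w m _ (Finset.mem_toList.2 (Finset.mem_univ w)) x
      ((C.notMem_supp x w).1 hw)]
    rfl
  rw [h0]
  exact sub_zero t

/-- Surjectivity of the augmentation. -/
theorem CData.dA_zero_surjective [Nonempty C.W] : Function.Surjective (C.dA (M := M) 0) := by
  intro t
  induction t using CData.induction with
  | h0 => exact ⟨0, map_zero _⟩
  | ha t s ht hs =>
    obtain ⟨t', ht'⟩ := ht
    obtain ⟨s', hs'⟩ := hs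
    exact ⟨t' + s', by rw [map_add, ht', hs']⟩
  | h x m hx =>
    obtain ⟨w⟩ := ‹Nonempty C.W›
    have h0 : C.supp x = ∅ := Finset.card_eq_zero.1 hx
    have hw : x w = none := (C.notMem_supp x w).1 (by rw [h0]; exact Finset.notMem_empty w)
    refine ⟨C.pos {w} w • C.bas M 1 (C.st x w 0) m, ?_⟩
    rw [psecD_map_units, C.dA_bas, C.supp_st, h0]
    change C.pos {w} w • ∑ b ∈ ({w} : Finset C.W), _ = _
    rw [Finset.sum_singleton, C.er_st x w 0 hw]
    exact psecHom_sq _ _

/-- In the top degree a cycle is invariant under all the `pA w`. -/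
theorem CData.pA_eq_of_top (j : ℕ) (hj : j + 1 = Fintype.card C.W) (t : C.T M (j + 1))
    (ht : C.dA j t = 0) (w : C.W) : C.pA w (j + 1) t = t := by
  have h1 := C.homotopy w j t
  have h0 : (C.hA w (j + 1) : C.T M (j + 1) →+ C.T M (j + 2)) = 0 := by
    apply C.hom_ext
    intro x m hx
    have h1 : C.supp x = Finset.univ := by
      apply Finset.eq_univ_of_card
      omega
    have h2 : x w ≠ none := by
      intro h
      have h3 : w ∈ C.supp x := by rw [h1]; exact Finset.mem_univ w
      exact (C.notMem_supp x w).2 h h3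
    rw [C.hA_bas, if_neg h2]
    rfl
  rw [h0, ht, map_zero, add_zero] at h1
  change C.dA (j + 1) 0 + _ = t at h1
  rw [map_zero, zero_add] at h1
  exact h1

end SPH
end

section

/-! # The top degree (job P8) -/

namespace SPH

universe u

variable {Γ : Type u} [Group Γ] (C : CData Γ) {M : Type u} [AddCommGroup M]

/-- Indicator function with integer values. -/
def CData.ind (A : Finset C.W) : C.W → ℤ := fun w => if w ∈ A then 1 else 0

/-- The product of the differences `τ_w - 1`, `w ∈ B`. -/
noncomputable def CData.δA (B : Finset C.W) (j : ℕ) : C.T M j →+ C.T M j :=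
  C.lift j (fun x => ∑ A ∈ B.powerset, (-1 : ℤˣ) ^ (B.card - A.card) • C.bas M j (C.sh (C.ind A) x))

/-! ## Translations -/

/-- the translation by an integer valued function -/
private noncomputable def sT (a : C.W → ℤ) (j : ℕ) : C.T M j →+ C.T M j :=
  C.lift j (fun x => C.bas M j (C.sh a x))

private theorem sT_bas (a : C.W → ℤ) (j : ℕ) (x : C.W → Option ℤ) (m : M) :
    sT C a j (C.bas M j x m) = C.bas M j (C.sh a x) m := by
  by_cases h : (C.supp x).card = j
  · rw [sT, C.lift_bas _ h]
  · rw [C.bas_of_ne h, map_zero, C.bas_of_ne]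
    rwa [C.supp_sh]

private theorem sT_comm (a b : C.W → ℤ) (j : ℕ) (t : C.T M j) :
    sT C a j (sT C b j t) = sT C b j (sT C a j t) := by
  have h : (sT (M := M) C a j).comp (sT C b j) = (sT C b j).comp (sT C a j) := by
    apply C.hom_ext
    intro x m _
    simp only [AddMonoidHom.comp_apply, sT_bas, C.sh_sh, add_comm a b]
  exact DFunLike.congr_fun h t

private theorem δA_bas (B : Finset C.W) (j : ℕ) (x : C.W → Option ℤ) (m : M) :
    C.δA B j (C.bas M j x m) =
      ∑ A ∈ B.powerset, (-1 : ℤˣ) ^ (B.card - A.card) • C.bas M j (C.sh (C.ind A) x) m := by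
  by_cases h : (C.supp x).card = j
  · rw [CData.δA, C.lift_bas _ h, AddMonoidHom.finsetSum_apply]
    rfl
  · rw [C.bas_of_ne h, map_zero]
    symm
    refine Finset.sum_eq_zero fun A _ => ?_
    rw [C.bas_of_ne, smul_zero]
    rwa [C.supp_sh]

private theorem δA_empty (j : ℕ) (t : C.T M j) : C.δA ∅ j t = t := by
  have h : C.δA (M := M) ∅ j = AddMonoidHom.id _ := by
    apply C.hom_ext
    intro x m _
    rw [δA_bas]
    have h0 : C.sh (C.ind ∅) x = x := by
      funext w
      simp [CData.sh, CData.ind]
    simp [h0]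
  rw [h]; rfl

private theorem δA_insert (B : Finset C.W) (w : C.W) (hw : w ∉ B) (j : ℕ) (t : C.T M j) :
    C.δA (insert w B) j t = sT C (C.ind {w}) j (C.δA B j t) - C.δA B j t := by
  have h : C.δA (M := M) (insert w B) j =
      (sT C (C.ind {w}) j).comp (C.δA B j) - C.δA B j := by
    apply C.hom_ext
    intro x m _
    rw [AddMonoidHom.sub_apply, AddMonoidHom.comp_apply, δA_bas, δA_bas,
      Finset.sum_powerset_insert hw, map_sum, add_comm, sub_eq_add_neg, ← Finset.sum_neg_distrib]
    congr 1
    · refine Finset.sum_congr rfl fun A hA => ?_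
      have hwA : w ∉ A := fun h => hw (Finset.mem_powerset.1 hA h)
      rw [Finset.card_insert_of_notMem hw, Finset.card_insert_of_notMem hwA,
        Nat.add_sub_add_right]
      have h1 : C.sh (C.ind (insert w A)) x = C.sh (C.ind {w}) (C.sh (C.ind A) x) := by
        rw [C.sh_sh]
        congr 1
        funext v
        simp only [CData.ind, Finset.mem_insert, Finset.mem_singleton, Pi.add_apply]
        by_cases hv : v = w
        · subst hv; simp [hwA]
        · simp [hv]
      rw [h1]
      rcases neg_one_pow_eq_or ℤˣ (B.card - A.card) with h2 | h2 <;> rw [h2]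
      · rw [one_smul, one_smul, sT_bas]
      · rw [Units.neg_smul, Units.neg_smul, one_smul, one_smul, map_neg, sT_bas]
    · refine Finset.sum_congr rfl fun A hA => ?_
      have hAB : A.card ≤ B.card := Finset.card_le_card (Finset.mem_powerset.1 hA)
      rw [Finset.card_insert_of_notMem hw, Nat.succ_sub hAB, pow_succ, mul_neg, mul_one,
        Units.neg_smul]
  rw [h]; rfl

private theorem δA_sT (B : Finset C.W) (a : C.W → ℤ) (j : ℕ) (t : C.T M j) :
    C.δA B j (sT C a j t) = sT C a j (C.δA B j t) := by
  classical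
  induction B using Finset.induction_on with
  | empty => rw [δA_empty, δA_empty]
  | insert w B hw ih => rw [δA_insert C B w hw, δA_insert C B w hw, ih, map_sub, sT_comm]

theorem CData.δA_single_smul (K : Type u) [Field K] [Module (MonoidAlgebra K Γ) M] (j : ℕ)
    (γ : Γ) (a : K) (t : C.T M j) :
    C.δA Finset.univ j ((MonoidAlgebra.single γ a : MonoidAlgebra K Γ) • t) =
      (MonoidAlgebra.single γ a : MonoidAlgebra K Γ) • C.δA Finset.univ j t := by
  refine C.induction (p := fun t => C.δA Finset.univ j
    ((MonoidAlgebra.single γ a : MonoidAlgebra K Γ) • t) =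
      (MonoidAlgebra.single γ a : MonoidAlgebra K Γ) • C.δA Finset.univ j t) t ?_ ?_ ?_
  · rw [smul_zero, map_zero, smul_zero]
  · intro x y hx hy
    rw [smul_add, map_add, map_add, hx, hy, smul_add]
  · intro x m _
    rw [C.single_smul_bas, δA_bas, δA_bas, Finset.smul_sum]
    symm
    rw [Finset.powerset_univ]
    refine Fintype.sum_equiv (MulAction.toPerm γ : Equiv.Perm C.W).finsetCongr _ _ ?_
    intro A
    have h1 : (Equiv.finsetCongr (MulAction.toPerm γ : Equiv.Perm C.W) A).card = A.card := by
      rw [Equiv.finsetCongr_apply, Finset.card_map]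
    have h4 : (fun w => C.ind A (γ⁻¹ • w)) =
        C.ind (Equiv.finsetCongr (MulAction.toPerm γ : Equiv.Perm C.W) A) := by
      funext w
      simp only [CData.ind, Equiv.finsetCongr_apply, Finset.mem_map_equiv,
        MulAction.toPerm_symm_apply]
    rw [h1, smul_comm, C.single_smul_bas, C.supp_sh, C.pact_sh, h4]

variable (M) in
/-- The map `δ` as a linear map. -/
noncomputable def CData.δ (K : Type u) [Field K] [Module (MonoidAlgebra K Γ) M] (j : ℕ) :
    C.T M j →ₗ[MonoidAlgebra K Γ] C.T M j :=
  linOfAdd (C.δA Finset.univ j) (C.δA_single_smul K j)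

private theorem dA_sT (a : C.W → ℤ) (j : ℕ) (t : C.T M (j + 1)) :
    C.dA j (sT C a (j + 1) t) = sT C a j (C.dA j t) := by
  have h : (C.dA (M := M) j).comp (sT C a (j + 1)) = (sT C a j).comp (C.dA j) := by
    apply C.hom_ext
    intro x m _
    rw [AddMonoidHom.comp_apply, AddMonoidHom.comp_apply, sT_bas, C.dA_bas, C.dA_bas, map_sum,
      C.supp_sh]
    refine Finset.sum_congr rfl fun b _ => ?_
    rcases Int.units_eq_one_or (C.pos (C.supp x) b) with h2 | h2 <;> rw [h2]
    · rw [one_smul, one_smul, sT_bas, C.sh_er]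
    · rw [Units.neg_smul, Units.neg_smul, one_smul, one_smul, map_neg, sT_bas, C.sh_er]
  exact DFunLike.congr_fun h t

private theorem dA_δA_comm (B : Finset C.W) (j : ℕ) (t : C.T M (j + 1)) :
    C.dA j (C.δA B (j + 1) t) = C.δA B j (C.dA j t) := by
  classical
  induction B using Finset.induction_on with
  | empty => rw [δA_empty, δA_empty]
  | insert w B hw ih => rw [δA_insert C B w hw, δA_insert C B w hw, map_sub, dA_sT, ih]

private theorem δA_univ_zero (j : ℕ) (hj : j < Fintype.card C.W) (t : C.T M j) :
    C.δA Finset.univ j t = 0 := by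
  classical
  refine C.induction (p := fun t => C.δA Finset.univ j t = 0) t (map_zero _) ?_ ?_
  · intro x y hx hy
    rw [map_add, hx, hy, add_zero]
  · intro x m hx
    obtain ⟨w, hw⟩ : ∃ w, x w = none := by
      by_contra hc
      push Not at hc
      have h1 : C.supp x = Finset.univ := by
        ext w
        rw [C.mem_supp]
        simp only [Finset.mem_univ, iff_true]
        exact Option.isSome_iff_ne_none.2 (hc w)
      rw [h1, Finset.card_univ] at hx
      omega
    have h2 : (Finset.univ : Finset C.W) = insert w (Finset.univ.erase w) := by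
      rw [Finset.insert_erase (Finset.mem_univ w)]
    rw [h2, δA_insert C _ w (Finset.notMem_erase w _), ← δA_sT, sT_bas]
    have h3 : C.sh (C.ind {w}) x = x := by
      funext v
      by_cases hv : v = w
      · subst hv; simp [CData.sh, hw]
      · simp [CData.sh, CData.ind, hv]
    rw [h3, sub_self]

theorem CData.dA_δA (j : ℕ) (hj : j + 1 = Fintype.card C.W) (t : C.T M (j + 1)) :
    C.dA j (C.δA Finset.univ (j + 1) t) = 0 := by
  rw [dA_δA_comm, δA_univ_zero C j (by omega)]

/-! ## Coefficients -/

/-- the coefficient at `x` -/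
private noncomputable def coef {j : ℕ} (x : C.PS j) : C.T M j →+ M :=
  (Finsupp.applyAddHom x : (C.PS j →₀ M) →+ M)

open scoped Classical in
private theorem coef_bas {j : ℕ} (x y : C.PS j) (m : M) :
    coef C x (C.bas M j y.1 m) = if y = x then m else 0 := by
  rw [C.bas_val]
  exact Finsupp.single_apply

private theorem coef_ext {j : ℕ} (t : C.T M j) (h : ∀ x : C.PS j, coef C x t = 0) : t = 0 :=
  Finsupp.ext (f := (t : C.PS j →₀ M)) (g := 0) h

/-- the translate of an element of `PS` -/
private def shP {j : ℕ} (a : C.W → ℤ) (x : C.PS j) : C.PS j :=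
  ⟨C.sh a x.1, by rw [C.supp_sh]; exact x.2⟩

private theorem coef_sT {j : ℕ} (a : C.W → ℤ) (x : C.PS j) (t : C.T M j) :
    coef C (shP C a x) (sT C a j t) = coef C x t := by
  classical
  refine C.induction (p := fun t => coef C (shP C a x) (sT C a j t) = coef C x t) t ?_ ?_ ?_
  · rw [map_zero, map_zero, map_zero]
  · intro s t hs ht
    rw [map_add, map_add, map_add, hs, ht]
  · intro y m hy
    obtain ⟨z, rfl⟩ : ∃ z : C.PS j, z.1 = y := ⟨⟨y, hy⟩, rfl⟩
    rw [sT_bas]
    have h1 := coef_bas (M := M) C (shP C a x) (shP C a z) m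
    change coef C _ (C.bas M j (C.sh a z.1) m) = _ at h1
    rw [h1, coef_bas (M := M) C x z m]
    have h3 : shP C a z = shP C a x ↔ z = x := by
      constructor
      · intro h
        have h4 : C.sh (-a) (C.sh a z.1) = C.sh (-a) (C.sh a x.1) := by
          rw [show C.sh a z.1 = C.sh a x.1 from congrArg Subtype.val h]
        rw [C.sh_sh, C.sh_sh, neg_add_cancel] at h4
        have h5 : ∀ z : C.W → Option ℤ, C.sh 0 z = z := by
          intro z; funext w; simp [CData.sh]
        rw [h5, h5] at h4
        exact Subtype.ext h4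
      · intro h; rw [h]
    by_cases hh : z = x
    · rw [if_pos hh, if_pos (h3.2 hh)]
    · rw [if_neg hh, if_neg fun h => hh (h3.1 h)]

private theorem coef_bound {j : ℕ} (w : C.W) (t : C.T M j) :
    ∃ N : ℤ, ∀ x : C.PS j, ∀ k : ℤ, x.1 w = some k → N ≤ k → coef C x t = 0 := by
  classical
  refine C.induction (p := fun t => ∃ N : ℤ, ∀ x : C.PS j, ∀ k : ℤ, x.1 w = some k → N ≤ k →
    coef C x t = 0) t ⟨0, fun x k _ _ => map_zero _⟩ ?_ ?_
  · rintro s t ⟨N, hN⟩ ⟨N', hN'⟩
    refine ⟨max N N', fun x k hx hk => ?_⟩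
    rw [map_add, hN x k hx (le_trans (le_max_left _ _) hk),
      hN' x k hx (le_trans (le_max_right _ _) hk), add_zero]
  · intro y m hy
    refine ⟨(y w).getD 0 + 1, fun x k hx hk => ?_⟩
    have h2 := coef_bas (M := M) C x ⟨y, hy⟩ m
    change coef C _ (C.bas M j y m) = _ at h2
    rw [h2, if_neg]
    rintro rfl
    change y w = some k at hx
    rw [hx] at hk
    simp at hk

private theorem sT_fixed {j : ℕ} (hj : j = Fintype.card C.W) (w : C.W) (t : C.T M j)
    (h : sT C (C.ind {w}) j t = t) : t = 0 := by
  classical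
  obtain ⟨N, hN⟩ := coef_bound C w t
  refine coef_ext C t ?_
  -- going up
  have key : ∀ n : ℕ, ∀ x : C.PS j, ∀ k : ℤ, x.1 w = some k → N ≤ k + n → coef C x t = 0 := by
    intro n
    induction n with
    | zero =>
      intro x k hx hk
      exact hN x k hx (by simpa using hk)
    | succ n ih =>
      intro x k hx hk
      rw [← coef_sT C (C.ind {w}) x t, h]
      refine ih _ (k + 1) ?_ (by push_cast at hk; linarith)
      simp [shP, CData.sh, hx, CData.ind]
  intro x
  have hs : w ∈ C.supp x.1 := by
    have h1 : C.supp x.1 = Finset.univ := by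
      rw [← Finset.card_eq_iff_eq_univ, x.2, hj]
    rw [h1]; exact Finset.mem_univ _
  rw [C.mem_supp, Option.isSome_iff_exists] at hs
  obtain ⟨k, hk⟩ := hs
  exact key (N - k).toNat x k hk (by have := Int.self_le_toNat (N - k); linarith)

theorem CData.δA_injective (j : ℕ) (hj : j = Fintype.card C.W) :
    Function.Injective (C.δA (M := M) Finset.univ j) := by
  classical
  have key : ∀ B : Finset C.W, ∀ t : C.T M j, C.δA B j t = 0 → t = 0 := by
    intro B
    induction B using Finset.induction_on with
    | empty => intro t ht; rwa [δA_empty] at ht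
    | insert w B hw ih =>
      intro t ht
      rw [δA_insert C B w hw, sub_eq_zero] at ht
      exact ih t (sT_fixed C hj w _ ht)
  rw [injective_iff_map_eq_zero]
  exact fun t ht => key _ t ht

/-! ## Division -/

private theorem telescope {Y : Type*} [AddCommGroup Y] (F : ℤ → Y) (k : ℤ) :
    (∑ i ∈ Finset.Ico 0 k, F (i + 1) - ∑ i ∈ Finset.Ico k 0, F (i + 1)) -
      (∑ i ∈ Finset.Ico 0 k, F i - ∑ i ∈ Finset.Ico k 0, F i) = F k - F 0 := by
  rcases le_total 0 k with hk | hk
  · obtain ⟨n, rfl⟩ := Int.eq_ofNat_of_zero_le hk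
    rw [Finset.Ico_eq_empty (a := (n : ℤ)) (by omega)]
    clear hk
    induction n with
    | zero => simp
    | succ n ih =>
      have h1 : Finset.Ico (0 : ℤ) ((n + 1 : ℕ) : ℤ) = insert (n : ℤ) (Finset.Ico 0 (n : ℤ)) := by
        ext x; simp only [Finset.mem_Ico, Finset.mem_insert]; omega
      rw [h1, Finset.sum_insert (by simp), Finset.sum_insert (by simp)]
      simp only [Finset.sum_empty, sub_zero] at ih ⊢
      rw [add_sub_add_comm, ih]
      push_cast
      abel
  · obtain ⟨n, hn⟩ := Int.eq_ofNat_of_zero_le (neg_nonneg.2 hk)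
    obtain rfl : k = -(n : ℤ) := by rw [← hn, neg_neg]
    rw [Finset.Ico_eq_empty (b := -(n : ℤ)) (by omega)]
    clear hk hn
    induction n with
    | zero => simp
    | succ n ih =>
      have h1 : Finset.Ico (-((n + 1 : ℕ) : ℤ)) 0 =
          insert (-((n + 1 : ℕ) : ℤ)) (Finset.Ico (-(n : ℤ)) 0) := by
        ext x; simp only [Finset.mem_Ico, Finset.mem_insert]; omega
      rw [h1, Finset.sum_insert (by simp), Finset.sum_insert (by simp)]
      simp only [Finset.sum_empty, zero_sub] at ih ⊢
      have h2 : -((n + 1 : ℕ) : ℤ) + 1 = -(n : ℤ) := by push_cast; ring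
      rw [h2]
      rw [neg_sub_neg] at ih ⊢
      rw [add_sub_add_comm, ih]
      abel

/-- division of `pA w` by `τ_w - 1` -/
private noncomputable def qA (w : C.W) (j : ℕ) : C.T M j →+ C.T M j :=
  C.lift j (fun x => if x w = none then 0 else
    (∑ i ∈ Finset.Ico 0 ((x w).getD 0), C.bas M j (C.st x w i) -
      ∑ i ∈ Finset.Ico ((x w).getD 0) 0, C.bas M j (C.st x w i)))

private theorem sh_st_self (x : C.W → Option ℤ) (w : C.W) (i : ℤ) :
    C.sh (C.ind {w}) (C.st x w i) = C.st x w (i + 1) := by
  funext v
  by_cases hv : v = w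
  · subst hv; simp [CData.sh, CData.st, CData.ind]
  · simp [CData.sh, CData.st, CData.ind, hv]

private theorem sh_st_ne (x : C.W → Option ℤ) (v w : C.W) (hvw : v ≠ w) (i : ℤ) :
    C.sh (C.ind {v}) (C.st x w i) = C.st (C.sh (C.ind {v}) x) w i := by
  funext u
  by_cases hu : u = w
  · subst hu; simp [CData.sh, CData.st, CData.ind, hvw.symm]
  · simp [CData.sh, CData.st, hu]

private theorem pA_eq (w : C.W) (j : ℕ) (t : C.T M j) :
    C.pA w j t = sT C (C.ind {w}) j (qA C w j t) - qA C w j t := by
  have h : C.pA (M := M) w j = (sT C (C.ind {w}) j).comp (qA C w j) - qA C w j := by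
    apply C.hom_ext
    intro x m hx
    rw [AddMonoidHom.sub_apply, AddMonoidHom.comp_apply, CData.pA, qA, C.lift_bas _ hx,
      C.lift_bas _ hx]
    by_cases hw : x w = none
    · rw [if_pos hw, if_pos hw]
      simp
    · rw [if_neg hw, if_neg hw]
      obtain ⟨k, hk⟩ := Option.ne_none_iff_exists'.1 hw
      rw [hk, Option.getD_some]
      simp only [AddMonoidHom.sub_apply, AddMonoidHom.finsetSum_apply, map_sub, map_sum, sT_bas,
        sh_st_self]
      rw [telescope (fun i => C.bas M j (C.st x w i) m) k]
      have h1 : C.st x w k = x := by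
        funext v
        by_cases hv : v = w
        · subst hv; simp [CData.st, hk]
        · simp [CData.st, hv]
      rw [h1]
  rw [h]; rfl

private theorem qA_sT (v w : C.W) (hvw : v ≠ w) (j : ℕ) (t : C.T M j) :
    qA C w j (sT C (C.ind {v}) j t) = sT C (C.ind {v}) j (qA C w j t) := by
  have h : (qA (M := M) C w j).comp (sT C (C.ind {v}) j) =
      (sT C (C.ind {v}) j).comp (qA C w j) := by
    apply C.hom_ext
    intro x m hx
    have hx' : (C.supp (C.sh (C.ind {v}) x)).card = j := by rwa [C.supp_sh]
    have h1 : C.sh (C.ind {v}) x w = x w := by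
      simp [CData.sh, CData.ind, hvw.symm]
    rw [AddMonoidHom.comp_apply, AddMonoidHom.comp_apply, sT_bas, qA, C.lift_bas _ hx,
      C.lift_bas _ hx', h1]
    by_cases hw : x w = none
    · rw [if_pos hw, if_pos hw]
      simp
    · rw [if_neg hw, if_neg hw]
      simp only [AddMonoidHom.sub_apply, AddMonoidHom.finsetSum_apply, map_sub, map_sum, sT_bas,
        sh_st_ne C x v w hvw]
  exact DFunLike.congr_fun h t

private theorem pA_δA (w : C.W) (B : Finset C.W) (hw : w ∉ B) (j : ℕ) (t : C.T M j) :
    C.pA w j (C.δA B j t) = C.δA B j (C.pA w j t) := by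
  classical
  induction B using Finset.induction_on with
  | empty => rw [δA_empty, δA_empty]
  | insert v B hv ih =>
    have hvw : v ≠ w := fun h => hw (by rw [h]; exact Finset.mem_insert_self _ _)
    have ih' := ih fun h => hw (Finset.mem_insert_of_mem h)
    have h1 : ∀ s : C.T M j, C.pA w j (sT C (C.ind {v}) j s) =
        sT C (C.ind {v}) j (C.pA w j s) := by
      intro s
      rw [pA_eq, pA_eq, qA_sT C v w hvw, map_sub, sT_comm]
    rw [δA_insert C B v hv, δA_insert C B v hv, map_sub, h1, ih']

theorem CData.exists_δA (j : ℕ) (hj : j + 1 = Fintype.card C.W) (t : C.T M (j + 1))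
    (ht : C.dA j t = 0) : ∃ s, C.δA Finset.univ (j + 1) s = t := by
  classical
  have h : ∀ w, C.pA w (j + 1) t = t := C.pA_eq_of_top j hj t ht
  have key : ∀ B : Finset C.W, ∃ s, C.δA B (j + 1) s = t := by
    intro B
    induction B using Finset.induction_on with
    | empty => exact ⟨t, δA_empty C _ _⟩
    | insert w B hw ih =>
      obtain ⟨s, hs⟩ := ih
      refine ⟨qA C w (j + 1) s, ?_⟩
      rw [δA_insert C B w hw, ← δA_sT, ← map_sub, ← pA_eq, ← pA_δA C w B hw, hs, h]
  exact key _

end SPH
end
end
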