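import Mathlib
import Pool.Agent.Lib.MP_7b9603_al.IdemSub
import Pool.Agent.Lib.MP_7b9603_al.Roots
import Pool.Agent.Lib.MP_7b9603_al.Weyl
import Pool.Agent.Lib.MP_7b9603_al.PSecTop

section

section

/-! # Faithfulness on positive words (job K4) -/

namespace SPH

open scoped Classical
open Polynomial

universe u

set_option linter.unusedSectionVars false

variable {S : Type u} [Fintype S] [DecidableEq S] {G : SimpleGraph S} [Fintype (PRoot G)]

private theorem k4_sr_inj {s t : S} (h : s ≠ t) : sr s ≠ sr t := by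
  intro e
  have := congrFun e s
  simp [sr, h] at this

private theorem k4_vv_self (D : TData G) (l : List S) (s : S) :
    vv D (s :: l) ⟨sr s, isPos_sr G s⟩ = 0 := by
  simp [vv, lk]

private theorem k4_wd_cons (s : S) (l : List S) : wd G (s :: l) = gen G s * wd G l := by
  simp [wd]

private theorem k4_vv_far (D : TData G) (l : List S) {s t : S} (hne : s ≠ t)
    (h : ¬ G.Adj t s) :
    vv D (t :: l) ⟨sr s, isPos_sr G s⟩ = vv D l ⟨sr s, isPos_sr G s⟩ := by
  have h1 : pr G t (sr s) = 0 := by rw [pr_sr, cart_not_adj G hne.symm h]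
  simp [vv, lk, k4_sr_inj hne, h1]

private theorem k4_pos_add {s t : S} (h : G.Adj t s) : IsPos G (sr s + sr t) := by
  have h1 : pr G t (sr s) = -1 := by rw [pr_sr, cart_adj G h]
  exact (isPos_sr G s).add_sr h1

private theorem k4_vv_adj (D : TData G) (l : List S) {s t : S} (h : G.Adj t s) :
    vv D (t :: l) ⟨sr s, isPos_sr G s⟩ = (1 / 2) * vv D l ⟨sr s, isPos_sr G s⟩ +
      (1 / 2) * vv D l ⟨sr s + sr t, k4_pos_add h⟩ := by
  have h1 : pr G t (sr s) = -1 := by rw [pr_sr, cart_adj G h]
  have hp := k4_pos_add h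
  have hne : s ≠ t := h.ne'
  simp only [vv, lk, LinearMap.coe_mk, AddHom.coe_mk]
  rw [if_neg (k4_sr_inj hne), if_neg (by rw [h1]; norm_num), if_neg (by rw [h1]; norm_num),
    ext0, dif_pos hp]
  norm_num

private theorem k4_vv_adj2 (D : TData G) (l : List S) {s t : S} (h : G.Adj t s) :
    vv D (s :: l) ⟨sr s + sr t, k4_pos_add h⟩ = vv D l ⟨sr t, isPos_sr G t⟩ := by
  have h1 : pr G s (sr s + sr t) = 1 := by
    rw [pr_add, pr_sr, pr_sr, cart_self, cart_adj G h.symm]; norm_num
  have hne : sr s + sr t ≠ sr s := by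
    intro e
    have h2 := congrFun e t
    simp [sr] at h2
  have h3 : sr s + sr t - sr s = sr t := by abel
  simp only [vv, lk, LinearMap.coe_mk, AddHom.coe_mk]
  rw [if_neg hne, if_neg (by rw [h1]; norm_num), if_pos h1, ext0, h3, dif_pos (isPos_sr G t)]

theorem exists_left_div (hG : PosDef G) (D : TData G) (l : List S) (s : S)
    (h : vv D l ⟨sr s, isPos_sr G s⟩ = 0) :
    ∃ l' : List S, l'.length + 1 = l.length ∧ wd G l = gen G s * wd G l' := by
  induction hn : l.length using Nat.strong_induction_on generalizing l s with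
  | _ n ih =>
    cases l with
    | nil => simp [vv] at h
    | cons t l1 =>
      have hl : l1.length + 1 = n := by simpa using hn
      by_cases hst : s = t
      · subst hst
        exact ⟨l1, by simpa using hl, k4_wd_cons s l1⟩
      by_cases hadj : G.Adj t s
      · rw [k4_vv_adj D l1 hadj] at h
        have a1 := vv_nonneg D l1 ⟨sr s, isPos_sr G s⟩
        have a2 := vv_nonneg D l1 ⟨sr s + sr t, k4_pos_add hadj⟩
        have b1 : vv D l1 ⟨sr s, isPos_sr G s⟩ = 0 := by linarith
        have b2 : vv D l1 ⟨sr s + sr t, k4_pos_add hadj⟩ = 0 := by linarith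
        obtain ⟨l2, hl2, hw2⟩ := ih l1.length (by omega) l1 s b1 rfl
        have hv : vv D l1 = vv D (s :: l2) :=
          vv_eq_of_lkRep_eq hG D l1 (s :: l2) (by rw [hw2, k4_wd_cons])
        rw [hv, k4_vv_adj2 D l2 hadj] at b2
        obtain ⟨l3, hl3, hw3⟩ := ih l2.length (by omega) l2 t b2 rfl
        refine ⟨t :: s :: l3, ?_, ?_⟩
        · simp only [List.length_cons]; omega
        · rw [k4_wd_cons, k4_wd_cons, k4_wd_cons, hw2, hw3, ← mul_assoc, ← mul_assoc,
            ← mul_assoc, ← mul_assoc, (gen_braid G).2 t s hadj]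
      · rw [k4_vv_far D l1 hst hadj] at h
        obtain ⟨l2, hl2, hw2⟩ := ih l1.length (by omega) l1 s h rfl
        refine ⟨t :: l2, ?_, ?_⟩
        · simp only [List.length_cons]; omega
        · rw [k4_wd_cons, k4_wd_cons, hw2, ← mul_assoc, ← mul_assoc,
            (gen_braid G).1 t s hadj]

theorem wd_eq_of_lkRep_eq (hG : PosDef G) (D : TData G) (l l' : List S)
    (h : lkRep hG D xU tU (wd G l) = lkRep hG D xU tU (wd G l')) : wd G l = wd G l' := by
  induction l generalizing l' with
  | nil =>
    cases l' with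
    | nil => rfl
    | cons s l1 =>
      exfalso
      have hv := vv_eq_of_lkRep_eq hG D [] (s :: l1) h
      have h1 := congrFun hv ⟨sr s, isPos_sr G s⟩
      rw [k4_vv_self] at h1
      simp [vv] at h1
  | cons s l1 ih =>
    have hv := vv_eq_of_lkRep_eq hG D (s :: l1) l' h
    have h1 := congrFun hv ⟨sr s, isPos_sr G s⟩
    rw [k4_vv_self] at h1
    obtain ⟨l2, -, hw2⟩ := exists_left_div hG D l' s h1.symm
    rw [k4_wd_cons, hw2, map_mul, map_mul, mul_right_inj] at h
    rw [k4_wd_cons, hw2, ih l2 h]

end SPH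
end

section

/-! # Reduced words (job K5) -/

namespace SPH

open scoped Classical
open Polynomial

universe u

set_option linter.unusedSectionVars false

variable {S : Type u} [Fintype S] [DecidableEq S] {G : SimpleGraph S} [Fintype (PRoot G)]

private theorem k5_wd_cons (s : S) (l : List S) : wd G (s :: l) = gen G s * wd G l := by
  simp [wd]

private theorem k5_vv_self (D : TData G) (l : List S) (s : S) (γ : PRoot G)
    (h : γ.1 = sr s) : vv D (s :: l) γ = 0 := by
  simp [vv, lk, h]

private theorem k5_gen_inv (s : S) (v : S → ℤ) : toW G (gen G s)⁻¹ v = rf G s v := by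
  rw [map_inv, toW_gen]
  show (rfE G s).symm v = rf G s v
  rw [LinearEquiv.symm_apply_eq, rfE_apply, rf_rf]

private theorem k5_inv_cons (s : S) (l : List S) (v : S → ℤ) :
    toW G (wd G (s :: l))⁻¹ v = toW G (wd G l)⁻¹ (rf G s v) := by
  rw [k5_wd_cons, mul_inv_rev, map_mul, LinearEquiv.mul_apply, k5_gen_inv]

private theorem k5_len (hG : PosDef G) (s : S) (l : List S)
    (hred : lenN G (wd G (s :: l)) = (s :: l).length) :
    lenN G (wd G l) = l.length ∧ IsPos G (toW G (wd G l)⁻¹ (sr s)) := by
  have h1 := lenN_wd_le hG l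
  rw [k5_wd_cons, List.length_cons] at hred
  have hr : IsRoot G (toW G (wd G l)⁻¹ (sr s)) := isRoot_toW G _ (isRoot_sr G s)
  rcases hr.pos_or_neg hG with hp | hn
  · have h2 := lenN_gen_mul_of_pos hG s (wd G l) hp
    exact ⟨by omega, hp⟩
  · have h2 := lenN_gen_mul_of_neg hG s (wd G l) hn
    omega

private theorem k5_lenN_congr {g g' : AGrp G} (h : toW G g = toW G g') :
    lenN G g = lenN G g' := by
  simp only [lenN, map_inv, h]

theorem vv_eq_zero_iff (hG : PosDef G) (D : TData G) (l : List S)
    (hred : lenN G (wd G l) = l.length) (γ : PRoot G) :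
    vv D l γ = 0 ↔ IsPos G (-(toW G (wd G l)⁻¹ γ.1)) := by
  induction l generalizing γ with
  | nil =>
    have h1 : toW G (wd G ([] : List S))⁻¹ γ.1 = γ.1 := by simp [wd]
    rw [h1]
    have := γ.2.not_neg
    simp [vv, this]
  | cons s l1 ih =>
    obtain ⟨hred1, hp⟩ := k5_len hG s l1 hred
    have ih' := ih hred1
    rw [k5_inv_cons]
    by_cases hs : γ.1 = sr s
    · rw [k5_vv_self D l1 s γ hs, hs, rf_sr, map_neg, neg_neg]
      exact ⟨fun _ => hp, fun _ => rfl⟩
    · rcases γ.2.pr_cases hG hs with h | h | h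
      · -- pr = -1
        have hadd : IsPos G (γ.1 + sr s) := γ.2.add_sr h
        have hrf : rf G s γ.1 = γ.1 + sr s := by rw [rf, h]; simp
        have hv : vv D (s :: l1) γ = (1 / 2) * vv D l1 γ +
            (1 / 2) * vv D l1 ⟨γ.1 + sr s, hadd⟩ := by
          simp only [vv, lk, LinearMap.coe_mk, AddHom.coe_mk]
          rw [if_neg hs, if_neg (by rw [h]; norm_num), if_neg (by rw [h]; norm_num), ext0,
            dif_pos hadd]
          norm_num
        rw [hv, hrf]
        have a1 := vv_nonneg D l1 γ
        have a2 := vv_nonneg D l1 ⟨γ.1 + sr s, hadd⟩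
        constructor
        · intro h0
          have b2 : vv D l1 ⟨γ.1 + sr s, hadd⟩ = 0 := by linarith
          exact (ih' ⟨γ.1 + sr s, hadd⟩).1 b2
        · intro h0
          have b2 : vv D l1 ⟨γ.1 + sr s, hadd⟩ = 0 := (ih' ⟨γ.1 + sr s, hadd⟩).2 h0
          have b1 : vv D l1 γ = 0 := by
            have hneg : IsRoot G (-(toW G (wd G l1)⁻¹ γ.1)) :=
              isRoot_neg G (isRoot_toW G (wd G l1)⁻¹ γ.2.1)
            refine (ih' γ).2 ⟨hneg, fun t => ?_⟩
            have c1 := h0.2 t
            have c2 := hp.2 t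
            rw [map_add] at c1
            simp only [Pi.neg_apply, Pi.add_apply] at c1 c2 ⊢
            linarith
          rw [b1, b2]; norm_num
      · -- pr = 0
        have hrf : rf G s γ.1 = γ.1 := by rw [rf, h]; simp
        have hv : vv D (s :: l1) γ = vv D l1 γ := by
          simp [vv, lk, hs, h]
        rw [hv, hrf]
        exact ih' γ
      · -- pr = 1
        have hsub : IsPos G (γ.1 - sr s) := γ.2.sub_sr hG h
        have hrf : rf G s γ.1 = γ.1 - sr s := by rw [rf, h]; simp
        have hv : vv D (s :: l1) γ = vv D l1 ⟨γ.1 - sr s, hsub⟩ := by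
          simp only [vv, lk, LinearMap.coe_mk, AddHom.coe_mk]
          rw [if_neg hs, if_neg (by rw [h]; norm_num), if_pos h, ext0, dif_pos hsub]
        rw [hv, hrf]
        exact ih' ⟨γ.1 - sr s, hsub⟩

theorem wd_eq_of_reduced (hG : PosDef G) (D : TData G) (l l' : List S)
    (hred : lenN G (wd G l) = l.length) (hred' : lenN G (wd G l') = l'.length)
    (h : toW G (wd G l) = toW G (wd G l')) : wd G l = wd G l' := by
  induction l generalizing l' with
  | nil =>
    have h1 := k5_lenN_congr h
    rw [hred, hred'] at h1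
    have h2 : l' = [] := List.eq_nil_of_length_eq_zero (by simpa using h1.symm)
    rw [h2]
  | cons s l1 ih =>
    obtain ⟨hred1, -⟩ := k5_len hG s l1 hred
    have h1 := k5_lenN_congr h
    rw [hred, hred'] at h1
    have h2 : vv D (s :: l1) ⟨sr s, isPos_sr G s⟩ = 0 := k5_vv_self D l1 s _ rfl
    have h3 : vv D l' ⟨sr s, isPos_sr G s⟩ = 0 := by
      rw [vv_eq_zero_iff hG D l' hred', map_inv, ← h, ← map_inv]
      exact (vv_eq_zero_iff hG D (s :: l1) hred _).1 h2
    obtain ⟨l2, hl2, hw2⟩ := exists_left_div hG D l' s h3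
    have h4 : toW G (wd G l1) = toW G (wd G l2) := by
      rw [k5_wd_cons, hw2, map_mul, map_mul, mul_right_inj] at h
      exact h
    have h5 := k5_lenN_congr h4
    have h6 : lenN G (wd G l2) = l2.length := by
      rw [← h5, hred1]
      simp only [List.length_cons] at h1
      omega
    rw [k5_wd_cons, hw2, ih l2 hred1 h6 h4]

end SPH
end
end

section

section

/-! # The geometric representation of a finite Coxeter group is positive definite (job V1) -/

namespace SPH

open scoped Classical

universe u

set_option linter.unusedSectionVars false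

variable {S : Type u} [Fintype S] [DecidableEq S] (M : CoxeterMatrix S)

/-- The Coxeter form (with `2` on the diagonal); `M s t = 0` gives `-2 cos 0 = -2`. -/
noncomputable def cform (v w : S → ℝ) : ℝ :=
  ∑ s, ∑ t, v s * w t * (-2 * Real.cos (Real.pi / (M s t : ℝ)))

section Aux

/-- Entries of the Coxeter form. -/
noncomputable def geomC (s t : S) : ℝ := -2 * Real.cos (Real.pi / (M s t : ℝ))

theorem geomC_self (s : S) : geomC M s s = 2 := by
  simp [geomC]

theorem geomC_comm (s t : S) : geomC M s t = geomC M t s := by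
  rw [geomC, geomC, M.symmetric s t]

/-- Pairing with a basis vector, as a linear functional. -/
noncomputable def geomP (s : S) : (S → ℝ) →ₗ[ℝ] ℝ where
  toFun v := ∑ t, geomC M s t * v t
  map_add' v w := by simp [mul_add, Finset.sum_add_distrib]
  map_smul' c v := by
    simp only [Pi.smul_apply, smul_eq_mul, RingHom.id_apply, Finset.mul_sum]
    exact Finset.sum_congr rfl fun t _ => by ring

theorem geomP_single (s t : S) : geomP M s (Pi.single t 1) = geomC M s t := by
  simp [geomP, Pi.single_apply]

/-- The reflections. -/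
noncomputable def geomR (s : S) : Module.End ℝ (S → ℝ) :=
  LinearMap.id - (geomP M s).smulRight (Pi.single s 1)

theorem geomR_apply (s : S) (v : S → ℝ) :
    geomR M s v = v - geomP M s v • (Pi.single s (1 : ℝ) : S → ℝ) := by
  simp [geomR]

theorem geomR_self (s : S) : geomR M s (Pi.single s 1) = - Pi.single s 1 := by
  rw [geomR_apply, geomP_single, geomC_self, two_smul]
  abel

theorem geomR_sq (s : S) : geomR M s * geomR M s = 1 := by
  refine LinearMap.ext fun v => ?_
  change geomR M s (geomR M s v) = v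
  rw [geomR_apply M s v, map_sub, map_smul, geomR_self, geomR_apply]
  simp

theorem geom_mul_apply (s t : S) (v : S → ℝ) :
    (geomR M s * geomR M t) v = v - geomP M t v • (Pi.single t (1 : ℝ) : S → ℝ) -
      (geomP M s v - geomC M s t * geomP M t v) • (Pi.single s (1 : ℝ) : S → ℝ) := by
  change geomR M s (geomR M t v) = _
  rw [geomR_apply M t v, geomR_apply M s, map_sub, map_smul, geomP_single, smul_eq_mul]
  congr 2
  ring

theorem geom_pow_apply (s t : S) (θ : ℝ) (hθ : geomC M s t = -2 * Real.cos θ)
    (hs : Real.sin θ ≠ 0) (k : ℕ) : ∀ v : S → ℝ,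
    ((geomR M s * geomR M t) ^ k) v = v -
      (Real.sin (k * θ) * (Real.sin ((k - 1) * θ) * geomP M s v + Real.sin (k * θ) * geomP M t v) /
        Real.sin θ ^ 2) • (Pi.single t (1 : ℝ) : S → ℝ) -
      (Real.sin (k * θ) * (Real.sin (k * θ) * geomP M s v + Real.sin ((k + 1) * θ) * geomP M t v) /
        Real.sin θ ^ 2) • (Pi.single s (1 : ℝ) : S → ℝ) := by
  induction k with
  | zero => intro v; simp
  | succ k ih =>
    intro v
    rw [pow_succ]
    change ((geomR M s * geomR M t) ^ k) ((geomR M s * geomR M t) v) = _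
    rw [ih]
    have h1 : geomP M s ((geomR M s * geomR M t) v) =
        - geomP M s v + geomC M s t * geomP M t v := by
      rw [geom_mul_apply, map_sub, map_sub, map_smul, map_smul, geomP_single, geomP_single,
        geomC_self, smul_eq_mul, smul_eq_mul]
      ring
    have h2 : geomP M t ((geomR M s * geomR M t) v) =
        - geomC M s t * geomP M s v + (geomC M s t ^ 2 - 1) * geomP M t v := by
      rw [geom_mul_apply, map_sub, map_sub, map_smul, map_smul, geomP_single, geomP_single,
        geomC_self, geomC_comm M t s, smul_eq_mul, smul_eq_mul]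
      ring
    rw [h1, h2, geom_mul_apply, hθ]
    set gs := geomP M s v
    set gt := geomP M t v
    set C := Real.cos θ with hC
    set D := Real.sin θ with hD
    set p := Real.sin (k * θ) with hp
    set q := Real.cos (k * θ) with hq
    have e0 : D ^ 2 + C ^ 2 = 1 := Real.sin_sq_add_cos_sq θ
    have e1 : p ^ 2 + q ^ 2 = 1 := Real.sin_sq_add_cos_sq _
    have e2 : Real.sin (((k : ℝ) - 1) * θ) = p * C - q * D := by
      rw [sub_mul, one_mul, Real.sin_sub]
    have e3 : Real.sin (((k : ℝ) + 1) * θ) = p * C + q * D := by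
      rw [add_mul, one_mul, Real.sin_add]
    have e3' : Real.cos (((k : ℝ) + 1) * θ) = q * C - p * D := by
      rw [add_mul, one_mul, Real.cos_add]
    have e4 : Real.sin (((k + 1 : ℕ) : ℝ) * θ) = p * C + q * D := by
      push_cast; exact e3
    have e5 : Real.sin ((((k + 1 : ℕ) : ℝ) - 1) * θ) = p := by
      push_cast; rw [add_sub_cancel_right]
    have e6 : Real.sin ((((k + 1 : ℕ) : ℝ) + 1) * θ) = (p * C + q * D) * C + (q * C - p * D) * D := by
      push_cast
      rw [add_mul _ 1, one_mul, Real.sin_add, e3, e3']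
    rw [e2, e3, e4, e5, e6]
    have key1 : gt + (p * ((p * C - q * D) * (-gs + -2 * C * gt) +
          p * (-(-2 * C) * gs + ((-2 * C) ^ 2 - 1) * gt)) / D ^ 2) =
        (p * C + q * D) * (p * gs + (p * C + q * D) * gt) / D ^ 2 := by
      rw [eq_div_iff (pow_ne_zero 2 hs), add_mul, div_mul_cancel₀ _ (pow_ne_zero 2 hs)]
      linear_combination (gt * p ^ 2 * 1) * e0 + (-gt * D ^ 2) * e1
    have key2 : (gs - -2 * C * gt) + (p * (p * (-gs + -2 * C * gt) +
          (p * C + q * D) * (-(-2 * C) * gs + ((-2 * C) ^ 2 - 1) * gt)) / D ^ 2) =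
        (p * C + q * D) * ((p * C + q * D) * gs +
          ((p * C + q * D) * C + (q * C - p * D) * D) * gt) / D ^ 2 := by
      rw [eq_div_iff (pow_ne_zero 2 hs), add_mul, div_mul_cancel₀ _ (pow_ne_zero 2 hs)]
      linear_combination (gs * p ^ 2 + gt * (2 * C * p ^ 2 + (p * C + q * D) * p)) * e0 +
        (-(gs + 2 * C * gt) * D ^ 2) * e1
    rw [← key1, ← key2]
    module

theorem geom_pow_eq_one (s t : S) : (geomR M s * geomR M t) ^ (M s t) = 1 := by
  rcases eq_or_ne s t with rfl | hne
  · rw [M.diagonal, pow_one, geomR_sq]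
  rcases Nat.eq_zero_or_pos (M s t) with h0 | hpos
  · rw [h0, pow_zero]
  have h1 : M s t ≠ 1 := M.off_diagonal s t hne
  have h2 : 2 ≤ M s t := by omega
  have h2' : (2 : ℝ) ≤ (M s t : ℝ) := by exact_mod_cast h2
  have hm : (0 : ℝ) < (M s t : ℝ) := by linarith
  have hθ0 : 0 < Real.pi / (M s t : ℝ) := div_pos Real.pi_pos hm
  have hθ1 : Real.pi / (M s t : ℝ) < Real.pi := by
    rw [div_lt_iff₀ hm]
    nlinarith [Real.pi_pos]
  have hs : Real.sin (Real.pi / (M s t : ℝ)) ≠ 0 := (Real.sin_pos_of_pos_of_lt_pi hθ0 hθ1).ne'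
  have hk : Real.sin ((M s t : ℝ) * (Real.pi / (M s t : ℝ))) = 0 := by
    rw [mul_div_cancel₀ _ hm.ne', Real.sin_pi]
  refine LinearMap.ext fun v => ?_
  rw [geom_pow_apply M s t _ rfl hs, hk]
  simp

/-- The geometric representation. -/
noncomputable def geomRep : M.Group →* Module.End ℝ (S → ℝ) :=
  M.toCoxeterSystem.lift ⟨geomR M, fun s t => geom_pow_eq_one M s t⟩

theorem geomRep_simple (s : S) : geomRep M (M.toCoxeterSystem.simple s) = geomR M s :=
  M.toCoxeterSystem.lift_apply_simple _ s

/-- The averaged inner product. -/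
noncomputable def geomE [Fintype M.Group] (v w : S → ℝ) : ℝ :=
  ∑ g : M.Group, ∑ r, (geomRep M g v) r * (geomRep M g w) r

variable [Fintype M.Group]

theorem geomE_comm (v w : S → ℝ) : geomE M v w = geomE M w v := by
  unfold geomE
  exact Finset.sum_congr rfl fun g _ => Finset.sum_congr rfl fun r _ => mul_comm _ _

theorem geomE_add_left (u v w : S → ℝ) : geomE M (u + v) w = geomE M u w + geomE M v w := by
  simp only [geomE, map_add, Pi.add_apply, add_mul, Finset.sum_add_distrib]

theorem geomE_smul_left (c : ℝ) (v w : S → ℝ) : geomE M (c • v) w = c * geomE M v w := by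
  simp only [geomE, map_smul, Pi.smul_apply, smul_eq_mul, mul_assoc, Finset.mul_sum]

theorem geomE_sum_left {ι : Type*} (s : Finset ι) (f : ι → S → ℝ) (w : S → ℝ) :
    geomE M (∑ i ∈ s, f i) w = ∑ i ∈ s, geomE M (f i) w := by
  induction s using Finset.induction_on with
  | empty => simp [geomE]
  | insert a s ha ih => rw [Finset.sum_insert ha, Finset.sum_insert ha, geomE_add_left, ih]

theorem geomE_inv (h : M.Group) (v w : S → ℝ) :
    geomE M (geomRep M h v) (geomRep M h w) = geomE M v w := by
  unfold geomE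
  refine Fintype.sum_equiv (Equiv.mulRight h) _ _ fun g => ?_
  simp only [Equiv.coe_mulRight, map_mul]
  rfl

theorem geomE_pos (v : S → ℝ) (hv : v ≠ 0) : 0 < geomE M v v := by
  obtain ⟨r, hr⟩ := Function.ne_iff.mp hv
  have h1 : 0 < ∑ r, (geomRep M 1 v) r * (geomRep M 1 v) r := by
    rw [map_one]
    refine Finset.sum_pos' (fun r _ => mul_self_nonneg _) ⟨r, Finset.mem_univ r, ?_⟩
    exact mul_self_pos.mpr hr
  refine Finset.sum_pos' (fun g _ => Finset.sum_nonneg fun r _ => mul_self_nonneg _)
    ⟨1, Finset.mem_univ _, h1⟩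

theorem geomE_single (v : S → ℝ) (s : S) :
    geomE M v (Pi.single s 1) =
      geomE M (Pi.single s 1) (Pi.single s 1) / 2 * geomP M s v := by
  have h := geomE_inv M (M.toCoxeterSystem.simple s) v (Pi.single s 1)
  rw [geomRep_simple, geomR_self] at h
  rw [geomE_comm, ← neg_one_smul ℝ (Pi.single s (1 : ℝ) : S → ℝ), geomE_smul_left, geomE_comm,
    geomR_apply, sub_eq_add_neg, ← neg_smul, geomE_add_left, geomE_smul_left] at h
  linarith

end Aux

theorem cform_pos (h : Finite M.Group) (v : S → ℝ) (hv : v ≠ 0) : 0 < cform M v v := by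
  have : Fintype M.Group := Fintype.ofFinite _
  set lam : S → ℝ := fun s => geomE M (Pi.single s 1) (Pi.single s 1) / 2 with hlam
  have hlampos : ∀ s, 0 < lam s := fun s => by
    refine div_pos (geomE_pos M _ ?_) two_pos
    intro h0
    have := congrFun h0 s
    simp at this
  have hsym : ∀ s t, lam s * geomC M s t = lam t * geomC M s t := by
    intro s t
    have h1 := geomE_single M (Pi.single t 1) s
    have h2 := geomE_single M (Pi.single s 1) t
    rw [geomP_single] at h1 h2
    rw [geomE_comm, h2, geomC_comm M t s] at h1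
    exact h1.symm
  set u : S → ℝ := fun s => v s / Real.sqrt (lam s) with hu
  have hsq : ∀ s, Real.sqrt (lam s) ≠ 0 := fun s => (Real.sqrt_pos.mpr (hlampos s)).ne'
  have hune : u ≠ 0 := by
    intro h0
    apply hv
    funext s
    have := congrFun h0 s
    simp only [hu, Pi.zero_apply, div_eq_zero_iff] at this
    exact this.resolve_right (hsq s)
  have hE : geomE M u u = cform M v v := by
    have hdec : u = ∑ s, u s • (Pi.single s (1 : ℝ) : S → ℝ) := by
      funext r
      simp [Finset.sum_apply, Pi.single_apply]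
    have h1 : geomE M u u = ∑ s, u s * (lam s * geomP M s u) := by
      conv_lhs => enter [2]; rw [hdec]
      rw [geomE_sum_left]
      refine Finset.sum_congr rfl fun s _ => ?_
      rw [geomE_smul_left, geomE_comm, geomE_single]
    rw [h1]
    unfold cform
    refine Finset.sum_congr rfl fun s _ => ?_
    change _ * (_ * ∑ t, geomC M s t * u t) = _
    rw [Finset.mul_sum, Finset.mul_sum]
    refine Finset.sum_congr rfl fun t _ => ?_
    change _ = v s * v t * geomC M s t
    by_cases hc : geomC M s t = 0
    · rw [hc]; ring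
    · have hl : lam s = lam t := mul_right_cancel₀ hc (hsym s t)
      simp only [hu]
      rw [← hl]
      have h2 : Real.sqrt (lam s) * Real.sqrt (lam s) = lam s :=
        Real.mul_self_sqrt (hlampos s).le
      have h3 := hsq s
      field_simp
      rw [sq, h2]
  rw [← hE]
  exact geomE_pos M u hune

theorem ne_zero_of_cform_pos (h : ∀ v : S → ℝ, v ≠ 0 → 0 < cform M v v) (s t : S) :
    M s t ≠ 0 := by
  intro h0
  have hne : s ≠ t := by
    rintro rfl
    rw [M.diagonal] at h0
    exact one_ne_zero h0
  have hst : geomC M s t = -2 := by simp [geomC, h0]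
  have hform : ∀ w : S → ℝ, cform M w w = ∑ r, w r * geomP M r w := by
    intro w
    unfold cform
    refine Finset.sum_congr rfl fun r _ => ?_
    change _ = w r * ∑ t, geomC M r t * w t
    rw [Finset.mul_sum]
    exact Finset.sum_congr rfl fun t _ => by rw [geomC]; ring
  set w : S → ℝ := Pi.single s 1 + Pi.single t 1 with hw
  have hwne : w ≠ 0 := by
    intro h1
    have := congrFun h1 s
    simp [hw, hne] at this
  have h1 := h w hwne
  rw [hform] at h1
  have h2 : ∀ r, geomP M r w = geomC M r s + geomC M r t := fun r => by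
    rw [hw, map_add, geomP_single, geomP_single]
  have h3 : ∑ r, w r * geomP M r w = 0 := by
    have h4 : ∀ r, w r * geomP M r w = (if r = s then geomP M r w else 0) +
        (if r = t then geomP M r w else 0) := fun r => by
      rw [hw]
      simp only [Pi.add_apply, Pi.single_apply, add_mul, ite_mul, one_mul, zero_mul]
    rw [Finset.sum_congr rfl fun r _ => h4 r, Finset.sum_add_distrib, Finset.sum_ite_eq',
      Finset.sum_ite_eq', if_pos (Finset.mem_univ _), if_pos (Finset.mem_univ _), h2, h2]
    rw [geomC_self, geomC_self, geomC_comm M t s, hst]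
    norm_num
  rw [h3] at h1
  exact lt_irrefl _ h1

end SPH
end

section

/-! # Specialisation to positive characteristic (job R15) -/

namespace SPH

universe u v

private theorem isJacobsonRing_int : IsJacobsonRing ℤ := by
  rw [isJacobsonRing_iff_prime_eq]
  intro P hP
  by_cases hb : P = ⊥
  · subst hb
    rw [eq_bot_iff]
    intro x hx
    rw [Ideal.mem_jacobson_bot] at hx
    have h1 := Int.isUnit_iff.mp (hx x)
    rw [Ideal.mem_bot]
    rcases h1 with h1 | h1
    · have : x * x = 0 := by linarith
      exact mul_self_eq_zero.mp this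
    · nlinarith [mul_self_nonneg x]
  · have : P.IsMaximal := hP.isMaximal hb
    exact Ideal.jacobson_eq_self_of_isMaximal

theorem exists_specialization {K : Type u} [Field K] [CharZero K] (X : Finset K) (c : K)
    (hc : c ∈ Algebra.adjoin ℤ (X : Set K)) (hc0 : c ≠ 0) :
    ∃ (F : Type u) (_ : Field F) (p : ℕ) (_ : Fact p.Prime) (_ : CharP F p)
      (χ : Algebra.adjoin ℤ (X : Set K) →+* F), χ ⟨c, hc⟩ ≠ 0 := by
  have hZ := isJacobsonRing_int
  have hft : Algebra.FiniteType ℤ (Algebra.adjoin ℤ (X : Set K)) :=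
    (Subalgebra.fg_iff_finiteType _).mp (Subalgebra.fg_adjoin_finset X)
  have hJ : IsJacobsonRing (Algebra.adjoin ℤ (X : Set K)) :=
    isJacobsonRing_of_finiteType (A := ℤ) (B := Algebra.adjoin ℤ (X : Set K))
  have hjac : (⊥ : Ideal (Algebra.adjoin ℤ (X : Set K))).jacobson = ⊥ :=
    hJ.out (Ideal.isPrime_bot.isRadical)
  have hcA : (⟨c, hc⟩ : Algebra.adjoin ℤ (X : Set K)) ∉
      (⊥ : Ideal (Algebra.adjoin ℤ (X : Set K))).jacobson := by
    rw [hjac, Ideal.mem_bot]
    intro h
    exact hc0 (congrArg Subtype.val h)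
  obtain ⟨m, hm, hcm⟩ : ∃ m : Ideal (Algebra.adjoin ℤ (X : Set K)), m.IsMaximal ∧
      (⟨c, hc⟩ : Algebra.adjoin ℤ (X : Set K)) ∉ m := by
    by_contra hcon
    push Not at hcon
    apply hcA
    rw [Ideal.jacobson, Submodule.mem_sInf]
    intro J hJ'
    exact hcon J hJ'.2
  let _ : Field (Algebra.adjoin ℤ (X : Set K) ⧸ m) := Ideal.Quotient.field m
  have hft2 : Algebra.FiniteType ℤ (Algebra.adjoin ℤ (X : Set K) ⧸ m) :=
    Algebra.FiniteType.of_surjective (Ideal.Quotient.mkₐ ℤ m) (Ideal.Quotient.mkₐ_surjective ℤ m)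
  have hfin : Module.Finite ℤ (Algebra.adjoin ℤ (X : Set K) ⧸ m) :=
    finite_of_finite_type_of_isJacobsonRing ℤ (Algebra.adjoin ℤ (X : Set K) ⧸ m)
  obtain ⟨p, hp⟩ := CharP.exists (Algebra.adjoin ℤ (X : Set K) ⧸ m)
  have hprime : p.Prime := by
    rcases CharP.char_is_prime_or_zero (Algebra.adjoin ℤ (X : Set K) ⧸ m) p with h | h
    · exact h
    · exfalso
      subst h
      have h0 : CharZero (Algebra.adjoin ℤ (X : Set K) ⧸ m) := CharP.charP_to_charZero _
      have hinj : Function.Injective (algebraMap ℤ (Algebra.adjoin ℤ (X : Set K) ⧸ m)) := by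
        intro a b hab
        simpa using hab
      have hint : Algebra.IsIntegral ℤ (Algebra.adjoin ℤ (X : Set K) ⧸ m) :=
        Algebra.IsIntegral.of_finite ℤ _
      exact Int.not_isField (isField_of_isIntegral_of_isField hinj (Field.toIsField _))
  refine ⟨Algebra.adjoin ℤ (X : Set K) ⧸ m, inferInstance, p, ⟨hprime⟩, hp,
    Ideal.Quotient.mk m, ?_⟩
  intro h
  exact hcm (Ideal.Quotient.eq_zero_iff_mem.mp h)

end SPH
end

section

/-! # p-th powers and trace functionals (job R13) -/

namespace SPH

universe u v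

open Finset

private theorem r13_sum_fixed {X : Type*} [Fintype X] [DecidableEq X] {V : Type*} [AddCommGroup V]
    (p : ℕ) (hp : p.Prime) (hV : ∀ v : V, p • v = 0) (f : Function.End X) (hf : f ^ p = 1)
    (φ : X → V) (hφ : ∀ x, φ (f x) = φ x) :
    ∑ x, φ x = ∑ x with f x = x, φ x := by
  classical
  have : Fact p.Prime := ⟨hp⟩
  have h1 : ∑ x, φ x = ∑ v ∈ univ.image φ, (univ.filter fun x => φ x = v).card • v := by
    rw [← Finset.sum_fiberwise_of_maps_to (g := φ) (t := univ.image φ)
      (fun x _ => mem_image_of_mem _ (mem_univ x))]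
    refine sum_congr rfl fun v _ => ?_
    rw [sum_congr rfl (g := fun _ => v) (fun x hx => (mem_filter.1 hx).2), sum_const]
  have h2 : ∑ x with f x = x, φ x =
      ∑ v ∈ univ.image φ, ((univ.filter fun x => f x = x).filter fun x => φ x = v).card • v := by
    rw [← Finset.sum_fiberwise_of_maps_to (g := φ) (t := univ.image φ)
      (fun x _ => mem_image_of_mem _ (mem_univ x))]
    refine sum_congr rfl fun v _ => ?_
    rw [sum_congr rfl (g := fun _ => v) (fun x hx => (mem_filter.1 hx).2), sum_const]
  rw [h1, h2]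
  refine sum_congr rfl fun v _ => ?_
  -- the level set
  have hmod : (univ.filter fun x => φ x = v).card ≡
      ((univ.filter fun x => f x = x).filter fun x => φ x = v).card [MOD p] := by
    let g : Function.End {x // φ x = v} := fun x => ⟨f x.1, by rw [hφ]; exact x.2⟩
    have hg : ∀ (n : ℕ) (x : {x // φ x = v}), ((g ^ n) x).1 = (f ^ n) x.1 := by
      intro n
      induction n with
      | zero => intro x; rfl
      | succ n ih =>
        intro x
        rw [pow_succ', pow_succ']
        show f ((g ^ n) x).1 = f ((f ^ n) x.1)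
        rw [ih]
    have hg1 : g ^ p ^ 1 = 1 := by
      rw [pow_one]
      funext x
      apply Subtype.ext
      rw [hg, hf]
      rfl
    have h3 := Equiv.Perm.card_fixedPoints_modEq hg1
    have h4 : Fintype.card {x // φ x = v} = (univ.filter fun x => φ x = v).card :=
      Fintype.card_subtype _
    have h5 : Fintype.card (Function.fixedPoints g) =
        ((univ.filter fun x => f x = x).filter fun x => φ x = v).card := by
      rw [filter_filter, ← Fintype.card_subtype]
      refine Fintype.card_congr ?_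
      refine ⟨fun x => ⟨x.1.1, congrArg Subtype.val x.2, x.1.2⟩,
        fun x => ⟨⟨x.1, x.2.2⟩, Subtype.ext x.2.1⟩, fun x => rfl, fun x => rfl⟩
    rw [h4, h5] at h3
    exact h3
  have hred : ∀ n : ℕ, n • v = (n % p) • v := by
    intro n
    conv_lhs => rw [← Nat.div_add_mod n p, add_nsmul, mul_comm, mul_nsmul, hV, zero_add]
    
  rw [hred, hred ((univ.filter fun x => f x = x).filter fun x => φ x = v).card, hmod]

private theorem r13_pow {𝒜 : Type*} [Ring 𝒜] {S : Type*} [Fintype S] (a : S → 𝒜) (n : ℕ) :
    (∑ i, a i) ^ n = ∑ w : Fin n → S, (List.ofFn fun k => a (w k)).prod := by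
  induction n with
  | zero => simp
  | succ n ih =>
    rw [pow_succ', ih, sum_mul_sum, ← Fintype.sum_prod_type',
      ← (Fin.consEquiv (fun _ : Fin (n + 1) => S)).sum_comp]
    refine sum_congr rfl fun x _ => ?_
    rw [List.ofFn_succ]
    simp [Fin.consEquiv]

theorem trace_add_pow_prime {𝒜 : Type u} [Ring 𝒜] {V : Type v} [AddCommGroup V] (p : ℕ)
    (hp : p.Prime) (hV : ∀ v : V, p • v = 0) (T : 𝒜 →+ V) (hT : ∀ a b, T (a * b) = T (b * a))
    {ι : Type v} (s : Finset ι) (a : ι → 𝒜) : T ((∑ i ∈ s, a i) ^ p) = ∑ i ∈ s, T (a i ^ p) := by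
  classical
  rw [← Finset.sum_coe_sort s a, ← Finset.sum_coe_sort s (fun i => T (a i ^ p)),
    r13_pow (fun i : s => a i), map_sum]
  obtain ⟨m, rfl⟩ : ∃ m, p = m + 1 := ⟨p - 1, by have := hp.pos; omega⟩
  let f : Function.End (Fin (m + 1) → s) := fun w i => w (i + 1)
  have hfk : ∀ (k : ℕ) (w : Fin (m + 1) → s) (i : Fin (m + 1)),
      (f ^ k) w i = w (i + k • (1 : Fin (m + 1))) := by
    intro k
    induction k with
    | zero => intro w i; rw [zero_nsmul, add_zero]; rfl
    | succ k ih =>
      intro w i
      rw [pow_succ']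
      show (f ^ k) w (i + 1) = _
      rw [ih, succ_nsmul']
      congr 1
      abel
  have hf : f ^ (m + 1) = 1 := by
    funext w i
    have h0 : (m + 1) • (1 : Fin (m + 1)) = 0 := by
      have := card_nsmul_eq_zero' (G := Fin (m + 1)) (x := 1)
      simpa using this
    rw [hfk, h0, add_zero]
    rfl
  rw [r13_sum_fixed (m + 1) hp hV f hf]
  · have hfix : ∀ w : Fin (m + 1) → s, f w = w → ∀ i, w i = w 0 := by
      intro w hw i
      induction i using Fin.induction with
      | zero => rfl
      | succ i ih =>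
        rw [← ih]
        have := congrFun hw i.castSucc
        show w i.succ = w i.castSucc
        rw [← Fin.coeSucc_eq_succ]
        exact this
    have h1 : (univ.filter fun w : Fin (m + 1) → s => f w = w) =
        univ.image (fun (i : s) (_ : Fin (m + 1)) => i) := by
      ext w
      simp only [mem_filter, mem_univ, true_and, mem_image]
      constructor
      · intro hw
        exact ⟨w 0, funext fun i => (hfix w hw i).symm⟩
      · rintro ⟨i, rfl⟩
        rfl
    rw [h1, sum_image]
    · refine sum_congr rfl fun i _ => ?_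
      rw [List.ofFn_const, List.prod_replicate]
    · intro i _ j _ hij
      exact congrFun hij 0
  · intro w
    show T (List.ofFn fun k => a (w (k + 1))).prod = T (List.ofFn fun k => a (w k)).prod
    rw [List.ofFn_succ', List.ofFn_succ (f := fun k => a (w k)), List.concat_eq_append,
      List.prod_append, List.prod_cons, List.prod_nil, mul_one, List.prod_cons, hT]
    simp only [Fin.coeSucc_eq_succ, Fin.last_add_one]

end SPH
end

section

/-! # Hattori-Stallings traces in characteristic p (job R14) -/

namespace SPH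

universe u v

section HSpAux

variable {F : Type u} [Field F] {Γ : Type u} [Group Γ]

/-- The vector of the class sums. -/
private noncomputable def hspC : MonoidAlgebra F Γ →+ (ConjClasses Γ →₀ F) :=
  (Finsupp.mapDomain.addMonoidHom (ConjClasses.mk : Γ → ConjClasses Γ)).comp
    (MonoidAlgebra.coeffAddEquiv (R := F) (M := Γ)).toAddMonoidHom

private theorem hspC_apply (x : MonoidAlgebra F Γ) :
    hspC x = Finsupp.mapDomain (ConjClasses.mk : Γ → ConjClasses Γ) x.coeff := rfl

private theorem hspC_single (h : Γ) (c : F) :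
    hspC (MonoidAlgebra.single h c) = Finsupp.single (ConjClasses.mk h) c := by
  rw [hspC_apply, MonoidAlgebra.coeff_single, Finsupp.mapDomain_single]

private theorem hspC_mk (x : MonoidAlgebra F Γ) (g : Γ) :
    hspC x (ConjClasses.mk g) = classSum x g := by
  classical
  rw [hspC_apply, Finsupp.mapDomain, Finsupp.sum_apply]
  unfold classSum
  refine Finsupp.sum_congr fun h _ => ?_
  rw [Finsupp.single_apply]
  by_cases hc : IsConj g h
  · rw [if_pos hc, if_pos (ConjClasses.mk_eq_mk_iff_isConj.2 hc.symm)]
  · rw [if_neg hc, if_neg (fun h2 => hc (ConjClasses.mk_eq_mk_iff_isConj.1 h2).symm)]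

private theorem hspC_comm (x y : MonoidAlgebra F Γ) : hspC (x * y) = hspC (y * x) := by
  induction x using MonoidAlgebra.induction_linear with
  | zero => rw [zero_mul, mul_zero]
  | add a b ha hb => rw [add_mul, mul_add, map_add, map_add, ha, hb]
  | single g r =>
    induction y using MonoidAlgebra.induction_linear with
    | zero => rw [zero_mul, mul_zero]
    | add a b ha hb => rw [add_mul, mul_add, map_add, map_add, ha, hb]
    | single h s =>
      rw [MonoidAlgebra.single_mul_single, MonoidAlgebra.single_mul_single, hspC_single,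
        hspC_single, mul_comm r s]
      congr 1
      rw [ConjClasses.mk_eq_mk_iff_isConj, isConj_iff]
      exact ⟨h, by group⟩

/-- The power map on the conjugacy classes. -/
private def hspPw (p : ℕ) : ConjClasses Γ → ConjClasses Γ :=
  Quotient.map (fun h : Γ => h ^ p) (fun _ _ h => IsConj.pow p h)

private theorem hspPw_mk (p : ℕ) (h : Γ) :
    hspPw p (ConjClasses.mk h) = ConjClasses.mk (h ^ p) := rfl

private theorem hspPw_iterate (p : ℕ) (h : Γ) (k : ℕ) :
    (hspPw p)^[k] (ConjClasses.mk h) = ConjClasses.mk (h ^ p ^ k) := by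
  induction k with
  | zero => simp
  | succ k ih =>
    rw [Function.iterate_succ_apply', ih, hspPw_mk, ← pow_mul, ← pow_succ]

/-- The Frobenius on the vectors of class sums. -/
private noncomputable def hspPhi (p : ℕ) [Fact p.Prime] [CharP F p] :
    (ConjClasses Γ →₀ F) →+ (ConjClasses Γ →₀ F) :=
  Finsupp.liftAddHom fun y =>
    (Finsupp.singleAddHom (hspPw p y)).comp (frobenius F p).toAddMonoidHom

private theorem hspPhi_single (p : ℕ) [Fact p.Prime] [CharP F p] (y : ConjClasses Γ) (c : F) :
    hspPhi p (Finsupp.single y c) = Finsupp.single (hspPw p y) (c ^ p) := by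
  unfold hspPhi
  rw [Finsupp.liftAddHom_apply_single]
  rfl

private theorem hspPhi_apply_ne (p : ℕ) [Fact p.Prime] [CharP F p] (v : ConjClasses Γ →₀ F)
    (x : ConjClasses Γ) (hx : hspPhi p v x ≠ 0) : ∃ y, v y ≠ 0 ∧ hspPw p y = x := by
  by_contra hcon
  push Not at hcon
  apply hx
  have h1 : hspPhi p v = v.sum fun y c => Finsupp.single (hspPw p y) (c ^ p) := by
    unfold hspPhi
    rw [Finsupp.liftAddHom_apply]
    rfl
  rw [h1, Finsupp.sum_apply, Finsupp.sum]
  refine Finset.sum_eq_zero fun y hy => ?_
  rw [Finsupp.single_eq_of_ne (hcon y (Finsupp.mem_support_iff.1 hy)).symm]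

variable {ι : Type u} [Fintype ι] [DecidableEq ι]

/-- The trace with values in the class sums. -/
private noncomputable def hspT : Matrix ι ι (MonoidAlgebra F Γ) →+ (ConjClasses Γ →₀ F) :=
  hspC.comp (Matrix.traceAddMonoidHom ι (MonoidAlgebra F Γ))

omit [DecidableEq ι] in
private theorem hspT_apply (a : Matrix ι ι (MonoidAlgebra F Γ)) :
    hspT a = hspC (Matrix.trace a) := rfl

omit [DecidableEq ι] in
private theorem hspT_comm (a b : Matrix ι ι (MonoidAlgebra F Γ)) :
    hspT (a * b) = hspT (b * a) := by
  rw [hspT_apply, hspT_apply]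
  simp only [Matrix.trace, Matrix.diag_apply, Matrix.mul_apply, map_sum]
  rw [Finset.sum_comm]
  refine Finset.sum_congr rfl fun i _ => Finset.sum_congr rfl fun j _ => ?_
  exact hspC_comm _ _

private theorem hspT_single_pow (p : ℕ) [Fact p.Prime] [CharP F p] (i j : ι) (h : Γ) (c : F) :
    hspT (Matrix.single i j (MonoidAlgebra.single h c) ^ p) =
      hspPhi p (hspT (Matrix.single i j (MonoidAlgebra.single h c))) := by
  have hp : 2 ≤ p := (Fact.out : p.Prime).two_le
  by_cases hij : i = j
  · subst hij
    have h1 : ∀ k : ℕ, Matrix.single i i (MonoidAlgebra.single h c) ^ (k + 1) =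
        Matrix.single i i (MonoidAlgebra.single (h ^ (k + 1)) (c ^ (k + 1))) := by
      intro k
      induction k with
      | zero => simp
      | succ k ih =>
        rw [pow_succ, ih, Matrix.single_mul_single_same, MonoidAlgebra.single_mul_single,
          ← pow_succ, ← pow_succ]
    obtain ⟨k, rfl⟩ : ∃ k, p = k + 1 := ⟨p - 1, by omega⟩
    rw [h1, hspT_apply, hspT_apply, Matrix.trace_single_eq_same, Matrix.trace_single_eq_same,
      hspC_single, hspC_single, hspPhi_single, hspPw_mk]
  · obtain ⟨k, rfl⟩ : ∃ k, p = k + 2 := ⟨p - 2, by omega⟩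
    have h0 : Matrix.single i j (MonoidAlgebra.single h c) ^ (k + 2) = 0 := by
      rw [pow_add, pow_two, Matrix.single_mul_single_of_ne _ _ _ _ (Ne.symm hij), mul_zero]
    rw [h0, map_zero, hspT_apply, Matrix.trace_single_eq_of_ne _ _ _ hij, map_zero, map_zero]

private theorem hspT_pow (p : ℕ) [Fact p.Prime] [CharP F p]
    (e : Matrix ι ι (MonoidAlgebra F Γ)) : hspT (e ^ p) = hspPhi p (hspT e) := by
  classical
  set S : Finset Γ := (Finset.univ : Finset (ι × ι)).biUnion
    fun ij => (e ij.1 ij.2).coeff.support with hS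
  have hentry : ∀ i j, ∑ h ∈ S, MonoidAlgebra.single h ((e i j).coeff h) = e i j := by
    intro i j
    conv_rhs => rw [← MonoidAlgebra.sum_coeff_single (e i j)]
    rw [Finsupp.sum]
    symm
    refine Finset.sum_subset ?_ ?_
    · intro h hh
      rw [hS, Finset.mem_biUnion]
      exact ⟨(i, j), Finset.mem_univ _, hh⟩
    · intro h _ hh
      rw [Finsupp.notMem_support_iff.1 hh, MonoidAlgebra.single_zero]
  have hdec : e = ∑ k ∈ ((Finset.univ : Finset ι) ×ˢ ((Finset.univ : Finset ι) ×ˢ S)),
      Matrix.single k.1 k.2.1 (MonoidAlgebra.single k.2.2 ((e k.1 k.2.1).coeff k.2.2)) := by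
    conv_lhs => rw [Matrix.matrix_eq_sum_single e]
    rw [Finset.sum_product]
    refine Finset.sum_congr rfl fun i _ => ?_
    rw [Finset.sum_product]
    refine Finset.sum_congr rfl fun j _ => ?_
    conv_lhs => rw [← hentry i j]
    exact map_sum (Matrix.singleAddMonoidHom i j) _ _
  have hV : ∀ v : ConjClasses Γ →₀ F, p • v = 0 := by
    intro v
    ext x
    rw [Finsupp.smul_apply, nsmul_eq_mul, CharP.cast_eq_zero, zero_mul, Finsupp.zero_apply]
  have h1 := trace_add_pow_prime p Fact.out hV (hspT (F := F) (Γ := Γ) (ι := ι)) hspT_comm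
    ((Finset.univ : Finset ι) ×ˢ ((Finset.univ : Finset ι) ×ˢ S))
    (fun k => Matrix.single k.1 k.2.1 (MonoidAlgebra.single k.2.2 ((e k.1 k.2.1).coeff k.2.2)))
  rw [← hdec] at h1
  rw [h1]
  conv_rhs => rw [hdec]
  rw [map_sum, map_sum]
  exact Finset.sum_congr rfl fun k _ => hspT_single_pow p _ _ _ _

end HSpAux

theorem conj_pow_of_classSum_ne_zero_charP {F : Type u} [Field F] (p : ℕ) [Fact p.Prime]
    [CharP F p] {Γ : Type u} [Group Γ] {ι : Type u} [Fintype ι] [DecidableEq ι]
    (e : Matrix ι ι (MonoidAlgebra F Γ)) (he : e * e = e) (g : Γ)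
    (hg : classSum (Matrix.trace e) g ≠ 0) : ∃ (x : Γ) (s : ℕ), 2 ≤ s ∧ x * g * x⁻¹ = g ^ s := by
  have hp : 2 ≤ p := (Fact.out : p.Prime).two_le
  have hep : e ^ p = e := by
    have h1 : ∀ k : ℕ, e ^ (k + 1) = e := by
      intro k
      induction k with
      | zero => rw [zero_add, pow_one]
      | succ k ih => rw [pow_succ, ih, he]
    obtain ⟨k, hk⟩ : ∃ k, p = k + 1 := ⟨p - 1, by omega⟩
    rw [hk, h1]
  have hT := hspT_pow p e
  rw [hep] at hT
  set v := hspT e with hv
  -- predecessors
  have hpred : ∀ x : ConjClasses Γ, v x ≠ 0 → ∃ y, v y ≠ 0 ∧ hspPw p y = x := by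
    intro x hx
    rw [hT] at hx
    exact hspPhi_apply_ne p v x hx
  have hpred' : ∀ x : {x : ConjClasses Γ // x ∈ v.support},
      ∃ y : {x : ConjClasses Γ // x ∈ v.support}, hspPw p y.1 = x.1 := by
    intro x
    obtain ⟨y, hy, hyx⟩ := hpred x.1 (Finsupp.mem_support_iff.1 x.2)
    exact ⟨⟨y, Finsupp.mem_support_iff.2 hy⟩, hyx⟩
  choose pred hpred2 using hpred'
  have hx0 : ConjClasses.mk g ∈ v.support := by
    rw [Finsupp.mem_support_iff, hv, hspT_apply, hspC_mk]
    exact hg
  set x0 : {x : ConjClasses Γ // x ∈ v.support} := ⟨ConjClasses.mk g, hx0⟩ with hx0def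
  have hit : ∀ (k : ℕ) (x : {x : ConjClasses Γ // x ∈ v.support}),
      (hspPw p)^[k] (pred^[k] x).1 = x.1 := by
    intro k
    induction k with
    | zero => intro x; rfl
    | succ k ih =>
      intro x
      rw [Function.iterate_succ_apply, Function.iterate_succ_apply', hpred2, ih]
  obtain ⟨i, j, hij, heq⟩ : ∃ i j : ℕ, i < j ∧ pred^[i] x0 = pred^[j] x0 := by
    obtain ⟨i, j, hne, heq⟩ := Finite.exists_ne_map_eq_of_infinite (fun k : ℕ => pred^[k] x0)
    rcases lt_or_gt_of_ne hne with h | h
    · exact ⟨i, j, h, heq⟩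
    · exact ⟨j, i, h, heq.symm⟩
  have hfix : (hspPw p)^[j - i] (ConjClasses.mk g) = ConjClasses.mk g := by
    have h1 := hit i x0
    have h2 := hit j x0
    rw [← heq] at h2
    have h3 : j = (j - i) + i := by omega
    rw [h3, Function.iterate_add_apply, h1] at h2
    exact h2
  rw [hspPw_iterate, ConjClasses.mk_eq_mk_iff_isConj] at hfix
  obtain ⟨c, hc⟩ := isConj_iff.1 hfix.symm
  refine ⟨c, p ^ (j - i), ?_, hc⟩
  calc 2 ≤ p := hp
    _ = p ^ 1 := (pow_one p).symm
    _ ≤ p ^ (j - i) := Nat.pow_le_pow_right (by omega) (by omega)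

end SPH
end

section

/-! # The unfolded diagram is positive definite (job V2) -/

namespace SPH

open scoped Classical

universe u

section Weights

variable {V : Type u} [Fintype V] [DecidableEq V]

/-- A graph with a positive strictly superharmonic-type weight has a positive definite form. -/
theorem posDef_of_weight (G : SimpleGraph V) (D : V → ℝ) (hD : ∀ a, 0 < D a)
    (hlt : ∀ a, ∑ b, (if G.Adj a b then D b else 0) < 2 * D a) : PosDef G := by
  intro z hz
  have hcast : ((bil G z z : ℤ) : ℝ) = ∑ a, 2 * (z a : ℝ) ^ 2 -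
      ∑ a, ∑ b, (if G.Adj a b then (z a : ℝ) * z b else 0) := by
    unfold bil
    push_cast
    rw [← Finset.sum_sub_distrib]
    refine Finset.sum_congr rfl fun a _ => ?_
    have : ∀ b, (z a : ℝ) * (cart G a b : ℤ) * z b =
        (if a = b then 2 * (z a : ℝ) ^ 2 else 0) -
          (if G.Adj a b then (z a : ℝ) * z b else 0) := by
      intro b
      unfold cart
      rcases eq_or_ne a b with rfl | hne
      · simp
        ring
      · by_cases hadj : G.Adj a b
        · simp [hne, hadj]
        · simp [hne, hadj]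
    rw [Finset.sum_congr rfl fun b _ => this b, Finset.sum_sub_distrib, Finset.sum_ite_eq,
      if_pos (Finset.mem_univ _)]
  have h1 : ∑ a, ∑ b, (if G.Adj a b then (z a : ℝ) * z b else 0) ≤
      ∑ a, ∑ b, (if G.Adj a b then
        ((z a : ℝ) ^ 2 * (D b / D a) + (z b : ℝ) ^ 2 * (D a / D b)) / 2 else 0) := by
    refine Finset.sum_le_sum fun a _ => Finset.sum_le_sum fun b _ => ?_
    split_ifs
    · have ha := hD a
      have hb := hD b
      have h2 : ((z a : ℝ) ^ 2 * (D b / D a) + (z b : ℝ) ^ 2 * (D a / D b)) / 2 - z a * z b =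
          ((z a : ℝ) * D b - z b * D a) ^ 2 / (2 * (D a * D b)) := by
        field_simp
        ring
      have h3 : 0 ≤ ((z a : ℝ) * D b - z b * D a) ^ 2 / (2 * (D a * D b)) := by positivity
      linarith
    · exact le_rfl
  have h2 : ∑ a, ∑ b, (if G.Adj a b then
        ((z a : ℝ) ^ 2 * (D b / D a) + (z b : ℝ) ^ 2 * (D a / D b)) / 2 else 0) =
      ∑ a, (z a : ℝ) ^ 2 * ((∑ b, (if G.Adj a b then D b else 0)) / D a) := by
    have h3 : ∀ a b, (if G.Adj a b then
        ((z a : ℝ) ^ 2 * (D b / D a) + (z b : ℝ) ^ 2 * (D a / D b)) / 2 else 0) =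
        (if G.Adj a b then (z a : ℝ) ^ 2 * (D b / D a) / 2 else 0) +
        (if G.Adj a b then (z b : ℝ) ^ 2 * (D a / D b) / 2 else 0) := by
      intro a b
      split_ifs
      · ring
      · ring
    have h4 : ∑ a, ∑ b, (if G.Adj a b then (z b : ℝ) ^ 2 * (D a / D b) / 2 else 0) =
        ∑ a, ∑ b, (if G.Adj a b then (z a : ℝ) ^ 2 * (D b / D a) / 2 else 0) := by
      rw [Finset.sum_comm]
      refine Finset.sum_congr rfl fun a _ => Finset.sum_congr rfl fun b _ => ?_
      simp only [G.adj_comm b a]
    simp only [h3, Finset.sum_add_distrib]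
    rw [h4, ← Finset.sum_add_distrib]
    refine Finset.sum_congr rfl fun a _ => ?_
    rw [← Finset.sum_add_distrib, Finset.sum_div, Finset.mul_sum]
    refine Finset.sum_congr rfl fun b _ => ?_
    split_ifs
    · ring
    · simp
  have h5 : 0 < ∑ a, (z a : ℝ) ^ 2 * (2 - (∑ b, (if G.Adj a b then D b else 0)) / D a) := by
    obtain ⟨a, ha⟩ := Function.ne_iff.mp hz
    have hpos : ∀ a, 0 < 2 - (∑ b, (if G.Adj a b then D b else 0)) / D a := by
      intro a
      rw [sub_pos, div_lt_iff₀ (hD a)]
      exact hlt a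
    refine Finset.sum_pos' (fun a _ => mul_nonneg (sq_nonneg _) (hpos a).le)
      ⟨a, Finset.mem_univ a, mul_pos ?_ (hpos a)⟩
    have : (z a : ℝ) ≠ 0 := by exact_mod_cast ha
    positivity
  have h6 : ∑ a, (z a : ℝ) ^ 2 * (2 - (∑ b, (if G.Adj a b then D b else 0)) / D a) =
      ∑ a, 2 * (z a : ℝ) ^ 2 -
        ∑ a, (z a : ℝ) ^ 2 * ((∑ b, (if G.Adj a b then D b else 0)) / D a) := by
    rw [← Finset.sum_sub_distrib]
    exact Finset.sum_congr rfl fun a _ => by ring
  have h7 : (0 : ℝ) < ((bil G z z : ℤ) : ℝ) := by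
    rw [hcast]
    rw [h6] at h5
    linarith
  exact_mod_cast h7

end Weights

section Sine

/-- The eigenvector identity of the path with `m - 1` vertices. -/
theorem path_sine (m : ℕ) (hm : 2 ≤ m) (x : ℕ) (hx : x < m - 1) :
    ∑ k : Fin (m - 1), (if x + 1 = k.val ∨ k.val + 1 = x then
        Real.sin (Real.pi * (k.val + 1) / m) else 0) =
      2 * Real.cos (Real.pi / m) * Real.sin (Real.pi * (x + 1) / m) := by
  have hm0 : (m : ℝ) ≠ 0 := by
    have : m ≠ 0 := by omega
    exact_mod_cast this
  rw [Fin.sum_univ_eq_sum_range (fun k => if x + 1 = k ∨ k + 1 = x then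
        Real.sin (Real.pi * ((k : ℝ) + 1) / m) else 0) (m - 1)]
  have h1 : ∀ k : ℕ, (if x + 1 = k ∨ k + 1 = x then
        Real.sin (Real.pi * ((k : ℝ) + 1) / m) else 0) =
      (if x + 1 = k then Real.sin (Real.pi * ((k : ℝ) + 1) / m) else 0) +
      (if k + 1 = x then Real.sin (Real.pi * ((k : ℝ) + 1) / m) else 0) := by
    intro k
    by_cases ha : x + 1 = k
    · have hb : ¬ (k + 1 = x) := by omega
      simp [ha, hb]
    · by_cases hb : k + 1 = x
      · simp [ha, hb]
      · simp [ha, hb]
  simp only [h1, Finset.sum_add_distrib]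
  have h2 : ∑ k ∈ Finset.range (m - 1),
      (if x + 1 = k then Real.sin (Real.pi * ((k : ℝ) + 1) / m) else 0) =
      Real.sin (Real.pi * (x + 1) / m + Real.pi / m) := by
    rw [Finset.sum_ite_eq]
    split_ifs with h
    · congr 1
      push_cast
      ring
    · have hx1 : x + 1 = m - 1 := by
        simp only [Finset.mem_range] at h
        omega
      have hx2 : (x : ℝ) + 2 = m := by
        have : x + 2 = m := by omega
        exact_mod_cast this
      have : Real.pi * ((x : ℝ) + 1) / m + Real.pi / m = Real.pi := by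
        rw [← add_div, div_eq_iff hm0, ← hx2]
        ring
      rw [this, Real.sin_pi]
  have h3 : ∑ k ∈ Finset.range (m - 1),
      (if k + 1 = x then Real.sin (Real.pi * ((k : ℝ) + 1) / m) else 0) =
      Real.sin (Real.pi * (x + 1) / m - Real.pi / m) := by
    rcases Nat.eq_zero_or_pos x with rfl | hpos
    · have : Real.pi * (((0 : ℕ) : ℝ) + 1) / m - Real.pi / m = 0 := by
        push_cast; ring
      rw [this, Real.sin_zero]
      exact Finset.sum_eq_zero fun k _ => by simp
    · obtain ⟨y, rfl⟩ : ∃ y, x = y + 1 := ⟨x - 1, by omega⟩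
      have : ∀ k : ℕ, (if k + 1 = y + 1 then Real.sin (Real.pi * ((k : ℝ) + 1) / m) else 0) =
          (if k = y then Real.sin (Real.pi * ((k : ℝ) + 1) / m) else 0) := by
        intro k
        simp only [Nat.add_right_cancel_iff]
      rw [Finset.sum_congr rfl fun k _ => this k, Finset.sum_ite_eq', if_pos]
      · congr 1
        push_cast
        ring
      · rw [Finset.mem_range]; omega
  rw [h2, h3, Real.sin_add, Real.sin_sub]
  ring

end Sine

set_option linter.unusedSectionVars false

variable {S : Type u} [Fintype S] [DecidableEq S] (M : CoxeterMatrix S)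

/-- The weight of a coordinate. -/
noncomputable def unfF (e : Sym2 S) (k : ℕ) : ℝ :=
  if lab M e ≤ 1 then 1 else Real.sin (Real.pi * (k + 1) / (lab M e : ℝ))

theorem unfF_pos (e : Sym2 S) (k : Fin (max 1 (lab M e - 1))) : 0 < unfF M e k.val := by
  unfold unfF
  split_ifs with h
  · exact one_pos
  · have h1 : 2 ≤ lab M e := by omega
    have h2 : k.val + 1 < lab M e := by have := k.2; omega
    have h3 : (0 : ℝ) < (lab M e : ℝ) := by
      have : 0 < lab M e := by omega
      exact_mod_cast this
    have h4 : ((k.val : ℝ) + 1) < (lab M e : ℝ) := by exact_mod_cast h2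
    refine Real.sin_pos_of_pos_of_lt_pi ?_ ?_
    · have := Real.pi_pos
      positivity
    · rw [div_lt_iff₀ h3]
      exact mul_lt_mul_of_pos_left h4 Real.pi_pos

/-- The product weight. -/
noncomputable def unfD (i : UI M) : ℝ := ∏ e, unfF M e (i e).val

theorem unfD_pos (i : UI M) : 0 < unfD M i := Finset.prod_pos fun e _ => unfF_pos M e (i e)

theorem unfD_update (i : UI M) (e : Sym2 S) (k : Fin (max 1 (lab M e - 1))) :
    unfD M (Function.update i e k) * unfF M e (i e).val = unfD M i * unfF M e k.val := by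
  unfold unfD
  rw [← Finset.mul_prod_erase Finset.univ _ (Finset.mem_univ e),
    ← Finset.mul_prod_erase Finset.univ (fun e => unfF M e (i e).val) (Finset.mem_univ e)]
  have h : ∏ x ∈ Finset.univ.erase e, unfF M x (Function.update i e k x).val =
      ∏ x ∈ Finset.univ.erase e, unfF M x (i x).val := by
    refine Finset.prod_congr rfl fun x hx => ?_
    rw [Function.update_of_ne (Finset.ne_of_mem_erase hx)]
  rw [h, Function.update_self]
  ring

theorem unf_sum_coord (s t : S) (hst : s ≠ t) (hm : 2 ≤ M s t) (i : UI M) :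
    ∑ j : UI M, (if (unf M).Adj (s, i) (t, j) then unfD M j else 0) =
      2 * Real.cos (Real.pi / (M s t : ℝ)) * unfD M i := by
  set e : Sym2 S := s(s, t) with he
  have hlab : lab M e = M s t := rfl
  have hn : max 1 (lab M e - 1) = lab M e - 1 := by rw [hlab]; omega
  have hF : ∀ k : ℕ, unfF M e k = Real.sin (Real.pi * (k + 1) / (M s t : ℝ)) := by
    intro k
    unfold unfF
    rw [if_neg (by rw [hlab]; omega), hlab]
  have hFi : 0 < unfF M e (i e).val := unfF_pos M e (i e)
  -- reduce to a sum over the coordinate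
  have h1 : ∑ j : UI M, (if (unf M).Adj (s, i) (t, j) then unfD M j else 0) =
      ∑ k : Fin (max 1 (lab M e - 1)), (if (i e).val + 1 = k.val ∨ k.val + 1 = (i e).val then
        unfD M (Function.update i e k) else 0) := by
    rw [← Finset.sum_filter, ← Finset.sum_filter]
    refine Finset.sum_nbij' (fun j => j e) (fun k => Function.update i e k) ?_ ?_ ?_ ?_ ?_
    · intro j hj
      simp only [Finset.mem_filter, Finset.mem_univ, true_and] at hj ⊢
      exact hj.2.2
    · intro k hk
      simp only [Finset.mem_filter, Finset.mem_univ, true_and] at hk ⊢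
      refine ⟨hst, fun e' he' => ?_, ?_⟩
      · exact (Function.update_of_ne he' _ _).symm
      · change (i e).val + 1 = (Function.update i e k e).val ∨
          (Function.update i e k e).val + 1 = (i e).val
        rw [Function.update_self]
        exact hk
    · intro j hj
      simp only [Finset.mem_filter, Finset.mem_univ, true_and] at hj
      funext e'
      by_cases hee : e' = e
      · subst hee
        rw [Function.update_self]
      · rw [Function.update_of_ne hee]
        exact hj.2.1 e' hee
    · intro k _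
      exact Function.update_self _ _ _
    · intro j hj
      simp only [Finset.mem_filter, Finset.mem_univ, true_and] at hj
      congr 1
      funext e'
      by_cases hee : e' = e
      · subst hee
        rw [Function.update_self]
      · rw [Function.update_of_ne hee]
        exact (hj.2.1 e' hee).symm
  have h2 : ∀ k : Fin (max 1 (lab M e - 1)), unfD M (Function.update i e k) =
      unfD M i / unfF M e (i e).val * unfF M e k.val := by
    intro k
    have := unfD_update M i e k
    field_simp
    exact this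
  have h3 : ∑ k : Fin (max 1 (lab M e - 1)), (if (i e).val + 1 = k.val ∨ k.val + 1 = (i e).val then
        unfF M e k.val else 0) =
      2 * Real.cos (Real.pi / (M s t : ℝ)) * unfF M e (i e).val := by
    have h4 := path_sine (M s t) hm (i e).val (by have h8 := (i e).2; have h9 := hlab; omega)
    rw [hF, ← h4]
    have h5 : max 1 (lab M e - 1) = M s t - 1 := by rw [hn, hlab]
    refine Fintype.sum_equiv (finCongr h5) _ _ fun k => ?_
    simp only [finCongr_apply, Fin.val_cast, hF]
  rw [h1]
  have h6 : ∀ k : Fin (max 1 (lab M e - 1)),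
      (if (i e).val + 1 = k.val ∨ k.val + 1 = (i e).val then
        unfD M (Function.update i e k) else 0) = unfD M i / unfF M e (i e).val *
      (if (i e).val + 1 = k.val ∨ k.val + 1 = (i e).val then unfF M e k.val else 0) := by
    intro k
    rw [h2]
    split_ifs
    · rfl
    · rw [mul_zero]
  rw [Finset.sum_congr rfl fun k _ => h6 k, ← Finset.mul_sum, h3]
  field_simp

theorem exists_unfU (h : ∀ v : S → ℝ, v ≠ 0 → 0 < cform M v v) :
    ∃ u : S → ℝ, (∀ s, 0 < u s) ∧ ∀ s, geomP M s u = 1 := by
  have hform : ∀ v w : S → ℝ, cform M v w = ∑ s, v s * geomP M s w := by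
    intro v w
    unfold cform
    refine Finset.sum_congr rfl fun r _ => ?_
    change _ = v r * ∑ t, geomC M r t * w t
    rw [Finset.mul_sum]
    exact Finset.sum_congr rfl fun t _ => by rw [geomC]; ring
  have hoff : ∀ s t, s ≠ t → geomC M s t ≤ 0 := by
    intro s t hst
    have h1 : M s t ≠ 1 := M.off_diagonal s t hst
    have h2 : M s t ≠ 0 := ne_zero_of_cform_pos M h s t
    have h3 : 2 ≤ M s t := by omega
    have h3' : (2 : ℝ) ≤ (M s t : ℝ) := by exact_mod_cast h3
    have h4 : 0 ≤ Real.cos (Real.pi / (M s t : ℝ)) := by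
      refine Real.cos_nonneg_of_neg_pi_div_two_le_of_le ?_ ?_
      · have : 0 ≤ Real.pi / (M s t : ℝ) := by positivity
        linarith [Real.pi_pos]
      · exact div_le_div_of_nonneg_left Real.pi_pos.le two_pos h3'
    unfold geomC
    linarith
  let C : (S → ℝ) →ₗ[ℝ] (S → ℝ) := LinearMap.pi fun s => geomP M s
  have hinj : Function.Injective C := by
    rw [injective_iff_map_eq_zero]
    intro v hv
    by_contra hne
    have h1 := h v hne
    rw [hform] at h1
    have h2 : ∀ s, geomP M s v = 0 := fun s => congrFun hv s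
    simp [h2] at h1
  have hsurj : Function.Surjective C := LinearMap.injective_iff_surjective.mp hinj
  obtain ⟨u, hu⟩ := hsurj fun _ => 1
  have hu' : ∀ s, geomP M s u = 1 := fun s => congrFun hu s
  refine ⟨u, ?_, hu'⟩
  -- nonnegativity
  let up : S → ℝ := fun s => max (u s) 0
  let um : S → ℝ := fun s => max (-u s) 0
  have hsub : u = up - um := by
    funext s
    change u s = max (u s) 0 - max (-u s) 0
    rcases le_total 0 (u s) with h0 | h0
    · rw [max_eq_left h0, max_eq_right (by linarith)]; ring
    · rw [max_eq_right h0, max_eq_left (by linarith)]; ring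
  have hum : um = 0 := by
    by_contra hne
    have h1 := h um hne
    have h2 : 0 ≤ cform M um u := by
      rw [hform]
      refine Finset.sum_nonneg fun s _ => ?_
      rw [hu', mul_one]
      exact le_max_right _ _
    have h3 : cform M um u = cform M um up - cform M um um := by
      rw [hform, hform, hform, ← Finset.sum_sub_distrib]
      refine Finset.sum_congr rfl fun s _ => ?_
      rw [hsub, map_sub]
      ring
    have h4 : cform M um up ≤ 0 := by
      unfold cform
      refine Finset.sum_nonpos fun s _ => Finset.sum_nonpos fun t _ => ?_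
      rcases eq_or_ne s t with rfl | hst
      · have : um s * up s = 0 := by
          change max (-u s) 0 * max (u s) 0 = 0
          rcases le_total 0 (u s) with h0 | h0
          · rw [max_eq_right (by linarith : -u s ≤ 0)]; ring
          · rw [max_eq_right h0]; ring
        rw [this, zero_mul]
      · have h5 : 0 ≤ um s := le_max_right _ _
        have h6 : 0 ≤ up t := le_max_right _ _
        exact mul_nonpos_of_nonneg_of_nonpos (mul_nonneg h5 h6) (hoff s t hst)
    linarith
  have hnn : ∀ s, 0 ≤ u s := by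
    intro s
    have : u s = up s := by
      have := congrFun hsub s
      rw [hum] at this
      simpa using this
    rw [this]
    exact le_max_right _ _
  intro s
  have h1 := hu' s
  change ∑ t, geomC M s t * u t = 1 at h1
  rw [← Finset.add_sum_erase _ _ (Finset.mem_univ s), geomC_self] at h1
  have h2 : ∑ t ∈ Finset.univ.erase s, geomC M s t * u t ≤ 0 := by
    refine Finset.sum_nonpos fun t ht => ?_
    exact mul_nonpos_of_nonpos_of_nonneg (hoff s t (Finset.ne_of_mem_erase ht).symm) (hnn t)
  linarith

theorem unf_posDef (h : ∀ v : S → ℝ, v ≠ 0 → 0 < cform M v v) : PosDef (unf M) := by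
  obtain ⟨u, hupos, hu⟩ := exists_unfU M h
  refine posDef_of_weight (unf M) (fun a => u a.1 * unfD M a.2)
    (fun a => mul_pos (hupos _) (unfD_pos M _)) ?_
  rintro ⟨s, i⟩
  rw [Fintype.sum_prod_type]
  have h1 : ∀ t, ∑ j : UI M, (if (unf M).Adj (s, i) (t, j) then u t * unfD M j else 0) =
      (if t = s then 0 else - geomC M s t * u t * unfD M i) := by
    intro t
    split_ifs with hts
    · subst hts
      refine Finset.sum_eq_zero fun j _ => ?_
      rw [if_neg]
      intro hadj
      exact hadj.1 rfl
    · have hst : s ≠ t := fun h => hts h.symm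
      have h1 : M s t ≠ 1 := M.off_diagonal s t hst
      have h2 : M s t ≠ 0 := ne_zero_of_cform_pos M h s t
      have h3 : 2 ≤ M s t := by omega
      have h4 := unf_sum_coord M s t hst h3 i
      have h5 : ∀ j : UI M, (if (unf M).Adj (s, i) (t, j) then u t * unfD M j else 0) =
          u t * (if (unf M).Adj (s, i) (t, j) then unfD M j else 0) := by
        intro j
        split_ifs
        · rfl
        · rw [mul_zero]
      rw [Finset.sum_congr rfl fun j _ => h5 j, ← Finset.mul_sum, h4]
      unfold geomC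
      ring
  simp only
  rw [Finset.sum_congr rfl fun t _ => h1 t]
  have h2 : ∑ t, (if t = s then 0 else - geomC M s t * u t * unfD M i) =
      (2 * u s - 1) * unfD M i := by
    have h3 := hu s
    change ∑ t, geomC M s t * u t = 1 at h3
    rw [← Finset.add_sum_erase _ _ (Finset.mem_univ s), geomC_self] at h3
    rw [← Finset.add_sum_erase _ _ (Finset.mem_univ s), if_pos rfl, zero_add]
    have h4 : ∑ t ∈ Finset.univ.erase s, (if t = s then 0 else - geomC M s t * u t * unfD M i) =
        - (∑ t ∈ Finset.univ.erase s, geomC M s t * u t) * unfD M i := by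
      rw [neg_mul, Finset.sum_mul, ← Finset.sum_neg_distrib]
      refine Finset.sum_congr rfl fun t ht => ?_
      rw [if_neg (Finset.ne_of_mem_erase ht)]
      ring
    rw [h4]
    have h5 : ∑ t ∈ Finset.univ.erase s, geomC M s t * u t = 1 - 2 * u s := by linarith
    rw [h5]
    ring
  rw [h2]
  have h3 := unfD_pos M i
  nlinarith

end SPH
end

section

/-! # Hattori-Stallings traces in characteristic zero (job R16) -/

namespace SPH

universe u v

open scoped Classical in
private theorem hs_classSum_eq {K : Type u} [Field K] {Γ : Type u} [Group Γ]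
    (x : MonoidAlgebra K Γ) (g : Γ) (S : Finset Γ) (hS : x.coeff.support ⊆ S) :
    classSum x g = ∑ h ∈ S, if IsConj g h then x.coeff h else 0 := by
  rw [classSum, Finsupp.sum_of_support_subset _ hS]
  intro h _
  split_ifs <;> rfl

open scoped Classical in
private theorem hs_classSum_map {A : Type*} [CommRing A] {K : Type u} [Field K] {Γ : Type u}
    [Group Γ] (f : A →+* K) (x : MonoidAlgebra A Γ) (g : Γ) :
    classSum (MonoidAlgebra.mapRingHom Γ f x) g =
      f (∑ h ∈ x.coeff.support, if IsConj g h then x.coeff h else 0) := by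
  rw [hs_classSum_eq _ g x.coeff.support, map_sum]
  · refine Finset.sum_congr rfl fun h _ => ?_
    rw [MonoidAlgebra.coeff_mapRingHom]
    split_ifs
    · rfl
    · rw [map_zero]
  · intro h hh
    rw [Finsupp.mem_support_iff, MonoidAlgebra.coeff_mapRingHom] at hh
    rw [Finsupp.mem_support_iff]
    intro h0
    exact hh (by rw [h0, map_zero])

theorem classSum_eq_zero {K : Type u} [Field K] [CharZero K] {Γ : Type u} [Group Γ] {n : ℕ}
    (e : Matrix (Fin n) (Fin n) (MonoidAlgebra K Γ)) (he : e * e = e) (g : Γ)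
    (hg : ∀ (x : Γ) (s : ℕ), 2 ≤ s → x * g * x⁻¹ ≠ g ^ s) : classSum (Matrix.trace e) g = 0 := by
  classical
  by_contra hc0
  set X : Finset K := Finset.univ.biUnion fun i : Fin n => Finset.univ.biUnion fun j : Fin n =>
    (e i j).coeff.support.image fun h => (e i j).coeff h with hX
  set A0 := Algebra.adjoin ℤ (X : Set K) with hA0
  let ι : A0 →+* K := A0.subtype
  have hι : Function.Injective ι := Subtype.val_injective
  have hmem : ∀ i j h, (e i j).coeff h ∈ A0 := by
    intro i j h
    by_cases h0 : h ∈ (e i j).coeff.support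
    · apply Algebra.subset_adjoin
      rw [hX, Finset.mem_coe, Finset.mem_biUnion]
      refine ⟨i, Finset.mem_univ _, ?_⟩
      rw [Finset.mem_biUnion]
      exact ⟨j, Finset.mem_univ _, Finset.mem_image.2 ⟨h, h0, rfl⟩⟩
    · rw [Finsupp.notMem_support_iff.1 h0]
      exact zero_mem _
  have hex : ∀ i j, ∃ y : MonoidAlgebra A0 Γ, MonoidAlgebra.mapRingHom Γ ι y = e i j := by
    intro i j
    have h1 : e i j ∈ Set.range (MonoidAlgebra.map (M := Γ) (ι : A0 →+ K)) := by
      rw [MonoidAlgebra.range_map]
      intro h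
      exact ⟨⟨_, hmem i j h⟩, rfl⟩
    obtain ⟨y, hy⟩ := h1
    exact ⟨y, hy⟩
  choose e0 he0 using hex
  have hmap : (Matrix.of e0).map (MonoidAlgebra.mapRingHom Γ ι) = e := by
    ext1 i j
    exact he0 i j
  have hinj : Function.Injective (MonoidAlgebra.mapRingHom Γ ι) :=
    MonoidAlgebra.map_injective (ι : A0 →+ K) hι
  set E0 : Matrix (Fin n) (Fin n) (MonoidAlgebra A0 Γ) := Matrix.of e0 with hE0
  have hE : E0 * E0 = E0 := by
    apply Matrix.map_injective hinj
    simp only
    rw [Matrix.map_mul, hmap, he]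
  have htr : Matrix.trace e = MonoidAlgebra.mapRingHom Γ ι (Matrix.trace E0) := by
    rw [← hmap]
    exact (AddMonoidHom.map_trace (MonoidAlgebra.mapRingHom Γ ι).toAddMonoidHom E0).symm
  rw [htr, hs_classSum_map] at hc0
  set c0 : A0 := ∑ h ∈ (Matrix.trace E0).coeff.support,
    if IsConj g h then (Matrix.trace E0).coeff h else 0 with hc0def
  obtain ⟨F, hF, p, hp, hcp, χ, hχ⟩ := exists_specialization X (ι c0) c0.2 hc0
  have hχ' : χ c0 ≠ 0 := hχ
  set Eb : Matrix (Fin n) (Fin n) (MonoidAlgebra F Γ) :=
    E0.map (MonoidAlgebra.mapRingHom Γ χ) with hEb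
  have hEb2 : Eb * Eb = Eb := by
    rw [hEb, ← Matrix.map_mul, hE]
  have htrb : Matrix.trace Eb = MonoidAlgebra.mapRingHom Γ χ (Matrix.trace E0) :=
    (AddMonoidHom.map_trace (MonoidAlgebra.mapRingHom Γ χ).toAddMonoidHom E0).symm
  set Eu : Matrix (ULift.{u} (Fin n)) (ULift.{u} (Fin n)) (MonoidAlgebra F Γ) :=
    Eb.submatrix Equiv.ulift Equiv.ulift with hEu
  have hEu2 : Eu * Eu = Eu := by
    rw [hEu, Matrix.submatrix_mul_equiv, hEb2]
  have htru : Matrix.trace Eu = Matrix.trace Eb := by
    rw [Matrix.trace, Matrix.trace]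
    exact Equiv.sum_comp Equiv.ulift (fun i => Eb i i)
  obtain ⟨x, s, hs, hxs⟩ := conj_pow_of_classSum_ne_zero_charP p Eu hEu2 g (by
    rw [htru, htrb, hs_classSum_map]
    exact hχ')
  exact hg x s hs hxs

private theorem hs_aug_apply {K : Type u} [Field K] {Γ : Type u} [Group Γ]
    (x : MonoidAlgebra K Γ) : aug K Γ x = x.coeff.sum fun _ a => a := by
  rw [aug]
  show (MonoidAlgebra.lift K K Γ (1 : Γ →* K)) x = _
  rw [MonoidAlgebra.lift_apply]
  simp

theorem subSum_eq_aug {K : Type u} [Field K] [CharZero K] {Γ : Type u} [Group Γ]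
    (N : Subgroup Γ) [N.Normal] {n : ℕ} (e : Matrix (Fin n) (Fin n) (MonoidAlgebra K Γ))
    (he : e * e = e)
    (hg : ∀ g : Γ, g ∉ N → ∀ (x : Γ) (s : ℕ), 2 ≤ s → x * g * x⁻¹ ≠ g ^ s) :
    subSum N (Matrix.trace e) = aug K Γ (Matrix.trace e) := by
  classical
  set t := Matrix.trace e with ht
  rw [hs_aug_apply, subSum, Finsupp.sum, Finsupp.sum]
  set S := t.coeff.support with hS
  have key : ∑ h ∈ S.filter (fun h => h ∉ N), t.coeff h = 0 := by
    rw [← Finset.sum_fiberwise_of_maps_to (s := S.filter (fun h => h ∉ N))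
      (t := (S.filter (fun h => h ∉ N)).image ConjClasses.mk) (g := ConjClasses.mk)
      (fun h hh => Finset.mem_image_of_mem _ hh)]
    refine Finset.sum_eq_zero fun c hc => ?_
    obtain ⟨g, hgS, rfl⟩ := Finset.mem_image.1 hc
    have hgN : g ∉ N := (Finset.mem_filter.1 hgS).2
    have h1 := classSum_eq_zero e he g (hg g hgN)
    rw [hs_classSum_eq _ g S subset_rfl, ← Finset.sum_filter] at h1
    rw [← h1]
    refine Finset.sum_congr ?_ fun _ _ => rfl
    ext h
    simp only [Finset.mem_filter, ConjClasses.mk_eq_mk_iff_isConj]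
    constructor
    · rintro ⟨⟨h2, -⟩, h3⟩
      exact ⟨h2, h3.symm⟩
    · rintro ⟨h2, h3⟩
      refine ⟨⟨h2, fun h4 => hgN ?_⟩, h3.symm⟩
      obtain ⟨y, hy⟩ := isConj_iff.1 h3.symm
      rw [← hy]
      exact Subgroup.Normal.conj_mem inferInstance h h4 y
  have h2 := Finset.sum_filter_add_sum_filter_not S (fun h => h ∈ N) (fun h => t.coeff h)
  rw [key, add_zero, Finset.sum_filter] at h2
  exact h2

end SPH
end
end
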