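import Mathlib
import Pool.Agent.Lib.MP_7b9603_al.Weyl
import Pool.Agent.Lib.MP_7b9603_al.HS

section

/-! # Powers of prime power exponent and trace functionals, values killed by `p^j` (job P12) -/

namespace SPH

universe u v

open Finset

private theorem p12_sum_zero {S : Type*} [Fintype S] {V : Type*} [AddCommGroup V]
    (σ : Equiv.Perm S) (φ : S → V) (hφ : ∀ x, φ (σ x) = φ x) (m : ℕ)
    (hm : ∀ x, m ∣ Function.minimalPeriod σ x) (hV : ∀ v : V, m • v = 0) : ∑ x, φ x = 0 := by
  classical
  have hφi : ∀ x, φ (σ⁻¹ x) = φ x := by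
    intro x
    rw [← hφ (σ⁻¹ x)]
    exact congrArg φ (σ.apply_symm_apply x)
  have hφn : ∀ (n : ℕ) x, φ ((σ ^ n) x) = φ x := by
    intro n
    induction n with
    | zero => intro x; rfl
    | succ n ih =>
      intro x
      rw [pow_succ, Equiv.Perm.mul_apply, ih, hφ]
  have hφn' : ∀ (n : ℕ) x, φ ((σ⁻¹ ^ n) x) = φ x := by
    intro n
    induction n with
    | zero => intro x; rfl
    | succ n ih =>
      intro x
      rw [pow_succ, Equiv.Perm.mul_apply, ih, hφi]
  have hφG : ∀ (g : Subgroup.zpowers σ) x, φ (g • x) = φ x := by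
    rintro ⟨g, hg⟩ x
    obtain ⟨k, rfl⟩ := Subgroup.mem_zpowers_iff.1 hg
    show φ ((σ ^ k) x) = φ x
    cases k with
    | ofNat k =>
      rw [Int.ofNat_eq_natCast, zpow_natCast]
      exact hφn k x
    | negSucc k =>
      rw [zpow_negSucc, ← inv_pow]
      exact hφn' (k + 1) x
  rw [← Finset.sum_fiberwise (s := univ)
    (g := fun x => (Quotient.mk (MulAction.orbitRel (Subgroup.zpowers σ) S) x))]
  refine sum_eq_zero fun ω _ => ?_
  induction ω using Quotient.inductionOn with
  | h y =>
    have h1 : ∀ x ∈ univ.filter (fun x => Quotient.mk (MulAction.orbitRel (Subgroup.zpowers σ) S) x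
        = Quotient.mk _ y), φ x = φ y := by
      intro x hx
      have h2 := Quotient.exact (mem_filter.1 hx).2
      obtain ⟨g, hg⟩ : x ∈ MulAction.orbit (Subgroup.zpowers σ) y := h2
      rw [← hg]
      exact hφG g y
    rw [sum_congr rfl h1, sum_const]
    have h3 : (univ.filter (fun x => Quotient.mk (MulAction.orbitRel (Subgroup.zpowers σ) S) x
        = Quotient.mk _ y)).card = Function.minimalPeriod σ y := by
      rw [← Fintype.card_subtype]
      have h4 := MulAction.minimalPeriod_eq_card σ y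
      have h5 : Function.minimalPeriod (fun x => σ • x) y = Function.minimalPeriod σ y := rfl
      rw [← h5, h4]
      refine Fintype.card_congr (Equiv.subtypeEquivRight fun x => ?_)
      rw [Quotient.eq]
      exact MulAction.orbitRel_apply
    obtain ⟨c, hc⟩ := hm y
    rw [h3, hc, mul_nsmul, hV, nsmul_zero]

private theorem p12_pow {𝒜 : Type*} [Ring 𝒜] {S : Type*} [Fintype S] (a : S → 𝒜) (n : ℕ) :
    (∑ i, a i) ^ n = ∑ w : Fin n → S, (List.ofFn fun k => a (w k)).prod := by
  induction n with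
  | zero => simp
  | succ n ih =>
    rw [pow_succ', ih, sum_mul_sum, ← Fintype.sum_prod_type',
      ← (Fin.consEquiv (fun _ : Fin (n + 1) => S)).sum_comp]
    refine sum_congr rfl fun x _ => ?_
    rw [List.ofFn_succ]
    simp [Fin.consEquiv]

private theorem p12_ofFn {α : Type*} (q : ℕ) (g : ℕ → α) :
    (List.ofFn fun k : Fin q => g k) = (List.range q).map g := by
  rw [List.ofFn_eq_map, ← List.map_coe_finRange_eq_range, List.map_map]
  rfl

private theorem p12_periodic {𝒜 : Type*} [Ring 𝒜] (g : ℕ → 𝒜) (d : ℕ)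
    (hg : ∀ n, g (n + d) = g n) (e : ℕ) :
    ((List.range (d * e)).map g).prod = ((List.range d).map g).prod ^ e := by
  have hge : ∀ e n, g (d * e + n) = g n := by
    intro e
    induction e with
    | zero => intro n; rw [mul_zero, zero_add]
    | succ e ih =>
      intro n
      have h1 : d * (e + 1) + n = (d * e + n) + d := by ring
      rw [h1, hg, ih]
  induction e with
  | zero => simp
  | succ e ih =>
    rw [mul_add, mul_one, List.range_add, List.map_append, List.prod_append, ih, List.map_map,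
      pow_succ]
    congr 2
    refine List.map_congr_left fun n _ => ?_
    exact hge e n

/-- Let `T` be additive with `T(ab) = T(ba)` and values in a group killed by `p ^ j`. Then
`T((∑ a_i)^(p^N))` is in the additive span of the `T(b^(p^(N+1-j)))` where `b` runs over the
products of `p^(j-1)` of the `a_i`. -/
theorem trace_pow_prime_pow_mem {𝒜 : Type u} [Ring 𝒜] {V : Type v} [AddCommGroup V] (p : ℕ)
    (hp : p.Prime) (j : ℕ) (hj : 1 ≤ j) (hV : ∀ v : V, p ^ j • v = 0) (T : 𝒜 →+ V)
    (hT : ∀ a b, T (a * b) = T (b * a)) {ι : Type v} [Fintype ι] (a : ι → 𝒜) (N : ℕ)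
    (hN : j ≤ N + 1) :
    T ((∑ i, a i) ^ p ^ N) ∈ AddSubgroup.closure
      {v | ∃ w : Fin (p ^ (j - 1)) → ι,
        v = T ((List.ofFn fun k => a (w k)).prod ^ p ^ (N + 1 - j))} := by
  classical
  obtain ⟨m, hm⟩ : ∃ m, p ^ N = m + 1 := ⟨p ^ N - 1, by have := Nat.pow_pos (n := N) hp.pos; omega⟩
  have hde : p ^ (j - 1) * p ^ (N + 1 - j) = m + 1 := by
    rw [← pow_add, ← hm]
    congr 1
    omega
  rw [hm, p12_pow, map_sum]
  let σ : Equiv.Perm (Fin (m + 1) → ι) :=
    (Equiv.addRight (1 : Fin (m + 1))).symm.arrowCongr (Equiv.refl ι)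
  have hσ : ∀ (w : Fin (m + 1) → ι) i, σ w i = w (i + 1) := fun w i => rfl
  have hσk : ∀ (k : ℕ) (w : Fin (m + 1) → ι) (i : Fin (m + 1)),
      (σ ^ k) w i = w (i + k • (1 : Fin (m + 1))) := by
    intro k
    induction k with
    | zero => intro w i; rw [zero_nsmul, add_zero]; rfl
    | succ k ih =>
      intro w i
      rw [pow_succ', Equiv.Perm.mul_apply, hσ, ih, succ_nsmul']
      congr 1
      abel
  have hσ1 : σ ^ p ^ N = 1 := by
    ext1 w
    funext i
    have h0 : (m + 1) • (1 : Fin (m + 1)) = 0 := by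
      have := card_nsmul_eq_zero' (G := Fin (m + 1)) (x := 1)
      simpa using this
    rw [hm, hσk, h0, add_zero]
    rfl
  have hφ : ∀ w : Fin (m + 1) → ι,
      T (List.ofFn fun k => a ((σ w) k)).prod = T (List.ofFn fun k => a (w k)).prod := by
    intro w
    show T (List.ofFn fun k => a (w (k + 1))).prod = T (List.ofFn fun k => a (w k)).prod
    rw [List.ofFn_succ', List.ofFn_succ (f := fun k => a (w k)), List.concat_eq_append,
      List.prod_append, List.prod_cons, List.prod_nil, mul_one, List.prod_cons, hT]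
    simp only [Fin.coeSucc_eq_succ, Fin.last_add_one]
  rw [← Finset.sum_filter_add_sum_filter_not univ
    (fun w : Fin (m + 1) → ι => (σ ^ p ^ (j - 1)) w = w)]
  have hzero : ∑ w : Fin (m + 1) → ι with ¬ (σ ^ p ^ (j - 1)) w = w,
      T (List.ofFn fun k => a (w k)).prod = 0 := by
    rw [Finset.sum_subtype (p := fun w : Fin (m + 1) → ι => ¬ (σ ^ p ^ (j - 1)) w = w) _
      (fun w => by rw [mem_filter]; exact ⟨fun h => h.2, fun h => ⟨mem_univ _, h⟩⟩)]
    have hst : ∀ w : Fin (m + 1) → ι, (¬ (σ ^ p ^ (j - 1)) (σ w) = σ w) ↔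
        ¬ (σ ^ p ^ (j - 1)) w = w := by
      intro w
      rw [not_iff_not, ← Equiv.Perm.mul_apply, ← pow_succ, pow_succ', Equiv.Perm.mul_apply,
        EmbeddingLike.apply_eq_iff_eq]
    have hτn : ∀ (n : ℕ) (x : {w : Fin (m + 1) → ι // ¬ (σ ^ p ^ (j - 1)) w = w}),
        (((σ.subtypePerm hst)^[n]) x).1 = (σ ^ n) x.1 := by
      intro n
      induction n with
      | zero => intro x; rfl
      | succ n ih =>
        intro x
        rw [Function.iterate_succ', pow_succ', Equiv.Perm.mul_apply, Function.comp_apply, ← ih]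
        rfl
    refine p12_sum_zero (σ.subtypePerm hst)
      (fun x => T (List.ofFn fun k => a (x.1 k)).prod) (fun x => hφ x.1) (p ^ j) (fun x => ?_) hV
    have h1 : Function.minimalPeriod (σ.subtypePerm hst) x ∣ p ^ N := by
      refine Function.IsPeriodicPt.minimalPeriod_dvd ?_
      show ((σ.subtypePerm hst)^[p ^ N]) x = x
      apply Subtype.ext
      rw [hτn, hσ1]
      rfl
    obtain ⟨i, -, hi⟩ := (Nat.dvd_prime_pow hp).1 h1
    rw [hi]
    by_contra hc
    have hij : i < j := by
      by_contra hc2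
      exact hc (pow_dvd_pow p (not_lt.1 hc2))
    have h2 : Function.minimalPeriod (σ.subtypePerm hst) x ∣ p ^ (j - 1) := by
      rw [hi]
      exact pow_dvd_pow p (by omega)
    have h3 : ((σ.subtypePerm hst)^[p ^ (j - 1)]) x = x :=
      Function.isPeriodicPt_iff_minimalPeriod_dvd.2 h2
    have h4 := congrArg Subtype.val h3
    rw [hτn] at h4
    exact x.2 h4
  rw [hzero, add_zero]
  refine AddSubgroup.sum_mem _ fun w hw => AddSubgroup.subset_closure ?_
  have hw' := (mem_filter.1 hw).2
  let W : ℕ → ι := fun n => w (Fin.ofNat (m + 1) n)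
  have hns : ∀ k : ℕ, k • (1 : Fin (m + 1)) = Fin.ofNat (m + 1) k := by
    intro k
    induction k with
    | zero =>
      rw [zero_nsmul]
      rfl
    | succ k ih =>
      rw [succ_nsmul, ih]
      apply Fin.ext
      simp [Fin.ofNat, Fin.val_add]
  have hWd : ∀ n, W (n + p ^ (j - 1)) = W n := by
    intro n
    have h1 := congrFun hw' (Fin.ofNat (m + 1) n)
    rw [hσk] at h1
    show w (Fin.ofNat (m + 1) (n + p ^ (j - 1))) = w (Fin.ofNat (m + 1) n)
    rw [← h1]
    congr 1
    apply Fin.ext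
    rw [hns]
    simp [Fin.ofNat, Fin.val_add]
  have hWw : ∀ k : Fin (m + 1), W k = w k := by
    intro k
    show w (Fin.ofNat (m + 1) k) = w k
    congr 1
    apply Fin.ext
    simp [Fin.ofNat, Nat.mod_eq_of_lt k.2]
  refine ⟨fun k => W k, ?_⟩
  have e1 : (List.ofFn fun k : Fin (m + 1) => a (w k)) = (List.range (m + 1)).map (fun n => a (W n)) := by
    rw [← p12_ofFn]
    congr 1
    funext k
    rw [hWw]
  have e2 : (List.ofFn fun k : Fin (p ^ (j - 1)) => a (W k)) =
      (List.range (p ^ (j - 1))).map (fun n => a (W n)) := p12_ofFn _ (fun n => a (W n))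
  rw [e1, e2, ← p12_periodic (fun n => a (W n)) (p ^ (j - 1)) (fun n => by
    show a (W (n + p ^ (j - 1))) = a (W n)
    rw [hWd]) (p ^ (N + 1 - j)), hde]

end SPH
end

section

/-! # Finite global dimension of group algebras of poly-Z groups (job R7) -/

namespace SPH

universe u v

private theorem gld_mul_apply {A : Type*} [AddCommMonoid A] (φ ψ : AddMonoid.End A) (x : A) :
    (φ * ψ) x = φ (ψ x) := rfl

private theorem gld_add_apply {A : Type*} [AddCommMonoid A] (φ ψ : AddMonoid.End A) (x : A) :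
    (φ + ψ) x = φ x + ψ x := rfl

section Ind

variable {K : Type u} [Field K] {N : Type u} [Group N]

/-- The module induced from the kernel of `f`: finitely supported functions from `ℤ` to `L`, with
the diagonal action of `N`. -/
def IndZ (_f : N →* Multiplicative ℤ) (L : Type u) [AddCommGroup L] : Type u := ℤ →₀ L

variable (f : N →* Multiplicative ℤ) (L : Type u) [AddCommGroup L]

noncomputable instance : AddCommGroup (IndZ f L) := inferInstanceAs (AddCommGroup (ℤ →₀ L))

/-- The element `l` in degree `i`. -/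
noncomputable def IndZ.sg (i : ℤ) : L →+ IndZ f L := Finsupp.singleAddHom i

theorem IndZ.hom_ext {B : Type*} [AddZeroClass B] {φ ψ : IndZ f L →+ B}
    (h : ∀ i l, φ (IndZ.sg f L i l) = ψ (IndZ.sg f L i l)) : φ = ψ :=
  Finsupp.addHom_ext h

theorem IndZ.end_ext {φ ψ : AddMonoid.End (IndZ f L)}
    (h : ∀ i l, φ (IndZ.sg f L i l) = ψ (IndZ.sg f L i l)) : φ = ψ :=
  IndZ.hom_ext f L (φ := φ) (ψ := ψ) h

theorem IndZ.induction {p : IndZ f L → Prop} (zero : p 0) (add : ∀ x y, p x → p y → p (x + y))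
    (sg : ∀ i l, p (IndZ.sg f L i l)) (x : IndZ f L) : p x :=
  Finsupp.induction_linear (motive := p) x zero add sg

/-- Additive maps out of `IndZ`. -/
noncomputable def IndZ.lift {B : Type*} [AddCommMonoid B] (φ : ℤ → L →+ B) : IndZ f L →+ B :=
  Finsupp.liftAddHom φ

theorem IndZ.lift_sg {B : Type*} [AddCommMonoid B] (φ : ℤ → L →+ B) (i : ℤ) (l : L) :
    IndZ.lift f L φ (IndZ.sg f L i l) = φ i l := by
  unfold IndZ.lift IndZ.sg
  exact Finsupp.liftAddHom_apply_single φ i l

variable [Module (MonoidAlgebra K N) L]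

/-- The action of a homogeneous element. -/
noncomputable def IndZ.actH (r : MonoidAlgebra K N) (j : ℤ) : AddMonoid.End (IndZ f L) :=
  IndZ.lift f L fun i => (IndZ.sg f L (i + j)).comp (DistribSMul.toAddMonoidHom L r)

theorem IndZ.actH_sg (r : MonoidAlgebra K N) (j i : ℤ) (l : L) :
    IndZ.actH f L r j (IndZ.sg f L i l) = IndZ.sg f L (i + j) (r • l) :=
  IndZ.lift_sg f L _ i l

/-- The action of `K`. -/
noncomputable def IndZ.actK : K →+* AddMonoid.End (IndZ f L) where
  toFun k := IndZ.actH f L (MonoidAlgebra.single (1 : N) k) 0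
  map_one' := by
    refine IndZ.end_ext f L fun i l => ?_
    rw [IndZ.actH_sg, add_zero, ← MonoidAlgebra.one_def, one_smul, AddMonoid.End.one_apply]
  map_mul' k k' := by
    refine IndZ.end_ext f L fun i l => ?_
    rw [gld_mul_apply, IndZ.actH_sg, IndZ.actH_sg, IndZ.actH_sg, ← mul_smul,
      MonoidAlgebra.single_mul_single, one_mul, add_zero, add_zero]
  map_zero' := by
    refine IndZ.end_ext f L fun i l => ?_
    rw [IndZ.actH_sg, MonoidAlgebra.single_zero, zero_smul, map_zero, AddMonoid.End.zero_apply]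
  map_add' k k' := by
    refine IndZ.end_ext f L fun i l => ?_
    rw [gld_add_apply, IndZ.actH_sg, IndZ.actH_sg, IndZ.actH_sg,
      MonoidAlgebra.single_add, add_smul, map_add]

theorem IndZ.actK_sg (k : K) (i : ℤ) (l : L) :
    IndZ.actK f L k (IndZ.sg f L i l) =
      IndZ.sg f L i ((MonoidAlgebra.single 1 k : MonoidAlgebra K N) • l) := by
  have := IndZ.actH_sg f L (MonoidAlgebra.single (1 : N) k) 0 i l
  rwa [add_zero] at this

/-- The action of `N`. -/
noncomputable def IndZ.actN (K : Type u) [Field K] [Module (MonoidAlgebra K N) L] :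
    N →* AddMonoid.End (IndZ f L) where
  toFun n := IndZ.actH f L (MonoidAlgebra.single n (1 : K)) (f n).toAdd
  map_one' := by
    refine IndZ.end_ext f L fun i l => ?_
    rw [IndZ.actH_sg, map_one, toAdd_one, add_zero, ← MonoidAlgebra.one_def, one_smul,
      AddMonoid.End.one_apply]
  map_mul' n n' := by
    refine IndZ.end_ext f L fun i l => ?_
    rw [gld_mul_apply, IndZ.actH_sg, IndZ.actH_sg, IndZ.actH_sg, ← mul_smul,
      MonoidAlgebra.single_mul_single, one_mul, map_mul, toAdd_mul]
    congr 2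
    ring

theorem IndZ.actN_sg (K : Type u) [Field K] [Module (MonoidAlgebra K N) L] (n : N) (i : ℤ)
    (l : L) : IndZ.actN f L K n (IndZ.sg f L i l) =
      IndZ.sg f L (i + (f n).toAdd) ((MonoidAlgebra.single n 1 : MonoidAlgebra K N) • l) :=
  IndZ.actH_sg f L (MonoidAlgebra.single n (1 : K)) _ i l

theorem IndZ.act_comm (k : K) (n : N) : Commute (IndZ.actK f L k) (IndZ.actN f L K n) := by
  rw [commute_iff_eq]
  refine IndZ.end_ext f L fun i l => ?_
  rw [gld_mul_apply, gld_mul_apply, IndZ.actN_sg, IndZ.actK_sg, IndZ.actK_sg,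
    IndZ.actN_sg, ← mul_smul, ← mul_smul,
    MonoidAlgebra.single_mul_single, MonoidAlgebra.single_mul_single,
    one_mul, mul_one, mul_one, one_mul]

/-- The action of `K[N]`. -/
noncomputable def IndZ.act : MonoidAlgebra K N →+* AddMonoid.End (IndZ f L) :=
  MonoidAlgebra.liftNCRingHom (IndZ.actK f L) (IndZ.actN f L K) (IndZ.act_comm f L)

noncomputable instance : Module (MonoidAlgebra K N) (IndZ f L) :=
  Module.compHom (IndZ f L) (IndZ.act f L)

theorem IndZ.smul_def (r : MonoidAlgebra K N) (x : IndZ f L) : r • x = IndZ.act f L r x := rfl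

theorem IndZ.single_smul (n : N) (k : K) (i : ℤ) (l : L) :
    (MonoidAlgebra.single n k : MonoidAlgebra K N) • IndZ.sg f L i l =
      IndZ.sg f L (i + (f n).toAdd) ((MonoidAlgebra.single n k : MonoidAlgebra K N) • l) := by
  rw [IndZ.smul_def]
  unfold IndZ.act
  rw [MonoidAlgebra.liftNCRingHom_single, gld_mul_apply, IndZ.actN_sg, IndZ.actK_sg,
    ← mul_smul, MonoidAlgebra.single_mul_single, one_mul, mul_one]

/-- Additive maps which are linear for monomials are linear. -/
theorem gld_linear {A B : Type*} [AddCommGroup A] [Module (MonoidAlgebra K N) A]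
    [AddCommGroup B] [Module (MonoidAlgebra K N) B] (φ : A →+ B)
    (h : ∀ (n : N) (k : K) (a : A), φ ((MonoidAlgebra.single n k : MonoidAlgebra K N) • a) =
      (MonoidAlgebra.single n k : MonoidAlgebra K N) • φ a) (r : MonoidAlgebra K N) (a : A) :
    φ (r • a) = r • φ a := by
  induction r using MonoidAlgebra.induction_linear with
  | zero => rw [zero_smul, zero_smul, map_zero]
  | add r s hr hs => rw [add_smul, add_smul, map_add, hr, hs]
  | single n k => exact h n k a

/-- Linear maps out of `IndZ`. -/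
theorem IndZ.linear_of_sg {B : Type*} [AddCommGroup B] [Module (MonoidAlgebra K N) B]
    (φ : IndZ f L →+ B)
    (h : ∀ (n : N) (k : K) (i : ℤ) (l : L),
      φ (IndZ.sg f L (i + (f n).toAdd) ((MonoidAlgebra.single n k : MonoidAlgebra K N) • l)) =
      (MonoidAlgebra.single n k : MonoidAlgebra K N) • φ (IndZ.sg f L i l))
    (r : MonoidAlgebra K N) (x : IndZ f L) : φ (r • x) = r • φ x := by
  refine gld_linear φ (fun n k a => ?_) r x
  have h1 : φ.comp (DistribSMul.toAddMonoidHom (IndZ f L)
      (MonoidAlgebra.single n k : MonoidAlgebra K N)) =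
      (DistribSMul.toAddMonoidHom B (MonoidAlgebra.single n k : MonoidAlgebra K N)).comp φ := by
    refine IndZ.hom_ext f L fun i l => ?_
    simp only [AddMonoidHom.comp_apply, DistribSMul.toAddMonoidHom_apply]
    rw [IndZ.single_smul, h]
  exact DFunLike.congr_fun h1 a

/-- The projection to `L`. -/
noncomputable def IndZ.pi : IndZ f L →ₗ[MonoidAlgebra K N] L where
  toFun := IndZ.lift f L fun _ => AddMonoidHom.id L
  map_add' := map_add _
  map_smul' := by
    intro r x
    refine IndZ.linear_of_sg f L (IndZ.lift f L fun _ => AddMonoidHom.id L) ?_ r x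
    intro n k i l
    rw [IndZ.lift_sg, IndZ.lift_sg]
    rfl

theorem IndZ.pi_sg (i : ℤ) (l : L) : IndZ.pi (K := K) f L (IndZ.sg f L i l) = l :=
  IndZ.lift_sg f L _ i l

/-- The shift minus the identity. -/
noncomputable def IndZ.sh : IndZ f L →ₗ[MonoidAlgebra K N] IndZ f L where
  toFun := IndZ.lift f L fun i => IndZ.sg f L (i + 1) - IndZ.sg f L i
  map_add' := map_add _
  map_smul' := by
    intro r x
    refine IndZ.linear_of_sg f L
      (IndZ.lift f L fun i => IndZ.sg f L (i + 1) - IndZ.sg f L i) ?_ r x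
    intro n k i l
    rw [IndZ.lift_sg, IndZ.lift_sg, AddMonoidHom.sub_apply, AddMonoidHom.sub_apply, smul_sub,
      IndZ.single_smul, IndZ.single_smul, add_right_comm]

theorem IndZ.sh_sg (i : ℤ) (l : L) : IndZ.sh (K := K) f L (IndZ.sg f L i l) =
    IndZ.sg f L (i + 1) l - IndZ.sg f L i l :=
  IndZ.lift_sg f L _ i l

/-- The underlying function. -/
noncomputable def IndZ.co (i : ℤ) : IndZ f L →+ L := Finsupp.applyAddHom i

theorem IndZ.co_sg (i j : ℤ) (l : L) : IndZ.co f L i (IndZ.sg f L j l) = if j = i then l else 0 := by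
  unfold IndZ.co IndZ.sg
  exact Finsupp.single_apply

theorem IndZ.finite_co (x : IndZ f L) : {i : ℤ | IndZ.co f L i x ≠ 0}.Finite :=
  Finsupp.hasFiniteSupport (x : ℤ →₀ L)

theorem IndZ.co_ext (x : IndZ f L) (h : ∀ i, IndZ.co f L i x = 0) : x = 0 :=
  Finsupp.ext (f := (x : ℤ →₀ L)) (g := 0) h

theorem IndZ.sh_injective : Function.Injective (IndZ.sh (K := K) f L) := by
  rw [injective_iff_map_eq_zero]
  intro x hx
  have h1 : ∀ (x : IndZ f L) (i : ℤ), IndZ.co f L (i + 1) (IndZ.sh (K := K) f L x) =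
      IndZ.co f L i x - IndZ.co f L (i + 1) x := by
    intro x i
    have h2 : (IndZ.co f L (i + 1)).comp (IndZ.sh (K := K) f L).toAddMonoidHom =
        IndZ.co f L i - IndZ.co f L (i + 1) := by
      refine IndZ.hom_ext f L fun j l => ?_
      rw [AddMonoidHom.comp_apply, AddMonoidHom.sub_apply]
      change IndZ.co f L (i + 1) (IndZ.sh (K := K) f L (IndZ.sg f L j l)) = _
      rw [IndZ.sh_sg, map_sub, IndZ.co_sg, IndZ.co_sg, IndZ.co_sg]
      simp only [add_left_inj]
    exact DFunLike.congr_fun h2 x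
  have h3 : ∀ i : ℤ, IndZ.co f L i x = IndZ.co f L (i + 1) x := by
    intro i
    have := h1 x i
    rw [hx, map_zero] at this
    exact (sub_eq_zero.mp this.symm)
  have h4 : ∀ i : ℤ, IndZ.co f L i x = IndZ.co f L 0 x := by
    intro i
    induction i using Int.induction_on with
    | zero => rfl
    | succ i ih => rw [← h3, ih]
    | pred i ih =>
      have := h3 (-(i : ℤ) - 1)
      rw [sub_add_cancel] at this
      rw [this, ih]
  refine IndZ.co_ext f L x fun i => ?_
  by_contra hne
  have h5 : {i : ℤ | IndZ.co f L i x ≠ 0} = Set.univ := by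
    refine Set.eq_univ_of_forall fun j => ?_
    change IndZ.co f L j x ≠ 0
    rw [h4 j, ← h4 i]
    exact hne
  have h6 := IndZ.finite_co f L x
  rw [h5] at h6
  exact Set.infinite_univ h6

theorem IndZ.range_sh : LinearMap.range (IndZ.sh (K := K) f L) =
    LinearMap.ker (IndZ.pi (K := K) f L) := by
  apply le_antisymm
  · rintro _ ⟨x, rfl⟩
    rw [LinearMap.mem_ker]
    have h2 : ((IndZ.pi (K := K) f L).toAddMonoidHom).comp (IndZ.sh (K := K) f L).toAddMonoidHom =
        0 := by
      refine IndZ.hom_ext f L fun j l => ?_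
      rw [AddMonoidHom.comp_apply]
      change IndZ.pi (K := K) f L (IndZ.sh (K := K) f L (IndZ.sg f L j l)) = _
      rw [IndZ.sh_sg, map_sub, IndZ.pi_sg, IndZ.pi_sg, sub_self]
      rfl
    exact DFunLike.congr_fun h2 x
  · intro x hx
    rw [LinearMap.mem_ker] at hx
    have h1 : ∀ (i : ℤ) (l : L), IndZ.sg f L i l - IndZ.sg f L 0 l ∈
        LinearMap.range (IndZ.sh (K := K) f L) := by
      intro i l
      induction i using Int.induction_on with
      | zero => rw [sub_self]; exact Submodule.zero_mem _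
      | succ i ih =>
        have h2 : IndZ.sg f L ((i : ℤ) + 1) l - IndZ.sg f L 0 l =
            (IndZ.sg f L ((i : ℤ) + 1) l - IndZ.sg f L i l) +
              (IndZ.sg f L i l - IndZ.sg f L 0 l) := by abel
        rw [h2]
        exact Submodule.add_mem _ ⟨_, IndZ.sh_sg f L i l⟩ ih
      | pred i ih =>
        have h2 : IndZ.sg f L (-(i : ℤ) - 1) l - IndZ.sg f L 0 l =
            (IndZ.sg f L (-(i : ℤ)) l - IndZ.sg f L 0 l) -
              (IndZ.sg f L (-(i : ℤ) - 1 + 1) l - IndZ.sg f L (-(i : ℤ) - 1) l) := by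
          rw [sub_add_cancel]
          abel
        rw [h2]
        exact Submodule.sub_mem _ ih ⟨_, IndZ.sh_sg f L _ l⟩
    have h3 : ∀ x : IndZ f L, x - IndZ.sg f L 0 (IndZ.pi (K := K) f L x) ∈
        LinearMap.range (IndZ.sh (K := K) f L) := by
      intro x
      refine IndZ.induction f L (p := fun x => x - IndZ.sg f L 0 (IndZ.pi (K := K) f L x) ∈
        LinearMap.range (IndZ.sh (K := K) f L)) ?_ ?_ ?_ x
      · rw [map_zero, map_zero, sub_zero]
        exact Submodule.zero_mem _
      · intro x y hx hy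
        rw [map_add, map_add, add_sub_add_comm]
        exact Submodule.add_mem _ hx hy
      · intro i l
        rw [IndZ.pi_sg]
        exact h1 i l
    have h5 := h3 x
    rwa [hx, map_zero, sub_zero] at h5

end Ind

section Tower

variable {K : Type u} [Field K] {Γ : Type u} [Group Γ] (H : Subgroup Γ)

theorem gld_smul {M : Type*} [AddCommGroup M] [Module (MonoidAlgebra K Γ) M]
    [Module (MonoidAlgebra K H) M] [IsScalarTower (MonoidAlgebra K H) (MonoidAlgebra K Γ) M]
    (r : MonoidAlgebra K H) (x : M) : r • x = resHom K H r • x := by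
  have h := smul_assoc r (1 : MonoidAlgebra K Γ) x
  rw [one_smul, sub_smul_def, mul_one] at h
  exact h.symm

theorem gld_resHom_single (h : H) (k : K) :
    resHom K H (MonoidAlgebra.single h k) = MonoidAlgebra.single (h : Γ) k := by
  unfold resHom
  exact MonoidAlgebra.mapDomain_single

/-- Restriction of a module structure. -/
theorem gld_tower (M : Type*) [AddCommGroup M] [Module (MonoidAlgebra K Γ) M] :
    letI : Module (MonoidAlgebra K H) M := Module.compHom M (resHom K H)
    IsScalarTower (MonoidAlgebra K H) (MonoidAlgebra K Γ) M := by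
  let : Module (MonoidAlgebra K H) M := Module.compHom M (resHom K H)
  refine ⟨fun r x y => ?_⟩
  rw [sub_smul_def, mul_smul]
  rfl

end Tower

section Proj

variable {K : Type u} [Field K] {N : Type u} [Group N] (f : N →* Multiplicative ℤ)
  (hf : Function.Surjective f) (L : Type u) [AddCommGroup L] [Module (MonoidAlgebra K N) L]
  [Module (MonoidAlgebra K f.ker) L] [IsScalarTower (MonoidAlgebra K f.ker) (MonoidAlgebra K N) L]

include hf in
theorem IndZ.projective (hL : Module.Projective (MonoidAlgebra K f.ker) L) :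
    Module.Projective (MonoidAlgebra K N) (IndZ f L) := by
  obtain ⟨t, ht⟩ := hf (Multiplicative.ofAdd 1)
  have hti : ∀ i : ℤ, (f (t ^ i)).toAdd = i := by
    intro i
    rw [map_zpow, ht, toAdd_zpow, toAdd_ofAdd, smul_eq_mul, mul_one]
  refine Module.Projective.of_lifting_property'' fun q hq => ?_
  let : Module (MonoidAlgebra K f.ker) (IndZ f L) := Module.compHom _ (resHom K f.ker)
  have : IsScalarTower (MonoidAlgebra K f.ker) (MonoidAlgebra K N) (IndZ f L) :=
    gld_tower f.ker (IndZ f L)
  let j : L →ₗ[MonoidAlgebra K f.ker] IndZ f L :=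
    { toFun := IndZ.sg f L 0
      map_add' := map_add _
      map_smul' := by
        intro r l
        refine gld_linear (IndZ.sg f L 0) (fun h k l => ?_) r l
        rw [gld_smul, gld_smul, gld_resHom_single, IndZ.single_smul]
        have : f (h : N) = 1 := h.2
        rw [this, toAdd_one, add_zero] }
  obtain ⟨ψ₀, hψ₀⟩ := Module.projective_lifting_property
    (q.restrictScalars (MonoidAlgebra K f.ker)) j hq
  have hqψ : ∀ l, q (ψ₀ l) = IndZ.sg f L 0 l := fun l => DFunLike.congr_fun hψ₀ l
  let T : ℤ → MonoidAlgebra K N := fun i => MonoidAlgebra.single (t ^ i) 1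
  let ψ : IndZ f L →+ (IndZ f L →₀ MonoidAlgebra K N) := IndZ.lift f L fun i =>
    (DistribSMul.toAddMonoidHom (IndZ f L →₀ MonoidAlgebra K N) (T i)).comp
      (ψ₀.toAddMonoidHom.comp (DistribSMul.toAddMonoidHom L (T (-i))))
  have hψsg : ∀ i l, ψ (IndZ.sg f L i l) = T i • ψ₀ (T (-i) • l) := fun i l =>
    IndZ.lift_sg f L _ i l
  have hψlin : ∀ (r : MonoidAlgebra K N) (x : IndZ f L), ψ (r • x) = r • ψ x := by
    refine IndZ.linear_of_sg f L ψ ?_
    intro n k i l
    rw [hψsg, hψsg]
    set m : ℤ := (f n).toAdd with hm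
    have hmem : t ^ (-(i + m)) * n * t ^ i ∈ f.ker := by
      rw [MonoidHom.mem_ker, map_mul, map_mul]
      apply Multiplicative.toAdd.injective
      rw [toAdd_mul, toAdd_mul, hti, hti, ← hm, toAdd_one]
      ring
    set h : f.ker := ⟨t ^ (-(i + m)) * n * t ^ i, hmem⟩ with hh
    have e1 : T (-(i + m)) • (MonoidAlgebra.single n k : MonoidAlgebra K N) • l =
        (MonoidAlgebra.single h k : MonoidAlgebra K f.ker) • (T (-i) • l) := by
      rw [gld_smul, gld_resHom_single, ← mul_smul, ← mul_smul, MonoidAlgebra.single_mul_single,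
        MonoidAlgebra.single_mul_single, one_mul, mul_one]
      congr 2
      change _ = t ^ (-(i + m)) * n * t ^ i * t ^ (-i)
      group
    have e2 : (MonoidAlgebra.single n k : MonoidAlgebra K N) * T i =
        T (i + m) * MonoidAlgebra.single (h : N) k := by
      rw [MonoidAlgebra.single_mul_single, MonoidAlgebra.single_mul_single, one_mul, mul_one]
      congr 1
      change _ = t ^ (i + m) * (t ^ (-(i + m)) * n * t ^ i)
      group
    rw [e1, map_smul, gld_smul, gld_resHom_single, ← mul_smul, ← mul_smul, e2]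
  refine ⟨{ toFun := ψ, map_add' := map_add ψ, map_smul' := hψlin }, ?_⟩
  have hcomp : q.toAddMonoidHom.comp ψ = AddMonoidHom.id _ := by
    refine IndZ.hom_ext f L fun i l => ?_
    change q (ψ (IndZ.sg f L i l)) = IndZ.sg f L i l
    rw [hψsg, map_smul, hqψ, IndZ.single_smul, hti, zero_add, ← mul_smul,
      MonoidAlgebra.single_mul_single, ← zpow_add, add_neg_cancel, zpow_zero, one_mul,
      ← MonoidAlgebra.one_def, one_smul]
  exact LinearMap.ext fun x => DFunLike.congr_fun hcomp x

include hf in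
theorem pdle_one_of_sub (hL : Module.Projective (MonoidAlgebra K f.ker) L) :
    PDLE (MonoidAlgebra K N) 1 L := by
  have hI := IndZ.projective f hf L hL
  refine ⟨IndZ f L, inferInstance, inferInstance, IndZ.pi f L, hI, ?_, ?_⟩
  · intro l
    exact ⟨IndZ.sg f L 0 l, IndZ.pi_sg f L 0 l⟩
  · exact Module.Projective.of_equiv' ((LinearEquiv.ofInjective _ (IndZ.sh_injective f L)).trans
      (LinearEquiv.ofEq _ _ (IndZ.range_sh f L)))

include hf in
theorem pdle_succ_of_sub (j : ℕ) : ∀ (M : Type u) [AddCommGroup M] [Module (MonoidAlgebra K N) M]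
    [Module (MonoidAlgebra K f.ker) M]
    [IsScalarTower (MonoidAlgebra K f.ker) (MonoidAlgebra K N) M],
    PDLE (MonoidAlgebra K f.ker) j M → PDLE (MonoidAlgebra K N) (j + 1) M := by
  induction j with
  | zero =>
    intro M _ _ _ _ h
    exact pdle_one_of_sub f hf M h
  | succ j ih =>
    intro M _ _ _ _ h
    let φ : (M →₀ MonoidAlgebra K N) →ₗ[MonoidAlgebra K N] M :=
      Finsupp.linearCombination (MonoidAlgebra K N) id
    have hφ : Function.Surjective φ :=
      Finsupp.linearCombination_surjective _ Function.surjective_id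
    have : Module.Free (MonoidAlgebra K f.ker) (MonoidAlgebra K N) := free_sub f.ker
    have hker := PDLE.ker h (inferInstance : Module.Projective (MonoidAlgebra K f.ker)
      (M →₀ MonoidAlgebra K N)) (φ.restrictScalars (MonoidAlgebra K f.ker)) hφ
    let e : LinearMap.ker (φ.restrictScalars (MonoidAlgebra K f.ker)) ≃ₗ[MonoidAlgebra K f.ker]
        LinearMap.ker φ :=
      { toFun := fun x => ⟨x.1, x.2⟩
        invFun := fun x => ⟨x.1, x.2⟩
        left_inv := fun _ => rfl
        right_inv := fun _ => rfl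
        map_add' := fun _ _ => rfl
        map_smul' := fun _ _ => rfl }
    have h1 : PDLE (MonoidAlgebra K N) (j + 1) (LinearMap.ker φ) := ih _ (PDLE.equiv e hker)
    exact ⟨_, inferInstance, inferInstance, φ, inferInstance, hφ, h1⟩

end Proj

theorem pdle_succ_of_ker_int {K : Type u} [Field K] {N : Type u} [Group N]
    (f : N →* Multiplicative ℤ) (hf : Function.Surjective f) (d : ℕ)
    (h : ∀ (M : Type u) [AddCommGroup M] [Module (MonoidAlgebra K f.ker) M],
      PDLE (MonoidAlgebra K f.ker) d M) (M : Type u) [AddCommGroup M]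
    [Module (MonoidAlgebra K N) M] : PDLE (MonoidAlgebra K N) (d + 1) M := by
  let : Module (MonoidAlgebra K f.ker) M := Module.compHom _ (resHom K f.ker)
  have : IsScalarTower (MonoidAlgebra K f.ker) (MonoidAlgebra K N) M := gld_tower f.ker M
  exact pdle_succ_of_sub f hf d M (h M)

theorem PolyZ.pdle (K : Type u) [Field K] {N : Type u} [Group N] (h : PolyZ N) :
    ∃ d, ∀ (M : Type u) [AddCommGroup M] [Module (MonoidAlgebra K N) M],
      PDLE (MonoidAlgebra K N) d M := by
  induction h with
  | triv N =>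
    refine ⟨0, fun M _ _ => ?_⟩
    let : Module K M := Module.compHom M (algebraMap K (MonoidAlgebra K N))
    let e : K ≃+* MonoidAlgebra K N :=
      { toFun := algebraMap K (MonoidAlgebra K N)
        invFun := fun r => r.coeff 1
        left_inv := fun k => by simp
        right_inv := fun r => by
          ext n
          rw [Subsingleton.elim n 1]
          simp
        map_mul' := map_mul _
        map_add' := map_add _ }
    let := RingHomInvPair.of_ringEquiv e
    let := RingHomInvPair.of_ringEquiv e.symm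
    let e₂ : M ≃ₛₗ[(e : K →+* MonoidAlgebra K N)] M :=
      { toFun := id
        invFun := id
        left_inv := fun _ => rfl
        right_inv := fun _ => rfl
        map_add' := fun _ _ => rfl
        map_smul' := fun _ _ => rfl }
    exact Module.Projective.of_equiv e₂
  | ext N f hf _ ih =>
    obtain ⟨d, hd⟩ := ih
    exact ⟨d + 1, fun M _ _ => pdle_succ_of_ker_int f hf d hd M⟩

end SPH
end

section

/-! # Hattori-Stallings traces over rings killed by a prime power (job P13) -/

namespace SPH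

universe u v

section HSOAux

variable {O : Type u} [CommRing O] {Γ : Type u} [Group Γ]

open scoped Classical in
/-- The class sum as an additive map. -/
private noncomputable def hsoC (g : Γ) : MonoidAlgebra O Γ →+ O :=
  (Finsupp.liftAddHom fun h : Γ => if IsConj g h then AddMonoidHom.id O else 0).comp
    (MonoidAlgebra.coeffAddEquiv (R := O) (M := Γ)).toAddMonoidHom

private theorem hsoC_apply (g : Γ) (x : MonoidAlgebra O Γ) : hsoC g x = classSum x g := by
  classical
  show (Finsupp.liftAddHom fun h : Γ => if IsConj g h then AddMonoidHom.id O else 0) x.coeff = _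
  rw [Finsupp.liftAddHom_apply, classSum]
  refine Finsupp.sum_congr fun h _ => ?_
  split_ifs <;> rfl

open scoped Classical in
private theorem hsoC_single (g h : Γ) (c : O) :
    hsoC g (MonoidAlgebra.single h c) = if IsConj g h then c else 0 := by
  rw [hsoC_apply, classSum, MonoidAlgebra.coeff_single, Finsupp.sum_single_index]
  split_ifs <;> rfl

private theorem hsoC_comm (g : Γ) (x y : MonoidAlgebra O Γ) :
    hsoC g (x * y) = hsoC g (y * x) := by
  classical
  induction x using MonoidAlgebra.induction_linear with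
  | zero => rw [zero_mul, mul_zero]
  | add a b ha hb => rw [add_mul, mul_add, map_add, map_add, ha, hb]
  | single h r =>
    induction y using MonoidAlgebra.induction_linear with
    | zero => rw [zero_mul, mul_zero]
    | add a b ha hb => rw [add_mul, mul_add, map_add, map_add, ha, hb]
    | single k s =>
      rw [MonoidAlgebra.single_mul_single, MonoidAlgebra.single_mul_single, hsoC_single,
        hsoC_single, mul_comm r s]
      have hc : IsConj (h * k) (k * h) := isConj_iff.2 ⟨k, by group⟩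
      by_cases h1 : IsConj g (h * k)
      · rw [if_pos h1, if_pos (h1.trans hc)]
      · rw [if_neg h1, if_neg (fun h2 => h1 (h2.trans hc.symm))]

variable {n : ℕ}

/-- The trace with values in the class sum at `g`. -/
private noncomputable def hsoT (g : Γ) : Matrix (Fin n) (Fin n) (MonoidAlgebra O Γ) →+ O :=
  (hsoC g).comp (Matrix.traceAddMonoidHom (Fin n) (MonoidAlgebra O Γ))

private theorem hsoT_apply (g : Γ) (a : Matrix (Fin n) (Fin n) (MonoidAlgebra O Γ)) :
    hsoT g a = hsoC g (Matrix.trace a) := rfl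

private theorem hsoT_comm (g : Γ) (a b : Matrix (Fin n) (Fin n) (MonoidAlgebra O Γ)) :
    hsoT g (a * b) = hsoT g (b * a) := by
  rw [hsoT_apply, hsoT_apply]
  simp only [Matrix.trace, Matrix.diag_apply, Matrix.mul_apply, map_sum]
  rw [Finset.sum_comm]
  refine Finset.sum_congr rfl fun i _ => Finset.sum_congr rfl fun j _ => ?_
  exact hsoC_comm g _ _

/-- Monomial matrices. -/
private def hsoMono (b : Matrix (Fin n) (Fin n) (MonoidAlgebra O Γ)) : Prop :=
  ∃ (r s : Fin n) (h : Γ) (c : O), b = Matrix.single r s (MonoidAlgebra.single h c)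

private theorem hsoMono_mul {a b : Matrix (Fin n) (Fin n) (MonoidAlgebra O Γ)}
    (ha : hsoMono a) (hb : hsoMono b) : hsoMono (a * b) := by
  obtain ⟨r, s, h, c, rfl⟩ := ha
  obtain ⟨r', s', h', c', rfl⟩ := hb
  by_cases hs : s = r'
  · subst hs
    refine ⟨r, s', h * h', c * c', ?_⟩
    rw [Matrix.single_mul_single_same, MonoidAlgebra.single_mul_single]
  · refine ⟨r, s', h, 0, ?_⟩
    rw [Matrix.single_mul_single_of_ne _ _ _ _ hs, MonoidAlgebra.single_zero]
    ext i j
    simp [Matrix.single]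

private theorem hsoT_mono (g : Γ) {b : Matrix (Fin n) (Fin n) (MonoidAlgebra O Γ)}
    (hb : hsoMono b) : ∃ h : Γ, ∀ q : ℕ, 2 ≤ q → hsoT g (b ^ q) ≠ 0 → IsConj g (h ^ q) := by
  classical
  obtain ⟨i, j, h, c, rfl⟩ := hb
  refine ⟨h, fun q hq hne => ?_⟩
  obtain ⟨k, rfl⟩ : ∃ k, q = k + 2 := ⟨q - 2, by omega⟩
  by_cases hij : i = j
  · subst hij
    have h1 : ∀ k : ℕ, Matrix.single i i (MonoidAlgebra.single h c) ^ (k + 1) =
        Matrix.single i i (MonoidAlgebra.single (h ^ (k + 1)) (c ^ (k + 1))) := by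
      intro k
      induction k with
      | zero => simp
      | succ k ih =>
        rw [pow_succ, ih, Matrix.single_mul_single_same, MonoidAlgebra.single_mul_single,
          ← pow_succ, ← pow_succ]
    rw [h1, hsoT_apply, Matrix.trace_single_eq_same, hsoC_single] at hne
    by_contra hcon
    exact hne (if_neg hcon)
  · have h0 : Matrix.single i j (MonoidAlgebra.single h c) ^ (k + 2) = 0 := by
      rw [pow_add, pow_two, Matrix.single_mul_single_of_ne _ _ _ _ (Ne.symm hij), mul_zero]
    rw [h0, map_zero] at hne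
    exact absurd rfl hne

private theorem hso_decomp (e : Matrix (Fin n) (Fin n) (MonoidAlgebra O Γ)) :
    ∃ (ι : Type u) (_ : Fintype ι) (a : ι → Matrix (Fin n) (Fin n) (MonoidAlgebra O Γ)),
      (∀ i, hsoMono (a i)) ∧ e = ∑ i, a i := by
  classical
  set S : Finset Γ := (Finset.univ : Finset (Fin n × Fin n)).biUnion
    fun ij => (e ij.1 ij.2).coeff.support with hS
  have hentry : ∀ i j, ∑ h ∈ S, MonoidAlgebra.single h ((e i j).coeff h) = e i j := by
    intro i j
    conv_rhs => rw [← MonoidAlgebra.sum_coeff_single (e i j)]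
    rw [Finsupp.sum]
    symm
    refine Finset.sum_subset ?_ ?_
    · intro h hh
      rw [hS, Finset.mem_biUnion]
      exact ⟨(i, j), Finset.mem_univ _, hh⟩
    · intro h _ hh
      rw [Finsupp.notMem_support_iff.1 hh, MonoidAlgebra.single_zero]
  have hdec : e = ∑ k ∈ ((Finset.univ : Finset (Fin n)) ×ˢ ((Finset.univ : Finset (Fin n)) ×ˢ S)),
      Matrix.single k.1 k.2.1 (MonoidAlgebra.single k.2.2 ((e k.1 k.2.1).coeff k.2.2)) := by
    conv_lhs => rw [Matrix.matrix_eq_sum_single e]
    rw [Finset.sum_product]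
    refine Finset.sum_congr rfl fun i _ => ?_
    rw [Finset.sum_product]
    refine Finset.sum_congr rfl fun j _ => ?_
    conv_lhs => rw [← hentry i j]
    exact map_sum (Matrix.singleAddMonoidHom i j) _ _
  refine ⟨((Finset.univ : Finset (Fin n)) ×ˢ ((Finset.univ : Finset (Fin n)) ×ˢ S) :
      Finset (Fin n × Fin n × Γ)), inferInstance,
    fun k => Matrix.single k.1.1 k.1.2.1
      (MonoidAlgebra.single k.1.2.2 ((e k.1.1 k.1.2.1).coeff k.1.2.2)),
    fun k => ⟨_, _, _, _, rfl⟩, ?_⟩
  conv_lhs => rw [hdec]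
  rw [← Finset.sum_coe_sort]

open scoped Classical in
private theorem hso_classSum_eq (x : MonoidAlgebra O Γ) (g : Γ) (S : Finset Γ)
    (hS : x.coeff.support ⊆ S) :
    classSum x g = ∑ h ∈ S, if IsConj g h then x.coeff h else 0 := by
  rw [classSum, Finsupp.sum_of_support_subset _ hS]
  intro h _
  split_ifs <;> rfl

private theorem hso_aug_apply (x : MonoidAlgebra O Γ) : aug O Γ x = x.coeff.sum fun _ a => a := by
  rw [aug]
  show (MonoidAlgebra.lift O O Γ (1 : Γ →* O)) x = _
  rw [MonoidAlgebra.lift_apply]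
  simp

end HSOAux

theorem classSum_eq_zero_of_pow {O : Type u} [CommRing O] (p j : ℕ) (hp : p.Prime)
    (hj : 1 ≤ j) (hO : (p : O) ^ j = 0) {Γ : Type u} [Group Γ] {n : ℕ}
    (e : Matrix (Fin n) (Fin n) (MonoidAlgebra O Γ)) (he : e * e = e) (g : Γ)
    (hg : ∀ (x : Γ) (s : ℕ), 2 ≤ s → x * g * x⁻¹ ≠ g ^ s) :
    classSum (Matrix.trace e) g = 0 := by
  classical
  by_contra hne
  obtain ⟨ι, _, a, ha, hea⟩ := hso_decomp e
  have hV : ∀ v : O, p ^ j • v = 0 := by
    intro v
    rw [nsmul_eq_mul, Nat.cast_pow, hO, zero_mul]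
  have hpow : ∀ k : ℕ, e ^ (k + 1) = e := by
    intro k
    induction k with
    | zero => rw [zero_add, pow_one]
    | succ k ih => rw [pow_succ, ih, he]
  have hTe : hsoT g e ≠ 0 := by
    rw [hsoT_apply, hsoC_apply]
    exact hne
  have hw : ∀ w : Fin (p ^ (j - 1)) → ι, hsoMono (List.ofFn fun k => a (w k)).prod := by
    intro w
    refine List.prod_induction_nonempty hsoMono (fun x y hx hy => hsoMono_mul hx hy) ?_ ?_
    · intro h
      have h1 := congrArg List.length h
      rw [List.length_ofFn, List.length_nil] at h1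
      exact (pow_ne_zero _ hp.ne_zero) h1
    · intro x hx
      rw [List.mem_ofFn] at hx
      obtain ⟨k, rfl⟩ := hx
      exact ha _
  choose H hH using fun w => hsoT_mono g (hw w)
  have key : ∀ M : ℕ, ∃ w : Fin (p ^ (j - 1)) → ι, IsConj g (H w ^ p ^ (M + 1)) := by
    intro M
    have h1 := trace_pow_prime_pow_mem p hp j hj hV (hsoT g) (hsoT_comm g) a (M + j)
      (by omega)
    rw [← hea] at h1
    have h2 : e ^ p ^ (M + j) = e := by
      obtain ⟨k, hk⟩ : ∃ k, p ^ (M + j) = k + 1 :=
        ⟨p ^ (M + j) - 1, by have := Nat.pow_pos (n := M + j) hp.pos; omega⟩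
      rw [hk, hpow]
    rw [h2, show M + j + 1 - j = M + 1 by omega] at h1
    by_contra hcon
    push Not at hcon
    apply hTe
    have h3 : AddSubgroup.closure {v | ∃ w : Fin (p ^ (j - 1)) → ι,
        v = hsoT g ((List.ofFn fun k => a (w k)).prod ^ p ^ (M + 1))} ≤ ⊥ := by
      rw [AddSubgroup.closure_le]
      rintro v ⟨w, rfl⟩
      by_contra hv
      refine hcon w (hH w _ ?_ ?_)
      · calc 2 ≤ p := hp.two_le
          _ = p ^ 1 := (pow_one p).symm
          _ ≤ p ^ (M + 1) := Nat.pow_le_pow_right hp.pos (by omega)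
      · intro h0
        exact hv (by rw [h0]; exact AddSubgroup.zero_mem _)
    exact (AddSubgroup.mem_bot).1 (h3 h1)
  choose W hW using key
  obtain ⟨M, M', hlt, heq⟩ : ∃ M M' : ℕ, M < M' ∧ W M = W M' := by
    obtain ⟨i, i', hne, heq⟩ := Finite.exists_ne_map_eq_of_infinite W
    rcases lt_or_gt_of_ne hne with h | h
    · exact ⟨i, i', h, heq⟩
    · exact ⟨i', i, h, heq.symm⟩
  obtain ⟨y, hy⟩ := isConj_iff.1 (hW M)
  obtain ⟨z, hz⟩ := isConj_iff.1 (hW M')
  have h1 : z * g * z⁻¹ = y * g ^ p ^ (M' - M) * y⁻¹ := by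
    rw [hz, ← conj_pow, hy, heq, ← pow_mul, ← pow_add]
    congr 2
    omega
  refine hg (y⁻¹ * z) (p ^ (M' - M)) ?_ ?_
  · calc 2 ≤ p := hp.two_le
      _ = p ^ 1 := (pow_one p).symm
      _ ≤ p ^ (M' - M) := Nat.pow_le_pow_right hp.pos (by omega)
  · calc y⁻¹ * z * g * (y⁻¹ * z)⁻¹ = y⁻¹ * (z * g * z⁻¹) * y := by group
      _ = y⁻¹ * (y * g ^ p ^ (M' - M) * y⁻¹) * y := by rw [h1]
      _ = g ^ p ^ (M' - M) := by group

theorem subSum_eq_aug_of_pow {O : Type u} [CommRing O] (p j : ℕ) (hp : p.Prime)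
    (hj : 1 ≤ j) (hO : (p : O) ^ j = 0) {Γ : Type u} [Group Γ]
    (N : Subgroup Γ) [N.Normal] {n : ℕ} (e : Matrix (Fin n) (Fin n) (MonoidAlgebra O Γ))
    (he : e * e = e)
    (hg : ∀ g : Γ, g ∉ N → ∀ (x : Γ) (s : ℕ), 2 ≤ s → x * g * x⁻¹ ≠ g ^ s) :
    subSum N (Matrix.trace e) = aug O Γ (Matrix.trace e) := by
  classical
  set t := Matrix.trace e with ht
  rw [hso_aug_apply, subSum, Finsupp.sum, Finsupp.sum]
  set S := t.coeff.support with hS
  have key : ∑ h ∈ S.filter (fun h => h ∉ N), t.coeff h = 0 := by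
    rw [← Finset.sum_fiberwise_of_maps_to (s := S.filter (fun h => h ∉ N))
      (t := (S.filter (fun h => h ∉ N)).image ConjClasses.mk) (g := ConjClasses.mk)
      (fun h hh => Finset.mem_image_of_mem _ hh)]
    refine Finset.sum_eq_zero fun c hc => ?_
    obtain ⟨g, hgS, rfl⟩ := Finset.mem_image.1 hc
    have hgN : g ∉ N := (Finset.mem_filter.1 hgS).2
    have h1 := classSum_eq_zero_of_pow p j hp hj hO e he g (hg g hgN)
    rw [hso_classSum_eq _ g S subset_rfl, ← Finset.sum_filter] at h1
    rw [← h1]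
    refine Finset.sum_congr ?_ fun _ _ => rfl
    ext h
    simp only [Finset.mem_filter, ConjClasses.mk_eq_mk_iff_isConj]
    constructor
    · rintro ⟨⟨h2, -⟩, h3⟩
      exact ⟨h2, h3.symm⟩
    · rintro ⟨h2, h3⟩
      refine ⟨⟨h2, fun h4 => hgN ?_⟩, h3.symm⟩
      obtain ⟨y, hy⟩ := isConj_iff.1 h3.symm
      rw [← hy]
      exact Subgroup.Normal.conj_mem inferInstance h h4 y
  have h2 := Finset.sum_filter_add_sum_filter_not S (fun h => h ∈ N) (fun h => t.coeff h)
  rw [key, add_zero, Finset.sum_filter] at h2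
  exact h2

end SPH
end

section

/-! # Garside element and faithfulness on the group (job K6) -/

namespace SPH

open scoped Classical
open Polynomial

universe u

set_option linter.unusedSectionVars false

variable {S : Type u} [Fintype S] [DecidableEq S] {G : SimpleGraph S} [Fintype (PRoot G)]

private theorem ga_wd_append (l l' : List S) : wd G (l ++ l') = wd G l * wd G l' := by
  simp [wd, List.map_append, List.prod_append]

private theorem ga_wd_cons (s : S) (l : List S) : wd G (s :: l) = gen G s * wd G l := by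
  simp [wd]

private theorem ga_wd_single (s : S) : wd G [s] = gen G s := by
  simp [wd]

private theorem ga_sum (v : S → ℤ) : v = ∑ s, v s • sr s := by
  ext t
  simp [sr, Pi.single_apply]

private theorem ga_neg_all (g : AGrp G) (h : ∀ s, IsPos G (-(toW G g (sr s)))) {γ : S → ℤ}
    (hγ : IsPos G γ) : IsPos G (-(toW G g γ)) := by
  refine ⟨isRoot_neg G (isRoot_toW G g hγ.1), fun x => ?_⟩
  have h1 : toW G g γ = ∑ s, γ s • toW G g (sr s) := by
    conv_lhs => rw [ga_sum γ]
    rw [map_sum]
    exact Finset.sum_congr rfl fun s _ => map_zsmul _ _ _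
  rw [h1, ← Finset.sum_neg_distrib, Finset.sum_apply]
  refine Finset.sum_nonneg fun s _ => ?_
  have h2 := (h s).2 x
  have h3 := hγ.2 s
  simp only [Pi.neg_apply, Pi.smul_apply, smul_eq_mul] at h2 ⊢
  nlinarith

private theorem ga_lenN_congr {g g' : AGrp G} (h : toW G g = toW G g') :
    lenN G g = lenN G g' := by
  have h' : toW G g⁻¹ = toW G g'⁻¹ := by rw [map_inv, map_inv, h]
  unfold lenN
  rw [h']

private theorem ga_inv_apply (g : AGrp G) (v : S → ℤ) : toW G g⁻¹ (toW G g v) = v := by
  rw [map_inv]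
  exact (toW G g).symm_apply_apply v

private theorem ga_apply_inv (g : AGrp G) (v : S → ℤ) : toW G g (toW G g⁻¹ v) = v := by
  rw [map_inv]
  exact (toW G g).apply_symm_apply v

private theorem ga_mul (g g' : AGrp G) (v : S → ℤ) : toW G (g * g') v = toW G g (toW G g' v) := by
  rw [map_mul]
  rfl

private theorem ga_gen (s : S) (v : S → ℤ) : toW G (gen G s) v = rf G s v := by
  rw [toW_gen]
  rfl

private theorem ga_gen_inv (s : S) (v : S → ℤ) : toW G (gen G s)⁻¹ v = rf G s v := by
  have h1 := ga_inv_apply (G := G) (gen G s) (rf G s v)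
  rw [ga_gen, rf_rf] at h1
  exact h1

private theorem ga_core (hG : PosDef G) (D : TData G) : ∃ Δ : List S,
    lenN G (wd G Δ) = Δ.length ∧ (∀ s, IsPos G (-(toW G (wd G Δ)⁻¹ (sr s)))) ∧
    (∀ s, ∃ u : List S, u.length + 1 = Δ.length ∧ wd G Δ = gen G s * wd G u) ∧
    ∀ s, ∃ t, sr t = -(toW G (wd G Δ) (sr s)) ∧ wd G Δ * gen G s = gen G t * wd G Δ := by
  -- a reduced word of maximal length
  obtain ⟨Δ, hΔ, hmax⟩ : ∃ Δ : List S, lenN G (wd G Δ) = Δ.length ∧
      ∀ l : List S, lenN G (wd G l) = l.length → l.length ≤ Δ.length := by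
    set P : ℕ → Prop := fun k => ∃ l : List S, l.length = k ∧ lenN G (wd G l) = l.length with hP
    have h0 : P 0 := ⟨[], rfl, by
      have := lenN_wd_le hG ([] : List S)
      simpa using this⟩
    have hspec : P (Nat.findGreatest P (Fintype.card (PRoot G))) :=
      Nat.findGreatest_spec (Nat.zero_le _) h0
    obtain ⟨Δ, h1, h2⟩ := hspec
    refine ⟨Δ, h2, fun l hl => ?_⟩
    rw [h1]
    refine Nat.le_findGreatest ?_ ⟨l, rfl, hl⟩
    rw [← hl]
    exact lenN_le_card hG _
  have hneg : ∀ s, IsPos G (-(toW G (wd G Δ)⁻¹ (sr s))) := by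
    intro s
    rcases IsRoot.pos_or_neg hG (isRoot_toW G (wd G Δ)⁻¹ (isRoot_sr G s)) with h | h
    · exfalso
      have h1 := lenN_gen_mul_of_pos hG s (wd G Δ) h
      rw [← ga_wd_cons, hΔ] at h1
      have h2 := hmax (s :: Δ) (by rw [h1]; rfl)
      simp at h2
    · exact h
  have hdiv : ∀ s, ∃ u : List S, u.length + 1 = Δ.length ∧ wd G Δ = gen G s * wd G u := by
    intro s
    exact exists_left_div hG D Δ s ((vv_eq_zero_iff hG D Δ hΔ ⟨sr s, isPos_sr G s⟩).2 (hneg s))
  refine ⟨Δ, hΔ, hneg, hdiv, fun s => ?_⟩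
  -- all positive roots are made negative by the inverse
  have hall : ∀ γ : S → ℤ, IsPos G γ → IsPos G (-(toW G (wd G Δ)⁻¹ γ)) := fun γ hγ =>
    ga_neg_all _ hneg hγ
  -- and by the element itself
  have hall' : ∀ γ : S → ℤ, IsPos G γ → IsPos G (-(toW G (wd G Δ) γ)) := by
    intro γ hγ
    set σ : PRoot G → PRoot G := fun β => ⟨-(toW G (wd G Δ)⁻¹ β.1), hall β.1 β.2⟩ with hσ
    have hinj : Function.Injective σ := by
      intro β β' h
      have h1 := congrArg Subtype.val h
      simp only [hσ, neg_inj] at h1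
      exact Subtype.ext ((toW G (wd G Δ)⁻¹).injective h1)
    obtain ⟨β, hβ⟩ := (Finite.injective_iff_surjective.1 hinj) ⟨γ, hγ⟩
    have h1 : -(toW G (wd G Δ)⁻¹ β.1) = γ := congrArg Subtype.val hβ
    have h2 : -(toW G (wd G Δ) γ) = β.1 := by
      rw [← h1, map_neg, neg_neg, ga_apply_inv]
    rw [h2]
    exact β.2
  -- the root `-w₀ (sr s)` is simple
  obtain ⟨t, ht⟩ : ∃ t, sr t = -(toW G (wd G Δ) (sr s)) := by
    by_contra hcon
    push Not at hcon
    have h1 : ∀ t, IsPos G (-(toW G (wd G Δ * gen G s)⁻¹ (sr t))) := by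
      intro t
      rw [mul_inv_rev, ga_mul, ga_gen_inv, ← rf_neg]
      refine IsPos.rf hG (hneg t) fun h2 => hcon t ?_
      rw [← h2, map_neg, neg_neg, ga_apply_inv]
    have h3 := ga_neg_all _ h1 (hall' (sr s) (isPos_sr G s))
    rw [mul_inv_rev, ga_mul, ga_gen_inv, map_neg, ga_inv_apply, rf_neg, rf_sr, neg_neg] at h3
    exact IsPos.not_neg (isPos_sr G s) h3
  refine ⟨t, ht, ?_⟩
  have hconj : ∀ v, rf G t (toW G (wd G Δ) v) = toW G (wd G Δ) (rf G s v) := by
    intro v
    have h1 : pr G t (toW G (wd G Δ) v) = - pr G s v := by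
      rw [← bil_sr_left, ht, bil_neg_left, bil_toW, bil_sr_left]
    rw [rf, h1, ht, rf, map_sub, map_zsmul]
    simp
  obtain ⟨u, hu1, hu2⟩ := hdiv t
  have htoW : toW G (wd G (u ++ [s])) = toW G (wd G Δ) := by
    ext1 v
    rw [ga_wd_append, ga_wd_single, ga_mul, ga_gen]
    have h1 : ∀ v, toW G (wd G u) v = rf G t (toW G (wd G Δ) v) := by
      intro v
      rw [hu2, ga_mul, ga_gen, rf_rf]
    rw [h1, ← hconj, rf_rf]
  have hlen : (u ++ [s]).length = Δ.length := by simpa using hu1
  have heq : wd G (u ++ [s]) = wd G Δ := by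
    refine wd_eq_of_reduced hG D _ _ ?_ hΔ htoW
    rw [ga_lenN_congr htoW, hΔ, hlen]
  rw [ga_wd_append, ga_wd_single] at heq
  calc wd G Δ * gen G s = gen G t * wd G u * gen G s := by rw [← hu2]
    _ = gen G t * (wd G u * gen G s) := mul_assoc _ _ _
    _ = gen G t * wd G Δ := by rw [heq]

theorem exists_delta (hG : PosDef G) (D : TData G) : ∃ Δ : List S,
    lenN G (wd G Δ) = Δ.length ∧ (∀ s, IsPos G (-(toW G (wd G Δ)⁻¹ (sr s)))) ∧
    (∀ s, ∃ u : List S, wd G Δ = gen G s * wd G u) ∧
    ∀ s, ∃ t, wd G Δ * gen G s = gen G t * wd G Δ := by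
  obtain ⟨Δ, h1, h2, h3, h4⟩ := ga_core hG D
  refine ⟨Δ, h1, h2, fun s => ?_, fun s => ?_⟩
  · obtain ⟨u, _, hu⟩ := h3 s
    exact ⟨u, hu⟩
  · obtain ⟨t, _, ht⟩ := h4 s
    exact ⟨t, ht⟩

theorem exists_fraction (hG : PosDef G) (D : TData G) : ∃ Δ : List S, ∀ g : AGrp G,
    ∃ (l : List S) (k : ℕ), g * wd G Δ ^ k = wd G l := by
  obtain ⟨Δ, h1, h2, h3, h4⟩ := ga_core hG D
  -- moving `Δ` to the left
  have h5 : ∀ t, ∃ s, gen G t * wd G Δ = wd G Δ * gen G s := by
    choose τ hτ1 hτ2 using h4
    have hinj : Function.Injective τ := by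
      intro s s' h
      have h6 : toW G (wd G Δ) (sr s) = toW G (wd G Δ) (sr s') := by
        have h7 := hτ1 s
        rw [h, hτ1 s', neg_inj] at h7
        exact h7.symm
      have h8 : (sr s : S → ℤ) = sr s' := (toW G (wd G Δ)).injective h6
      by_contra hne
      have h9 := congrFun h8 s
      simp [sr, hne] at h9
    intro t
    obtain ⟨s, rfl⟩ := (Finite.injective_iff_surjective.1 hinj) t
    exact ⟨s, (hτ2 s).symm⟩
  have h6 : ∀ l : List S, ∃ l' : List S, wd G l * wd G Δ = wd G Δ * wd G l' := by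
    intro l
    induction l with
    | nil => exact ⟨[], by simp [wd]⟩
    | cons t l ih =>
      obtain ⟨l', hl'⟩ := ih
      obtain ⟨s, hs⟩ := h5 t
      refine ⟨s :: l', ?_⟩
      rw [ga_wd_cons, ga_wd_cons, mul_assoc, hl', ← mul_assoc, hs, mul_assoc]
  refine ⟨Δ, fun g => ?_⟩
  have hg : g ∈ Subgroup.closure (Set.range (PresentedGroup.of (rels := artinRel G))) := by
    rw [PresentedGroup.closure_range_of]
    trivial
  induction hg using Subgroup.closure_induction_left with
  | one => exact ⟨[], 0, by simp [wd]⟩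
  | mul_left x hx y _ ih =>
    obtain ⟨s, rfl⟩ := hx
    obtain ⟨l, k, hl⟩ := ih
    refine ⟨s :: l, k, ?_⟩
    rw [ga_wd_cons, ← hl, ← mul_assoc]
    rfl
  | inv_mul_cancel x hx y _ ih =>
    obtain ⟨s, rfl⟩ := hx
    obtain ⟨l, k, hl⟩ := ih
    obtain ⟨l', hl'⟩ := h6 l
    obtain ⟨u, _, hu⟩ := h3 s
    refine ⟨u ++ l', k + 1, ?_⟩
    have h7 : PresentedGroup.of (rels := artinRel G) s = gen G s := rfl
    rw [h7, ga_wd_append, pow_succ, ← mul_assoc, mul_assoc (gen G s)⁻¹ y, hl, mul_assoc, hl', hu,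
      mul_assoc, inv_mul_cancel_left]

private theorem ga_pow (Δ : List S) (k : ℕ) : ∃ l : List S, wd G Δ ^ k = wd G l := by
  induction k with
  | zero => exact ⟨[], by simp [wd]⟩
  | succ k ih =>
    obtain ⟨l, hl⟩ := ih
    exact ⟨l ++ Δ, by rw [pow_succ, hl, ga_wd_append]⟩

theorem lkRep_injective (hG : PosDef G) (D : TData G) :
    Function.Injective (lkRep hG D xU tU : AGrp G →* _) := by
  rw [injective_iff_map_eq_one]
  intro g hg
  obtain ⟨Δ, hΔ⟩ := exists_fraction hG D
  obtain ⟨l, k, hl⟩ := hΔ g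
  obtain ⟨l', hl'⟩ := ga_pow (G := G) Δ k
  have h1 : lkRep hG D xU tU (wd G l) = lkRep hG D xU tU (wd G l') := by
    rw [← hl, map_mul, hg, one_mul, hl']
  have h2 := wd_eq_of_lkRep_eq hG D l l' h1
  rw [← hl, ← hl'] at h2
  exact mul_eq_right.1 h2

end SPH
end
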