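import Pool.Agent.Lib.MP_7b9603_al.Weyl

/-! # Projectivity of signed permutation modules with coefficients (job P3) -/

namespace SPH

universe u

/-- The restriction of a `K[Γ]`-module to a subgroup `H` (a copy of the type `M`). -/
def Rs (_K : Type u) {Γ : Type u} [Group Γ] (_H : Subgroup Γ) (M : Type u) : Type u := M

section
variable (K : Type u) [Field K] {Γ : Type u} [Group Γ] (H : Subgroup Γ) (M : Type u)
  [AddCommGroup M] [Module (MonoidAlgebra K Γ) M]

instance : AddCommGroup (Rs K H M) := inferInstanceAs (AddCommGroup M)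

noncomputable instance Rs.module : Module (MonoidAlgebra K H) (Rs K H M) :=
  Module.compHom M (resHom K H)

/-- The identity `M → Rs K H M`. -/
def Rs.of : M ≃+ Rs K H M := AddEquiv.refl M

theorem Rs.smul_of (r : MonoidAlgebra K H) (m : M) :
    r • Rs.of K H M m = Rs.of K H M (resHom K H r • m) := rfl
end

section IndProjAux

variable {Γ : Type u} [Group Γ] (D : SData Γ) (K : Type u) [Field K]

/-- sign as an element of `K` -/
private def ipSign (K : Type u) [Field K] (e : ℤˣ) : K := ((e : ℤ) : K)

private theorem ipSign_mul (e e' : ℤˣ) : ipSign K (e * e') = ipSign K e * ipSign K e' := by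
  unfold ipSign
  push_cast
  ring

private theorem ipSign_smul {N : Type u} [AddCommGroup N] [Module (MonoidAlgebra K Γ) N]
    (γ : Γ) (a : K) (e : ℤˣ) (y : N) :
    (MonoidAlgebra.single γ (a * ipSign K e) : MonoidAlgebra K Γ) • y =
      e • ((MonoidAlgebra.single γ a : MonoidAlgebra K Γ) • y) := by
  rcases Int.units_eq_one_or e with rfl | rfl
  · simp [ipSign]
  · simp [ipSign, Units.smul_def, MonoidAlgebra.single_neg]

/-- the twisted inclusion `K[stab x] → K[Γ]` -/
private noncomputable def ipTau (x : D.X) : MonoidAlgebra K (D.stab x) →+* MonoidAlgebra K Γ :=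
  (MonoidAlgebra.lift K (MonoidAlgebra K Γ) (D.stab x)
    { toFun := fun h => MonoidAlgebra.single (h : Γ) (ipSign K (D.ε (h : Γ) x))
      map_one' := by
        show MonoidAlgebra.single ((1 : D.stab x) : Γ) (ipSign K (D.ε ((1 : D.stab x) : Γ) x)) = 1
        rw [OneMemClass.coe_one, D.ε_one]
        simp [ipSign, MonoidAlgebra.one_def]
      map_mul' := by
        intro h h'
        show MonoidAlgebra.single ((h * h' : D.stab x) : Γ)
          (ipSign K (D.ε ((h * h' : D.stab x) : Γ) x)) = _
        have h1 : (h' : Γ) • x = x := h'.2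
        rw [MonoidAlgebra.single_mul_single, ← ipSign_mul, Subgroup.coe_mul, D.mul, h1] } :
    MonoidAlgebra K (D.stab x) →ₐ[K] MonoidAlgebra K Γ)

private theorem ipTau_single (x : D.X) (h : D.stab x) (a : K) :
    ipTau D K x (MonoidAlgebra.single h a) =
      MonoidAlgebra.single (h : Γ) (a * ipSign K (D.ε (h : Γ) x)) := by
  unfold ipTau
  show (MonoidAlgebra.lift K (MonoidAlgebra K Γ) (D.stab x) _) (MonoidAlgebra.single h a) = _
  rw [MonoidAlgebra.lift_single]
  simp

/-- twisted restriction -/
private def IpTw (_D : SData Γ) (_K : Type u) (_x : _D.X) (N : Type u) : Type u := N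

variable (N : Type u) [AddCommGroup N] [Module (MonoidAlgebra K Γ) N]

private instance (x : D.X) : AddCommGroup (IpTw D K x N) := inferInstanceAs (AddCommGroup N)

private noncomputable instance (x : D.X) : Module (MonoidAlgebra K (D.stab x)) (IpTw D K x N) :=
  Module.compHom N (ipTau D K x)

private def ipOf (x : D.X) : N ≃+ IpTw D K x N := AddEquiv.refl N

private theorem ipOf_smul (x : D.X) (r : MonoidAlgebra K (D.stab x)) (y : N) :
    r • ipOf D K N x y = ipOf D K N x (ipTau D K x r • y) := rfl

private theorem ip_local (M : Type u) [AddCommGroup M] [Module (MonoidAlgebra K Γ) M]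
    (x : D.X) (hx : Module.Projective (MonoidAlgebra K (D.stab x)) (Rs K (D.stab x) M))
    (f : N →ₗ[MonoidAlgebra K Γ] SData.Ind D M) (hf : Function.Surjective f) :
    ∃ l : M →+ N, (∀ m, f (l m) = SData.sg D M x m) ∧
      ∀ (h : Γ) (_ : h • x = x) (a : K) (m : M),
        l ((MonoidAlgebra.single h a : MonoidAlgebra K Γ) • m) =
          D.ε h x • ((MonoidAlgebra.single h a : MonoidAlgebra K Γ) • l m) := by
  let f' : IpTw D K x N →ₗ[MonoidAlgebra K (D.stab x)] IpTw D K x (SData.Ind D M) :=
    { toFun := fun y => ipOf D K (SData.Ind D M) x (f ((ipOf D K N x).symm y))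
      map_add' := by intro y z; simp
      map_smul' := by
        intro r y
        obtain ⟨y, rfl⟩ := (ipOf D K N x).surjective y
        rw [ipOf_smul, AddEquiv.symm_apply_apply, AddEquiv.symm_apply_apply, map_smul,
          RingHom.id_apply, ipOf_smul] }
  have hf' : Function.Surjective f' := by
    intro z
    obtain ⟨z, rfl⟩ := (ipOf D K (SData.Ind D M) x).surjective z
    obtain ⟨y, rfl⟩ := hf z
    exact ⟨ipOf D K N x y, rfl⟩
  let g : Rs K (D.stab x) M →ₗ[MonoidAlgebra K (D.stab x)] IpTw D K x (SData.Ind D M) :=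
    { toFun := fun m => ipOf D K (SData.Ind D M) x (SData.sg D M x ((Rs.of K (D.stab x) M).symm m))
      map_add' := by intro y z; simp
      map_smul' := by
        intro r m
        obtain ⟨m, rfl⟩ := (Rs.of K (D.stab x) M).surjective m
        rw [Rs.smul_of, AddEquiv.symm_apply_apply, AddEquiv.symm_apply_apply,
          RingHom.id_apply, ipOf_smul]
        congr 1
        induction r using MonoidAlgebra.induction_linear with
        | zero => rw [map_zero, zero_smul, map_zero, map_zero, zero_smul]
        | add r s hr hs => rw [map_add, add_smul, map_add, hr, hs, map_add, add_smul]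
        | single h a =>
          rw [resHom_single, ipTau_single, ipSign_smul, SData.single_smul_sg]
          have h1 : (h : Γ) • x = x := h.2
          rw [h1]
          rcases Int.units_eq_one_or (D.ε (h : Γ) x) with h2 | h2
          · rw [h2, one_smul, one_smul]
          · rw [h2]; simp [Units.smul_def] }
  obtain ⟨l, hl⟩ := Module.projective_lifting_property f' g hf'
  refine ⟨(ipOf D K N x).symm.toAddMonoidHom.comp
    (l.toAddMonoidHom.comp (Rs.of K (D.stab x) M).toAddMonoidHom), ?_, ?_⟩
  · intro m
    exact congrArg (fun t => (ipOf D K (SData.Ind D M) x).symm (t (Rs.of K (D.stab x) M m))) hl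
  · intro h hh a m
    have h1 := l.map_smul (MonoidAlgebra.single (⟨h, hh⟩ : D.stab x) a) (Rs.of K (D.stab x) M m)
    rw [Rs.smul_of, resHom_single] at h1
    show (ipOf D K N x).symm (l (Rs.of K (D.stab x) M
      ((MonoidAlgebra.single h a : MonoidAlgebra K Γ) • m))) = _
    rw [h1]
    show (ipTau D K x (MonoidAlgebra.single (⟨h, hh⟩ : D.stab x) a)) •
      ((ipOf D K N x).symm (l (Rs.of K (D.stab x) M m))) = _
    rw [ipTau_single, ipSign_smul]
    rfl

private theorem ip_units : ∀ a b c d : ℤˣ, b * c = a * d → a * b = d * c := by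
  decide

end IndProjAux

/-- If `M` is projective over all the stabilisers, then `D.Ind M` is projective. -/
theorem SData.projective {Γ : Type u} [Group Γ] (D : SData Γ) (K : Type u) [Field K]
    (M : Type u) [AddCommGroup M] [Module (MonoidAlgebra K Γ) M]
    (h : ∀ x : D.X, Module.Projective (MonoidAlgebra K (D.stab x)) (Rs K (D.stab x) M)) :
    Module.Projective (MonoidAlgebra K Γ) (SData.Ind D M) := by
  classical
  refine Module.Projective.of_lifting_property'' ?_
  intro f hf
  choose l hl1 hl2 using fun x => ip_local D K (SData.Ind D M →₀ MonoidAlgebra K Γ) M x (h x) f hf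
  -- representatives
  let rep : D.X → D.X := fun x => Quotient.out (Quotient.mk (MulAction.orbitRel Γ D.X) x)
  have hrep : ∀ x, ∃ γ : Γ, γ • rep x = x := by
    intro x
    have h1 : (MulAction.orbitRel Γ D.X) (rep x) x := Quotient.mk_out x
    have h2 : (MulAction.orbitRel Γ D.X) x (rep x) := (MulAction.orbitRel Γ D.X).symm h1
    rw [MulAction.orbitRel_apply] at h2
    exact h2
  have hrep2 : ∀ (γ : Γ) x, rep (γ • x) = rep x := by
    intro γ x
    show Quotient.out _ = Quotient.out _
    congr 1
    apply Quotient.sound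
    show (MulAction.orbitRel Γ D.X) _ _
    rw [MulAction.orbitRel_apply]
    exact ⟨γ, rfl⟩
  choose g hg using hrep
  let sm : Γ → K → M →+ M := fun γ a =>
    DistribSMul.toAddMonoidHom M (MonoidAlgebra.single γ a : MonoidAlgebra K Γ)
  let s : SData.Ind D M →+ (SData.Ind D M →₀ MonoidAlgebra K Γ) :=
    SData.liftAdd D M fun x =>
      (DistribSMul.toAddMonoidHom (SData.Ind D M →₀ MonoidAlgebra K Γ)
        (MonoidAlgebra.single (g x) (1 : K) : MonoidAlgebra K Γ)).comp
      ((l (rep x)).comp ((DistribSMul.toAddMonoidHom M (D.ε (g x) (rep x))).comp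
        (sm (g x)⁻¹ 1)))
  have hs : ∀ x m, s (SData.sg D M x m) =
      (MonoidAlgebra.single (g x) (1 : K) : MonoidAlgebra K Γ) •
        l (rep x) (D.ε (g x) (rep x) •
          ((MonoidAlgebra.single (g x)⁻¹ (1 : K) : MonoidAlgebra K Γ) • m)) := by
    intro x m
    exact SData.liftAdd_sg D M _ x m
  have hss : ∀ (γ γ' : Γ) (a b : K) {N : Type u} [AddCommGroup N] [Module (MonoidAlgebra K Γ) N]
      (y : N), (MonoidAlgebra.single γ a : MonoidAlgebra K Γ) •
        ((MonoidAlgebra.single γ' b : MonoidAlgebra K Γ) • y) =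
        (MonoidAlgebra.single (γ * γ') (a * b) : MonoidAlgebra K Γ) • y := by
    intro γ γ' a b N _ _ y
    rw [smul_smul, MonoidAlgebra.single_mul_single]
  have hlin1 : ∀ (γ : Γ) (a : K) (x : D.X) (m : M),
      s ((MonoidAlgebra.single γ a : MonoidAlgebra K Γ) • SData.sg D M x m) =
        (MonoidAlgebra.single γ a : MonoidAlgebra K Γ) • s (SData.sg D M x m) := by
    intro γ a x m
    rw [SData.single_smul_sg, hs, hs, hrep2]
    have hk : ((g (γ • x))⁻¹ * γ * g x) • rep x = rep x := by
      rw [mul_smul, mul_smul, hg, inv_smul_eq_iff]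
      have := hg (γ • x)
      rw [hrep2] at this
      exact this.symm
    have h3 := hl2 (rep x) ((g (γ • x))⁻¹ * γ * g x) hk a (D.ε (g x) (rep x) •
          ((MonoidAlgebra.single (g x)⁻¹ (1 : K) : MonoidAlgebra K Γ) • m))
    have e1 : D.ε (γ * g x) (rep x) = D.ε γ x * D.ε (g x) (rep x) := by
      rw [D.mul, hg]
    have e2 : D.ε (γ * g x) (rep x) = D.ε (g (γ • x)) (rep x) *
        D.ε ((g (γ • x))⁻¹ * γ * g x) (rep x) := by
      have : γ * g x = g (γ • x) * ((g (γ • x))⁻¹ * γ * g x) := by group
      conv_lhs => rw [this]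
      rw [D.mul, hk]
    rw [e1] at e2
    have h4 : (MonoidAlgebra.single γ a : MonoidAlgebra K Γ) •
        ((MonoidAlgebra.single (g x) (1 : K) : MonoidAlgebra K Γ) •
        l (rep x) (D.ε (g x) (rep x) •
          ((MonoidAlgebra.single (g x)⁻¹ (1 : K) : MonoidAlgebra K Γ) • m))) =
        (MonoidAlgebra.single (g (γ • x)) (1 : K) : MonoidAlgebra K Γ) •
        ((MonoidAlgebra.single ((g (γ • x))⁻¹ * γ * g x) a : MonoidAlgebra K Γ) •
        l (rep x) (D.ε (g x) (rep x) •
          ((MonoidAlgebra.single (g x)⁻¹ (1 : K) : MonoidAlgebra K Γ) • m))) := by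
      rw [hss, hss, one_mul, mul_one]
      congr 2
      group
    rw [h4]
    have h5 : ∀ y : (SData.Ind D M →₀ MonoidAlgebra K Γ),
        y = D.ε ((g (γ • x))⁻¹ * γ * g x) (rep x) •
          (D.ε ((g (γ • x))⁻¹ * γ * g x) (rep x) • y) := by
      intro y
      rw [smul_smul, Int.units_mul_self, one_smul]
    rw [h5 ((MonoidAlgebra.single ((g (γ • x))⁻¹ * γ * g x) a : MonoidAlgebra K Γ) •
        l (rep x) (D.ε (g x) (rep x) •
          ((MonoidAlgebra.single (g x)⁻¹ (1 : K) : MonoidAlgebra K Γ) • m))), ← h3]
    have h6 : ∀ (e : ℤˣ) (m : M), l (rep x) (e • m) = e • l (rep x) m := by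
      intro e m
      rcases Int.units_eq_one_or e with rfl | rfl
      · rw [one_smul, one_smul]
      · simp [Units.smul_def]
    have h7 : ∀ (e : ℤˣ) (r : MonoidAlgebra K Γ) (m : M), r • (e • m) = e • (r • m) := by
      intro e r m
      rcases Int.units_eq_one_or e with rfl | rfl
      · rw [one_smul, one_smul]
      · simp [Units.smul_def]
    rw [← h6]
    congr 2
    rw [h7, h7, hss, hss, smul_smul, smul_smul]
    have h8 : (g (γ • x))⁻¹ * γ * g x * (g x)⁻¹ = (g (γ • x))⁻¹ * γ := by group
    rw [h8, mul_one, one_mul]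
    congr 1
    exact ip_units _ _ _ _ e2
  have hlin2 : ∀ (r : MonoidAlgebra K Γ) (t : SData.Ind D M), s (r • t) = r • s t := by
    intro r t
    induction r using MonoidAlgebra.induction_linear with
    | zero => rw [zero_smul, map_zero, zero_smul]
    | add r r' hr hr' => rw [add_smul, map_add, hr, hr', add_smul]
    | single γ a =>
      refine SData.induction (p := fun t => s ((MonoidAlgebra.single γ a : MonoidAlgebra K Γ) • t) =
        (MonoidAlgebra.single γ a : MonoidAlgebra K Γ) • s t) t ?_ ?_ ?_
      · show s ((MonoidAlgebra.single γ a : MonoidAlgebra K Γ) • 0) = _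
        rw [smul_zero, map_zero, smul_zero]
      · intro y z hy hz
        show s ((MonoidAlgebra.single γ a : MonoidAlgebra K Γ) • (y + z)) = _
        rw [smul_add, map_add, hy, hz, map_add, smul_add]
      · exact hlin1 γ a
  refine ⟨{ toFun := s, map_add' := map_add s, map_smul' := hlin2 }, ?_⟩
  apply LinearMap.ext
  intro t
  show f (s t) = t
  refine SData.induction (p := fun t => f (s t) = t) t ?_ ?_ ?_
  · show f (s 0) = 0
    rw [map_zero, map_zero]
  · intro y z hy hz
    show f (s (y + z)) = y + z
    rw [map_add, map_add, hy, hz]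
  · intro x m
    show f (s (SData.sg D M x m)) = SData.sg D M x m
    rw [hs, map_smul, hl1, SData.single_smul_sg, hg]
    congr 1
    rcases Int.units_eq_one_or (D.ε (g x) (rep x)) with q | q
    · rw [q, one_smul, one_smul, hss, mul_inv_cancel, mul_one, ← MonoidAlgebra.one_def, one_smul]
    · rw [q, Units.neg_smul, Units.neg_smul, one_smul, one_smul, smul_neg, neg_neg, hss,
        mul_inv_cancel, mul_one, ← MonoidAlgebra.one_def, one_smul]

end SPH
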