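import Pool.Agent.Lib.MP_7b9603_al.Weyl

/-! # A root in the moved space of an element of prime order (job L3) -/

namespace SPH

open scoped Classical
open Polynomial

universe u

set_option linter.unusedSectionVars false

variable {S : Type u} [Fintype S] [DecidableEq S] {G : SimpleGraph S}

private theorem mr_avoid (L : Submodule ℤ (S → ℤ)) (F : Finset (S → ℤ))
    (h : ∀ γ ∈ F, ∃ u ∈ L, bil G u γ ≠ 0) : ∃ v ∈ L, ∀ γ ∈ F, bil G v γ ≠ 0 := by
  induction F using Finset.induction_on with
  | empty => exact ⟨0, L.zero_mem, by simp⟩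
  | insert γ F hγ ih =>
    obtain ⟨v, hv, hv1⟩ := ih fun γ' h' => h γ' (Finset.mem_insert_of_mem h')
    by_cases h0 : bil G v γ = 0
    · obtain ⟨u, hu, hu1⟩ := h γ (Finset.mem_insert_self _ _)
      set M : ℤ := 1 + ∑ γ' ∈ F, |bil G u γ'| with hM
      refine ⟨M • v + u, L.add_mem (L.smul_mem _ hv) hu, ?_⟩
      intro γ' hγ'
      rw [bil_add_left, bil_smul_left]
      rcases Finset.mem_insert.1 hγ' with rfl | hF
      · rw [h0, mul_zero, zero_add]
        exact hu1
      · have h1 : |bil G u γ'| ≤ ∑ γ' ∈ F, |bil G u γ'| :=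
          Finset.single_le_sum (f := fun γ' => |bil G u γ'|) (fun _ _ => abs_nonneg _) hF
        have h2 : |bil G u γ'| < M := by omega
        have h3 : 1 ≤ |bil G v γ'| := Int.one_le_abs (hv1 γ' hF)
        intro h4
        have h5 : M * bil G v γ' = - bil G u γ' := by linarith
        have h6 : |M * bil G v γ'| = |bil G u γ'| := by rw [h5, abs_neg]
        rw [abs_mul] at h6
        have h7 : M ≤ |M| := le_abs_self M
        nlinarith [abs_nonneg M, abs_nonneg (bil G u γ')]
    · refine ⟨v, hv, fun γ' hγ' => ?_⟩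
      rcases Finset.mem_insert.1 hγ' with rfl | hF
      · exact h0
      · exact hv1 γ' hF

theorem exists_root_sum_zero (hG : PosDef G) (g : AGrp G) (p : ℕ) (hp : p.Prime)
    (h1 : toW G g ≠ 1) (hp1 : toW G g ^ p = 1) :
    ∃ α, IsRoot G α ∧ ∑ i ∈ Finset.range p, (toW G g ^ i) α = 0 := by
  by_contra hcon
  push Not at hcon
  have hfix : ∀ γ : S → ℤ, toW G g (∑ i ∈ Finset.range p, (toW G g ^ i) γ) =
      ∑ i ∈ Finset.range p, (toW G g ^ i) γ := by
    intro γ
    have e1 : toW G g (∑ i ∈ Finset.range p, (toW G g ^ i) γ) =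
        ∑ i ∈ Finset.range p, (toW G g ^ (i + 1)) γ := by
      rw [map_sum]
      refine Finset.sum_congr rfl fun i _ => ?_
      rw [pow_succ']
      rfl
    have e2 : ∑ i ∈ Finset.range (p + 1), (toW G g ^ i) γ =
        ∑ i ∈ Finset.range p, (toW G g ^ (i + 1)) γ + γ := by
      rw [Finset.sum_range_succ']
      rfl
    have e3 : ∑ i ∈ Finset.range (p + 1), (toW G g ^ i) γ =
        ∑ i ∈ Finset.range p, (toW G g ^ i) γ + γ := by
      rw [Finset.sum_range_succ, hp1]
      rfl
    rw [e1]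
    exact add_right_cancel (e2.symm.trans e3)
  have hfixn : ∀ (γ : S → ℤ) (i : ℕ), (toW G g ^ i) (∑ i ∈ Finset.range p, (toW G g ^ i) γ) =
      ∑ i ∈ Finset.range p, (toW G g ^ i) γ := by
    intro γ i
    induction i with
    | zero => rfl
    | succ i ih =>
      rw [pow_succ]
      show (toW G g ^ i) (toW G g _) = _
      rw [hfix, ih]
  have hinv : ∀ (i : ℕ) (a b : S → ℤ), bil G ((toW G g ^ i) a) ((toW G g ^ i) b) = bil G a b := by
    intro i a b
    rw [← map_pow]
    exact bil_toW G (g ^ i) a b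
  set L : Submodule ℤ (S → ℤ) :=
    LinearMap.ker ((toW G g).toLinearMap - LinearMap.id) with hL
  have hmem : ∀ v : S → ℤ, v ∈ L ↔ toW G g v = v := by
    intro v
    rw [hL, LinearMap.mem_ker, LinearMap.sub_apply, sub_eq_zero]
    rfl
  obtain ⟨v, hv, hv1⟩ := mr_avoid (G := G) L (finite_root hG).toFinset (by
    intro γ hγ
    have hγ' : IsRoot G γ := (Set.Finite.mem_toFinset (finite_root hG)).1 hγ
    refine ⟨∑ i ∈ Finset.range p, (toW G g ^ i) γ, (hmem _).2 (hfix γ), ?_⟩
    intro h0
    have h2 := hG _ (hcon γ hγ')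
    have h3 : bil G (∑ i ∈ Finset.range p, (toW G g ^ i) γ)
        (∑ i ∈ Finset.range p, (toW G g ^ i) γ) =
        ∑ i ∈ Finset.range p, bil G (∑ i ∈ Finset.range p, (toW G g ^ i) γ) γ := by
      conv_lhs => rw [bil_comm, bil_sum_left]
      refine Finset.sum_congr rfl fun i _ => ?_
      rw [bil_comm]
      conv_lhs => rw [← hfixn γ i]
      exact hinv i _ _
    rw [h3, h0] at h2
    simp at h2)
  exact h1 (toW_eq_one_of_regular hG g v ((hmem v).1 hv) fun γ hγ =>
    hv1 γ ((Set.Finite.mem_toFinset (finite_root hG)).2 hγ))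

end SPH
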