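import Pool.Agent.Lib.MP_7b9603_al.BuStruct
import Pool.Agent.Lib.MP_7b9603_al.ConfEx
import Pool.Agent.Lib.MP_7b9603_al.MovRoot
import Pool.Agent.Lib.MP_7b9603_al.Roots

/-! # Lifts of elements of order `p` do not have order `p` in the nilpotent quotients (job B4) -/

namespace SPH

open scoped Classical
open Polynomial

universe u v

set_option linter.unusedSectionVars false

namespace NT

section Gen

variable {S : Type u} [Fintype S] [DecidableEq S] {G : SimpleGraph S}
variable {I : Type} [Fintype I]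

theorem conf_self (κ : Conf G I) (i : I) : κ.1 i i = 0 := by
  have := κ.2.1 i i i
  simpa using this

theorem conf_symm (κ : Conf G I) (i j : I) : κ.1 j i = - κ.1 i j := by
  have := κ.2.1 i j i
  rw [conf_self] at this
  exact eq_neg_of_add_eq_zero_right this

theorem relab_relab (σ τ : Equiv.Perm I) (κ : Conf G I) :
    relab G τ (relab G σ κ) = relab G (σ * τ) κ := rfl

theorem relab_one (κ : Conf G I) : relab G 1 κ = κ := rfl

/-- The stabilizer of a configuration is trivial. -/
theorem relab_eq_self {σ : Equiv.Perm I} {κ : Conf G I} (h : relab G σ κ = κ) : σ = 1 := by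
  have h' : ∀ i j, κ.1 (σ i) (σ j) = κ.1 i j := fun i j =>
    congrFun (congrFun (congrArg Subtype.val h) i) j
  have hu : ∀ i j, κ.1 (σ i) i = κ.1 (σ j) j := by
    intro i j
    have h1 := κ.2.1 (σ i) i j
    have h2 := κ.2.1 (σ i) (σ j) j
    rw [h' i j] at h2
    have h3 : κ.1 (σ i) i + κ.1 i j = κ.1 i j + κ.1 (σ j) j := h1.trans h2.symm
    rw [add_comm (κ.1 i j)] at h3
    exact add_right_cancel h3
  ext i
  rw [Equiv.Perm.one_apply]
  by_contra hne
  have hl : ∀ l : ℕ, κ.1 ((σ ^ l) i) i = l • κ.1 (σ i) i := by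
    intro l
    induction l with
    | zero => simp [conf_self]
    | succ l ih =>
      have h1 := κ.2.1 (σ ((σ ^ l) i)) ((σ ^ l) i) i
      rw [pow_succ', Equiv.Perm.mul_apply, ← h1, ih, hu ((σ ^ l) i) i, succ_nsmul']
  have hfin := pow_orderOf_eq_one σ
  have hpos : 0 < orderOf σ := orderOf_pos σ
  have h1 := hl (orderOf σ)
  rw [hfin, Equiv.Perm.one_apply, conf_self] at h1
  have h2 : κ.1 (σ i) i = 0 := by
    funext s
    have h3 := congrFun h1 s
    simp only [Pi.zero_apply, Pi.smul_apply, nsmul_eq_mul] at h3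
    rcases mul_eq_zero.1 h3.symm with h4 | h4
    · exact absurd (by exact_mod_cast h4) hpos.ne'
    · simpa using h4
  exact (κ.2.2 (σ i) i hne).ne_zero h2

/-- The number of labels above `i`. -/
noncomputable def pos (κ : Conf G I) (i : I) : ℕ :=
  (Finset.univ.filter fun j => j ≠ i ∧ IsPos G (κ.1 j i)).card

theorem isPos_add {u v : S → ℤ} (hu : IsPos G u) (hv : IsPos G v) (h : IsRoot G (u + v)) :
    IsPos G (u + v) := ⟨h, fun s => add_nonneg (hu.2 s) (hv.2 s)⟩

theorem isPos_trans {κ : Conf G I} {i j k : I} (hij : i ≠ j ∧ IsPos G (κ.1 i j))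
    (hjk : j ≠ k ∧ IsPos G (κ.1 j k)) : i ≠ k ∧ IsPos G (κ.1 i k) := by
  have hik : i ≠ k := by
    rintro rfl
    have := hjk.2
    rw [conf_symm] at this
    exact hij.2.not_neg this
  refine ⟨hik, ?_⟩
  have h := κ.2.1 i j k
  rw [← h]
  exact isPos_add hij.2 hjk.2 (by rw [h]; exact κ.2.2 i k hik)

theorem pos_lt_pos {κ : Conf G I} {i j : I} (hij : i ≠ j ∧ IsPos G (κ.1 i j)) :
    pos κ i < pos κ j := by
  apply Finset.card_lt_card
  rw [Finset.ssubset_iff_of_subset]
  · refine ⟨i, ?_, ?_⟩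
    · simp only [Finset.mem_filter, Finset.mem_univ, true_and]
      exact hij
    · simp
  · intro k hk
    simp only [Finset.mem_filter, Finset.mem_univ, true_and] at hk ⊢
    exact isPos_trans hk hij

theorem pos_injective (hG : PosDef G) (κ : Conf G I) : Function.Injective (pos κ) := by
  intro i j h
  by_contra hne
  rcases (κ.2.2 i j hne).pos_or_neg hG with h1 | h1
  · exact absurd h (pos_lt_pos ⟨hne, h1⟩).ne
  · rw [← conf_symm] at h1
    exact absurd h (pos_lt_pos ⟨fun h => hne h.symm, h1⟩).ne'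

theorem pos_lt (κ : Conf G I) (i : I) : pos κ i < Fintype.card I := by
  rw [← Finset.card_univ]
  apply Finset.card_lt_card
  rw [Finset.ssubset_univ_iff]
  intro h
  have : i ∈ (Finset.univ.filter fun j => j ≠ i ∧ IsPos G (κ.1 j i)) := by
    rw [h]; exact Finset.mem_univ i
  simp at this

theorem sum_pos (hG : PosDef G) {R : Type v} [CommRing R] (κ : Conf G I) (t : R) :
    ∑ i, t ^ pos κ i = ∑ i ∈ Finset.range (Fintype.card I), t ^ i := by
  have himg : Finset.univ.image (pos κ) = Finset.range (Fintype.card I) := by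
    apply Finset.eq_of_subset_of_card_le
    · intro x hx
      obtain ⟨i, _, rfl⟩ := Finset.mem_image.1 hx
      exact Finset.mem_range.2 (pos_lt κ i)
    · rw [Finset.card_range, Finset.card_image_of_injective _ (pos_injective hG κ),
        Finset.card_univ]
  rw [← himg, Finset.sum_image fun x _ y _ h => pos_injective hG κ h]

theorem pos_relab (σ : Equiv.Perm I) (κ : Conf G I) (i : I) :
    pos (relab G σ κ) i = pos κ (σ i) := by
  unfold pos
  apply Finset.card_equiv σ
  intro j
  simp only [Finset.mem_filter, Finset.mem_univ, true_and]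
  exact and_congr (not_congr σ.injective.eq_iff.symm) Iff.rfl

theorem ell_eq {R : Type v} [CommRing R] (t : R) (κ : Conf G I) (F : Conf G I → I → R) :
    ell G t κ F = ∑ i, t ^ pos κ i * F κ i := rfl

theorem ell_relab {R : Type v} [CommRing R] (t : R) (σ : Equiv.Perm I) (κ : Conf G I)
    {F : Conf G I → I → R} (hF : RelInv G F) : ell G t (relab G σ κ) F = ell G t κ F := by
  rw [ell_eq, ell_eq, ← Equiv.sum_comp σ (fun i => t ^ pos κ i * F κ i)]
  refine Finset.sum_congr rfl fun i _ => ?_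
  rw [pos_relab, hF σ κ i]

theorem ell_sum {R : Type v} [CommRing R] (t : R) (κ : Conf G I) {ι : Type} (s : Finset ι)
    (F : ι → Conf G I → I → R) : ell G t κ (∑ l ∈ s, F l) = ∑ l ∈ s, ell G t κ (F l) := by
  simp only [ell_eq, Finset.sum_apply, Finset.mul_sum]
  rw [Finset.sum_comm]

theorem relInv_sum {R : Type v} [CommRing R] {ι : Type} (s : Finset ι)
    (F : ι → Conf G I → I → R) (h : ∀ l ∈ s, RelInv G (F l)) : RelInv G (∑ l ∈ s, F l) := by
  intro σ κ i
  simp only [Finset.sum_apply]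
  exact Finset.sum_congr rfl fun l hl => h l hl σ κ i

/-- The test function. -/
noncomputable def F1 [Zero I] (R : Type v) [CommRing R] (κ : Conf G I) : Conf G I → I → R :=
  fun κ' i => if ∃ σ : Equiv.Perm I, relab G σ κ = κ' ∧ σ i = 0 then 1 else 0

theorem F1_relInv [Zero I] (R : Type v) [CommRing R] (κ : Conf G I) :
    RelInv G (F1 R κ) := by
  intro τ κ' i
  unfold F1
  have : (∃ σ : Equiv.Perm I, relab G σ κ = relab G τ κ' ∧ σ i = 0) ↔
      ∃ σ : Equiv.Perm I, relab G σ κ = κ' ∧ σ (τ i) = 0 := by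
    constructor
    · rintro ⟨σ, h1, h2⟩
      refine ⟨σ * τ⁻¹, ?_, ?_⟩
      · rw [← relab_relab, h1, relab_relab, mul_inv_cancel, relab_one]
      · simpa using h2
    · rintro ⟨σ, h1, h2⟩
      refine ⟨σ * τ, ?_, ?_⟩
      · rw [← relab_relab, h1]
      · simpa using h2
  simp only [this]

theorem F1_self [Zero I] (R : Type v) [CommRing R] (κ : Conf G I) (i : I) :
    F1 R κ κ i = if i = 0 then 1 else 0 := by
  unfold F1
  have : (∃ σ : Equiv.Perm I, relab G σ κ = κ ∧ σ i = 0) ↔ i = 0 := by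
    constructor
    · rintro ⟨σ, h1, h2⟩
      rw [relab_eq_self h1] at h2
      simpa using h2
    · rintro rfl
      exact ⟨1, relab_one κ, rfl⟩
  simp only [this]

theorem ell_F1 [Zero I] (R : Type v) [CommRing R] (t : R) (κ : Conf G I) :
    ell G t κ (F1 R κ) = t ^ pos κ 0 := by
  rw [ell_eq]
  simp only [F1_self]
  simp

end Gen

theorem pow_one_add_smul {R : Type*} [CommRing R] {M : Type*} [AddCommGroup M] [Module R M]
    (x : R) (Y : Module.End R M) (a : ℕ) :
    ∃ Y' : Module.End R M, (1 + x • Y) ^ a = 1 + x • Y' := by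
  induction a with
  | zero => exact ⟨0, by simp⟩
  | succ a ih =>
    obtain ⟨Y', hY'⟩ := ih
    refine ⟨Y' + Y + x • (Y' * Y), ?_⟩
    rw [pow_succ, hY', add_mul, one_mul, mul_add, mul_one, smul_mul_assoc, mul_smul_comm,
      smul_add, smul_add]
    abel

theorem zmod_const {p : ℕ} [NeZero p] {P : ZMod p → Prop} (h0 : P 0)
    (h1 : ∀ i, P i → P (i + 1)) (i : ZMod p) : P i := by
  have : ∀ n : ℕ, P (n : ZMod p) := by
    intro n
    induction n with
    | zero => simpa using h0
    | succ n ih => push_cast; exact h1 _ ih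
  have h := this i.val
  rwa [ZMod.natCast_zmod_val] at h

variable {S : Type u} [Fintype S] [DecidableEq S] {G : SimpleGraph S}

/-- The general form of the argument, over an integral domain `R`. -/
theorem core {R : Type v} [CommRing R] [IsDomain R] (t : Rˣ) (x : R) (hx : x ≠ 0)
    (ht : (t : R) = 1 + x) (hG : PosDef G) (p : ℕ) [Fact p.Prime] (g : AGrp G)
    (κ : Conf G (ZMod p)) (hκ : ∀ i j, toW G g (κ.1 i j) = κ.1 (i + 1) (j + 1)) (k : ℕ)
    (Y : Module.End R (Conf G (ZMod p) → ZMod p → R))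
    (hY : (buRep G hG t (ZMod p) (g ^ p)).val = 1 + x ^ k • Y) :
    ∃ a b : R, (p : R) = a * ∑ i ∈ Finset.range p, (1 + x) ^ i + x ^ k * b := by
  set T : Module.End R (Conf G (ZMod p) → ZMod p → R) :=
    (buRep G hG t (ZMod p) g).val with hT
  have hTp : T ^ p = 1 + x ^ k • Y := by
    rw [← hY, map_pow, Units.val_pow_eq_pow_val]
  -- the rotation
  set c : Equiv.Perm (ZMod p) := Equiv.addRight 1 with hc
  have hcw : ∀ σ : Equiv.Perm (ZMod p), cw G g⁻¹ (relab G σ κ) = relab G (c⁻¹ * σ) κ := by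
    intro σ
    apply Subtype.ext
    funext i j
    change toW G g⁻¹ (κ.1 (σ i) (σ j)) = κ.1 (c⁻¹ (σ i)) (c⁻¹ (σ j))
    have h1 := hκ (c⁻¹ (σ i)) (c⁻¹ (σ j))
    have h2 : ∀ x, c⁻¹ x + 1 = x := fun x => by
      have : c (c⁻¹ x) = x := by simp
      rwa [hc] at this
    rw [h2, h2] at h1
    rw [map_inv, ← h1]
    exact (toW G g).symm_apply_apply _
  have hcw1 : cw G g⁻¹ κ = relab G c⁻¹ κ := by
    have := hcw 1
    rwa [relab_one, mul_one] at this
  -- invariance of ell
  have hell : ∀ F : Conf G (ZMod p) → ZMod p → R, RelInv G F →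
      ell G (t : R) κ (T F) = ell G (t : R) κ F := by
    intro F hF
    rw [hT, ell_buRep, hcw1, ell_relab _ _ _ hF]
  have hpow : ∀ l : ℕ, RelInv G ((T ^ l) (F1 R κ)) ∧
      ell G (t : R) κ ((T ^ l) (F1 R κ)) = (t : R) ^ pos κ 0 := by
    intro l
    induction l with
    | zero => exact ⟨F1_relInv _ κ, by rw [pow_zero]; exact ell_F1 _ _ κ⟩
    | succ l ih =>
      rw [pow_succ', Module.End.mul_apply]
      exact ⟨buRep_relInv G hG t g _ ih.1, by rw [hell _ ih.1, ih.2]⟩
  set Gs : Conf G (ZMod p) → ZMod p → R :=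
    ∑ l ∈ Finset.range p, (T ^ l) (F1 R κ) with hGs
  have hGinv : RelInv G Gs := relInv_sum _ _ fun l _ => (hpow l).1
  have hGell : ell G (t : R) κ Gs = p * (t : R) ^ pos κ 0 := by
    rw [hGs, ell_sum, Finset.sum_congr rfl fun l _ => (hpow l).2, Finset.sum_const,
      Finset.card_range, nsmul_eq_mul]
  have hTG : T Gs = Gs + x ^ k • Y (F1 R κ) := by
    have h1 : T Gs - Gs = (T ^ p) (F1 R κ) - (T ^ 0) (F1 R κ) := by
      rw [← Finset.sum_range_sub fun l => (T ^ l) (F1 R κ), Finset.sum_sub_distrib,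
        hGs, map_sum]
      congr 1
      refine Finset.sum_congr rfl fun l _ => ?_
      rw [pow_succ', Module.End.mul_apply]
    rw [hTp, pow_zero, LinearMap.add_apply, Module.End.one_apply, LinearMap.smul_apply] at h1
    rw [sub_eq_iff_eq_add] at h1
    rw [h1]
    abel
  -- the indicator of the orbit
  obtain ⟨f, hfκ⟩ : ∃ f : Conf G (ZMod p) → R, ∀ σ : Equiv.Perm (ZMod p), f (relab G σ κ) = 1 :=
    ⟨fun _ => 1, fun _ => rfl⟩
  set u : Conf G (ZMod p) → ZMod p → R := fun κ' _ => f κ' with hu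
  have hTu : T u = fun κ' _ => f (cw G g⁻¹ κ') := buRep_const G hG t g f
  -- local description at κ
  obtain ⟨cl, hcl⟩ := buRep_local G hG t g κ
  obtain ⟨Z, hZ⟩ := buRep_mod (I := ZMod p) G hG t g
  have hcl' : ∀ q : ZMod p → R, ∀ i, x ∣ cl q i - q i := by
    intro q i
    have h1 := congrFun (congrFun (hZ fun _ => q) κ) i
    have h2 := congrFun (hcl fun _ => q) i
    rw [h2, ht] at h1
    refine ⟨(Z fun _ => q) κ i, ?_⟩
    rw [h1]
    simp only [Pi.add_apply, Pi.smul_apply, smul_eq_mul]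
    ring
  have hcs : ∀ i, c⁻¹ (i + 1) = i := fun i => by
    rw [Equiv.Perm.inv_eq_iff_eq, hc, Equiv.coe_addRight]
  -- main induction
  have main : ∀ j, j ≤ k → ∃ lam : R, ∀ i, x ^ j ∣ Gs κ i - lam := by
    intro j
    induction j with
    | zero => intro _; exact ⟨0, fun i => by simp⟩
    | succ j ih =>
      intro hj
      obtain ⟨lam, hlam⟩ := ih (by omega)
      choose q hq using hlam
      -- the value of T (Gs - lam u) at κ in two ways
      have e1 : ∀ i, (T (Gs - lam • u)) κ i = x ^ j * cl (fun i => q (c⁻¹ i)) i := by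
        intro i
        have h1 := congrFun (hcl (Gs - lam • u)) i
        have h2 : (Gs - lam • u) (cw G g⁻¹ κ) = x ^ j • fun i => q (c⁻¹ i) := by
          funext i
          rw [hcw1]
          simp only [Pi.sub_apply, Pi.smul_apply, smul_eq_mul, hu]
          rw [hfκ, hGinv c⁻¹ κ i, mul_one, hq]
        rw [h2, map_smul] at h1
        rw [hT]
        exact h1
      have e2 : ∀ i, (T (Gs - lam • u)) κ i = x ^ j * q i + x ^ k * Y (F1 R κ) κ i := by
        intro i
        rw [map_sub, map_smul, hTG, hTu]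
        simp only [Pi.sub_apply, Pi.smul_apply, Pi.add_apply, smul_eq_mul]
        rw [hcw1, hfκ, ← hq]
        ring
      have e3 : ∀ i, x ∣ q (c⁻¹ i) - q i := by
        intro i
        have h1 := (e1 i).symm.trans (e2 i)
        have hkj : x ^ k = x ^ j * (x * x ^ (k - j - 1)) := by
          rw [← pow_succ', ← pow_add]
          congr 1
          omega
        rw [hkj, mul_assoc, ← mul_add] at h1
        have h2 := mul_left_cancel₀ (pow_ne_zero j hx) h1
        obtain ⟨r, hr⟩ := hcl' (fun i => q (c⁻¹ i)) i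
        refine ⟨x ^ (k - j - 1) * Y (F1 R κ) κ i - r, ?_⟩
        linear_combination h2 - hr
      have e4 : ∀ i, x ∣ q i - q 0 := by
        apply zmod_const
        · simp
        · intro i hi
          have h1 := e3 (i + 1)
          rw [hcs] at h1
          have h3 := dvd_sub hi h1
          have h4 : q i - q 0 - (q i - q (i + 1)) = q (i + 1) - q 0 := by ring
          rwa [h4] at h3
      refine ⟨lam + x ^ j * q 0, fun i => ?_⟩
      have h5 : Gs κ i - (lam + x ^ j * q 0) = x ^ j * (q i - q 0) := by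
        rw [← sub_sub, hq]; ring
      rw [h5, pow_succ]
      exact mul_dvd_mul_left _ (e4 i)
  obtain ⟨lam, hlam⟩ := main k le_rfl
  choose b hb using hlam
  have hval : ∀ i, Gs κ i = lam + x ^ k * b i := fun i => by
    rw [← hb]; ring
  have hfin : (p : R) * (t : R) ^ pos κ 0 = lam * ∑ i ∈ Finset.range p, (1 + x) ^ i +
        x ^ k * ∑ i, (t : R) ^ pos κ i * b i := by
    rw [← hGell, ell_eq]
    have h6 : ∑ i ∈ Finset.range p, (1 + x) ^ i = ∑ i, (t : R) ^ pos κ i := by
      rw [sum_pos hG, ZMod.card, ht]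
    rw [h6, Finset.mul_sum, Finset.mul_sum, ← Finset.sum_add_distrib]
    refine Finset.sum_congr rfl fun i _ => ?_
    rw [hval]
    ring
  refine ⟨lam * ((t⁻¹ : Rˣ) : R) ^ pos κ 0,
    ((t⁻¹ : Rˣ) : R) ^ pos κ 0 * ∑ i, (t : R) ^ pos κ i * b i, ?_⟩
  have h7 : (t : R) ^ pos κ 0 * ((t⁻¹ : Rˣ) : R) ^ pos κ 0 = 1 := by
    rw [← mul_pow, Units.mul_inv, one_pow]
  calc (p : R) = (p * (t : R) ^ pos κ 0) * ((t⁻¹ : Rˣ) : R) ^ pos κ 0 := by
        rw [mul_assoc, h7, mul_one]
    _ = _ := by rw [hfin]; ring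

end NT

variable {S : Type u} [Fintype S] [DecidableEq S] (G : SimpleGraph S)

/-- Core statement, for a given rotating configuration. -/
theorem no_torsion_of_conf (hG : PosDef G) (p : ℕ) [Fact p.Prime] (g : AGrp G)
    (κ : Conf G (ZMod p)) (hκ : ∀ i j, toW G g (κ.1 i j) = κ.1 (i + 1) (j + 1))
    (hp1 : toW G g ^ p = 1) (k : ℕ) (hk : p ≤ k) :
    ¬ ∃ Y : Module.End (PowerSeries ℤ) (Conf G (ZMod p) → ZMod p → PowerSeries ℤ),
      (buRep G hG tU (ZMod p) (g ^ p)).val =
        1 + (PowerSeries.X : PowerSeries ℤ) ^ k • Y := by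
  rintro ⟨Y, hY⟩
  exact prime_not_mem p k Fact.out hk
    (NT.core tU PowerSeries.X PowerSeries.X_ne_zero tU_val hG p g κ hκ k Y hY)

theorem no_torsion (hG : PosDef G) (p : ℕ) [Fact p.Prime] (g : AGrp G) (h1 : toW G g ≠ 1)
    (hp1 : toW G g ^ p = 1) (k : ℕ) (hk : p ≤ k) :
    ¬ ∃ Y : Module.End (PowerSeries ℤ) (Conf G (ZMod p) → ZMod p → PowerSeries ℤ),
      (buRep G hG tU (ZMod p) (g ^ p)).val =
        1 + (PowerSeries.X : PowerSeries ℤ) ^ k • Y := by
  rintro ⟨Y, hY⟩
  obtain ⟨α, hα, hsum⟩ := exists_root_sum_zero hG g p Fact.out h1 hp1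
  obtain ⟨a, κ, hκ⟩ := exists_conf hG (toW G g) (bil_toW G g) p hp1 α hα hsum
  refine no_torsion_of_conf G hG p (g ^ a) κ ?_ ?_ k hk ?_
  · intro i j
    rw [map_pow]
    exact hκ i j
  · rw [map_pow, ← pow_mul, mul_comm, pow_mul, hp1, one_pow]
  · rw [← pow_mul, mul_comm, pow_mul, map_pow, Units.val_pow_eq_pow_val, hY]
    exact NT.pow_one_add_smul _ Y a

end SPH
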