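import Pool.Agent.Lib.MP_7b9603_al.Roots

/-! # Gram matrix of the orbit of a root under an isometry of odd prime order (job L4) -/

namespace SPH

open scoped Classical
open Polynomial

universe u

set_option linter.unusedSectionVars false

variable {S : Type u} [Fintype S] [DecidableEq S] {G : SimpleGraph S}

section zmod

variable {p : ℕ} [Fact p.Prime]

private lemma ob_two_ne (hodd : Odd p) : (2 : ZMod p) ≠ 0 := by
  intro h
  have h1 : ((2 : ℕ) : ZMod p) = 0 := by exact_mod_cast h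
  rw [ZMod.natCast_eq_zero_iff] at h1
  have h2 := Nat.le_of_dvd (by norm_num) h1
  have h3 := (Fact.out : p.Prime).two_le
  have : p = 2 := by omega
  subst this
  exact absurd hodd (by decide)

private lemma ob_neg_ne (hodd : Odd p) {a : ZMod p} (ha : a ≠ 0) : a ≠ -a := by
  intro h
  have h1 : 2 * a = 0 := by rw [two_mul]; nth_rewrite 2 [h]; ring
  exact (mul_ne_zero (ob_two_ne hodd) ha) h1

/-- shape of the correlation function -/
private lemma ob_shape (hodd : Odd p) (c : ZMod p → ℤ) (h0 : c 0 = 2) (hs : ∑ i, c i = 0)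
    (hneg : ∀ i, c (-i) = c i) (hv : ∀ i, i ≠ 0 → c i = -1 ∨ c i = 0) :
    ∃ a : ZMod p, a ≠ 0 ∧ c a = -1 ∧ ∀ i, i ≠ 0 → i ≠ a → i ≠ -a → c i = 0 := by
  classical
  set A : Finset (ZMod p) := Finset.univ.filter (fun i => c i = -1) with hA
  have hsum : ∑ i, c i = 2 - A.card := by
    have h1 : ∀ i, c i = (if i = 0 then 2 else 0) - (if c i = -1 then 1 else 0) := by
      intro i
      by_cases hi : i = 0
      · subst hi; simp [h0]
      · rcases hv i hi with h | h <;> simp [hi, h]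
    rw [Finset.sum_congr rfl (fun i _ => h1 i), Finset.sum_sub_distrib]
    simp [hA]
  have hcard : A.card = 2 := by
    have : (A.card : ℤ) = 2 := by linarith
    exact_mod_cast this
  obtain ⟨a, ha⟩ : A.Nonempty := by rw [← Finset.card_pos]; omega
  have haA : c a = -1 := (Finset.mem_filter.mp ha).2
  have ha0 : a ≠ 0 := by rintro rfl; omega
  have hna : -a ∈ A := by rw [hA, Finset.mem_filter]; exact ⟨Finset.mem_univ _, by rw [hneg, haA]⟩
  have hsub : ({a, -a} : Finset (ZMod p)) ⊆ A := by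
    intro x hx
    rw [Finset.mem_insert, Finset.mem_singleton] at hx
    rcases hx with rfl | rfl
    · exact ha
    · exact hna
  have hAeq : ({a, -a} : Finset (ZMod p)) = A := by
    apply Finset.eq_of_subset_of_card_le hsub
    rw [hcard, Finset.card_pair (ob_neg_ne hodd ha0)]
  refine ⟨a, ha0, haA, fun i hi0 hia hina => ?_⟩
  rcases hv i hi0 with h | h
  · exfalso
    have : i ∈ A := by rw [hA, Finset.mem_filter]; exact ⟨Finset.mem_univ _, h⟩
    rw [← hAeq, Finset.mem_insert, Finset.mem_singleton] at this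
    rcases this with h | h
    · exact hia h
    · exact hina h
  · exact h

/-- second moments -/
private lemma ob_moment (hodd : Odd p) (c : ZMod p → ℤ) (hs : ∑ i, c i = 0) (b : ZMod p)
    (c' : ZMod p → ℤ) (hc' : ∀ i, c' i = 2 * c i - c (i + b) - c (i - b))
    (a : ZMod p) (ha : a ≠ 0) (hca : c' a = -1) (hcna : c' (-a) = -1)
    (hz : ∀ i, i ≠ 0 → i ≠ a → i ≠ -a → c' i = 0) : False := by
  classical
  have h1 : ∑ i, (c' i : ZMod p) * i ^ 2 = -2 * a ^ 2 := by
    have hsub : ∑ i, (c' i : ZMod p) * i ^ 2 =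
        ∑ i ∈ ({a, -a} : Finset (ZMod p)), (c' i : ZMod p) * i ^ 2 := by
      symm
      apply Finset.sum_subset (Finset.subset_univ _)
      intro i _ hi
      rw [Finset.mem_insert, Finset.mem_singleton, not_or] at hi
      by_cases hi0 : i = 0
      · subst hi0; simp
      · rw [hz i hi0 hi.1 hi.2]; simp
    rw [hsub, Finset.sum_pair (ob_neg_ne hodd ha), hca, hcna]
    push_cast
    ring
  have h2 : ∑ i, (c' i : ZMod p) * i ^ 2 = 0 := by
    have e1 : ∀ i, (c' i : ZMod p) * i ^ 2 =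
        2 * ((c i : ZMod p) * i ^ 2) - (c (i + b) : ZMod p) * i ^ 2 -
          (c (i - b) : ZMod p) * i ^ 2 := by
      intro i
      rw [hc']
      push_cast
      ring
    rw [Finset.sum_congr rfl (fun i _ => e1 i), Finset.sum_sub_distrib, Finset.sum_sub_distrib,
      ← Finset.mul_sum]
    have e2 : ∑ i, (c (i + b) : ZMod p) * i ^ 2 = ∑ i, (c i : ZMod p) * (i - b) ^ 2 := by
      rw [← Equiv.sum_comp (Equiv.addRight b) (fun i => (c i : ZMod p) * (i - b) ^ 2)]
      refine Finset.sum_congr rfl fun i _ => ?_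
      simp
    have e3 : ∑ i, (c (i - b) : ZMod p) * i ^ 2 = ∑ i, (c i : ZMod p) * (i + b) ^ 2 := by
      rw [← Equiv.sum_comp (Equiv.subRight b) (fun i => (c i : ZMod p) * (i + b) ^ 2)]
      refine Finset.sum_congr rfl fun i _ => ?_
      simp
    rw [e2, e3]
    have e4 : 2 * ∑ i, (c i : ZMod p) * i ^ 2 - ∑ i, (c i : ZMod p) * (i - b) ^ 2 -
        ∑ i, (c i : ZMod p) * (i + b) ^ 2 = (-2 * b ^ 2) * ∑ i, (c i : ZMod p) := by
      rw [Finset.mul_sum, Finset.mul_sum, ← Finset.sum_sub_distrib, ← Finset.sum_sub_distrib]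
      refine Finset.sum_congr rfl fun i _ => ?_
      ring
    rw [e4]
    have e5 : ∑ i, (c i : ZMod p) = 0 := by
      have := congrArg (Int.cast : ℤ → ZMod p) hs
      push_cast at this
      exact this
    rw [e5, mul_zero]
  rw [h2] at h1
  have h3 : (-2 : ZMod p) * a ^ 2 ≠ 0 :=
    mul_ne_zero (neg_ne_zero.mpr (ob_two_ne hodd)) (pow_ne_zero _ ha)
  exact h3 h1.symm

end zmod

section orbit

variable {p : ℕ} [Fact p.Prime] (w : (S → ℤ) ≃ₗ[ℤ] (S → ℤ))

/-- the power of `w` with exponent in `ZMod p` -/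
private noncomputable def ob_U (i : ZMod p) : (S → ℤ) ≃ₗ[ℤ] (S → ℤ) := w ^ i.val

private lemma ob_U_nat (hp1 : w ^ p = 1) (n : ℕ) : ob_U w (n : ZMod p) = w ^ n := by
  rw [ob_U, ZMod.val_natCast]
  exact (pow_eq_pow_mod n hp1).symm

private lemma ob_U_add (hp1 : w ^ p = 1) (i j : ZMod p) : ob_U w (i + j) = ob_U w i * ob_U w j := by
  rw [ob_U, ob_U, ob_U, ZMod.val_add, ← pow_add]
  exact (pow_eq_pow_mod _ hp1).symm

private lemma ob_U_zero : ob_U w (0 : ZMod p) = 1 := by
  rw [ob_U, ZMod.val_zero, pow_zero]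

private lemma ob_sum (β : S → ℤ) :
    ∑ i ∈ Finset.range p, (w ^ i) β = ∑ i : ZMod p, ob_U w i β := by
  symm
  refine Finset.sum_bij (fun i _ => i.val) (fun i _ => Finset.mem_range.mpr (ZMod.val_lt i))
    (fun i _ j _ h => ZMod.val_injective p h) (fun n hn => ?_) (fun i _ => rfl)
  rw [Finset.mem_range] at hn
  exact ⟨(n : ZMod p), Finset.mem_univ _, ZMod.val_cast_of_lt hn⟩

private lemma ob_bil_pow (hw : ∀ u v, bil G (w u) (w v) = bil G u v) (n : ℕ) (u v : S → ℤ) :
    bil G ((w ^ n) u) ((w ^ n) v) = bil G u v := by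
  induction n generalizing u v with
  | zero => simp
  | succ n ih =>
    rw [pow_succ, LinearEquiv.mul_apply, LinearEquiv.mul_apply, ih, hw]

private lemma ob_bil_U (hw : ∀ u v, bil G (w u) (w v) = bil G u v) (hp1 : w ^ p = 1)
    (i j : ZMod p) (u v : S → ℤ) :
    bil G (ob_U w i u) (ob_U w j v) = bil G u (ob_U w (j - i) v) := by
  have h1 : ob_U w j v = ob_U w i (ob_U w (j - i) v) := by
    rw [← LinearEquiv.mul_apply, ← ob_U_add w hp1]
    congr 2
    ring
  rw [h1]
  exact ob_bil_pow w hw _ _ _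

/-- correlation function -/
private noncomputable def ob_c (G : SimpleGraph S) (β : S → ℤ) (i : ZMod p) : ℤ :=
  bil G β (ob_U w i β)

private lemma ob_c_zero (β : S → ℤ) (hβ : IsRoot G β) : ob_c w G β (0 : ZMod p) = 2 := by
  rw [ob_c, ob_U_zero]
  exact hβ

private lemma ob_c_neg (hw : ∀ u v, bil G (w u) (w v) = bil G u v) (hp1 : w ^ p = 1)
    (β : S → ℤ) (i : ZMod p) : ob_c w G β (-i) = ob_c w G β i := by
  have h1 := ob_bil_U (G := G) w hw hp1 i 0 β β
  rw [zero_sub] at h1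
  rw [ob_c, ← h1, ob_U_zero, bil_comm, ob_c]
  rfl

private lemma ob_c_sum (β : S → ℤ) (hs : ∑ i : ZMod p, ob_U w i β = 0) :
    ∑ i : ZMod p, ob_c w G β i = 0 := by
  have h1 : bil G (∑ i : ZMod p, ob_U w i β) β = 0 := by rw [hs, bil_zero_left]
  rw [bil_sum_left] at h1
  rw [← h1]
  exact Finset.sum_congr rfl fun i _ => by rw [ob_c, bil_comm]

private lemma ob_fix (hp1 : w ^ p = 1) (β : S → ℤ) (hβ : β ≠ 0)
    (hs : ∑ i : ZMod p, ob_U w i β = 0) (i : ZMod p) (hi : i ≠ 0) : ob_U w i β ≠ β := by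
  intro h
  have h1 : ∀ k : ℕ, ob_U w ((k : ZMod p) * i) β = β := by
    intro k
    induction k with
    | zero => simp [ob_U_zero]
    | succ k ih =>
      have : ((k + 1 : ℕ) : ZMod p) * i = (k : ZMod p) * i + i := by push_cast; ring
      rw [this, ob_U_add w hp1, LinearEquiv.mul_apply, h, ih]
  have h2 : ∀ j : ZMod p, ob_U w j β = β := by
    intro j
    have := h1 (j * i⁻¹).val
    rw [ZMod.natCast_zmod_val, mul_assoc, inv_mul_cancel₀ hi, mul_one] at this
    exact this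
  rw [Finset.sum_congr rfl (fun j _ => h2 j), Finset.sum_const, Finset.card_univ, ZMod.card] at hs
  have hp0 : p ≠ 0 := (Fact.out : p.Prime).ne_zero
  apply hβ
  funext s
  have := congrFun hs s
  simp only [Pi.smul_apply, nsmul_eq_mul, Pi.zero_apply, mul_eq_zero] at this
  rcases this with h | h
  · exact absurd (by exact_mod_cast h) hp0
  · exact h

private lemma ob_c_vals (hG : PosDef G) (hw : ∀ u v, bil G (w u) (w v) = bil G u v)
    (hp1 : w ^ p = 1) (hodd : Odd p) (β : S → ℤ) (hβ : IsRoot G β)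
    (hs : ∑ i : ZMod p, ob_U w i β = 0) (i : ZMod p) (hi : i ≠ 0) :
    ob_c w G β i ≤ 1 ∧ -1 ≤ ob_c w G β i := by
  have hroot : IsRoot G (ob_U w i β) := by
    rw [IsRoot, ob_bil_U w hw hp1, sub_self, ob_U_zero]
    exact hβ
  have h1 := ob_fix w hp1 β hβ.ne_zero hs i hi
  refine ⟨bil_le_one hG hβ hroot (Ne.symm h1), neg_one_le_bil hG hβ hroot ?_⟩
  intro h2
  have h3 : ob_U w i β = -β := neg_eq_iff_eq_neg.mp h2.symm
  have h4 : ob_U w (i + i) β = β := by
    rw [ob_U_add w hp1, LinearEquiv.mul_apply, h3, map_neg, h3, neg_neg]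
  refine ob_fix w hp1 β hβ.ne_zero hs (i + i) ?_ h4
  rw [← two_mul]
  exact mul_ne_zero (ob_two_ne hodd) hi

/-- the differences -/
private lemma ob_step (hG : PosDef G) (hw : ∀ u v, bil G (w u) (w v) = bil G u v)
    (hp1 : w ^ p = 1) (hodd : Odd p) (β : S → ℤ) (hβ : IsRoot G β)
    (hs : ∑ i : ZMod p, ob_U w i β = 0) (b : ZMod p) (hcb : ob_c w G β b = 1) :
    IsRoot G (β - ob_U w b β) ∧ ∑ i : ZMod p, ob_U w i (β - ob_U w b β) = 0 ∧
      ∃ b' : ZMod p, b' ≠ 0 ∧ ob_c w G (β - ob_U w b β) b' = 1 := by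
  have hc' : ∀ i, ob_c w G (β - ob_U w b β) i =
      2 * ob_c w G β i - ob_c w G β (i + b) - ob_c w G β (i - b) := by
    intro i
    have e0 : ob_U w i (β - ob_U w b β) = ob_U w i β - ob_U w (i + b) β := by
      rw [map_sub, ob_U_add w hp1, LinearEquiv.mul_apply]
    rw [ob_c, e0, bil_sub_left, bil_sub_right, bil_sub_right, ob_bil_U w hw hp1,
      ob_bil_U w hw hp1, ob_c, ob_c, ob_c, add_sub_cancel_right]
    ring
  have hroot : IsRoot G (β - ob_U w b β) := by
    have h1 := hc' 0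
    rw [zero_add, zero_sub, ob_c_neg w hw hp1, ob_c_zero w β hβ, hcb] at h1
    have h2 : ob_c w G (β - ob_U w b β) (0 : ZMod p) =
        bil G (β - ob_U w b β) (β - ob_U w b β) := by
      rw [ob_c, ob_U_zero]; rfl
    rw [h2] at h1
    rw [IsRoot, h1]
    norm_num
  have hs' : ∑ i : ZMod p, ob_U w i (β - ob_U w b β) = 0 := by
    have e0 : ∀ i : ZMod p, ob_U w i (β - ob_U w b β) = ob_U w i β - ob_U w b (ob_U w i β) := by
      intro i
      rw [map_sub, ← LinearEquiv.mul_apply, ← LinearEquiv.mul_apply, ← ob_U_add w hp1,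
        ← ob_U_add w hp1, add_comm i b]
    rw [Finset.sum_congr rfl (fun i _ => e0 i), Finset.sum_sub_distrib, ← map_sum, hs, map_zero,
      sub_zero]
  refine ⟨hroot, hs', ?_⟩
  by_contra hno
  push Not at hno
  have hvals := ob_c_vals w hG hw hp1 hodd _ hroot hs'
  have hneg := ob_c_neg (G := G) w hw hp1 (β - ob_U w b β)
  have h0 := ob_c_zero (p := p) w _ hroot
  obtain ⟨a, ha, hca, hz⟩ := ob_shape hodd (ob_c w G (β - ob_U w b β)) h0
    (ob_c_sum w _ hs') hneg (fun i hi => by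
      have h1 := hvals i hi
      have h2 := hno i hi
      omega)
  exact ob_moment hodd (ob_c w G β) (ob_c_sum w β hs) b _ hc' a ha hca
    (by rw [hneg, hca]) hz

/-- no correlation `1` -/
private lemma ob_no_one (hG : PosDef G) (hw : ∀ u v, bil G (w u) (w v) = bil G u v)
    (hp1 : w ^ p = 1) (hodd : Odd p) (α : S → ℤ) (hα : IsRoot G α)
    (hs : ∑ i : ZMod p, ob_U w i α = 0) (b : ZMod p) (hb : b ≠ 0) : ob_c w G α b ≠ 1 := by
  intro hcb
  set W : Module.End ℤ (S → ℤ) := w.toLinearMap with hW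
  have hWU : ∀ (n : ℕ) (v : S → ℤ), (W ^ n) v = (w ^ n) v := by
    intro n
    induction n with
    | zero => intro v; rfl
    | succ n ih =>
      intro v
      rw [pow_succ, pow_succ, Module.End.mul_apply, LinearEquiv.mul_apply, ih]
      rfl
  have hchain : ∀ n : ℕ, ∃ β : S → ℤ, IsRoot G β ∧ (∑ i : ZMod p, ob_U w i β = 0) ∧
      (∃ b : ZMod p, b ≠ 0 ∧ ob_c w G β b = 1) ∧ ∃ δ : S → ℤ, β = ((1 - W) ^ n) δ := by
    intro n
    induction n with
    | zero => exact ⟨α, hα, hs, ⟨b, hb, hcb⟩, α, by simp⟩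
    | succ n ih =>
      obtain ⟨β, hβ, hsβ, ⟨b', hb', hcb'⟩, δ, hδ⟩ := ih
      obtain ⟨h1, h2, h3⟩ := ob_step w hG hw hp1 hodd β hβ hsβ b' hcb'
      refine ⟨β - ob_U w b' β, h1, h2, h3, (∑ i ∈ Finset.range b'.val, W ^ i) δ, ?_⟩
      have e1 : β - ob_U w b' β = (1 - W ^ b'.val) β := by
        rw [LinearMap.sub_apply, hWU]; rfl
      have e2 : (1 - W ^ b'.val) = (1 - W) * ∑ i ∈ Finset.range b'.val, W ^ i := by
        rw [mul_neg_geom_sum]
      have e3 : Commute (∑ i ∈ Finset.range b'.val, W ^ i) ((1 - W) ^ n) := by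
        apply Commute.pow_right
        apply Commute.sub_right (Commute.one_right _)
        exact Commute.sum_left _ _ _ fun i _ => (Commute.refl W).pow_left i
      rw [e1, hδ, e2, ← Module.End.mul_apply, ← Module.End.mul_apply, mul_assoc, e3.eq,
        ← mul_assoc, ← pow_succ']
  obtain ⟨β, hβ, -, -, δ, hδ⟩ := hchain p
  have hpp : p.Prime := Fact.out
  obtain ⟨r, hr⟩ := Commute.exists_add_pow_prime_eq hpp
    ((Commute.one_left (-W)) : Commute (1 : Module.End ℤ (S → ℤ)) (-W))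
  have hWp : W ^ p = 1 := by
    refine LinearMap.ext fun v => ?_
    rw [hWU, hp1]
    rfl
  have hexp : (1 - W) ^ p = (p : Module.End ℤ (S → ℤ)) * (1 * (-W) * r) := by
    rw [sub_eq_add_neg, hr, one_pow, hodd.neg_pow, hWp]
    noncomm_ring
  rw [hexp, Module.End.mul_apply] at hδ
  set δ' := (1 * (-W) * r) δ with hδ'
  have h1 : β = (p : ℤ) • δ' := by
    rw [hδ]
    simp [Module.End.natCast_apply]
  have h2 : bil G β β = p ^ 2 * bil G δ' δ' := by
    rw [h1, bil_smul_left, bil_smul_right]; ring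
  rw [hβ] at h2
  have h3 : (3 : ℤ) ≤ p := by
    have := hpp.two_le
    have h4 : p ≠ 2 := by rintro rfl; exact absurd hodd (by decide)
    omega
  have h5 : 0 < bil G δ' δ' := by
    by_contra hle
    push Not at hle
    nlinarith [sq_nonneg (p : ℤ)]
  nlinarith [sq_nonneg ((p : ℤ) - 3)]

end orbit

theorem orbit_gram (hG : PosDef G) (w : (S → ℤ) ≃ₗ[ℤ] (S → ℤ))
    (hw : ∀ u v, bil G (w u) (w v) = bil G u v) (p : ℕ) (hp : p.Prime) (hodd : Odd p)
    (hp1 : w ^ p = 1) (α : S → ℤ) (hα : IsRoot G α)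
    (hsum : ∑ i ∈ Finset.range p, (w ^ i) α = 0) :
    ∃ a, 0 < a ∧ a < p ∧ bil G α ((w ^ a) α) = -1 ∧ bil G α ((w ^ (p - a)) α) = -1 ∧
      ∀ i, 0 < i → i < p → i ≠ a → i ≠ p - a → bil G α ((w ^ i) α) = 0 := by
  have : Fact p.Prime := ⟨hp⟩
  have hs : ∑ i : ZMod p, ob_U w i α = 0 := by rw [← ob_sum]; exact hsum
  obtain ⟨a, ha, hca, hz⟩ := ob_shape hodd (ob_c w G α) (ob_c_zero w α hα) (ob_c_sum w α hs)
    (ob_c_neg w hw hp1 α) (fun i hi => by
      have h1 := ob_c_vals w hG hw hp1 hodd α hα hs i hi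
      have h2 := ob_no_one w hG hw hp1 hodd α hα hs i hi
      omega)
  have hcn : ∀ n : ℕ, bil G α ((w ^ n) α) = ob_c w G α (n : ZMod p) := by
    intro n
    rw [ob_c, ob_U_nat w hp1]
  have hav : 0 < a.val := Nat.pos_of_ne_zero fun h => ha ((ZMod.val_eq_zero a).mp h)
  have hcast : ((p - a.val : ℕ) : ZMod p) = -a := by
    rw [Nat.cast_sub (ZMod.val_lt a).le, ZMod.natCast_self, ZMod.natCast_zmod_val, zero_sub]
  refine ⟨a.val, hav, ZMod.val_lt a, ?_, ?_, fun i hi0 hip hia hina => ?_⟩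
  · rw [hcn, ZMod.natCast_zmod_val, hca]
  · rw [hcn, hcast, ob_c_neg w hw hp1, hca]
  · rw [hcn]
    apply hz
    · intro h
      rw [ZMod.natCast_eq_zero_iff] at h
      exact absurd (Nat.le_of_dvd hi0 h) (by omega)
    · intro h
      apply hia
      rw [← h, ZMod.val_cast_of_lt hip]
    · intro h
      apply hina
      rw [← hcast] at h
      have h1 := congrArg ZMod.val h
      rw [ZMod.val_cast_of_lt hip, ZMod.val_cast_of_lt (by omega)] at h1
      exact h1

end SPH
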