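import Pool.Agent.Lib.MP_7b9603_al.Roots
import Pool.Agent.Lib.MP_7b9603_al.PSecTop
import Pool.Agent.Lib.MP_7b9603_al.HS

section

/-! # Existence of the polynomials of the Lawrence-Krammer type representation (job K1) -/

namespace SPH

open scoped Classical
open Polynomial

universe u

set_option linter.unusedSectionVars false

variable {S : Type u} [Fintype S] [DecidableEq S] {G : SimpleGraph S}

/-- The polynomials, by recursion on the height. -/
private noncomputable def lkTT (G : SimpleGraph S) : ℕ → S → (S → ℤ) → ℤ[X]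
  | 0, _, _ => 0
  | 1, s, v => if v = sr s then X ^ 2 else 0
  | (n + 2), s, v =>
      if pr G s v = 1 then X ^ (n + 2) * (X - 1)
      else if h : ∃ t, pr G t v = 1 then
        (if G.Adj s h.choose then
          (if pr G s v = 0 then
              X * lkTT G n h.choose (v - sr s - sr h.choose) + X ^ (n + 1) * (X - 1) ^ 2
            else lkTT G (n + 1) h.choose (v - sr h.choose)
              + (X - 1) * lkTT G (n + 1) s (v - sr h.choose))
        else X * lkTT G (n + 1) s (v - sr h.choose))
      else 0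

private noncomputable def lkTP (G : SimpleGraph S) (s : S) (v : S → ℤ) : ℤ[X] :=
  lkTT G (ht v).toNat s v

private noncomputable def lkFm (G : SimpleGraph S) (s t : S) (v : S → ℤ) : ℤ[X] :=
  if G.Adj s t then
    (if pr G s v = 0 then
        X * lkTP G t (v - sr s - sr t) + X ^ ((ht v).toNat - 1) * (X - 1) ^ 2
      else lkTP G t (v - sr t) + (X - 1) * lkTP G s (v - sr t))
  else X * lkTP G s (v - sr t)

private theorem lkTP_sr (s t : S) : lkTP G s (sr t) = if sr t = (sr s : S → ℤ) then X ^ 2 else 0 := by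
  have h : (ht (sr t : S → ℤ)).toNat = 1 := by rw [ht_sr]; rfl
  rw [lkTP, h, lkTT]

private theorem sr_injective' {s t : S} (h : (sr s : S → ℤ) = sr t) : s = t := by
  by_contra hne
  have := congrFun h s
  simp [sr, hne] at this

private theorem pr_sr_self (s : S) : pr G s (sr s) = 2 := by rw [pr_sr, cart_self]

private theorem pr_sr_adj {s t : S} (h : G.Adj s t) : pr G s (sr t) = -1 := by
  rw [pr_sr, cart_adj G h]

private theorem pr_sr_far {s t : S} (hne : s ≠ t) (h : ¬ G.Adj s t) : pr G s (sr t) = 0 := by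
  rw [pr_sr, cart_not_adj G hne h]

private theorem pr_sr_ne_one (s t : S) : pr G s (sr t) ≠ 1 := by
  rw [pr_sr, cart]
  split_ifs <;> norm_num

private theorem not_simple_of_pr {v : S → ℤ} {t : S} (h : pr G t v = 1) : ∀ s, v ≠ sr s := by
  rintro s rfl
  exact pr_sr_ne_one t s h

private theorem two_le_ht (_hG : PosDef G) {v : S → ℤ} (hv : IsPos G v) (hns : ∀ s, v ≠ sr s) :
    2 ≤ (ht v).toNat := by
  have h1 := hv.ht_pos
  have h2 : ht v ≠ 1 := fun h => by
    obtain ⟨s, hs⟩ := hv.ht_eq_one h
    exact hns s hs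
  omega

private theorem lkTP_one (hG : PosDef G) {v : S → ℤ} (hv : IsPos G v) {s : S}
    (h : pr G s v = 1) : lkTP G s v = X ^ (ht v).toNat * (X - 1) := by
  have h2 := two_le_ht hG hv (not_simple_of_pr h)
  obtain ⟨n, hn⟩ : ∃ n, (ht v).toNat = n + 2 := ⟨(ht v).toNat - 2, by omega⟩
  rw [lkTP, hn, lkTT, if_pos h]

private theorem lkTP_step (hG : PosDef G) {v : S → ℤ} (hv : IsPos G v) (hns : ∀ s, v ≠ sr s)
    {s : S} (h : pr G s v ≠ 1) : ∃ t, pr G t v = 1 ∧ lkTP G s v = lkFm G s t v := by
  have h2 := two_le_ht hG hv hns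
  obtain ⟨n, hn⟩ : ∃ n, (ht v).toNat = n + 2 := ⟨(ht v).toNat - 2, by omega⟩
  have hex : ∃ t, pr G t v = 1 := hv.exists_pr_one hG hns
  refine ⟨hex.choose, hex.choose_spec, ?_⟩
  have e1 : (ht (v - sr hex.choose)).toNat = n + 1 := by
    rw [ht_sub, ht_sr]; omega
  have e2 : (ht (v - sr s - sr hex.choose)).toNat = n := by
    rw [ht_sub, ht_sub, ht_sr, ht_sr]; omega
  have e3 : n + 2 - 1 = n + 1 := by omega
  rw [lkTP, hn, lkTT, if_neg h, dif_pos hex, lkFm, lkTP, lkTP, lkTP, e1, e2, hn, e3]

/-- all identities at a given vector -/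
private structure LKOk (G : SimpleGraph S) (v : S → ℤ) : Prop where
  one : ∀ s, pr G s v = 1 → lkTP G s v = X ^ (ht v).toNat * (X - 1)
  far : ∀ s t, s ≠ t → ¬ G.Adj s t → pr G t v = 1 → lkTP G s v = X * lkTP G s (v - sr t)
  mid : ∀ s t, G.Adj s t → pr G s v = 0 → pr G t v = 1 →
    lkTP G s v = X * lkTP G t (v - sr s - sr t) + X ^ ((ht v).toNat - 1) * (X - 1) ^ 2
  low : ∀ s t, G.Adj s t → pr G s v = -1 → pr G t v = 1 →
    lkTP G s v = lkTP G t (v - sr t) + (X - 1) * lkTP G s (v - sr t)
  zero : ∀ s t, G.Adj s t → pr G s v = 0 → pr G t v = 0 → lkTP G s v = lkTP G t v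

private theorem bil_sr_sr_add {v : S → ℤ} (t t' : S) :
    bil G v (sr t + sr t') = pr G t v + pr G t' v := by
  rw [bil_add_right, bil_sr_right, bil_sr_right]

private theorem isRoot_add_of_adj {t t' : S} (h : G.Adj t t') : IsRoot G (sr t + sr t') := by
  rw [IsRoot, bil_sr_sr_add, pr_add, pr_add, pr_sr_self, pr_sr_self, pr_sr_adj h,
    pr_sr_adj h.symm]
  norm_num

private theorem sr_add_of_adj (hG : PosDef G) {v : S → ℤ} (hv : IsPos G v) {t t' : S}
    (h : G.Adj t t') (ht : pr G t v = 1) (ht' : pr G t' v = 1) : v = sr t + sr t' := by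
  by_contra hne
  have := bil_le_one hG hv.1 (isRoot_add_of_adj h) hne
  rw [bil_sr_sr_add, ht, ht'] at this
  norm_num at this

private theorem eq_sr_of_pr_two (hG : PosDef G) {v : S → ℤ} (hv : IsPos G v) {s : S}
    (h : pr G s v = 2) : v = sr s := by
  by_contra hne
  have := bil_le_one hG hv.1 (isRoot_sr G s) hne
  rw [bil_sr_right, h] at this
  norm_num at this

private theorem toNat_sub_sr {v : S → ℤ} (t : S) (h : 2 ≤ (ht v).toNat) :
    (ht (v - sr t)).toNat = (ht v).toNat - 1 := by
  rw [ht_sub, ht_sr]; omega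

private theorem lkFm_indep_aux (hG : PosDef G) {v : S → ℤ} (hv : IsPos G v)
    (ih : ∀ w, IsPos G w → (ht w).toNat < (ht v).toNat → LKOk G w)
    {s t t' : S} (hprs : pr G s v = -1 ∨ pr G s v = 0) (h : pr G t v = 1) (h' : pr G t' v = 1)
    (hne : t ≠ t') (hst' : s ≠ t') (hadj : ¬ G.Adj t t') (a1 : G.Adj s t) (a2 : ¬ G.Adj s t') :
    lkFm G s t v = lkFm G s t' v := by
  have hns := not_simple_of_pr h
  have hh := two_le_ht hG hv hns
  have hadj' : ¬ G.Adj t' t := fun h => hadj h.symm
  have p1 : IsPos G (v - sr t) := hv.sub_sr hG h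
  have p2 : IsPos G (v - sr t') := hv.sub_sr hG h'
  have q1 : pr G t' (v - sr t) = 1 := by rw [pr_sub, h', pr_sr_far hne.symm hadj']; norm_num
  have q2 : pr G t (v - sr t') = 1 := by rw [pr_sub, h, pr_sr_far hne hadj]; norm_num
  have ed : v - sr t' - sr t = v - sr t - sr t' := by abel
  have l1 : (ht (v - sr t)).toNat < (ht v).toNat := by
    rw [toNat_sub_sr t hh]; omega
  have l2 : (ht (v - sr t')).toNat < (ht v).toNat := by
    rw [toNat_sub_sr t' hh]; omega
  have hh1 := two_le_ht hG p1 (not_simple_of_pr q1)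
  have n2 := toNat_sub_sr t' hh
  obtain ⟨m, hm⟩ : ∃ m, (ht v).toNat = m + 2 := ⟨(ht v).toNat - 2, by omega⟩
  rw [hm] at n2
  have n2' : (ht (v - sr t')).toNat - 1 = m := by omega
  have hm1 : m + 2 - 1 = m + 1 := by omega
  rcases hprs with hp | hp
  · have hp0 : pr G s v ≠ 0 := by rw [hp]; norm_num
    have r5 : pr G s (v - sr t') = -1 := by
      rw [pr_sub, hp, pr_sr_far hst' a2]; norm_num
    have f1 := (ih _ p1 l1).far t t' hne hadj q1
    have f2 := (ih _ p1 l1).far s t' hst' a2 q1
    have f3 := (ih _ p2 l2).low s t a1 r5 q2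
    rw [ed] at f3
    rw [lkFm, lkFm, if_pos a1, if_neg hp0, if_neg a2, f1, f2, f3]
    ring
  · have r4 : pr G s (v - sr t) = 1 := by rw [pr_sub, hp, pr_sr_adj a1]; norm_num
    have r5 : pr G s (v - sr t') = 0 := by rw [pr_sub, hp, pr_sr_far hst' a2]; norm_num
    have p3 : IsPos G (v - sr t - sr s) := p1.sub_sr hG r4
    have r6 : pr G t' (v - sr t - sr s) = 1 := by
      rw [pr_sub, q1, pr_sr_far hst'.symm (fun h => a2 h.symm)]; norm_num
    have l3 : (ht (v - sr t - sr s)).toNat < (ht v).toNat := by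
      rw [toNat_sub_sr s hh1]; omega
    have f1 := (ih _ p3 l3).far t t' hne hadj r6
    have f3 := (ih _ p2 l2).mid s t a1 r5 q2
    have e1 : v - sr s - sr t = v - sr t - sr s := by abel
    have e2 : v - sr t' - sr s - sr t = v - sr t - sr s - sr t' := by abel
    rw [n2', e2] at f3
    rw [lkFm, lkFm, if_pos a1, if_pos hp, if_neg a2, f3, e1, f1, hm, hm1]
    ring

/-- the main step: independence of the choice -/
private theorem lkFm_indep (hG : PosDef G) {v : S → ℤ} (hv : IsPos G v)
    (ih : ∀ w, IsPos G w → (ht w).toNat < (ht v).toNat → LKOk G w)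
    {s t t' : S} (hs : pr G s v ≠ 1) (h : pr G t v = 1) (h' : pr G t' v = 1) (hne : t ≠ t') :
    lkFm G s t v = lkFm G s t' v := by
  have hns := not_simple_of_pr h
  have hh := two_le_ht hG hv hns
  have hst : s ≠ t := by rintro rfl; exact hs h
  have hst' : s ≠ t' := by rintro rfl; exact hs h'
  have hprs : pr G s v = -1 ∨ pr G s v = 0 := by
    rcases hv.pr_cases hG (hns s) with h1 | h1 | h1
    · exact Or.inl h1
    · exact Or.inr h1
    · exact absurd h1 hs
  by_cases hadj : G.Adj t t'
  · -- the case of adjacent `t`, `t'`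
    have hvt := sr_add_of_adj hG hv hadj h h'
    have e1 : v - sr t = sr t' := by rw [hvt]; abel
    have e2 : v - sr t' = sr t := by rw [hvt]; abel
    have z1 : lkTP G s (sr t') = 0 := by
      rw [lkTP_sr, if_neg (fun h => hst' (sr_injective' h).symm)]
    have z2 : lkTP G s (sr t) = 0 := by
      rw [lkTP_sr, if_neg (fun h => hst (sr_injective' h).symm)]
    have z3 : lkTP G t (sr t') = 0 := by
      rw [lkTP_sr, if_neg (fun h => hne (sr_injective' h).symm)]
    have z4 : lkTP G t' (sr t) = 0 := by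
      rw [lkTP_sr, if_neg (fun h => hne (sr_injective' h))]
    by_cases a1 : G.Adj s t
    · have a2 : ¬ G.Adj s t' := fun a2 => no_triangle hG a1 a2 hadj
      have hp : pr G s v ≠ 0 := by
        rw [hvt, pr_add, pr_sr_adj a1, pr_sr_far hst' a2]; norm_num
      rw [lkFm, lkFm, if_pos a1, if_neg hp, if_neg a2, e1, e2, z1, z2, z3]
      ring
    · by_cases a2 : G.Adj s t'
      · have hp : pr G s v ≠ 0 := by
          rw [hvt, pr_add, pr_sr_adj a2, pr_sr_far hst a1]; norm_num
        rw [lkFm, lkFm, if_neg a1, if_pos a2, if_neg hp, e1, e2, z1, z2, z4]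
        ring
      · rw [lkFm, lkFm, if_neg a1, if_neg a2, e1, e2, z1, z2]
  · -- the case of non adjacent `t`, `t'`
    have hadj' : ¬ G.Adj t' t := fun h => hadj h.symm
    have p1 : IsPos G (v - sr t) := hv.sub_sr hG h
    have p2 : IsPos G (v - sr t') := hv.sub_sr hG h'
    have q1 : pr G t' (v - sr t) = 1 := by rw [pr_sub, h', pr_sr_far hne.symm hadj']; norm_num
    have q2 : pr G t (v - sr t') = 1 := by rw [pr_sub, h, pr_sr_far hne hadj]; norm_num
    have pd : IsPos G (v - sr t - sr t') := p1.sub_sr hG q1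
    have ed : v - sr t' - sr t = v - sr t - sr t' := by abel
    have l1 : (ht (v - sr t)).toNat < (ht v).toNat := by
      rw [toNat_sub_sr t hh]; omega
    have l2 : (ht (v - sr t')).toNat < (ht v).toNat := by
      rw [toNat_sub_sr t' hh]; omega
    have hh1 := two_le_ht hG p1 (not_simple_of_pr q1)
    have hh2 := two_le_ht hG p2 (not_simple_of_pr q2)
    have n1 := toNat_sub_sr t hh
    have n2 := toNat_sub_sr t' hh
    obtain ⟨m, hm⟩ : ∃ m, (ht v).toNat = m + 2 := ⟨(ht v).toNat - 2, by omega⟩
    rw [hm] at n1 n2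
    have n1' : (ht (v - sr t)).toNat - 1 = m := by omega
    have n2' : (ht (v - sr t')).toNat - 1 = m := by omega
    have hm1 : m + 2 - 1 = m + 1 := by omega
    by_cases a1 : G.Adj s t
    · by_cases a2 : G.Adj s t'
      · -- adjacent to both
        rcases hprs with hp | hp
        · have hp0 : pr G s v ≠ 0 := by rw [hp]; norm_num
          have r1 : pr G s (v - sr t - sr t') = 1 := by
            rw [pr_sub, pr_sub, hp, pr_sr_adj a1, pr_sr_adj a2]; norm_num
          have r2 : pr G t (v - sr t - sr t') = -1 := by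
            rw [pr_sub, pr_sub, h, pr_sr_self, pr_sr_far hne hadj]; norm_num
          have r3 : pr G t' (v - sr t - sr t') = -1 := by
            rw [pr_sub, pr_sub, h', pr_sr_self, pr_sr_far hne.symm hadj']; norm_num
          have r4 : pr G s (v - sr t) = 0 := by rw [pr_sub, hp, pr_sr_adj a1]; norm_num
          have r5 : pr G s (v - sr t') = 0 := by rw [pr_sub, hp, pr_sr_adj a2]; norm_num
          have ld : (ht (v - sr t - sr t')).toNat < (ht v).toNat := by
            rw [toNat_sub_sr t' hh1]; omega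
          have f1 := (ih _ p1 l1).far t t' hne hadj q1
          have f2 := (ih _ p2 l2).far t' t hne.symm hadj' q2
          have f3 := (ih _ p1 l1).mid s t' a2 r4 q1
          have f4 := (ih _ p2 l2).mid s t a1 r5 q2
          have f5 := (ih _ pd ld).low t s a1.symm r2 r1
          have f6 := (ih _ pd ld).low t' s a2.symm r3 r1
          have eb1 : v - sr t - sr s - sr t' = v - sr t - sr t' - sr s := by abel
          have eb2 : v - sr t' - sr s - sr t = v - sr t - sr t' - sr s := by abel
          rw [n1', eb1] at f3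
          rw [n2', eb2] at f4
          rw [ed] at f2
          rw [lkFm, lkFm, if_pos a1, if_neg hp0, if_pos a2, if_neg hp0, f1, f2, f3, f4, f5, f6]
          ring
        · have r1 : pr G s (v - sr t - sr t') = 2 := by
            rw [pr_sub, pr_sub, hp, pr_sr_adj a1, pr_sr_adj a2]; norm_num
          have hd := eq_sr_of_pr_two hG pd r1
          have e1 : v - sr s - sr t = sr t' := by rw [← hd]; abel
          have e2 : v - sr s - sr t' = sr t := by rw [← hd]; abel
          have z3 : lkTP G t (sr t') = 0 := by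
            rw [lkTP_sr, if_neg (fun h => hne (sr_injective' h).symm)]
          have z4 : lkTP G t' (sr t) = 0 := by
            rw [lkTP_sr, if_neg (fun h => hne (sr_injective' h))]
          rw [lkFm, lkFm, if_pos a1, if_pos hp, if_pos a2, if_pos hp, e1, e2, z3, z4]
      · -- adjacent to `t`, far from `t'`
        exact lkFm_indep_aux hG hv ih hprs h h' hne hst' hadj a1 a2
    · by_cases a2 : G.Adj s t'
      · exact (lkFm_indep_aux hG hv ih hprs h' h hne.symm hst hadj' a2 a1).symm
      · -- far from both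
        have f1 := (ih _ p1 l1).far s t' hst' a2 q1
        have f2 := (ih _ p2 l2).far s t hst a1 q2
        rw [lkFm, lkFm, if_neg a1, if_neg a2, f1, f2, ed]

private theorem lkTP_eq_lkFm (hG : PosDef G) {v : S → ℤ} (hv : IsPos G v)
    (ih : ∀ w, IsPos G w → (ht w).toNat < (ht v).toNat → LKOk G w)
    {s t : S} (hs : pr G s v ≠ 1) (h : pr G t v = 1) : lkTP G s v = lkFm G s t v := by
  obtain ⟨t0, ht0, h0⟩ := lkTP_step hG hv (not_simple_of_pr h) hs
  rw [h0]
  by_cases hne : t0 = t
  · rw [hne]
  · exact lkFm_indep hG hv ih hs ht0 h hne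

private theorem lkOk_far (hG : PosDef G) {v : S → ℤ} (hv : IsPos G v)
    (ih : ∀ w, IsPos G w → (ht w).toNat < (ht v).toNat → LKOk G w)
    {s t : S} (hne : s ≠ t) (hadj : ¬ G.Adj s t) (h : pr G t v = 1) :
    lkTP G s v = X * lkTP G s (v - sr t) := by
  have hh := two_le_ht hG hv (not_simple_of_pr h)
  by_cases hs : pr G s v = 1
  · have p1 : IsPos G (v - sr t) := hv.sub_sr hG h
    have q1 : pr G s (v - sr t) = 1 := by rw [pr_sub, hs, pr_sr_far hne hadj]; norm_num
    rw [lkTP_one hG hv hs, lkTP_one hG p1 q1, toNat_sub_sr t hh]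
    obtain ⟨m, hm⟩ : ∃ m, (ht v).toNat = m + 1 := ⟨(ht v).toNat - 1, by omega⟩
    rw [hm, Nat.add_sub_cancel, pow_succ]
    ring
  · rw [lkTP_eq_lkFm hG hv ih hs h, lkFm, if_neg hadj]

private theorem lkOk_mid (hG : PosDef G) {v : S → ℤ} (hv : IsPos G v)
    (ih : ∀ w, IsPos G w → (ht w).toNat < (ht v).toNat → LKOk G w)
    {s t : S} (hadj : G.Adj s t) (hs : pr G s v = 0) (h : pr G t v = 1) :
    lkTP G s v = X * lkTP G t (v - sr s - sr t) + X ^ ((ht v).toNat - 1) * (X - 1) ^ 2 := by
  have hs1 : pr G s v ≠ 1 := by rw [hs]; norm_num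
  rw [lkTP_eq_lkFm hG hv ih hs1 h, lkFm, if_pos hadj, if_pos hs]

private theorem lkOk_low (hG : PosDef G) {v : S → ℤ} (hv : IsPos G v)
    (ih : ∀ w, IsPos G w → (ht w).toNat < (ht v).toNat → LKOk G w)
    {s t : S} (hadj : G.Adj s t) (hs : pr G s v = -1) (h : pr G t v = 1) :
    lkTP G s v = lkTP G t (v - sr t) + (X - 1) * lkTP G s (v - sr t) := by
  have hs1 : pr G s v ≠ 1 := by rw [hs]; norm_num
  have hs0 : pr G s v ≠ 0 := by rw [hs]; norm_num
  rw [lkTP_eq_lkFm hG hv ih hs1 h, lkFm, if_pos hadj, if_neg hs0]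

private theorem lkOk_zero_aux (hG : PosDef G) {v : S → ℤ} (hv : IsPos G v)
    (ih : ∀ w, IsPos G w → (ht w).toNat < (ht v).toNat → LKOk G w)
    {s t u : S} (hadj : G.Adj s t) (hs : pr G s v = 0) (ht0 : pr G t v = 0) (hu : pr G u v = 1)
    (hut : t ≠ u) (a1 : G.Adj s u) (a2 : ¬ G.Adj t u) :
    lkTP G s v = lkTP G t v := by
  have hh := two_le_ht hG hv (not_simple_of_pr hu)
  have p1 : IsPos G (v - sr u) := hv.sub_sr hG hu
  have q1 : pr G s (v - sr u) = 1 := by rw [pr_sub, hs, pr_sr_adj a1]; norm_num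
  have q2 : pr G t (v - sr u) = 0 := by rw [pr_sub, ht0, pr_sr_far hut a2]; norm_num
  have l1 : (ht (v - sr u)).toNat < (ht v).toNat := by
    rw [toNat_sub_sr u hh]; omega
  have hh1 := two_le_ht hG p1 (not_simple_of_pr q1)
  have p2 : IsPos G (v - sr u - sr s) := p1.sub_sr hG q1
  have q3 : pr G t (v - sr u - sr s) = 1 := by rw [pr_sub, q2, pr_sr_adj hadj.symm]; norm_num
  have l2 : (ht (v - sr u - sr s)).toNat < (ht v).toNat := by
    rw [toNat_sub_sr s hh1]; omega
  have hh2 := two_le_ht hG p2 (not_simple_of_pr q3)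
  have p3 : IsPos G (v - sr u - sr s - sr t) := p2.sub_sr hG q3
  have l3 : (ht (v - sr u - sr s - sr t)).toNat < (ht v).toNat := by
    rw [toNat_sub_sr t hh2]; omega
  have hus : ¬ G.Adj u t := fun h => a2 h.symm
  have q4 : pr G s (v - sr u - sr s - sr t) = 0 := by
    rw [pr_sub, pr_sub, q1, pr_sr_self, pr_sr_adj hadj]; norm_num
  have q5 : pr G u (v - sr u - sr s - sr t) = 0 := by
    rw [pr_sub, pr_sub, pr_sub, hu, pr_sr_self, pr_sr_adj a1.symm, pr_sr_far hut.symm hus]
    norm_num
  have f1 := lkOk_mid hG hv ih a1 hs hu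
  have f2 := lkOk_far hG hv ih hut a2 hu
  have f3 := (ih _ p1 l1).mid t s hadj.symm q2 q1
  have f4 := (ih _ p2 l2).far u t hut.symm hus q3
  have f5 := (ih _ p3 l3).zero s u a1 q4 q5
  have e1 : v - sr s - sr u = v - sr u - sr s := by abel
  have e2 : v - sr u - sr t - sr s = v - sr u - sr s - sr t := by abel
  obtain ⟨m, hm⟩ : ∃ m, (ht v).toNat = m + 2 := ⟨(ht v).toNat - 2, by omega⟩
  have n2 := toNat_sub_sr u hh
  rw [hm] at n2
  have n2' : (ht (v - sr u)).toNat - 1 = m := by omega
  have hm1 : m + 2 - 1 = m + 1 := by omega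
  rw [n2', e2] at f3
  rw [f1, f2, f3, e1, f4, f5, hm, hm1]
  ring

private theorem lkOk_zero (hG : PosDef G) {v : S → ℤ} (hv : IsPos G v)
    (ih : ∀ w, IsPos G w → (ht w).toNat < (ht v).toNat → LKOk G w)
    {s t : S} (hadj : G.Adj s t) (hs : pr G s v = 0) (ht0 : pr G t v = 0) :
    lkTP G s v = lkTP G t v := by
  by_cases hns : ∀ u, v ≠ sr u
  · obtain ⟨u, hu⟩ := hv.exists_pr_one hG hns
    have hsu : s ≠ u := by rintro rfl; rw [hs] at hu; norm_num at hu
    have htu : t ≠ u := by rintro rfl; rw [ht0] at hu; norm_num at hu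
    by_cases a1 : G.Adj s u
    · have a2 : ¬ G.Adj t u := no_triangle hG hadj a1
      exact lkOk_zero_aux hG hv ih hadj hs ht0 hu htu a1 a2
    · by_cases a2 : G.Adj t u
      · exact (lkOk_zero_aux hG hv ih hadj.symm ht0 hs hu hsu a2 a1).symm
      · have hh := two_le_ht hG hv hns
        have p1 : IsPos G (v - sr u) := hv.sub_sr hG hu
        have l1 : (ht (v - sr u)).toNat < (ht v).toNat := by
          rw [toNat_sub_sr u hh]; omega
        have q1 : pr G s (v - sr u) = 0 := by rw [pr_sub, hs, pr_sr_far hsu a1]; norm_num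
        have q2 : pr G t (v - sr u) = 0 := by rw [pr_sub, ht0, pr_sr_far htu a2]; norm_num
        rw [lkOk_far hG hv ih hsu a1 hu, lkOk_far hG hv ih htu a2 hu,
          (ih _ p1 l1).zero s t hadj q1 q2]
  · push Not at hns
    obtain ⟨u, rfl⟩ := hns
    have hsu : s ≠ u := by rintro rfl; rw [pr_sr_self] at hs; norm_num at hs
    have htu : t ≠ u := by rintro rfl; rw [pr_sr_self] at ht0; norm_num at ht0
    rw [lkTP_sr, lkTP_sr, if_neg (fun h => hsu (sr_injective' h).symm),
      if_neg (fun h => htu (sr_injective' h).symm)]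

private theorem lkOk_all (hG : PosDef G) : ∀ (n : ℕ) (v : S → ℤ), IsPos G v →
    (ht v).toNat = n → LKOk G v := by
  intro n
  induction n using Nat.strong_induction_on with
  | _ n IH =>
    intro v hv hn
    have ih : ∀ w, IsPos G w → (ht w).toNat < (ht v).toNat → LKOk G w := by
      intro w hw hlt
      exact IH _ (hn ▸ hlt) w hw rfl
    exact ⟨fun s h => lkTP_one hG hv h, fun s t hne hadj h => lkOk_far hG hv ih hne hadj h,
      fun s t hadj hs h => lkOk_mid hG hv ih hadj hs h,
      fun s t hadj hs h => lkOk_low hG hv ih hadj hs h,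
      fun s t hadj hs h => lkOk_zero hG hv ih hadj hs h⟩

private theorem lk_spec (hG : PosDef G) : ∀ (n : ℕ) (s : S) (v : S → ℤ), IsPos G v →
    (ht v).toNat = n → v ≠ sr s → (lkTP G s v).eval 1 = 0 := by
  intro n
  induction n using Nat.strong_induction_on with
  | _ n IH =>
    intro s v hv hn hne
    by_cases hns : ∀ u, v ≠ sr u
    · have hh := two_le_ht hG hv hns
      by_cases hs : pr G s v = 1
      · rw [lkTP_one hG hv hs]
        simp
      · obtain ⟨t, ht0, h0⟩ := lkTP_step hG hv hns hs
        have hst : s ≠ t := by rintro rfl; exact hs ht0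
        have p1 : IsPos G (v - sr t) := hv.sub_sr hG ht0
        have l1 : (ht (v - sr t)).toNat < n := by
          rw [toNat_sub_sr t hh]; omega
        rw [h0, lkFm]
        by_cases hadj : G.Adj s t
        · rw [if_pos hadj]
          by_cases hp : pr G s v = 0
          · rw [if_pos hp]
            have q1 : pr G s (v - sr t) = 1 := by rw [pr_sub, hp, pr_sr_adj hadj]; norm_num
            have p2 : IsPos G (v - sr t - sr s) := p1.sub_sr hG q1
            have hh1 := two_le_ht hG p1 (not_simple_of_pr q1)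
            have l2 : (ht (v - sr t - sr s)).toNat < n := by
              rw [toNat_sub_sr s hh1, toNat_sub_sr t hh]; omega
            have e1 : v - sr s - sr t = v - sr t - sr s := by abel
            have hne2 : v - sr t - sr s ≠ sr t := by
              intro h
              have h2 : v = sr t + sr s + sr t := by
                calc v = (v - sr t - sr s) + sr s + sr t := by abel
                  _ = sr t + sr s + sr t := by rw [h]
              rw [h2, pr_add, pr_add, pr_sr_self, pr_sr_adj hadj.symm] at ht0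
              norm_num at ht0
            have := IH _ l2 t _ p2 rfl hne2
            rw [e1, eval_add, eval_mul, this]
            simp
          · rw [if_neg hp]
            have hne2 : v - sr t ≠ sr t := by
              intro h
              have h2 : v = sr t + sr t := by
                calc v = (v - sr t) + sr t := by abel
                  _ = sr t + sr t := by rw [h]
              rw [h2, pr_add, pr_sr_self] at ht0
              norm_num at ht0
            have := IH _ l1 t _ p1 rfl hne2
            rw [eval_add, eval_mul, this]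
            simp
        · rw [if_neg hadj]
          have hne2 : v - sr t ≠ sr s := by
            intro h
            have h2 : v = sr t + sr s := by rw [← h]; abel
            rw [h2, pr_add, pr_sr_self, pr_sr_far hst.symm (fun h => hadj h.symm)] at ht0
            norm_num at ht0
          have := IH _ l1 s _ p1 rfl hne2
          rw [eval_mul, this, mul_zero]
    · push Not at hns
      obtain ⟨u, rfl⟩ := hns
      rw [lkTP_sr, if_neg hne, eval_zero]

theorem exists_TData (hG : PosDef G) : Nonempty (TData G) :=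
  ⟨{ T := lkTP G
     self := fun s => by rw [lkTP_sr, if_pos rfl]
     other := fun s t hne => by rw [lkTP_sr, if_neg (fun h => hne (sr_injective' h).symm)]
     one := fun s v hv h => (lkOk_all hG _ v hv rfl).one s h
     far := fun s t v hne hadj hv h => (lkOk_all hG _ v hv rfl).far s t hne hadj h
     mid := fun s t v hadj hv hs h => (lkOk_all hG _ v hv rfl).mid s t hadj hs h
     low := fun s t v hadj hv hs h => (lkOk_all hG _ v hv rfl).low s t hadj hs h
     zero := fun s t v hadj hv hs h => (lkOk_all hG _ v hv rfl).zero s t hadj hs h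
     spec := fun s v hv hne => lk_spec hG _ s v hv rfl hne }⟩

end SPH
end

section

section

/-! # Action of the blocks (job V3) -/

namespace SPH

open scoped Classical

universe u

set_option linter.unusedSectionVars false

variable {S : Type u} [Fintype S] [DecidableEq S] (M : CoxeterMatrix S)

theorem not_adj_same (s : S) (i j : UI M) : ¬ (unf M).Adj (s, i) (s, j) := fun h => h.1 rfl

private theorem v3_cart_same (s : S) {i j : UI M} (h : i ≠ j) :
    cart (unf M) (s, i) (s, j) = 0 :=
  cart_not_adj (unf M) (fun h1 => h (congrArg Prod.snd h1)) (not_adj_same M s i j)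

private theorem v3_pr_sum (s : S) (v : S × UI M → ℤ) (i : UI M) :
    ∀ L : List (UI M), i ∉ L →
      pr (unf M) (s, i) (L.map fun j => pr (unf M) (s, j) v • sr (s, j)).sum = 0
  | [], _ => by rw [List.map_nil, List.sum_nil, pr_zero]
  | j :: L, h => by
    rw [List.mem_cons, not_or] at h
    rw [List.map_cons, List.sum_cons, pr_add, v3_pr_sum s v i L h.2, pr_smul, pr_sr,
      v3_cart_same M s h.1]
    ring

private theorem v3_act (s : S) (v : S × UI M → ℤ) :
    ∀ L : List (UI M), L.Nodup →
      toW (unf M) (wd (unf M) (L.map fun i => (s, i))) v =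
        v - (L.map fun j => pr (unf M) (s, j) v • sr (s, j)).sum
  | [], _ => by
    rw [List.map_nil, List.map_nil, List.sum_nil, weyl_wd_nil, weyl_toW_one_apply, sub_zero]
  | i :: L, h => by
    rw [List.nodup_cons] at h
    rw [List.map_cons, List.map_cons, List.sum_cons, weyl_wd_cons, weyl_toW_mul_apply,
      v3_act s v L h.2, weyl_toW_gen_apply, rf, pr_sub, v3_pr_sum M s v i L h.1, sub_zero]
    abel

private theorem v3_fix (s : S) (i : UI M) (L : List (UI M)) (hL : L.Nodup) (hi : i ∉ L) :
    toW (unf M) (wd (unf M) (L.map fun i => (s, i)))⁻¹ (sr (s, i)) = sr (s, i) := by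
  have h1 : toW (unf M) (wd (unf M) (L.map fun i => (s, i))) (sr (s, i)) = sr (s, i) := by
    rw [v3_act M s _ L hL]
    have h2 : (L.map fun j => pr (unf M) (s, j) (sr (s, i)) • sr (s, j) :
        List (S × UI M → ℤ)).sum = 0 := by
      apply List.sum_eq_zero
      intro x hx
      obtain ⟨j, hj, rfl⟩ := List.mem_map.1 hx
      have hji : j ≠ i := fun h => hi (h ▸ hj)
      rw [pr_sr, v3_cart_same M s hji, zero_smul]
    rw [h2, sub_zero]
  conv_lhs => rw [← h1]
  rw [weyl_toW_inv_apply]

theorem toW_bgen (s : S) (v : S × UI M → ℤ) :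
    toW (unf M) (bgen M s) v = v - ∑ i, pr (unf M) (s, i) v • sr (s, i) := by
  rw [bgen, block, v3_act M s v _ (Finset.nodup_toList _), Finset.sum_map_toList]

theorem toW_bgen_inv (s : S) : (toW (unf M) (bgen M s))⁻¹ = toW (unf M) (bgen M s) := by
  apply inv_eq_of_mul_eq_one_left
  refine LinearEquiv.ext fun v => ?_
  change toW (unf M) (bgen M s) (toW (unf M) (bgen M s) v) = v
  rw [toW_bgen M s (toW (unf M) (bgen M s) v)]
  have h1 : ∀ j, pr (unf M) (s, j) (toW (unf M) (bgen M s) v) = - pr (unf M) (s, j) v := by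
    intro j
    rw [toW_bgen, pr_sub]
    have h2 : pr (unf M) (s, j) (∑ i, pr (unf M) (s, i) v • sr (s, i)) =
        2 * pr (unf M) (s, j) v := by
      rw [← bil_sr_right, bil_sum_left, Finset.sum_eq_single j]
      · rw [bil_smul_left, bil_sr_left, pr_sr, cart_self]; ring
      · intro i _ hij
        rw [bil_smul_left, bil_sr_left, pr_sr, v3_cart_same M s hij, mul_zero]
      · intro h; exact absurd (Finset.mem_univ j) h
    rw [h2]; ring
  rw [Finset.sum_congr rfl fun j _ => by rw [h1 j, neg_smul], Finset.sum_neg_distrib,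
    sub_neg_eq_add, toW_bgen, sub_add_cancel]

private theorem v3_reduced (hG : PosDef (unf M)) (s : S) (l : List (S × UI M))
    (hl : lenN (unf M) (wd (unf M) l) = l.length) :
    ∀ L : List (UI M), L.Nodup →
      (∀ i ∈ L, IsPos (unf M) (toW (unf M) (wd (unf M) l)⁻¹ (sr (s, i)))) →
      lenN (unf M) (wd (unf M) ((L.map fun i => (s, i)) ++ l)) = L.length + l.length
  | [], _, _ => by
    rw [List.map_nil, List.nil_append, hl, List.length_nil, zero_add]
  | i :: L, hL, h => by
    rw [List.nodup_cons] at hL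
    have ih := v3_reduced hG s l hl L hL.2 (fun j hj => h j (List.mem_cons_of_mem _ hj))
    rw [List.map_cons, List.cons_append, weyl_wd_cons, lenN_gen_mul_of_pos hG, ih,
      List.length_cons]
    · ring
    · rw [wd_append, mul_inv_rev, weyl_toW_mul_apply, v3_fix M s i L hL.2 hL.1]
      exact h i List.mem_cons_self

theorem block_reduced (hG : PosDef (unf M)) (s : S) (l : List (S × UI M))
    (hl : lenN (unf M) (wd (unf M) l) = l.length)
    (h : ∀ i, IsPos (unf M) (toW (unf M) (wd (unf M) l)⁻¹ (sr (s, i)))) :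
    lenN (unf M) (wd (unf M) (block M s ++ l)) = (block M s ++ l).length := by
  rw [block, v3_reduced M hG s l hl _ (Finset.nodup_toList _) (fun i _ => h i),
    List.length_append, List.length_map]

private theorem v3_len (hG : PosDef (unf M)) (a : S × UI M) (l : List (S × UI M))
    (hred : lenN (unf M) (wd (unf M) (a :: l)) = (a :: l).length) :
    lenN (unf M) (wd (unf M) l) = l.length ∧
      IsPos (unf M) (toW (unf M) (wd (unf M) l)⁻¹ (sr a)) := by
  have h1 := lenN_wd_le hG l
  rw [weyl_wd_cons, List.length_cons] at hred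
  have hr : IsRoot (unf M) (toW (unf M) (wd (unf M) l)⁻¹ (sr a)) :=
    isRoot_toW _ _ (isRoot_sr _ a)
  rcases hr.pos_or_neg hG with hp | hn
  · have h2 := lenN_gen_mul_of_pos hG a (wd (unf M) l) hp
    exact ⟨by omega, hp⟩
  · have h2 := lenN_gen_mul_of_neg hG a (wd (unf M) l) hn
    omega

private theorem v3_of_reduced (hG : PosDef (unf M)) (s : S) (l : List (S × UI M)) :
    ∀ L : List (UI M), L.Nodup →
      lenN (unf M) (wd (unf M) ((L.map fun i => (s, i)) ++ l)) =
        ((L.map fun i => (s, i)) ++ l).length →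
      lenN (unf M) (wd (unf M) l) = l.length ∧
        ∀ i ∈ L, IsPos (unf M) (toW (unf M) (wd (unf M) l)⁻¹ (sr (s, i)))
  | [], _, h => ⟨h, fun i hi => absurd hi List.not_mem_nil⟩
  | i :: L, hL, h => by
    rw [List.nodup_cons] at hL
    obtain ⟨h1, h2⟩ := v3_len M hG (s, i) ((L.map fun i => (s, i)) ++ l) h
    obtain ⟨h3, h4⟩ := v3_of_reduced hG s l L hL.2 h1
    refine ⟨h3, fun j hj => ?_⟩
    rcases List.mem_cons.1 hj with rfl | hj
    · rw [wd_append, mul_inv_rev, weyl_toW_mul_apply, v3_fix M s _ L hL.2 hL.1] at h2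
      exact h2
    · exact h4 j hj

/-- If the word `block s ++ l` is reduced then so is `l`, and all `sr (s, i)` are positive
under `(toW l)⁻¹`. -/
theorem of_block_reduced (hG : PosDef (unf M)) (s : S) (l : List (S × UI M))
    (h : lenN (unf M) (wd (unf M) (block M s ++ l)) = (block M s ++ l).length) :
    lenN (unf M) (wd (unf M) l) = l.length ∧
      ∀ i, IsPos (unf M) (toW (unf M) (wd (unf M) l)⁻¹ (sr (s, i))) := by
  obtain ⟨h1, h2⟩ := v3_of_reduced M hG s l _ (Finset.nodup_toList _) h
  exact ⟨h1, fun i => h2 i (by simp)⟩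

end SPH
end

section

/-! # The paths over a pair of vertices (job V4) -/

namespace SPH

open scoped Classical

universe u

set_option linter.unusedSectionVars false

variable {S : Type u} [Fintype S] [DecidableEq S] (M : CoxeterMatrix S)

/-- Interval root of the path over `{s,t}` through `i` (positions `a..b`). -/
noncomputable def iv (s t : S) (i : UI M) (a b : ℕ) : S × UI M → ℤ :=
  ∑ k ∈ Finset.Icc a b, sr (pnode M s t i k)

private theorem upd_self (i : UI M) (e : Sym2 S) (k : ℕ) (hk : k + 1 < lab M e) :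
    (upd M i e k e).val = k := by
  unfold upd Function.update
  rw [dif_pos rfl]
  show min k (max 1 (lab M e - 1) - 1) = k
  omega

private theorem upd_ne (i : UI M) (e e' : Sym2 S) (k : ℕ) (h : e' ≠ e) :
    upd M i e k e' = i e' := by
  unfold upd Function.update
  rw [dif_neg h]

private theorem upd_val (i : UI M) (e : Sym2 S) : upd M i e (i e).val = i := by
  funext e'
  by_cases h' : e' = e
  · subst h'
    have h := (i e').isLt
    unfold upd Function.update
    rw [dif_pos rfl]
    apply Fin.ext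
    show min (i e').val (max 1 (lab M e' - 1) - 1) = (i e').val
    omega
  · exact upd_ne M i e e' _ h'

private theorem pnode_fst (s t : S) (i : UI M) (k : ℕ) :
    (pnode M s t i k).1 = if Even k then s else t := rfl

private theorem pnode_snd (s t : S) (i : UI M) (k : ℕ) :
    (pnode M s t i k).2 = upd M i s(s, t) k := rfl

private theorem pnode_snd_self (s t : S) (i : UI M) (k : ℕ) (hk : k + 1 < M s t) :
    ((pnode M s t i k).2 s(s, t)).val = k := upd_self M i s(s, t) k hk

private theorem pnode_pair (s t : S) (i : UI M) (k k' : ℕ) (h : ¬ (Even k ↔ Even k')) :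
    s((pnode M s t i k).1, (pnode M s t i k').1) = s(s, t) := by
  rw [pnode_fst, pnode_fst]
  by_cases h1 : Even k <;> by_cases h2 : Even k'
  · exact absurd ⟨fun _ => h2, fun _ => h1⟩ h
  · rw [if_pos h1, if_neg h2]
  · rw [if_neg h1, if_pos h2]; exact Sym2.eq_swap
  · exact absurd ⟨fun h3 => absurd h3 h1, fun h3 => absurd h3 h2⟩ h

theorem pnode_adj (s t : S) (hst : s ≠ t) (i : UI M) (k k' : ℕ) (hk : k + 1 < M s t)
    (hk' : k' + 1 < M s t) :
    (unf M).Adj (pnode M s t i k) (pnode M s t i k') ↔ (k + 1 = k' ∨ k' + 1 = k) := by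
  by_cases hpar : Even k ↔ Even k'
  · constructor
    · rintro ⟨h1, -, -⟩
      exfalso
      apply h1
      rw [pnode_fst, pnode_fst]
      by_cases h2 : Even k
      · rw [if_pos h2, if_pos (hpar.1 h2)]
      · rw [if_neg h2, if_neg (fun h3 => h2 (hpar.2 h3))]
    · intro h
      exfalso
      rw [Nat.even_iff, Nat.even_iff] at hpar
      omega
  · constructor
    · rintro ⟨-, -, h3⟩
      rw [pnode_pair M s t i k k' hpar, pnode_snd_self M s t i k hk,
        pnode_snd_self M s t i k' hk'] at h3
      exact h3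
    · intro h
      refine ⟨?_, ?_, ?_⟩
      · rw [pnode_fst, pnode_fst]
        by_cases h1 : Even k <;> by_cases h2 : Even k'
        · exact absurd ⟨fun _ => h2, fun _ => h1⟩ hpar
        · rw [if_pos h1, if_neg h2]; exact hst
        · rw [if_neg h1, if_pos h2]; exact hst.symm
        · exact absurd ⟨fun h3 => absurd h3 h1, fun h3 => absurd h3 h2⟩ hpar
      · intro e he
        rw [pnode_pair M s t i k k' hpar] at he
        rw [pnode_snd, pnode_snd, upd_ne M i _ e k he, upd_ne M i _ e k' he]
      · rw [pnode_pair M s t i k k' hpar, pnode_snd_self M s t i k hk,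
          pnode_snd_self M s t i k' hk']
        exact h

theorem pnode_inj (s t : S) (hst : s ≠ t) (i : UI M) (k k' : ℕ) (hk : k + 1 < M s t)
    (hk' : k' + 1 < M s t) (h : pnode M s t i k = pnode M s t i k') : k = k' := by
  rw [← pnode_snd_self M s t i k hk, ← pnode_snd_self M s t i k' hk', h]

/-- The neighbours over `s` or `t` of a path vertex are path vertices. -/
theorem adj_pnode (s t : S) (hst : s ≠ t) (i : UI M) (k : ℕ) (hk : k + 1 < M s t)
    (x : S × UI M) (hx : x.1 = s ∨ x.1 = t) (h : (unf M).Adj x (pnode M s t i k)) :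
    ∃ k', k' + 1 < M s t ∧ x = pnode M s t i k' ∧ (k + 1 = k' ∨ k' + 1 = k) := by
  obtain ⟨h1, h2, h3⟩ := h
  have hpair : s(x.1, (pnode M s t i k).1) = s(s, t) := by
    rw [pnode_fst] at h1 ⊢
    by_cases hk2 : Even k
    · rw [if_pos hk2] at h1 ⊢
      rcases hx with hx | hx
      · exact absurd hx h1
      · rw [hx]; exact Sym2.eq_swap
    · rw [if_neg hk2] at h1 ⊢
      rcases hx with hx | hx
      · rw [hx]
      · exact absurd hx h1
  rw [hpair] at h2 h3
  rw [pnode_snd_self M s t i k hk] at h3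
  have hlt : (x.2 s(s, t)).val < max 1 (M s t - 1) := (x.2 s(s, t)).isLt
  have hk'' : (x.2 s(s, t)).val + 1 < M s t := by omega
  refine ⟨(x.2 s(s, t)).val, hk'', ?_, by omega⟩
  refine Prod.ext ?_ ?_
  · rw [pnode_fst]
    have hx1 : x.1 ≠ if Even k then s else t := h1
    have hpar : Even k ↔ ¬ Even (x.2 s(s, t)).val := by
      rw [Nat.even_iff, Nat.even_iff]; omega
    by_cases hk2 : Even k
    · rw [if_neg (hpar.1 hk2)]
      rw [if_pos hk2] at hx1
      exact hx.resolve_left hx1
    · rw [if_pos (by by_contra h4; exact hk2 (hpar.2 h4))]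
      rw [if_neg hk2] at hx1
      exact hx.resolve_right hx1
  · funext e
    rw [pnode_snd]
    by_cases he : e = s(s, t)
    · subst he
      exact Fin.ext (upd_self M i s(s, t) _ hk'').symm
    · rw [upd_ne M i _ e _ he, h2 e he, pnode_snd, upd_ne M i _ e _ he]

/-- Every vertex over `s` lies on a path: for parity reasons start over `s` or over `t`. -/
theorem exists_pnode (s t : S) (hst : s ≠ t) (hm : 2 ≤ M s t) (i : UI M) :
    ∃ k, k + 1 < M s t ∧
      ((Even k ∧ (s, i) = pnode M s t i k) ∨ (¬ Even k ∧ (s, i) = pnode M t s i k)) := by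
  have hlt : (i s(s, t)).val < max 1 (M s t - 1) := (i s(s, t)).isLt
  refine ⟨(i s(s, t)).val, by omega, ?_⟩
  by_cases hk : Even (i s(s, t)).val
  · refine Or.inl ⟨hk, ?_⟩
    rw [pnode, if_pos hk, upd_val]
  · refine Or.inr ⟨hk, ?_⟩
    rw [pnode, if_neg hk, Sym2.eq_swap, upd_val]

private theorem pr_sum {ι : Type*} (G : SimpleGraph (S × UI M)) (x : S × UI M) (F : Finset ι)
    (f : ι → S × UI M → ℤ) : pr G x (∑ k ∈ F, f k) = ∑ k ∈ F, pr G x (f k) := by
  rw [← bil_sr_right, bil_sum_left]
  exact Finset.sum_congr rfl fun k _ => bil_sr_right G x (f k)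

private theorem pr_iv (s t : S) (hst : s ≠ t) (i : UI M) (a b k : ℕ)
    (hb : b + 1 < M s t) (hk : k + 1 < M s t) :
    pr (unf M) (pnode M s t i k) (iv M s t i a b) =
      (if a ≤ k ∧ k ≤ b then 2 else 0) - (if a ≤ k + 1 ∧ k + 1 ≤ b then 1 else 0) -
        (if 1 ≤ k ∧ a ≤ k - 1 ∧ k - 1 ≤ b then 1 else 0) := by
  unfold iv
  rw [pr_sum]
  have h1 : ∀ k' ∈ Finset.Icc a b, pr (unf M) (pnode M s t i k) (sr (pnode M s t i k')) =
      (if k = k' then 2 else 0) - (if k + 1 = k' then 1 else 0) - (if k = k' + 1 then 1 else 0) := by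
    intro k' hk'
    rw [Finset.mem_Icc] at hk'
    have hk1 : k' + 1 < M s t := by omega
    rw [pr_sr]
    unfold cart
    rw [pnode_adj M s t hst i k k' hk hk1]
    have h2 : (pnode M s t i k = pnode M s t i k') ↔ k = k' :=
      ⟨pnode_inj M s t hst i k k' hk hk1, fun h => by rw [h]⟩
    simp only [h2]
    split_ifs <;> omega
  rw [Finset.sum_congr rfl h1, Finset.sum_sub_distrib, Finset.sum_sub_distrib, Finset.sum_ite_eq,
    Finset.sum_ite_eq]
  have h3 : ∑ k' ∈ Finset.Icc a b, (if k = k' + 1 then (1 : ℤ) else 0) =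
      if 1 ≤ k ∧ a ≤ k - 1 ∧ k - 1 ≤ b then 1 else 0 := by
    rcases Nat.eq_zero_or_pos k with rfl | hk0
    · rw [if_neg (by omega)]
      exact Finset.sum_eq_zero fun k' _ => if_neg (by omega)
    · have h4 : ∀ k' ∈ Finset.Icc a b, (if k = k' + 1 then (1 : ℤ) else 0) =
          if k - 1 = k' then 1 else 0 := by
        intro k' _
        by_cases h5 : k = k' + 1
        · rw [if_pos h5, if_pos (by omega)]
        · rw [if_neg h5, if_neg (by omega)]
      rw [Finset.sum_congr rfl h4, Finset.sum_ite_eq]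
      simp only [Finset.mem_Icc]
      by_cases h6 : a ≤ k - 1 ∧ k - 1 ≤ b
      · rw [if_pos h6, if_pos ⟨hk0, h6⟩]
      · rw [if_neg h6, if_neg (fun h7 => h6 h7.2)]
  rw [h3]
  simp only [Finset.mem_Icc]

private theorem iv_apply_pnode (s t : S) (hst : s ≠ t) (i : UI M) (a b k : ℕ)
    (hb : b + 1 < M s t) (hk : k + 1 < M s t) :
    iv M s t i a b (pnode M s t i k) = if a ≤ k ∧ k ≤ b then 1 else 0 := by
  unfold iv
  rw [Finset.sum_apply]
  have h1 : ∀ k' ∈ Finset.Icc a b, sr (pnode M s t i k') (pnode M s t i k) =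
      if k = k' then (1 : ℤ) else 0 := by
    intro k' hk'
    rw [Finset.mem_Icc] at hk'
    have hk1 : k' + 1 < M s t := by omega
    have h2 : (pnode M s t i k = pnode M s t i k') ↔ k = k' :=
      ⟨pnode_inj M s t hst i k k' hk hk1, fun h => by rw [h]⟩
    unfold sr
    rw [Pi.single_apply]
    simp only [h2]
  rw [Finset.sum_congr rfl h1, Finset.sum_ite_eq]
  simp only [Finset.mem_Icc]

private theorem iv_apply_other (s t : S) (i : UI M) (a b : ℕ)
    (hb : b + 1 < M s t) (x : S × UI M) (hx : ∀ k, k + 1 < M s t → x ≠ pnode M s t i k) :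
    iv M s t i a b x = 0 := by
  unfold iv
  rw [Finset.sum_apply]
  refine Finset.sum_eq_zero fun k hk => ?_
  rw [Finset.mem_Icc] at hk
  unfold sr
  rw [Pi.single_apply, if_neg (hx k (by omega))]

private theorem pr_iv_other (s t : S) (hst : s ≠ t) (i : UI M) (a b : ℕ)
    (hb : b + 1 < M s t) (x : S × UI M) (hxs : x.1 = s ∨ x.1 = t)
    (hx : ∀ k, k + 1 < M s t → x ≠ pnode M s t i k) :
    pr (unf M) x (iv M s t i a b) = 0 := by
  unfold iv
  rw [pr_sum]
  refine Finset.sum_eq_zero fun k hk => ?_
  rw [Finset.mem_Icc] at hk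
  rw [pr_sr]
  apply cart_not_adj _ (hx k (by omega))
  intro h
  obtain ⟨k', hk', h1, -⟩ := adj_pnode M s t hst i k (by omega) x hxs h
  exact hx k' hk' h1

private theorem iv_self (s t : S) (i : UI M) (k : ℕ) :
    iv M s t i k k = sr (pnode M s t i k) := by
  unfold iv
  rw [Finset.Icc_self, Finset.sum_singleton]

theorem isPos_iv (hG : PosDef (unf M)) (s t : S) (hst : s ≠ t) (i : UI M) (a b : ℕ) (hab : a ≤ b)
    (hb : b + 1 < M s t) : IsPos (unf M) (iv M s t i a b) := by
  constructor
  · induction b with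
    | zero =>
      obtain rfl : a = 0 := by omega
      rw [iv_self]
      exact isRoot_sr _ _
    | succ b ih =>
      rcases Nat.lt_or_ge b a with h | h
      · obtain rfl : a = b + 1 := by omega
        rw [iv_self]
        exact isRoot_sr _ _
      · have h1 := ih h (by omega)
        have h2 : iv M s t i a (b + 1) = iv M s t i a b + sr (pnode M s t i (b + 1)) := by
          unfold iv
          rw [Finset.sum_Icc_succ_top (by omega)]
        have h3 := pr_iv M s t hst i a b (b + 1) (by omega) hb
        rw [if_neg (by omega), if_neg (by omega), if_pos (by omega)] at h3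
        rw [IsRoot] at h1 ⊢
        rw [h2, bil_add_left, bil_add_right, bil_add_right, bil_sr_left, bil_sr_left, bil_sr_right,
          pr_sr, cart_self, h3, h1]
        norm_num
  · intro x
    unfold iv
    rw [Finset.sum_apply]
    exact Finset.sum_nonneg fun k _ => (isPos_sr (unf M) _).2 x

private theorem toW_bgen_apply (r : S) (v : S × UI M → ℤ) (x : S × UI M) :
    toW (unf M) (bgen M r) v x = v x - if x.1 = r then pr (unf M) x v else 0 := by
  rw [toW_bgen, Pi.sub_apply]
  congr 1
  rw [Finset.sum_apply]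
  obtain ⟨x1, x2⟩ := x
  by_cases h : x1 = r
  · subst h
    rw [if_pos rfl, Finset.sum_eq_single x2]
    · simp [sr]
    · intro j _ hj
      simp [sr, hj.symm]
    · intro h; exact absurd (Finset.mem_univ _) h
  · rw [if_neg h]
    refine Finset.sum_eq_zero fun j _ => ?_
    simp [sr, h]

/-- One block step on an interval root: an endpoint in the class of the block moves inwards,
an endpoint in the other class moves outwards (if possible). `r` is `s` or `t`. -/
theorem toW_bgen_iv (s t : S) (hst : s ≠ t) (i : UI M) (a b : ℕ) (hab : a ≤ b)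
    (hb : b + 1 < M s t) (r : S) (hr : r = s ∨ r = t)
    (hne : a = b → (pnode M s t i a).1 ≠ r) :
    toW (unf M) (bgen M r) (iv M s t i a b) =
      iv M s t i (if (pnode M s t i a).1 = r then a + 1 else a - 1)
        (if (pnode M s t i b).1 = r then b - 1 else if b + 2 < M s t then b + 1 else b) := by
  obtain ⟨c, hc2, hc⟩ : ∃ c : ℕ, c < 2 ∧ ∀ k, ((pnode M s t i k).1 = r ↔ k % 2 = c) := by
    rcases hr with rfl | rfl
    · refine ⟨0, by omega, fun k => ?_⟩
      rw [pnode_fst]
      by_cases hk : Even k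
      · rw [if_pos hk, ← Nat.even_iff]; simp [hk]
      · rw [if_neg hk, ← Nat.even_iff]; simp [hk, hst.symm]
    · refine ⟨1, by omega, fun k => ?_⟩
      rw [pnode_fst]
      by_cases hk : Even k
      · rw [if_pos hk]
        rw [Nat.even_iff] at hk
        constructor
        · intro h; exact absurd h hst
        · intro h; omega
      · rw [if_neg hk]
        rw [Nat.even_iff] at hk
        constructor
        · intro h; omega
        · intro h; rfl
  simp only [ne_eq, hc] at hne
  simp only [hc]
  have hb' : (if b % 2 = c then b - 1 else if b + 2 < M s t then b + 1 else b) + 1 < M s t := by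
    split_ifs <;> omega
  funext x
  rw [toW_bgen_apply]
  by_cases hx : ∃ k, k + 1 < M s t ∧ x = pnode M s t i k
  · obtain ⟨k, hk, rfl⟩ := hx
    rw [iv_apply_pnode M s t hst i a b k hb hk, iv_apply_pnode M s t hst i _ _ k hb' hk,
      pr_iv M s t hst i a b k hb hk]
    simp only [hc]
    split_ifs <;> omega
  · push Not at hx
    rw [iv_apply_other M s t i a b hb x hx, iv_apply_other M s t i _ _ hb' x hx]
    by_cases hxr : x.1 = r
    · rw [if_pos hxr, pr_iv_other M s t hst i a b hb x (by rw [hxr]; exact hr) hx, sub_zero]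
    · rw [if_neg hxr, sub_zero]

private theorem altL_succ_append (s t : S) (j : ℕ) :
    altL s t (j + 1) = altL s t j ++ [if Even j then s else t] := by
  induction j generalizing s t with
  | zero => simp [altL]
  | succ j ih =>
    rw [altL, ih t s]
    conv_rhs => rw [altL]
    rw [List.cons_append]
    congr 3
    by_cases h : Even j
    · rw [if_pos h, if_neg (by rw [Nat.even_add_one]; exact fun h' => h' h)]
    · rw [if_neg h, if_pos (Nat.even_add_one.2 h)]

private theorem wd_bw_single (z : S) : wd (unf M) (bw M [z]) = bgen M z := by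
  rw [wd_bw_cons]
  show bgen M z * wd (unf M) [] = bgen M z
  rw [weyl_wd_nil, mul_one]

private theorem toW_bgen_inv_apply (z : S) (v : S × UI M → ℤ) :
    toW (unf M) (bgen M z)⁻¹ v = toW (unf M) (bgen M z) v := by
  rw [map_inv, toW_bgen_inv]

private theorem toW_snoc_inv (l : List S) (z : S) (v : S × UI M → ℤ) :
    toW (unf M) (wd (unf M) (bw M (l ++ [z])))⁻¹ v =
      toW (unf M) (bgen M z) (toW (unf M) (wd (unf M) (bw M l))⁻¹ v) := by
  rw [bw_append, weyl_wd_append, wd_bw_single, mul_inv_rev, weyl_toW_mul_apply,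
    toW_bgen_inv_apply]

private theorem toW_cons_inv (l : List S) (z : S) (v : S × UI M → ℤ) :
    toW (unf M) (wd (unf M) (bw M (z :: l)))⁻¹ v =
      toW (unf M) (wd (unf M) (bw M l))⁻¹ (toW (unf M) (bgen M z) v) := by
  rw [wd_bw_cons, mul_inv_rev, weyl_toW_mul_apply, toW_bgen_inv_apply]

private theorem class_eq_iff (s t : S) (hst : s ≠ t) (i : UI M) (k k' : ℕ) :
    (pnode M s t i k).1 = (if Even k' then s else t) ↔ k % 2 = k' % 2 := by
  rw [pnode_fst]
  by_cases h1 : Even k <;> by_cases h2 : Even k'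
  · rw [if_pos h1, if_pos h2]
    rw [Nat.even_iff] at h1 h2
    simp [h1, h2]
  · rw [if_pos h1, if_neg h2]
    rw [Nat.even_iff] at h1 h2
    constructor
    · intro h; exact absurd h hst
    · intro h; omega
  · rw [if_neg h1, if_pos h2]
    rw [Nat.even_iff] at h1 h2
    constructor
    · intro h; exact absurd h.symm hst
    · intro h; omega
  · rw [if_neg h1, if_neg h2]
    rw [Nat.even_iff] at h1 h2
    constructor
    · intro h; omega
    · intro h; rfl

/-- Closed form of the iterated action. `x` is the class of the vertex `k0`, `y` the other one. -/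
theorem toW_alt_pnode (hG : PosDef (unf M)) (s t : S) (hst : s ≠ t) (i : UI M) (k0 j : ℕ)
    (hk0 : k0 + 1 < M s t) (hj : j + 1 ≤ M s t) (x y : S)
    (hx : x = if Even k0 then s else t) (hy : y = if Even k0 then t else s) :
    toW (unf M) (wd (unf M) (bw M (altL y x j)))⁻¹ (sr (pnode M s t i k0)) =
      iv M s t i ((k0 - j) + (j - k0 - 1)) (min (k0 + j) (2 * (M s t - 1) - 1 - k0 - j)) := by
  induction j with
  | zero =>
    have h1 : min (k0 + 0) (2 * (M s t - 1) - 1 - k0 - 0) = k0 := by omega
    have h2 : (k0 - 0) + (0 - k0 - 1) = k0 := by omega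
    rw [h1, h2, iv_self]
    show toW (unf M) (wd (unf M) [])⁻¹ _ = _
    rw [weyl_wd_nil, inv_one, weyl_toW_one_apply]
  | succ j ih =>
    have ih' := ih (by omega)
    rw [altL_succ_append, toW_snoc_inv, ih']
    have hz : (if Even j then y else x) = if Even (k0 + 1 + j) then s else t := by
      rw [hx, hy]
      by_cases h1 : Even k0 <;> by_cases h2 : Even j
      · rw [if_pos h1, if_pos h1, if_pos h2, if_neg]
        rw [Nat.even_iff] at h1 h2 ⊢; omega
      · rw [if_pos h1, if_pos h1, if_neg h2, if_pos]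
        rw [Nat.even_iff] at h1 h2 ⊢; omega
      · rw [if_neg h1, if_neg h1, if_pos h2, if_pos]
        rw [Nat.even_iff] at h1 h2 ⊢; omega
      · rw [if_neg h1, if_neg h1, if_neg h2, if_neg]
        rw [Nat.even_iff] at h1 h2 ⊢; omega
    rw [hz, toW_bgen_iv M s t hst i _ _ (by omega) (by omega)]
    · simp only [class_eq_iff M s t hst]
      congr 1
      · split_ifs <;> omega
      · split_ifs <;> omega
    · by_cases h : Even (k0 + 1 + j)
      · rw [if_pos h]; exact Or.inl rfl
      · rw [if_neg h]; exact Or.inr rfl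
    · intro h
      rw [ne_eq, class_eq_iff M s t hst]
      omega

private theorem M_comm (s t : S) : M s t = M t s := M.symmetric s t

theorem alt_reduced (hG : PosDef (unf M)) (s t : S) (hst : s ≠ t) (k : ℕ) (hk : k ≤ M s t) :
    lenN (unf M) (wd (unf M) (bw M (altL s t k))) = (bw M (altL s t k)).length := by
  induction k generalizing s t with
  | zero =>
    show lenN (unf M) (wd (unf M) []) = 0
    rw [weyl_wd_nil, weyl_lenN_one]
  | succ k ih =>
    have hm : 2 ≤ M s t := by
      have h1 := M.off_diagonal s t hst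
      omega
    rw [altL, bw_cons]
    apply block_reduced M hG s _ (ih t s hst.symm (by rw [M_comm M t s]; omega))
    intro i
    obtain ⟨k0, hk0, ⟨he, h⟩ | ⟨ho, h⟩⟩ := exists_pnode M s t hst hm i
    · rw [h, toW_alt_pnode M hG s t hst i k0 k hk0 hk s t (if_pos he).symm (if_pos he).symm]
      exact isPos_iv M hG s t hst i _ _ (by omega) (by omega)
    · have hk0' : k0 + 1 < M t s := by rw [M_comm M t s]; exact hk0
      have hk' : k + 1 ≤ M t s := by rw [M_comm M t s]; exact hk
      rw [h, toW_alt_pnode M hG t s hst.symm i k0 k hk0' hk' s t (if_neg ho).symm (if_neg ho).symm]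
      exact isPos_iv M hG t s hst.symm i _ _ (by omega) (by omega)

/-- Both alternating words of full length send the simple roots of a path to minus the
simple roots of the path, reversed. -/
private theorem alt_full_pnode (hG : PosDef (unf M)) (s t : S) (hst : s ≠ t) (i : UI M) (k0 : ℕ)
    (hk0 : k0 + 1 < M s t) (x y : S)
    (hx : x = if Even k0 then s else t) (hy : y = if Even k0 then t else s) :
    toW (unf M) (wd (unf M) (bw M (altL x y (M s t))))⁻¹ (sr (pnode M s t i k0)) =
      toW (unf M) (wd (unf M) (bw M (altL y x (M s t))))⁻¹ (sr (pnode M s t i k0)) := by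
  obtain ⟨n, hn⟩ : ∃ n, M s t = n + 1 := ⟨M s t - 1, by omega⟩
  have hkey := toW_alt_pnode M hG s t hst i k0 n hk0 (by omega) x y hx hy
  have ha : (k0 - n) + (n - k0 - 1) = n - 1 - k0 := by omega
  have hb : min (k0 + n) (2 * (M s t - 1) - 1 - k0 - n) = n - 1 - k0 := by omega
  rw [ha, hb, iv_self] at hkey
  rw [hn]
  have hneg : ∀ (r : S) (k : ℕ), (pnode M s t i k).1 = r →
      toW (unf M) (bgen M r) (sr (pnode M s t i k)) = - sr (pnode M s t i k) := by
    intro r k hr
    funext z
    rw [toW_bgen_apply, pr_sr, Pi.neg_apply]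
    unfold sr
    rw [Pi.single_apply]
    by_cases hz : z = pnode M s t i k
    · rw [if_pos hz, hz, if_pos hr, cart_self]; norm_num
    · rw [if_neg hz]
      by_cases hz1 : z.1 = r
      · rw [if_pos hz1, cart_not_adj _ hz]
        · norm_num
        · intro h
          exact h.1 (by rw [hz1, hr])
      · rw [if_neg hz1]; norm_num
  have h1 : toW (unf M) (wd (unf M) (bw M (altL x y (n + 1))))⁻¹ (sr (pnode M s t i k0)) =
      - sr (pnode M s t i (n - 1 - k0)) := by
    rw [altL, toW_cons_inv, hneg x k0 (by rw [hx]; rfl), map_neg, hkey]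
  have h2 : toW (unf M) (wd (unf M) (bw M (altL y x (n + 1))))⁻¹ (sr (pnode M s t i k0)) =
      - sr (pnode M s t i (n - 1 - k0)) := by
    rw [altL_succ_append, toW_snoc_inv, hkey]
    apply hneg
    rw [hx, hy, pnode_fst]
    by_cases h1 : Even k0 <;> by_cases h2 : Even n
    · rw [if_pos h1, if_pos h1, if_pos h2, if_neg]
      rw [Nat.even_iff] at h1 h2 ⊢; omega
    · rw [if_pos h1, if_pos h1, if_neg h2, if_pos]
      rw [Nat.even_iff] at h1 h2 ⊢; omega
    · rw [if_neg h1, if_neg h1, if_pos h2, if_pos]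
      rw [Nat.even_iff] at h1 h2 ⊢; omega
    · rw [if_neg h1, if_neg h1, if_neg h2, if_neg]
      rw [Nat.even_iff] at h1 h2 ⊢; omega
  rw [h1, h2]

private theorem alt_full_sr (hG : PosDef (unf M)) (s t : S) (hst : s ≠ t) (hm : 2 ≤ M s t)
    (z : S × UI M) (hz : z.1 = s ∨ z.1 = t) :
    toW (unf M) (wd (unf M) (bw M (altL s t (M s t))))⁻¹ (sr z) =
      toW (unf M) (wd (unf M) (bw M (altL t s (M s t))))⁻¹ (sr z) := by
  have hm' : 2 ≤ M t s := by rw [M_comm M t s]; exact hm
  obtain ⟨z1, i⟩ := z
  rcases hz with hz | hz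
  · have hz : z1 = s := hz
    subst hz
    obtain ⟨k0, hk0, ⟨he, h⟩ | ⟨ho, h⟩⟩ := exists_pnode M z1 t hst hm i
    · rw [h]
      exact alt_full_pnode M hG z1 t hst i k0 hk0 z1 t (if_pos he).symm (if_pos he).symm
    · have hk0' : k0 + 1 < M t z1 := by rw [M_comm M t z1]; exact hk0
      rw [h, M_comm M z1 t]
      exact alt_full_pnode M hG t z1 hst.symm i k0 hk0' z1 t (if_neg ho).symm (if_neg ho).symm
  · have hz : z1 = t := hz
    subst hz
    obtain ⟨k0, hk0, ⟨he, h⟩ | ⟨ho, h⟩⟩ := exists_pnode M z1 s hst.symm hm' i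
    · rw [h, M_comm M s z1]
      exact (alt_full_pnode M hG z1 s hst.symm i k0 hk0 z1 s (if_pos he).symm
        (if_pos he).symm).symm
    · have hk0' : k0 + 1 < M s z1 := by rw [M_comm M s z1]; exact hk0
      rw [h]
      exact (alt_full_pnode M hG s z1 hst i k0 hk0' z1 s (if_neg ho).symm
        (if_neg ho).symm).symm

/-- Vectors supported over `{s,t}`. -/
private def Supp (s t : S) (v : S × UI M → ℤ) : Prop := ∀ z, z.1 ≠ s → z.1 ≠ t → v z = 0

private theorem supp_sub {s t : S} {v w : S × UI M → ℤ} (hv : Supp M s t v)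
    (hw : Supp M s t w) : Supp M s t (v - w) := fun z h1 h2 => by
  rw [Pi.sub_apply, hv z h1 h2, hw z h1 h2, sub_zero]

private theorem supp_add {s t : S} {v w : S × UI M → ℤ} (hv : Supp M s t v)
    (hw : Supp M s t w) : Supp M s t (v + w) := fun z h1 h2 => by
  rw [Pi.add_apply, hv z h1 h2, hw z h1 h2, add_zero]

private theorem supp_bgen {s t r : S} (hr : r = s ∨ r = t) (v : S × UI M → ℤ) :
    Supp M s t (toW (unf M) (bgen M r) v - v) := fun z h1 h2 => by
  rw [Pi.sub_apply, toW_bgen_apply, if_neg, sub_zero, sub_self]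
  rcases hr with rfl | rfl
  · exact h1
  · exact h2

private theorem supp_wd {s t : S} (l : List S) (hl : ∀ r ∈ l, r = s ∨ r = t)
    (v : S × UI M → ℤ) : Supp M s t (toW (unf M) (wd (unf M) (bw M l)) v - v) := by
  induction l generalizing v with
  | nil =>
    intro z _ _
    show (toW (unf M) (wd (unf M) []) v - v) z = 0
    rw [weyl_wd_nil, weyl_toW_one_apply, sub_self]; rfl
  | cons r l ih =>
    rw [wd_bw_cons, weyl_toW_mul_apply]
    have h1 := ih (fun r' hr' => hl r' (List.mem_cons_of_mem _ hr')) v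
    have h2 := supp_bgen M (hl r List.mem_cons_self) (toW (unf M) (wd (unf M) (bw M l)) v)
    have h3 := supp_add M h2 h1
    rwa [sub_add_sub_cancel] at h3

private theorem altL_mem (s t : S) (n : ℕ) (r : S) (h : r ∈ altL s t n) : r = s ∨ r = t := by
  induction n generalizing s t with
  | zero => simp [altL] at h
  | succ n ih =>
    rw [altL, List.mem_cons] at h
    rcases h with h | h
    · exact Or.inl h
    · exact (ih t s h).symm

private theorem supp_expand (v : S × UI M → ℤ) :
    v = ∑ z, v z • (sr z : S × UI M → ℤ) := by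
  funext x
  rw [Finset.sum_apply, Finset.sum_eq_single x]
  · simp [sr]
  · intro z _ hz
    simp [sr, hz.symm]
  · intro h; exact absurd (Finset.mem_univ _) h

theorem alt_toW_eq (hG : PosDef (unf M)) (s t : S) (hst : s ≠ t) (hm : 2 ≤ M s t) :
    toW (unf M) (wd (unf M) (bw M (altL s t (M s t)))) =
      toW (unf M) (wd (unf M) (bw M (altL t s (M s t)))) := by
  obtain ⟨X, hX⟩ : ∃ X, X = wd (unf M) (bw M (altL s t (M s t))) := ⟨_, rfl⟩
  obtain ⟨Y, hY⟩ : ∃ Y, Y = wd (unf M) (bw M (altL t s (M s t))) := ⟨_, rfl⟩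
  rw [← hX, ← hY]
  have hXs : ∀ v, Supp M s t (toW (unf M) X v - v) := fun v => by
    rw [hX]; exact supp_wd M _ (fun r hr => altL_mem s t _ r hr) v
  have hYs : ∀ v, Supp M s t (toW (unf M) Y v - v) := fun v => by
    rw [hY]; exact supp_wd M _ (fun r hr => (altL_mem t s _ r hr).symm) v
  have hXi : ∀ v, Supp M s t (v - toW (unf M) X⁻¹ v) := fun v => by
    have h := hXs (toW (unf M) X⁻¹ v)
    rwa [weyl_toW_apply_inv] at h
  have hYi : ∀ v, Supp M s t (v - toW (unf M) Y⁻¹ v) := fun v => by
    have h := hYs (toW (unf M) Y⁻¹ v)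
    rwa [weyl_toW_apply_inv] at h
  have hXY : ∀ u, Supp M s t u → toW (unf M) X⁻¹ u = toW (unf M) Y⁻¹ u := by
    intro u hu
    rw [supp_expand M u, map_sum, map_sum]
    refine Finset.sum_congr rfl fun z _ => ?_
    rw [map_zsmul, map_zsmul]
    by_cases hz : z.1 = s ∨ z.1 = t
    · rw [hX, hY, alt_full_sr M hG s t hst hm z hz]
    · push Not at hz
      rw [hu z hz.1 hz.2, zero_smul, zero_smul]
  have hinv : ∀ v, toW (unf M) X⁻¹ v = toW (unf M) Y⁻¹ v := by
    intro v
    by_contra hne
    obtain ⟨d, hd⟩ : ∃ d, d = toW (unf M) X⁻¹ v - toW (unf M) Y⁻¹ v := ⟨_, rfl⟩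
    have hd0 : d ≠ 0 := by rw [hd]; exact sub_ne_zero.2 hne
    have hdS : Supp M s t d := by
      have h := supp_sub M (hYi v) (hXi v)
      rw [sub_sub_sub_cancel_left] at h
      rw [hd]; exact h
    have hXd : Supp M s t (toW (unf M) X d) := by
      have h := supp_add M (hXs d) hdS
      rwa [sub_add_cancel] at h
    have hgen : ∀ u, Supp M s t u → bil (unf M) d (toW (unf M) X⁻¹ u) = 0 := by
      intro u hu
      have h4 : bil (unf M) (toW (unf M) Y⁻¹ v) (toW (unf M) X⁻¹ u) = bil (unf M) v u := by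
        rw [hXY u hu, bil_toW]
      rw [hd, bil_sub_left, h4, bil_toW, sub_self]
    have h1 := hgen _ hXd
    rw [weyl_toW_inv_apply] at h1
    have h2 := hG d hd0
    omega
  have h3 : ∀ v, toW (unf M) X v = toW (unf M) Y v := by
    intro v
    have h := hinv (toW (unf M) X v)
    rw [weyl_toW_inv_apply] at h
    rw [h, weyl_toW_apply_inv, ← h]
  exact LinearEquiv.ext h3

end SPH
end

section

/-! # The unfolding homomorphism (job V5) -/

namespace SPH

open scoped Classical

universe u

set_option linter.unusedSectionVars false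

variable {S : Type u} [Fintype S] [DecidableEq S] (M : CoxeterMatrix S)

theorem bgen_rel (hG : PosDef (unf M)) (s t : S) (h : M s t ≠ 0) :
    altProd (bgen M s) (bgen M t) (M s t) = altProd (bgen M t) (bgen M s) (M s t) := by
  rcases eq_or_ne s t with rfl | hst
  · rfl
  have hm : 2 ≤ M s t := by
    have h1 : M s t ≠ 1 := M.off_diagonal s t hst
    omega
  have : Finite (PRoot (unf M)) :=
    ((finite_root hG).subset fun v hv => (hv : IsPos (unf M) v).1).to_subtype
  have : Fintype (PRoot (unf M)) := Fintype.ofFinite _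
  obtain ⟨D⟩ := exists_TData hG
  have hsym : M t s = M s t := M.symmetric t s
  have h1 := alt_reduced M hG s t hst (M s t) le_rfl
  have h2 := alt_reduced M hG t s hst.symm (M s t) (by rw [hsym])
  have h3 := alt_toW_eq M hG s t hst hm
  have h4 := wd_eq_of_reduced hG D _ _ h1 h2 h3
  rwa [wd_bw_altL, wd_bw_altL] at h4

/-- The unfolding homomorphism. -/
noncomputable def unfHom (hG : PosDef (unf M)) : ArtinGroup M →* AGrp (unf M) :=
  ArtinGroup.lift M (bgen M) (bgen_rel M hG)

theorem unfHom_aw (hG : PosDef (unf M)) (l : List S) :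
    unfHom M hG (aw M l) = wd (unf M) (bw M l) := by
  induction l with
  | nil => simp [aw, bw, wd]
  | cons s l ih => rw [aw_cons, map_mul, ih, wd_bw_cons, unfHom, ArtinGroup.lift_agen]

end SPH
end

section

/-! # Positivity along alternating words (job V6) -/

namespace SPH

open scoped Classical

universe u

set_option linter.unusedSectionVars false

variable {S : Type u} [Fintype S] [DecidableEq S] (M : CoxeterMatrix S)
  [Fintype (PRoot (unf M))]

private theorem pl_pr_same (r : S) (i j : UI M) (h : i ≠ j) :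
    pr (unf M) (r, j) (sr (r, i)) = 0 := by
  rw [pr_sr, cart_not_adj (unf M) (fun h' => h (Prod.ext_iff.1 h').2.symm) (not_adj_same M r j i)]

private theorem pl_pr_two (x : S × UI M) : pr (unf M) x (sr x) = 2 := by
  rw [pr_sr, cart_self]

private theorem pl_block_aux (hG : PosDef (unf M)) (D : TData (unf M)) (r : S)
    (l : List (S × UI M)) (L : List (UI M)) (hL : L.Nodup) (γ γ' : PRoot (unf M))
    (T : Finset (UI M))
    (hne : ∀ i ∈ L, γ.1 ≠ sr (r, i)) (hT : ∀ i ∈ L, i ∈ T → pr (unf M) (r, i) γ.1 = -1)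
    (hγ' : γ'.1 = γ.1 + (L.map fun i => (if i ∈ T then sr (r, i) else 0) -
      (if pr (unf M) (r, i) γ.1 = 1 then sr (r, i) else 0)).sum)
    (hpos : 0 < vv D l γ') : 0 < vv D ((L.map fun i => (r, i)) ++ l) γ := by
  induction L generalizing γ with
  | nil =>
    have h : γ = γ' := Subtype.ext (by simpa using hγ'.symm)
    rw [h]
    exact hpos
  | cons i L ih =>
    have hi : i ∉ L := (List.nodup_cons.1 hL).1
    have hL' : L.Nodup := (List.nodup_cons.1 hL).2
    have hnei : γ.1 ≠ sr (r, i) := hne i (List.mem_cons_self ..)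
    rw [List.map_cons, List.cons_append]
    rw [List.map_cons, List.sum_cons] at hγ'
    have hji : ∀ j ∈ L, i ≠ j := fun j hj h => hi (h ▸ hj)
    rcases γ.2.pr_cases hG hnei with h | h | h
    · -- pr = -1
      have hadd : IsPos (unf M) (γ.1 + sr (r, i)) := γ.2.add_sr h
      have hv : vv D ((r, i) :: (L.map (fun i => (r, i)) ++ l)) γ =
          (1 / 2) * vv D (L.map (fun i => (r, i)) ++ l) γ +
          (1 / 2) * vv D (L.map (fun i => (r, i)) ++ l) ⟨γ.1 + sr (r, i), hadd⟩ := by
        simp only [vv, lk, LinearMap.coe_mk, AddHom.coe_mk]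
        rw [if_neg hnei, if_neg (by rw [h]; norm_num), if_neg (by rw [h]; norm_num), ext0,
          dif_pos hadd]
        norm_num
      rw [hv]
      rw [if_neg (by rw [h]; norm_num : ¬ pr (unf M) (r, i) γ.1 = 1), sub_zero] at hγ'
      by_cases hiT : i ∈ T
      · have hpr : ∀ j ∈ L, pr (unf M) (r, j) (γ.1 + sr (r, i)) = pr (unf M) (r, j) γ.1 := by
          intro j hj
          rw [pr_add, pl_pr_same M r i j (hji j hj), add_zero]
        have h1 := ih hL' ⟨γ.1 + sr (r, i), hadd⟩ (fun j hj hc => by
            have h2 : pr (unf M) (r, j) (γ.1 + sr (r, i)) = 2 := by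
              rw [show γ.1 + sr (r, i) = sr (r, j) from hc, pl_pr_two]
            rw [hpr j hj] at h2
            rcases γ.2.pr_cases hG (hne j (List.mem_cons_of_mem _ hj)) with h | h | h <;> omega)
          (fun j hj hjT => by
            show pr (unf M) (r, j) (γ.1 + sr (r, i)) = -1
            rw [hpr j hj]
            exact hT j (List.mem_cons_of_mem _ hj) hjT)
          (by
            rw [hγ', if_pos hiT, ← add_assoc]
            refine congrArg₂ _ rfl (congrArg List.sum (List.map_congr_left fun j hj => ?_))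
            simp only [hpr j hj])
        have h2 := vv_nonneg D (L.map (fun i => (r, i)) ++ l) γ
        linarith
      · have h1 := ih hL' γ (fun j hj => hne j (List.mem_cons_of_mem _ hj))
          (fun j hj => hT j (List.mem_cons_of_mem _ hj))
          (by rw [hγ', if_neg hiT, zero_add])
        have h2 := vv_nonneg D (L.map (fun i => (r, i)) ++ l) ⟨γ.1 + sr (r, i), hadd⟩
        linarith
    · -- pr = 0
      have hv : vv D ((r, i) :: (L.map (fun i => (r, i)) ++ l)) γ =
          vv D (L.map (fun i => (r, i)) ++ l) γ := by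
        simp [vv, lk, hnei, h]
      rw [hv]
      have hiT : i ∉ T := fun hc => by
        have := hT i (List.mem_cons_self ..) hc
        omega
      rw [if_neg (by rw [h]; norm_num : ¬ pr (unf M) (r, i) γ.1 = 1), sub_zero, if_neg hiT,
        zero_add] at hγ'
      exact ih hL' γ (fun j hj => hne j (List.mem_cons_of_mem _ hj))
          (fun j hj => hT j (List.mem_cons_of_mem _ hj)) hγ'
    · -- pr = 1
      have hsub : IsPos (unf M) (γ.1 - sr (r, i)) := γ.2.sub_sr hG h
      have hv : vv D ((r, i) :: (L.map (fun i => (r, i)) ++ l)) γ =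
          vv D (L.map (fun i => (r, i)) ++ l) ⟨γ.1 - sr (r, i), hsub⟩ := by
        simp only [vv, lk, LinearMap.coe_mk, AddHom.coe_mk]
        rw [if_neg hnei, if_neg (by rw [h]; norm_num), if_pos h, ext0, dif_pos hsub]
      rw [hv]
      have hiT : i ∉ T := fun hc => by
        have := hT i (List.mem_cons_self ..) hc
        omega
      rw [if_pos h, if_neg hiT, zero_sub] at hγ'
      have hpr : ∀ j ∈ L, pr (unf M) (r, j) (γ.1 - sr (r, i)) = pr (unf M) (r, j) γ.1 := by
        intro j hj
        rw [pr_sub, pl_pr_same M r i j (hji j hj), sub_zero]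
      refine ih hL' ⟨γ.1 - sr (r, i), hsub⟩ (fun j hj hc => ?_) (fun j hj hjT => ?_) ?_
      · have h2 : pr (unf M) (r, j) (γ.1 - sr (r, i)) = 2 := by
          rw [show γ.1 - sr (r, i) = sr (r, j) from hc, pl_pr_two]
        rw [hpr j hj] at h2
        rcases γ.2.pr_cases hG (hne j (List.mem_cons_of_mem _ hj)) with h | h | h <;> omega
      · show pr (unf M) (r, j) (γ.1 - sr (r, i)) = -1
        rw [hpr j hj]
        exact hT j (List.mem_cons_of_mem _ hj) hjT
      · rw [hγ', ← add_assoc, ← sub_eq_add_neg]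
        congr 2
        refine List.map_congr_left fun j hj => ?_
        simp only [hpr j hj]

/-- One block step: lower bound. `T` is the set of indices whose simple root is added. -/
theorem vv_block_pos (hG : PosDef (unf M)) (D : TData (unf M)) (r : S)
    (l : List (S × UI M)) (γ γ' : PRoot (unf M)) (T : Finset (UI M))
    (hne : ∀ i, γ.1 ≠ sr (r, i)) (hT : ∀ i ∈ T, pr (unf M) (r, i) γ.1 = -1)
    (hγ' : γ'.1 = γ.1 + (∑ i ∈ T, sr (r, i)) -
      ∑ i ∈ Finset.univ.filter (fun i => pr (unf M) (r, i) γ.1 = 1), sr (r, i))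
    (hpos : 0 < vv D l γ') : 0 < vv D (block M r ++ l) γ := by
  refine pl_block_aux M hG D r l _ (Finset.nodup_toList _) γ γ' T (fun i _ => hne i)
    (fun i _ => hT i) ?_ hpos
  rw [hγ', add_sub_assoc, Finset.sum_map_toList, Finset.sum_sub_distrib, ← Finset.sum_filter,
    ← Finset.sum_filter]
  congr 3
  ext i
  simp

private theorem pl_cls (p q : S) (hpq : p ≠ q) (i : UI M) (r : S) (hr : r = p ∨ r = q) :
    ∃ ρ, ρ < 2 ∧ ∀ m, (pnode M p q i m).1 = r ↔ m % 2 = ρ := by
  have h : ∀ m, (pnode M p q i m).1 = if Even m then p else q := fun m => rfl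
  rcases hr with rfl | rfl
  · refine ⟨0, by norm_num, fun m => ?_⟩
    rw [h m, ← Nat.even_iff]
    by_cases he : Even m
    · simp [he]
    · simp [he, hpq.symm]
  · refine ⟨1, by norm_num, fun m => ?_⟩
    rw [h m, ← Nat.odd_iff, ← Nat.not_even_iff_odd]
    by_cases he : Even m
    · simp [he, hpq]
    · simp [he]

private theorem pl_iv_node (p q : S) (hpq : p ≠ q) (i : UI M) (a b m : ℕ) (hb : b + 1 < M p q)
    (hm : m + 1 < M p q) :
    iv M p q i a b (pnode M p q i m) = if a ≤ m ∧ m ≤ b then 1 else 0 := by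
  rw [iv, Finset.sum_apply]
  rw [Finset.sum_congr rfl (g := fun k => if k = m then (1 : ℤ) else 0)]
  · rw [Finset.sum_ite_eq']
    simp only [Finset.mem_Icc]
  · intro k hk
    rw [Finset.mem_Icc] at hk
    rw [sr, Pi.single_apply]
    by_cases h : k = m
    · rw [h]; simp
    · rw [if_neg h, if_neg]
      intro h'
      exact h (pnode_inj M p q hpq i m k hm (by omega) h').symm

private theorem pl_iv_not (p q : S) (i : UI M) (a b : ℕ) (hb : b + 1 < M p q)
    (x : S × UI M) (hx : ∀ m, m + 1 < M p q → x ≠ pnode M p q i m) :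
    iv M p q i a b x = 0 := by
  rw [iv, Finset.sum_apply]
  refine Finset.sum_eq_zero fun k hk => ?_
  rw [Finset.mem_Icc] at hk
  rw [sr, Pi.single_apply, if_neg (hx k (by omega))]

private theorem pl_pr_not (p q : S) (hpq : p ≠ q) (i : UI M) (a b : ℕ) (hb : b + 1 < M p q)
    (x : S × UI M) (hx1 : x.1 = p ∨ x.1 = q) (hx : ∀ m, m + 1 < M p q → x ≠ pnode M p q i m) :
    pr (unf M) x (iv M p q i a b) = 0 := by
  rw [← bil_sr_right, iv, bil_sum_left]
  refine Finset.sum_eq_zero fun k hk => ?_
  rw [Finset.mem_Icc] at hk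
  rw [bil_sr_left, pr_sr, cart_not_adj]
  · exact (hx k (by omega)).symm
  · intro h
    obtain ⟨k', hk', h1, -⟩ := adj_pnode M p q hpq i k (by omega) x hx1 h.symm
    exact hx k' hk' h1

private theorem pl_pr_node (p q : S) (hpq : p ≠ q) (i : UI M) (a b m : ℕ) (hb : b + 1 < M p q)
    (hm : m + 1 < M p q) :
    pr (unf M) (pnode M p q i m) (iv M p q i a b) =
      (if a ≤ m ∧ m ≤ b then 2 else 0) - (if a ≤ m + 1 ∧ m + 1 ≤ b then 1 else 0)
        - (if 1 ≤ m ∧ a ≤ m - 1 ∧ m - 1 ≤ b then 1 else 0) := by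
  rw [← bil_sr_right, iv, bil_sum_left]
  rw [Finset.sum_congr rfl (g := fun k => (if k = m then (2 : ℤ) else 0) -
    (if k = m + 1 then 1 else 0) - (if k = m - 1 then (if 1 ≤ m then 1 else 0) else 0))]
  · rw [Finset.sum_sub_distrib, Finset.sum_sub_distrib, Finset.sum_ite_eq', Finset.sum_ite_eq',
      Finset.sum_ite_eq']
    simp only [Finset.mem_Icc]
    congr 1
    split_ifs <;> first | rfl | omega
  · intro k hk
    rw [Finset.mem_Icc] at hk
    rw [bil_sr_left, pr_sr, cart]
    have h1 := pnode_adj M p q hpq i k m (by omega) hm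
    by_cases h : k = m
    · rw [if_pos (by rw [h]), if_pos h, if_neg (by omega)]
      by_cases h2 : k = m - 1
      · rw [if_pos h2, if_neg (by omega)]; rfl
      · rw [if_neg h2]; rfl
    · rw [if_neg (fun h' => h (pnode_inj M p q hpq i k m (by omega) hm h')), if_neg h]
      by_cases h2 : k + 1 = m ∨ m + 1 = k
      · rw [if_pos (h1.2 h2)]
        rcases h2 with h2 | h2
        · rw [if_neg (by omega), if_pos (by omega), if_pos (by omega)]; rfl
        · rw [if_pos (by omega)]
          by_cases h3 : k = m - 1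
          · omega
          · rw [if_neg h3]; rfl
      · rw [if_neg (fun h' => h2 (h1.1 h')), if_neg (by omega)]
        by_cases h3 : k = m - 1
        · rw [if_pos h3, if_neg (by omega)]; rfl
        · rw [if_neg h3]; rfl

private theorem pl_sum_sr (r : S) (A : Finset (UI M)) (x : S × UI M) :
    (∑ j ∈ A, sr (r, j)) x = if x.1 = r ∧ x.2 ∈ A then 1 else 0 := by
  rw [Finset.sum_apply]
  by_cases h : x.1 = r ∧ x.2 ∈ A
  · rw [if_pos h, Finset.sum_eq_single x.2]
    · rw [sr, ← h.1]; simp
    · intro j _ hj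
      rw [sr, Pi.single_apply, if_neg]
      rintro rfl
      exact hj rfl
    · intro h'
      exact absurd h.2 h'
  · rw [if_neg h]
    refine Finset.sum_eq_zero fun j hj => ?_
    rw [sr, Pi.single_apply, if_neg]
    rintro rfl
    exact h ⟨rfl, hj⟩

private theorem pl_iv_self (p q : S) (i : UI M) (a : ℕ) :
    iv M p q i a a = sr (pnode M p q i a) := by
  rw [iv, Finset.Icc_self, Finset.sum_singleton]

private theorem pl_iv_ne (p q : S) (hpq : p ≠ q) (i : UI M) (a b : ℕ) (hab : a ≤ b)
    (hb : b + 1 < M p q) (r : S) (hne : a = b → (pnode M p q i a).1 ≠ r) (j : UI M) :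
    iv M p q i a b ≠ sr (r, j) := by
  intro h
  rcases Nat.eq_or_lt_of_le hab with h1 | h1
  · subst h1
    have h2 := congrFun h (pnode M p q i a)
    rw [pl_iv_node M p q hpq i a a a hb hb, if_pos ⟨le_refl _, le_refl _⟩, sr,
      Pi.single_apply] at h2
    by_cases h3 : pnode M p q i a = (r, j)
    · exact hne rfl (by rw [h3])
    · rw [if_neg h3] at h2
      norm_num at h2
  · have h2 := congrFun h (pnode M p q i a)
    have h3 := congrFun h (pnode M p q i b)
    rw [pl_iv_node M p q hpq i a b a hb (by omega), if_pos ⟨le_refl _, hab⟩, sr,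
      Pi.single_apply] at h2
    rw [pl_iv_node M p q hpq i a b b hb (by omega), if_pos ⟨hab, le_refl _⟩, sr,
      Pi.single_apply] at h3
    by_cases h4 : pnode M p q i a = (r, j)
    · by_cases h5 : pnode M p q i b = (r, j)
      · have := pnode_inj M p q hpq i a b (by omega) hb (h4.trans h5.symm)
        omega
      · rw [if_neg h5] at h3
        norm_num at h3
    · rw [if_neg h4] at h2
      norm_num at h2

private theorem pl_one (a b m : ℕ) (hab : a ≤ b) :
    ((if a ≤ m ∧ m ≤ b then (2 : ℤ) else 0) - (if a ≤ m + 1 ∧ m + 1 ≤ b then 1 else 0)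
      - (if 1 ≤ m ∧ a ≤ m - 1 ∧ m - 1 ≤ b then 1 else 0)) = 1 ↔ (a < b ∧ (m = a ∨ m = b)) := by
  by_cases h1 : a ≤ m ∧ m ≤ b
  · rw [if_pos h1]
    by_cases h2 : m = b
    · rw [if_neg (by omega)]
      by_cases h3 : m = a
      · rw [if_neg (by omega)]
        constructor
        · intro h; omega
        · intro h; omega
      · rw [if_pos (by omega)]
        constructor
        · intro h; omega
        · intro h; rfl
    · rw [if_pos (by omega)]
      by_cases h3 : m = a
      · rw [if_neg (by omega)]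
        constructor
        · intro h; omega
        · intro h; rfl
      · rw [if_pos (by omega)]
        constructor
        · intro h; omega
        · intro h; omega
  · rw [if_neg h1]
    constructor
    · intro h
      exfalso
      split_ifs at h <;> omega
    · intro h
      omega

private theorem pl_arith (a b a' b' m ρ : ℕ) (hab : a ≤ b) (hab' : a' ≤ b') (hρ : ρ < 2)
    (h1 : (a % 2 = ρ ∧ a' = a + 1) ∨ (¬ a % 2 = ρ ∧ (a' = a ∨ a' + 1 = a)))
    (h2 : (b % 2 = ρ ∧ b' + 1 = b) ∨ (¬ b % 2 = ρ ∧ (b' = b ∨ b' = b + 1)))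
    (hne' : a = b → ¬ a % 2 = ρ) :
    (if a' ≤ m ∧ m ≤ b' then (1 : ℤ) else 0) = (if a ≤ m ∧ m ≤ b then 1 else 0) +
      (if m % 2 = ρ ∧ ((a' + 1 = a ∧ m = a') ∨ (b' = b + 1 ∧ m = b')) then 1 else 0) -
      (if m % 2 = ρ ∧ (a < b ∧ (m = a ∨ m = b)) then 1 else 0) := by
  by_cases hm : m % 2 = ρ
  · simp only [hm, true_and]
    rcases h1 with ⟨ha, ha'⟩ | ⟨ha, ha' | ha'⟩ <;>
      rcases h2 with ⟨hb, hb'⟩ | ⟨hb, hb' | hb'⟩ <;>
      split_ifs <;> first | rfl | omega
  · simp only [hm, false_and, if_false]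
    have e1 : (a' ≤ m ∧ m ≤ b') ↔ (a ≤ m ∧ m ≤ b) := by
      have f1 : a' ≤ m ↔ a ≤ m := by omega
      have f2 : m ≤ b' ↔ m ≤ b := by omega
      rw [f1, f2]
    rw [if_congr e1 rfl rfl]
    omega

private theorem pl_step (hG : PosDef (unf M)) (D : TData (unf M)) (p q : S) (hpq : p ≠ q)
    (i : UI M) (a b a' b' : ℕ) (hab : a ≤ b) (hab' : a' ≤ b') (hb : b + 1 < M p q)
    (hb' : b' + 1 < M p q) (r : S) (hr : r = p ∨ r = q)
    (h1 : ((pnode M p q i a).1 = r ∧ a' = a + 1) ∨
      ((pnode M p q i a).1 ≠ r ∧ (a' = a ∨ a' + 1 = a)))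
    (h2 : ((pnode M p q i b).1 = r ∧ b' + 1 = b) ∨
      ((pnode M p q i b).1 ≠ r ∧ (b' = b ∨ b' = b + 1)))
    (hne : a = b → (pnode M p q i a).1 ≠ r) (l : List (S × UI M))
    (hpos : 0 < vv D l ⟨iv M p q i a' b', isPos_iv M hG p q hpq i a' b' hab' hb'⟩) :
    0 < vv D (block M r ++ l) ⟨iv M p q i a b, isPos_iv M hG p q hpq i a b hab hb⟩ := by
  obtain ⟨ρ, hρ, hcls⟩ := pl_cls M p q hpq i r hr
  simp only [ne_eq, hcls] at h1 h2
  have hne' : a = b → ¬ a % 2 = ρ := fun h h' => hne h ((hcls a).2 h')
  have hpn : ∀ j m, (r, j) = pnode M p q i m → m % 2 = ρ := by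
    intro j m h
    rw [← hcls, ← h]
  refine vv_block_pos M hG D r l _ _ (Finset.univ.filter fun j =>
    (a' + 1 = a ∧ (r, j) = pnode M p q i a') ∨ (b' = b + 1 ∧ (r, j) = pnode M p q i b'))
    (pl_iv_ne M p q hpq i a b hab hb r hne) ?_ ?_ hpos
  · intro j hj
    rw [Finset.mem_filter] at hj
    show pr (unf M) (r, j) (iv M p q i a b) = -1
    rcases hj.2 with ⟨h3, h4⟩ | ⟨h3, h4⟩
    · rw [h4, pl_pr_node M p q hpq i a b a' hb (by omega)]
      rw [if_neg (by omega), if_pos (by omega), if_neg (by omega)]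
      norm_num
    · rw [h4, pl_pr_node M p q hpq i a b b' hb hb']
      rw [if_neg (by omega), if_neg (by omega), if_pos (by omega)]
      norm_num
  · show iv M p q i a' b' = iv M p q i a b + _ - _
    funext x
    rw [Pi.sub_apply, Pi.add_apply, pl_sum_sr, pl_sum_sr]
    by_cases hx : ∃ m, m + 1 < M p q ∧ x = pnode M p q i m
    · obtain ⟨m, hm, rfl⟩ := hx
      rw [pl_iv_node M p q hpq i a' b' m hb' hm, pl_iv_node M p q hpq i a b m hb hm]
      have hT : ((pnode M p q i m).1 = r ∧ (pnode M p q i m).2 ∈ (Finset.univ.filter fun j =>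
          (a' + 1 = a ∧ (r, j) = pnode M p q i a') ∨ (b' = b + 1 ∧ (r, j) = pnode M p q i b')))
          ↔ (m % 2 = ρ ∧ ((a' + 1 = a ∧ m = a') ∨ (b' = b + 1 ∧ m = b'))) := by
        rw [hcls, Finset.mem_filter]
        constructor
        · rintro ⟨h3, -, h4⟩
          have h5 : (r, (pnode M p q i m).2) = pnode M p q i m :=
            Prod.ext ((hcls m).2 h3).symm rfl
          rw [h5] at h4
          refine ⟨h3, ?_⟩
          rcases h4 with ⟨h4, h6⟩ | ⟨h4, h6⟩
          · exact Or.inl ⟨h4, pnode_inj M p q hpq i m a' hm (by omega) h6⟩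
          · exact Or.inr ⟨h4, pnode_inj M p q hpq i m b' hm (by omega) h6⟩
        · rintro ⟨h3, h4⟩
          have h5 : (r, (pnode M p q i m).2) = pnode M p q i m :=
            Prod.ext ((hcls m).2 h3).symm rfl
          refine ⟨h3, Finset.mem_univ _, ?_⟩
          rw [h5]
          rcases h4 with ⟨h4, h6⟩ | ⟨h4, h6⟩
          · exact Or.inl ⟨h4, by rw [h6]⟩
          · exact Or.inr ⟨h4, by rw [h6]⟩
      have hF : ((pnode M p q i m).1 = r ∧ (pnode M p q i m).2 ∈ (Finset.univ.filter fun j =>
          pr (unf M) (r, j) (iv M p q i a b) = 1)) ↔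
          (m % 2 = ρ ∧ ((if a ≤ m ∧ m ≤ b then (2 : ℤ) else 0) -
            (if a ≤ m + 1 ∧ m + 1 ≤ b then 1 else 0)
            - (if 1 ≤ m ∧ a ≤ m - 1 ∧ m - 1 ≤ b then 1 else 0)) = 1) := by
        rw [hcls, Finset.mem_filter, ← pl_pr_node M p q hpq i a b m hb hm]
        refine and_congr_right fun h3 => ?_
        have h5 : (r, (pnode M p q i m).2) = pnode M p q i m :=
          Prod.ext ((hcls m).2 h3).symm rfl
        rw [h5]
        simp
      have hF' := hF.trans (and_congr_right fun _ => pl_one a b m hab)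
      rw [if_congr hT rfl rfl, if_congr hF' rfl rfl]
      exact pl_arith a b a' b' m ρ hab hab' hρ h1 h2 hne'
    · push Not at hx
      rw [pl_iv_not M p q i a' b' hb' x hx, pl_iv_not M p q i a b hb x hx, if_neg, if_neg]
      · norm_num
      · rintro ⟨h3, h4⟩
        rw [Finset.mem_filter] at h4
        have h5 : (r, x.2) = x := Prod.ext h3.symm rfl
        have h6 : pr (unf M) (r, x.2) (iv M p q i a b) = 1 := h4.2
        rw [h5, pl_pr_not M p q hpq i a b hb x (by rw [h3]; exact hr) hx] at h6
        norm_num at h6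
      · rintro ⟨h3, h4⟩
        rw [Finset.mem_filter] at h4
        have h5 : (r, x.2) = x := Prod.ext h3.symm rfl
        rw [h5] at h4
        rcases h4.2 with ⟨h6, h7⟩ | ⟨h6, h7⟩
        · exact hx a' (by omega) h7
        · exact hx b' (by omega) h7

private theorem pl_congr (D : TData (unf M)) (l : List (S × UI M)) {v w : S × UI M → ℤ}
    (hv : IsPos (unf M) v) (hw : IsPos (unf M) w) (h : v = w) :
    vv D l ⟨v, hv⟩ = vv D l ⟨w, hw⟩ := by
  subst h
  rfl

/-- path position `a_j` -/
private def plA (k0 d j : ℕ) : ℕ := (k0 - min j d) + (j - d - 1)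

/-- path position `b_j` -/
private def plB (k0 u j : ℕ) : ℕ := k0 + min j u - (j - u - 1)

private theorem pl_path (hG : PosDef (unf M)) (D : TData (unf M)) (p q : S) (hpq : p ≠ q)
    (i : UI M) (k0 k : ℕ) (hk0 : k0 + 1 < M p q) (_hk : 1 ≤ k) (_hkm : k < M p q)
    (u d : ℕ) (hud : u + d + 1 = k) (hu : k0 + u + 1 < M p q) (hd : d ≤ k0)
    (l : List (S × UI M)) (x y : S)
    (hx : x = if Even k0 then p else q) (hy : y = if Even k0 then q else p)
    (hpos : ∀ j : UI M, 0 < vv D l ⟨sr ((if Even k then y else x), j), isPos_sr _ _⟩)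
    (n : ℕ) (hn : n ≤ k) (a b : ℕ) (ha : a = plA k0 d (k - n)) (hb : b = plB k0 u (k - n))
    (hab : a ≤ b) (hbM : b + 1 < M p q) (x' y' : S)
    (hx' : x' = if Even (k - n) then y else x) (hy' : y' = if Even (k - n) then x else y) :
    0 < vv D (bw M (altL x' y' n) ++ l) ⟨iv M p q i a b, isPos_iv M hG p q hpq i a b hab hbM⟩ := by
  induction n generalizing a b x' y' with
  | zero =>
    rw [Nat.sub_zero] at ha hb
    have h1 : a = b := by
      rw [ha, hb, plA, plB]
      omega
    subst h1
    have hc : (pnode M p q i a).1 = if Even k then y else x := by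
      have h2 : (pnode M p q i a).1 = if Even a then p else q := rfl
      have h3 : a % 2 = (k0 + k + 1) % 2 := by
        rw [ha, plA]
        omega
      rw [h2, hx, hy]
      simp only [Nat.even_iff]
      split_ifs <;> first | rfl | omega
    have h4 := hpos (pnode M p q i a).2
    have h5 : sr ((if Even k then y else x), (pnode M p q i a).2) = iv M p q i a a := by
      rw [pl_iv_self, ← hc]
    rw [pl_congr M D l (isPos_sr _ _) (isPos_iv M hG p q hpq i a a hab hbM) h5] at h4
    exact h4
  | succ n ih =>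
    rw [altL, bw_cons, List.append_assoc]
    have hclsn : ∀ m, (pnode M p q i m).1 = if Even m then p else q := fun m => rfl
    have hxy : x ≠ y := by
      rw [hx, hy]
      split_ifs
      · exact hpq
      · exact hpq.symm
    have hx'' : x' = if Even (k0 + (k - (n + 1)) + 1) then p else q := by
      rw [hx', hx, hy]
      simp only [Nat.even_iff]
      split_ifs <;> first | rfl | omega
    have hr : x' = p ∨ x' = q := by
      rw [hx'']
      split_ifs
      · exact Or.inl rfl
      · exact Or.inr rfl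
    have hiff : ∀ m, (pnode M p q i m).1 = x' ↔ m % 2 = (k0 + (k - (n + 1)) + 1) % 2 := by
      intro m
      rw [hx'', hclsn m]
      simp only [Nat.even_iff]
      split_ifs with h1 h2 h2
      · simp only [true_iff]; omega
      · simp only [hpq, false_iff]; omega
      · simp only [hpq.symm, false_iff]; omega
      · simp only [true_iff]; omega
    have hkn : k - n = k - (n + 1) + 1 := by omega
    have hj : k - (n + 1) < k := by omega
    generalize hjj : k - (n + 1) = j at *
    have hab' : plA k0 d (j + 1) ≤ plB k0 u (j + 1) := by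
      rw [plA, plB]
      omega
    have hb' : plB k0 u (j + 1) + 1 < M p q := by
      rw [plB]
      omega
    refine pl_step M hG D p q hpq i a b (plA k0 d (j + 1)) (plB k0 u (j + 1)) hab hab' hbM hb'
      x' hr ?_ ?_ ?_ _ ?_
    · simp only [ne_eq, hiff]
      rw [ha, plA, plA]
      omega
    · simp only [ne_eq, hiff]
      rw [hb, plB, plB]
      omega
    · intro h
      rw [ne_eq, hiff]
      rw [ha, hb, plA, plB] at h
      rw [ha, plA]
      omega
    · refine ih (by omega) _ _ ?_ ?_ hab' hb' y' x' ?_ ?_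
      · rw [hkn]
      · rw [hkn]
      · rw [hkn, hy']
        simp only [Nat.even_add_one]
        split_ifs <;> rfl
      · rw [hkn, hx']
        simp only [Nat.even_add_one]
        split_ifs <;> rfl

/-- If all simple roots over the next letter have positive value for `l`, then after the
alternating word starting with `t`, of length `k < M s t`, all simple roots over `s` have
positive value. -/
theorem vv_path_pos (hG : PosDef (unf M)) (D : TData (unf M)) (s t : S) (hst : s ≠ t)
    (i : UI M) (k : ℕ) (hk : 1 ≤ k) (hkm : k < M s t) (l : List (S × UI M))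
    (hpos : ∀ j : UI M, 0 < vv D l ⟨sr ((if Even k then t else s), j), isPos_sr _ _⟩) :
    0 < vv D (bw M (altL t s k) ++ l) ⟨sr (s, i), isPos_sr _ _⟩ := by
  have key : ∀ (p q : S) (hpq : p ≠ q) (k0 : ℕ) (hk0 : k0 + 1 < M p q) (hkq : k < M p q)
      (hs : s = if Even k0 then p else q) (ht : t = if Even k0 then q else p)
      (hsi : (s, i) = pnode M p q i k0),
      0 < vv D (bw M (altL t s k) ++ l) ⟨sr (s, i), isPos_sr _ _⟩ := by
    intro p q hpq k0 hk0 hkq hs ht hsi
    have h1 := pl_path M hG D p q hpq i k0 k hk0 hk hkq (k - 1 - min k0 (k - 1)) (min k0 (k - 1))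
      (by omega) (by omega) (by omega) l s t hs ht hpos k le_rfl k0 k0
      (by rw [plA]; omega) (by rw [plB]; omega) le_rfl hk0 t s (by simp) (by simp)
    have h2 : iv M p q i k0 k0 = sr (s, i) := by rw [pl_iv_self, hsi]
    rw [pl_congr M D _ _ (isPos_sr _ _) h2] at h1
    exact h1
  obtain ⟨k0, hk0, ⟨h1, h2⟩ | ⟨h1, h2⟩⟩ := exists_pnode M s t hst (by omega) i
  · exact key s t hst k0 hk0 hkm (by rw [if_pos h1]) (by rw [if_pos h1]) h2
  · have hsym : M t s = M s t := M.symmetric t s
    exact key t s hst.symm k0 (by omega) (by omega) (by rw [if_neg h1]) (by rw [if_neg h1]) h2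

end SPH
end
end
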