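import Mathlib
import Pool.Agent.Lib.MP_7b9603_al.Weyl
import Pool.Agent.Lib.MP_7b9603_al.IdemSub
import Pool.Agent.Lib.MP_7b9603_al.IndProj

section

/-! # Lifting idempotent matrices modulo nilpotents (job P15) -/

namespace SPH

universe u v

theorem exists_lift_idem {O K : Type u} [CommRing O] [Field K] (π : O →+* K)
    (hπ : Function.Surjective π) (p j : ℕ) (hker : ∀ x, π x = 0 → ∃ y, x = p * y)
    (hO : (p : O) ^ j = 0) {Γ : Type u} [Group Γ] {n : ℕ}
    (e : Matrix (Fin n) (Fin n) (MonoidAlgebra K Γ)) (he : e * e = e) :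
    ∃ E : Matrix (Fin n) (Fin n) (MonoidAlgebra O Γ),
      E * E = E ∧ E.map (MonoidAlgebra.mapRingHom Γ π) = e := by
  classical
  set f : Matrix (Fin n) (Fin n) (MonoidAlgebra O Γ) →+*
    Matrix (Fin n) (Fin n) (MonoidAlgebra K Γ) := (MonoidAlgebra.mapRingHom Γ π).mapMatrix with hf
  -- surjectivity
  have hs1 : ∀ x : MonoidAlgebra K Γ, ∃ y : MonoidAlgebra O Γ,
      MonoidAlgebra.mapRingHom Γ π y = x := by
    intro x
    obtain ⟨c, hc⟩ := Finsupp.mapRange_surjective (α := Γ) π (map_zero π) hπ x.coeff
    refine ⟨MonoidAlgebra.ofCoeff c, ?_⟩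
    ext m
    rw [MonoidAlgebra.coeff_mapRingHom, ← hc]
    rfl
  have hsurj : e ∈ f.range := by
    choose g hg using hs1
    refine ⟨Matrix.of fun i j => g (e i j), ?_⟩
    ext i j
    rw [hf, RingHom.mapMatrix_apply, Matrix.map_apply, Matrix.of_apply, hg]
  -- divisibility by `p`
  have hdiv : ∀ x : MonoidAlgebra O Γ, MonoidAlgebra.mapRingHom Γ π x = 0 →
      ∃ y : MonoidAlgebra O Γ, x = p • y := by
    intro x hx
    have h1 : ∀ a : O, ∃ b : O, (a = 0 → b = 0) ∧ (π a = 0 → a = p * b) := by
      intro a
      by_cases ha : a = 0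
      · exact ⟨0, fun _ => rfl, fun _ => by rw [ha, mul_zero]⟩
      · by_cases hp : π a = 0
        · obtain ⟨y, hy⟩ := hker a hp
          exact ⟨y, fun h => absurd h ha, fun _ => hy⟩
        · exact ⟨0, fun _ => rfl, fun h => absurd h hp⟩
    choose g hg0 hg1 using h1
    refine ⟨MonoidAlgebra.ofCoeff (x.coeff.mapRange g (hg0 0 rfl)), ?_⟩
    ext m
    have h2 : π (x.coeff m) = 0 := by
      rw [← MonoidAlgebra.coeff_mapRingHom, hx]; rfl
    have h3 := hg1 _ h2
    have h4 : (p • MonoidAlgebra.ofCoeff (x.coeff.mapRange g (hg0 0 rfl)) :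
        MonoidAlgebra O Γ).coeff m = p • g (x.coeff m) := by
      rw [MonoidAlgebra.coeff_smul]
      rfl
    rw [h4, nsmul_eq_mul]
    exact h3
  have hnil : ∀ X ∈ RingHom.ker f, IsNilpotent X := by
    intro X hX
    rw [RingHom.mem_ker] at hX
    have h1 : ∀ i j, ∃ y : MonoidAlgebra O Γ, X i j = p • y := by
      intro i j
      apply hdiv
      have := congrFun (congrFun hX i) j
      rwa [hf, RingHom.mapMatrix_apply, Matrix.map_apply] at this
    choose Y hY using h1
    refine ⟨j, ?_⟩
    have h2 : X = p • Matrix.of Y := by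
      ext1 i j
      rw [hY]; rfl
    rw [h2, smul_pow]
    ext1 a b
    rw [Matrix.smul_apply, Matrix.zero_apply]
    set z := (Matrix.of Y ^ j) a b
    have h3 : ((p ^ j : ℕ) : O) = 0 := by push_cast; exact hO
    rw [← Nat.cast_smul_eq_nsmul O, h3, zero_smul]
  obtain ⟨E, hE1, hE2⟩ := exists_isIdempotentElem_eq_of_ker_isNilpotent f hnil e hsurj he
  exact ⟨E, hE1, by rw [← hE2]; rfl⟩

private theorem li_isUnit {O : Type*} {K : Type*} [CommRing O] [Field K] (π : O →+* K)
    (hker : ∀ x, π x = 0 → IsNilpotent x) {ι : Type*} [Fintype ι] [DecidableEq ι]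
    (M : Matrix ι ι O) (hM : M.map π = 1) : IsUnit M := by
  rw [Matrix.isUnit_iff_isUnit_det]
  have h1 : π M.det = 1 := by
    rw [RingHom.map_det, RingHom.mapMatrix_apply, hM, Matrix.det_one]
  have h2 : IsNilpotent (M.det - 1) := hker _ (by rw [map_sub, h1, map_one, sub_self])
  have h3 := h2.isUnit_one_add
  rwa [add_sub_cancel] at h3

/-- The trace of an idempotent matrix over `O` is the rank of its reduction. -/
theorem trace_idem_eq_rank {O K : Type u} [CommRing O] [Field K] (π : O →+* K)
    (hπ : Function.Surjective π) (hker : ∀ x, π x = 0 → IsNilpotent x) {ι : Type v} [Fintype ι]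
    [DecidableEq ι] (F : Matrix ι ι O) (hF : F * F = F) :
    Matrix.trace F =
      ((Module.finrank K (LinearMap.range (Matrix.toLinearMapRight' (F.map π))) : ℕ) : O) := by
  classical
  set f : Matrix ι ι K := F.map π with hf
  have hff : f * f = f := by rw [hf, ← Matrix.map_mul, hF]
  set φ : (ι → K) →ₗ[K] (ι → K) := Matrix.toLinearMapRight' f with hφ
  have hφφ : φ ∘ₗ φ = φ := by rw [hφ, ← Matrix.toLinearMapRight'_mul, hff]
  set r := Module.finrank K (LinearMap.range φ) with hr
  let b : Module.Basis (Fin r) K (LinearMap.range φ) := Module.finBasis K (LinearMap.range φ)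
  let g1 : (ι → K) →ₗ[K] (Fin r → K) := b.equivFun.toLinearMap ∘ₗ φ.rangeRestrict
  let g2 : (Fin r → K) →ₗ[K] (ι → K) := (LinearMap.range φ).subtype ∘ₗ b.equivFun.symm.toLinearMap
  have h21 : g2 ∘ₗ g1 = φ := by
    ext1 i
    ext
    simp [g1, g2]
  have h12 : g1 ∘ₗ g2 = LinearMap.id := by
    apply LinearMap.ext
    intro x
    simp only [g1, g2, LinearMap.comp_apply, LinearEquiv.coe_coe, LinearMap.id_apply,
      Submodule.subtype_apply]
    have h1 : φ.rangeRestrict ((b.equivFun.symm x : LinearMap.range φ) : ι → K) =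
        b.equivFun.symm x := by
      apply Subtype.ext
      obtain ⟨y, hy⟩ := (b.equivFun.symm x).2
      show φ ((b.equivFun.symm x : LinearMap.range φ) : ι → K) = _
      rw [← hy]
      exact LinearMap.congr_fun hφφ y
    rw [h1]
    exact b.equivFun.apply_symm_apply x
  set A : Matrix ι (Fin r) K := LinearMap.toMatrixRight' g1 with hA
  set B : Matrix (Fin r) ι K := LinearMap.toMatrixRight' g2 with hB
  have hA' : Matrix.toLinearMapRight' A = g1 := LinearEquiv.symm_apply_apply _ _
  have hB' : Matrix.toLinearMapRight' B = g2 := LinearEquiv.symm_apply_apply _ _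
  have hAB : A * B = f := by
    apply Matrix.toLinearMapRight'.injective
    rw [Matrix.toLinearMapRight'_mul, hA', hB', h21]
  have hBA : B * A = 1 := by
    apply Matrix.toLinearMapRight'.injective
    rw [Matrix.toLinearMapRight'_mul, hA', hB', h12, Matrix.toLinearMapRight'_one]
  -- lifts
  choose g hg using hπ
  set A1 : Matrix ι (Fin r) O := A.map g with hA1
  set B1 : Matrix (Fin r) ι O := B.map g with hB1
  have hA1' : A1.map π = A := by ext i j; simp [hA1, hg]
  have hB1' : B1.map π = B := by ext i j; simp [hB1, hg]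
  set c : Matrix (Fin r) (Fin r) O := B1 * F * A1 with hc
  have hcm : c.map π = 1 := by
    rw [hc, Matrix.map_mul, Matrix.map_mul, hA1', hB1', ← hf, ← hAB, ← Matrix.mul_assoc, hBA,
      Matrix.one_mul, hBA]
  obtain ⟨cu, hcu⟩ := li_isUnit π hker c hcm
  set d : Matrix (Fin r) (Fin r) O := ((cu⁻¹ : (Matrix (Fin r) (Fin r) O)ˣ) :
    Matrix (Fin r) (Fin r) O) with hd
  have hcd : c * d = 1 := by rw [← hcu, hd]; exact cu.mul_inv
  have hdc : d * c = 1 := by rw [← hcu, hd]; exact cu.inv_mul
  have hdm : d.map π = 1 := by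
    have h1 : (d * c).map π = 1 := by rw [hdc]; exact Matrix.map_one π (map_zero π) (map_one π)
    rwa [Matrix.map_mul, hcm, Matrix.mul_one] at h1
  set P : Matrix ι ι O := F * A1 * d * (B1 * F) with hP
  have hFP : F * P = P := by
    calc F * P = (F * F) * A1 * d * (B1 * F) := by rw [hP]; simp only [Matrix.mul_assoc]
      _ = P := by rw [hF]
  have hPF : P * F = P := by
    rw [hP, Matrix.mul_assoc _ _ F, Matrix.mul_assoc B1, hF]
  have hPP : P * P = P := by
    calc P * P = F * A1 * d * ((B1 * F * (F * A1)) * d * (B1 * F)) := by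
          rw [hP]; simp only [Matrix.mul_assoc]
      _ = F * A1 * d * (c * d * (B1 * F)) := by
          have : B1 * F * (F * A1) = c := by
            rw [hc, Matrix.mul_assoc B1 F (F * A1), ← Matrix.mul_assoc F F A1, hF,
              Matrix.mul_assoc]
          rw [this]
      _ = P := by rw [hcd, Matrix.one_mul]
  have hPm : P.map π = f := by
    rw [hP, Matrix.map_mul, Matrix.map_mul, Matrix.map_mul, Matrix.map_mul, hdm, hA1', hB1',
      Matrix.mul_one, ← hf]
    calc f * A * (B * f) = f * (A * B) * f := by simp only [Matrix.mul_assoc]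
      _ = f := by rw [hAB, hff, hff]
  -- the difference
  have hQ : F - P = 0 := by
    have h1 : (1 - (F - P)).map π = 1 := by
      ext i j
      have h2 := congrFun (congrFun hPm i) j
      rw [Matrix.map_apply] at h2
      rw [Matrix.map_apply, Matrix.sub_apply, Matrix.sub_apply, map_sub, map_sub, h2, hf,
        Matrix.map_apply, sub_self, sub_zero]
      rcases eq_or_ne i j with rfl | hij
      · rw [Matrix.one_apply_eq, Matrix.one_apply_eq, map_one]
      · rw [Matrix.one_apply_ne hij, Matrix.one_apply_ne hij, map_zero]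
    have h2 := li_isUnit π hker _ h1
    have h3 : (1 - (F - P)) * (F - P) = 0 := by
      rw [Matrix.sub_mul, Matrix.one_mul, Matrix.sub_mul, Matrix.mul_sub, Matrix.mul_sub, hF,
        hFP, hPF, hPP]
      abel
    exact h2.mul_right_eq_zero.1 h3
  have hFP' : F = P := sub_eq_zero.1 hQ
  calc Matrix.trace F = Matrix.trace P := by rw [← hFP']
    _ = Matrix.trace ((B1 * F) * (F * A1 * d)) := by rw [hP, Matrix.trace_mul_comm]
    _ = Matrix.trace (c * d) := by
        congr 1
        rw [← Matrix.mul_assoc (B1 * F), ← Matrix.mul_assoc (B1 * F), Matrix.mul_assoc B1 F F, hF]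
    _ = (r : O) := by rw [hcd, Matrix.trace_one, Fintype.card_fin]

end SPH
end

section

/-! # Averaging (job R8) -/

namespace SPH

universe u v

theorem projective_of_sub {K : Type u} [Field K] [CharZero K] {Γ : Type u} [Group Γ]
    (N : Subgroup Γ) [N.FiniteIndex] (M : Type u) [AddCommGroup M]
    [Module (MonoidAlgebra K Γ) M] [Module (MonoidAlgebra K N) M]
    [IsScalarTower (MonoidAlgebra K N) (MonoidAlgebra K Γ) M]
    (h : Module.Projective (MonoidAlgebra K N) M) : Module.Projective (MonoidAlgebra K Γ) M := by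
  classical
  have := N.fintypeQuotientOfFiniteIndex
  -- the action of `K[N]` through `K[Γ]`
  have hres : ∀ (r : MonoidAlgebra K N) (m : M), resHom K N r • m = r • m := by
    intro r m
    have h1 : (r • (1 : MonoidAlgebra K Γ)) • m = r • ((1 : MonoidAlgebra K Γ) • m) :=
      smul_assoc _ _ _
    rwa [sub_smul_def, mul_one, one_smul] at h1
  have hresF : ∀ (r : MonoidAlgebra K N) (x : M →₀ MonoidAlgebra K Γ),
      resHom K N r • x = r • x := by
    intro r x
    have h1 : (r • (1 : MonoidAlgebra K Γ)) • x = r • ((1 : MonoidAlgebra K Γ) • x) :=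
      smul_assoc _ _ _
    rwa [sub_smul_def, mul_one, one_smul] at h1
  have hsing : ∀ (n : N) (a : K), resHom K N (MonoidAlgebra.single n a) =
      MonoidAlgebra.single (n : Γ) a := by
    intro n a
    unfold resHom
    simp
  let π : (M →₀ MonoidAlgebra K Γ) →ₗ[MonoidAlgebra K Γ] M :=
    Finsupp.linearCombination (MonoidAlgebra K Γ) (id : M → M)
  have hπ : Function.Surjective π := by
    intro m
    exact ⟨Finsupp.single m 1, by simp [π]⟩
  obtain ⟨σ, hσ⟩ := Module.projective_lifting_property (π.restrictScalars (MonoidAlgebra K N))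
    (LinearMap.id : M →ₗ[MonoidAlgebra K N] M) hπ
  have hσ' : ∀ m, π (σ m) = m := fun m => LinearMap.congr_fun hσ m
  have hσN : ∀ (n : N) (a : K) (m : M), σ (MonoidAlgebra.single (n : Γ) a • m) =
      MonoidAlgebra.single (n : Γ) a • σ m := by
    intro n a m
    rw [← hsing, hres, hresF, map_smul]
  let T : Γ → M → (M →₀ MonoidAlgebra K Γ) := fun γ m =>
    MonoidAlgebra.single γ (1 : K) • σ (MonoidAlgebra.single γ⁻¹ (1 : K) • m)
  have hTπ : ∀ γ m, π (T γ m) = m := by
    intro γ m
    simp only [T]
    rw [map_smul, hσ', smul_smul, MonoidAlgebra.single_mul_single, mul_inv_cancel, mul_one,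
      ← MonoidAlgebra.one_def, one_smul]
  have hTadd : ∀ γ m m', T γ (m + m') = T γ m + T γ m' := by
    intro γ m m'
    simp only [T]
    rw [smul_add, map_add, smul_add]
  have hTN : ∀ γ (n : N) m, T (γ * n) m = T γ m := by
    intro γ n m
    simp only [T]
    have e1 : (MonoidAlgebra.single (γ * (n : Γ))⁻¹ (1 : K)) =
        MonoidAlgebra.single ((n⁻¹ : N) : Γ) 1 * MonoidAlgebra.single γ⁻¹ 1 := by
      rw [MonoidAlgebra.single_mul_single, mul_inv_rev, mul_one]
      rfl
    have e2 : (MonoidAlgebra.single γ (1 : K)) = MonoidAlgebra.single (γ * (n : Γ)) 1 *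
        MonoidAlgebra.single ((n⁻¹ : N) : Γ) 1 := by
      rw [MonoidAlgebra.single_mul_single, mul_one]
      congr 1
      simp
    rw [e1, mul_smul, hσN, smul_smul, ← e2]
  have hTg : ∀ (γ g : Γ) (a : K) (m : M), T γ (MonoidAlgebra.single g a • m) =
      MonoidAlgebra.single g a • T (g⁻¹ * γ) m := by
    intro γ g a m
    simp only [T]
    have e1 : MonoidAlgebra.single γ⁻¹ (1 : K) * MonoidAlgebra.single g a =
        MonoidAlgebra.single ((1 : N) : Γ) a * MonoidAlgebra.single (g⁻¹ * γ)⁻¹ 1 := by
      rw [MonoidAlgebra.single_mul_single, MonoidAlgebra.single_mul_single]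
      simp
    have e2 : MonoidAlgebra.single γ (1 : K) * MonoidAlgebra.single ((1 : N) : Γ) a =
        MonoidAlgebra.single g a * MonoidAlgebra.single (g⁻¹ * γ) 1 := by
      rw [MonoidAlgebra.single_mul_single, MonoidAlgebra.single_mul_single]
      simp
    rw [smul_smul, e1, mul_smul, hσN, smul_smul, e2, mul_smul]
  let s0 : M → (M →₀ MonoidAlgebra K Γ) := fun m => ∑ q : Γ ⧸ N, T q.out m
  have hout : ∀ (γ : Γ) (m : M), T (Quotient.out (γ : Γ ⧸ N)) m = T γ m := by
    intro γ m
    obtain ⟨n, hn⟩ := QuotientGroup.mk_out_eq_mul N γ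
    rw [hn, hTN]
  have hs0g : ∀ (g : Γ) (a : K) (m : M), s0 (MonoidAlgebra.single g a • m) =
      MonoidAlgebra.single g a • s0 m := by
    intro g a m
    simp only [s0]
    simp_rw [hTg]
    rw [← Finset.smul_sum]
    congr 1
    refine Fintype.sum_equiv (MulAction.toPerm g⁻¹) _ _ ?_
    intro q
    rw [MulAction.toPerm_apply]
    have e : g⁻¹ • q = ((g⁻¹ * q.out : Γ) : Γ ⧸ N) := by
      conv_lhs => rw [← QuotientGroup.out_eq' q]
      rfl
    rw [e, hout]
  have hs0add : ∀ m m' : M, s0 (m + m') = s0 m + s0 m' := by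
    intro m m'
    simp only [s0]
    simp_rw [hTadd]
    rw [Finset.sum_add_distrib]
  have hs0 : ∀ (x : MonoidAlgebra K Γ) (m : M), s0 (x • m) = x • s0 m := by
    intro x m
    induction x using MonoidAlgebra.induction_linear with
    | zero =>
      have h0 : s0 0 = 0 := by
        have := hs0add 0 0
        rw [add_zero] at this
        exact left_eq_add.1 this
      rw [zero_smul, zero_smul, h0]
    | add x y hx hy => rw [add_smul, hs0add, hx, hy, add_smul]
    | single g a => exact hs0g g a m
  set c : MonoidAlgebra K Γ := MonoidAlgebra.single 1 ((Fintype.card (Γ ⧸ N) : K)⁻¹) with hc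
  have hcomm : ∀ x : MonoidAlgebra K Γ, c * x = x * c := by
    intro x
    induction x using MonoidAlgebra.induction_linear with
    | zero => simp
    | add x y hx hy => rw [mul_add, add_mul, hx, hy]
    | single g a =>
      rw [hc, MonoidAlgebra.single_mul_single, MonoidAlgebra.single_mul_single, one_mul, mul_one,
        mul_comm]
  let s : M →ₗ[MonoidAlgebra K Γ] (M →₀ MonoidAlgebra K Γ) :=
    { toFun := fun m => c • s0 m
      map_add' := fun m m' => by rw [hs0add, smul_add]
      map_smul' := fun x m => by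
        rw [hs0, smul_smul, hcomm, mul_smul, RingHom.id_apply] }
  refine Module.Projective.of_split s π ?_
  refine LinearMap.ext fun m => ?_
  change π (c • s0 m) = m
  rw [map_smul]
  have h1 : π (s0 m) = (Fintype.card (Γ ⧸ N) : MonoidAlgebra K Γ) • m := by
    simp only [s0]
    rw [map_sum]
    simp_rw [hTπ]
    rw [Finset.sum_const, Finset.card_univ, Nat.cast_smul_eq_nsmul]
  rw [h1, smul_smul]
  have h2 : (Fintype.card (Γ ⧸ N) : MonoidAlgebra K Γ) =
      MonoidAlgebra.single 1 (Fintype.card (Γ ⧸ N) : K) := by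
    rw [MonoidAlgebra.natCast_def]
  rw [h2, hc, MonoidAlgebra.single_mul_single, one_mul, inv_mul_cancel₀, ← MonoidAlgebra.one_def,
    one_smul]
  exact Nat.cast_ne_zero.2 Fintype.card_ne_zero

end SPH
end

section

/-! # Projective dimension and exact sequences (job P1) -/

namespace SPH

universe u

/-- splitting of a surjection onto a projective module -/
private theorem pdl2_split {R : Type u} [Ring R] {F M : Type u} [AddCommGroup M] [Module R M]
    [AddCommGroup F] [Module R F] (hM : Module.Projective R M) (f : F →ₗ[R] M)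
    (hf : Function.Surjective f) : Nonempty ((LinearMap.ker f × M) ≃ₗ[R] F) := by
  obtain ⟨s, hs⟩ := Module.projective_lifting_property f LinearMap.id hf
  have hs' : ∀ m, f (s m) = m := fun m => by
    have := LinearMap.congr_fun hs m
    simpa using this
  refine ⟨LinearEquiv.ofBijective
    (LinearMap.coprod (LinearMap.ker f).subtype s) ⟨?_, ?_⟩⟩
  · rw [← LinearMap.ker_eq_bot, LinearMap.ker_eq_bot']
    rintro ⟨k, m⟩ h
    rw [LinearMap.coprod_apply, Submodule.subtype_apply] at h
    have h1 := congrArg f h
    rw [map_add, hs', map_zero, LinearMap.mem_ker.1 k.2, zero_add] at h1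
    subst h1
    rw [map_zero, add_zero] at h
    exact Prod.ext (Subtype.ext h) rfl
  · intro x
    refine ⟨(⟨x - s (f x), ?_⟩, f x), ?_⟩
    · rw [LinearMap.mem_ker, map_sub, hs', sub_self]
    · rw [LinearMap.coprod_apply, Submodule.subtype_apply, sub_add_cancel]

/-- Extensions (horseshoe lemma): if the kernel of a surjection `f : A → C` and `C` have
projective dimension at most `n`, so has `A`. -/
theorem PDLE.extension {R : Type u} [Ring R] {n : ℕ} {A C : Type u} [AddCommGroup A] [Module R A]
    [AddCommGroup C] [Module R C] (f : A →ₗ[R] C) (hf : Function.Surjective f)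
    (hk : PDLE R n (LinearMap.ker f)) (hC : PDLE R n C) : PDLE R n A := by
  induction n generalizing A C with
  | zero =>
    have hk' : Module.Projective R (LinearMap.ker f) := hk
    have hC' : Module.Projective R C := hC
    obtain ⟨e⟩ := pdl2_split hC' f hf
    exact Module.Projective.of_equiv e
  | succ n ih =>
    obtain ⟨F, i1, i2, g, hF, hg, hkg⟩ := hk
    obtain ⟨F', j1, j2, h, hF', hh, hkh⟩ := hC
    obtain ⟨h', hh'⟩ := Module.projective_lifting_property f h hf
    have hfh : ∀ b, f (h' b) = h b := fun b => by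
      have := LinearMap.congr_fun hh' b
      simpa using this
    let G : (F × F') →ₗ[R] A := LinearMap.coprod ((LinearMap.ker f).subtype ∘ₗ g) h'
    have hG : ∀ x : F × F', G x = (g x.1 : A) + h' x.2 := fun x => rfl
    refine ⟨F × F', inferInstance, inferInstance, G, inferInstance, ?_, ?_⟩
    · intro a
      obtain ⟨b, hb⟩ := hh (f a)
      have hmem : a - h' b ∈ LinearMap.ker f := by
        rw [LinearMap.mem_ker, map_sub, hfh, hb, sub_self]
      obtain ⟨x, hx⟩ := hg ⟨a - h' b, hmem⟩
      refine ⟨(x, b), ?_⟩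
      rw [hG]
      change (g x : A) + h' b = a
      rw [hx]
      exact sub_add_cancel a (h' b)
    · have hsnd : ∀ x : LinearMap.ker G,
          (LinearMap.snd R F F' ∘ₗ (LinearMap.ker G).subtype) x ∈ LinearMap.ker h := by
        intro x
        have h1 : (g (x : F × F').1 : A) + h' (x : F × F').2 = 0 := LinearMap.mem_ker.1 x.2
        have h2 := congrArg f h1
        rw [map_add, hfh, map_zero, LinearMap.mem_ker.1 (g (x : F × F').1).2, zero_add] at h2
        exact LinearMap.mem_ker.2 h2
      let q : LinearMap.ker G →ₗ[R] LinearMap.ker h :=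
        LinearMap.codRestrict (LinearMap.ker h) _ hsnd
      have hq : Function.Surjective q := by
        rintro ⟨b, hb⟩
        have hmem : -(h' b) ∈ LinearMap.ker f := by
          rw [LinearMap.mem_ker, map_neg, hfh, LinearMap.mem_ker.1 hb, neg_zero]
        obtain ⟨x, hx⟩ := hg ⟨-(h' b), hmem⟩
        refine ⟨⟨(x, b), ?_⟩, ?_⟩
        · rw [LinearMap.mem_ker, hG]
          change (g x : A) + h' b = 0
          rw [hx]
          exact neg_add_cancel (h' b)
        · apply Subtype.ext
          rfl
      refine ih q hq ?_ hkh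
      refine PDLE.equiv ?_ hkg
      exact
        { toFun := fun k => ⟨⟨((k : F), (0 : F')), by
            rw [LinearMap.mem_ker, hG]
            change (g (k : F) : A) + h' 0 = 0
            rw [LinearMap.mem_ker.1 k.2, map_zero, add_zero]
            rfl⟩, by
            rw [LinearMap.mem_ker]
            apply Subtype.ext
            rfl⟩
          map_add' := fun a b => by
            apply Subtype.ext
            apply Subtype.ext
            refine Prod.ext rfl ?_
            exact (add_zero (0 : F')).symm
          map_smul' := fun c a => by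
            apply Subtype.ext
            apply Subtype.ext
            refine Prod.ext rfl ?_
            exact (smul_zero c).symm
          invFun := fun k => ⟨((k : LinearMap.ker G) : F × F').1, by
            have h1 : (g ((k : LinearMap.ker G) : F × F').1 : A)
                + h' ((k : LinearMap.ker G) : F × F').2 = 0 :=
              LinearMap.mem_ker.1 (k : LinearMap.ker G).2
            have h2 : ((k : LinearMap.ker G) : F × F').2 = 0 :=
              congrArg Subtype.val (LinearMap.mem_ker.1 k.2)
            rw [h2, map_zero, add_zero] at h1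
            exact LinearMap.mem_ker.2 (Subtype.ext h1)⟩
          left_inv := fun k => rfl
          right_inv := fun k => by
            have h2 : ((k : LinearMap.ker G) : F × F').2 = 0 :=
              congrArg Subtype.val (LinearMap.mem_ker.1 k.2)
            apply Subtype.ext
            apply Subtype.ext
            exact Prod.ext rfl h2.symm }

/-- Cokernels: if `f : A → C` is surjective, its kernel has projective dimension at most `n` and
`A` has projective dimension at most `n + 1`, then `C` has projective dimension at most `n + 1`. -/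
theorem PDLE.coker {R : Type u} [Ring R] {n : ℕ} {A C : Type u} [AddCommGroup A] [Module R A]
    [AddCommGroup C] [Module R C] (f : A →ₗ[R] C) (hf : Function.Surjective f)
    (hk : PDLE R n (LinearMap.ker f)) (hA : PDLE R (n + 1) A) : PDLE R (n + 1) C := by
  obtain ⟨F, i1, i2, g, hF, hg, hkg⟩ := hA
  refine ⟨F, i1, i2, f ∘ₗ g, hF, ?_, ?_⟩
  · rw [LinearMap.coe_comp]
    exact hf.comp hg
  · have hmem : ∀ x : LinearMap.ker (f ∘ₗ g),
        (g ∘ₗ (LinearMap.ker (f ∘ₗ g)).subtype) x ∈ LinearMap.ker f := fun x =>
      LinearMap.mem_ker.2 (LinearMap.mem_ker.1 x.2)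
    let q : LinearMap.ker (f ∘ₗ g) →ₗ[R] LinearMap.ker f :=
      LinearMap.codRestrict (LinearMap.ker f) _ hmem
    have hq : Function.Surjective q := by
      rintro ⟨b, hb⟩
      obtain ⟨x, hx⟩ := hg b
      refine ⟨⟨x, ?_⟩, ?_⟩
      · rw [LinearMap.mem_ker, LinearMap.comp_apply, hx]
        exact LinearMap.mem_ker.1 hb
      · apply Subtype.ext
        exact hx
    refine PDLE.extension q hq ?_ hk
    refine PDLE.equiv ?_ hkg
    exact
      { toFun := fun k => ⟨⟨(k : F), by
          rw [LinearMap.mem_ker, LinearMap.comp_apply, LinearMap.mem_ker.1 k.2, map_zero]⟩, by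
          rw [LinearMap.mem_ker]
          apply Subtype.ext
          exact LinearMap.mem_ker.1 k.2⟩
        map_add' := fun a b => rfl
        map_smul' := fun c a => rfl
        invFun := fun k => ⟨((k : LinearMap.ker (f ∘ₗ g)) : F), by
          rw [LinearMap.mem_ker]
          exact congrArg Subtype.val (LinearMap.mem_ker.1 k.2)⟩
        left_inv := fun k => rfl
        right_inv := fun k => rfl }

end SPH
end

section

/-! # A ring whose projective modules have rank divisible by m has no zero divisors (job R3) -/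

namespace SPH

universe u v

private def rc_kerEquiv {R S : Type u} [Ring R] [Ring S] [Module R S]
    {M N : Type u} [AddCommGroup M] [Module S M] [Module R M] [IsScalarTower R S M]
    [AddCommGroup N] [Module S N] [Module R N] [IsScalarTower R S N] (f : M →ₗ[S] N) :
    LinearMap.ker (f.restrictScalars R) ≃ₗ[R] LinearMap.ker f where
  toFun x := ⟨x.1, x.2⟩
  invFun x := ⟨x.1, x.2⟩
  left_inv _ := rfl
  right_inv _ := rfl
  map_add' _ _ := rfl
  map_smul' _ _ := rfl

private def rc_rangeEquiv {R S : Type u} [Ring R] [Ring S] [Module R S]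
    {M N : Type u} [AddCommGroup M] [Module S M] [Module R M] [IsScalarTower R S M]
    [AddCommGroup N] [Module S N] [Module R N] [IsScalarTower R S N] (f : M →ₗ[S] N) :
    LinearMap.range (f.restrictScalars R) ≃ₗ[R] LinearMap.range f where
  toFun x := ⟨x.1, x.2⟩
  invFun x := ⟨x.1, x.2⟩
  left_inv _ := rfl
  right_inv _ := rfl
  map_add' _ _ := rfl
  map_smul' _ _ := rfl

private theorem rc_torsion {R M : Type u} [Ring R] [IsDomain R] [AddCommGroup M] [Module R M]
    [Module.Free R M] (r : R) (x : M) (h : r • x = 0) : r = 0 ∨ x = 0 := by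
  by_cases hr : r = 0
  · exact Or.inl hr
  · right
    have b := Module.Free.chooseBasis R M
    apply b.repr.injective
    ext i
    have h1 : r * b.repr x i = 0 := by
      have h2 := congrArg (fun y => b.repr y i) h
      simpa using h2
    simpa using (mul_eq_zero.mp h1).resolve_left hr

private theorem rc_claim {R S : Type u} [Ring R] [Ring S] [Module R S]
    [IsScalarTower R S S] [IsDomain R] [IsNoetherianRing R]
    [Module.Finite R S] [Module.Free R S] (m : ℕ) (hm : Module.finrank R S = m)
    (hproj : ∀ (M : Type u) [AddCommGroup M] [Module S M] [Module R M] [IsScalarTower R S M],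
      Module.Projective R M → Module.Projective S M)
    (hdiv : ∀ (n : ℕ) (e : (Fin n → S) →ₗ[S] (Fin n → S)), e ∘ₗ e = e →
      m ∣ Module.finrank R (LinearMap.range e)) (j : ℕ) :
    ∀ (M : Type u) [AddCommGroup M] [Module S M] [Module R M] [IsScalarTower R S M],
      Module.Finite S M → PDLE R j M → m ∣ Module.finrank R M := by
  induction j with
  | zero =>
    intro M _ _ _ _ hfin hpd
    have hP : Module.Projective S M := hproj M hpd
    obtain ⟨n, π, hπ⟩ := Module.Finite.exists_fin' S M
    obtain ⟨σ, hσ⟩ := Module.projective_lifting_property π (LinearMap.id : M →ₗ[S] M) hπ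
    have hσ' : ∀ x, π (σ x) = x := fun x => by
      have := LinearMap.congr_fun hσ x
      simpa using this
    have hinj : Function.Injective σ := fun x y hxy => by
      rw [← hσ' x, ← hσ' y, hxy]
    have h1 := hdiv n (σ ∘ₗ π) (by
      ext1
      ext1
      simp [hσ'])
    have hrange : LinearMap.range (σ ∘ₗ π) = LinearMap.range σ :=
      LinearMap.range_comp_of_range_eq_top σ (LinearMap.range_eq_top.mpr hπ)
    rw [hrange] at h1
    have e : M ≃ₗ[R] LinearMap.range σ := (LinearEquiv.ofInjective σ hinj).restrictScalars R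
    rw [finrank_eq_of_equiv e]
    exact h1
  | succ j ih =>
    intro M _ _ _ _ hfin hpd
    obtain ⟨a, π, hπ⟩ := Module.Finite.exists_fin' S M
    have hNoe : IsNoetherian R (Fin a → S) := inferInstance
    have hNoeS : IsNoetherian S (Fin a → S) := isNoetherian_of_tower R hNoe
    have hkfin : Module.Finite S (LinearMap.ker π) := inferInstance
    have hker : PDLE R j (LinearMap.ker (π.restrictScalars R)) :=
      PDLE.ker hpd (inferInstance : Module.Projective R (Fin a → S)) (π.restrictScalars R) hπ
    have h1 := ih (LinearMap.ker π) hkfin (PDLE.equiv (rc_kerEquiv π) hker)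
    have h2 := finrank_ker_add_finrank_range (π.restrictScalars R)
    have h3 : Module.finrank R (LinearMap.range (π.restrictScalars R)) = Module.finrank R M := by
      have : LinearMap.range (π.restrictScalars R) = ⊤ := LinearMap.range_eq_top.mpr hπ
      rw [this]
      exact finrank_eq_of_equiv Submodule.topEquiv
    have h4 : Module.finrank R (Fin a → S) = a * m := by
      rw [Module.finrank_pi_fintype]
      simp [hm]
    rw [h3, finrank_eq_of_equiv (rc_kerEquiv π), h4] at h2
    rw [← Nat.dvd_add_right h1, h2]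
    exact Dvd.intro_left a rfl

theorem noZeroDivisors_of_rank {R S : Type u} [Ring R] [Ring S] [Module R S]
    [IsScalarTower R S S] [IsDomain R] [IsNoetherianRing R] [Nontrivial S]
    [Module.Finite R S] [Module.Free R S] (m : ℕ) (hm : Module.finrank R S = m)
    (hproj : ∀ (M : Type u) [AddCommGroup M] [Module S M] [Module R M] [IsScalarTower R S M],
      Module.Projective R M → Module.Projective S M)
    (hpd : ∀ (M : Type u) [AddCommGroup M] [Module R M], ∃ n, PDLE R n M)
    (hdiv : ∀ (n : ℕ) (e : (Fin n → S) →ₗ[S] (Fin n → S)), e ∘ₗ e = e →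
      m ∣ Module.finrank R (LinearMap.range e)) : NoZeroDivisors S := by
  constructor
  intro a b hab
  by_contra hcon
  push Not at hcon
  obtain ⟨ha, hb⟩ := hcon
  let f : S →ₗ[S] S := LinearMap.toSpanSingleton S S b
  have hf : ∀ s, f s = s * b := fun s => rfl
  have hNoe : IsNoetherian R S := inferInstance
  have hk : Nontrivial (LinearMap.ker (f.restrictScalars R)) := by
    refine ⟨⟨⟨a, ?_⟩, 0, ?_⟩⟩
    · show f a = 0
      rw [hf, hab]
    · intro h
      exact ha (congrArg Subtype.val h)
  have hr : Nontrivial (LinearMap.range (f.restrictScalars R)) := by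
    refine ⟨⟨⟨b, 1, ?_⟩, 0, ?_⟩⟩
    · show f 1 = b
      rw [hf, one_mul]
    · intro h
      exact hb (congrArg Subtype.val h)
  have h1 := finrank_ker_add_finrank_range (f.restrictScalars R)
  rw [hm] at h1
  have h2 : 0 < Module.finrank R (LinearMap.ker (f.restrictScalars R)) := by
    apply finrank_pos_of_torsionFree
    intro r x hx
    have := rc_torsion r (x : S) (congrArg Subtype.val hx)
    rcases this with h | h
    · exact Or.inl h
    · exact Or.inr (Subtype.ext h)
  have h3 : 0 < Module.finrank R (LinearMap.range (f.restrictScalars R)) := by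
    apply finrank_pos_of_torsionFree
    intro r x hx
    have := rc_torsion r (x : S) (congrArg Subtype.val hx)
    rcases this with h | h
    · exact Or.inl h
    · exact Or.inr (Subtype.ext h)
  obtain ⟨n, hn⟩ := hpd (LinearMap.range f)
  have h4 := rc_claim m hm hproj hdiv n (LinearMap.range f) (Module.Finite.range f) hn
  rw [← finrank_eq_of_equiv (rc_rangeEquiv (R := R) f)] at h4
  have h5 := Nat.le_of_dvd h3 h4
  omega

end SPH
end

section

/-! # Projective dimension of signed permutation modules with coefficients (job P4) -/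

namespace SPH

universe u

section IndMap

variable {Γ : Type u} [Group Γ] (D : SData Γ) (K : Type u) [Field K]
  {A B : Type u} [AddCommGroup A] [Module (MonoidAlgebra K Γ) A]
  [AddCommGroup B] [Module (MonoidAlgebra K Γ) B]

/-- functoriality, additive version -/
private noncomputable def ipAdd (φ : A →ₗ[MonoidAlgebra K Γ] B) :
    SData.Ind D A →+ SData.Ind D B :=
  Finsupp.mapRange.addMonoidHom (ι := D.X) φ.toAddMonoidHom

private theorem ipAdd_sg (φ : A →ₗ[MonoidAlgebra K Γ] B) (x : D.X) (a : A) :
    ipAdd D K φ (SData.sg D A x a) = SData.sg D B x (φ a) :=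
  Finsupp.mapRange_single (hf := map_zero φ)

private theorem ipAdd_apply (φ : A →ₗ[MonoidAlgebra K Γ] B) (t : D.X →₀ A) (x : D.X) :
    (show D.X →₀ B from ipAdd D K φ t) x = φ (t x) := rfl

private theorem ipAdd_smul_single (φ : A →ₗ[MonoidAlgebra K Γ] B) (γ : Γ) (a : K)
    (t : SData.Ind D A) :
    ipAdd D K φ ((MonoidAlgebra.single γ a : MonoidAlgebra K Γ) • t) =
      (MonoidAlgebra.single γ a : MonoidAlgebra K Γ) • ipAdd D K φ t := by
  refine SData.induction (p := fun t => ipAdd D K φ ((MonoidAlgebra.single γ a :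
    MonoidAlgebra K Γ) • t) = (MonoidAlgebra.single γ a : MonoidAlgebra K Γ) • ipAdd D K φ t)
    t ?_ ?_ ?_
  · change ipAdd D K φ ((MonoidAlgebra.single γ a : MonoidAlgebra K Γ) • (0 : SData.Ind D A)) =
      (MonoidAlgebra.single γ a : MonoidAlgebra K Γ) • ipAdd D K φ 0
    rw [smul_zero, map_zero, smul_zero]
  · intro s t hs ht
    rw [smul_add, map_add, map_add, smul_add, hs, ht]
  · intro x m
    rw [SData.single_smul_sg, ipAdd_sg, ipAdd_sg, SData.single_smul_sg]
    congr 1
    rw [Units.smul_def, Units.smul_def, map_zsmul, map_smul]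

private theorem ipAdd_smul (φ : A →ₗ[MonoidAlgebra K Γ] B) (r : MonoidAlgebra K Γ)
    (t : SData.Ind D A) : ipAdd D K φ (r • t) = r • ipAdd D K φ t := by
  induction r using MonoidAlgebra.induction_linear with
  | zero => rw [zero_smul, zero_smul, map_zero]
  | add x y hx hy => rw [add_smul, add_smul, map_add, hx, hy]
  | single γ a => exact ipAdd_smul_single D K φ γ a t

/-- functoriality -/
private noncomputable def ipMap (φ : A →ₗ[MonoidAlgebra K Γ] B) :
    SData.Ind D A →ₗ[MonoidAlgebra K Γ] SData.Ind D B where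
  toFun := ipAdd D K φ
  map_add' := map_add _
  map_smul' := fun r t => ipAdd_smul D K φ r t

private theorem ipMap_surjective (φ : A →ₗ[MonoidAlgebra K Γ] B) (h : Function.Surjective φ) :
    Function.Surjective (ipMap D K φ) :=
  Finsupp.mapRange_surjective (α := D.X) φ (map_zero φ) h

private theorem ipMap_injective (φ : A →ₗ[MonoidAlgebra K Γ] B) (h : Function.Injective φ) :
    Function.Injective (ipMap D K φ) :=
  Finsupp.mapRange_injective (α := D.X) φ (map_zero φ) h

private theorem ip_range (φ : A →ₗ[MonoidAlgebra K Γ] B) :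
    LinearMap.range (ipMap D K (LinearMap.ker φ).subtype) = LinearMap.ker (ipMap D K φ) := by
  ext t
  constructor
  · rintro ⟨s, rfl⟩
    rw [LinearMap.mem_ker]
    apply Finsupp.ext (α := D.X)
    intro x
    exact LinearMap.mem_ker.1 ((show D.X →₀ LinearMap.ker φ from s) x).2
  · intro ht
    rw [LinearMap.mem_ker] at ht
    have h : ∀ x, φ ((show D.X →₀ A from t) x) = 0 := fun x =>
      DFunLike.congr_fun (show (show D.X →₀ B from ipMap D K φ t) = (0 : D.X →₀ B) from ht) x
    let s : D.X →₀ LinearMap.ker φ :=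
      { support := (show D.X →₀ A from t).support
        toFun := fun x => ⟨(show D.X →₀ A from t) x, LinearMap.mem_ker.2 (h x)⟩
        mem_support_toFun := fun x => by
          rw [Finsupp.mem_support_iff, Ne, Ne, Subtype.ext_iff]
          rfl }
    refine ⟨s, ?_⟩
    apply Finsupp.ext (α := D.X)
    intro x
    rfl

private noncomputable def ipKer (φ : A →ₗ[MonoidAlgebra K Γ] B) :
    SData.Ind D (LinearMap.ker φ) ≃ₗ[MonoidAlgebra K Γ] LinearMap.ker (ipMap D K φ) :=
  (LinearEquiv.ofInjective (ipMap D K (LinearMap.ker φ).subtype)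
    (ipMap_injective D K _ (LinearMap.ker φ).injective_subtype)).trans
    (LinearEquiv.ofEq _ _ (ip_range D K φ))

end IndMap

section RsMap

variable (K : Type u) [Field K] {Γ : Type u} [Group Γ] (H : Subgroup Γ)
  {A B : Type u} [AddCommGroup A] [Module (MonoidAlgebra K Γ) A]
  [AddCommGroup B] [Module (MonoidAlgebra K Γ) B]

private noncomputable def ipRs (φ : A →ₗ[MonoidAlgebra K Γ] B) :
    Rs K H A →ₗ[MonoidAlgebra K H] Rs K H B where
  toFun := fun a => (φ a : B)
  map_add' := fun a b => φ.map_add a b
  map_smul' := fun r a => φ.map_smul (resHom K H r) a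

private noncomputable def ipRsKer (φ : A →ₗ[MonoidAlgebra K Γ] B) :
    LinearMap.ker (ipRs K H φ) ≃ₗ[MonoidAlgebra K H] Rs K H (LinearMap.ker φ) where
  toFun := fun k => (⟨k.1, LinearMap.mem_ker.2 (LinearMap.mem_ker.1 k.2)⟩ : LinearMap.ker φ)
  map_add' := fun a b => rfl
  map_smul' := fun c a => rfl
  invFun := fun k => ⟨(show LinearMap.ker φ from k).1, LinearMap.mem_ker.2
    (LinearMap.mem_ker.1 (show LinearMap.ker φ from k).2)⟩
  left_inv := fun k => rfl
  right_inv := fun k => rfl

private noncomputable def ipRsFree (M : Type u) :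
    (M →₀ MonoidAlgebra K Γ) ≃ₗ[MonoidAlgebra K H] Rs K H (M →₀ MonoidAlgebra K Γ) where
  toFun := fun f => f
  map_add' := fun a b => rfl
  map_smul' := fun c a => by
    apply Finsupp.ext (α := M)
    intro x
    rfl
  invFun := fun f => f
  left_inv := fun k => rfl
  right_inv := fun k => rfl

private theorem ipRs_projective (M : Type u) :
    Module.Projective (MonoidAlgebra K H) (Rs K H (M →₀ MonoidAlgebra K Γ)) := by
  have : Module.Free (MonoidAlgebra K H) (MonoidAlgebra K Γ) := free_sub H
  have : Module.Projective (MonoidAlgebra K H) (M →₀ MonoidAlgebra K Γ) := inferInstance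
  exact Module.Projective.of_equiv (ipRsFree K H M)

end RsMap

theorem SData.pdle {Γ : Type u} [Group Γ] (D : SData Γ) (K : Type u) [Field K] (d : ℕ) :
    ∀ (M : Type u) [AddCommGroup M] [Module (MonoidAlgebra K Γ) M],
      (∀ x : D.X, PDLE (MonoidAlgebra K (D.stab x)) d (Rs K (D.stab x) M)) →
        PDLE (MonoidAlgebra K Γ) d (SData.Ind D M) := by
  induction d with
  | zero =>
    intro M _ _ h
    exact SData.projective D K M (fun x => h x)
  | succ d ih =>
    intro M _ _ h
    set F := (M →₀ MonoidAlgebra K Γ) with hF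
    let π : (M →₀ MonoidAlgebra K Γ) →ₗ[MonoidAlgebra K Γ] M :=
      Finsupp.linearCombination (MonoidAlgebra K Γ) (id : M → M)
    have hπ : Function.Surjective π := Finsupp.linearCombination_id_surjective _ _
    -- the kernel
    have hL : ∀ x : D.X, PDLE (MonoidAlgebra K (D.stab x)) d
        (Rs K (D.stab x) (LinearMap.ker π)) := by
      intro x
      refine PDLE.equiv (ipRsKer K (D.stab x) π) ?_
      exact PDLE.ker (h x) (ipRs_projective K (D.stab x) M) (ipRs K (D.stab x) π) hπ
    have h1 := ih (LinearMap.ker π) hL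
    have h2 : Module.Projective (MonoidAlgebra K Γ) (SData.Ind D (M →₀ MonoidAlgebra K Γ)) :=
      SData.projective D K _ (fun x => ipRs_projective K (D.stab x) M)
    exact ⟨SData.Ind D (M →₀ MonoidAlgebra K Γ), inferInstance, inferInstance, ipMap D K π, h2,
      ipMap_surjective D K π hπ, PDLE.equiv (ipKer D K π) h1⟩

end SPH
end

section

/-! # The pure group is congruent to one modulo h (job K7) -/

namespace SPH

open scoped Classical
open Polynomial

universe u

set_option linter.unusedSectionVars false

variable {S : Type u} [Fintype S] [DecidableEq S] {G : SimpleGraph S} [Fintype (PRoot G)]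

/-- The statement that `A` acts modulo `X` by the signed permutation of the positive roots. -/
private def K7P (hG : PosDef G) (D : TData G) (g : AGrp G) : Prop :=
  ∀ (f : PRoot G → PowerSeries ℤ) (γ δ : PRoot G),
    (γ.1 = toW G g δ.1 ∨ γ.1 = - toW G g δ.1) →
    PowerSeries.constantCoeff ((lkRep hG D xU tU g).val f γ) = PowerSeries.constantCoeff (f δ)

private theorem k7_eq_of (γ δ : PRoot G) (h : γ.1 = δ.1 ∨ γ.1 = - δ.1) : γ = δ := by
  rcases h with h | h
  · exact Subtype.ext h
  · exact absurd (h ▸ γ.2 : IsPos G (-δ.1)) (IsPos.not_neg δ.2)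

private theorem k7_gen (hG : PosDef G) (D : TData G) (s : S) : K7P hG D (gen G s) := by
  intro f γ δ h
  rw [lkRep_gen, toW_gen, rfE_apply] at *
  have hx : PowerSeries.constantCoeff (xU : PowerSeries ℤ) = 1 := by rw [xU_val]; simp
  have hy : PowerSeries.constantCoeff (tU : PowerSeries ℤ) = 1 := by rw [tU_val]; simp
  have h' : rf G s γ.1 = δ.1 ∨ rf G s γ.1 = - δ.1 := by
    rcases h with h | h
    · left; rw [h, rf_rf]
    · right; rw [h, rf_neg, rf_rf]
  simp only [lk, LinearMap.coe_mk, AddHom.coe_mk]
  split_ifs with h1 h2 h3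
  · have hδ : δ.1 = sr s := by
      rw [h1, rf_sr] at h'
      rcases h' with h' | h'
      · exfalso
        have := δ.2
        rw [← h'] at this
        exact IsPos.not_neg (isPos_sr G s) this
      · exact (neg_injective h').symm
    have hγδ : γ = δ := Subtype.ext (h1.trans hδ.symm)
    subst hγδ
    rw [map_mul, hx, one_mul, map_sum, Finset.sum_eq_single γ]
    · rw [map_mul, h1, D.self]
      simp [hy]
    · intro β _ hβ
      have hne : β.1 ≠ sr s := fun e => hβ (Subtype.ext (e.trans h1.symm))
      have h0 := D.spec s β.1 β.2 hne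
      rw [map_mul]
      refine mul_eq_zero_of_left ?_ _
      have hh : ∀ φ : ℤ →+* PowerSeries ℤ, PowerSeries.constantCoeff
          (Polynomial.eval₂ φ (tU : PowerSeries ℤ) (D.T s β.1)) = 0 := by
        intro φ
        rw [Polynomial.hom_eval₂, hy, RingHom.ext_int (RingHom.comp _ φ) (RingHom.id ℤ)]
        exact h0
      exact hh _
    · intro h; exact absurd (Finset.mem_univ _) h
  · have : rf G s γ.1 = γ.1 := by rw [rf, h2, zero_smul, sub_zero]
    rw [this] at h'
    rw [k7_eq_of γ δ h']
  · have e : rf G s γ.1 = γ.1 - sr s := by rw [rf, h3, one_smul]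
    have hp : IsPos G (γ.1 - sr s) := IsPos.sub_sr hG γ.2 h3
    rw [e] at h'
    have : (⟨γ.1 - sr s, hp⟩ : PRoot G) = δ := k7_eq_of _ _ h'
    rw [ext0, dif_pos hp, this]
  · have h4 : pr G s γ.1 = -1 := by
      rcases IsPos.pr_cases hG γ.2 h1 with h | h | h
      · exact h
      · exact absurd h h2
      · exact absurd h h3
    have e : rf G s γ.1 = γ.1 + sr s := by rw [rf, h4, neg_smul, one_smul, sub_neg_eq_add]
    have hp : IsPos G (γ.1 + sr s) := IsPos.add_sr γ.2 h4
    rw [e] at h'
    have : (⟨γ.1 + sr s, hp⟩ : PRoot G) = δ := k7_eq_of _ _ h'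
    rw [ext0, dif_pos hp, this, map_add, map_mul, map_mul, map_sub, hy]
    simp

private theorem k7_ex (hG : PosDef G) (g : AGrp G) (γ : PRoot G) :
    ∃ δ : PRoot G, δ.1 = toW G g γ.1 ∨ δ.1 = - toW G g γ.1 := by
  rcases IsRoot.pos_or_neg hG (isRoot_toW G g γ.2.1) with h | h
  · exact ⟨⟨_, h⟩, Or.inl rfl⟩
  · exact ⟨⟨_, h⟩, Or.inr rfl⟩

private theorem k7_all (hG : PosDef G) (D : TData G) (g : AGrp G) : K7P hG D g := by
  have key : ∀ g : AGrp G, g ∈ (⊤ : Subgroup (AGrp G)) → K7P hG D g := by
    rw [← PresentedGroup.closure_range_of (artinRel G)]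
    intro g hg
    induction hg using Subgroup.closure_induction with
    | mem x hx =>
      obtain ⟨s, rfl⟩ := hx
      exact k7_gen hG D s
    | one =>
      intro f γ δ h
      have : γ = δ := k7_eq_of _ _ (by simpa using h)
      simp [this]
    | mul x y _ _ hx hy =>
      intro f γ δ h
      rw [map_mul, Units.val_mul, Module.End.mul_apply]
      obtain ⟨ε, hε⟩ := k7_ex hG y δ
      rw [hx _ γ ε, hy _ ε δ hε]
      rw [map_mul] at h
      have hm : ∀ v, (toW G x * toW G y) v = toW G x (toW G y v) := fun v => rfl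
      rw [hm] at h
      rcases hε with e | e
      · rw [e]; exact h
      · rw [e, map_neg, neg_neg]; exact h.symm
    | inv x _ hx =>
      intro f γ δ h
      rw [map_inv]
      have e1 : (lkRep hG D xU tU x).val ((((lkRep hG D xU tU x)⁻¹ :
          (Module.End (PowerSeries ℤ) (PRoot G → PowerSeries ℤ))ˣ)).val f) = f := by
        rw [← Module.End.mul_apply, Units.mul_inv, Module.End.one_apply]
      rw [← hx _ δ γ, e1]
      rw [map_inv] at h
      rcases h with h | h
      · left
        rw [h]
        exact ((toW G x).apply_symm_apply δ.1).symm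
      · right
        rw [h, map_neg, neg_neg]
        exact ((toW G x).apply_symm_apply δ.1).symm
  exact key g trivial

theorem lkRep_mod (hG : PosDef G) (D : TData G) (g : AGrp G) (hg : toW G g = 1) :
    ∃ Y : Module.End (PowerSeries ℤ) (PRoot G → PowerSeries ℤ),
      (lkRep hG D xU tU g).val = 1 + (PowerSeries.X : PowerSeries ℤ) • Y := by
  have hdvd : ∀ (f : PRoot G → PowerSeries ℤ) (γ : PRoot G),
      (PowerSeries.X : PowerSeries ℤ) ∣ (lkRep hG D xU tU g).val f γ - f γ := by
    intro f γ
    rw [PowerSeries.X_dvd_iff, map_sub, sub_eq_zero]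
    exact k7_all hG D g f γ γ (Or.inl (by rw [hg]; rfl))
  choose q hq using hdvd
  have hX : (PowerSeries.X : PowerSeries ℤ) ≠ 0 := PowerSeries.X_ne_zero
  refine ⟨{ toFun := q, map_add' := ?_, map_smul' := ?_ }, ?_⟩
  · intro f f'
    funext γ
    apply mul_left_cancel₀ hX
    rw [Pi.add_apply, mul_add, ← hq, ← hq, ← hq, map_add, Pi.add_apply, Pi.add_apply]
    ring
  · intro c f
    funext γ
    apply mul_left_cancel₀ hX
    rw [RingHom.id_apply, Pi.smul_apply, smul_eq_mul, mul_left_comm, ← hq, ← hq, map_smul,
      Pi.smul_apply, Pi.smul_apply, smul_eq_mul, smul_eq_mul]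
    ring
  · apply LinearMap.ext
    intro f
    funext γ
    rw [LinearMap.add_apply, LinearMap.smul_apply, Pi.add_apply, Pi.smul_apply, smul_eq_mul]
    change _ = f γ + PowerSeries.X * q f γ
    rw [← hq]; ring

end SPH
end

section

/-! # Matrices over `O[Γ]` as matrices over `O[N]` (job P16) -/

namespace SPH

universe u v

section

variable {O : Type u} [CommRing O] {Γ : Type u} [Group Γ] (N : Subgroup Γ)

/-- The matrix over `O[N]` of the right multiplication by `y` in the basis of the representatives
of the right cosets. -/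
noncomputable def blk (y : MonoidAlgebra O Γ) : Matrix (RCos N) (RCos N) (MonoidAlgebra O N) :=
  fun c c' => (subBasis O N).repr (MonoidAlgebra.single (Quotient.out c) (1 : O) * y) c'

/-- The matrix over `O[N]` of a matrix over `O[Γ]`. -/
noncomputable def blkM {n : ℕ} (e : Matrix (Fin n) (Fin n) (MonoidAlgebra O Γ)) :
    Matrix (Σ _ : Fin n, RCos N) (Σ _ : Fin n, RCos N) (MonoidAlgebra O N) :=
  fun a b => blk N (e a.1 b.1) a.2 b.2

private theorem blk_apply (y : MonoidAlgebra O Γ) (c c' : RCos N) :
    blk N y c c' = (subBasis O N).repr (MonoidAlgebra.single (Quotient.out c) (1 : O) * y) c' := rfl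

private theorem blk_sum {ι : Type v} (s : Finset ι) (y : ι → MonoidAlgebra O Γ) (c c' : RCos N) :
    blk N (∑ k ∈ s, y k) c c' = ∑ k ∈ s, blk N (y k) c c' := by
  simp only [blk_apply]
  rw [Finset.mul_sum, map_sum, Finsupp.finsetSum_apply]

private theorem blk_mul [Fintype (RCos N)] (x y : MonoidAlgebra O Γ) (c c'' : RCos N) :
    blk N (x * y) c c'' = ∑ c', blk N x c c' * blk N y c' c'' := by
  rw [blk_apply, ← mul_assoc]
  have h1 : MonoidAlgebra.single (Quotient.out c) (1 : O) * x =
      ∑ c', blk N x c c' • (subBasis O N c') :=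
    ((subBasis O N).sum_repr _).symm
  rw [h1, Finset.sum_mul, map_sum, Finsupp.finsetSum_apply]
  refine Finset.sum_congr rfl fun c' _ => ?_
  have h2 : (blk N x c c' • (subBasis O N c')) * y =
      blk N x c c' • ((subBasis O N c') * y) := by
    rw [sub_smul_def, sub_smul_def, mul_assoc]
  rw [h2, map_smul, Finsupp.smul_apply, smul_eq_mul, subBasis_apply, blk_apply N y]

theorem blkM_mul [Fintype (RCos N)] {n : ℕ} (e e' : Matrix (Fin n) (Fin n) (MonoidAlgebra O Γ)) :
    blkM N (e * e') = blkM N e * blkM N e' := by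
  refine Matrix.ext ?_
  rintro ⟨i, c⟩ ⟨j, c''⟩
  rw [Matrix.mul_apply, Fintype.sum_sigma]
  change blk N ((e * e') i j) c c'' = ∑ k, ∑ c', blk N (e i k) c c' * blk N (e' k j) c' c''
  rw [Matrix.mul_apply, blk_sum]
  exact Finset.sum_congr rfl fun k _ => blk_mul N _ _ _ _

theorem blkM_map {K : Type u} [CommRing K] (π : O →+* K) {n : ℕ}
    (e : Matrix (Fin n) (Fin n) (MonoidAlgebra O Γ)) :
    blkM N (e.map (MonoidAlgebra.mapRingHom Γ π)) =
      (blkM N e).map (MonoidAlgebra.mapRingHom N π) := by
  refine Matrix.ext ?_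
  rintro ⟨i, c⟩ ⟨j, c'⟩
  change blk N (MonoidAlgebra.mapRingHom Γ π (e i j)) c c' =
    MonoidAlgebra.mapRingHom N π (blk N (e i j) c c')
  have h1 : MonoidAlgebra.single (Quotient.out c) (1 : K) * MonoidAlgebra.mapRingHom Γ π (e i j) =
      MonoidAlgebra.mapRingHom Γ π (MonoidAlgebra.single (Quotient.out c) (1 : O) * e i j) := by
    rw [map_mul, MonoidAlgebra.mapRingHom_single, map_one]
  ext m
  rw [blk_apply, h1, is_repr_coeff, MonoidAlgebra.coeff_mapRingHom, MonoidAlgebra.coeff_mapRingHom,
    blk_apply, is_repr_coeff]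

theorem trace_blkM [Fintype (RCos N)] [N.Normal] {n : ℕ}
    (e : Matrix (Fin n) (Fin n) (MonoidAlgebra O Γ)) :
    Matrix.trace ((blkM N e).map (aug O N)) = N.index * subSum N (Matrix.trace e) := by
  rw [Matrix.trace, Fintype.sum_sigma]
  have hdiag : ∀ (i : Fin n) (c : RCos N),
      ((blkM N e).map (aug O N)).diag ⟨i, c⟩ = subSum N (e i i) := by
    intro i c
    exact is_diag N c (e i i)
  simp only [hdiag, Finset.sum_const, Finset.card_univ, nsmul_eq_mul]
  rw [← Finset.mul_sum, Matrix.trace, is_subSum_sum, ← Nat.card_eq_fintype_card, rcos_card]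
  rfl

theorem aug_mapRingHom {K : Type u} [CommRing K] (π : O →+* K) (G : Type u) [Group G]
    (x : MonoidAlgebra O G) :
    aug K G (MonoidAlgebra.mapRingHom G π x) = π (aug O G x) := by
  induction x using MonoidAlgebra.induction_linear with
  | zero => simp
  | add x y hx hy => rw [map_add, map_add, map_add, map_add, hx, hy]
  | single g a => rw [MonoidAlgebra.mapRingHom_single, is_aug_single, is_aug_single]

end

theorem finrank_range_blkM {K : Type u} [Field K] {Γ : Type u} [Group Γ] (N : Subgroup Γ)
    [Fintype (RCos N)] [DecidableEq (RCos N)] {n : ℕ}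
    (e : Matrix (Fin n) (Fin n) (MonoidAlgebra K Γ)) :
    Module.finrank (MonoidAlgebra K N) (LinearMap.range (Matrix.toLinearMapRight' e)) =
      Module.finrank (MonoidAlgebra K N)
        (LinearMap.range (Matrix.toLinearMapRight' (blkM N e))) := by
  classical
  set B : Module.Basis (Σ _ : Fin n, RCos N) (MonoidAlgebra K N) (Fin n → MonoidAlgebra K Γ) :=
    Pi.basis (fun _ : Fin n => subBasis K N) with hB
  set L : (Fin n → MonoidAlgebra K Γ) →ₗ[MonoidAlgebra K N] (Fin n → MonoidAlgebra K Γ) :=
    (Matrix.toLinearMapRight' e).restrictScalars (MonoidAlgebra K N) with hL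
  set Φ := B.equivFun with hΦ
  set L' : ((Σ _ : Fin n, RCos N) → MonoidAlgebra K N) →ₗ[MonoidAlgebra K N]
      ((Σ _ : Fin n, RCos N) → MonoidAlgebra K N) :=
    Φ.toLinearMap ∘ₗ L ∘ₗ Φ.symm.toLinearMap with hL'
  have hE : LinearMap.toMatrixRight' L' = blkM N e := by
    refine Matrix.ext ?_
    rintro ⟨i, c⟩ ⟨j, c'⟩
    have h1 : LinearMap.toMatrixRight' L' ⟨i, c⟩ ⟨j, c'⟩ = L' (Pi.single ⟨i, c⟩ 1) ⟨j, c'⟩ := rfl
    have h2 : Φ.symm (Pi.single ⟨i, c⟩ 1) = Pi.single i (subBasis K N c) := by
      have h4 : Pi.single i (subBasis K N c) = B ⟨i, c⟩ := by rw [hB, Pi.basis_apply]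
      rw [h4, LinearEquiv.symm_apply_eq, hΦ]
      funext j
      rw [Module.Basis.equivFun_self, Pi.single_apply]
      by_cases hj : j = ⟨i, c⟩
      · rw [if_pos hj, if_pos hj.symm]
      · rw [if_neg hj, if_neg (Ne.symm hj)]
    rw [h1, hL']
    simp only [LinearMap.comp_apply, LinearEquiv.coe_coe]
    rw [h2, hΦ, Module.Basis.equivFun_apply, hB, Pi.basis_repr]
    change _ = (subBasis K N).repr (MonoidAlgebra.single (Quotient.out c) (1 : K) * e i j) c'
    congr 2
    rw [hL]
    change (Matrix.vecMul (Pi.single i (subBasis K N c) : Fin n → MonoidAlgebra K Γ) e) j = _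
    rw [Matrix.single_vecMul, subBasis_apply]
    rfl
  have hEL : Matrix.toLinearMapRight' (blkM N e) = L' := by
    rw [← hE]
    exact LinearEquiv.symm_apply_apply _ _
  let e1 : (LinearMap.range (Matrix.toLinearMapRight' e)) ≃ₗ[MonoidAlgebra K N]
      (LinearMap.range L) :=
    { toFun := fun x => ⟨x.1, x.2⟩
      invFun := fun x => ⟨x.1, x.2⟩
      map_add' := fun _ _ => rfl
      map_smul' := fun _ _ => rfl
      left_inv := fun _ => rfl
      right_inv := fun _ => rfl }
  have e2 := Φ.submoduleMap (LinearMap.range L)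
  have h3 : (LinearMap.range L).map (Φ : (Fin n → MonoidAlgebra K Γ) →ₗ[MonoidAlgebra K N] _) =
      LinearMap.range (Matrix.toLinearMapRight' (blkM N e)) := by
    rw [hEL, hL', LinearMap.range_comp, LinearMap.range_comp_of_range_eq_top _
      (LinearEquiv.range _)]
  rw [e1.finrank_eq, e2.finrank_eq, h3]

end SPH
end

section

/-! # Rank criterion for the absence of zero divisors, finite projective dimension version -/

namespace SPH

universe u v

private def rcb_kerEquiv {R S : Type u} [Ring R] [Ring S] [Module R S]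
    {M N : Type u} [AddCommGroup M] [Module S M] [Module R M] [IsScalarTower R S M]
    [AddCommGroup N] [Module S N] [Module R N] [IsScalarTower R S N] (f : M →ₗ[S] N) :
    LinearMap.ker (f.restrictScalars R) ≃ₗ[R] LinearMap.ker f where
  toFun x := ⟨x.1, x.2⟩
  invFun x := ⟨x.1, x.2⟩
  left_inv _ := rfl
  right_inv _ := rfl
  map_add' _ _ := rfl
  map_smul' _ _ := rfl

private def rcb_rangeEquiv {R S : Type u} [Ring R] [Ring S] [Module R S]
    {M N : Type u} [AddCommGroup M] [Module S M] [Module R M] [IsScalarTower R S M]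
    [AddCommGroup N] [Module S N] [Module R N] [IsScalarTower R S N] (f : M →ₗ[S] N) :
    LinearMap.range (f.restrictScalars R) ≃ₗ[R] LinearMap.range f where
  toFun x := ⟨x.1, x.2⟩
  invFun x := ⟨x.1, x.2⟩
  left_inv _ := rfl
  right_inv _ := rfl
  map_add' _ _ := rfl
  map_smul' _ _ := rfl

private theorem rcb_torsion {R M : Type u} [Ring R] [IsDomain R] [AddCommGroup M] [Module R M]
    [Module.Free R M] (r : R) (x : M) (h : r • x = 0) : r = 0 ∨ x = 0 := by
  by_cases hr : r = 0
  · exact Or.inl hr
  · right
    have b := Module.Free.chooseBasis R M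
    apply b.repr.injective
    ext i
    have h1 : r * b.repr x i = 0 := by
      have h2 := congrArg (fun y => b.repr y i) h
      simpa using h2
    simpa using (mul_eq_zero.mp h1).resolve_left hr

private theorem rcb_claim {R S : Type u} [Ring R] [Ring S] [Module R S]
    [IsScalarTower R S S] [IsDomain R] [IsNoetherianRing R]
    [Module.Finite R S] [Module.Free R S] (m : ℕ) (hm : Module.finrank R S = m)
    (hdiv : ∀ (n : ℕ) (e : (Fin n → S) →ₗ[S] (Fin n → S)), e ∘ₗ e = e →
      m ∣ Module.finrank R (LinearMap.range e)) (j : ℕ) :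
    ∀ (M : Type u) [AddCommGroup M] [Module S M] [Module R M] [IsScalarTower R S M],
      Module.Finite S M → PDLE S j M → m ∣ Module.finrank R M := by
  induction j with
  | zero =>
    intro M _ _ _ _ hfin hpd
    have hP : Module.Projective S M := hpd
    obtain ⟨n, π, hπ⟩ := Module.Finite.exists_fin' S M
    obtain ⟨σ, hσ⟩ := Module.projective_lifting_property π (LinearMap.id : M →ₗ[S] M) hπ
    have hσ' : ∀ x, π (σ x) = x := fun x => by
      have := LinearMap.congr_fun hσ x
      simpa using this
    have hinj : Function.Injective σ := fun x y hxy => by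
      rw [← hσ' x, ← hσ' y, hxy]
    have h1 := hdiv n (σ ∘ₗ π) (by
      ext1
      ext1
      simp [hσ'])
    have hrange : LinearMap.range (σ ∘ₗ π) = LinearMap.range σ :=
      LinearMap.range_comp_of_range_eq_top σ (LinearMap.range_eq_top.mpr hπ)
    rw [hrange] at h1
    have e : M ≃ₗ[R] LinearMap.range σ := (LinearEquiv.ofInjective σ hinj).restrictScalars R
    rw [finrank_eq_of_equiv e]
    exact h1
  | succ j ih =>
    intro M _ _ _ _ hfin hpd
    obtain ⟨a, π, hπ⟩ := Module.Finite.exists_fin' S M
    have hNoe : IsNoetherian R (Fin a → S) := inferInstance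
    have hNoeS : IsNoetherian S (Fin a → S) := isNoetherian_of_tower R hNoe
    have hkfin : Module.Finite S (LinearMap.ker π) := inferInstance
    have hker : PDLE S j (LinearMap.ker π) :=
      PDLE.ker hpd (inferInstance : Module.Projective S (Fin a → S)) π hπ
    have h1 := ih (LinearMap.ker π) hkfin hker
    have h2 := finrank_ker_add_finrank_range (π.restrictScalars R)
    have h3 : Module.finrank R (LinearMap.range (π.restrictScalars R)) = Module.finrank R M := by
      have : LinearMap.range (π.restrictScalars R) = ⊤ := LinearMap.range_eq_top.mpr hπ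
      rw [this]
      exact finrank_eq_of_equiv Submodule.topEquiv
    have h4 : Module.finrank R (Fin a → S) = a * m := by
      rw [Module.finrank_pi_fintype]
      simp [hm]
    rw [h3, finrank_eq_of_equiv (rcb_kerEquiv π), h4] at h2
    rw [← Nat.dvd_add_right h1, h2]
    exact Dvd.intro_left a rfl

theorem noZeroDivisors_of_rank_pd {R S : Type u} [Ring R] [Ring S] [Module R S]
    [IsScalarTower R S S] [IsDomain R] [IsNoetherianRing R] [Nontrivial S]
    [Module.Finite R S] [Module.Free R S] (m : ℕ) (hm : Module.finrank R S = m)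
    (hpd : ∀ (M : Type u) [AddCommGroup M] [Module S M], ∃ n, PDLE S n M)
    (hdiv : ∀ (n : ℕ) (e : (Fin n → S) →ₗ[S] (Fin n → S)), e ∘ₗ e = e →
      m ∣ Module.finrank R (LinearMap.range e)) : NoZeroDivisors S := by
  constructor
  intro a b hab
  by_contra hcon
  push Not at hcon
  obtain ⟨ha, hb⟩ := hcon
  let f : S →ₗ[S] S := LinearMap.toSpanSingleton S S b
  have hf : ∀ s, f s = s * b := fun s => rfl
  have hNoe : IsNoetherian R S := inferInstance
  have hk : Nontrivial (LinearMap.ker (f.restrictScalars R)) := by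
    refine ⟨⟨⟨a, ?_⟩, 0, ?_⟩⟩
    · show f a = 0
      rw [hf, hab]
    · intro h
      exact ha (congrArg Subtype.val h)
  have hr : Nontrivial (LinearMap.range (f.restrictScalars R)) := by
    refine ⟨⟨⟨b, 1, ?_⟩, 0, ?_⟩⟩
    · show f 1 = b
      rw [hf, one_mul]
    · intro h
      exact hb (congrArg Subtype.val h)
  have h1 := finrank_ker_add_finrank_range (f.restrictScalars R)
  rw [hm] at h1
  have h2 : 0 < Module.finrank R (LinearMap.ker (f.restrictScalars R)) := by
    apply finrank_pos_of_torsionFree
    intro r x hx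
    have := rcb_torsion r (x : S) (congrArg Subtype.val hx)
    rcases this with h | h
    · exact Or.inl h
    · exact Or.inr (Subtype.ext h)
  have h3 : 0 < Module.finrank R (LinearMap.range (f.restrictScalars R)) := by
    apply finrank_pos_of_torsionFree
    intro r x hx
    have := rcb_torsion r (x : S) (congrArg Subtype.val hx)
    rcases this with h | h
    · exact Or.inl h
    · exact Or.inr (Subtype.ext h)
  obtain ⟨n, hn⟩ := hpd (LinearMap.range f)
  have h4 := rcb_claim m hm hdiv n (LinearMap.range f) (Module.Finite.range f) hn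
  rw [← finrank_eq_of_equiv (rcb_rangeEquiv (R := R) f)] at h4
  have h5 := Nat.le_of_dvd h3 h4
  omega

end SPH
end
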