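import Mathlib
import Pool.Agent.Lib.MP_7b9603_al.Roots
import Pool.Agent.Lib.MP_7b9603_al.PSecTop
import Pool.Agent.Lib.MP_7b9603_al.RankCrit2
import Pool.Agent.Lib.MP_7b9603_al.Garside
import Pool.Agent.Lib.MP_7b9603_al.PathLem
import Pool.Agent.Lib.MP_7b9603_al.IdemSub
import Pool.Agent.Lib.MP_7b9603_al.HS
import Pool.Agent.Lib.MP_7b9603_al.Assembly
import Pool.Agent.Lib.MP_7b9603_al.NoTorsion

section

/-! # Truncated Witt vectors of a perfect field (job P14) -/

namespace SPH

universe u

private theorem wittQ_dvd (K : Type u) [Field K] (p : ℕ) [Fact p.Prime] [CharP K p]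
    [PerfectRing K p] (j n : ℕ)
    (h : (n : WittVector p K) ∈ Ideal.span {((p : WittVector p K)) ^ j}) : p ^ j ∣ n := by
  rcases Nat.eq_zero_or_pos n with rfl | hn
  · exact dvd_zero _
  obtain ⟨a, u, hu, rfl⟩ := Nat.exists_eq_pow_mul_and_not_dvd hn.ne' p
    (Fact.out : p.Prime).ne_one
  by_cases haj : j ≤ a
  · exact (pow_dvd_pow p haj).mul_right u
  exfalso
  have hu0 : (u : K) ≠ 0 := fun h0 => hu ((CharP.cast_eq_zero_iff K p u).1 h0)
  have hc : ((u : WittVector p K)).coeff 0 = (u : K) := by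
    have := map_natCast (WittVector.constantCoeff : WittVector p K →+* K) u
    rwa [WittVector.constantCoeff_apply] at this
  have hU : IsUnit (u : WittVector p K) :=
    WittVector.isUnit_of_coeff_zero_ne_zero _ (by rw [hc]; exact hu0)
  have hm : (p : WittVector p K) ^ a ∈ Ideal.span {((p : WittVector p K)) ^ j} := by
    rw [Nat.cast_mul, Nat.cast_pow] at h
    exact (Ideal.mul_unit_mem_iff_mem _ hU).1 h
  have h2 := (WittVector.mem_span_p_pow_iff_le_coeff_eq_zero _ j).1 hm a (by omega)
  rw [WittVector.coeff_p_pow] at h2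
  exact one_ne_zero h2

theorem exists_witt_quot (K : Type u) [Field K] (p : ℕ) [Fact p.Prime] [CharP K p]
    [PerfectRing K p] (j : ℕ) (hj : 1 ≤ j) :
    ∃ (O : Type u) (_ : CommRing O) (π : O →+* K), Function.Surjective π ∧
      (∀ x, π x = 0 → ∃ y, x = p * y) ∧ (p : O) ^ j = 0 ∧ ∀ n : ℕ, (n : O) = 0 → p ^ j ∣ n := by
  have hI : ∀ x ∈ Ideal.span {((p : WittVector p K)) ^ j},
      (WittVector.constantCoeff : WittVector p K →+* K) x = 0 := by
    intro x hx
    have := (WittVector.mem_span_p_pow_iff_le_coeff_eq_zero _ j).1 hx 0 (by omega)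
    simpa using this
  refine ⟨WittVector p K ⧸ Ideal.span {((p : WittVector p K)) ^ j}, inferInstance,
    Ideal.Quotient.lift _ (WittVector.constantCoeff : WittVector p K →+* K) hI, ?_, ?_, ?_, ?_⟩
  · intro y
    obtain ⟨x, hx⟩ := WittVector.constantCoeff_surjective (R := K) p y
    exact ⟨Ideal.Quotient.mk _ x, by rw [Ideal.Quotient.lift_mk]; exact hx⟩
  · intro x hx
    obtain ⟨x, rfl⟩ := Ideal.Quotient.mk_surjective x
    rw [Ideal.Quotient.lift_mk] at hx
    have h1 : x ∈ Ideal.span {(p : WittVector p K)} :=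
      (WittVector.mem_span_p_iff_coeff_zero_eq_zero x).2 (by simpa using hx)
    obtain ⟨y, hy⟩ := Ideal.mem_span_singleton.1 h1
    refine ⟨Ideal.Quotient.mk _ y, ?_⟩
    rw [hy, map_mul, map_natCast]
  · have : (Ideal.Quotient.mk (Ideal.span {((p : WittVector p K)) ^ j}))
        ((p : WittVector p K) ^ j) = 0 :=
      Ideal.Quotient.eq_zero_iff_mem.2 (Ideal.mem_span_singleton_self _)
    rw [map_pow, map_natCast] at this
    exact this
  · intro n hn
    refine wittQ_dvd K p j n ?_
    have : (Ideal.Quotient.mk (Ideal.span {((p : WittVector p K)) ^ j}))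
        (n : WittVector p K) = 0 := by
      rw [map_natCast]; exact hn
    exact Ideal.Quotient.eq_zero_iff_mem.1 this

end SPH
end

section

/-! # Groups with a series of length `n` with factors embedding in ℤ (job P2) -/

namespace SPH

universe u

/-- `PZr n N`: there is a series of length `n` from `N` to `1`, each term being the kernel of a
homomorphism of the previous one to `ℤ`. -/
def PZr : ∀ (_ : ℕ) (N : Type u) [Group N], Prop
  | 0, N, _ => Subsingleton N
  | n + 1, N, _ => ∃ f : N →* Multiplicative ℤ, PZr n f.ker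

theorem PZr.of_injective {n : ℕ} {N N' : Type u} [Group N] [Group N'] (φ : N' →* N)
    (hφ : Function.Injective φ) (h : PZr n N) : PZr n N' := by
  induction n generalizing N N' with
  | zero =>
    have h1 : Subsingleton N := h
    exact hφ.subsingleton
  | succ n ih =>
    obtain ⟨f, hf⟩ := h
    refine ⟨f.comp φ, ?_⟩
    let ψ : (f.comp φ).ker →* f.ker :=
      { toFun := fun x => ⟨φ x.1, by
          have hx := x.2
          rw [MonoidHom.mem_ker, MonoidHom.comp_apply] at hx
          rw [MonoidHom.mem_ker]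
          exact hx⟩
        map_one' := by
          apply Subtype.ext
          simp
        map_mul' := fun x y => by
          apply Subtype.ext
          simp }
    have hψ : Function.Injective ψ := by
      intro x y hxy
      apply Subtype.ext
      apply hφ
      exact congrArg Subtype.val hxy
    exact ih ψ hψ hf

theorem PolyZ.exists_PZr {N : Type u} [Group N] (h : PolyZ N) : ∃ n, PZr n N := by
  induction h with
  | triv N => exact ⟨0, inferInstanceAs (Subsingleton N)⟩
  | ext N f hf h ih =>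
    obtain ⟨n, hn⟩ := ih
    exact ⟨n + 1, f, hn⟩

end SPH
end

section

/-! # Projective dimension from the complex of partial sections (job P9) -/

namespace SPH

universe u

variable {Γ : Type u} [Group Γ] (C : CData Γ) (K : Type u) [Field K]

private theorem psp_supp_none : C.supp (fun _ => none) = ∅ := by
  ext w
  rw [C.mem_supp]
  simp

private theorem psp_eq_none (x : C.W → Option ℤ) (h : (C.supp x).card = 0) :
    x = fun _ => none := by
  funext w
  rw [← C.notMem_supp, Finset.card_eq_zero.1 h]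
  simp

private theorem psp_inv_empty (g : C.W → C.W) : C.inv g ∅ = 1 := by
  simp [CData.inv]

/-- The chains of degree zero. -/
theorem CData.exists_equiv_zero (M : Type u) [AddCommGroup M] [Module (MonoidAlgebra K Γ) M] :
    Nonempty (C.T M 0 ≃ₗ[MonoidAlgebra K Γ] M) := by
  have h0 : (C.supp (fun _ => none)).card = 0 := by rw [psp_supp_none]; rfl
  have hx : ∀ (x : C.W → Option ℤ) (m : M), (C.supp x).card = 0 →
      C.lift 0 (fun _ => AddMonoidHom.id M) (C.bas M 0 x m) = m := fun x m h => by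
    rw [C.lift_bas _ h]
    rfl
  have hlin : ∀ (γ : Γ) (a : K) (t : C.T M 0),
      C.lift 0 (fun _ => AddMonoidHom.id M) ((MonoidAlgebra.single γ a : MonoidAlgebra K Γ) • t) =
      (MonoidAlgebra.single γ a : MonoidAlgebra K Γ) •
        C.lift 0 (fun _ => AddMonoidHom.id M) t := by
    intro γ a t
    induction t using CData.induction with
    | h0 => rw [smul_zero, map_zero, smul_zero]
    | ha s t hs ht => rw [smul_add, map_add, hs, ht, map_add, smul_add]
    | h x m h =>
      have hx0 := psp_eq_none C x h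
      subst hx0
      rw [C.single_smul_bas, hx _ _ h0, hx, psp_supp_none, psp_inv_empty, one_smul]
      rw [C.card_supp_pact]
      exact h0
  refine ⟨LinearEquiv.ofBijective (linOfAdd (C.lift 0 (fun _ => AddMonoidHom.id M)) hlin)
    ⟨?_, ?_⟩⟩
  · have key : ∀ t : C.T M 0, C.bas M 0 (fun _ => none)
        (C.lift 0 (fun _ => AddMonoidHom.id M) t) = t := by
      intro t
      induction t using CData.induction with
      | h0 => rw [map_zero, map_zero]
      | ha s t hs ht => rw [map_add, map_add, hs, ht]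
      | h x m h =>
        have hx0 := psp_eq_none C x h
        subst hx0
        rw [hx _ _ h0]
    intro s t hst
    have h1 : C.lift 0 (fun _ => AddMonoidHom.id M) s = C.lift 0 (fun _ => AddMonoidHom.id M) t :=
      hst
    rw [← key s, h1, key t]
  · intro m
    exact ⟨C.bas M 0 (fun _ => none) m, hx _ _ h0⟩

theorem CData.pdle [Nonempty C.W] (n : ℕ) (M : Type u) [AddCommGroup M]
    [Module (MonoidAlgebra K Γ) M]
    (h : ∀ j, 1 ≤ j → j ≤ Fintype.card C.W → PDLE (MonoidAlgebra K Γ) n (C.T M j)) :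
    PDLE (MonoidAlgebra K Γ) (n + Fintype.card C.W) M := by
  have hN : 1 ≤ Fintype.card C.W := Fintype.card_pos
  have claim : ∀ i j : ℕ, j + 1 + i = Fintype.card C.W →
      PDLE (MonoidAlgebra K Γ) (n + i) (LinearMap.ker (C.d M K j)) := by
    intro i
    induction i with
    | zero =>
      intro j hj
      have hj' : j + 1 = Fintype.card C.W := hj
      have hinj : Function.Injective (C.δ M K (j + 1)) := C.δA_injective (j + 1) hj'
      have hr : LinearMap.range (C.δ M K (j + 1)) = LinearMap.ker (C.d M K j) := by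
        ext t
        rw [LinearMap.mem_range, LinearMap.mem_ker]
        constructor
        · rintro ⟨s, rfl⟩
          exact C.dA_δA j hj' s
        · intro ht
          exact C.exists_δA j hj' t ht
      have e : C.T M (j + 1) ≃ₗ[MonoidAlgebra K Γ] LinearMap.ker (C.d M K j) :=
        (LinearEquiv.ofInjective _ hinj).trans (LinearEquiv.ofEq _ _ hr)
      exact PDLE.equiv e (h (j + 1) (by omega) (by omega))
    | succ i ih =>
      intro j hj
      let f : C.T M (j + 2) →ₗ[MonoidAlgebra K Γ] LinearMap.ker (C.d M K j) :=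
        (C.d M K (j + 1)).codRestrict _ (fun t => C.dA_dA j t)
      have hf : Function.Surjective f := by
        rintro ⟨t, ht⟩
        obtain ⟨s, hs⟩ := C.exists_dA j (by omega) t ht
        exact ⟨s, Subtype.ext hs⟩
      have hk : LinearMap.ker f = LinearMap.ker (C.d M K (j + 1)) :=
        LinearMap.ker_codRestrict _ _ _
      have h1 : PDLE (MonoidAlgebra K Γ) (n + i) (LinearMap.ker f) := by
        rw [hk]
        exact ih (j + 1) (by omega)
      have h2 : PDLE (MonoidAlgebra K Γ) (n + i + 1) (C.T M (j + 2)) :=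
        PDLE.mono (h (j + 2) (by omega) (by omega)) (by omega)
      exact PDLE.coker f hf h1 h2
  obtain ⟨N, hN'⟩ : ∃ N, Fintype.card C.W = N + 1 := ⟨Fintype.card C.W - 1, by omega⟩
  have h0 := claim N 0 (by omega)
  have hs : Function.Surjective (C.d M K 0) := C.dA_zero_surjective
  have h1 : PDLE (MonoidAlgebra K Γ) (n + N + 1) (C.T M 0) :=
    PDLE.coker (C.d M K 0) hs h0 (PDLE.mono (h 1 le_rfl hN) (by omega))
  obtain ⟨e⟩ := C.exists_equiv_zero K M
  rw [hN']
  exact PDLE.equiv e h1

end SPH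
end

section

/-! # Ranks of idempotent matrices in characteristic p (job P17) -/

namespace SPH

universe u v

private theorem ideq_nat {O : Type u} [CommRing O] {q a b : ℕ} (hq : ∀ n : ℕ, (n : O) = 0 → q ∣ n)
    (ha : a < q) (hb : b < q) (h : (a : O) = (b : O)) : a = b := by
  have key : ∀ a b : ℕ, a ≤ b → b < q → (a : O) = (b : O) → a = b := by
    intro a b hab hb h
    have h1 : ((b - a : ℕ) : O) = 0 := by rw [Nat.cast_sub hab, h, sub_self]
    have h2 := Nat.eq_zero_of_dvd_of_lt (hq _ h1) (by omega)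
    omega
  rcases le_total a b with h1 | h1
  · exact key a b h1 hb h
  · exact (key b a h1 ha h.symm).symm

theorem finrank_range_idem_charP {K : Type u} [Field K] (p : ℕ) [Fact p.Prime] [CharP K p]
    [PerfectRing K p] {Γ : Type u} [Group Γ] (N : Subgroup Γ) [N.Normal] [N.FiniteIndex]
    (h : CPZ N) (hg : ∀ g : Γ, g ∉ N → ∀ (x : Γ) (s : ℕ), 2 ≤ s → x * g * x⁻¹ ≠ g ^ s) {n : ℕ}
    (e : Matrix (Fin n) (Fin n) (MonoidAlgebra K Γ)) (he : e * e = e) :
    Module.finrank (MonoidAlgebra K N) (LinearMap.range (Matrix.toLinearMapRight' e)) =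
      N.index * Module.finrank K
        (LinearMap.range (Matrix.toLinearMapRight' (e.map (aug K Γ)))) := by
  classical
  have : Fintype (RCos N) := Fintype.ofFinite _
  have hp : p.Prime := Fact.out
  obtain ⟨R, hR⟩ : ∃ R, R = Module.finrank (MonoidAlgebra K N)
    (LinearMap.range (Matrix.toLinearMapRight' e)) := ⟨_, rfl⟩
  obtain ⟨r0, hr0⟩ : ∃ r, r = Module.finrank K
    (LinearMap.range (Matrix.toLinearMapRight' (e.map (aug K Γ)))) := ⟨_, rfl⟩
  rw [← hR, ← hr0]
  obtain ⟨j, hj⟩ : ∃ j, j = R + N.index * r0 + 1 := ⟨_, rfl⟩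
  have hj1 : 1 ≤ j := by omega
  have hjp : j < p ^ j := Nat.lt_pow_self hp.one_lt
  obtain ⟨O, instO, π, hπ, hker, hO, hn⟩ := exists_witt_quot K p j hj1
  refine ideq_nat (O := O) (q := p ^ j) hn (by omega) (by omega) ?_
  have hnil : ∀ x, π x = 0 → IsNilpotent x := by
    intro x hx
    obtain ⟨y, rfl⟩ := hker x hx
    refine ⟨j, ?_⟩
    rw [mul_pow, hO, zero_mul]
  obtain ⟨E, hE, hEe⟩ := exists_lift_idem π hπ p j hker hO e he
  -- (i)
  have h1 : R = Module.finrank K (LinearMap.range (Matrix.toLinearMapRight'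
      ((blkM N e).map (aug K N)))) := by
    rw [hR, finrank_range_blkM N e]
    exact finrank_range_idem_nat K h (blkM N e) (by rw [← blkM_mul, he])
  -- (ii)
  have hF : (blkM N E).map (aug O N) * (blkM N E).map (aug O N) = (blkM N E).map (aug O N) := by
    rw [← Matrix.map_mul, ← blkM_mul, hE]
  have hFπ : ((blkM N E).map (aug O N)).map π = (blkM N e).map (aug K N) := by
    rw [← hEe, blkM_map]
    ext a b
    simp only [Matrix.map_apply]
    rw [aug_mapRingHom]
  have h2 : Matrix.trace ((blkM N E).map (aug O N)) = (R : O) := by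
    rw [trace_idem_eq_rank π hπ hnil _ hF, hFπ, ← h1]
  -- (iii)
  have hG : E.map (aug O Γ) * E.map (aug O Γ) = E.map (aug O Γ) := by
    rw [← Matrix.map_mul, hE]
  have hGπ : (E.map (aug O Γ)).map π = e.map (aug K Γ) := by
    rw [← hEe]
    ext a b
    simp only [Matrix.map_apply]
    rw [aug_mapRingHom]
  have h3 : Matrix.trace (E.map (aug O Γ)) = (r0 : O) := by
    rw [trace_idem_eq_rank π hπ hnil _ hG, hGπ, ← hr0]
  have h4 : aug O Γ (Matrix.trace E) = Matrix.trace (E.map (aug O Γ)) := by
    unfold Matrix.trace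
    rw [map_sum]
    rfl
  rw [← h2, trace_blkM, subSum_eq_aug_of_pow p j hp hj1 hO N E hE hg, h4, h3]
  push_cast
  ring

end SPH
end

section

/-! # Finite global dimension for torsion free groups (Serre's theorem, job P10) -/

namespace SPH

universe u

/-- The cocycle on `Γ ⧸ N` induced by a homomorphism `f : N → ℤ`. -/
noncomputable def cosetC {Γ : Type u} [Group Γ] (N : Subgroup Γ) (f : N →* Multiplicative ℤ)
    (γ : Γ) (w : Γ ⧸ N) : ℤ :=
  Multiplicative.toAdd (f ⟨(Quotient.out (γ • w))⁻¹ * γ * Quotient.out w, by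
    rw [mul_assoc, ← QuotientGroup.eq, QuotientGroup.out_eq']
    change γ • w = γ • (QuotientGroup.mk (Quotient.out w) : Γ ⧸ N)
    rw [QuotientGroup.out_eq']⟩)

theorem cosetC_mul {Γ : Type u} [Group Γ] (N : Subgroup Γ) (f : N →* Multiplicative ℤ)
    (γ γ' : Γ) (w : Γ ⧸ N) :
    cosetC N f (γ * γ') w = cosetC N f γ (γ' • w) + cosetC N f γ' w := by
  unfold cosetC
  rw [← toAdd_mul, ← map_mul]
  refine congrArg (fun z => Multiplicative.toAdd (f z)) (Subtype.ext ?_)
  rw [Subgroup.coe_mul]
  simp only [mul_smul]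
  group

/-- The data on the cosets. -/
noncomputable def cosetData {Γ : Type u} [Group Γ] (N : Subgroup Γ) [N.FiniteIndex]
    (f : N →* Multiplicative ℤ) : CData Γ where
  W := Γ ⧸ N
  fin := Fintype.ofFinite _
  ord := LinearOrder.lift' (Finite.equivFin (Γ ⧸ N)) (Equiv.injective _)
  act := inferInstance
  c := cosetC N f
  mul := cosetC_mul N f

/-- Stabilisers of partial sections. -/
theorem cosetData_stab {Γ : Type u} [Group Γ] (N : Subgroup Γ) [N.Normal] [N.FiniteIndex]
    (f : N →* Multiplicative ℤ) (n : ℕ) (hf : PZr n f.ker) (j : ℕ) (hj : 1 ≤ j)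
    (x : (cosetData N f).PS j) :
    PZr n (N.subgroupOf (((cosetData N f).sdata j).stab x)) := by
  have hne : ((cosetData N f).supp x.1).Nonempty := by
    rw [← Finset.card_pos, x.2]
    exact hj
  obtain ⟨w, hw⟩ := hne
  rw [(cosetData N f).mem_supp] at hw
  obtain ⟨k, hk⟩ := Option.isSome_iff_exists.1 hw
  let w' : Γ ⧸ N := w
  have hN : ∀ h : Γ, h ∈ N → (Quotient.out w')⁻¹ * h * Quotient.out w' ∈ N := by
    intro h hh
    have := (inferInstance : N.Normal).conj_mem h hh (Quotient.out w')⁻¹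
    rwa [inv_inv] at this
  have hfix : ∀ h : Γ, h ∈ N → h • w' = w' := by
    intro h hh
    have e : w' = (QuotientGroup.mk (Quotient.out w') : Γ ⧸ N) := (QuotientGroup.out_eq' w').symm
    conv_lhs => rw [e]
    conv_rhs => rw [e]
    change (QuotientGroup.mk (h * Quotient.out w') : Γ ⧸ N) = _
    refine QuotientGroup.eq.2 ?_
    rw [mul_inv_rev, mul_assoc, ← mul_assoc]
    have := hN h⁻¹ (N.inv_mem hh)
    simpa [mul_assoc] using this
  have hker : ∀ (h : Γ) (hh : h ∈ N), h ∈ (((cosetData N f).sdata j).stab x) →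
      f ⟨(Quotient.out w')⁻¹ * h * Quotient.out w', hN h hh⟩ = 1 := by
    intro h hh hs
    have h1 : (cosetData N f).pact h x.1 = x.1 := by
      have h2 : h • x = x := hs
      exact congrArg Subtype.val h2
    have h3 := (cosetData N f).pact_apply_smul h x.1 w
    have h4 : h • w = w := hfix h hh
    rw [h1, h4, hk, Option.map_some, Option.some_inj] at h3
    have h5 : (cosetData N f).c h w = 0 := by omega
    have h6 : cosetC N f h w' = 0 := h5
    unfold cosetC at h6
    rw [← toAdd_one] at h6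
    have h7 := Multiplicative.toAdd.injective h6
    rw [← h7]
    refine congrArg f (Subtype.ext ?_)
    change _ = (Quotient.out (h • w'))⁻¹ * h * Quotient.out w'
    rw [hfix h hh]
  let φ : N.subgroupOf (((cosetData N f).sdata j).stab x) →* f.ker :=
    MonoidHom.mk' (fun h => ⟨⟨(Quotient.out w')⁻¹ * ((h : ((cosetData N f).sdata j).stab x) : Γ) *
        Quotient.out w', hN _ (Subgroup.mem_subgroupOf.1 h.2)⟩,
      hker _ (Subgroup.mem_subgroupOf.1 h.2) (h : ((cosetData N f).sdata j).stab x).2⟩)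
      (fun a b => by
        apply Subtype.ext
        apply Subtype.ext
        simp only [Subgroup.coe_mul]
        group)
  refine PZr.of_injective φ ?_ hf
  intro a b hab
  have h1 := congrArg (fun z : f.ker => ((z : N) : Γ)) hab
  change (Quotient.out w')⁻¹ * ((a : ((cosetData N f).sdata j).stab x) : Γ) * Quotient.out w' =
    (Quotient.out w')⁻¹ * ((b : ((cosetData N f).sdata j).stab x) : Γ) * Quotient.out w' at h1
  apply Subtype.ext
  apply Subtype.ext
  exact mul_left_cancel (mul_right_cancel h1)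

private theorem fpd_zero (K : Type u) [Field K] {Γ : Type u} [Group Γ]
    (htf : ∀ (g : Γ) (k : ℕ), k ≠ 0 → g ^ k = 1 → g = 1)
    (N : Subgroup Γ) [N.FiniteIndex] (h : Subsingleton N)
    (M : Type u) [AddCommGroup M] [Module (MonoidAlgebra K Γ) M] :
    Module.Projective (MonoidAlgebra K Γ) M := by
  have hfin : Finite Γ :=
    (Subgroup.finite_iff_finite_and_finiteIndex N).2 ⟨inferInstance, inferInstance⟩
  have hss : Subsingleton Γ := by
    refine ⟨fun a b => ?_⟩
    rw [htf a (Nat.card Γ) Nat.card_pos.ne' pow_card_eq_one',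
      htf b (Nat.card Γ) Nat.card_pos.ne' pow_card_eq_one']
  have hcard : Nat.card Γ = 1 := Nat.card_eq_one_iff_unique.2 ⟨hss, ⟨1⟩⟩
  have : NeZero ((Nat.card Γ : ℕ) : K) := ⟨by rw [hcard]; simp⟩
  exact Module.projective_of_isSemisimpleRing _ _

theorem fpd (K : Type u) [Field K] (m : ℕ) (n : ℕ) : ∀ {Γ : Type u} [Group Γ]
    (_ : ∀ (g : Γ) (k : ℕ), k ≠ 0 → g ^ k = 1 → g = 1)
    (N : Subgroup Γ) [N.Normal] [N.FiniteIndex] (_ : N.index ≤ m) (_ : PZr n N)
    (M : Type u) [AddCommGroup M] [Module (MonoidAlgebra K Γ) M],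
    PDLE (MonoidAlgebra K Γ) (n * m) M := by
  induction n with
  | zero =>
    intro Γ _ htf N _ _ _ hN M _ _
    rw [zero_mul]
    exact fpd_zero K htf N hN M
  | succ n ih =>
    intro Γ _ htf N _ _ hm hN M _ _
    obtain ⟨f, hf⟩ := hN
    have hcard : Fintype.card (cosetData N f).W ≤ m := by
      have : Fintype.card (cosetData N f).W = N.index := by
        rw [← Nat.card_eq_fintype_card]
        rfl
      rw [this]
      exact hm
    have : Nonempty (cosetData N f).W := ⟨(QuotientGroup.mk 1 : Γ ⧸ N)⟩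
    have key := CData.pdle (cosetData N f) K (n * m) M (fun j hj1 _ => by
      refine SData.pdle ((cosetData N f).sdata j) K (n * m) M (fun x => ?_)
      have hidx : (N.subgroupOf (((cosetData N f).sdata j).stab x)).index ≤ m := by
        have hd : (N.subgroupOf (((cosetData N f).sdata j).stab x)).index ∣ N.index :=
          Subgroup.relIndex_dvd_index_of_normal N _
        exact (Nat.le_of_dvd (Nat.pos_of_ne_zero Subgroup.FiniteIndex.index_ne_zero) hd).trans hm
      refine ih ?_ (N.subgroupOf (((cosetData N f).sdata j).stab x)) hidx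
        (cosetData_stab N f n hf j hj1 x) _
      intro g k hk hg
      apply Subtype.ext
      refine htf g.1 k hk ?_
      have := congrArg Subtype.val hg
      simpa using this)
    refine key.mono ?_
    rw [Nat.add_mul, one_mul]
    omega

end SPH
end

section

/-! # Faithfulness on positive words, general Coxeter matrices (job V7) -/

namespace SPH

open scoped Classical

universe u

set_option linter.unusedSectionVars false

variable {S : Type u} [Fintype S] [DecidableEq S] (M : CoxeterMatrix S)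
  [Fintype (PRoot (unf M))]

theorem vv_bw_eq (hG : PosDef (unf M)) (D : TData (unf M)) (l l' : List S)
    (h : aw M l = aw M l') : vv D (bw M l) = vv D (bw M l') := by
  refine vv_eq_of_lkRep_eq hG D _ _ ?_
  rw [← unfHom_aw M hG, ← unfHom_aw M hG, h]

private theorem mf_block_zero (D : TData (unf M)) (s : S) (i : UI M) (r : List (S × UI M))
    (L : List (UI M)) (hi : i ∈ L) :
    vv D (L.map (fun j => (s, j)) ++ r) ⟨sr (s, i), isPos_sr _ _⟩ = 0 := by
  induction L with
  | nil => simp at hi
  | cons j L ih =>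
    change lk D (0 : ℚ) (1 / 2) (s, j) (vv D (L.map (fun j => (s, j)) ++ r))
      ⟨sr (s, i), isPos_sr _ _⟩ = 0
    by_cases hij : i = j
    · subst hij
      simp [lk]
    · have hne : ((s, j) : S × UI M) ≠ (s, i) := fun h => hij (congrArg Prod.snd h).symm
      have hsr : (sr (s, i) : S × UI M → ℤ) ≠ sr (s, j) := by
        intro h
        have h1 := congrFun h (s, i)
        simp [sr, Pi.single_eq_of_ne hne.symm] at h1
      have hpr : pr (unf M) (s, j) (sr (s, i)) = 0 := by
        rw [pr_sr, cart_not_adj (unf M) hne (not_adj_same M s j i)]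
      have hmem : i ∈ L := by
        rcases List.mem_cons.1 hi with h | h
        · exact absurd h hij
        · exact h
      have h2 := ih hmem
      simp only [lk, LinearMap.coe_mk, AddHom.coe_mk, hsr, hpr, if_true, if_false]
      exact h2

theorem vv_zero_of_left_div (hG : PosDef (unf M)) (D : TData (unf M)) (l l' : List S) (s : S)
    (h : aw M l = agen M s * aw M l') (i : UI M) :
    vv D (bw M l) ⟨sr (s, i), isPos_sr _ _⟩ = 0 := by
  rw [vv_bw_eq M hG D l (s :: l') (by rw [h, aw_cons]), bw_cons]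
  exact mf_block_zero M D s i (bw M l') _ (Finset.mem_toList.2 (Finset.mem_univ i))

private theorem mf_altL_add (t s : S) (a b : ℕ) :
    ∃ r : List S, r.length = b ∧ altL t s (a + b) = altL t s a ++ r := by
  induction a generalizing t s with
  | zero => exact ⟨altL t s b, altL_length t s b, by simp [altL]⟩
  | succ a ih =>
    obtain ⟨r, hr, he⟩ := ih s t
    refine ⟨r, hr, ?_⟩
    rw [show a + 1 + b = (a + b) + 1 by ring]
    change t :: altL s t (a + b) = t :: altL s t a ++ r
    rw [he]
    rfl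

private theorem mf_altL_succ (t s : S) (k : ℕ) :
    altL t s (k + 1) = altL t s k ++ [if Even k then t else s] := by
  induction k generalizing t s with
  | zero => simp [altL]
  | succ k ih =>
    change t :: altL s t (k + 1) = t :: altL s t k ++ _
    rw [ih s t]
    by_cases h : Even k
    · have h' : ¬ Even (k + 1) := by simpa [Nat.even_add_one] using h
      simp [h, h']
    · have h' : Even (k + 1) := by simpa [Nat.even_add_one] using h
      simp [h, h']

theorem exists_left_div_M (hG : PosDef (unf M)) (D : TData (unf M)) (hM : ∀ s t, M s t ≠ 0)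
    (l : List S) (s : S) (i : UI M) (h : vv D (bw M l) ⟨sr (s, i), isPos_sr _ _⟩ = 0) :
    ∃ l' : List S, l'.length + 1 = l.length ∧ aw M l = agen M s * aw M l' := by
  induction hn : l.length using Nat.strong_induction_on generalizing l s i with
  | _ n ih =>
  subst hn
  rcases l with _ | ⟨t, l1⟩
  · exfalso
    have h1 : vv D (bw M ([] : List S)) ⟨sr (s, i), isPos_sr _ _⟩ = (1 : ℚ) := rfl
    rw [h1] at h
    exact one_ne_zero h
  by_cases hts : t = s
  · subst hts
    exact ⟨l1, rfl, aw_cons M t l1⟩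
  set l : List S := t :: l1 with hl
  set P : ℕ → Prop := fun k => ∃ lk : List S, aw M l = aw M (altL t s k) * aw M lk ∧
    k + lk.length = l.length with hP
  have hP1 : P 1 := ⟨l1, by simp [hl, altL, aw], by simp [hl]; ring⟩
  have hlen1 : 1 ≤ l.length := by simp [hl]
  have hspec : P (Nat.findGreatest P l.length) := Nat.findGreatest_spec hlen1 hP1
  have hk1 : 1 ≤ Nat.findGreatest P l.length := Nat.le_findGreatest hlen1 hP1
  have hmax : ∀ k, P k → k ≤ Nat.findGreatest P l.length := by
    intro k hk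
    refine Nat.le_findGreatest ?_ hk
    obtain ⟨lk, _, h2⟩ := hk
    omega
  set k := Nat.findGreatest P l.length with hk
  obtain ⟨lk, hlk, hlen⟩ := hspec
  by_cases hkm : k < M s t
  · exfalso
    have hno : ∀ j : UI M, 0 < vv D (bw M lk) ⟨sr ((if Even k then t else s), j), isPos_sr _ _⟩ := by
      intro j
      rcases (vv_nonneg D (bw M lk) ⟨sr ((if Even k then t else s), j), isPos_sr _ _⟩).eq_or_lt with
        h0 | h0
      · exfalso
        obtain ⟨l'', h3, h4⟩ := ih lk.length (by omega) lk (if Even k then t else s) j h0.symm rfl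
        have : P (k + 1) := by
          refine ⟨l'', ?_, by omega⟩
          rw [mf_altL_succ, aw_append, hlk, h4, ← mul_assoc]
          simp [aw]
        have := hmax _ this
        omega
      · exact h0
    have hpos := vv_path_pos M hG D s t (fun h => hts h.symm) i k hk1 hkm (bw M lk) hno
    rw [← bw_append, ← vv_bw_eq M hG D l (altL t s k ++ lk) (by rw [aw_append, hlk]), h] at hpos
    exact lt_irrefl _ hpos
  · push Not at hkm
    obtain ⟨r, hr, he⟩ := mf_altL_add t s (M s t) (k - M s t)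
    rw [Nat.add_sub_cancel' hkm] at he
    have hm : M s t - 1 + 1 = M s t := Nat.succ_pred_eq_of_ne_zero (hM s t)
    have h5 : aw M (altL t s (M s t)) = agen M s * aw M (altL t s (M s t - 1)) := by
      rw [aw_altL, ← agen_rel M s t (hM s t)]
      conv_lhs => rw [← hm]
      rw [altProd, aw_altL]
    refine ⟨altL t s (M s t - 1) ++ (r ++ lk), ?_, ?_⟩
    · rw [List.length_append, List.length_append, altL_length, hr]
      omega
    · rw [hlk, he, aw_append, aw_append, aw_append, h5]
      simp only [mul_assoc]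

theorem aw_eq_of_lkRep_eq (hG : PosDef (unf M)) (D : TData (unf M)) (hM : ∀ s t, M s t ≠ 0)
    (l l' : List S)
    (h : lkRep hG D xU tU (wd (unf M) (bw M l)) = lkRep hG D xU tU (wd (unf M) (bw M l'))) :
    aw M l = aw M l' := by
  have i0 : UI M := fun _ => ⟨0, by omega⟩
  induction l generalizing l' with
  | nil =>
    rcases l' with _ | ⟨s, l1⟩
    · rfl
    · exfalso
      have h1 := vv_eq_of_lkRep_eq hG D _ _ h
      have h2 := vv_zero_of_left_div M hG D (s :: l1) l1 s (aw_cons M s l1) i0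
      rw [← h1] at h2
      have h3 : vv D (bw M ([] : List S)) ⟨sr (s, i0), isPos_sr _ _⟩ = (1 : ℚ) := rfl
      rw [h3] at h2
      exact one_ne_zero h2
  | cons s l1 ih =>
    have h1 := vv_eq_of_lkRep_eq hG D _ _ h
    have h2 := vv_zero_of_left_div M hG D (s :: l1) l1 s (aw_cons M s l1) i0
    rw [h1] at h2
    obtain ⟨l2, _, h4⟩ := exists_left_div_M M hG D hM l' s i0 h2
    have h5 : wd (unf M) (bw M l') = bgen M s * wd (unf M) (bw M l2) := by
      rw [← wd_bw_cons, ← unfHom_aw M hG, ← unfHom_aw M hG, aw_cons, h4]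
    rw [h5, wd_bw_cons, map_mul, map_mul] at h
    have h6 := ih l2 (mul_left_cancel h)
    rw [aw_cons, h6, h4]

end SPH
end

section

/-! # The zero divisor theorem for torsion free virtually CPZ groups (job R17) -/

namespace SPH

universe u v

private theorem fs_conj_pow {Γ : Type u} [Group Γ] (x g : Γ) (s : ℕ) (h : x * g * x⁻¹ = g ^ s)
    (k : ℕ) : x ^ k * g * (x ^ k)⁻¹ = g ^ (s ^ k) := by
  induction k with
  | zero => simp
  | succ k ih =>
    have h1 : x ^ (k + 1) * g * (x ^ (k + 1))⁻¹ = x * (x ^ k * g * (x ^ k)⁻¹) * x⁻¹ := by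
      rw [pow_succ']
      group
    rw [h1, ih, ← conj_pow, h, ← pow_mul, pow_succ']

private theorem fs_trace_idem {K : Type u} [Field K] {n : ℕ} (A : Matrix (Fin n) (Fin n) K)
    (hA : A * A = A) : ∃ r : ℕ, Matrix.trace A = r := by
  have h1 : IsIdempotentElem (Matrix.toLin' A) := by
    unfold IsIdempotentElem
    rw [Module.End.mul_eq_comp, ← Matrix.toLin'_mul, hA]
  have h2 := LinearMap.IsProj.trace (LinearMap.IsIdempotentElem.isProj_range _ h1)
  rw [Matrix.trace_toLin'_eq] at h2
  exact ⟨_, h2⟩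

theorem farkas_snider {K : Type u} [Field K] [CharZero K] {Γ : Type u} [Group Γ]
    (N : Subgroup Γ) [N.Normal] [N.FiniteIndex] (h : CPZ N)
    (htf : ∀ (g : Γ) (n : ℕ), n ≠ 0 → g ^ n = 1 → g = 1) :
    NoZeroDivisors (MonoidAlgebra K Γ) := by
  classical
  have hP := h.polyZ
  have i1 : IsDomain (MonoidAlgebra K N) := hP.isDomain K
  have i2 : IsNoetherianRing (MonoidAlgebra K N) := hP.isNoetherianRing K
  have i3 : Module.Free (MonoidAlgebra K N) (MonoidAlgebra K Γ) := free_sub N
  have i4 : Module.Finite (MonoidAlgebra K N) (MonoidAlgebra K Γ) := finite_sub N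
  refine noZeroDivisors_of_rank (R := MonoidAlgebra K N) (S := MonoidAlgebra K Γ) N.index
    (finrank_sub N) ?_ ?_ ?_
  · intro M _ _ _ _ hM
    exact projective_of_sub N M hM
  · intro M _ _
    obtain ⟨d, hd⟩ := hP.pdle K
    exact ⟨d, hd M⟩
  · intro n e he
    have hE : LinearMap.toMatrixRight' e * LinearMap.toMatrixRight' e =
        LinearMap.toMatrixRight' e := by
      rw [← LinearMap.toMatrixRight'_comp, he]
    have h2 : Matrix.toLinearMapRight' (LinearMap.toMatrixRight' e) = e :=
      LinearMap.toMatrixRight'.symm_apply_apply e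
    have h1 := finrank_range_idem_sub K N h n _ hE
    rw [h2] at h1
    have hyp : ∀ g : Γ, g ∉ N → ∀ (x : Γ) (s : ℕ), 2 ≤ s → x * g * x⁻¹ ≠ g ^ s := by
      intro g hg x s hs hc
      have hM : N.index ≠ 0 := Subgroup.FiniteIndex.index_ne_zero
      have hgM : g ^ N.index ∈ N := Subgroup.pow_index_mem N g
      have hxM : x ^ N.index ∈ N := Subgroup.pow_index_mem N x
      have h3 := fs_conj_pow x g s hc N.index
      have h4 : x ^ N.index * g ^ N.index * (x ^ N.index)⁻¹ = (g ^ N.index) ^ (s ^ N.index) := by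
        rw [← conj_pow, h3, ← pow_mul, ← pow_mul, mul_comm]
      have h5 : 2 ≤ s ^ N.index := hs.trans (Nat.le_self_pow hM s)
      have h6 := h.eq_one_of_conj ⟨x ^ N.index, hxM⟩ ⟨g ^ N.index, hgM⟩ (s ^ N.index) h5
        (Subtype.ext h4)
      have h7 : g ^ N.index = 1 := congrArg Subtype.val h6
      have h8 := htf g _ hM h7
      exact hg (h8 ▸ N.one_mem)
    have h3 := subSum_eq_aug N _ hE hyp
    rw [h3] at h1
    obtain ⟨r, hr⟩ : ∃ r : ℕ, aug K Γ (Matrix.trace (LinearMap.toMatrixRight' e)) = r := by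
      have h4 : ((LinearMap.toMatrixRight' e).map (aug K Γ)) *
          ((LinearMap.toMatrixRight' e).map (aug K Γ)) =
          (LinearMap.toMatrixRight' e).map (aug K Γ) := by
        rw [← Matrix.map_mul, hE]
      obtain ⟨r, hr⟩ := fs_trace_idem _ h4
      refine ⟨r, ?_⟩
      rw [← hr]
      exact AddMonoidHom.map_trace (aug K Γ).toAddMonoidHom _
    rw [hr] at h1
    exact ⟨r, by exact_mod_cast h1⟩

end SPH
end

section

/-! # Garside element for general spherical type (job V8) -/

namespace SPH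

open scoped Classical

universe u

set_option linter.unusedSectionVars false

variable {S : Type u} [Fintype S] [DecidableEq S] (M : CoxeterMatrix S)
  [Fintype (PRoot (unf M))]

/-- `l` is a word in `S` whose unfolding is reduced. -/
def MRed (l : List S) : Prop := lenN (unf M) (wd (unf M) (bw M l)) = (bw M l).length

private theorem mg_wd_eq (hG : PosDef (unf M)) {l l' : List S} (h : aw M l = aw M l') :
    wd (unf M) (bw M l) = wd (unf M) (bw M l') := by
  rw [← unfHom_aw M hG, ← unfHom_aw M hG, h]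

/-- For reduced words the vertices over `s` are all or none in the inversion set. -/
theorem all_or_none (hG : PosDef (unf M)) (D : TData (unf M)) (hM : ∀ s t, M s t ≠ 0)
    (l : List S) (hl : MRed M l) (s : S) (i : UI M)
    (h : IsPos (unf M) (-(toW (unf M) (wd (unf M) (bw M l))⁻¹ (sr (s, i))))) :
    (∃ l' : List S, MRed M l' ∧ l'.length + 1 = l.length ∧ aw M l = agen M s * aw M l') ∧
    ∀ j, IsPos (unf M) (-(toW (unf M) (wd (unf M) (bw M l))⁻¹ (sr (s, j)))) := by
  have h0 : vv D (bw M l) ⟨sr (s, i), isPos_sr _ _⟩ = 0 :=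
    (vv_eq_zero_iff hG D (bw M l) hl ⟨sr (s, i), isPos_sr _ _⟩).2 h
  obtain ⟨l', hlen, haw⟩ := exists_left_div_M M hG D hM l s i h0
  have hW : wd (unf M) (bw M (s :: l')) = wd (unf M) (bw M l) := by
    refine mg_wd_eq M hG ?_
    rw [aw_cons, haw]
  have hlen' : (bw M (s :: l')).length = (bw M l).length := by
    rw [bw_length, bw_length, List.length_cons, hlen]
  have hred : lenN (unf M) (wd (unf M) (block M s ++ bw M l')) =
      (block M s ++ bw M l').length := by
    rw [← bw_cons, hW, hlen']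
    exact hl
  refine ⟨⟨l', (of_block_reduced M hG s (bw M l') hred).1, hlen, haw⟩, fun j => ?_⟩
  exact (vv_eq_zero_iff hG D (bw M l) hl ⟨sr (s, j), isPos_sr _ _⟩).1
    (vv_zero_of_left_div M hG D l l' s haw j)

private theorem mg_red_nil (hG : PosDef (unf M)) : MRed M [] := by
  unfold MRed
  have := lenN_wd_le hG (bw M [])
  have h0 : (bw M []).length = 0 := by rw [bw_length]; simp
  omega

private theorem mg_mul (g g' : AGrp (unf M)) (v : S × UI M → ℤ) :
    toW (unf M) (g * g') v = toW (unf M) g (toW (unf M) g' v) := by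
  rw [map_mul]
  rfl

private theorem mg_inv_apply (g : AGrp (unf M)) (v : S × UI M → ℤ) :
    toW (unf M) g⁻¹ (toW (unf M) g v) = v := by
  rw [map_inv]
  exact (toW (unf M) g).symm_apply_apply v

private theorem mg_apply_inv (g : AGrp (unf M)) (v : S × UI M → ℤ) :
    toW (unf M) g (toW (unf M) g⁻¹ v) = v := by
  rw [map_inv]
  exact (toW (unf M) g).apply_symm_apply v

private theorem mg_bgen_bgen (s : S) :
    toW (unf M) (bgen M s) * toW (unf M) (bgen M s) = 1 := by
  have h := toW_bgen_inv M s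
  exact inv_eq_iff_mul_eq_one.1 h

/-- The step of the induction: either divide or extend. -/
private theorem mg_step (hG : PosDef (unf M)) (D : TData (unf M)) (hM : ∀ s t, M s t ≠ 0)
    (s : S) (v : List S) (hv : MRed M v) :
    (∃ v' : List S, MRed M v' ∧ v'.length + 1 = v.length ∧ aw M v = agen M s * aw M v' ∧
      ∀ j, IsPos (unf M) (-(toW (unf M) (wd (unf M) (bw M v))⁻¹ (sr (s, j))))) ∨
    (MRed M (s :: v) ∧
      ∀ j, IsPos (unf M) (toW (unf M) (wd (unf M) (bw M v))⁻¹ (sr (s, j)))) := by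
  by_cases hcase : ∃ i, IsPos (unf M) (-(toW (unf M) (wd (unf M) (bw M v))⁻¹ (sr (s, i))))
  · obtain ⟨i, hi⟩ := hcase
    obtain ⟨⟨v', h1, h2, h3⟩, h4⟩ := all_or_none M hG D hM v hv s i hi
    exact Or.inl ⟨v', h1, h2, h3, h4⟩
  · push Not at hcase
    have hpos : ∀ j, IsPos (unf M) (toW (unf M) (wd (unf M) (bw M v))⁻¹ (sr (s, j))) := by
      intro j
      rcases IsRoot.pos_or_neg hG
        (isRoot_toW (unf M) (wd (unf M) (bw M v))⁻¹ (isRoot_sr (unf M) (s, j))) with h | h
      · exact h
      · exact absurd h (hcase j)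
    refine Or.inr ⟨?_, hpos⟩
    have := block_reduced M hG s (bw M v) hv hpos
    unfold MRed
    rw [bw_cons]
    exact this

/-- Every product of blocks has the same image as a reduced word. -/
theorem exists_MRed (hG : PosDef (unf M)) (D : TData (unf M)) (hM : ∀ s t, M s t ≠ 0)
    (l : List S) : ∃ l', MRed M l' ∧
      toW (unf M) (wd (unf M) (bw M l')) = toW (unf M) (wd (unf M) (bw M l)) := by
  induction l with
  | nil => exact ⟨[], mg_red_nil M hG, rfl⟩
  | cons s l ih =>
    obtain ⟨v, hv, hvw⟩ := ih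
    rcases mg_step M hG D hM s v hv with ⟨v', h1, _, h3, _⟩ | ⟨h1, _⟩
    · refine ⟨v', h1, ?_⟩
      have h4 : wd (unf M) (bw M v) = bgen M s * wd (unf M) (bw M v') := by
        rw [← wd_bw_cons]
        refine mg_wd_eq M hG ?_
        rw [aw_cons, h3]
      rw [wd_bw_cons, map_mul, ← hvw, h4, map_mul, ← mul_assoc, mg_bgen_bgen, one_mul]
    · refine ⟨s :: v, h1, ?_⟩
      rw [wd_bw_cons, wd_bw_cons, map_mul, map_mul, hvw]

private theorem mg_sum (v : S × UI M → ℤ) : v = ∑ s, v s • sr s := by
  ext t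
  simp [sr, Pi.single_apply]

private theorem mg_neg_all (g : AGrp (unf M))
    (h : ∀ s, IsPos (unf M) (-(toW (unf M) g (sr s)))) {γ : S × UI M → ℤ}
    (hγ : IsPos (unf M) γ) : IsPos (unf M) (-(toW (unf M) g γ)) := by
  refine ⟨isRoot_neg (unf M) (isRoot_toW (unf M) g hγ.1), fun x => ?_⟩
  have h1 : toW (unf M) g γ = ∑ s, γ s • toW (unf M) g (sr s) := by
    conv_lhs => rw [mg_sum M γ]
    rw [map_sum]
    exact Finset.sum_congr rfl fun s _ => map_zsmul _ _ _
  rw [h1, ← Finset.sum_neg_distrib, Finset.sum_apply]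
  refine Finset.sum_nonneg fun s _ => ?_
  have h2 := (h s).2 x
  have h3 := hγ.2 s
  simp only [Pi.neg_apply, Pi.smul_apply, smul_eq_mul] at h2 ⊢
  nlinarith

private theorem mg_lenN_congr {g g' : AGrp (unf M)} (h : toW (unf M) g = toW (unf M) g') :
    lenN (unf M) g = lenN (unf M) g' := by
  have h' : toW (unf M) g⁻¹ = toW (unf M) g'⁻¹ := by rw [map_inv, map_inv, h]
  unfold lenN
  rw [h']

private theorem mg_neg_all' (g : AGrp (unf M))
    (hall : ∀ γ, IsPos (unf M) γ → IsPos (unf M) (-(toW (unf M) g⁻¹ γ))) {γ : S × UI M → ℤ}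
    (hγ : IsPos (unf M) γ) : IsPos (unf M) (-(toW (unf M) g γ)) := by
  set σ : PRoot (unf M) → PRoot (unf M) := fun β => ⟨-(toW (unf M) g⁻¹ β.1), hall β.1 β.2⟩
    with hσ
  have hinj : Function.Injective σ := by
    intro β β' h
    have h1 := congrArg Subtype.val h
    simp only [hσ, neg_inj] at h1
    exact Subtype.ext ((toW (unf M) g⁻¹).injective h1)
  obtain ⟨β, hβ⟩ := (Finite.injective_iff_surjective.1 hinj) ⟨γ, hγ⟩
  have h1 : -(toW (unf M) g⁻¹ β.1) = γ := congrArg Subtype.val hβ
  have h2 : -(toW (unf M) g γ) = β.1 := by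
    rw [← h1, map_neg, neg_neg, mg_apply_inv]
  rw [h2]
  exact β.2

private theorem mg_bgen_sr (s : S) (i : UI M) :
    toW (unf M) (bgen M s) (sr (s, i)) = -(sr (s, i)) := by
  rw [toW_bgen, Finset.sum_eq_single i]
  · rw [pr_sr, cart_self, two_smul]
    abel
  · intro j _ hj
    have hne : ((s, j) : S × UI M) ≠ (s, i) := by
      intro h
      exact hj (congrArg Prod.snd h)
    rw [pr_sr, cart_not_adj (unf M) hne (not_adj_same M s j i), zero_smul]
  · intro h
    exact absurd (Finset.mem_univ i) h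

private noncomputable def mg_i0 : UI M := fun _ => ⟨0, by omega⟩

private theorem mg_card_pos : 0 < Fintype.card (UI M) :=
  Fintype.card_pos_iff.2 ⟨mg_i0 M⟩

/-- A reduced word of maximal length has all positive roots in its inversion set. -/
private theorem mg_max (hG : PosDef (unf M)) (D : TData (unf M)) (hM : ∀ s t, M s t ≠ 0)
    (Δ : List S) (hΔ : MRed M Δ) (hmax : ∀ l, MRed M l → l.length ≤ Δ.length) :
    (∀ s, ∃ u : List S, u.length + 1 = Δ.length ∧ aw M Δ = agen M s * aw M u) ∧
    ∀ γ, IsPos (unf M) γ → IsPos (unf M) (-(toW (unf M) (wd (unf M) (bw M Δ))⁻¹ γ)) := by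
  have key : ∀ s, (∃ u : List S, u.length + 1 = Δ.length ∧ aw M Δ = agen M s * aw M u) ∧
      ∀ j, IsPos (unf M) (-(toW (unf M) (wd (unf M) (bw M Δ))⁻¹ (sr (s, j)))) := by
    intro s
    rcases mg_step M hG D hM s Δ hΔ with ⟨v', _, h2, h3, h4⟩ | ⟨h1, _⟩
    · exact ⟨⟨v', h2, h3⟩, h4⟩
    · have := hmax _ h1
      simp at this
  refine ⟨fun s => (key s).1, fun γ hγ => ?_⟩
  exact mg_neg_all M _ (fun s => (key s.1).2 s.2) hγ

private theorem mg_core (hG : PosDef (unf M)) (D : TData (unf M)) (hM : ∀ s t, M s t ≠ 0) :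
    ∃ Δ : List S, MRed M Δ ∧ (∀ s, ∃ u : List S, aw M Δ = agen M s * aw M u) ∧
      (∀ s, ∃ t, aw M Δ * agen M s = agen M t * aw M Δ) := by
  obtain ⟨Δ, hΔ, hmax⟩ : ∃ Δ : List S, MRed M Δ ∧ ∀ l, MRed M l → l.length ≤ Δ.length := by
    set P : ℕ → Prop := fun k => ∃ l : List S, l.length = k ∧ MRed M l with hP
    have h0 : P 0 := ⟨[], rfl, mg_red_nil M hG⟩
    have hspec : P (Nat.findGreatest P (Fintype.card (PRoot (unf M)))) :=
      Nat.findGreatest_spec (Nat.zero_le _) h0
    obtain ⟨Δ, h1, h2⟩ := hspec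
    refine ⟨Δ, h2, fun l hl => ?_⟩
    rw [h1]
    refine Nat.le_findGreatest ?_ ⟨l, rfl, hl⟩
    have h3 := lenN_le_card hG (wd (unf M) (bw M l))
    rw [hl, bw_length] at h3
    have h4 := mg_card_pos M
    nlinarith
  obtain ⟨hdiv, hall⟩ := mg_max M hG D hM Δ hΔ hmax
  refine ⟨Δ, hΔ, fun s => ?_, fun s => ?_⟩
  · obtain ⟨u, _, hu⟩ := hdiv s
    exact ⟨u, hu⟩
  have hall' : ∀ γ, IsPos (unf M) γ →
      IsPos (unf M) (-(toW (unf M) (wd (unf M) (bw M Δ)) γ)) := fun γ hγ =>
    mg_neg_all' M _ hall hγ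
  obtain ⟨v, hv, hvw⟩ := exists_MRed M hG D hM (Δ ++ [s])
  have hsingle : wd (unf M) (bw M [s]) = bgen M s := by
    rw [wd_bw_cons]
    simp [bw, wd]
  have hvw' : toW (unf M) (wd (unf M) (bw M v)) =
      toW (unf M) (wd (unf M) (bw M Δ)) * toW (unf M) (bgen M s) := by
    rw [hvw, bw_append, wd_append, hsingle, map_mul]
  -- a simple root outside of the inversion set of `v`
  obtain ⟨t, j, htj⟩ : ∃ t j,
      ¬ IsPos (unf M) (-(toW (unf M) (wd (unf M) (bw M v))⁻¹ (sr (t, j)))) := by
    by_contra hcon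
    push Not at hcon
    have h1 := mg_neg_all M (wd (unf M) (bw M v))⁻¹ (fun x => hcon x.1 x.2)
      (hall' (sr (s, mg_i0 M)) (isPos_sr (unf M) _))
    have h2 : toW (unf M) (wd (unf M) (bw M v))⁻¹ =
        toW (unf M) (bgen M s) * toW (unf M) (wd (unf M) (bw M Δ))⁻¹ := by
      rw [map_inv, hvw', mul_inv_rev, toW_bgen_inv, map_inv]
    rw [h2, map_neg, neg_neg] at h1
    have h3 : (toW (unf M) (bgen M s) * toW (unf M) (wd (unf M) (bw M Δ))⁻¹)
        (toW (unf M) (wd (unf M) (bw M Δ)) (sr (s, mg_i0 M))) = -(sr (s, mg_i0 M)) := by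
      change toW (unf M) (bgen M s) (toW (unf M) (wd (unf M) (bw M Δ))⁻¹
        (toW (unf M) (wd (unf M) (bw M Δ)) (sr (s, mg_i0 M)))) = _
      rw [mg_inv_apply, mg_bgen_sr]
    rw [h3] at h1
    exact IsPos.not_neg (isPos_sr (unf M) _) h1
  refine ⟨t, ?_⟩
  have htv : MRed M (t :: v) := by
    rcases mg_step M hG D hM t v hv with ⟨_, _, _, _, h4⟩ | ⟨h1, _⟩
    · exact absurd (h4 j) htj
    · exact h1
  have hvs : toW (unf M) (wd (unf M) (bw M (v ++ [s]))) =
      toW (unf M) (wd (unf M) (bw M Δ)) := by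
    rw [bw_append, wd_append, hsingle, map_mul, hvw', mul_assoc, mg_bgen_bgen, mul_one]
  have hlen1 : v.length + 1 ≤ Δ.length := by
    have := hmax _ htv
    simpa using this
  have hlen2 : Δ.length ≤ v.length + 1 := by
    have h1 := lenN_wd_le hG (bw M (v ++ [s]))
    have h2 := mg_lenN_congr M hvs
    rw [h2] at h1
    have h3 : lenN (unf M) (wd (unf M) (bw M Δ)) = (bw M Δ).length := hΔ
    rw [h3, bw_length, bw_length] at h1
    have h4 := Nat.le_of_mul_le_mul_right h1 (mg_card_pos M)
    simpa using h4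
  have hlen : v.length + 1 = Δ.length := le_antisymm hlen1 hlen2
  have hvsred : MRed M (v ++ [s]) := by
    have h1 := mg_lenN_congr M hvs
    unfold MRed
    have h3 : lenN (unf M) (wd (unf M) (bw M Δ)) = (bw M Δ).length := hΔ
    rw [h1, h3, bw_length, bw_length, List.length_append, ← hlen]
    rfl
  obtain ⟨_, hallt⟩ := mg_max M hG D hM (t :: v) htv (fun l hl => by
    rw [List.length_cons, hlen]
    exact hmax l hl)
  have htw : toW (unf M) (wd (unf M) (bw M (t :: v))) = toW (unf M) (wd (unf M) (bw M Δ)) := by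
    have h1 := toW_eq_one_of_pos hG ((wd (unf M) (bw M (t :: v)))⁻¹ * wd (unf M) (bw M Δ))
      (fun γ hγ => by
        rw [mg_mul]
        have h2 := hallt _ (hall' γ hγ)
        rw [map_neg, neg_neg] at h2
        exact h2)
    rw [map_mul, map_inv] at h1
    exact (inv_mul_eq_one.1 h1)
  have e1 : wd (unf M) (bw M (t :: v)) = wd (unf M) (bw M Δ) :=
    wd_eq_of_reduced hG D _ _ htv hΔ htw
  have e2 : wd (unf M) (bw M (v ++ [s])) = wd (unf M) (bw M Δ) :=
    wd_eq_of_reduced hG D _ _ hvsred hΔ hvs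
  have f1 : aw M (t :: v) = aw M Δ := aw_eq_of_lkRep_eq M hG D hM _ _ (by rw [e1])
  have f2 : aw M (v ++ [s]) = aw M Δ := aw_eq_of_lkRep_eq M hG D hM _ _ (by rw [e2])
  have f3 : aw M [s] = agen M s := by simp [aw]
  rw [aw_append, f3] at f2
  calc aw M Δ * agen M s = agen M t * aw M v * agen M s := by rw [← f1, aw_cons]
    _ = agen M t * (aw M v * agen M s) := mul_assoc _ _ _
    _ = agen M t * aw M Δ := by rw [f2]

private theorem mg_agen_inj (hG : PosDef (unf M)) : Function.Injective (agen M) := by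
  intro s s' h
  by_contra hne
  have h1 : bgen M s = bgen M s' := by
    have h2 := congrArg (unfHom M hG) h
    rwa [unfHom, ArtinGroup.lift_agen, ArtinGroup.lift_agen] at h2
  have h3 := mg_bgen_sr M s (mg_i0 M)
  rw [h1, toW_bgen] at h3
  have h4 := congrFun h3 (s, mg_i0 M)
  have h5 : (∑ i, pr (unf M) (s', i) (sr (s, mg_i0 M)) • (sr (s', i) : S × UI M → ℤ))
      (s, mg_i0 M) = 0 := by
    rw [Finset.sum_apply]
    refine Finset.sum_eq_zero fun i _ => ?_
    have : ((s, mg_i0 M) : S × UI M) ≠ (s', i) := fun h => hne (congrArg Prod.fst h)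
    simp [sr, Pi.single_eq_of_ne this]
  rw [Pi.sub_apply, h5, Pi.neg_apply] at h4
  simp [sr] at h4

theorem exists_delta_M (hG : PosDef (unf M)) (D : TData (unf M)) (hM : ∀ s t, M s t ≠ 0) :
    ∃ Δ : List S, MRed M Δ ∧ (∀ s, ∃ u : List S, aw M Δ = agen M s * aw M u) ∧
      (∀ s, ∃ t, aw M Δ * agen M s = agen M t * aw M Δ) ∧
      (∀ t, ∃ s, aw M Δ * agen M s = agen M t * aw M Δ) := by
  obtain ⟨Δ, h1, h2, h3⟩ := mg_core M hG D hM
  refine ⟨Δ, h1, h2, h3, ?_⟩
  choose τ hτ using h3
  have hinj : Function.Injective τ := by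
    intro s s' h
    have h4 : aw M Δ * agen M s = aw M Δ * agen M s' := by rw [hτ, hτ, h]
    exact mg_agen_inj M hG (mul_left_cancel h4)
  intro t
  obtain ⟨s, rfl⟩ := (Finite.injective_iff_surjective.1 hinj) t
  exact ⟨s, hτ s⟩

theorem exists_fraction_M (hG : PosDef (unf M)) (D : TData (unf M)) (hM : ∀ s t, M s t ≠ 0) :
    ∃ Δ : List S, ∀ g : ArtinGroup M, ∃ (l : List S) (k : ℕ), g * aw M Δ ^ k = aw M l := by
  obtain ⟨Δ, _, h3, _, h5⟩ := exists_delta_M M hG D hM
  have h6 : ∀ l : List S, ∃ l' : List S, aw M l * aw M Δ = aw M Δ * aw M l' := by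
    intro l
    induction l with
    | nil => exact ⟨[], by simp [aw]⟩
    | cons t l ih =>
      obtain ⟨l', hl'⟩ := ih
      obtain ⟨s, hs⟩ := h5 t
      refine ⟨s :: l', ?_⟩
      rw [aw_cons, aw_cons, mul_assoc, hl', ← mul_assoc, ← hs, mul_assoc]
  refine ⟨Δ, fun g => ?_⟩
  have hg : g ∈ Subgroup.closure (Set.range (PresentedGroup.of (rels := artinRelM M))) := by
    rw [PresentedGroup.closure_range_of]
    trivial
  induction hg using Subgroup.closure_induction_left with
  | one => exact ⟨[], 0, by simp [aw]⟩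
  | mul_left x hx y _ ih =>
    obtain ⟨s, rfl⟩ := hx
    obtain ⟨l, k, hl⟩ := ih
    refine ⟨s :: l, k, ?_⟩
    rw [aw_cons, ← hl, ← mul_assoc]
    rfl
  | inv_mul_cancel x hx y _ ih =>
    obtain ⟨s, rfl⟩ := hx
    obtain ⟨l, k, hl⟩ := ih
    obtain ⟨l', hl'⟩ := h6 l
    obtain ⟨u, hu⟩ := h3 s
    refine ⟨u ++ l', k + 1, ?_⟩
    have h7 : PresentedGroup.of (rels := artinRelM M) s = agen M s := rfl
    rw [h7, aw_append, pow_succ, ← mul_assoc, mul_assoc (agen M s)⁻¹ y, hl, mul_assoc, hl', hu,
      mul_assoc, inv_mul_cancel_left]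

private theorem mg_pow (Δ : List S) (k : ℕ) : ∃ l : List S, aw M Δ ^ k = aw M l := by
  induction k with
  | zero => exact ⟨[], by simp [aw]⟩
  | succ k ih =>
    obtain ⟨l, hl⟩ := ih
    exact ⟨l ++ Δ, by rw [pow_succ, hl, aw_append]⟩

theorem lkRep_unfHom_injective (hG : PosDef (unf M)) (D : TData (unf M))
    (hM : ∀ s t, M s t ≠ 0) :
    Function.Injective ((lkRep hG D xU tU : AGrp (unf M) →* _).comp (unfHom M hG)) := by
  rw [injective_iff_map_eq_one]
  intro g hg
  obtain ⟨Δ, hΔ⟩ := exists_fraction_M M hG D hM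
  obtain ⟨l, k, hl⟩ := hΔ g
  obtain ⟨l', hl'⟩ := mg_pow M Δ k
  rw [MonoidHom.comp_apply] at hg
  have h1 : lkRep hG D xU tU (wd (unf M) (bw M l)) = lkRep hG D xU tU (wd (unf M) (bw M l')) := by
    rw [← unfHom_aw M hG, ← unfHom_aw M hG, ← hl, ← hl', map_mul, map_mul, hg, one_mul]
  have h2 := aw_eq_of_lkRep_eq M hG D hM l l' h1
  rw [← hl, ← hl'] at h2
  exact mul_eq_right.1 h2

end SPH
end

section

/-! # The simply laced case (job M1) -/

namespace SPH

open scoped Classical

universe u

set_option linter.unusedSectionVars false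

variable {S : Type u} [Fintype S] [DecidableEq S] {G : SimpleGraph S}

theorem m1_finite_conf (hG : PosDef G) (I : Type) [Finite I] : Finite (Conf G I) := by
  have hf : ({0} ∪ {v : S → ℤ | IsRoot G v}).Finite := (Set.finite_singleton _).union
    (finite_root hG)
  have := hf.to_subtype
  have hmem : ∀ (κ : Conf G I) i j, κ.1 i j ∈ ({0} ∪ {v : S → ℤ | IsRoot G v} : Set (S → ℤ)) := by
    intro κ i j
    by_cases h : i = j
    · left
      have h2 := κ.2.1 i i i
      rw [h] at h2 ⊢
      have h3 := κ.2.1 j j j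
      simpa using h3
    · exact Or.inr (κ.2.2 i j h)
  refine Finite.of_injective (β := I → I → ({0} ∪ {v : S → ℤ | IsRoot G v} : Set (S → ℤ)))
    (fun κ i j => ⟨κ.1 i j, hmem κ i j⟩) ?_
  intro κ κ' h
  refine Subtype.ext (funext fun i => funext fun j => ?_)
  exact congrArg Subtype.val (congrFun (congrFun h i) j)

/-- The configuration with two points and difference `α`. -/
def m1Conf (α : S → ℤ) (hα : IsRoot G α) : Conf G (ZMod 2) :=
  ⟨fun i j => (if i = 1 then α else 0) - (if j = 1 then α else 0), fun i j k => by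
    rw [sub_add_sub_cancel],
    fun i j h => by
      have h' : (i = 0 ∧ j = 1) ∨ (i = 1 ∧ j = 0) := by
        revert i j; decide
      rcases h' with ⟨rfl, rfl⟩ | ⟨rfl, rfl⟩
      · simpa using isRoot_neg G hα
      · simpa using hα⟩

theorem m1Conf_apply (α : S → ℤ) (hα : IsRoot G α) : (m1Conf α hα).1 1 0 = α := by
  simp [m1Conf]

theorem m1_toW_eq_one (g : AGrp G) (h : ∀ s, (toW G g) (sr s) = sr s) : toW G g = 1 := by
  have h2 : (toW G g : (S → ℤ) →ₗ[ℤ] (S → ℤ)) = LinearMap.id := by
    refine (Pi.basisFun ℤ S).ext fun s => ?_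
    rw [Pi.basisFun_apply]
    exact h s
  ext1 v
  exact LinearMap.congr_fun h2 v

theorem m1_cw_of_toW (g : AGrp G) (hg : toW G g = 1) {I : Type} (κ : Conf G I) :
    cw G g⁻¹ κ = κ := by
  refine Subtype.ext (funext fun i => funext fun j => ?_)
  change toW G g⁻¹ (κ.1 i j) = κ.1 i j
  rw [map_inv, hg, inv_one]
  rfl

theorem m1_tU : (tU : PowerSeries ℤ) - 1 = PowerSeries.X := by
  rw [tU_val]; ring

theorem m1_bu_mod (hG : PosDef G) (g : AGrp G) (hg : toW G g = 1) (I : Type) [Fintype I] :
    ∃ Y : Module.End (PowerSeries ℤ) (Conf G I → I → PowerSeries ℤ),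
      (buRep G hG tU I g).val = 1 + (PowerSeries.X : PowerSeries ℤ) • Y := by
  obtain ⟨Y, hY⟩ := buRep_mod (I := I) G hG tU g
  refine ⟨Y, LinearMap.ext fun F => ?_⟩
  rw [hY F, m1_tU]
  simp only [m1_cw_of_toW g hg]
  rfl

theorem m1_cw_eq (hG : PosDef G) (g : AGrp G) (I : Type) [Fintype I] [Nonempty I]
    (Y' : Module.End (PowerSeries ℤ) (Conf G I → I → PowerSeries ℤ))
    (h : (buRep G hG tU I g).val = 1 + (PowerSeries.X : PowerSeries ℤ) • Y') (κ : Conf G I) :
    cw G g⁻¹ κ = κ := by
  obtain ⟨Y, hY⟩ := buRep_mod (I := I) G hG tU g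
  by_contra hne
  obtain ⟨i⟩ := ‹Nonempty I›
  let F : Conf G I → I → PowerSeries ℤ := fun κ' _ => if κ' = κ then 1 else 0
  have h1 := congrFun (congrFun (hY F) κ) i
  rw [h, m1_tU] at h1
  have h2 : F κ i + PowerSeries.X * Y' F κ i = F (cw G g⁻¹ κ) i + PowerSeries.X * Y F κ i := h1
  have h3 := congrArg (PowerSeries.constantCoeff (R := ℤ)) h2
  simp [F, hne] at h3

theorem m1_toW_of_bu (hG : PosDef G) (g : AGrp G)
    (Y' : Module.End (PowerSeries ℤ) (Conf G (ZMod 2) → ZMod 2 → PowerSeries ℤ))
    (h : (buRep G hG tU (ZMod 2) g).val = 1 + (PowerSeries.X : PowerSeries ℤ) • Y') :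
    toW G g = 1 := by
  have key : toW G g⁻¹ = 1 := by
    refine m1_toW_eq_one g⁻¹ fun s => ?_
    have h1 := m1_cw_eq hG g (ZMod 2) Y' h (m1Conf (sr s) (isRoot_sr G s))
    have h2 := congrFun (congrFun (congrArg Subtype.val h1) 1) 0
    change toW G g⁻¹ ((m1Conf (sr s) (isRoot_sr G s)).1 1 0) = _ at h2
    rwa [m1Conf_apply] at h2
  rw [map_inv, inv_eq_one] at key
  exact key

theorem m1_ofBasis_h_mul {V : Type u} [AddCommGroup V] [Module (PowerSeries ℤ) V]
    {X : Type u} [Finite X] (b : Module.Basis X (PowerSeries ℤ) V)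
    (y : Module.End (PowerSeries ℤ) V) :
    (HRing.ofBasis b).h * y = (PowerSeries.X : PowerSeries ℤ) • y := by
  have := HRing.ofBasis_h_pow b 1 y
  rwa [pow_one, pow_one] at this

/-- General form: a group with a homomorphism to a simply laced Artin group on which the
Lawrence-Krammer representation is faithful. -/
theorem noZeroDivisors_of_hom_of (hG : PosDef G) [Fintype (PRoot G)] (D : TData G) {A : Type u}
    [Group A] (φ : A →* AGrp G)
    (hφ : Function.Injective ((lkRep hG D xU tU : AGrp G →* _).comp φ)) (K : Type u) [Field K]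
    (hFS : ∀ (Γ : Type u) [Group Γ] (N : Subgroup Γ) [N.Normal] [N.FiniteIndex], CPZ N →
      (∀ (g : Γ) (n : ℕ), n ≠ 0 → g ^ n = 1 → g = 1) → NoZeroDivisors (MonoidAlgebra K Γ)) :
    NoZeroDivisors (MonoidAlgebra K A) := by
  have hfin := finite_range_toW hG
  let B : ℕ := Nat.card (toW G).range
  have hB : 0 < B := Nat.card_pos
  let J : Type := {p : ℕ // p.Prime ∧ p ≤ B + 2}
  have hJfin : Finite J := (Set.finite_le_nat (B + 2)).subset
    (fun p (hp : p.Prime ∧ p ≤ B + 2) => hp.2) |>.to_subtype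
  let j2 : J := ⟨2, Nat.prime_two, by omega⟩
  have hJne : Nonempty J := ⟨j2⟩
  have hfact : ∀ p : J, Fact p.1.Prime := fun p => ⟨p.2.1⟩
  have hcf : ∀ p : J, Finite (Conf G (ZMod p.1)) := fun p => m1_finite_conf hG _
  have hcf' : ∀ p : J, Fintype (Conf G (ZMod p.1)) := fun p => Fintype.ofFinite _
  let M : J → Type u := fun p => Module.End (PowerSeries ℤ)
    (Conf G (ZMod p.1) → ZMod p.1 → PowerSeries ℤ)
  let H0 : HRing (Module.End (PowerSeries ℤ) (PRoot G → PowerSeries ℤ)) :=
    HRing.ofBasis (Pi.basisFun (PowerSeries ℤ) (PRoot G))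
  let Hp : ∀ p : J, HRing (M p) := fun p =>
    HRing.ofBasis (Pi.basis fun _ : Conf G (ZMod p.1) => Pi.basisFun (PowerSeries ℤ) (ZMod p.1))
  let H := HRing.prod H0 (HRing.pi M Hp)
  let ρ0 : AGrp G →* (Module.End (PowerSeries ℤ) (PRoot G → PowerSeries ℤ) × ∀ p, M p)ˣ :=
    (MulEquiv.prodUnits.symm.toMonoidHom).comp
      ((lkRep hG D xU tU).prod (MulEquiv.piUnits.symm.toMonoidHom.comp
        (MonoidHom.pi fun p : J => buRep G hG tU (ZMod p.1))))
  have hρ1 : ∀ g, (ρ0 g).val.1 = (lkRep hG D xU tU g).val := fun g => rfl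
  have hρ2 : ∀ g (p : J), (ρ0 g).val.2 p = (buRep G hG tU (ZMod p.1) g).val := fun g p => rfl
  have : ((toW G).ker.comap φ).FiniteIndex := by
    have := finiteIndex_ker_toW hG
    refine ⟨?_⟩
    rw [Subgroup.index_comap]
    exact (Subgroup.isFiniteRelIndex_of_finiteIndex (K := φ.range)).relIndex_ne_zero
  refine assembly_of H ((toW G).ker.comap φ) (ρ0.comp φ) ?_ ?_ ?_ (B + 2) (by omega) ?_ K hFS
  · -- injectivity
    intro a b hab
    apply hφ
    have h1 : ρ0 (φ a) = ρ0 (φ b) := hab
    apply Units.ext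
    change (lkRep hG D xU tU (φ a)).val = (lkRep hG D xU tU (φ b)).val
    rw [← hρ1, ← hρ1, h1]
  · -- pure elements
    intro g hg
    have hg1 : toW G (φ g) = 1 := hg
    obtain ⟨Y0, hY0⟩ := lkRep_mod hG D (φ g) hg1
    choose Y hY using fun p : J => m1_bu_mod hG (φ g) hg1 (ZMod p.1)
    refine ⟨(Y0, Y), Prod.ext ?_ (funext fun p => ?_)⟩
    · change (ρ0 (φ g)).val.1 = 1 + H0.h * Y0
      rw [hρ1, hY0, m1_ofBasis_h_mul]
    · change (ρ0 (φ g)).val.2 p = 1 + (Hp p).h * Y p
      rw [hρ2, hY, m1_ofBasis_h_mul]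
  · -- detection
    rintro g ⟨y, hy⟩
    change toW G (φ g) = 1
    have h1 : (ρ0 (φ g)).val.2 j2 = 1 + (Hp j2).h * y.2 j2 :=
      congrFun (congrArg Prod.snd hy) j2
    rw [hρ2, m1_ofBasis_h_mul] at h1
    exact m1_toW_of_bu hG (φ g) _ h1
  · -- no torsion
    rintro g hg p hp hgp ⟨y, hy⟩
    have h1 : toW G (φ g) ≠ 1 := hg
    have h2 : toW G (φ g) ^ p = 1 := by
      have : toW G (φ (g ^ p)) = 1 := hgp
      rwa [map_pow, map_pow] at this
    have hpB : p ≤ B := by
      have h3 : orderOf (⟨toW G (φ g), ⟨φ g, rfl⟩⟩ : (toW G).range) = p := by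
        have := Fact.mk hp
        apply orderOf_eq_prime
        · exact Subtype.ext h2
        · intro h
          exact h1 (congrArg Subtype.val h)
      have h4 := orderOf_dvd_natCard (⟨toW G (φ g), ⟨φ g, rfl⟩⟩ : (toW G).range)
      rw [h3] at h4
      exact Nat.le_of_dvd hB h4
    let j : J := ⟨p, hp, by omega⟩
    have := Fact.mk hp
    have h5 : (ρ0 (φ (g ^ p))).val.2 j = 1 + (Hp j).h ^ (B + 2) * y.2 j :=
      congrFun (congrArg Prod.snd hy) j
    rw [hρ2, HRing.ofBasis_h_pow, map_pow] at h5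
    exact no_torsion G hG p (φ g) h1 h2 (B + 2) (by omega) ⟨_, h5⟩

end SPH
end

section

/-! # Spherical Artin groups, relative to the Farkas-Snider theorem for the field -/

namespace SPH

open scoped Classical

universe u

/-- For every spherical Artin group `A` and every field `K` for which the group algebras of torsion
free virtually CPZ groups have no zero divisors, the group algebra `K[A]` has no zero divisors. -/
theorem noZeroDivisors_of_spherical_of {S : Type u} [Fintype S] (M : CoxeterMatrix S)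
    (h : Finite M.Group) (K : Type u) [Field K]
    (hFS : ∀ (Γ : Type u) [Group Γ] (N : Subgroup Γ) [N.Normal] [N.FiniteIndex], CPZ N →
      (∀ (g : Γ) (n : ℕ), n ≠ 0 → g ^ n = 1 → g = 1) → NoZeroDivisors (MonoidAlgebra K Γ)) :
    NoZeroDivisors (MonoidAlgebra K (ArtinGroup M)) := by
  have := Classical.decEq S
  have hc := cform_pos M h
  have hG := unf_posDef M hc
  have hM := ne_zero_of_cform_pos M hc
  have hfin : Finite (PRoot (unf M)) := by
    have := finite_root hG
    exact (this.subset fun v (hv : IsPos (unf M) v) => hv.1).to_subtype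
  have := Fintype.ofFinite (PRoot (unf M))
  obtain ⟨D⟩ := exists_TData hG
  exact noZeroDivisors_of_hom_of hG D (unfHom M hG) (lkRep_unfHom_injective M hG D hM) K hFS

end SPH
end

section

/-! # The zero divisor theorem for torsion free virtually CPZ groups, all fields (job P18) -/

namespace SPH

universe u v

private theorem fsa_conj_pow {Γ : Type u} [Group Γ] (x g : Γ) (s : ℕ) (h : x * g * x⁻¹ = g ^ s)
    (k : ℕ) : x ^ k * g * (x ^ k)⁻¹ = g ^ (s ^ k) := by
  induction k with
  | zero => simp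
  | succ k ih =>
    have h1 : x ^ (k + 1) * g * (x ^ (k + 1))⁻¹ = x * (x ^ k * g * (x ^ k)⁻¹) * x⁻¹ := by
      rw [pow_succ']
      group
    rw [h1, ih, ← conj_pow, h, ← pow_mul, pow_succ']

private theorem fsa_hyp {Γ : Type u} [Group Γ]
    (N : Subgroup Γ) [N.Normal] [N.FiniteIndex] (h : CPZ N)
    (htf : ∀ (g : Γ) (n : ℕ), n ≠ 0 → g ^ n = 1 → g = 1) :
    ∀ g : Γ, g ∉ N → ∀ (x : Γ) (s : ℕ), 2 ≤ s → x * g * x⁻¹ ≠ g ^ s := by
  intro g hg x s hs hc
  have hM : N.index ≠ 0 := Subgroup.FiniteIndex.index_ne_zero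
  have hgM : g ^ N.index ∈ N := Subgroup.pow_index_mem N g
  have hxM : x ^ N.index ∈ N := Subgroup.pow_index_mem N x
  have h3 := fsa_conj_pow x g s hc N.index
  have h4 : x ^ N.index * g ^ N.index * (x ^ N.index)⁻¹ = (g ^ N.index) ^ (s ^ N.index) := by
    rw [← conj_pow, h3, ← pow_mul, ← pow_mul, mul_comm]
  have h5 : 2 ≤ s ^ N.index := hs.trans (Nat.le_self_pow hM s)
  have h6 := h.eq_one_of_conj ⟨x ^ N.index, hxM⟩ ⟨g ^ N.index, hgM⟩ (s ^ N.index) h5
    (Subtype.ext h4)
  have h7 : g ^ N.index = 1 := congrArg Subtype.val h6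
  have h8 := htf g _ hM h7
  exact hg (h8 ▸ N.one_mem)

private theorem fsa_perfect {K : Type u} [Field K] (p : ℕ) [Fact p.Prime] [CharP K p]
    [PerfectRing K p] {Γ : Type u} [Group Γ]
    (N : Subgroup Γ) [N.Normal] [N.FiniteIndex] (h : CPZ N)
    (htf : ∀ (g : Γ) (n : ℕ), n ≠ 0 → g ^ n = 1 → g = 1) :
    NoZeroDivisors (MonoidAlgebra K Γ) := by
  classical
  have hP := h.polyZ
  have i1 : IsDomain (MonoidAlgebra K N) := hP.isDomain K
  have i2 : IsNoetherianRing (MonoidAlgebra K N) := hP.isNoetherianRing K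
  have i3 : Module.Free (MonoidAlgebra K N) (MonoidAlgebra K Γ) := free_sub N
  have i4 : Module.Finite (MonoidAlgebra K N) (MonoidAlgebra K Γ) := finite_sub N
  obtain ⟨d, hd⟩ := hP.exists_PZr
  refine noZeroDivisors_of_rank_pd (R := MonoidAlgebra K N) (S := MonoidAlgebra K Γ) N.index
    (finrank_sub N) ?_ ?_
  · intro M _ _
    exact ⟨d * N.index, fpd K N.index d htf N le_rfl hd M⟩
  · intro n e he
    have hE : LinearMap.toMatrixRight' e * LinearMap.toMatrixRight' e =
        LinearMap.toMatrixRight' e := by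
      rw [← LinearMap.toMatrixRight'_comp, he]
    have h2 : Matrix.toLinearMapRight' (LinearMap.toMatrixRight' e) = e :=
      LinearMap.toMatrixRight'.symm_apply_apply e
    have h1 := finrank_range_idem_charP p N h (fsa_hyp N h htf) _ hE
    rw [h2] at h1
    exact ⟨_, h1⟩

private theorem fsa_map_inj {K L : Type u} [Field K] [Field L] {Γ : Type u} [Group Γ]
    (f : K →+* L) : Function.Injective (MonoidAlgebra.mapRingHom Γ f) := by
  intro x y hxy
  apply MonoidAlgebra.coeff_injective
  ext g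
  have h := congrArg (fun z => z.coeff g) hxy
  simp only [MonoidAlgebra.coeff_mapRingHom] at h
  exact f.injective h

theorem farkas_snider_all {K : Type u} [Field K] {Γ : Type u} [Group Γ]
    (N : Subgroup Γ) [N.Normal] [N.FiniteIndex] (h : CPZ N)
    (htf : ∀ (g : Γ) (n : ℕ), n ≠ 0 → g ^ n = 1 → g = 1) :
    NoZeroDivisors (MonoidAlgebra K Γ) := by
  obtain ⟨p, hp⟩ := CharP.exists K
  rcases CharP.char_is_prime_or_zero K p with hp' | rfl
  · have := Fact.mk hp'
    have i1 : NoZeroDivisors (MonoidAlgebra (AlgebraicClosure K) Γ) := fsa_perfect p N h htf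
    exact Function.Injective.noZeroDivisors
      (MonoidAlgebra.mapRingHom Γ (algebraMap K (AlgebraicClosure K)))
      (fsa_map_inj (algebraMap K (AlgebraicClosure K)))
      (map_zero _) (map_mul _)
  · have := CharP.charP_to_charZero K
    exact farkas_snider N h htf

end SPH
end

section

/-! # The zero divisor theorem for spherical Artin groups, all fields -/

namespace SPH

universe u

/-- For every spherical Artin group `A` and every field `K`, the group algebra `K[A]` has no zero
divisors. -/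
theorem noZeroDivisors_of_spherical {S : Type u} [Fintype S] (M : CoxeterMatrix S)
    (h : Finite M.Group) (K : Type u) [Field K] :
    NoZeroDivisors (MonoidAlgebra K (ArtinGroup M)) :=
  noZeroDivisors_of_spherical_of M h K (fun _ _ N _ _ hN htf => farkas_snider_all N hN htf)

end SPH
end

section

/-! # The zero divisor theorem for spherical Artin groups, all fields, all universes -/

namespace SPH

universe u v

theorem su_map_altProd {A B : Type*} [Monoid A] [Monoid B] (f : A →* B) (a b : A) (n : ℕ) :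
    f (altProd a b n) = altProd (f a) (f b) n := by
  induction n generalizing a b with
  | zero => exact map_one f
  | succ n ih =>
    change f (a * altProd b a n) = f a * altProd (f b) (f a) n
    rw [map_mul, ih]

theorem su_artinRelM_reindex {S : Type u} {S' : Type v} (M : CoxeterMatrix S) (e : S ≃ S') :
    artinRelM (M.reindex e) = FreeGroup.freeGroupCongr e '' artinRelM M := by
  ext r
  constructor
  · rintro ⟨s, t, hst, rfl⟩
    refine ⟨_, ⟨e.symm s, e.symm t, hst, rfl⟩, ?_⟩
    have h : ∀ x, FreeGroup.freeGroupCongr e x = (FreeGroup.freeGroupCongr e).toMonoidHom x :=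
      fun x => rfl
    rw [h, map_mul, map_inv, su_map_altProd, su_map_altProd]
    simp [CoxeterMatrix.reindex_apply]
  · rintro ⟨_, ⟨s, t, hst, rfl⟩, rfl⟩
    refine ⟨e s, e t, ?_, ?_⟩
    · rw [CoxeterMatrix.reindex_apply]
      simpa using hst
    · have h : ∀ x, FreeGroup.freeGroupCongr e x = (FreeGroup.freeGroupCongr e).toMonoidHom x :=
        fun x => rfl
      rw [h, map_mul, map_inv, su_map_altProd, su_map_altProd]
      simp [CoxeterMatrix.reindex_apply]

/-- Reindexing the Artin group. -/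
def su_equiv {S : Type u} {S' : Type v} (M : CoxeterMatrix S) (e : S ≃ S') :
    ArtinGroup M ≃* ArtinGroup (M.reindex e) :=
  (PresentedGroup.equivPresentedGroup (artinRelM M) e).trans
    (QuotientGroup.quotientMulEquivOfEq (by rw [su_artinRelM_reindex]))

/-- For every spherical Artin group `A` and every field `K`, the group algebra `K[A]` has no zero
divisors. -/
theorem noZeroDivisors_of_spherical_univ {S : Type u} [Finite S] (M : CoxeterMatrix S)
    (h : Finite M.Group) (K : Type v) [Field K] :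
    NoZeroDivisors (MonoidAlgebra K (ArtinGroup M)) := by
  let e : S ≃ ULift.{v} (Fin (Nat.card S)) := (Finite.equivFin S).trans Equiv.ulift.symm
  have h' : Finite (M.reindex e).Group := Finite.of_equiv _ (M.reindexGroupEquiv e).symm.toEquiv
  have h1 := noZeroDivisors_of_spherical (M.reindex e) h' K
  exact (MonoidAlgebra.mapDomainRingEquiv K (su_equiv M e)).injective.noZeroDivisors _
    (map_zero _) (map_mul _)

end SPH
end
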