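import Pool.Agent.Lib.MP_7b9603_al.Spherical
import Pool.Agent.Lib.MP_7b9603_al.FarkasSnider

/-! # The zero divisor theorem for spherical Artin groups in characteristic zero -/

namespace SPH

universe u

/-- For every spherical Artin group `A` and every field `K` of characteristic zero, the group
algebra `K[A]` has no zero divisors. -/
theorem noZeroDivisors_of_spherical_zero {S : Type u} [Fintype S] (M : CoxeterMatrix S)
    (h : Finite M.Group) (K : Type u) [Field K] [CharZero K] :
    NoZeroDivisors (MonoidAlgebra K (ArtinGroup M)) :=
  noZeroDivisors_of_spherical_of M h K (fun _ _ N _ _ hN htf => farkas_snider N hN htf)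

end SPH
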